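import Pool.Agent.Lib.MP_5e4520_ntE.ADefs
set_option autoImplicit false

namespace MP_5e4520_nt.Ex

open Finset

private theorem A1_tele (f : ℕ → ℝ) (p n : ℕ) :
    ∑ i ∈ Ico p (p + n), (f (i + 1) - f i) = f (p + n) - f p := by
  rw [Finset.sum_Ico_eq_sum_range]
  have h := Finset.sum_range_sub (fun i => f (p + i)) n
  have e : p + n - p = n := by omega
  rw [e]
  simpa [add_assoc] using h

private theorem A1_one (f : ℕ → ℝ) (C : ℝ) (h0 : ∀ i, 0 ≤ f i) (h1 : ∀ i, f i ≤ C)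
    (p n x : ℕ) : ∑ i ∈ Ico p (p + n), (f i - f (i + x)) ≤ C * x := by
  induction x with
  | zero => simp
  | succ x ih =>
    have h2 := A1_tele (fun i => f (i + x)) p n
    have h3 : ∑ i ∈ Ico p (p + n), (f i - f (i + (x + 1))) =
        ∑ i ∈ Ico p (p + n), (f i - f (i + x)) -
          ∑ i ∈ Ico p (p + n), (f (i + 1 + x) - f (i + x)) := by
      rw [← Finset.sum_sub_distrib]
      apply Finset.sum_congr rfl
      intro i _
      have : i + (x + 1) = i + 1 + x := by ring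
      rw [this]
      ring
    rw [h3]
    rw [h2]
    have h4 := h0 (p + n + x)
    have h5 := h1 (p + x)
    push_cast
    linarith

/-- JOB A1.  Shift lemma on a square: the cells of `sq p n` that are not in the shifted square `sq p n + (x,y)` number at most
`(x+y) n`, and all values of `φ` are in `[0, C]`.
(`∑_{c ∈ sq} φ(c+(x,y)) = ∑_{c' ∈ sq+(x,y)} φ(c') ≥ ∑_{sq ∩ (sq+(x,y))} φ`.) -/
theorem shift_sq (φ : ℕ → ℕ → ℝ) (C : ℝ) (h0 : ∀ i j, 0 ≤ φ i j) (h1 : ∀ i j, φ i j ≤ C)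
    (p n x y : ℕ) :
    ∑ c ∈ sq p n, (φ c.1 c.2 - φ (c.1 + x) (c.2 + y)) ≤ C * ((x + y) * n) := by
  unfold sq
  have e1 : ∑ c ∈ (Ico p (p + n)) ×ˢ (Ico p (p + n)), (φ c.1 c.2 - φ (c.1 + x) (c.2 + y)) =
      ∑ c ∈ (Ico p (p + n)) ×ˢ (Ico p (p + n)), (φ c.1 c.2 - φ (c.1 + x) c.2) +
      ∑ c ∈ (Ico p (p + n)) ×ˢ (Ico p (p + n)), (φ (c.1 + x) c.2 - φ (c.1 + x) (c.2 + y)) := by
    rw [← Finset.sum_add_distrib]
    apply Finset.sum_congr rfl
    intro c _
    ring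
  rw [e1, Finset.sum_product_right, Finset.sum_product]
  have e2 : ∑ j ∈ Ico p (p + n), ∑ i ∈ Ico p (p + n), (φ i j - φ (i + x) j) ≤
      ∑ j ∈ Ico p (p + n), C * x := by
    apply Finset.sum_le_sum
    intro j _
    exact A1_one (fun i => φ i j) C (fun i => h0 i j) (fun i => h1 i j) p n x
  have e3 : ∑ i ∈ Ico p (p + n), ∑ j ∈ Ico p (p + n), (φ (i + x) j - φ (i + x) (j + y)) ≤
      ∑ i ∈ Ico p (p + n), C * y := by
    apply Finset.sum_le_sum
    intro i _
    exact A1_one (fun j => φ (i + x) j) C (fun j => h0 _ j) (fun j => h1 _ j) p n y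
  simp only [Finset.sum_const, Nat.card_Ico, nsmul_eq_mul] at e2 e3
  have e : ((p + n - p : ℕ) : ℝ) = n := by
    congr 1
    omega
  rw [e] at e2 e3
  simp only at e2 e3 ⊢
  nlinarith

/-- the other direction (apply `shift_sq` to `C - φ`) -/
theorem shift_sq' (φ : ℕ → ℕ → ℝ) (C : ℝ) (h0 : ∀ i j, 0 ≤ φ i j) (h1 : ∀ i j, φ i j ≤ C)
    (p n x y : ℕ) :
    ∑ c ∈ sq p n, (φ (c.1 + x) (c.2 + y) - φ c.1 c.2) ≤ C * ((x + y) * n) := by
  have h := shift_sq (fun i j => C - φ i j) C (fun i j => by linarith [h1 i j])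
    (fun i j => by linarith [h0 i j]) p n x y
  refine le_trans (le_of_eq ?_) h
  apply Finset.sum_congr rfl
  intro c _
  ring

/-- two dimensional telescoping -/
theorem tele_sq (g : ℕ → ℕ → ℝ) (p n : ℕ) :
    ∑ c ∈ sq p n, (g (c.1 + 1) (c.2 + 1) - g (c.1 + 1) c.2 - g c.1 (c.2 + 1) + g c.1 c.2) =
      g (p + n) (p + n) - g (p + n) p - g p (p + n) + g p p := by
  unfold sq
  rw [Finset.sum_product]
  have e1 : ∀ i ∈ Ico p (p + n), ∑ j ∈ Ico p (p + n),
      (g (i + 1) (j + 1) - g (i + 1) j - g i (j + 1) + g i j) =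
      (g (i + 1) (p + n) - g (i + 1) p) - (g i (p + n) - g i p) := by
    intro i _
    have h1 := A1_tele (fun j => g (i + 1) j) p n
    have h2 := A1_tele (fun j => g i j) p n
    rw [← h1, ← h2, ← Finset.sum_sub_distrib]
    apply Finset.sum_congr rfl
    intro j _
    ring
  simp only
  rw [Finset.sum_congr rfl e1]
  have h3 := A1_tele (fun i => g i (p + n) - g i p) p n
  rw [h3]
  ring

end MP_5e4520_nt.Ex
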