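import Pool.Agent.Lib.MP_5e4520_ntE.ADefs
set_option autoImplicit false

namespace MP_5e4520_nt.Ex

open Finset

variable {E : ℕ → ℕ → ℕ → ℕ → ℝ} {lam : ℝ} {M : ℕ}

/-- submodularity of `h4` -/
theorem A2_sub (hE : Poly E lam M) (σ A B K L A' B' K' L' : ℕ) :
    h4 E σ (max A A') (max B B') (max K K') (max L L') +
      h4 E σ (min A A') (min B B') (min K K') (min L L') ≤
      h4 E σ A B K L + h4 E σ A' B' K' L' := by
  have m3 : Monotone (fun n : ℕ => 3 * n * σ) := fun a b h => by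
    simp only
    gcongr
  have m1 : Monotone (fun n : ℕ => n * σ) := fun a b h => by
    simp only
    gcongr
  have h := hE.sub (3 * A * σ) (3 * B * σ) (K * σ) (L * σ) (3 * A' * σ) (3 * B' * σ) (K' * σ) (L' * σ)
  have eA : max (3 * A * σ) (3 * A' * σ) = 3 * max A A' * σ := (m3.map_max (a := A) (b := A')).symm
  have eB : max (3 * B * σ) (3 * B' * σ) = 3 * max B B' * σ := (m3.map_max (a := B) (b := B')).symm
  have eK : max (K * σ) (K' * σ) = max K K' * σ := (m1.map_max (a := K) (b := K')).symm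
  have eL : max (L * σ) (L' * σ) = max L L' * σ := (m1.map_max (a := L) (b := L')).symm
  have fA : min (3 * A * σ) (3 * A' * σ) = 3 * min A A' * σ := (m3.map_min (a := A) (b := A')).symm
  have fB : min (3 * B * σ) (3 * B' * σ) = 3 * min B B' * σ := (m3.map_min (a := B) (b := B')).symm
  have fK : min (K * σ) (K' * σ) = min K K' * σ := (m1.map_min (a := K) (b := K')).symm
  have fL : min (L * σ) (L' * σ) = min L L' * σ := (m1.map_min (a := L) (b := L')).symm
  rw [eA, eB, eK, eL, fA, fB, fK, fL] at h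
  exact h

/-- JOB A2 (basic facts on `h4`).  Diminishing increments: if `(A,B,K,L) ≤ (A',B',K',L')`, then the increment of `E` in one
coordinate, started at a point with the same value of this coordinate, is smaller at the larger point (`Poly.sub` applied to
the incremented smaller point and the larger point, the max/min are explicit). -/
theorem h4_incA (hE : Poly E lam M) (σ A n B K L B' K' L' : ℕ) (hB : B ≤ B') (hK : K ≤ K')
    (hL : L ≤ L') :
    h4 E σ (A + n) B' K' L' - h4 E σ A B' K' L' ≤ h4 E σ (A + n) B K L - h4 E σ A B K L := by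
  have h := A2_sub hE σ (A + n) B K L A B' K' L'
  rw [max_eq_left (Nat.le_add_right A n), max_eq_right hB, max_eq_right hK, max_eq_right hL,
    min_eq_right (Nat.le_add_right A n), min_eq_left hB, min_eq_left hK, min_eq_left hL] at h
  linarith

theorem h4_incB (hE : Poly E lam M) (σ B n A K L A' K' L' : ℕ) (hA : A ≤ A') (hK : K ≤ K')
    (hL : L ≤ L') :
    h4 E σ A' (B + n) K' L' - h4 E σ A' B K' L' ≤ h4 E σ A (B + n) K L - h4 E σ A B K L := by
  have h := A2_sub hE σ A (B + n) K L A' B K' L'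
  rw [max_eq_left (Nat.le_add_right B n), max_eq_right hA, max_eq_right hK, max_eq_right hL,
    min_eq_right (Nat.le_add_right B n), min_eq_left hA, min_eq_left hK, min_eq_left hL] at h
  linarith

theorem h4_incAB (hE : Poly E lam M) (σ A B n m K L K' L' : ℕ) (hK : K ≤ K') (hL : L ≤ L') :
    h4 E σ (A + n) (B + m) K' L' - h4 E σ A B K' L' ≤ h4 E σ (A + n) (B + m) K L - h4 E σ A B K L := by
  have h := A2_sub hE σ (A + n) (B + m) K L A B K' L'
  rw [max_eq_left (Nat.le_add_right A n), max_eq_left (Nat.le_add_right B m), max_eq_right hK,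
    max_eq_right hL, min_eq_right (Nat.le_add_right A n), min_eq_right (Nat.le_add_right B m),
    min_eq_left hK, min_eq_left hL] at h
  linarith

theorem h4_incK (hE : Poly E lam M) (σ K n A B L A' B' L' : ℕ) (hA : A ≤ A') (hB : B ≤ B')
    (hL : L ≤ L') :
    h4 E σ A' B' (K + n) L' - h4 E σ A' B' K L' ≤ h4 E σ A B (K + n) L - h4 E σ A B K L := by
  have h := A2_sub hE σ A B (K + n) L A' B' K L'
  rw [max_eq_left (Nat.le_add_right K n), max_eq_right hA, max_eq_right hB, max_eq_right hL,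
    min_eq_right (Nat.le_add_right K n), min_eq_left hA, min_eq_left hB, min_eq_left hL] at h
  linarith

theorem h4_incL (hE : Poly E lam M) (σ L n A B K A' B' K' : ℕ) (hA : A ≤ A') (hB : B ≤ B')
    (hK : K ≤ K') :
    h4 E σ A' B' K' (L + n) - h4 E σ A' B' K' L ≤ h4 E σ A B K (L + n) - h4 E σ A B K L := by
  have h := A2_sub hE σ A B K (L + n) A' B' K' L
  rw [max_eq_left (Nat.le_add_right L n), max_eq_right hA, max_eq_right hB, max_eq_right hK,
    min_eq_right (Nat.le_add_right L n), min_eq_left hA, min_eq_left hB, min_eq_left hK] at h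
  linarith

theorem h4_incKL (hE : Poly E lam M) (σ K L n m A B A' B' : ℕ) (hA : A ≤ A') (hB : B ≤ B') :
    h4 E σ A' B' (K + n) (L + m) - h4 E σ A' B' K L ≤ h4 E σ A B (K + n) (L + m) - h4 E σ A B K L := by
  have h := A2_sub hE σ A B (K + n) (L + m) A' B' K L
  rw [max_eq_left (Nat.le_add_right K n), max_eq_left (Nat.le_add_right L m), max_eq_right hA,
    max_eq_right hB, min_eq_right (Nat.le_add_right K n), min_eq_right (Nat.le_add_right L m),
    min_eq_left hA, min_eq_left hB] at h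
  linarith

theorem h4_mono (hE : Poly E lam M) (σ : ℕ) {A B K L A' B' K' L' : ℕ} (hA : A ≤ A') (hB : B ≤ B')
    (hK : K ≤ K') (hL : L ≤ L') : h4 E σ A B K L ≤ h4 E σ A' B' K' L' := by
  unfold h4
  apply hE.mono <;> gcongr

/-- 1-Lipschitz -/
theorem h4_lip (hE : Poly E lam M) (σ A B K L a b k l : ℕ) :
    h4 E σ (A + a) (B + b) (K + k) (L + l) ≤
      h4 E σ A B K L + (3 * a * σ + 3 * b * σ + k * σ + l * σ) := by
  have h := hE.lip (3 * A * σ) (3 * B * σ) (K * σ) (L * σ) (3 * a * σ) (3 * b * σ) (k * σ) (l * σ)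
  have e1 : 3 * A * σ + 3 * a * σ = 3 * (A + a) * σ := by ring
  have e2 : 3 * B * σ + 3 * b * σ = 3 * (B + b) * σ := by ring
  have e3 : K * σ + k * σ = (K + k) * σ := by ring
  have e4 : L * σ + l * σ = (L + l) * σ := by ring
  rw [e1, e2, e3, e4] at h
  push_cast at h
  exact h

theorem h4_le (hE : Poly E lam M) (σ A B K L : ℕ) :
    h4 E σ A B K L ≤ 3 * A * σ + 3 * B * σ + K * σ + L * σ := by
  have h := h4_lip hE σ 0 0 0 0 A B K L
  have h0 : h4 E σ 0 0 0 0 = 0 := by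
    simp [h4, hE.zero]
  simp only [Nat.zero_add] at h
  rw [h0, zero_add] at h
  exact h

theorem Gf_nonneg (hE : Poly E lam M) (σ i j : ℕ) : 0 ≤ Gf E σ i j := by
  have h := h4_le hE σ i j (2 * i - j) (2 * j - i)
  unfold Gf
  linarith

/-- `E ≥ E (3iσ) (3jσ) 0 0 ≥ 3iσ + 3jσ - lam` -/
theorem Gf_le (hE : Poly E lam M) (σ i j : ℕ) (h1 : j ≤ 2 * i) (h2 : i ≤ 2 * j)
    (hi : 3 * i * σ ≤ M) (hj : 3 * j * σ ≤ M) : Gf E σ i j ≤ ((i : ℝ) + j) * σ + lam := by
  have hl := hE.low (3 * i * σ) (3 * j * σ) hi hj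
  have hm : E (3 * i * σ) (3 * j * σ) 0 0 ≤ h4 E σ i j (2 * i - j) (2 * j - i) :=
    hE.mono _ _ _ _ _ _ _ _ le_rfl le_rfl (Nat.zero_le _) (Nat.zero_le _)
  unfold Gf
  rw [Nat.cast_sub h1, Nat.cast_sub h2]
  push_cast at hl ⊢
  nlinarith

theorem eX_bds (hE : Poly E lam M) (σ i j : ℕ) : 0 ≤ eX E σ i j ∧ eX E σ i j ≤ 3 * σ := by
  unfold eX bS
  have h1 : h4 E σ i j (2 * i - j - 2) (2 * j - i - 2) ≤
      h4 E σ (i + 1) j (2 * i - j - 2) (2 * j - i - 2) :=
    h4_mono hE σ (Nat.le_succ i) le_rfl le_rfl le_rfl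
  have h2 := h4_lip hE σ i j (2 * i - j - 2) (2 * j - i - 2) 1 0 0 0
  simp only [Nat.cast_zero, Nat.cast_one, mul_zero, zero_mul, add_zero, mul_one] at h2
  constructor <;> linarith

theorem eY_bds (hE : Poly E lam M) (σ i j : ℕ) : 0 ≤ eY E σ i j ∧ eY E σ i j ≤ 3 * σ := by
  unfold eY bS
  have h1 : h4 E σ i j (2 * i - j - 2) (2 * j - i - 2) ≤
      h4 E σ i (j + 1) (2 * i - j - 2) (2 * j - i - 2) :=
    h4_mono hE σ le_rfl (Nat.le_succ j) le_rfl le_rfl
  have h2 := h4_lip hE σ i j (2 * i - j - 2) (2 * j - i - 2) 0 1 0 0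
  simp only [Nat.cast_zero, Nat.cast_one, mul_zero, zero_mul, add_zero, zero_add,
    mul_one] at h2
  constructor <;> linarith

/-- (here `2i-j-2`, `2i-j+1` are truncated subtractions; the difference is at most `3` in all cases) -/
theorem eC_bds (hE : Poly E lam M) (σ i j : ℕ) : 0 ≤ eC E σ i j ∧ eC E σ i j ≤ 3 * σ := by
  unfold eC bS
  have h1 : h4 E σ i j (2 * i - j - 2) (2 * j - i - 2) ≤
      h4 E σ i j (2 * i - j + 1) (2 * j - i - 2) :=
    h4_mono hE σ le_rfl le_rfl (by omega) le_rfl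
  have h3 : h4 E σ i j (2 * i - j + 1) (2 * j - i - 2) ≤
      h4 E σ i j (2 * i - j - 2 + 3) (2 * j - i - 2) :=
    h4_mono hE σ le_rfl le_rfl (by omega) le_rfl
  have h2 := h4_lip hE σ i j (2 * i - j - 2) (2 * j - i - 2) 0 0 3 0
  simp only [Nat.cast_zero, Nat.cast_ofNat, mul_zero, zero_mul, add_zero,
    zero_add] at h2
  constructor <;> linarith

theorem eD_bds (hE : Poly E lam M) (σ i j : ℕ) : 0 ≤ eD E σ i j ∧ eD E σ i j ≤ 3 * σ := by
  unfold eD bS
  have h1 : h4 E σ i j (2 * i - j - 2) (2 * j - i - 2) ≤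
      h4 E σ i j (2 * i - j - 2) (2 * j - i + 1) :=
    h4_mono hE σ le_rfl le_rfl le_rfl (by omega)
  have h3 : h4 E σ i j (2 * i - j - 2) (2 * j - i + 1) ≤
      h4 E σ i j (2 * i - j - 2) (2 * j - i - 2 + 3) :=
    h4_mono hE σ le_rfl le_rfl le_rfl (by omega)
  have h2 := h4_lip hE σ i j (2 * i - j - 2) (2 * j - i - 2) 0 0 0 3
  simp only [Nat.cast_zero, Nat.cast_ofNat, mul_zero, zero_mul, add_zero,
    zero_add] at h2
  constructor <;> linarith

theorem hc_bds (hE : Poly E lam M) (σ i j : ℕ) : 0 ≤ hc E σ i j ∧ hc E σ i j ≤ σ := by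
  unfold hc
  have h1 : h4 E σ i j (2 * i - j) (2 * j - i) ≤ h4 E σ i j (2 * i - j + 1) (2 * j - i) :=
    h4_mono hE σ le_rfl le_rfl (by omega) le_rfl
  have h2 := h4_lip hE σ i j (2 * i - j) (2 * j - i) 0 0 1 0
  simp only [Nat.cast_zero, Nat.cast_one, mul_zero, zero_mul, add_zero, zero_add,
    one_mul] at h2
  constructor <;> linarith

theorem hd_bds (hE : Poly E lam M) (σ i j : ℕ) : 0 ≤ hd E σ i j ∧ hd E σ i j ≤ σ := by
  unfold hd
  have h1 : h4 E σ i j (2 * i - j) (2 * j - i) ≤ h4 E σ i j (2 * i - j) (2 * j - i + 1) :=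
    h4_mono hE σ le_rfl le_rfl le_rfl (by omega)
  have h2 := h4_lip hE σ i j (2 * i - j) (2 * j - i) 0 0 0 1
  simp only [Nat.cast_zero, Nat.cast_one, mul_zero, zero_mul, add_zero, zero_add,
    one_mul] at h2
  constructor <;> linarith

/-- subadditivity of the conditional entropies: `H(XYCD|S) ≤ H(X|S)+H(Y|S)+H(C|S)+H(D|S)` -/
theorem TCf_nonneg (hE : Poly E lam M) (σ i j : ℕ) : 0 ≤ TCf E σ i j := by
  unfold TCf eX eY eC eD eXYCD bS
  obtain ⟨n, hn⟩ : ∃ n, 2 * i - j + 1 = 2 * i - j - 2 + n := ⟨2 * i - j + 1 - (2 * i - j - 2), by omega⟩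
  obtain ⟨m, hm⟩ : ∃ m, 2 * j - i + 1 = 2 * j - i - 2 + m := ⟨2 * j - i + 1 - (2 * j - i - 2), by omega⟩
  rw [hn, hm]
  generalize 2 * i - j - 2 = k
  generalize 2 * j - i - 2 = l
  have h1 := h4_incA hE σ i 1 j k l (j + 1) (k + n) (l + m) (by omega) (by omega) (by omega)
  have h2 := h4_incB hE σ j 1 i k l i (k + n) (l + m) le_rfl (by omega) (by omega)
  have h3 := h4_incK hE σ k n i j l i j (l + m) le_rfl le_rfl (by omega)
  linarith

theorem MGf_le (hE : Poly E lam M) (σ i j : ℕ) : MGf E σ i j ≤ 6 * σ := by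
  have h1 := eX_bds hE σ i j
  have h2 := eY_bds hE σ i j
  have h3 := eC_bds hE σ i j
  have h4 := eD_bds hE σ i j
  unfold MGf
  linarith [h1.2, h2.2, h3.2, h4.2]

end MP_5e4520_nt.Ex
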