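import Pool.Agent.Lib.MP_5e4520_ntE.A2
set_option autoImplicit false

namespace MP_5e4520_nt.Ex

open Finset

variable {E : ℕ → ℕ → ℕ → ℕ → ℝ} {lam : ℝ} {M : ℕ}

private theorem A3_unitK (hE : Poly E lam M) (σ A B K K' L : ℕ) (h1 : K ≤ K') (h2 : K' ≤ K + 1) :
    0 ≤ h4 E σ A B K' L - h4 E σ A B K L ∧ h4 E σ A B K' L - h4 E σ A B K L ≤ σ := by
  refine ⟨sub_nonneg.2 (h4_mono hE σ le_rfl le_rfl h1 le_rfl), ?_⟩
  have h := h4_lip hE σ A B K L 0 0 1 0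
  have h' : h4 E σ A B K' L ≤ h4 E σ A B (K + 1) L := h4_mono hE σ le_rfl le_rfl h2 le_rfl
  simp only [add_zero] at h
  push_cast at h
  linarith

private theorem A3_unitL (hE : Poly E lam M) (σ A B K L L' : ℕ) (h1 : L ≤ L') (h2 : L' ≤ L + 1) :
    0 ≤ h4 E σ A B K L' - h4 E σ A B K L ∧ h4 E σ A B K L' - h4 E σ A B K L ≤ σ := by
  refine ⟨sub_nonneg.2 (h4_mono hE σ le_rfl le_rfl le_rfl h1), ?_⟩
  have h := h4_lip hE σ A B K L 0 0 0 1
  have h' : h4 E σ A B K L' ≤ h4 E σ A B K (L + 1) := h4_mono hE σ le_rfl le_rfl le_rfl h2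
  simp only [add_zero] at h
  push_cast at h
  linarith

/-- JOB A3.  `I(C;XY|S) ≤ H(C|S_ij) - H(C|S_{i+1,j+2})`: with `K = 2i-j`, `L = 2j-i` the block `S_{i+1,j+2}` has the same `K` and
`L+3`; it refines `(S, X, Y)` (`h4_incK` at `(i+1,j+1,L-2) ≤ (i+1,j+2,L+1)`). -/
theorem telC (hE : Poly E lam M) (σ i j : ℕ) (h1 : j + 4 ≤ 2 * i) (h2 : i + 4 ≤ 2 * j) :
    eC E σ i j - (h4 E σ (i + 1) (j + 1) (2 * i - j + 1) (2 * j - i - 2) -
      h4 E σ (i + 1) (j + 1) (2 * i - j - 2) (2 * j - i - 2)) ≤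
      eC E σ i j - eC E σ (i + 1) (j + 2) := by
  obtain ⟨k, hk⟩ : ∃ k, 2 * i = j + k + 2 := ⟨2 * i - j - 2, by omega⟩
  obtain ⟨l, hl⟩ : ∃ l, 2 * j = i + l + 2 := ⟨2 * j - i - 2, by omega⟩
  have e1 : 2 * i - j + 1 = k + 3 := by omega
  have e2 : 2 * i - j - 2 = k := by omega
  have e3 : 2 * j - i - 2 = l := by omega
  have e4 : 2 * (i + 1) - (j + 2) + 1 = k + 3 := by omega
  have e5 : 2 * (i + 1) - (j + 2) - 2 = k := by omega
  have e6 : 2 * (j + 2) - (i + 1) - 2 = l + 3 := by omega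
  have h := h4_incK hE σ k 3 (i + 1) (j + 1) l (i + 1) (j + 2) (l + 3) le_rfl (by omega) (by omega)
  simp only [eC, bS, e1, e2, e3, e4, e5, e6]
  linarith

/-- `I(D;XYC|S) ≤ H(D|S_ij) - H(D|S_{i+2,j+1})`: the block `S_{i+2,j+1}` has the same `L` and `K+3`. -/
theorem telD (hE : Poly E lam M) (σ i j : ℕ) (h1 : j + 4 ≤ 2 * i) (h2 : i + 4 ≤ 2 * j) :
    eD E σ i j - (h4 E σ (i + 1) (j + 1) (2 * i - j + 1) (2 * j - i + 1) -
      h4 E σ (i + 1) (j + 1) (2 * i - j + 1) (2 * j - i - 2)) ≤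
      eD E σ i j - eD E σ (i + 2) (j + 1) := by
  obtain ⟨k, hk⟩ : ∃ k, 2 * i = j + k + 2 := ⟨2 * i - j - 2, by omega⟩
  obtain ⟨l, hl⟩ : ∃ l, 2 * j = i + l + 2 := ⟨2 * j - i - 2, by omega⟩
  have e1 : 2 * i - j + 1 = k + 3 := by omega
  have e2 : 2 * i - j - 2 = k := by omega
  have e3 : 2 * j - i - 2 = l := by omega
  have e3' : 2 * j - i + 1 = l + 3 := by omega
  have e4 : 2 * (i + 2) - (j + 1) - 2 = k + 3 := by omega
  have e5 : 2 * (j + 1) - (i + 2) - 2 = l := by omega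
  have e6 : 2 * (j + 1) - (i + 2) + 1 = l + 3 := by omega
  have h := h4_incL hE σ l 3 (i + 1) (j + 1) (k + 3) (i + 2) (j + 1) (k + 3) (by omega) le_rfl le_rfl
  simp only [eD, bS, e1, e2, e3, e3', e4, e5, e6]
  linarith

/-- deficits of single units: `n1c = σ - H(c_{K-2} | i,j,K-2,L-2)` etc. in the order `c_{K-2}, d_{L-2}, c_{K-1}, d_{L-1}` -/
noncomputable def n1c (E : ℕ → ℕ → ℕ → ℕ → ℝ) (σ i j : ℕ) : ℝ :=
  σ - (h4 E σ i j (2 * i - j - 1) (2 * j - i - 2) - h4 E σ i j (2 * i - j - 2) (2 * j - i - 2))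

noncomputable def n1d (E : ℕ → ℕ → ℕ → ℕ → ℝ) (σ i j : ℕ) : ℝ :=
  σ - (h4 E σ i j (2 * i - j - 1) (2 * j - i - 1) - h4 E σ i j (2 * i - j - 1) (2 * j - i - 2))

noncomputable def n2c (E : ℕ → ℕ → ℕ → ℕ → ℝ) (σ i j : ℕ) : ℝ :=
  σ - (h4 E σ i j (2 * i - j) (2 * j - i - 1) - h4 E σ i j (2 * i - j - 1) (2 * j - i - 1))

noncomputable def n2d (E : ℕ → ℕ → ℕ → ℕ → ℝ) (σ i j : ℕ) : ℝ :=
  σ - (h4 E σ i j (2 * i - j) (2 * j - i) - h4 E σ i j (2 * i - j) (2 * j - i - 1))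

theorem n1c_bds (hE : Poly E lam M) (σ i j : ℕ) : 0 ≤ n1c E σ i j ∧ n1c E σ i j ≤ σ := by
  have h := (A3_unitK hE σ i j (2 * i - j - 2) (2 * i - j - 1) (2 * j - i - 2) (by omega) (by omega))
  unfold n1c
  constructor <;> linarith [h.1, h.2]

theorem n1d_bds (hE : Poly E lam M) (σ i j : ℕ) : 0 ≤ n1d E σ i j ∧ n1d E σ i j ≤ σ := by
  have h := (A3_unitL hE σ i j (2 * i - j - 1) (2 * j - i - 2) (2 * j - i - 1) (by omega) (by omega))
  unfold n1d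
  constructor <;> linarith [h.1, h.2]

theorem n2c_bds (hE : Poly E lam M) (σ i j : ℕ) : 0 ≤ n2c E σ i j ∧ n2c E σ i j ≤ σ := by
  have h := (A3_unitK hE σ i j (2 * i - j - 1) (2 * i - j) (2 * j - i - 1) (by omega) (by omega))
  unfold n2c
  constructor <;> linarith [h.1, h.2]

theorem n2d_bds (hE : Poly E lam M) (σ i j : ℕ) : 0 ≤ n2d E σ i j ∧ n2d E σ i j ≤ σ := by
  have h := (A3_unitL hE σ i j (2 * i - j) (2 * j - i - 1) (2 * j - i) (by omega) (by omega))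
  unfold n2d
  constructor <;> linarith [h.1, h.2]

/-- The mutual information `I(X;Y|S)`.  Let `D(A,B,K,L) = 3Aσ+3Bσ+Kσ+Lσ - h4` (deficit; monotone, supermodular, increments of a
`K`-unit `δ_c(K; A,B,L) = σ - (h4 A B (K+1) L - h4 A B K L)` increase with `A,B,L`; same for `δ_d`).  With `K = 2i-j`, `L = 2j-i`:
`I(X;Y|S) = D(i+1,j+1,K-2,L-2) - D(i+1,j,K-2,L-2) - D(i,j+1,K-2,L-2) + D(i,j,K-2,L-2)` and the four frontier deficits are
`Gf i j = D(i,j,K,L)`, `Gf (i+1) j = D(i+1,j,K+2,L-1)`, `Gf i (j+1) = D(i,j+1,K-1,L+2)`, `Gf (i+1) (j+1) = D(i+1,j+1,K+1,L+1)`.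
So `I(X;Y|S) = ΔΔGf - N11 + N10 + N01 - N00`, where (units added in the order written)
`N11` = deficit of `c: K-2,K-1,K` then `d: L-2,L-1,L` at `(i+1,j+1)` from `(K-2,L-2)`,
`N10` = deficit of `c: K-2,K-1,K,K+1` then `d: L-2` at `(i+1,j)`,
`N01` = deficit of `d: L-2,L-1,L,L+1` then `c: K-2` at `(i,j+1)`,
`N00 = n1c + n1d + n2c + n2d` at `(i,j)`.
The terms `c: K-2,K-1,K` of `N10` are `≤` those of `N11`; the terms `d: L-2,L-1,L` of `N01` (given `c < K-2`) are `≤` those of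
`N11` (given `c < K+1`).  Remaining: `δ_c(K+1; i+1,j,L-2) = n2c (i+1) j`, `δ_d(L-2; i+1,j,K+2) ≤ n1d (i+4) (j+2)`
(there `K'' = K+6`, `L'' = L`), `δ_d(L+1; i,j+1,K-2) ≤ n2d i (j+1)` (there `K''=K-1, L''=L+2`), `δ_c(K-2; i,j+1,L+2) ≤ n1c (i+2) (j+4)`
(there `K'' = K`, `L'' = L+6`). -/
theorem telXY (hE : Poly E lam M) (σ i j : ℕ) (h1 : j + 4 ≤ 2 * i) (h2 : i + 4 ≤ 2 * j) :
    eX E σ i j + eY E σ i j -
      (h4 E σ (i + 1) (j + 1) (2 * i - j - 2) (2 * j - i - 2) - bS E σ i j) ≤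
    (Gf E σ (i + 1) (j + 1) - Gf E σ (i + 1) j - Gf E σ i (j + 1) + Gf E σ i j) +
      (n2c E σ (i + 1) j - n2c E σ i j) + (n2d E σ i (j + 1) - n2d E σ i j) +
      (n1c E σ (i + 2) (j + 4) - n1c E σ i j) + (n1d E σ (i + 4) (j + 2) - n1d E σ i j) := by
  obtain ⟨k, hk⟩ : ∃ k, 2 * i = j + k + 2 := ⟨2 * i - j - 2, by omega⟩
  obtain ⟨l, hl⟩ : ∃ l, 2 * j = i + l + 2 := ⟨2 * j - i - 2, by omega⟩
  have a1 : 2 * i - j = k + 2 := by omega
  have a2 : 2 * j - i = l + 2 := by omega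
  have b1 : 2 * (i + 1) - (j + 1) = k + 3 := by omega
  have b2 : 2 * (j + 1) - (i + 1) = l + 3 := by omega
  have c1 : 2 * (i + 1) - j = k + 4 := by omega
  have c2 : 2 * j - (i + 1) = l + 1 := by omega
  have d1 : 2 * i - (j + 1) = k + 1 := by omega
  have d2 : 2 * (j + 1) - i = l + 4 := by omega
  have f1 : 2 * (i + 2) - (j + 4) = k + 2 := by omega
  have f2 : 2 * (j + 4) - (i + 2) = l + 8 := by omega
  have g1 : 2 * (i + 4) - (j + 2) = k + 8 := by omega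
  have g2 : 2 * (j + 2) - (i + 4) = l + 2 := by omega
  have H1 := h4_incK hE σ k 3 (i + 1) j l (i + 1) (j + 1) l le_rfl (by omega) le_rfl
  have H2 := h4_incL hE σ l 3 i (j + 1) k (i + 1) (j + 1) (k + 3) (by omega) le_rfl (by omega)
  have H3 := h4_incL hE σ l 1 (i + 1) j (k + 4) (i + 4) (j + 2) (k + 7) (by omega) (by omega)
    (by omega)
  have H4 := h4_incK hE σ k 1 i (j + 1) (l + 3) (i + 2) (j + 4) (l + 6) (by omega) (by omega)
    (by omega)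
  simp only [eX, eY, bS, Gf, n1c, n1d, n2c, n2d, a1, a2, b1, b2, c1, c2, d1, d2, f1, f2, g1, g2]
  have s1 : k + 2 - 2 = k := by omega
  have s2 : l + 2 - 2 = l := by omega
  have s3 : k + 2 - 1 = k + 1 := by omega
  have s4 : l + 2 - 1 = l + 1 := by omega
  have s5 : l + 1 - 1 = l := by omega
  have s6 : k + 4 - 1 = k + 3 := by omega
  have s7 : l + 4 - 1 = l + 3 := by omega
  have s8 : l + 8 - 2 = l + 6 := by omega
  have s9 : k + 8 - 1 = k + 7 := by omega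
  simp only [s1, s2, s3, s4, s5, s6, s7, s8, s9]
  push_cast
  linarith

end MP_5e4520_nt.Ex
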