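import Pool.Agent.Lib.MP_5e4520_ntE.A3
import Pool.Agent.Lib.MP_5e4520_ntE.A1
set_option autoImplicit false

namespace MP_5e4520_nt.Ex

open Finset

variable {E : ℕ → ℕ → ℕ → ℕ → ℝ} {lam : ℝ} {M : ℕ}

/-- JOB A4.  Sum of the total correlations over a square.  `TCf = I(X;Y|S) + I(C;XY|S) + I(D;XYC|S)`; `telC`, `telD`, `telXY`
and the shift lemmas (`eC`: shift `(1,2)`, values in `[0,3σ]`: `9nσ`; `eD`: shift `(2,1)`: `9nσ`; `n2c` `(1,0)`, `n2d` `(0,1)`,
`n1c` `(2,4)`, `n1d` `(4,2)`, values in `[0,σ]`: `14 n σ`), and `tele_sq` for `Gf`: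
`≤ Gf(p+n,p+n) + Gf(p,p) ≤ 2(p+n)σ + 2pσ + 2 lam`. -/
theorem sumTC_sq (hE : Poly E lam M) (σ p n : ℕ) (hp : n + 4 ≤ p) (hM : 3 * (p + n) * σ ≤ M) :
    ∑ c ∈ sq p n, TCf E σ c.1 c.2 ≤ (34 * (n : ℝ) + 4 * p) * σ + 2 * lam := by
  have key : ∀ c ∈ sq p n, TCf E σ c.1 c.2 ≤
      (Gf E σ (c.1 + 1) (c.2 + 1) - Gf E σ (c.1 + 1) c.2 - Gf E σ c.1 (c.2 + 1) + Gf E σ c.1 c.2) +
      (n2c E σ (c.1 + 1) (c.2 + 0) - n2c E σ c.1 c.2) +
      (n2d E σ (c.1 + 0) (c.2 + 1) - n2d E σ c.1 c.2) +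
      (n1c E σ (c.1 + 2) (c.2 + 4) - n1c E σ c.1 c.2) +
      (n1d E σ (c.1 + 4) (c.2 + 2) - n1d E σ c.1 c.2) +
      (eC E σ c.1 c.2 - eC E σ (c.1 + 1) (c.2 + 2)) +
      (eD E σ c.1 c.2 - eD E σ (c.1 + 2) (c.2 + 1)) := by
    intro c hc
    unfold sq at hc
    rw [mem_product, mem_Ico, mem_Ico] at hc
    obtain ⟨⟨h1, h2⟩, h3, h4'⟩ := hc
    have hi : c.2 + 4 ≤ 2 * c.1 := by omega
    have hj : c.1 + 4 ≤ 2 * c.2 := by omega
    have e1 := telXY hE σ c.1 c.2 hi hj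
    have e2 := telC hE σ c.1 c.2 hi hj
    have e3 := telD hE σ c.1 c.2 hi hj
    simp only [Nat.add_zero]
    unfold TCf eXYCD
    linarith
  have s1 := tele_sq (Gf E σ) p n
  have s2 := shift_sq' (n2c E σ) σ (fun i j => (n2c_bds hE σ i j).1) (fun i j => (n2c_bds hE σ i j).2)
    p n 1 0
  have s3 := shift_sq' (n2d E σ) σ (fun i j => (n2d_bds hE σ i j).1) (fun i j => (n2d_bds hE σ i j).2)
    p n 0 1
  have s4 := shift_sq' (n1c E σ) σ (fun i j => (n1c_bds hE σ i j).1) (fun i j => (n1c_bds hE σ i j).2)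
    p n 2 4
  have s5 := shift_sq' (n1d E σ) σ (fun i j => (n1d_bds hE σ i j).1) (fun i j => (n1d_bds hE σ i j).2)
    p n 4 2
  have s6 := shift_sq (eC E σ) (3 * σ) (fun i j => (eC_bds hE σ i j).1)
    (fun i j => (eC_bds hE σ i j).2) p n 1 2
  have s7 := shift_sq (eD E σ) (3 * σ) (fun i j => (eD_bds hE σ i j).1)
    (fun i j => (eD_bds hE σ i j).2) p n 2 1
  have g1 := Gf_le hE σ (p + n) (p + n) (by omega) (by omega) hM hM
  have hpM : 3 * p * σ ≤ M := by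
    refine le_trans ?_ hM
    gcongr
    omega
  have g2 := Gf_le hE σ p p (by omega) (by omega) hpM hpM
  have g3 := Gf_nonneg hE σ (p + n) p
  have g4 := Gf_nonneg hE σ p (p + n)
  have hsum := Finset.sum_le_sum key
  rw [sum_add_distrib, sum_add_distrib, sum_add_distrib, sum_add_distrib, sum_add_distrib,
    sum_add_distrib, s1] at hsum
  push_cast at *
  have hn : (0 : ℝ) ≤ n := Nat.cast_nonneg n
  have hσ : (0 : ℝ) ≤ σ := Nat.cast_nonneg σ
  nlinarith [hsum, s2, s3, s4, s5, s6, s7, g1, g2, g3, g4]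

/-- Cover the strip by the squares `sq (8Tw) (16T)`, `3 ≤ w ≤ W/8` (for `(i,j)` in the strip take `w = min(i,j)/(8T)`);
`TCf ≥ 0`. -/
theorem sumTC_strip (hE : Poly E lam M) (σ W0 W T : ℕ) (hT : 1 ≤ T) (hW0 : 24 ≤ W0)
    (hW : 200 ≤ W) (hM : 3 * (W + 16) * T * σ ≤ M) (hlam : lam ≤ T * σ) :
    ∑ c ∈ strip W0 W T, TCf E σ c.1 c.2 ≤ 2 * (W : ℝ) ^ 2 * T * σ := by
  classical
  have hcov : ∀ c ∈ strip W0 W T, ∃ w ∈ Icc 3 (W / 8), c ∈ sq (8 * T * w) (16 * T) := by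
    intro c hc
    unfold strip at hc
    rw [mem_filter, mem_product, mem_Ico, mem_Ico] at hc
    obtain ⟨⟨⟨a1, a2⟩, a3, a4⟩, a5, a6⟩ := hc
    set m := min c.1 c.2 with hm
    have hm1 : W0 * T ≤ m := le_min a1 a3
    have hm2 : m < W * T := lt_of_le_of_lt (min_le_left _ _) a2
    have hT8 : 0 < 8 * T := by omega
    have hdiv := Nat.div_add_mod m (8 * T)
    have hmod := Nat.mod_lt m hT8
    refine ⟨m / (8 * T), ?_, ?_⟩
    · rw [mem_Icc]
      constructor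
      · rw [Nat.le_div_iff_mul_le hT8]
        calc 3 * (8 * T) = 24 * T := by ring
          _ ≤ W0 * T := Nat.mul_le_mul_right T hW0
          _ ≤ m := hm1
      · rw [Nat.le_div_iff_mul_le (by norm_num)]
        have h1 : m / (8 * T) * (8 * T) ≤ m := Nat.div_mul_le_self _ _
        have h2 : (m / (8 * T) * 8) * T < W * T := by
          calc (m / (8 * T) * 8) * T = m / (8 * T) * (8 * T) := by ring
            _ ≤ m := h1
            _ < W * T := hm2
        exact (Nat.lt_of_mul_lt_mul_right h2).le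
    · unfold sq
      rw [mem_product, mem_Ico, mem_Ico]
      have b1 : m ≤ c.1 := min_le_left _ _
      have b2 : m ≤ c.2 := min_le_right _ _
      have b3 : c.1 ≤ m + 8 * T ∧ c.2 ≤ m + 8 * T := by
        rcases le_total c.1 c.2 with h | h
        · have : m = c.1 := min_eq_left h
          omega
        · have : m = c.2 := min_eq_right h
          omega
      refine ⟨⟨?_, ?_⟩, ?_, ?_⟩ <;> omega
  have hnn : ∀ c : ℕ × ℕ, 0 ≤ TCf E σ c.1 c.2 := fun c => TCf_nonneg hE σ c.1 c.2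
  have h1 : ∑ c ∈ strip W0 W T, TCf E σ c.1 c.2 ≤
      ∑ w ∈ Icc 3 (W / 8), ∑ c ∈ sq (8 * T * w) (16 * T), TCf E σ c.1 c.2 := by
    calc ∑ c ∈ strip W0 W T, TCf E σ c.1 c.2
        ≤ ∑ c ∈ strip W0 W T, ∑ w ∈ Icc 3 (W / 8),
            (if c ∈ sq (8 * T * w) (16 * T) then TCf E σ c.1 c.2 else 0) := by
          apply sum_le_sum
          intro c hc
          obtain ⟨w, hw, hcw⟩ := hcov c hc
          calc TCf E σ c.1 c.2 = (if c ∈ sq (8 * T * w) (16 * T) then TCf E σ c.1 c.2 else 0) := by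
                rw [if_pos hcw]
            _ ≤ _ := single_le_sum
                (f := fun w => if c ∈ sq (8 * T * w) (16 * T) then TCf E σ c.1 c.2 else 0)
                (fun w' _ => by
                  split_ifs
                  · exact hnn c
                  · exact le_rfl) hw
      _ = ∑ w ∈ Icc 3 (W / 8), ∑ c ∈ strip W0 W T,
            (if c ∈ sq (8 * T * w) (16 * T) then TCf E σ c.1 c.2 else 0) := sum_comm
      _ ≤ _ := by
          apply sum_le_sum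
          intro w _
          rw [← sum_filter]
          apply sum_le_sum_of_subset_of_nonneg
          · intro c hc
            exact (mem_filter.mp hc).2
          · intro c _ _
            exact hnn c
  have hWr : (200 : ℝ) ≤ W := by exact_mod_cast hW
  have hTσ : (0 : ℝ) ≤ (T : ℝ) * σ := by positivity
  have h2 : ∀ w ∈ Icc 3 (W / 8), ∑ c ∈ sq (8 * T * w) (16 * T), TCf E σ c.1 c.2 ≤
      (546 + 4 * (W : ℝ)) * (T * σ) := by
    intro w hw
    rw [mem_Icc] at hw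
    have hw8 : 8 * w ≤ W := by omega
    have hp : 16 * T + 4 ≤ 8 * T * w := by
      have : 8 * T * 3 ≤ 8 * T * w := Nat.mul_le_mul_left _ hw.1
      omega
    have hM' : 3 * (8 * T * w + 16 * T) * σ ≤ M := by
      refine le_trans ?_ hM
      apply Nat.mul_le_mul_right
      calc 3 * (8 * T * w + 16 * T) = 3 * (8 * w + 16) * T := by ring
        _ ≤ 3 * (W + 16) * T := by gcongr
    have h3 := sumTC_sq hE σ (8 * T * w) (16 * T) hp hM'
    refine h3.trans ?_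
    push_cast
    have hw8r : 8 * (w : ℝ) ≤ W := by exact_mod_cast hw8
    have h4 : 8 * (w : ℝ) * (T * σ) ≤ W * (T * σ) := mul_le_mul_of_nonneg_right hw8r hTσ
    nlinarith [h4, hlam]
  have h5 : ∑ w ∈ Icc 3 (W / 8), ∑ c ∈ sq (8 * T * w) (16 * T), TCf E σ c.1 c.2 ≤
      (W / 8 : ℝ) * ((546 + 4 * (W : ℝ)) * (T * σ)) := by
    calc _ ≤ ∑ _w ∈ Icc 3 (W / 8), (546 + 4 * (W : ℝ)) * (T * σ) := sum_le_sum h2
      _ = ((Icc 3 (W / 8)).card : ℝ) * ((546 + 4 * (W : ℝ)) * (T * σ)) := by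
          rw [sum_const, nsmul_eq_mul]
      _ ≤ _ := by
          apply mul_le_mul_of_nonneg_right _ (by positivity)
          rw [Nat.card_Icc]
          have : W / 8 + 1 - 3 ≤ W / 8 := by omega
          calc ((W / 8 + 1 - 3 : ℕ) : ℝ) ≤ ((W / 8 : ℕ) : ℝ) := by exact_mod_cast this
            _ ≤ (W : ℝ) / 8 := Nat.cast_div_le
  calc _ ≤ _ := h1
    _ ≤ _ := h5
    _ ≤ 2 * (W : ℝ) ^ 2 * (T * σ) := by
        have : (W / 8 : ℝ) * (546 + 4 * (W : ℝ)) ≤ 2 * (W : ℝ) ^ 2 := by nlinarith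
        calc (W / 8 : ℝ) * ((546 + 4 * (W : ℝ)) * (T * σ))
            = ((W / 8 : ℝ) * (546 + 4 * (W : ℝ))) * (T * σ) := by ring
          _ ≤ _ := mul_le_mul_of_nonneg_right this hTσ
    _ = _ := by ring

end MP_5e4520_nt.Ex
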