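import Pool.Agent.Lib.MP_5e4520_ntE.A2
set_option autoImplicit false

namespace MP_5e4520_nt.Ex

open Finset

variable {E : ℕ → ℕ → ℕ → ℕ → ℝ} {lam : ℝ} {M : ℕ}

/-- JOB A5.  One step along a diagonal: `Gf(i+1,j+1) - Gf(i,j)` = deficit of `X`, `Y`, then one unit of `g1`, one unit of `g2`
(`F_{i+1,j+1} = (i+1,j+1,K+1,L+1)`), each at least the deficit at `F_ij`. -/
theorem diag_step (hE : Poly E lam M) (σ i j : ℕ) (h1 : j + 4 ≤ 2 * i) (h2 : i + 4 ≤ 2 * j) :
    (3 * σ - (h4 E σ (i + 1) j (2 * i - j) (2 * j - i) - h4 E σ i j (2 * i - j) (2 * j - i))) +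
    (3 * σ - (h4 E σ i (j + 1) (2 * i - j) (2 * j - i) - h4 E σ i j (2 * i - j) (2 * j - i))) +
      2 * σ - hc E σ i j - hd E σ i j ≤ Gf E σ (i + 1) (j + 1) - Gf E σ i j := by
  unfold Gf hc hd
  have e1 : 2 * (i + 1) - (j + 1) = 2 * i - j + 1 := by omega
  have e2 : 2 * (j + 1) - (i + 1) = 2 * j - i + 1 := by omega
  rw [e1, e2]
  have a1 := h4_incL hE σ (2 * j - i) 1 i j (2 * i - j) (i + 1) (j + 1) (2 * i - j + 1)
    (by omega) (by omega) (by omega)
  have a2 := h4_incK hE σ (2 * i - j) 1 i j (2 * j - i) (i + 1) (j + 1) (2 * j - i)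
    (by omega) (by omega) le_rfl
  have a3 := h4_incB hE σ j 1 i (2 * i - j) (2 * j - i) (i + 1) (2 * i - j) (2 * j - i)
    (by omega) le_rfl le_rfl
  push_cast
  linarith

/-- The deficits `3σ - H(X|S)`, `3σ - H(Y|S)` of the block are at most those at the frontier (the block start is smaller). -/
theorem defX_le (hE : Poly E lam M) (σ i j : ℕ) :
    3 * σ - eX E σ i j ≤
      3 * σ - (h4 E σ (i + 1) j (2 * i - j) (2 * j - i) - h4 E σ i j (2 * i - j) (2 * j - i)) := by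
  unfold eX bS
  have a := h4_incA hE σ i 1 j (2 * i - j - 2) (2 * j - i - 2) j (2 * i - j) (2 * j - i)
    le_rfl (by omega) (by omega)
  linarith

theorem defY_le (hE : Poly E lam M) (σ i j : ℕ) :
    3 * σ - eY E σ i j ≤
      3 * σ - (h4 E σ i (j + 1) (2 * i - j) (2 * j - i) - h4 E σ i j (2 * i - j) (2 * j - i)) := by
  unfold eY bS
  have a := h4_incB hE σ j 1 i (2 * i - j - 2) (2 * j - i - 2) i (2 * i - j) (2 * j - i)
    le_rfl (by omega) (by omega)
  linarith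

/-- telescoping over the strip -/
private theorem A5_tel (W0 W T : ℕ) (hT : 1 ≤ T) (f : ℕ × ℕ → ℝ) (P Q : ℝ) (hP : 0 ≤ P)
    (hQ : 0 ≤ Q)
    (hup : ∀ i j : ℕ, W0 * T ≤ i → W0 * T ≤ j → i ≤ W * T → j ≤ W * T → i ≤ j + 8 * T →
      j ≤ i + 8 * T → (i = W * T ∨ j = W * T) → f (i, j) ≤ P)
    (hlow : ∀ i j : ℕ, W0 * T ≤ i → W0 * T ≤ j → i < W * T → j < W * T → i ≤ j + 8 * T →
      j ≤ i + 8 * T → (i = W0 * T ∨ j = W0 * T) → -Q ≤ f (i, j)) :
    ∑ c ∈ strip W0 W T, (f (c.1 + 1, c.2 + 1) - f c) ≤ 17 * T * (P + Q) := by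
  classical
  set S := strip W0 W T with hS
  have hmem : ∀ i j : ℕ, (i, j) ∈ S ↔ (W0 * T ≤ i ∧ i < W * T) ∧ (W0 * T ≤ j ∧ j < W * T) ∧
      i ≤ j + 8 * T ∧ j ≤ i + 8 * T := by
    intro i j
    rw [hS]
    unfold strip
    simp only [mem_filter, mem_product, mem_Ico]
    tauto
  set S' := S.image (fun c : ℕ × ℕ => (c.1 + 1, c.2 + 1)) with hS'
  have hmem' : ∀ i j : ℕ, (i, j) ∈ S' ↔ (W0 * T < i ∧ i ≤ W * T) ∧ (W0 * T < j ∧ j ≤ W * T) ∧
      i ≤ j + 8 * T ∧ j ≤ i + 8 * T := by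
    intro i j
    rw [hS', mem_image]
    constructor
    · rintro ⟨⟨a, b⟩, hab, h⟩
      rw [hmem] at hab
      simp only [Prod.mk.injEq] at h
      omega
    · intro h
      refine ⟨(i - 1, j - 1), ?_, ?_⟩
      · rw [hmem]
        omega
      · simp only [Prod.mk.injEq]
        omega
  have h1 : ∑ c ∈ S, f (c.1 + 1, c.2 + 1) = ∑ c ∈ S', f c := by
    rw [hS', sum_image]
    rintro ⟨a, b⟩ _ ⟨a', b'⟩ _ h
    simp only [Prod.mk.injEq] at h ⊢
    omega
  rw [sum_sub_distrib, h1, ← sum_sdiff_sub_sum_sdiff]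
  have hcard : ∀ U : Finset (ℕ × ℕ), (∀ i j : ℕ, (i, j) ∈ U → i ≤ j + 8 * T ∧ j ≤ i + 8 * T) →
      (∀ i j i' j' : ℕ, (i, j) ∈ U → (i', j') ∈ U → i + j' = i' + j → i = i' ∧ j = j') →
      (U.card : ℝ) ≤ 17 * T := by
    intro U hU1 hU2
    have h2 : U.card ≤ (range (16 * T + 1)).card := by
      apply card_le_card_of_injOn (fun c : ℕ × ℕ => c.1 + 8 * T - c.2)
      · rintro ⟨i, j⟩ hc
        have := hU1 i j (mem_coe.1 hc)
        simp only [coe_range, Set.mem_Iio]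
        omega
      · rintro ⟨i, j⟩ hc ⟨i', j'⟩ hc' h
        have a1 := hU1 i j (mem_coe.1 hc)
        have a2 := hU1 i' j' (mem_coe.1 hc')
        simp only at h
        have := hU2 i j i' j' (mem_coe.1 hc) (mem_coe.1 hc') (by omega)
        rw [this.1, this.2]
    rw [card_range] at h2
    have h3 : U.card ≤ 17 * T := by omega
    exact_mod_cast h3
  have hA : ∑ c ∈ S' \ S, f c ≤ 17 * T * P := by
    have h2 : ∑ c ∈ S' \ S, f c ≤ ∑ _c ∈ S' \ S, P := by
      apply sum_le_sum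
      rintro ⟨i, j⟩ hc
      rw [mem_sdiff, hmem, hmem'] at hc
      exact hup i j (by omega) (by omega) (by omega) (by omega) (by omega) (by omega) (by omega)
    rw [sum_const, nsmul_eq_mul] at h2
    refine h2.trans ?_
    apply mul_le_mul_of_nonneg_right _ hP
    apply hcard
    · intro i j hc
      rw [mem_sdiff, hmem'] at hc
      omega
    · intro i j i' j' hc hc' h
      rw [mem_sdiff, hmem, hmem'] at hc hc'
      omega
  have hB : -(17 * T * Q) ≤ ∑ c ∈ S \ S', f c := by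
    have h2 : ∑ _c ∈ S \ S', (-Q) ≤ ∑ c ∈ S \ S', f c := by
      apply sum_le_sum
      rintro ⟨i, j⟩ hc
      rw [mem_sdiff, hmem, hmem'] at hc
      exact hlow i j (by omega) (by omega) (by omega) (by omega) (by omega) (by omega) (by omega)
    rw [sum_const, nsmul_eq_mul] at h2
    refine le_trans ?_ h2
    have h3 : ((S \ S').card : ℝ) ≤ 17 * T := by
      apply hcard
      · intro i j hc
        rw [mem_sdiff, hmem] at hc
        omega
      · intro i j i' j' hc hc' h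
        rw [mem_sdiff, hmem, hmem'] at hc hc'
        omega
    have h4 := mul_le_mul_of_nonneg_right h3 hQ
    linarith
  linarith

/-- Sum of `diag_step` over the strip.  For `0 ≤ d ≤ 8T` the diagonal `(j+d, j)`, `W0 T ≤ j < WT - d`, telescopes to
`≤ Gf(WT, WT-d) ≤ (2WT-d)σ + lam` (`Gf_le`, `Gf_nonneg`), there are `(W-W0)T - d` steps, so
`∑ (defX+defY) ≤ ∑ (hc+hd) + (2 W0 T + d)σ + lam`; same for `(i, i+d)`; there are `16T+1 ≤ 17T` diagonals. -/
theorem budget (hE : Poly E lam M) (σ W0 W T : ℕ) (hT : 1 ≤ T) (hW0 : 24 ≤ W0) (hW : W0 + 20 ≤ W)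
    (hM : 3 * W * T * σ ≤ M) :
    ∑ c ∈ strip W0 W T, ((3 * σ - eX E σ c.1 c.2) + (3 * σ - eY E σ c.1 c.2)) ≤
      ∑ c ∈ strip W0 W T, (hc E σ c.1 c.2 + hd E σ c.1 c.2) +
        17 * T * ((2 * W0 + 8) * T * σ + lam) := by
  have hlam : 0 ≤ lam := hE.lam0
  have hW0T : 24 * T ≤ W0 * T := Nat.mul_le_mul_right T hW0
  have hWT : (W0 + 20) * T ≤ W * T := Nat.mul_le_mul_right T hW
  have hWT' : W0 * T + 20 * T ≤ W * T := by rw [← add_mul]; exact hWT
  set f : ℕ × ℕ → ℝ := fun c => Gf E σ c.1 c.2 - 2 * σ * ((min c.1 c.2 : ℕ) : ℝ) with hf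
  have hstep : ∀ c ∈ strip W0 W T, ((3 * σ - eX E σ c.1 c.2) + (3 * σ - eY E σ c.1 c.2)) ≤
      (hc E σ c.1 c.2 + hd E σ c.1 c.2) + (f (c.1 + 1, c.2 + 1) - f c) := by
    rintro ⟨i, j⟩ hc0
    unfold strip at hc0
    simp only [mem_filter, mem_product, mem_Ico] at hc0
    have a1 := diag_step hE σ i j (by omega) (by omega)
    have a2 := defX_le hE σ i j
    have a3 := defY_le hE σ i j
    have a4 : ((min (i + 1) (j + 1) : ℕ) : ℝ) = ((min i j : ℕ) : ℝ) + 1 := by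
      have : min (i + 1) (j + 1) = min i j + 1 := by omega
      rw [this]
      push_cast
      ring
    simp only [hf, a4]
    nlinarith
  have htel := A5_tel W0 W T hT f (8 * T * σ + lam) (2 * W0 * T * σ) (by positivity)
    (by positivity) ?_ ?_
  · calc ∑ c ∈ strip W0 W T, ((3 * σ - eX E σ c.1 c.2) + (3 * σ - eY E σ c.1 c.2))
        ≤ ∑ c ∈ strip W0 W T, ((hc E σ c.1 c.2 + hd E σ c.1 c.2) +
            (f (c.1 + 1, c.2 + 1) - f c)) := sum_le_sum hstep
      _ = ∑ c ∈ strip W0 W T, (hc E σ c.1 c.2 + hd E σ c.1 c.2) +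
            ∑ c ∈ strip W0 W T, (f (c.1 + 1, c.2 + 1) - f c) := sum_add_distrib
      _ ≤ ∑ c ∈ strip W0 W T, (hc E σ c.1 c.2 + hd E σ c.1 c.2) +
            17 * T * (8 * T * σ + lam + 2 * W0 * T * σ) := by
          have := htel
          linarith
      _ = _ := by ring
  · intro i j h1 h2 h3 h4 h5 h6 h7
    have b1 : 3 * i * σ ≤ M := by
      refine le_trans ?_ hM
      have : 3 * i ≤ 3 * W * T := by
        calc 3 * i ≤ 3 * (W * T) := Nat.mul_le_mul_left 3 h3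
          _ = 3 * W * T := by ring
      exact Nat.mul_le_mul_right σ this
    have b2 : 3 * j * σ ≤ M := by
      refine le_trans ?_ hM
      have : 3 * j ≤ 3 * W * T := by
        calc 3 * j ≤ 3 * (W * T) := Nat.mul_le_mul_left 3 h4
          _ = 3 * W * T := by ring
      exact Nat.mul_le_mul_right σ this
    have b3 := Gf_le hE σ i j (by omega) (by omega) b1 b2
    simp only [hf]
    have b4 : (i : ℝ) + j - 2 * ((min i j : ℕ) : ℝ) ≤ 8 * T := by
      have : i + j ≤ 2 * min i j + 8 * T := by omega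
      have h : ((i + j : ℕ) : ℝ) ≤ ((2 * min i j + 8 * T : ℕ) : ℝ) := by exact_mod_cast this
      push_cast at h
      push_cast
      linarith
    have b5 := mul_le_mul_of_nonneg_right b4 (Nat.cast_nonneg (α := ℝ) σ)
    nlinarith
  · intro i j h1 h2 h3 h4 h5 h6 h7
    have b3 := Gf_nonneg hE σ i j
    simp only [hf]
    have b4 : min i j = W0 * T := by omega
    rw [b4]
    push_cast
    nlinarith

end MP_5e4520_nt.Ex
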