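import Pool.Agent.Lib.MP_5e4520_ntE.A2
set_option autoImplicit false

namespace MP_5e4520_nt.Ex

open Finset

variable {E : ℕ → ℕ → ℕ → ℕ → ℝ} {lam : ℝ} {M : ℕ}

/-- JOB A6.  `H(C|S_ij) = ∑_{t=0}^{2} H(c_{K-t} | i, j, K-t, L-2) ≥ ∑_t hc(i, j+t)`: at `(i, j+t)` the frontier is
`(i, j+t, K-t, L+2t)`, larger in the other coordinates (`h4_incK`). -/
theorem eC_ge (hE : Poly E lam M) (σ i j : ℕ) (h1 : j + 4 ≤ 2 * i) (h2 : i + 4 ≤ 2 * j) :
    hc E σ i j + hc E σ i (j + 1) + hc E σ i (j + 2) ≤ eC E σ i j := by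
  unfold hc eC bS
  have a0 := h4_incK hE σ (2 * i - j) 1 i j (2 * j - i - 2) i j (2 * j - i) le_rfl le_rfl (by omega)
  have a1 := h4_incK hE σ (2 * i - (j + 1)) 1 i j (2 * j - i - 2) i (j + 1) (2 * (j + 1) - i)
    le_rfl (by omega) (by omega)
  have a2 := h4_incK hE σ (2 * i - (j + 2)) 1 i j (2 * j - i - 2) i (j + 2) (2 * (j + 2) - i)
    le_rfl (by omega) (by omega)
  have e1 : 2 * i - (j + 1) + 1 = 2 * i - j := by omega
  have e2 : 2 * i - (j + 2) + 1 = 2 * i - (j + 1) := by omega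
  have e3 : 2 * i - (j + 2) = 2 * i - j - 2 := by omega
  rw [e1] at a1 ⊢
  rw [e2, e3] at a2 ⊢
  linarith

theorem eD_ge (hE : Poly E lam M) (σ i j : ℕ) (h1 : j + 4 ≤ 2 * i) (h2 : i + 4 ≤ 2 * j) :
    hd E σ i j + hd E σ (i + 1) j + hd E σ (i + 2) j ≤ eD E σ i j := by
  unfold hd eD bS
  have a0 := h4_incL hE σ (2 * j - i) 1 i j (2 * i - j - 2) i j (2 * i - j) le_rfl le_rfl (by omega)
  have a1 := h4_incL hE σ (2 * j - (i + 1)) 1 i j (2 * i - j - 2) (i + 1) j (2 * (i + 1) - j)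
    (by omega) le_rfl (by omega)
  have a2 := h4_incL hE σ (2 * j - (i + 2)) 1 i j (2 * i - j - 2) (i + 2) j (2 * (i + 2) - j)
    (by omega) le_rfl (by omega)
  have e1 : 2 * j - (i + 1) + 1 = 2 * j - i := by omega
  have e2 : 2 * j - (i + 2) + 1 = 2 * j - (i + 1) := by omega
  have e3 : 2 * j - (i + 2) = 2 * j - i - 2 := by omega
  rw [e1] at a1 ⊢
  rw [e2, e3] at a2 ⊢
  linarith

private theorem A6_mem (W0 W T : ℕ) (c : ℕ × ℕ) : c ∈ strip W0 W T ↔
    (W0 * T ≤ c.1 ∧ c.1 < W * T) ∧ (W0 * T ≤ c.2 ∧ c.2 < W * T) ∧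
      c.1 ≤ c.2 + 8 * T ∧ c.2 ≤ c.1 + 8 * T := by
  unfold strip
  rw [mem_filter, mem_product, mem_Ico, mem_Ico]
  tauto

open Classical in
private theorem A6_bad_card (W0 W T t : ℕ) (hT : 1 ≤ T) :
    ((strip W0 W T).filter (fun c => ¬ (t ≤ c.2 ∧ (c.1, c.2 - t) ∈ strip W0 W T))).card ≤
      t * ((W + 17) * T) := by
  have hsub : (strip W0 W T).filter (fun c => ¬ (t ≤ c.2 ∧ (c.1, c.2 - t) ∈ strip W0 W T)) ⊆
      ((range (16 * T + 1) ×ˢ range t).image
        (fun x : ℕ × ℕ => (W0 * T + x.2 + x.1 - 8 * T, W0 * T + x.2))) ∪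
      ((range (W * T) ×ˢ range t).image (fun x : ℕ × ℕ => (x.1 + 8 * T - x.2, x.1))) := by
    intro c hc'
    rw [mem_filter] at hc'
    obtain ⟨hc1, hc2⟩ := hc'
    have hc3 := (A6_mem W0 W T c).1 hc1
    rw [A6_mem] at hc2
    obtain ⟨i, j⟩ := c
    simp only at hc2 hc3
    rw [mem_union, mem_image, mem_image]
    by_cases hj : j < W0 * T + t
    · left
      refine ⟨(i + 8 * T - j, j - W0 * T), ?_, ?_⟩
      · rw [mem_product, mem_range, mem_range]
        constructor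
        · simp only
          omega
        · simp only
          omega
      · rw [Prod.mk.injEq]
        constructor
        · simp only
          omega
        · simp only
          omega
    · right
      refine ⟨(j, j + 8 * T - i), ?_, ?_⟩
      · rw [mem_product, mem_range, mem_range]
        constructor
        · simp only
          omega
        · simp only
          omega
      · rw [Prod.mk.injEq]
        constructor
        · simp only
          omega
        · rfl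
  refine (card_le_card hsub).trans ((card_union_le _ _).trans ?_)
  refine (Nat.add_le_add card_image_le card_image_le).trans ?_
  rw [card_product, card_product, card_range, card_range, card_range]
  have : (16 * T + 1) * t ≤ 17 * T * t := Nat.mul_le_mul_right t (by omega)
  nlinarith

/-- Shift in the strip: the cells `(i,j)` of the strip with `(i,j-t)` not in the strip are those with `j < W0 T + t` (at most
`t · 17 T`) or `i > j - t + 8T` (at most `t · W T`). -/
theorem strip_shiftJ (φ : ℕ → ℕ → ℝ) (C : ℝ) (h0 : ∀ i j, 0 ≤ φ i j) (h1 : ∀ i j, φ i j ≤ C)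
    (W0 W T t : ℕ) (hT : 1 ≤ T) (hW0 : 24 ≤ W0) (hW : W0 + 20 ≤ W) :
    ∑ c ∈ strip W0 W T, φ c.1 c.2 ≤
      ∑ c ∈ strip W0 W T, φ c.1 (c.2 + t) + C * (t * ((W + 17) * T)) := by
  classical
  rw [← sum_filter_add_sum_filter_not (strip W0 W T)
    (fun c => t ≤ c.2 ∧ (c.1, c.2 - t) ∈ strip W0 W T)]
  have hC : 0 ≤ C := (h0 0 0).trans (h1 0 0)
  apply add_le_add
  · have hinj : Set.InjOn (fun c : ℕ × ℕ => ((c.1, c.2 - t) : ℕ × ℕ))
        (((strip W0 W T).filter (fun c => t ≤ c.2 ∧ (c.1, c.2 - t) ∈ strip W0 W T) :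
          Finset (ℕ × ℕ)) : Set (ℕ × ℕ)) := by
      intro a ha b hb hab
      rw [mem_coe, mem_filter] at ha hb
      simp only [Prod.mk.injEq] at hab
      ext
      · exact hab.1
      · have := ha.2.1
        have := hb.2.1
        have := hab.2
        omega
    have e : ∑ c ∈ (strip W0 W T).filter (fun c => t ≤ c.2 ∧ (c.1, c.2 - t) ∈ strip W0 W T),
        φ c.1 c.2 = ∑ c ∈ ((strip W0 W T).filter
          (fun c => t ≤ c.2 ∧ (c.1, c.2 - t) ∈ strip W0 W T)).image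
            (fun c : ℕ × ℕ => ((c.1, c.2 - t) : ℕ × ℕ)), φ c.1 (c.2 + t) := by
      rw [sum_image hinj]
      apply sum_congr rfl
      intro c hc'
      rw [mem_filter] at hc'
      have : c.2 - t + t = c.2 := Nat.sub_add_cancel hc'.2.1
      simp only [this]
    rw [e]
    apply sum_le_sum_of_subset_of_nonneg
    · intro c hc'
      rw [mem_image] at hc'
      obtain ⟨a, ha, rfl⟩ := hc'
      rw [mem_filter] at ha
      exact ha.2.2
    · intro c _ _
      exact h0 _ _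
  · refine (sum_le_card_nsmul _ _ C (fun c _ => h1 _ _)).trans ?_
    rw [nsmul_eq_mul, mul_comm]
    apply mul_le_mul_of_nonneg_left _ hC
    have := A6_bad_card W0 W T t hT
    exact_mod_cast this

private theorem A6_swap (W0 W T : ℕ) (f : ℕ → ℕ → ℝ) :
    ∑ c ∈ strip W0 W T, f c.2 c.1 = ∑ c ∈ strip W0 W T, f c.1 c.2 := by
  refine sum_nbij' (fun c => Prod.swap c) (fun c => Prod.swap c) ?_ ?_ ?_ ?_ ?_
  · intro c hc'
    rw [A6_mem] at hc' ⊢
    simp only [Prod.fst_swap, Prod.snd_swap]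
    tauto
  · intro c hc'
    rw [A6_mem] at hc' ⊢
    simp only [Prod.fst_swap, Prod.snd_swap]
    tauto
  · intro c _
    exact Prod.swap_swap c
  · intro c _
    exact Prod.swap_swap c
  · intro c _
    rfl

theorem strip_shiftI (φ : ℕ → ℕ → ℝ) (C : ℝ) (h0 : ∀ i j, 0 ≤ φ i j) (h1 : ∀ i j, φ i j ≤ C)
    (W0 W T t : ℕ) (hT : 1 ≤ T) (hW0 : 24 ≤ W0) (hW : W0 + 20 ≤ W) :
    ∑ c ∈ strip W0 W T, φ c.1 c.2 ≤
      ∑ c ∈ strip W0 W T, φ (c.1 + t) c.2 + C * (t * ((W + 17) * T)) := by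
  have h := strip_shiftJ (fun a b => φ b a) C (fun i j => h0 j i) (fun i j => h1 j i) W0 W T t hT
    hW0 hW
  have e1 := A6_swap W0 W T φ
  have e2 := A6_swap W0 W T (fun a b => φ (a + t) b)
  linarith [h, e1, e2]

/-- `∑ (H(C|S)+H(D|S)) ≥ 3 ∑ (hc+hd) - 6 (W+17) T σ` -/
theorem CD_sum (hE : Poly E lam M) (σ W0 W T : ℕ) (hT : 1 ≤ T) (hW0 : 24 ≤ W0)
    (hW : W0 + 20 ≤ W) :
    3 * ∑ c ∈ strip W0 W T, (hc E σ c.1 c.2 + hd E σ c.1 c.2) - 6 * ((W + 17) * T) * σ ≤
      ∑ c ∈ strip W0 W T, (eC E σ c.1 c.2 + eD E σ c.1 c.2) := by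
  have hlow : ∑ c ∈ strip W0 W T, ((hc E σ c.1 c.2 + hc E σ c.1 (c.2 + 1) + hc E σ c.1 (c.2 + 2)) +
      (hd E σ c.1 c.2 + hd E σ (c.1 + 1) c.2 + hd E σ (c.1 + 2) c.2)) ≤
      ∑ c ∈ strip W0 W T, (eC E σ c.1 c.2 + eD E σ c.1 c.2) := by
    apply sum_le_sum
    intro c hc'
    rw [A6_mem] at hc'
    have hb : 24 * T ≤ W0 * T := Nat.mul_le_mul_right T hW0
    have g1 : c.2 + 4 ≤ 2 * c.1 := by omega
    have g2 : c.1 + 4 ≤ 2 * c.2 := by omega
    have := eC_ge hE σ c.1 c.2 g1 g2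
    have := eD_ge hE σ c.1 c.2 g1 g2
    linarith
  have c1 := strip_shiftJ (fun i j => hc E σ i j) σ (fun i j => (hc_bds hE σ i j).1)
    (fun i j => (hc_bds hE σ i j).2) W0 W T 1 hT hW0 hW
  have c2 := strip_shiftJ (fun i j => hc E σ i j) σ (fun i j => (hc_bds hE σ i j).1)
    (fun i j => (hc_bds hE σ i j).2) W0 W T 2 hT hW0 hW
  have d1 := strip_shiftI (fun i j => hd E σ i j) σ (fun i j => (hd_bds hE σ i j).1)
    (fun i j => (hd_bds hE σ i j).2) W0 W T 1 hT hW0 hW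
  have d2 := strip_shiftI (fun i j => hd E σ i j) σ (fun i j => (hd_bds hE σ i j).1)
    (fun i j => (hd_bds hE σ i j).2) W0 W T 2 hT hW0 hW
  simp only [sum_add_distrib] at hlow ⊢
  push_cast at c1 c2 d1 d2
  linarith

/-- `16 (W-W0-8) T² ≤ |strip| ≤ 17 W T²` -/
theorem strip_card (W0 W T : ℕ) (hT : 1 ≤ T) (hW : W0 + 20 ≤ W) :
    16 * ((W : ℝ) - W0 - 8) * T ^ 2 ≤ ((strip W0 W T).card : ℝ) ∧
      ((strip W0 W T).card : ℝ) ≤ 17 * W * T ^ 2 := by
  classical
  have hWT : (W0 + 20) * T ≤ W * T := Nat.mul_le_mul_right T hW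
  have hWT' : W0 * T + 20 * T ≤ W * T := by linarith [add_mul W0 20 T]
  constructor
  · have hinjA : Set.InjOn (fun x : ℕ × ℕ => ((x.1 + x.2, x.1) : ℕ × ℕ))
        ((Ico (W0 * T) (W * T - 8 * T) ×ˢ range (8 * T) : Finset (ℕ × ℕ)) : Set (ℕ × ℕ)) := by
      intro a _ b _ hab
      simp only [Prod.mk.injEq] at hab
      ext
      · exact hab.2
      · omega
    have hinjB : Set.InjOn (fun x : ℕ × ℕ => ((x.1, x.1 + x.2 + 1) : ℕ × ℕ))
        ((Ico (W0 * T) (W * T - 8 * T) ×ˢ range (8 * T) : Finset (ℕ × ℕ)) : Set (ℕ × ℕ)) := by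
      intro a _ b _ hab
      simp only [Prod.mk.injEq] at hab
      ext
      · exact hab.1
      · omega
    have hdisj : Disjoint
        ((Ico (W0 * T) (W * T - 8 * T) ×ˢ range (8 * T)).image
          (fun x : ℕ × ℕ => ((x.1 + x.2, x.1) : ℕ × ℕ)))
        ((Ico (W0 * T) (W * T - 8 * T) ×ˢ range (8 * T)).image
          (fun x : ℕ × ℕ => ((x.1, x.1 + x.2 + 1) : ℕ × ℕ))) := by
      rw [Finset.disjoint_left]
      intro c hc1 hc2
      rw [mem_image] at hc1 hc2
      obtain ⟨a, _, rfl⟩ := hc1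
      obtain ⟨b, _, hb⟩ := hc2
      simp only [Prod.mk.injEq] at hb
      omega
    have hsub : ((Ico (W0 * T) (W * T - 8 * T) ×ˢ range (8 * T)).image
          (fun x : ℕ × ℕ => ((x.1 + x.2, x.1) : ℕ × ℕ))) ∪
        ((Ico (W0 * T) (W * T - 8 * T) ×ˢ range (8 * T)).image
          (fun x : ℕ × ℕ => ((x.1, x.1 + x.2 + 1) : ℕ × ℕ))) ⊆ strip W0 W T := by
      intro c hc'
      rw [mem_union, mem_image, mem_image] at hc'
      rw [A6_mem]
      rcases hc' with ⟨a, ha, rfl⟩ | ⟨a, ha, rfl⟩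
      · rw [mem_product, mem_Ico, mem_range] at ha
        simp only
        omega
      · rw [mem_product, mem_Ico, mem_range] at ha
        simp only
        omega
    have hcard := card_le_card hsub
    rw [card_union_of_disjoint hdisj, card_image_of_injOn hinjA, card_image_of_injOn hinjB,
      card_product, Nat.card_Ico, card_range] at hcard
    have hcr : ((W * T - 8 * T - W0 * T : ℕ) : ℝ) * (8 * T) +
        ((W * T - 8 * T - W0 * T : ℕ) : ℝ) * (8 * T) ≤ ((strip W0 W T).card : ℝ) := by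
      exact_mod_cast hcard
    have hs : ((W * T - 8 * T - W0 * T : ℕ) : ℝ) = (W : ℝ) * T - 8 * T - W0 * T := by
      rw [Nat.cast_sub (by omega), Nat.cast_sub (by omega)]
      push_cast
      ring
    rw [hs] at hcr
    refine le_trans (le_of_eq ?_) hcr
    ring
  · have hsub : strip W0 W T ⊆ (range (W * T) ×ˢ range (16 * T + 1)).image
        (fun x : ℕ × ℕ => ((x.1 + x.2 - 8 * T, x.1) : ℕ × ℕ)) := by
      intro c hc'
      rw [A6_mem] at hc'
      rw [mem_image]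
      refine ⟨(c.2, c.1 + 8 * T - c.2), ?_, ?_⟩
      · rw [mem_product, mem_range, mem_range]
        simp only
        omega
      · ext
        · simp only
          omega
        · rfl
    have hcard := (card_le_card hsub).trans card_image_le
    rw [card_product, card_range, card_range] at hcard
    have h2 : W * T * (16 * T + 1) ≤ W * T * (17 * T) := Nat.mul_le_mul_left _ (by omega)
    have h3 : ((strip W0 W T).card : ℝ) ≤ ((W * T * (17 * T) : ℕ) : ℝ) := by
      exact_mod_cast hcard.trans h2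
    refine h3.trans (le_of_eq ?_)
    push_cast
    ring

end MP_5e4520_nt.Ex
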