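import Pool.Agent.Lib.MP_5e4520_ntE.A4
import Pool.Agent.Lib.MP_5e4520_ntE.A5
import Pool.Agent.Lib.MP_5e4520_ntE.A6
set_option autoImplicit false

namespace MP_5e4520_nt.Ex

open Finset

variable {E : ℕ → ℕ → ℕ → ℕ → ℝ} {lam : ℝ} {M : ℕ}

/-- JOB A7.  Case 1.  `∑ MGf ≥ 2 ∑(hc+hd) - 17T((2W0+8)Tσ+lam) - 6(W+17)Tσ` (`budget`, `CD_sum`), `W0 = 32`, `lam ≤ Tσ`, so
`∑ MGf ≥ 2Aσ|strip| - 1241 T²σ - 6(W+17)Tσ ≥ (3/2) A σ |strip|` (`|strip| ≥ 16(W-40)T²`, `8A(W-40) ≥ 1600`, `T ≥ W`).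
As `MGf ≤ 6σ`, at least `(A/6)|strip|` cells have `MGf ≥ (A/2)σ`; `∑ TCf ≤ 2W²Tσ` and `TCf ≥ 0`, so one of them has
`TCf ≤ 2W²Tσ · 6/(A · 16 (W-40) T²) ≤ (W²/A) σ/T`. -/
theorem caseOne (hE : Poly E lam M) (σ W T : ℕ) (A : ℝ) (hA : 0 < A) (hA1 : A ≤ 1)
    (hW : 200 + 200 / A ≤ W) (hT : W ≤ T) (hσ : 1 ≤ σ)
    (hM : 3 * (W + 16) * T * σ ≤ M) (hlam : lam ≤ T * σ)
    (hh : A * σ * ((strip 32 W T).card : ℝ) ≤
      ∑ c ∈ strip 32 W T, (hc E σ c.1 c.2 + hd E σ c.1 c.2)) :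
    ∃ c ∈ strip 32 W T, A / 2 * σ ≤ MGf E σ c.1 c.2 ∧
      TCf E σ c.1 c.2 ≤ (W : ℝ) ^ 2 / A * (σ / T) := by
  classical
  set N : ℝ := ((strip 32 W T).card : ℝ) with hN
  set h : ℝ := ∑ c ∈ strip 32 W T, (hc E σ c.1 c.2 + hd E σ c.1 c.2) with hhd
  -- numeric preliminaries
  have hσ' : (1 : ℝ) ≤ σ := by exact_mod_cast hσ
  have hT' : (W : ℝ) ≤ T := by exact_mod_cast hT
  have h200 : (200 : ℝ) ≤ 200 / A := by
    rw [le_div_iff₀ hA]; nlinarith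
  have hW4 : (400 : ℝ) ≤ W := by linarith
  have hW4n : 400 ≤ W := by exact_mod_cast hW4
  have hT1 : 1 ≤ T := by omega
  have hT0 : (0 : ℝ) < T := by linarith
  have hAW : 200 ≤ A * ((W : ℝ) - 200) := by
    have h1 : 200 / A ≤ (W : ℝ) - 200 := by linarith
    rw [div_le_iff₀ hA] at h1
    linarith
  have hcard := (strip_card 32 W T hT1 (by omega)).1
  rw [← hN] at hcard
  have hN0 : 16 * ((W : ℝ) - 40) * T ^ 2 ≤ N := by
    have : 16 * ((W : ℝ) - 40) * T ^ 2 = 16 * ((W : ℝ) - (32 : ℕ) - 8) * T ^ 2 := by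
      push_cast; ring
    rw [this]; exact hcard
  have hNpos : 0 < N := by
    have : 0 < 16 * ((W : ℝ) - 40) * T ^ 2 := by
      have : (0 : ℝ) < (W : ℝ) - 40 := by linarith
      positivity
    linarith
  -- the sum of the margins
  have hMT : 3 * W * T * σ ≤ M := by
    refine le_trans ?_ hM
    exact Nat.mul_le_mul_right _ (Nat.mul_le_mul_right _ (by omega))
  have hbud := budget hE σ 32 W T hT1 (by norm_num) (by omega) hMT
  have hCD := CD_sum hE σ 32 W T hT1 (by norm_num) (by omega)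
  rw [← hhd] at hbud hCD
  have hMG : ∑ c ∈ strip 32 W T, MGf E σ c.1 c.2 =
      ∑ c ∈ strip 32 W T, (eC E σ c.1 c.2 + eD E σ c.1 c.2) -
        ∑ c ∈ strip 32 W T, ((3 * σ - eX E σ c.1 c.2) + (3 * σ - eY E σ c.1 c.2)) := by
    rw [← Finset.sum_sub_distrib]
    refine Finset.sum_congr rfl (fun c _ => ?_)
    unfold MGf; ring
  have hsum : 3 / 2 * (A * σ * N) ≤ ∑ c ∈ strip 32 W T, MGf E σ c.1 c.2 := by
    rw [hMG]
    have e1 : 17 * (T : ℝ) * ((2 * ((32 : ℕ) : ℝ) + 8) * T * σ + lam) ≤ 1241 * T ^ 2 * σ := by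
      push_cast
      nlinarith [mul_nonneg hT0.le (sub_nonneg.2 hlam)]
    have e2 : 6 * (((W : ℝ) + 17) * T) * σ ≤ 7 * T ^ 2 * σ := by
      have : 6 * (((W : ℝ) + 17) * T) ≤ 7 * T ^ 2 := by nlinarith
      nlinarith
    have e3 : 1600 * T ^ 2 * σ ≤ A * σ * N / 2 := by
      have h1 : A * σ * (16 * ((W : ℝ) - 40) * T ^ 2) ≤ A * σ * N :=
        mul_le_mul_of_nonneg_left hN0 (by positivity)
      have h2 : 200 ≤ A * ((W : ℝ) - 40) := by nlinarith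
      have h3 : 200 * (16 * (T : ℝ) ^ 2 * σ) ≤ A * ((W : ℝ) - 40) * (16 * T ^ 2 * σ) :=
        mul_le_mul_of_nonneg_right h2 (by positivity)
      nlinarith
    have e4 : (0 : ℝ) ≤ T ^ 2 * σ := by positivity
    have e5 : A * σ * N ≤ h := hh
    linarith
  -- contradiction
  by_contra hcon
  push Not at hcon
  set B : Finset (ℕ × ℕ) := (strip 32 W T).filter (fun c => A / 2 * σ ≤ MGf E σ c.1 c.2) with hB
  have hupper : ∑ c ∈ strip 32 W T, MGf E σ c.1 c.2 ≤ 6 * σ * B.card + A / 2 * σ * N := by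
    rw [← Finset.sum_filter_add_sum_filter_not (strip 32 W T)
      (fun c => A / 2 * σ ≤ MGf E σ c.1 c.2)]
    have u1 : ∑ c ∈ B, MGf E σ c.1 c.2 ≤ 6 * σ * B.card := by
      calc ∑ c ∈ B, MGf E σ c.1 c.2 ≤ ∑ _c ∈ B, (6 * σ : ℝ) :=
            Finset.sum_le_sum (fun c _ => MGf_le hE σ c.1 c.2)
        _ = 6 * σ * B.card := by rw [Finset.sum_const, nsmul_eq_mul]; ring
    have u2 : ∑ c ∈ (strip 32 W T).filter (fun c => ¬ A / 2 * σ ≤ MGf E σ c.1 c.2),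
        MGf E σ c.1 c.2 ≤ A / 2 * σ * N := by
      calc ∑ c ∈ (strip 32 W T).filter (fun c => ¬ A / 2 * σ ≤ MGf E σ c.1 c.2),
            MGf E σ c.1 c.2 ≤
            ∑ _c ∈ (strip 32 W T).filter (fun c => ¬ A / 2 * σ ≤ MGf E σ c.1 c.2),
              (A / 2 * σ : ℝ) := by
            refine Finset.sum_le_sum (fun c hc => ?_)
            rw [Finset.mem_filter] at hc
            exact (not_le.1 hc.2).le
        _ = A / 2 * σ *
            ((strip 32 W T).filter (fun c => ¬ A / 2 * σ ≤ MGf E σ c.1 c.2)).card := by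
            rw [Finset.sum_const, nsmul_eq_mul]; ring
        _ ≤ A / 2 * σ * N := by
            refine mul_le_mul_of_nonneg_left ?_ (by positivity)
            rw [hN]; exact_mod_cast Finset.card_filter_le _ _
    exact add_le_add u1 u2
  have hBcard : A / 6 * N ≤ B.card := by
    have h1 : A * σ * N ≤ 6 * σ * B.card := by linarith
    have h2 : A * N ≤ 6 * B.card := by
      have : σ * (A * N) ≤ σ * (6 * (B.card : ℝ)) := by linarith
      exact le_of_mul_le_mul_left this (by linarith)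
    linarith
  -- total correlations
  have hTC := sumTC_strip hE σ 32 W T hT1 (by norm_num) (by omega) hM hlam
  have hlow : (B.card : ℝ) * ((W : ℝ) ^ 2 / A * (σ / T)) ≤ ∑ c ∈ strip 32 W T, TCf E σ c.1 c.2 := by
    calc (B.card : ℝ) * ((W : ℝ) ^ 2 / A * (σ / T)) =
          ∑ _c ∈ B, ((W : ℝ) ^ 2 / A * (σ / T)) := by
          rw [Finset.sum_const, nsmul_eq_mul]
      _ ≤ ∑ c ∈ B, TCf E σ c.1 c.2 := by
          refine Finset.sum_le_sum (fun c hc => ?_)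
          rw [hB, Finset.mem_filter] at hc
          exact (hcon c hc.1 hc.2).le
      _ ≤ ∑ c ∈ strip 32 W T, TCf E σ c.1 c.2 :=
          Finset.sum_le_sum_of_subset_of_nonneg (Finset.filter_subset _ _)
            (fun c _ _ => TCf_nonneg hE σ c.1 c.2)
  have hτ : 0 ≤ (W : ℝ) ^ 2 / A * (σ / T) := by positivity
  have hfin : (A / 6 * N) * ((W : ℝ) ^ 2 / A * (σ / T)) ≤ 2 * (W : ℝ) ^ 2 * T * σ :=
    le_trans (mul_le_mul_of_nonneg_right hBcard hτ) (le_trans hlow hTC)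
  have heq : (A / 6 * N) * ((W : ℝ) ^ 2 / A * (σ / T)) = (W : ℝ) ^ 2 * σ * N / (6 * T) := by
    field_simp
  rw [heq, div_le_iff₀ (by positivity)] at hfin
  have h5 : (W : ℝ) ^ 2 * σ * (16 * ((W : ℝ) - 40) * T ^ 2) ≤ (W : ℝ) ^ 2 * σ * N :=
    mul_le_mul_of_nonneg_left hN0 (by positivity)
  have h6 : (W : ℝ) ^ 2 * σ * T ^ 2 * (16 * ((W : ℝ) - 40)) ≤ (W : ℝ) ^ 2 * σ * T ^ 2 * 12 := by
    nlinarith
  have h7 : 0 < (W : ℝ) ^ 2 * σ * T ^ 2 := by positivity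
  have h8 := le_of_mul_le_mul_left h6 h7
  linarith


end MP_5e4520_nt.Ex
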