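import Pool.Agent.Lib.MP_5e4520_ntE.A2
import Pool.Agent.Lib.MP_5e4520_ntE.A6
set_option autoImplicit false

namespace MP_5e4520_nt.Ex

open Finset

variable {E : ℕ → ℕ → ℕ → ℕ → ℝ} {lam : ℝ} {M : ℕ}

/-- entropy of the `g1,g2`-window given the point `P_w = (wT, wT, wT, wT)` -/
noncomputable def gwin (E : ℕ → ℕ → ℕ → ℕ → ℝ) (σ T w : ℕ) : ℝ :=
  h4 E σ (w * T) (w * T) ((w + 2) * T) ((w + 2) * T) - h4 E σ (w * T) (w * T) (w * T) (w * T)

private theorem A8_inc (hE : Poly E lam M) (σ T P κ t : ℕ) (hP : 48 * T ≤ P) (hκ : P ≤ κ)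
    (hκ2 : κ < P + 2 * T) (ht : 2 * T ≤ t) (ht2 : t < 8 * T) :
    (h4 E σ P P (κ + 1) P - h4 E σ P P κ P) + (h4 E σ P P P (κ + 1) - h4 E σ P P P κ) ≤
      hc E σ (κ - t) (κ - 2 * t) + hd E σ (κ - 2 * t) (κ - t) := by
  have e1 : 2 * (κ - t) - (κ - 2 * t) = κ := by omega
  have e2 : 2 * (κ - 2 * t) - (κ - t) = κ - 3 * t := by omega
  have a1 := h4_incK hE σ κ 1 (κ - t) (κ - 2 * t) (κ - 3 * t) P P P (by omega) (by omega)
    (by omega)
  have a2 := h4_incL hE σ κ 1 (κ - 2 * t) (κ - t) (κ - 3 * t) P P P (by omega) (by omega)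
    (by omega)
  rw [hc, hd, e1, e2]
  linarith

private theorem A8_tele (f : ℕ → ℝ) (a n : ℕ) :
    ∑ κ ∈ Ico a (a + n), (f (κ + 1) - f κ) = f (a + n) - f a := by
  rw [Finset.sum_Ico_eq_sum_range, Nat.add_sub_cancel_left]
  have := Finset.sum_range_sub (fun k => f (a + k)) n
  simpa [add_assoc] using this

/-- JOB A8.  `gwin ≤ ∑_{κ ∈ [wT,(w+2)T)} (H(c_κ|P_w, c_{<κ}) + H(d_κ|P_w, d_{<κ}))` and for `2T ≤ t < 8T`
`H(c_κ | wT, wT, κ, wT) ≤ hc(κ-t, κ-2t)`: the frontier point at `(κ-t, κ-2t)` is `(κ-t, κ-2t, κ, κ-3t)`, below `(wT,wT,κ,wT)`.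
Similarly for `d` with `(κ-2t, κ-t)`. -/
theorem gwin_le (hE : Poly E lam M) (σ T w : ℕ) (hT : 1 ≤ T) (hw : 48 ≤ w) :
    6 * T * gwin E σ T w ≤ ∑ κ ∈ Ico (w * T) ((w + 2) * T), ∑ t ∈ Ico (2 * T) (8 * T),
      (hc E σ (κ - t) (κ - 2 * t) + hd E σ (κ - 2 * t) (κ - t)) := by
  obtain ⟨P, hP⟩ : ∃ P, P = w * T := ⟨_, rfl⟩
  have hP48 : 48 * T ≤ P := by rw [hP]; exact Nat.mul_le_mul_right _ hw
  have hQ : (w + 2) * T = P + 2 * T := by rw [hP]; ring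
  rw [gwin, hQ, ← hP]
  have h1 : h4 E σ P P (P + 2 * T) (P + 2 * T) - h4 E σ P P P P ≤
      ∑ κ ∈ Ico P (P + 2 * T), ((h4 E σ P P (κ + 1) P - h4 E σ P P κ P) +
        (h4 E σ P P P (κ + 1) - h4 E σ P P P κ)) := by
    rw [Finset.sum_add_distrib, A8_tele (fun κ => h4 E σ P P κ P), A8_tele (fun κ => h4 E σ P P P κ)]
    have h2 := h4_incL hE σ P (2 * T) P P P P P (P + 2 * T) le_rfl le_rfl (by omega)
    linarith
  have h3 : (0 : ℝ) ≤ 6 * T := by positivity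
  refine (mul_le_mul_of_nonneg_left h1 h3).trans ?_
  rw [Finset.mul_sum]
  apply Finset.sum_le_sum
  intro κ hκ
  rw [Finset.mem_Ico] at hκ
  have h4 : (6 * (T : ℝ)) * ((h4 E σ P P (κ + 1) P - h4 E σ P P κ P) +
        (h4 E σ P P P (κ + 1) - h4 E σ P P P κ)) =
      ∑ t ∈ Ico (2 * T) (8 * T), ((h4 E σ P P (κ + 1) P - h4 E σ P P κ P) +
        (h4 E σ P P P (κ + 1) - h4 E σ P P P κ)) := by
    rw [Finset.sum_const, Nat.card_Ico, nsmul_eq_mul]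
    have : 8 * T - 2 * T = 6 * T := by omega
    rw [this]
    push_cast
    ring
  rw [h4]
  apply Finset.sum_le_sum
  intro t ht
  rw [Finset.mem_Ico] at ht
  exact A8_inc hE σ T P κ t hP48 hκ.1 hκ.2 ht.1 ht.2

private theorem A8_blocks (F : ℕ → ℝ) (T a b : ℕ) (hab : a ≤ b) :
    ∑ w ∈ Ico a b, ∑ κ ∈ Ico (w * T) ((w + 1) * T), F κ = ∑ κ ∈ Ico (a * T) (b * T), F κ := by
  induction b, hab using Nat.le_induction with
  | base => simp
  | succ b hab ih =>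
    rw [Finset.sum_Ico_succ_top hab, ih, Finset.sum_Ico_consecutive]
    · exact Nat.mul_le_mul_right _ hab
    · exact Nat.mul_le_mul_right _ (Nat.le_succ b)

private theorem A8_inj1 (f : ℕ → ℕ → ℝ) (h0 : ∀ i j, 0 ≤ f i j) (W T : ℕ) :
    ∑ κ ∈ Ico (48 * T) (W * T), ∑ t ∈ Ico (2 * T) (8 * T), f (κ - t) (κ - 2 * t) ≤
      ∑ c ∈ strip 32 W T, f c.1 c.2 := by
  classical
  rw [← Finset.sum_product']
  set S := (Ico (48 * T) (W * T)) ×ˢ (Ico (2 * T) (8 * T)) with hS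
  have hmem : ∀ p ∈ S, 48 * T ≤ p.1 ∧ p.1 < W * T ∧ 2 * T ≤ p.2 ∧ p.2 < 8 * T := by
    intro p hp
    rw [hS, Finset.mem_product, Finset.mem_Ico, Finset.mem_Ico] at hp
    exact ⟨hp.1.1, hp.1.2, hp.2.1, hp.2.2⟩
  have e1 : ∑ p ∈ S, f (p.1 - p.2) (p.1 - 2 * p.2) =
      ∑ c ∈ S.image (fun p => (p.1 - p.2, p.1 - 2 * p.2)), f c.1 c.2 := by
    rw [Finset.sum_image]
    rintro ⟨x, y⟩ hp ⟨x', y'⟩ hp' he
    have m1 := hmem _ (Finset.mem_coe.1 hp)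
    have m2 := hmem _ (Finset.mem_coe.1 hp')
    simp only [Prod.mk.injEq] at he m1 m2 ⊢
    omega
  rw [e1]
  apply Finset.sum_le_sum_of_subset_of_nonneg
  · intro c hc
    rw [Finset.mem_image] at hc
    obtain ⟨p, hp, rfl⟩ := hc
    have m := hmem p hp
    simp only [strip, Finset.mem_filter, Finset.mem_product, Finset.mem_Ico]
    omega
  · intro c _ _
    exact h0 _ _

private theorem A8_inj2 (f : ℕ → ℕ → ℝ) (h0 : ∀ i j, 0 ≤ f i j) (W T : ℕ) :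
    ∑ κ ∈ Ico (48 * T) (W * T), ∑ t ∈ Ico (2 * T) (8 * T), f (κ - 2 * t) (κ - t) ≤
      ∑ c ∈ strip 32 W T, f c.1 c.2 := by
  classical
  rw [← Finset.sum_product']
  set S := (Ico (48 * T) (W * T)) ×ˢ (Ico (2 * T) (8 * T)) with hS
  have hmem : ∀ p ∈ S, 48 * T ≤ p.1 ∧ p.1 < W * T ∧ 2 * T ≤ p.2 ∧ p.2 < 8 * T := by
    intro p hp
    rw [hS, Finset.mem_product, Finset.mem_Ico, Finset.mem_Ico] at hp
    exact ⟨hp.1.1, hp.1.2, hp.2.1, hp.2.2⟩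
  have e1 : ∑ p ∈ S, f (p.1 - 2 * p.2) (p.1 - p.2) =
      ∑ c ∈ S.image (fun p => (p.1 - 2 * p.2, p.1 - p.2)), f c.1 c.2 := by
    rw [Finset.sum_image]
    rintro ⟨x, y⟩ hp ⟨x', y'⟩ hp' he
    have m1 := hmem _ (Finset.mem_coe.1 hp)
    have m2 := hmem _ (Finset.mem_coe.1 hp')
    simp only [Prod.mk.injEq] at he m1 m2 ⊢
    omega
  rw [e1]
  apply Finset.sum_le_sum_of_subset_of_nonneg
  · intro c hc
    rw [Finset.mem_image] at hc
    obtain ⟨p, hp, rfl⟩ := hc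
    have m := hmem p hp
    simp only [strip, Finset.mem_filter, Finset.mem_product, Finset.mem_Ico]
    omega
  · intro c _ _
    exact h0 _ _

/-- Sum over `48 ≤ w < W - 1`: each `κ` occurs at most twice, `(κ,t) ↦ (κ-t,κ-2t)` is injective into `strip 32 W T`
(`(κ-t)-(κ-2t) = t < 8T`, `κ-2t ≥ 48T-16T`, `κ - t < (w+2)T-2T = wT < WT`). -/
theorem gwin_sum (hE : Poly E lam M) (σ T W : ℕ) (hT : 1 ≤ T) (hW : 100 ≤ W) :
    6 * T * ∑ w ∈ Ico 48 (W - 1), gwin E σ T w ≤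
      2 * ∑ c ∈ strip 32 W T, (hc E σ c.1 c.2 + hd E σ c.1 c.2) := by
  obtain ⟨F, hF⟩ : ∃ F : ℕ → ℝ, F = fun κ => ∑ t ∈ Ico (2 * T) (8 * T),
      (hc E σ (κ - t) (κ - 2 * t) + hd E σ (κ - 2 * t) (κ - t)) := ⟨_, rfl⟩
  have hF0 : ∀ κ, 0 ≤ F κ := by
    intro κ
    rw [hF]
    exact Finset.sum_nonneg fun t _ => add_nonneg (hc_bds hE σ _ _).1 (hd_bds hE σ _ _).1
  have h1 : 6 * T * ∑ w ∈ Ico 48 (W - 1), gwin E σ T w ≤
      ∑ w ∈ Ico 48 (W - 1), ∑ κ ∈ Ico (w * T) ((w + 2) * T), F κ := by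
    rw [Finset.mul_sum, hF]
    apply Finset.sum_le_sum
    intro w hw
    exact gwin_le hE σ T w hT (Finset.mem_Ico.1 hw).1
  have h2 : ∑ w ∈ Ico 48 (W - 1), ∑ κ ∈ Ico (w * T) ((w + 2) * T), F κ =
      ∑ κ ∈ Ico (48 * T) ((W - 1) * T), F κ + ∑ κ ∈ Ico (49 * T) (W * T), F κ := by
    rw [← A8_blocks F T 48 (W - 1) (by omega), ← A8_blocks F T 49 W (by omega)]
    have e : ∑ w ∈ Ico 49 W, ∑ κ ∈ Ico (w * T) ((w + 1) * T), F κ =
        ∑ w ∈ Ico 48 (W - 1), ∑ κ ∈ Ico ((w + 1) * T) ((w + 1 + 1) * T), F κ := by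
      have := Finset.sum_Ico_add' (fun w => ∑ κ ∈ Ico (w * T) ((w + 1) * T), F κ) 48 (W - 1) 1
      rw [this]
      congr 2
      omega
    rw [e, ← Finset.sum_add_distrib]
    apply Finset.sum_congr rfl
    intro w _
    rw [Finset.sum_Ico_consecutive]
    · exact Nat.mul_le_mul_right _ (by omega)
    · exact Nat.mul_le_mul_right _ (by omega)
  have h3 : ∑ κ ∈ Ico (48 * T) ((W - 1) * T), F κ ≤ ∑ κ ∈ Ico (48 * T) (W * T), F κ :=
    Finset.sum_le_sum_of_subset_of_nonneg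
      (Finset.Ico_subset_Ico le_rfl (Nat.mul_le_mul_right _ (by omega))) (fun κ _ _ => hF0 κ)
  have h4 : ∑ κ ∈ Ico (49 * T) (W * T), F κ ≤ ∑ κ ∈ Ico (48 * T) (W * T), F κ :=
    Finset.sum_le_sum_of_subset_of_nonneg
      (Finset.Ico_subset_Ico (Nat.mul_le_mul_right _ (by omega)) le_rfl) (fun κ _ _ => hF0 κ)
  have h5 : ∑ κ ∈ Ico (48 * T) (W * T), F κ ≤
      ∑ c ∈ strip 32 W T, (hc E σ c.1 c.2 + hd E σ c.1 c.2) := by
    rw [hF]
    simp only [Finset.sum_add_distrib]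
    exact add_le_add (A8_inj1 (hc E σ) (fun i j => (hc_bds hE σ i j).1) W T)
      (A8_inj2 (hd E σ) (fun i j => (hd_bds hE σ i j).1) W T)
  linarith

/-- deficit of the `x`-window given `P_w` and the `g`-window -/
noncomputable def dwin (E : ℕ → ℕ → ℕ → ℕ → ℝ) (σ T w : ℕ) : ℝ :=
  6 * T * σ - (h4 E σ ((w + 1) * T) ((w + 1) * T) ((w + 2) * T) ((w + 2) * T) -
    h4 E σ (w * T) (w * T) ((w + 2) * T) ((w + 2) * T))

private theorem A8_Gf (σ i : ℕ) : Gf E σ i i = 8 * i * σ - h4 E σ i i i i := by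
  have e : 2 * i - i = i := by omega
  rw [Gf, e]
  ring

/-- `dwin ≤ Gf((w+1)T,(w+1)T) - Gf(wT,wT) - 2Tσ + 2 gwin`.  With units of `T`:
`Gf(w+1)-Gf(w) = 8Tσ - [h4(w+1,w+1,w,w) - h4(w,w,w,w)] - [h4(w+1,w+1,w+1,w+1) - h4(w+1,w+1,w,w)]`, the last bracket is
`≤ h4(w,w,w+1,w+1) - h4(w,w,w,w) ≤ gwin`; and `h4(w+1,w+1,w+2,w+2) ≥ h4(w+1,w+1,w,w)`. -/
theorem dwin_le (hE : Poly E lam M) (σ T w : ℕ) :
    dwin E σ T w ≤ Gf E σ ((w + 1) * T) ((w + 1) * T) - Gf E σ (w * T) (w * T) - 2 * T * σ +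
      2 * gwin E σ T w := by
  rw [A8_Gf, A8_Gf, dwin, gwin]
  have m1 : (w + 1) * T ≤ (w + 2) * T := Nat.mul_le_mul_right _ (by omega)
  have m2 : w * T ≤ (w + 2) * T := Nat.mul_le_mul_right _ (by omega)
  have h1 := h4_mono hE σ (le_refl ((w + 1) * T)) (le_refl ((w + 1) * T)) m1 m1
  have h2 := h4_mono hE σ (le_refl (w * T)) (le_refl (w * T)) m2 m2
  push_cast
  linarith

/-- Case 2: some window has small deficit.  `∑_{w=48}^{W-3} dwin ≤ Gf((W-2)T) - 2Tσ(W-50) + 2 ∑ gwin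
≤ 2(W-2)Tσ + lam - 2(W-50)Tσ + (2/(3T)) A σ 17 W T² ≤ (97 + 12 A W) T σ`, there are `W - 50` windows, `A = a/50`. -/
theorem caseTwo (hE : Poly E lam M) (σ W T : ℕ) (a : ℝ) (ha : 0 < a) (ha1 : a ≤ 1)
    (hW : 200 + 200 / a ≤ W) (hT : 1 ≤ T) (hσ : 1 ≤ σ)
    (hM : 3 * W * T * σ ≤ M) (hlam : lam ≤ T * σ)
    (hh : ∑ c ∈ strip 32 W T, (hc E σ c.1 c.2 + hd E σ c.1 c.2) ≤
      a / 50 * σ * ((strip 32 W T).card : ℝ)) :
    ∃ w, 48 ≤ w ∧ w + 2 ≤ W ∧ dwin E σ T w ≤ a * T * σ := by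
  by_contra hcon
  push Not at hcon
  have haW : 200 * a + 200 ≤ a * W := by
    have h1 : a * (200 + 200 / a) ≤ a * W := mul_le_mul_of_nonneg_left hW ha.le
    have h2 : a * (200 + 200 / a) = 200 * a + 200 := by field_simp
    linarith
  have hW400 : 400 ≤ W := by
    have h1 : (400 : ℝ) ≤ W := by
      have h2 : 200 ≤ 200 / a := by
        rw [le_div_iff₀ ha]; linarith
      linarith
    exact_mod_cast h1
  have hTσ : (0 : ℝ) < T * σ := by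
    have h1 : (0 : ℝ) < T := by exact_mod_cast hT
    have h2 : (0 : ℝ) < σ := by exact_mod_cast hσ
    positivity
  -- lower bound for the sum of the deficits
  have hlow : ((W : ℝ) - 49) * (a * T * σ) ≤ ∑ w ∈ Ico 48 (W - 1), dwin E σ T w := by
    have h1 : ∑ w ∈ Ico 48 (W - 1), (a * T * σ) ≤ ∑ w ∈ Ico 48 (W - 1), dwin E σ T w := by
      apply Finset.sum_le_sum
      intro w hw
      rw [Finset.mem_Ico] at hw
      exact (hcon w hw.1 (by omega)).le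
    rw [Finset.sum_const, Nat.card_Ico, nsmul_eq_mul] at h1
    have h2 : ((W - 1 - 48 : ℕ) : ℝ) = (W : ℝ) - 49 := by
      rw [Nat.sub_sub, Nat.cast_sub (by omega)]
      norm_num
    rwa [h2] at h1
  -- upper bound
  have hup : ∑ w ∈ Ico 48 (W - 1), dwin E σ T w ≤
      Gf E σ ((W - 1) * T) ((W - 1) * T) - Gf E σ (48 * T) (48 * T) -
        ((W : ℝ) - 49) * (2 * T * σ) + 2 * ∑ w ∈ Ico 48 (W - 1), gwin E σ T w := by
    have h1 : ∑ w ∈ Ico 48 (W - 1), dwin E σ T w ≤ ∑ w ∈ Ico 48 (W - 1),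
        ((Gf E σ ((w + 1) * T) ((w + 1) * T) - Gf E σ (w * T) (w * T)) - 2 * T * σ +
          2 * gwin E σ T w) := Finset.sum_le_sum fun w _ => dwin_le hE σ T w
    have h3 := A8_tele (fun w => Gf E σ (w * T) (w * T)) 48 (W - 1 - 48)
    have h4 : 48 + (W - 1 - 48) = W - 1 := by omega
    rw [h4] at h3
    rw [Finset.sum_add_distrib, Finset.sum_sub_distrib, h3, Finset.sum_const, Nat.card_Ico,
      nsmul_eq_mul, ← Finset.mul_sum] at h1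
    have h2 : ((W - 1 - 48 : ℕ) : ℝ) = (W : ℝ) - 49 := by
      rw [Nat.sub_sub, Nat.cast_sub (by omega)]
      norm_num
    rwa [h2] at h1
  have hG1 : Gf E σ ((W - 1) * T) ((W - 1) * T) ≤ 2 * ((W : ℝ) - 1) * T * σ + T * σ := by
    have h0 : 3 * ((W - 1) * T) * σ ≤ M := by
      refine le_trans ?_ hM
      have h1 : (W - 1) * T ≤ W * T := Nat.mul_le_mul_right _ (by omega)
      calc 3 * ((W - 1) * T) * σ ≤ 3 * (W * T) * σ := by gcongr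
        _ = 3 * W * T * σ := by ring
    have h1 := Gf_le hE σ ((W - 1) * T) ((W - 1) * T) (by omega) (by omega) h0 h0
    have h2 : (((W - 1) * T : ℕ) : ℝ) = ((W : ℝ) - 1) * T := by
      rw [Nat.cast_mul, Nat.cast_sub (by omega)]
      norm_num
    rw [h2] at h1
    linarith
  have hG2 := Gf_nonneg hE σ (48 * T) (48 * T)
  have hg : ∑ w ∈ Ico 48 (W - 1), gwin E σ T w ≤ 17 / 150 * (a * W) * (T * σ) := by
    have h1 := gwin_sum hE σ T W hT (by omega)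
    have h2 := (strip_card 32 W T hT (by omega)).2
    have hT0 : (0 : ℝ) < T := by exact_mod_cast hT
    have h3 : a / 50 * σ * ((strip 32 W T).card : ℝ) ≤ a / 50 * σ * (17 * W * T ^ 2) :=
      mul_le_mul_of_nonneg_left h2 (by positivity)
    have h4 : 6 * (T : ℝ) * ∑ w ∈ Ico 48 (W - 1), gwin E σ T w ≤
        6 * (T : ℝ) * (17 / 150 * (a * W) * (T * σ)) := by
      calc 6 * (T : ℝ) * ∑ w ∈ Ico 48 (W - 1), gwin E σ T w
          ≤ 2 * ∑ c ∈ strip 32 W T, (hc E σ c.1 c.2 + hd E σ c.1 c.2) := h1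
        _ ≤ 2 * (a / 50 * σ * (17 * W * T ^ 2)) := by linarith
        _ = 6 * (T : ℝ) * (17 / 150 * (a * W) * (T * σ)) := by ring
    exact le_of_mul_le_mul_left h4 (by positivity)
  -- comparison
  have h1 : ((W : ℝ) - 49) * a * (T * σ) ≤ (97 + 17 / 75 * (a * W)) * (T * σ) := by
    have e1 : ((W : ℝ) - 49) * (a * T * σ) = ((W : ℝ) - 49) * a * (T * σ) := by ring
    rw [e1] at hlow
    have e2 : Gf E σ ((W - 1) * T) ((W - 1) * T) - Gf E σ (48 * T) (48 * T) -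
        ((W : ℝ) - 49) * (2 * T * σ) + 2 * ∑ w ∈ Ico 48 (W - 1), gwin E σ T w ≤
        (97 + 17 / 75 * (a * W)) * (T * σ) := by
      have e3 : (97 + 17 / 75 * (a * W)) * (T * σ : ℝ) =
          (2 * ((W : ℝ) - 1) * T * σ + T * σ) - ((W : ℝ) - 49) * (2 * T * σ) +
            2 * (17 / 150 * (a * W) * (T * σ)) := by ring
      rw [e3]
      linarith
    linarith
  have h2 := le_of_mul_le_mul_right h1 hTσ
  nlinarith

end MP_5e4520_nt.Ex
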