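import Pool.Agent.Lib.MP_5e4520_ntE.A7
import Pool.Agent.Lib.MP_5e4520_ntE.A8
set_option autoImplicit false

namespace MP_5e4520_nt.Ex

open Finset

/-- JOB A9.  Selection of a block.  For fixed `j`, `∑_i (β - (m(i+1,j) - m(i,j))) = nβ - (m(n,j)-m(0,j)) ≤ nβ - (m(n,n)-m(0,n))`
(submodularity) `≤ D` (as `m(0,n) - m(0,0) ≤ nβ`), so the average over `i, j` of the first deficit is `≤ D/n`; same for the second;
`∑_{ij} (m(i+1,j)+m(i,j+1)-m(i,j)-m(i+1,j+1))` telescopes to `m(n,0)+m(0,n)-m(0,0)-m(n,n) ≤ 2nβ - (m(n,n)-m(0,0)) ≤ D`.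
All three quantities are nonnegative: some `(i,j)` satisfies the three bounds with the factor `3` (the case `D = 0` included:
use `∑ (n u1 + n u2 + n² u3) ≤ 3 D n²`). -/
theorem block_sel (m : ℕ → ℕ → ℝ) (n : ℕ) (hn : 1 ≤ n) (β D : ℝ)
    (i0 : ∀ i j, m i j ≤ m (i + 1) j) (i1 : ∀ i j, m (i + 1) j ≤ m i j + β)
    (j0 : ∀ i j, m i j ≤ m i (j + 1)) (j1 : ∀ i j, m i (j + 1) ≤ m i j + β)
    (sub : ∀ i j, m (i + 1) (j + 1) + m i j ≤ m (i + 1) j + m i (j + 1))
    (hD : 2 * n * β - (m n n - m 0 0) ≤ D) :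
    ∃ i < n, ∃ j < n, β - (m (i + 1) j - m i j) ≤ 3 * D / n ∧
      β - (m i (j + 1) - m i j) ≤ 3 * D / n ∧
      m (i + 1) j + m i (j + 1) - m i j - m (i + 1) (j + 1) ≤ 3 * D / n ^ 2 := by
  have hn0 : (0 : ℝ) < n := by exact_mod_cast hn
  -- submodularity for rectangles
  have subI : ∀ j k, m k (j + 1) + m 0 j ≤ m k j + m 0 (j + 1) := by
    intro j k
    induction k with
    | zero => linarith
    | succ k ih =>
      have := sub k j
      linarith
  have subJ : ∀ i k, m (i + 1) k + m i 0 ≤ m i k + m (i + 1) 0 := by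
    intro i k
    induction k with
    | zero => linarith
    | succ k ih =>
      have := sub i k
      linarith
  have lipI : ∀ j k, m k j ≤ m 0 j + k * β := by
    intro j k
    induction k with
    | zero => simp
    | succ k ih =>
      have := i1 k j
      push_cast
      linarith
  have lipJ : ∀ i k, m i k ≤ m i 0 + k * β := by
    intro i k
    induction k with
    | zero => simp
    | succ k ih =>
      have := j1 i k
      push_cast
      linarith
  -- first deficits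
  have decI : ∀ j, j ≤ n → m n n - m 0 n ≤ m n j - m 0 j := by
    intro j hj
    obtain ⟨d, rfl⟩ := Nat.exists_eq_add_of_le hj
    clear hj hD hn hn0
    generalize hN : j + d = N
    have key : ∀ d, m N (j + d) - m 0 (j + d) ≤ m N j - m 0 j := by
      intro d
      induction d with
      | zero => simp
      | succ d ih =>
        have := subI (j + d) N
        rw [← add_assoc]
        linarith
    have := key d
    rw [hN] at this
    exact this
  have decJ : ∀ i, i ≤ n → m n n - m n 0 ≤ m i n - m i 0 := by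
    intro i hi
    obtain ⟨d, rfl⟩ := Nat.exists_eq_add_of_le hi
    clear hi hD hn hn0 decI
    generalize hN : i + d = N
    have key : ∀ d, m (i + d) N - m (i + d) 0 ≤ m i N - m i 0 := by
      intro d
      induction d with
      | zero => simp
      | succ d ih =>
        have := subJ (i + d) N
        rw [← add_assoc]
        linarith
    have := key d
    rw [hN] at this
    exact this
  have sI : ∀ j ∈ range n, ∑ i ∈ range n, (β - (m (i + 1) j - m i j)) ≤ D := by
    intro j hj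
    rw [mem_range] at hj
    rw [sum_sub_distrib, sum_const, card_range, nsmul_eq_mul, sum_range_sub (fun i => m i j)]
    have h1 := decI j hj.le
    have h2 := lipJ 0 n
    linarith
  have sJ : ∀ i ∈ range n, ∑ j ∈ range n, (β - (m i (j + 1) - m i j)) ≤ D := by
    intro i hi
    rw [mem_range] at hi
    rw [sum_sub_distrib, sum_const, card_range, nsmul_eq_mul, sum_range_sub (fun j => m i j)]
    have h1 := decJ i hi.le
    have h2 := lipI 0 n
    linarith
  have sK : ∑ j ∈ range n, ∑ i ∈ range n, (m (i + 1) j + m i (j + 1) - m i j - m (i + 1) (j + 1)) ≤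
      D := by
    have h1 : ∀ j ∈ range n, ∑ i ∈ range n, (m (i + 1) j + m i (j + 1) - m i j - m (i + 1) (j + 1)) =
        (m n j - m 0 j) - (m n (j + 1) - m 0 (j + 1)) := by
      intro j _
      rw [← sum_range_sub (fun i => m i j), ← sum_range_sub (fun i => m i (j + 1)),
        ← sum_sub_distrib]
      apply sum_congr rfl
      intro i _
      ring
    rw [sum_congr rfl h1, sum_range_sub' (fun j => m n j - m 0 j)]
    have h2 := lipI 0 n
    have h3 := lipJ 0 n
    linarith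
  by_contra hcon
  push Not at hcon
  have hbig : ∀ j ∈ range n, ∀ i ∈ range n, 3 * D <
      n * (β - (m (i + 1) j - m i j)) + n * (β - (m i (j + 1) - m i j)) +
      n ^ 2 * (m (i + 1) j + m i (j + 1) - m i j - m (i + 1) (j + 1)) := by
    intro j hj i hi
    rw [mem_range] at hj hi
    have u1 : 0 ≤ n * (β - (m (i + 1) j - m i j)) := mul_nonneg hn0.le (by have := i1 i j; linarith)
    have u2 : 0 ≤ n * (β - (m i (j + 1) - m i j)) := mul_nonneg hn0.le (by have := j1 i j; linarith)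
    have u3 : 0 ≤ (n : ℝ) ^ 2 * (m (i + 1) j + m i (j + 1) - m i j - m (i + 1) (j + 1)) :=
      mul_nonneg (pow_pos hn0 2).le (by have := sub i j; linarith)
    by_cases c1 : β - (m (i + 1) j - m i j) ≤ 3 * D / n
    · by_cases c2 : β - (m i (j + 1) - m i j) ≤ 3 * D / n
      · have := hcon i hi j hj c1 c2
        rw [div_lt_iff₀ (pow_pos hn0 2)] at this
        linarith
      · have := not_le.1 c2
        rw [div_lt_iff₀ hn0] at this
        linarith
    · have := not_le.1 c1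
      rw [div_lt_iff₀ hn0] at this
      linarith
  have hne : (range n).Nonempty := nonempty_range_iff.2 (by omega)
  have hsum : ∑ j ∈ range n, ∑ i ∈ range n, 3 * D < ∑ j ∈ range n, ∑ i ∈ range n,
      (n * (β - (m (i + 1) j - m i j)) + n * (β - (m i (j + 1) - m i j)) +
      n ^ 2 * (m (i + 1) j + m i (j + 1) - m i j - m (i + 1) (j + 1))) := by
    apply sum_lt_sum_of_nonempty hne
    intro j hj
    apply sum_lt_sum_of_nonempty hne
    intro i hi
    exact hbig j hj i hi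
  have e1 : ∑ j ∈ range n, ∑ i ∈ range n,
      (n * (β - (m (i + 1) j - m i j)) + n * (β - (m i (j + 1) - m i j)) +
      n ^ 2 * (m (i + 1) j + m i (j + 1) - m i j - m (i + 1) (j + 1))) =
      n * (∑ j ∈ range n, ∑ i ∈ range n, (β - (m (i + 1) j - m i j))) +
      n * (∑ i ∈ range n, ∑ j ∈ range n, (β - (m i (j + 1) - m i j))) +
      n ^ 2 * (∑ j ∈ range n, ∑ i ∈ range n,
        (m (i + 1) j + m i (j + 1) - m i j - m (i + 1) (j + 1))) := by
    rw [sum_comm (s := range n) (t := range n) (f := fun i j => β - (m i (j + 1) - m i j))]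
    simp only [mul_sum, ← sum_add_distrib]
  rw [e1] at hsum
  have b1 : ∑ j ∈ range n, ∑ i ∈ range n, (β - (m (i + 1) j - m i j)) ≤ n * D := by
    refine (sum_le_sum sI).trans ?_
    rw [sum_const, card_range, nsmul_eq_mul]
  have b2 : ∑ i ∈ range n, ∑ j ∈ range n, (β - (m i (j + 1) - m i j)) ≤ n * D := by
    refine (sum_le_sum sJ).trans ?_
    rw [sum_const, card_range, nsmul_eq_mul]
  have e2 : ∑ j ∈ range n, ∑ i ∈ range n, 3 * D = n ^ 2 * (3 * D) := by
    rw [sum_const, sum_const, card_range, nsmul_eq_mul, nsmul_eq_mul]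
    ring
  rw [e2] at hsum
  have c1 := mul_le_mul_of_nonneg_left b1 hn0.le
  have c2 := mul_le_mul_of_nonneg_left b2 hn0.le
  have c3 := mul_le_mul_of_nonneg_left sK (pow_pos hn0 2).le
  nlinarith

/-- JOB A9 (second part).  The combinatorial main theorem.
`W = ⌈200 + 10000·200/a3⌉`-like, `a = a3/9` (so that `3·3aσ'... ≤ a3 σ'`), `A = a/50`, `A0 = A/2`, `T0 = W`.
Let `σ = K2 σ'`.  If `∑_{strip}(hc+hd) ≥ (a/50)σ|strip|` use `caseOne` (with `A = a/50`).  Otherwise `caseTwo` gives `w`; let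
`kg = lg = (w+2)Tσ`, `u0 = 3wTσ`, `m(i,j) = E (u0+3σ'i) (u0+3σ'j) kg lg`, `n = K2 T`, `β = 3σ'`: `2nβ - (m(n,n)-m(0,0)) = dwin ≤ aTσ`;
`block_sel` gives `i, j < n`; put `ks = wTσ + (2i-j)σ'`, `ls = wTσ + (2j-i)σ'` (natural numbers as `w ≥ 48`):
`2ks+ls = u0 + 3σ'i`, `ks+2ls = u0 + 3σ'j`, `ks + σ' ≤ kg`; bounds: `3D/n = 3aσ'`, `3D/n² = 3 a σ'/(K2 T) = 3aσ'^2/(σT)`. -/
theorem modA (a3 : ℝ) (ha3 : 0 < a3) : ∃ (A0 CA : ℝ) (W : ℕ), 0 < A0 ∧ 0 < CA ∧ 1 ≤ W ∧
    ∀ T : ℕ, W ≤ T → ∀ K2 σ' : ℕ, 1 ≤ K2 → 1 ≤ σ' → ∀ (E : ℕ → ℕ → ℕ → ℕ → ℝ) (lam : ℝ) (M : ℕ),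
    Poly E lam M → 4 * W * T * (K2 * σ') ≤ M → lam ≤ T →
    (∃ i j : ℕ, j + T ≤ 2 * i ∧ i + T ≤ 2 * j ∧ i ≤ W * T ∧ j ≤ W * T ∧
      A0 * (K2 * σ' : ℕ) ≤ MGf E (K2 * σ') i j ∧
      TCf E (K2 * σ') i j ≤ CA * ((K2 * σ' : ℕ) / T)) ∨
    (∃ ks ls kg lg : ℕ, T * (K2 * σ') ≤ ks ∧ T * (K2 * σ') ≤ ls ∧ ks + σ' ≤ kg ∧ ls + σ' ≤ lg ∧
      kg ≤ W * T * (K2 * σ') ∧ lg ≤ W * T * (K2 * σ') ∧
      3 * σ' - (E (2 * ks + ls + 3 * σ') (ks + 2 * ls) kg lg - E (2 * ks + ls) (ks + 2 * ls) kg lg) ≤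
        a3 * σ' ∧
      3 * σ' - (E (2 * ks + ls) (ks + 2 * ls + 3 * σ') kg lg - E (2 * ks + ls) (ks + 2 * ls) kg lg) ≤
        a3 * σ' ∧
      E (2 * ks + ls + 3 * σ') (ks + 2 * ls) kg lg + E (2 * ks + ls) (ks + 2 * ls + 3 * σ') kg lg -
        E (2 * ks + ls) (ks + 2 * ls) kg lg -
        E (2 * ks + ls + 3 * σ') (ks + 2 * ls + 3 * σ') kg lg ≤
        CA * (σ' / (K2 * (T : ℝ)))) := by
  obtain ⟨a, ha, ha1, ha2⟩ : ∃ a : ℝ, 0 < a ∧ a ≤ 1 ∧ 9 * a ≤ a3 := by
    refine ⟨min (a3 / 9) 1, lt_min (by positivity) one_pos, min_le_right _ _, ?_⟩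
    have := min_le_left (a3 / 9) 1
    linarith
  obtain ⟨W, hW⟩ := exists_nat_ge (200 + 200 / (a / 50))
  have hq : 0 < 200 / (a / 50) := by positivity
  have hqa : 200 / a ≤ 200 / (a / 50) := by
    apply div_le_div_of_nonneg_left (by norm_num) (by positivity)
    linarith
  have hW200 : 200 ≤ W := by
    have : (200 : ℝ) ≤ W := by linarith
    exact_mod_cast this
  have hCA : 0 < (W : ℝ) ^ 2 / (a / 50) + 3 := by positivity
  refine ⟨a / 50 / 2, (W : ℝ) ^ 2 / (a / 50) + 3, W, by positivity, hCA, by omega, ?_⟩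
  intro T hT K2 σ' hK2 hσ' E lam M hE hM hlam
  set σ : ℕ := K2 * σ' with hσdef
  have hσ : 1 ≤ σ := Nat.mul_pos hK2 hσ'
  have hT1 : 1 ≤ T := by omega
  have hT0 : (0 : ℝ) < T := by exact_mod_cast hT1
  have hσ0 : (0 : ℝ) < σ := by exact_mod_cast hσ
  have hσ'0 : (0 : ℝ) < σ' := by exact_mod_cast hσ'
  have hK20 : (0 : ℝ) < K2 := by exact_mod_cast hK2
  have hlam' : lam ≤ T * σ := by
    have : (1 : ℝ) ≤ σ := by exact_mod_cast hσ
    nlinarith
  rcases le_or_gt (a / 50 * σ * ((strip 32 W T).card : ℝ))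
    (∑ c ∈ strip 32 W T, (hc E σ c.1 c.2 + hd E σ c.1 c.2)) with hh | hh
  · left
    have hM1 : 3 * (W + 16) * T * σ ≤ M := by
      refine le_trans ?_ hM
      apply Nat.mul_le_mul_right
      apply Nat.mul_le_mul_right
      omega
    obtain ⟨c, hc, h1, h2⟩ := caseOne hE σ W T (a / 50) (by positivity) (by linarith) hW hT hσ hM1
      hlam' hh
    unfold strip at hc
    rw [mem_filter, mem_product, mem_Ico, mem_Ico] at hc
    obtain ⟨⟨⟨h3, h4⟩, h5, h6⟩, h7, h8⟩ := hc
    refine ⟨c.1, c.2, by omega, by omega, h4.le, h6.le, h1, h2.trans ?_⟩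
    apply mul_le_mul_of_nonneg_right _ (by positivity)
    linarith
  · right
    have hM2 : 3 * W * T * σ ≤ M := by
      refine le_trans ?_ hM
      apply Nat.mul_le_mul_right
      apply Nat.mul_le_mul_right
      omega
    obtain ⟨w, hw1, hw2, hw3⟩ := caseTwo hE σ W T a ha ha1 (by linarith) hT1 hσ hM2 hlam' hh.le
    set kg : ℕ := (w + 2) * T * σ with hkg
    set u0 : ℕ := 3 * (w * T) * σ with hu0
    have hnn : 1 ≤ K2 * T := Nat.mul_pos hK2 hT1
    have hEm : ∀ i j i' j' : ℕ, i ≤ i' → j ≤ j' →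
        E (u0 + 3 * σ' * i) (u0 + 3 * σ' * j) kg kg ≤
          E (u0 + 3 * σ' * i') (u0 + 3 * σ' * j') kg kg := by
      intro i j i' j' h1 h2
      apply hE.mono
      · exact Nat.add_le_add_left (Nat.mul_le_mul_left _ h1) _
      · exact Nat.add_le_add_left (Nat.mul_le_mul_left _ h2) _
      · exact le_rfl
      · exact le_rfl
    obtain ⟨i, hi, j, hj, h1, h2, h3⟩ := block_sel
      (fun i j => E (u0 + 3 * σ' * i) (u0 + 3 * σ' * j) kg kg) (K2 * T) hnn (3 * σ')
      (a * T * σ)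
      (fun i j => hEm _ _ _ _ (Nat.le_succ i) le_rfl)
      (fun i j => by
        have := hE.lip (u0 + 3 * σ' * i) (u0 + 3 * σ' * j) kg kg (3 * σ') 0 0 0
        simp only [add_zero, Nat.cast_zero] at this
        rw [show u0 + 3 * σ' * (i + 1) = u0 + 3 * σ' * i + 3 * σ' by ring]
        push_cast at this
        exact this)
      (fun i j => hEm _ _ _ _ le_rfl (Nat.le_succ j))
      (fun i j => by
        have := hE.lip (u0 + 3 * σ' * i) (u0 + 3 * σ' * j) kg kg 0 (3 * σ') 0 0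
        simp only [add_zero, Nat.cast_zero, zero_add] at this
        rw [show u0 + 3 * σ' * (j + 1) = u0 + 3 * σ' * j + 3 * σ' by ring]
        push_cast at this
        exact this)
      (fun i j => by
        have := hE.sub (u0 + 3 * σ' * (i + 1)) (u0 + 3 * σ' * j) kg kg
          (u0 + 3 * σ' * i) (u0 + 3 * σ' * (j + 1)) kg kg
        have q1 : ∀ k : ℕ, u0 + 3 * σ' * k ≤ u0 + 3 * σ' * (k + 1) := fun k =>
          Nat.add_le_add_left (Nat.mul_le_mul_left _ (Nat.le_succ k)) _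
        rw [max_eq_left (q1 i), max_eq_right (q1 j), max_self, min_eq_right (q1 i),
          min_eq_left (q1 j), min_self] at this
        exact this)
      (by
        have e1 : u0 + 3 * σ' * (K2 * T) = 3 * ((w + 1) * T) * σ := by
          rw [hu0, hσdef]; ring
        have e2 : u0 + 3 * σ' * 0 = 3 * (w * T) * σ := by
          rw [hu0]; ring
        have h4 : dwin E σ T w = 6 * T * σ - (E (3 * ((w + 1) * T) * σ) (3 * ((w + 1) * T) * σ) kg kg -
          E (3 * (w * T) * σ) (3 * (w * T) * σ) kg kg) := rfl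
        rw [h4] at hw3
        rw [e1, e2]
        have e3 : 2 * ((K2 * T : ℕ) : ℝ) * (3 * σ') = 6 * T * σ := by
          rw [hσdef]; push_cast; ring
        rw [e3]
        exact hw3)
    have hwT : K2 * T ≤ w * T * K2 := by
      have : 1 * (K2 * T) ≤ w * (K2 * T) := Nat.mul_le_mul_right _ (by omega)
      calc K2 * T = 1 * (K2 * T) := by ring
        _ ≤ w * (K2 * T) := this
        _ = _ := by ring
    have hwT2 : 2 * (K2 * T) ≤ w * T * K2 := by
      have : 2 * (K2 * T) ≤ w * (K2 * T) := Nat.mul_le_mul_right _ (by omega)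
      calc 2 * (K2 * T) ≤ w * (K2 * T) := this
        _ = _ := by ring
    obtain ⟨p, hp⟩ : ∃ p, p + j = w * T * K2 + 2 * i := ⟨w * T * K2 + 2 * i - j, by omega⟩
    obtain ⟨r, hr⟩ : ∃ r, r + i = w * T * K2 + 2 * j := ⟨w * T * K2 + 2 * j - i, by omega⟩
    have e1 : 2 * (p * σ') + r * σ' = u0 + 3 * σ' * i := by
      have h4 : 2 * p + r = 3 * (w * T * K2) + 3 * i := by omega
      calc 2 * (p * σ') + r * σ' = (2 * p + r) * σ' := by ring
        _ = (3 * (w * T * K2) + 3 * i) * σ' := by rw [h4]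
        _ = _ := by rw [hu0, hσdef]; ring
    have e2 : p * σ' + 2 * (r * σ') = u0 + 3 * σ' * j := by
      have h4 : p + 2 * r = 3 * (w * T * K2) + 3 * j := by omega
      calc p * σ' + 2 * (r * σ') = (p + 2 * r) * σ' := by ring
        _ = (3 * (w * T * K2) + 3 * j) * σ' := by rw [h4]
        _ = _ := by rw [hu0, hσdef]; ring
    have hlow : ∀ z : ℕ, K2 * T ≤ z → T * σ ≤ z * σ' := by
      intro z hz
      calc T * σ = (K2 * T) * σ' := by rw [hσdef]; ring
        _ ≤ z * σ' := Nat.mul_le_mul_right _ hz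
    have hup : ∀ z : ℕ, z + 1 ≤ w * T * K2 + 2 * (K2 * T) → z * σ' + σ' ≤ kg := by
      intro z hz
      calc z * σ' + σ' = (z + 1) * σ' := by ring
        _ ≤ (w * T * K2 + 2 * (K2 * T)) * σ' := Nat.mul_le_mul_right _ hz
        _ = kg := by rw [hkg, hσdef]; ring
    have hkgW : kg ≤ W * T * σ := by
      rw [hkg]
      apply Nat.mul_le_mul_right
      apply Nat.mul_le_mul_right
      exact hw2
    have d1 : 3 * (a * T * σ) / ((K2 * T : ℕ) : ℝ) = 3 * a * σ' := by
      rw [hσdef]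
      push_cast
      field_simp
    have d2 : 3 * (a * T * σ) / ((K2 * T : ℕ) : ℝ) ^ 2 = 3 * a * (σ' / (K2 * (T : ℝ))) := by
      rw [hσdef]
      push_cast
      field_simp
    have m1 : ∀ k : ℕ, u0 + 3 * σ' * (k + 1) = u0 + 3 * σ' * k + 3 * σ' := fun k => by ring
    rw [d1, m1] at h1 h2
    rw [d2, m1, m1] at h3
    have h9a : 3 * a * (σ' : ℝ) ≤ a3 * σ' := by
      apply mul_le_mul_of_nonneg_right _ hσ'0.le
      linarith
    refine ⟨p * σ', r * σ', kg, kg, hlow p (by omega), hlow r (by omega), hup p (by omega),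
      hup r (by omega), hkgW, hkgW, ?_, ?_, ?_⟩
    · rw [e1, e2]
      exact h1.trans h9a
    · rw [e1, e2]
      exact h2.trans h9a
    · rw [e1, e2]
      refine h3.trans ?_
      apply mul_le_mul_of_nonneg_right _ (by positivity)
      have : 0 ≤ (W : ℝ) ^ 2 / (a / 50) := by positivity
      linarith

end MP_5e4520_nt.Ex
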