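import Pool.Agent.Lib.MP_5e4520_ntE.XDefs
set_option autoImplicit false

/-!
# Module A: combinatorics of the entropy of prefixes

`E : ℕ → ℕ → ℕ → ℕ → ℝ` with `Poly E lam M` (helper25: monotone, submodular, 1-Lipschitz, `E 0 0 0 0 = 0`,
`E a b 0 0 ≥ a + b - lam` for `a, b ≤ M`).  Unit `σ`.  For a cell `(i, j)` put `K = 2i - j`, `L = 2j - i`
(`j ≤ 2i`, `i ≤ 2j`).  The *frontier* point is `F_ij = (3iσ, 3jσ, Kσ, Lσ)`; the *block* at `(i,j)` starts at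
`S_ij = (3iσ, 3jσ, (K-2)σ, (L-2)σ)`, its four parts are `X` (3σ digits of `a`), `Y` (3σ digits of `b`),
`C` (3σ digits of `g1`) and `D` (3σ digits of `g2`).
-/

namespace MP_5e4520_nt.Ex

open Finset

section
variable (E : ℕ → ℕ → ℕ → ℕ → ℝ) (σ : ℕ)

/-- `h4 E σ A B K L` = entropy at `(3Aσ, 3Bσ, Kσ, Lσ)` -/
noncomputable def h4 (A B K L : ℕ) : ℝ := E (3 * A * σ) (3 * B * σ) (K * σ) (L * σ)

/-- deficit of the frontier point `F_ij` -/
noncomputable def Gf (i j : ℕ) : ℝ :=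
  3 * i * σ + 3 * j * σ + ((2 * i - j : ℕ) : ℝ) * σ + ((2 * j - i : ℕ) : ℝ) * σ -
    h4 E σ i j (2 * i - j) (2 * j - i)

/-- entropy of the next unit of `g1` at the frontier -/
noncomputable def hc (i j : ℕ) : ℝ :=
  h4 E σ i j (2 * i - j + 1) (2 * j - i) - h4 E σ i j (2 * i - j) (2 * j - i)

/-- entropy of the next unit of `g2` at the frontier -/
noncomputable def hd (i j : ℕ) : ℝ :=
  h4 E σ i j (2 * i - j) (2 * j - i + 1) - h4 E σ i j (2 * i - j) (2 * j - i)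

/-- base entropy of the block `S_ij` -/
noncomputable def bS (i j : ℕ) : ℝ := h4 E σ i j (2 * i - j - 2) (2 * j - i - 2)

/-- `H(X|S)` -/
noncomputable def eX (i j : ℕ) : ℝ := h4 E σ (i + 1) j (2 * i - j - 2) (2 * j - i - 2) - bS E σ i j

/-- `H(Y|S)` -/
noncomputable def eY (i j : ℕ) : ℝ := h4 E σ i (j + 1) (2 * i - j - 2) (2 * j - i - 2) - bS E σ i j

/-- `H(C|S)` -/
noncomputable def eC (i j : ℕ) : ℝ := h4 E σ i j (2 * i - j + 1) (2 * j - i - 2) - bS E σ i j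

/-- `H(D|S)` -/
noncomputable def eD (i j : ℕ) : ℝ := h4 E σ i j (2 * i - j - 2) (2 * j - i + 1) - bS E σ i j

/-- `H(X,Y,C,D|S)` -/
noncomputable def eXYCD (i j : ℕ) : ℝ :=
  h4 E σ (i + 1) (j + 1) (2 * i - j + 1) (2 * j - i + 1) - bS E σ i j

/-- total correlation of the four parts of the block -/
noncomputable def TCf (i j : ℕ) : ℝ :=
  eX E σ i j + eY E σ i j + eC E σ i j + eD E σ i j - eXYCD E σ i j

/-- margin of the block: `H(C|S) + H(D|S) - (3σ - H(X|S)) - (3σ - H(Y|S))` -/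
noncomputable def MGf (i j : ℕ) : ℝ :=
  eC E σ i j + eD E σ i j - (3 * σ - eX E σ i j) - (3 * σ - eY E σ i j)

end

/-- the strip `W0 T ≤ i, j < W T`, `|i - j| ≤ 8T` -/
def strip (W0 W T : ℕ) : Finset (ℕ × ℕ) :=
  ((Ico (W0 * T) (W * T)) ×ˢ (Ico (W0 * T) (W * T))).filter
    (fun p => p.1 ≤ p.2 + 8 * T ∧ p.2 ≤ p.1 + 8 * T)

/-- square of side `n` -/
def sq (p n : ℕ) : Finset (ℕ × ℕ) := (Ico p (p + n)) ×ˢ (Ico p (p + n))

end MP_5e4520_nt.Ex
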