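import Pool.Agent.Lib.MP_5e4520_ntE.XDefs
set_option autoImplicit false

/-!
# The counting lemma for quadruples (COUNT4)

`G = Gc = 100000`, `m = 2^(G s)`.  `Γ` is a subgroup of `ℝ³` (coordinates `(z0, z1, z2) = (z.1, z.2.1, z.2.2)`) with the counting
property `GDG`.
-/

namespace MP_5e4520_nt.Ex

open Finset

abbrev V3 := ℝ × ℝ × ℝ

def InBox (j0 j1 j2 : ℤ) (z : V3) : Prop :=
  |z.1| ≤ (2 : ℝ) ^ j0 ∧ |z.2.1| ≤ (2 : ℝ) ^ j1 ∧ |z.2.2| ≤ (2 : ℝ) ^ j2

/-- counting property -/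
def GDG (s : ℕ) (Γ : AddSubgroup V3) : Prop :=
  ∀ j0 j1 j2 : ℤ, -(4 * Gc * s : ℤ) ≤ j1 → j1 ≤ j0 → -(4 * Gc * s : ℤ) ≤ j2 → j2 ≤ j0 →
    j0 ≤ 2 * Gc * s → ∀ F : Finset V3, (∀ z ∈ F, z ∈ Γ ∧ z ≠ 0 ∧ InBox j0 j1 j2 z) →
    (F.card : ℝ) ≤ (2 : ℝ) ^ ((s : ℤ) + j0 + j1 + j2)

/-- core coordinates -/
def Core (s : ℕ) (z : V3) : Prop :=
  (2 : ℝ) ^ ((Gc - 60) * s) ≤ z.2.1 ∧ z.2.1 ≤ (2 : ℝ) ^ ((Gc + 60) * s) ∧
  (2 : ℝ) ^ ((Gc - 60) * s) ≤ z.2.2 ∧ z.2.2 ≤ (2 : ℝ) ^ ((Gc + 60) * s)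

/-- the quadruple `D, D+A, D+B, D+A+B` -/
structure Q4 (s : ℕ) (Γ : AddSubgroup V3) (D A B : V3) : Prop where
  mD : D ∈ Γ
  mA : A ∈ Γ
  mB : B ∈ Γ
  cD : Core s D
  cA : Core s (D + A)
  cB : Core s (D + B)
  cAB : Core s (D + A + B)
  zD : |D.1| ≤ (2 : ℝ) ^ ((Gc + 1063) * s)
  zA : |A.1| ≤ (2 : ℝ) ^ ((Gc + 1063) * s)
  zB : |B.1| ≤ (2 : ℝ) ^ ((Gc + 1063) * s)
  sA : |A.2.2| ≤ 1 / (2 : ℝ) ^ (1000 * s)
  sB : |B.2.1| ≤ 1 / (2 : ℝ) ^ (1000 * s)
  F : |D.2.1 * (D + A + B).2.1 * ((D + A).2.2 * (D + B).2.2) -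
      (D + A).2.1 * (D + B).2.1 * (D.2.2 * (D + A + B).2.2)| ≤ (2 : ℝ) ^ ((Gc + 203) * s)

/-- `P = A2 B2`, `R = A1 B1` -/
def PP (A B : V3) : ℝ := A.2.2 * B.2.2

def RR (A B : V3) : ℝ := A.2.1 * B.2.1

/-- JOB C1.  The algebraic identity: with `x = D1, y = D2`, `X = x (x+A1+B1)`, `Y = y (y+A2+B2)`,
`x(x+A1+B1)(y+A2)(y+B2) - (x+A1)(x+B1) y (y+A2+B2) = P X - R Y` (`ring`). -/
theorem F_identity (D A B : V3) :
    D.2.1 * (D + A + B).2.1 * ((D + A).2.2 * (D + B).2.2) -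
      (D + A).2.1 * (D + B).2.1 * (D.2.2 * (D + A + B).2.2) =
    PP A B * (D.2.1 * (D + A + B).2.1) - RR A B * (D.2.2 * (D + A + B).2.2) := by
  unfold PP RR
  simp only [Prod.fst_add, Prod.snd_add]
  ring

open Classical in
/-- a set with all differences in a box has at most `1 + 2^(s+j0+j1+j2)` points (subtract a fixed point) -/
theorem box_diff (s : ℕ) (Γ : AddSubgroup V3) (hG : GDG s Γ) (j0 j1 j2 : ℤ)
    (h1 : -(4 * Gc * s : ℤ) ≤ j1) (h1' : j1 ≤ j0) (h2 : -(4 * Gc * s : ℤ) ≤ j2) (h2' : j2 ≤ j0)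
    (h0 : j0 ≤ 2 * Gc * s) (F : Finset V3) (hF : ∀ z ∈ F, z ∈ Γ)
    (hd : ∀ z ∈ F, ∀ z' ∈ F, InBox j0 j1 j2 (z - z')) :
    (F.card : ℝ) ≤ 1 + (2 : ℝ) ^ ((s : ℤ) + j0 + j1 + j2) := by
  rcases F.eq_empty_or_nonempty with hE | ⟨z0, hz0⟩
  · subst hE
    rw [Finset.card_empty, Nat.cast_zero]
    positivity
  · have hinj : Function.Injective (fun z : V3 => z - z0) := sub_left_injective
    have h := hG j0 j1 j2 h1 h1' h2 h2' h0 ((F.erase z0).image (fun z : V3 => z - z0)) (by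
      intro z hz
      rw [Finset.mem_image] at hz
      obtain ⟨z', hz', rfl⟩ := hz
      rw [Finset.mem_erase] at hz'
      exact ⟨Γ.sub_mem (hF z' hz'.2) (hF z0 hz0), sub_ne_zero.2 hz'.1, hd z' hz'.2 z0 hz0⟩)
    rw [Finset.card_image_of_injective _ hinj, Finset.card_erase_of_mem hz0,
      Nat.cast_sub (Finset.card_pos.2 ⟨z0, hz0⟩), Nat.cast_one] at h
    linarith

private theorem c1_int_card (I : Finset ℤ) (L : ℝ) (hL : 0 ≤ L)
    (h : ∀ a ∈ I, ∀ b ∈ I, ((a : ℝ) - b) ≤ L) : (I.card : ℝ) ≤ L + 1 := by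
  rcases I.eq_empty_or_nonempty with hE | hne
  · subst hE
    rw [Finset.card_empty, Nat.cast_zero]
    linarith
  · have hsub : I ⊆ Icc (I.min' hne) (I.max' hne) := by
      intro a ha
      rw [Finset.mem_Icc]
      exact ⟨Finset.min'_le _ _ ha, Finset.le_max' _ _ ha⟩
    have h1 := Finset.card_le_card hsub
    rw [Int.card_Icc] at h1
    have h2 := h _ (Finset.max'_mem I hne) _ (Finset.min'_mem I hne)
    have h3 : I.min' hne ≤ I.max' hne := Finset.min'_le _ _ (Finset.max'_mem I hne)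
    have h4 : (I.card : ℤ) ≤ I.max' hne + 1 - I.min' hne := by
      have h5 : ((I.max' hne + 1 - I.min' hne).toNat : ℤ) = I.max' hne + 1 - I.min' hne :=
        Int.toNat_of_nonneg (by omega)
      rw [← h5]
      exact_mod_cast h1
    have h6 : (I.card : ℝ) ≤ (I.max' hne : ℝ) + 1 - (I.min' hne : ℝ) := by exact_mod_cast h4
    linarith

private theorem c1_card {α β : Type*} [DecidableEq β] (F : Finset α) (f : α → β) (C N : ℝ)
    (hC0 : 0 ≤ C) (hC : ∀ b ∈ F.image f, ((F.filter (fun a => f a = b)).card : ℝ) ≤ C)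
    (hN : ((F.image f).card : ℝ) ≤ N) : (F.card : ℝ) ≤ N * C := by
  rw [Finset.card_eq_sum_card_image f F, Nat.cast_sum]
  calc ∑ b ∈ F.image f, ((F.filter (fun a => f a = b)).card : ℝ) ≤ ∑ _b ∈ F.image f, C :=
        Finset.sum_le_sum hC
    _ = ((F.image f).card : ℝ) * C := by rw [Finset.sum_const, nsmul_eq_mul]
    _ ≤ N * C := mul_le_mul_of_nonneg_right hN hC0

private theorem c1_floor_le (u v L : ℝ) (h : |u - v| ≤ L) : ((⌊u⌋ : ℝ) - ⌊v⌋) ≤ L + 1 := by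
  have h1 := Int.floor_le u
  have h2 := Int.lt_floor_add_one v
  have h3 := (abs_le.1 h).2
  linarith

private theorem c1_floor_eq (u v W : ℝ) (hW : 0 < W) (h : ⌊u * W⌋ = ⌊v * W⌋) :
    |u - v| ≤ 1 / W := by
  have h1 := Int.abs_sub_lt_one_of_floor_eq_floor h
  rw [← sub_mul, abs_mul, abs_of_pos hW] at h1
  rw [le_div_iff₀ hW]
  exact h1.le

/-- the algebraic core: bound of the `x`-difference of two quadruples in the same `y`-cell -/
private theorem c1_xdiff {P R a q120 q240 q263 W x x' y y' α β : ℝ} (ha : 0 < a) (hW : 0 < W)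
    (hq1 : 0 < q120) (hP : P ≠ 0) (hR : |R| ≤ 2 * q240 * |P|)
    (hx : a ≤ x) (hx' : a ≤ x' + α) (hy : 0 ≤ y) (hy' : 0 ≤ y' + β) (hy2 : y ≤ a * q120)
    (hy2' : y' + β ≤ a * q120) (hyy : |y - y'| ≤ 1 / W)
    (h1 : |P * (x * (x + α)) - R * (y * (y + β))| ≤ a * q263)
    (h2 : |P * (x' * (x' + α)) - R * (y' * (y' + β))| ≤ a * q263) :
    |x * W - x' * W| ≤ 2 * q240 * q120 + q263 * W / |P| := by
  have hP' : 0 < |P| := abs_pos.2 hP
  have e1 : P * ((x - x') * (x + (x' + α))) = R * ((y - y') * (y + (y' + β))) +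
      ((P * (x * (x + α)) - R * (y * (y + β))) - (P * (x' * (x' + α)) - R * (y' * (y' + β)))) := by
    ring
  have e2 : |P| * (|x - x'| * (x + (x' + α))) ≤ |R| * (|y - y'| * (y + (y' + β))) +
      (a * q263 + a * q263) := by
    have e3 : |P * ((x - x') * (x + (x' + α)))| ≤ |R * ((y - y') * (y + (y' + β)))| +
        (|P * (x * (x + α)) - R * (y * (y + β))| + |P * (x' * (x' + α)) - R * (y' * (y' + β))|) := by
      rw [e1]
      refine (abs_add_le _ _).trans ?_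
      gcongr
      exact abs_sub _ _
    rw [abs_mul, abs_mul, abs_mul, abs_mul, abs_of_nonneg (by linarith : 0 ≤ x + (x' + α)),
      abs_of_nonneg (by linarith : 0 ≤ y + (y' + β))] at e3
    linarith
  have e4 : |P| * (|x - x'| * (2 * a)) ≤ |P| * (|x - x'| * (x + (x' + α))) := by
    apply mul_le_mul_of_nonneg_left _ hP'.le
    apply mul_le_mul_of_nonneg_left _ (abs_nonneg _)
    linarith
  have e5 : |R| * (|y - y'| * (y + (y' + β))) ≤ (2 * q240 * |P|) * ((1 / W) * (2 * (a * q120))) := by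
    have hq : 0 ≤ 2 * q240 * |P| := (abs_nonneg _).trans hR
    apply mul_le_mul hR _ (by positivity) hq
    apply mul_le_mul hyy (by linarith) (by linarith) (by positivity)
  have e6 : |P| * (|x - x'| * (2 * a)) ≤ (2 * q240 * |P|) * ((1 / W) * (2 * (a * q120))) +
      (a * q263 + a * q263) := by linarith
  rw [← sub_mul, abs_mul, abs_of_pos hW]
  have e7 : (2 * a * |P|) * (|x - x'| * W) ≤
      (2 * a * |P|) * (2 * q240 * q120 + q263 * W / |P|) := by
    have e8 : (2 * a * |P|) * (|x - x'| * W) = (|P| * (|x - x'| * (2 * a))) * W := by ring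
    have e9 : (2 * a * |P|) * (2 * q240 * q120 + q263 * W / |P|) =
        ((2 * q240 * |P|) * ((1 / W) * (2 * (a * q120))) + (a * q263 + a * q263)) * W := by
      field_simp
      ring
    rw [e8, e9]
    exact mul_le_mul_of_nonneg_right e6 hW.le
  exact le_of_mul_le_mul_left e7 (by positivity)

/-- Number of `D` for fixed `A, B`.  `w = 2^(-G s/2) = 2^(-50000 s)`.  Split the range of `y = D2` (`0 ≤ y ≤ 2^((G+60)s)`) into intervals of
length `w`: at most `2·2^((150000+60)s)`.  For `D, D'` in the same `y`-interval: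
`|P||X-X'| ≤ |R||Y-Y'| + 2·2^((G+203)s)` (`F_identity`, `Q4.F`), `|Y-Y'| = |y-y'| (y+y'+A2+B2) ≤ w·2·2^((G+60)s)`,
`|X-X'| = |x-x'| (x+x'+A1+B1) ≥ |x-x'|·2·2^((G-60)s)`, so `|x-x'| ≤ |R/P| w 2^(120s) + 2^(263s)/|P| ≤ 2^(362s) w + 2^(263s)/|P|`
(`|R| ≤ 2·2^(240s)|P|`); hence at most `2^(363s) + 2^(263s)/(|P| w)` pieces of length `w` in `x`.  In a cell `w × w` the differences are in
the box `((G+1064)s, -G s/2, -G s/2)`: at most `1 + 2^(1065 s)` points (`box_diff`). -/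
theorem D_count (s : ℕ) (hs : 20 ≤ s) (Γ : AddSubgroup V3) (hG : GDG s Γ) (A B : V3)
    (hP : PP A B ≠ 0) (hR : |RR A B| ≤ 2 * 2 ^ (240 * s) * |PP A B|)
    (F : Finset V3) (hF : ∀ D ∈ F, Q4 s Γ D A B) :
    (F.card : ℝ) ≤ (2 : ℝ) ^ (151500 * s) * (1 + (2 : ℝ) ^ (50000 * s) / |PP A B|) := by
  classical
  obtain ⟨W, hWdef⟩ : ∃ W : ℝ, W = (2 : ℝ) ^ (50000 * s) := ⟨_, rfl⟩
  obtain ⟨a, hadef⟩ : ∃ a : ℝ, a = (2 : ℝ) ^ ((Gc - 60) * s) := ⟨_, rfl⟩
  obtain ⟨q, hqdef⟩ : ∃ q : ℝ, q = (2 : ℝ) ^ (120 * s) := ⟨_, rfl⟩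
  obtain ⟨q2, hq2def⟩ : ∃ q2 : ℝ, q2 = (2 : ℝ) ^ (240 * s) := ⟨_, rfl⟩
  obtain ⟨q3, hq3def⟩ : ∃ q3 : ℝ, q3 = (2 : ℝ) ^ (263 * s) := ⟨_, rfl⟩
  obtain ⟨p, hpdef⟩ : ∃ p : ℝ, p = |PP A B| := ⟨_, rfl⟩
  have hW : 0 < W := by rw [hWdef]; positivity
  have ha : 0 < a := by rw [hadef]; positivity
  have hq : 0 < q := by rw [hqdef]; positivity
  have hq2 : 0 < q2 := by rw [hq2def]; positivity
  have hq3 : 0 < q3 := by rw [hq3def]; positivity
  have hp : 0 < p := by rw [hpdef]; exact abs_pos.2 hP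
  have eb : (2 : ℝ) ^ ((Gc + 60) * s) = a * q := by
    rw [hadef, hqdef, ← pow_add]
    congr 1
    unfold Gc
    omega
  have ec : (2 : ℝ) ^ ((Gc + 203) * s) = a * q3 := by
    rw [hadef, hq3def, ← pow_add]
    congr 1
    unfold Gc
    omega
  rw [← hWdef, ← hpdef]
  -- cell bound
  have hcell : ∀ F' : Finset V3, (∀ D ∈ F', Q4 s Γ D A B) →
      (∀ D ∈ F', ∀ D' ∈ F', |D.2.1 - D'.2.1| ≤ 1 / W ∧ |D.2.2 - D'.2.2| ≤ 1 / W) →
      (F'.card : ℝ) ≤ 1 + (2 : ℝ) ^ (1065 * s) := by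
    intro F' hF' hd
    have h := box_diff s Γ hG (((Gc + 1064) * s : ℕ) : ℤ) (-((50000 * s : ℕ) : ℤ))
      (-((50000 * s : ℕ) : ℤ)) (by unfold Gc; push_cast; omega) (by unfold Gc; push_cast; omega)
      (by unfold Gc; push_cast; omega) (by unfold Gc; push_cast; omega)
      (by unfold Gc; push_cast; omega) F' (fun z hz => (hF' z hz).mD) (by
        intro z hz z' hz'
        have k1 := (hd z hz z' hz').1
        have k2 := (hd z hz z' hz').2
        have k3 := (hF' z hz).zD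
        have k4 := (hF' z' hz').zD
        rw [hWdef] at k1 k2
        refine ⟨?_, ?_, ?_⟩
        · rw [zpow_natCast, Prod.fst_sub]
          have k5 : 2 * (2 : ℝ) ^ ((Gc + 1063) * s) ≤ (2 : ℝ) ^ ((Gc + 1064) * s) := by
            rw [← pow_succ']
            apply pow_le_pow_right₀ (by norm_num)
            unfold Gc
            omega
          have k6 : |z.1 - z'.1| ≤ |z.1| + |z'.1| := abs_sub _ _
          linarith
        · rw [zpow_neg, zpow_natCast, Prod.snd_sub, Prod.fst_sub, ← one_div]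
          exact k1
        · rw [zpow_neg, zpow_natCast, Prod.snd_sub, Prod.snd_sub, ← one_div]
          exact k2)
    have e : (s : ℤ) + (((Gc + 1064) * s : ℕ) : ℤ) + (-((50000 * s : ℕ) : ℤ)) +
        (-((50000 * s : ℕ) : ℤ)) = ((1065 * s : ℕ) : ℤ) := by
      unfold Gc
      push_cast
      ring
    rw [e, zpow_natCast] at h
    exact h
  -- the rows
  have hrow : ∀ F' : Finset V3, (∀ D ∈ F', Q4 s Γ D A B) →
      (∀ D ∈ F', ∀ D' ∈ F', |D.2.2 - D'.2.2| ≤ 1 / W) →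
      (F'.card : ℝ) ≤ (2 * q2 * q + q3 * W / p + 2) * (1 + (2 : ℝ) ^ (1065 * s)) := by
    intro F' hF' hd
    refine c1_card F' (fun D : V3 => ⌊D.2.1 * W⌋) _ _ (by positivity) ?_ ?_
    · intro b _
      apply hcell
      · intro D hD
        exact hF' D (Finset.mem_filter.1 hD).1
      · intro D hD D' hD'
        rw [Finset.mem_filter] at hD hD'
        refine ⟨?_, hd D hD.1 D' hD'.1⟩
        apply c1_floor_eq _ _ W hW
        rw [hD.2, hD'.2]
    · have hL : 0 ≤ 2 * q2 * q + q3 * W / p + 1 := by positivity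
      have h := c1_int_card (F'.image (fun D : V3 => ⌊D.2.1 * W⌋)) _ hL (by
        intro n hn n' hn'
        rw [Finset.mem_image] at hn hn'
        obtain ⟨D, hD, rfl⟩ := hn
        obtain ⟨D', hD', rfl⟩ := hn'
        apply c1_floor_le
        have Q := hF' D hD
        have Q' := hF' D' hD'
        have hf1 := Q.F
        have hf2 := Q'.F
        rw [F_identity, ec] at hf1 hf2
        obtain ⟨c1, c2, c3, c4⟩ := Q.cD
        obtain ⟨c1', c2', c3', c4'⟩ := Q'.cD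
        obtain ⟨d1, d2, d3, d4⟩ := Q'.cAB
        rw [eb] at c2 c4 c2' c4' d2 d4
        rw [← hadef] at c1 c3 c1' c3' d1 d3
        simp only [Prod.fst_add, Prod.snd_add] at hf1 hf2 d1 d2 d3 d4
        rw [hpdef]
        refine c1_xdiff (x := D.2.1) (x' := D'.2.1) (y := D.2.2) (y' := D'.2.2)
          (α := A.2.1 + B.2.1) (β := A.2.2 + B.2.2) (P := PP A B) (R := RR A B) ha hW hq hP
          (by rw [hq2def]; exact hR) c1 (by linarith) (by linarith) (by linarith) c4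
          (by linarith) (hd D hD D' hD') ?_ ?_
        · rw [← add_assoc, ← add_assoc]
          exact hf1
        · rw [← add_assoc, ← add_assoc]
          exact hf2)
      linarith
  -- the sum over the rows
  have hall : (F.card : ℝ) ≤ (a * q * W + 1) *
      ((2 * q2 * q + q3 * W / p + 2) * (1 + (2 : ℝ) ^ (1065 * s))) := by
    refine c1_card F (fun D : V3 => ⌊D.2.2 * W⌋) _ _ (by positivity) ?_ ?_
    · intro b _
      apply hrow
      · intro D hD
        exact hF D (Finset.mem_filter.1 hD).1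
      · intro D hD D' hD'
        rw [Finset.mem_filter] at hD hD'
        apply c1_floor_eq _ _ W hW
        rw [hD.2, hD'.2]
    · apply c1_int_card _ _ (by positivity)
      intro n hn n' hn'
      rw [Finset.mem_image] at hn hn'
      obtain ⟨D, hD, rfl⟩ := hn
      obtain ⟨D', hD', rfl⟩ := hn'
      obtain ⟨c1, c2, c3, c4⟩ := (hF D hD).cD
      obtain ⟨c1', c2', c3', c4'⟩ := (hF D' hD').cD
      rw [eb] at c4
      rw [← hadef] at c3'
      have k1 := Int.floor_le (D.2.2 * W)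
      have k2 : (0 : ℤ) ≤ ⌊D'.2.2 * W⌋ := by
        apply Int.floor_nonneg.2
        apply mul_nonneg _ hW.le
        linarith
      have k3 : (0 : ℝ) ≤ (⌊D'.2.2 * W⌋ : ℝ) := by exact_mod_cast k2
      have k4 : D.2.2 * W ≤ a * q * W := mul_le_mul_of_nonneg_right c4 hW.le
      linarith
  refine hall.trans ?_
  -- arithmetic
  obtain ⟨t, htdef⟩ : ∃ t : ℝ, t = (2 : ℝ) ^ s := ⟨_, rfl⟩
  have ht : 8 ≤ t := by
    rw [htdef]
    calc (8 : ℝ) = 2 ^ 3 := by norm_num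
      _ ≤ 2 ^ s := pow_le_pow_right₀ (by norm_num) (by omega)
  have hpow : ∀ n : ℕ, (2 : ℝ) ^ (n * s) = t ^ n := by
    intro n
    rw [htdef, ← pow_mul, mul_comm]
  have e1 : a * q * W = t ^ 150060 := by
    rw [← eb, hWdef, hpow, hpow, ← pow_add]
    rfl
  have e2 : 2 * q2 * q = 2 * t ^ 360 := by
    rw [hq2def, hqdef, hpow, hpow, mul_assoc, ← pow_add]
  have e3 : q3 = t ^ 263 := by rw [hq3def, hpow]
  rw [e1, e2, e3, hpow, hpow]
  have h1t : (1 : ℝ) ≤ t := by linarith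
  have i1 : t ^ 150060 + 1 ≤ 2 * t ^ 150060 := by
    have : (1 : ℝ) ≤ t ^ 150060 := one_le_pow₀ h1t
    linarith
  have i2 : 1 + t ^ 1065 ≤ 2 * t ^ 1065 := by
    have : (1 : ℝ) ≤ t ^ 1065 := one_le_pow₀ h1t
    linarith
  have i3 : 2 * t ^ 360 + t ^ 263 * W / p + 2 ≤ 4 * t ^ 360 * (1 + W / p) := by
    have j1 : (1 : ℝ) ≤ t ^ 360 := one_le_pow₀ h1t
    have j2 : t ^ 263 ≤ t ^ 360 := pow_le_pow_right₀ h1t (by norm_num)
    have j3 : 0 ≤ W / p := by positivity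
    have j4 : t ^ 263 * W / p = t ^ 263 * (W / p) := by ring
    rw [j4]
    have j5 : t ^ 263 * (W / p) ≤ t ^ 360 * (W / p) := mul_le_mul_of_nonneg_right j2 j3
    have j6 : 0 ≤ t ^ 360 * (W / p) := by positivity
    nlinarith
  have j3 : 0 ≤ W / p := by positivity
  calc (t ^ 150060 + 1) * ((2 * t ^ 360 + t ^ 263 * W / p + 2) * (1 + t ^ 1065)) ≤
      (2 * t ^ 150060) * ((4 * t ^ 360 * (1 + W / p)) * (2 * t ^ 1065)) := by
        apply mul_le_mul i1 _ (by positivity) (by positivity)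
        exact mul_le_mul i3 i2 (by positivity) (by positivity)
    _ = (16 * (t ^ 150060 * t ^ 360 * t ^ 1065)) * (1 + W / p) := by ring
    _ ≤ t ^ 151500 * (1 + W / p) := by
        apply mul_le_mul_of_nonneg_right _ (by positivity)
        rw [← pow_add, ← pow_add]
        have k1 : (16 : ℝ) ≤ t ^ 2 := by nlinarith
        have k2 : (t : ℝ) ^ 151500 = t ^ 2 * t ^ 151498 := by rw [← pow_add]
        rw [k2]
        apply mul_le_mul k1 _ (by positivity) (by positivity)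
        exact pow_le_pow_right₀ h1t (by norm_num)

end MP_5e4520_nt.Ex
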