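import Pool.Agent.Lib.MP_5e4520_ntE.C1
set_option autoImplicit false

namespace MP_5e4520_nt.Ex

open Finset

private theorem c2_fib {α β : Type} [DecidableEq β] (F : Finset α) (f : α → β) (M N : ℝ)
    (hM0 : 0 ≤ M) (hM : ∀ b ∈ F.image f, ((F.filter (fun x => f x = b)).card : ℝ) ≤ M)
    (hN : ((F.image f).card : ℝ) ≤ N) : (F.card : ℝ) ≤ N * M := by
  rw [Finset.card_eq_sum_card_image f F]
  push_cast
  calc ∑ b ∈ F.image f, ((F.filter (fun x => f x = b)).card : ℝ)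
      ≤ ∑ b ∈ F.image f, M := Finset.sum_le_sum hM
    _ = (F.image f).card * M := by rw [Finset.sum_const, nsmul_eq_mul]
    _ ≤ N * M := mul_le_mul_of_nonneg_right hN hM0

open Classical in
private theorem c2_Dfib (F : Finset (V3 × V3 × V3)) (q : V3 × V3) (M : ℝ)
    (h : ∀ G : Finset V3, (∀ D ∈ G, (D, q) ∈ F) → (G.card : ℝ) ≤ M) :
    ((F.filter (fun p => p.2 = q)).card : ℝ) ≤ M := by
  have h1 : ((F.filter (fun p => p.2 = q)).image Prod.fst).card =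
      (F.filter (fun p => p.2 = q)).card := by
    apply Finset.card_image_of_injOn
    intro p hp p' hp' hpp
    rw [Finset.mem_coe, Finset.mem_filter] at hp hp'
    exact Prod.ext hpp (hp.2.trans hp'.2.symm)
  rw [← h1]
  apply h
  intro D hD
  rw [Finset.mem_image] at hD
  obtain ⟨p, hp, rfl⟩ := hD
  rw [Finset.mem_filter] at hp
  have : (p.1, q) = p := by
    rw [← hp.2]
  rw [this]
  exact hp.1

private theorem c2_core_pos {s : ℕ} {z : V3} (h : Core s z) : 0 < z.2.1 ∧ 0 < z.2.2 := by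
  obtain ⟨h1, -, h3, -⟩ := h
  exact ⟨lt_of_lt_of_le (by positivity) h1, lt_of_lt_of_le (by positivity) h3⟩

private theorem c2_core_ne {s : ℕ} {z : V3} (h : Core s z) : z ≠ 0 := by
  rintro rfl
  exact lt_irrefl _ (c2_core_pos h).1

/-- JOB C2.  Trivial bound for `D`: box `((G+1063)s, (G+60)s, (G+60)s)`, `D ≠ 0`. -/
theorem D_triv (s : ℕ) (hs : 20 ≤ s) (Γ : AddSubgroup V3) (hG : GDG s Γ) (A B : V3)
    (F : Finset V3) (hF : ∀ D ∈ F, Q4 s Γ D A B) : (F.card : ℝ) ≤ (2 : ℝ) ^ (301184 * s) := by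
  have h := hG (((Gc + 1063) * s : ℕ) : ℤ) (((Gc + 60) * s : ℕ) : ℤ) (((Gc + 60) * s : ℕ) : ℤ)
    (by simp only [Gc]; push_cast; omega) (by simp only [Gc]; push_cast; omega)
    (by simp only [Gc]; push_cast; omega) (by simp only [Gc]; push_cast; omega)
    (by simp only [Gc]; push_cast; omega) F (by
      intro D hD
      have hq := hF D hD
      have hpos := c2_core_pos hq.cD
      refine ⟨hq.mD, c2_core_ne hq.cD, ?_, ?_, ?_⟩
      · rw [zpow_natCast]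
        exact hq.zD
      · rw [zpow_natCast, abs_of_pos hpos.1]
        exact hq.cD.2.1
      · rw [zpow_natCast, abs_of_pos hpos.2]
        exact hq.cD.2.2.2)
  refine h.trans (le_of_eq ?_)
  rw [← zpow_natCast]
  congr 1
  simp only [Gc]
  push_cast
  ring

private theorem c2_coord {s : ℕ} {D A : V3} (h1 : Core s D) (h2 : Core s (D + A)) :
    |A.2.1| ≤ (2 : ℝ) ^ ((Gc + 60) * s) ∧ |A.2.2| ≤ (2 : ℝ) ^ ((Gc + 60) * s) := by
  have p1 := c2_core_pos h1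
  have p2 := c2_core_pos h2
  obtain ⟨-, a1, -, a2⟩ := h1
  obtain ⟨-, b1, -, b2⟩ := h2
  have e1 : (D + A).2.1 = D.2.1 + A.2.1 := rfl
  have e2 : (D + A).2.2 = D.2.2 + A.2.2 := rfl
  rw [e1] at p2 b1
  rw [e2] at p2 b2
  constructor
  · rw [abs_le]
    constructor <;> linarith [p1.1, p2.1]
  · rw [abs_le]
    constructor <;> linarith [p1.2, p2.2]

private theorem c2_num (s : ℕ) (hs : 20 ≤ s) :
    (1 + (2 : ℝ) ^ (200124 * s)) * (2 : ℝ) ^ (301184 * s) ≤ (2 : ℝ) ^ (501320 * s) := by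
  have h1 : (1 : ℝ) ≤ 2 ^ (200124 * s) := one_le_pow₀ (by norm_num)
  calc (1 + (2 : ℝ) ^ (200124 * s)) * (2 : ℝ) ^ (301184 * s)
      ≤ (2 * (2 : ℝ) ^ (200124 * s)) * (2 : ℝ) ^ (301184 * s) := by
        apply mul_le_mul_of_nonneg_right _ (by positivity)
        linarith
    _ = (2 : ℝ) ^ (1 + 200124 * s + 301184 * s) := by rw [pow_add, pow_add, pow_one]
    _ ≤ (2 : ℝ) ^ (501320 * s) := pow_le_pow_right₀ (by norm_num) (by omega)

open Classical in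
private theorem c2_box (s : ℕ) (Γ : AddSubgroup V3) (hG : GDG s Γ) (j1 j2 : ℤ)
    (hj : j1 = (((Gc + 60) * s : ℕ) : ℤ) ∧ j2 = -((1000 * s : ℕ) : ℤ) ∨
      j1 = -((1000 * s : ℕ) : ℤ) ∧ j2 = (((Gc + 60) * s : ℕ) : ℤ))
    (F : Finset V3) (hF : ∀ z ∈ F, z ∈ Γ ∧ InBox (((Gc + 1063) * s : ℕ) : ℤ) j1 j2 z) :
    (F.card : ℝ) ≤ 1 + (2 : ℝ) ^ (200124 * s) := by
  have h := hG (((Gc + 1063) * s : ℕ) : ℤ) j1 j2
    (by rcases hj with ⟨h1, h2⟩ | ⟨h1, h2⟩ <;> (rw [h1]; simp only [Gc]; push_cast; omega))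
    (by rcases hj with ⟨h1, h2⟩ | ⟨h1, h2⟩ <;> (rw [h1]; simp only [Gc]; push_cast; omega))
    (by rcases hj with ⟨h1, h2⟩ | ⟨h1, h2⟩ <;> (rw [h2]; simp only [Gc]; push_cast; omega))
    (by rcases hj with ⟨h1, h2⟩ | ⟨h1, h2⟩ <;> (rw [h2]; simp only [Gc]; push_cast; omega))
    (by simp only [Gc]; push_cast; omega) (F.erase 0) (by
      intro z hz
      rw [Finset.mem_erase] at hz
      obtain ⟨h1, h2⟩ := hF z hz.2
      exact ⟨h1, hz.1, h2⟩)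
  have h1 : (2 : ℝ) ^ ((s : ℤ) + (((Gc + 1063) * s : ℕ) : ℤ) + j1 + j2) =
      (2 : ℝ) ^ (200124 * s) := by
    rw [← zpow_natCast (2 : ℝ) (200124 * s)]
    congr 1
    rcases hj with ⟨h1, h2⟩ | ⟨h1, h2⟩ <;>
    · rw [h1, h2]
      simp only [Gc]
      push_cast
      ring
  rw [h1] at h
  have h2 : (F.card : ℝ) ≤ 1 + ((F.erase 0).card : ℝ) := by
    have h3 : F.card ≤ (F.erase 0).card + 1 := by
      have := Finset.pred_card_le_card_erase (s := F) (a := (0 : V3))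
      omega
    have h4 : (F.card : ℝ) ≤ (((F.erase 0).card + 1 : ℕ) : ℝ) := by exact_mod_cast h3
    push_cast at h4
    linarith
  linarith

/-- `A = 0`: `B` is in the box `((G+1063)s, -1000s, (G+60)s)` (`|B2| = |(D+B)2 - D2| ≤ 2^((G+60)s)`): at most `1 + 2^((2G+124)s)`;
times `D_triv`. -/
theorem caseA0 (s : ℕ) (hs : 20 ≤ s) (Γ : AddSubgroup V3) (hG : GDG s Γ)
    (F : Finset (V3 × V3 × V3)) (hF : ∀ p ∈ F, Q4 s Γ p.1 p.2.1 p.2.2 ∧ p.2.1 = 0) :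
    (F.card : ℝ) ≤ (2 : ℝ) ^ (501320 * s) := by
  classical
  refine (c2_fib F (fun p => p.2) ((2 : ℝ) ^ (301184 * s)) (1 + (2 : ℝ) ^ (200124 * s))
    (by positivity) ?_ ?_).trans (c2_num s hs)
  · intro q hq
    apply c2_Dfib
    intro G hGF
    exact D_triv s hs Γ hG q.1 q.2 G (fun D hD => (hF _ (hGF D hD)).1)
  · have h1 : ((F.image (fun p => p.2)).image Prod.snd).card = (F.image (fun p => p.2)).card := by
      apply Finset.card_image_of_injOn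
      intro q hq q' hq' hqq
      rw [Finset.mem_coe, Finset.mem_image] at hq hq'
      obtain ⟨p, hp, rfl⟩ := hq
      obtain ⟨p', hp', rfl⟩ := hq'
      exact Prod.ext ((hF p hp).2.trans (hF p' hp').2.symm) hqq
    rw [← h1]
    apply c2_box s Γ hG _ _ (Or.inr ⟨rfl, rfl⟩)
    intro z hz
    rw [Finset.mem_image] at hz
    obtain ⟨q, hq, rfl⟩ := hz
    rw [Finset.mem_image] at hq
    obtain ⟨p, hp, rfl⟩ := hq
    obtain ⟨h2, -⟩ := hF p hp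
    refine ⟨h2.mB, ?_, ?_, ?_⟩
    · rw [zpow_natCast]
      exact h2.zB
    · rw [zpow_neg, zpow_natCast, ← one_div]
      exact h2.sB
    · rw [zpow_natCast]
      exact (c2_coord h2.cD h2.cB).2

/-- `B = 0`, symmetric -/
theorem caseB0 (s : ℕ) (hs : 20 ≤ s) (Γ : AddSubgroup V3) (hG : GDG s Γ)
    (F : Finset (V3 × V3 × V3)) (hF : ∀ p ∈ F, Q4 s Γ p.1 p.2.1 p.2.2 ∧ p.2.2 = 0) :
    (F.card : ℝ) ≤ (2 : ℝ) ^ (501320 * s) := by
  classical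
  refine (c2_fib F (fun p => p.2) ((2 : ℝ) ^ (301184 * s)) (1 + (2 : ℝ) ^ (200124 * s))
    (by positivity) ?_ ?_).trans (c2_num s hs)
  · intro q hq
    apply c2_Dfib
    intro G hGF
    exact D_triv s hs Γ hG q.1 q.2 G (fun D hD => (hF _ (hGF D hD)).1)
  · have h1 : ((F.image (fun p => p.2)).image Prod.fst).card = (F.image (fun p => p.2)).card := by
      apply Finset.card_image_of_injOn
      intro q hq q' hq' hqq
      rw [Finset.mem_coe, Finset.mem_image] at hq hq'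
      obtain ⟨p, hp, rfl⟩ := hq
      obtain ⟨p', hp', rfl⟩ := hq'
      exact Prod.ext hqq ((hF p hp).2.trans (hF p' hp').2.symm)
    rw [← h1]
    apply c2_box s Γ hG _ _ (Or.inl ⟨rfl, rfl⟩)
    intro z hz
    rw [Finset.mem_image] at hz
    obtain ⟨q, hq, rfl⟩ := hz
    rw [Finset.mem_image] at hq
    obtain ⟨p, hp, rfl⟩ := hq
    obtain ⟨h2, -⟩ := hF p hp
    refine ⟨h2.mA, ?_, ?_, ?_⟩
    · rw [zpow_natCast]
      exact h2.zA
    · rw [zpow_natCast]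
      exact (c2_coord h2.cD h2.cA).1
    · rw [zpow_neg, zpow_natCast, ← one_div]
      exact h2.sA

open Classical in
/-- Dyadic classes of pairs `(A,B)`.  Let `a1, a2, b1, b2` be integers in `[-4Gs, (G+61)s]`; the number of pairs `A, B ∈ Γ \ 0` with
`|A0|, |B0| ≤ 2^((G+1063)s)`, `|A1| ≤ 2^a1`, `|A2| ≤ 2^a2`, `|B1| ≤ 2^b1`, `|B2| ≤ 2^b2` is at most `2^((2G+2128)s + a1+a2+b1+b2)`. -/
theorem AB_class (s : ℕ) (hs : 20 ≤ s) (Γ : AddSubgroup V3) (hG : GDG s Γ) (a1 a2 b1 b2 : ℤ)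
    (ha1 : -(4 * Gc * s : ℤ) ≤ a1) (ha1' : a1 ≤ (Gc + 61) * s) (ha2 : -(4 * Gc * s : ℤ) ≤ a2)
    (ha2' : a2 ≤ (Gc + 61) * s) (hb1 : -(4 * Gc * s : ℤ) ≤ b1) (hb1' : b1 ≤ (Gc + 61) * s)
    (hb2 : -(4 * Gc * s : ℤ) ≤ b2) (hb2' : b2 ≤ (Gc + 61) * s)
    (F : Finset (V3 × V3)) (hF : ∀ p ∈ F, (p.1 ∈ Γ ∧ p.1 ≠ 0 ∧ InBox ((Gc + 1063) * s) a1 a2 p.1) ∧
      (p.2 ∈ Γ ∧ p.2 ≠ 0 ∧ InBox ((Gc + 1063) * s) b1 b2 p.2)) :
    (F.card : ℝ) ≤ (2 : ℝ) ^ ((2 * Gc + 2128) * s + a1 + a2 + b1 + b2) := by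
  have hA := hG ((Gc + 1063) * s) a1 a2 ha1
    (ha1'.trans (by simp only [Gc]; push_cast; omega)) ha2
    (ha2'.trans (by simp only [Gc]; push_cast; omega))
    (by simp only [Gc]; push_cast; omega) (F.image Prod.fst) (by
      intro z hz
      rw [Finset.mem_image] at hz
      obtain ⟨p, hp, rfl⟩ := hz
      exact (hF p hp).1)
  have hB := hG ((Gc + 1063) * s) b1 b2 hb1
    (hb1'.trans (by simp only [Gc]; push_cast; omega)) hb2
    (hb2'.trans (by simp only [Gc]; push_cast; omega))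
    (by simp only [Gc]; push_cast; omega) (F.image Prod.snd) (by
      intro z hz
      rw [Finset.mem_image] at hz
      obtain ⟨p, hp, rfl⟩ := hz
      exact (hF p hp).2)
  have hsub : F ⊆ (F.image Prod.fst) ×ˢ (F.image Prod.snd) := by
    intro p hp
    rw [Finset.mem_product]
    exact ⟨Finset.mem_image_of_mem _ hp, Finset.mem_image_of_mem _ hp⟩
  have h1 := Finset.card_le_card hsub
  rw [Finset.card_product] at h1
  have h2 : (F.card : ℝ) ≤ ((F.image Prod.fst).card : ℝ) * ((F.image Prod.snd).card : ℝ) := by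
    exact_mod_cast h1
  refine h2.trans ((mul_le_mul hA hB (by positivity) (by positivity)).trans (le_of_eq ?_))
  rw [← zpow_add₀ (by norm_num)]
  congr 1
  ring

/-- dyadic level of a number -/
theorem c2_level (s : ℕ) (x : ℝ) (hx : |x| ≤ (2 : ℝ) ^ ((Gc + 60) * s)) :
    ∃ a : ℤ, -(4 * Gc * s : ℤ) ≤ a ∧ a ≤ (Gc + 61) * s ∧ |x| ≤ (2 : ℝ) ^ a ∧
      (a = -(4 * Gc * s : ℤ) ∨ (2 : ℝ) ^ (a - 1) < |x|) := by
  by_cases h0 : x = 0
  · refine ⟨-(4 * Gc * s : ℤ), le_rfl, by simp only [Gc]; push_cast; omega, ?_, Or.inl rfl⟩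
    rw [h0, abs_zero]
    positivity
  · have hpos : 0 < |x| := abs_pos.2 h0
    by_cases hc : Int.clog 2 |x| ≤ -(4 * Gc * s : ℤ)
    · refine ⟨-(4 * Gc * s : ℤ), le_rfl, by simp only [Gc]; push_cast; omega, ?_, Or.inl rfl⟩
      have h1 : |x| ≤ ((2 : ℕ) : ℝ) ^ Int.clog 2 |x| := Int.self_le_zpow_clog (by norm_num) |x|
      refine h1.trans ?_
      push_cast
      exact zpow_le_zpow_right₀ (by norm_num) hc
    · push Not at hc
      have h1 : |x| ≤ ((2 : ℕ) : ℝ) ^ Int.clog 2 |x| := Int.self_le_zpow_clog (by norm_num) |x|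
      have h2 : ((2 : ℕ) : ℝ) ^ (Int.clog 2 |x| - 1) < |x| :=
        Int.zpow_pred_clog_lt_self (by norm_num) hpos
      push_cast at h1 h2
      refine ⟨Int.clog 2 |x|, hc.le, ?_, h1, Or.inr h2⟩
      have h3 : (2 : ℝ) ^ (Int.clog 2 |x| - 1) < (2 : ℝ) ^ (((Gc + 60) * s : ℕ) : ℤ) := by
        rw [zpow_natCast]
        exact h2.trans_le hx
      rw [zpow_lt_zpow_iff_right₀ (by norm_num)] at h3
      simp only [Gc] at h3 ⊢
      push_cast at h3 ⊢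
      omega

/-- product of two levels -/
theorem c2_prod (s : ℕ) (x y θ : ℝ) (a b : ℤ) (ha : a ≤ (Gc + 61) * s)
    (hb : b ≤ (Gc + 61) * s) (hxa : a = -(4 * Gc * s : ℤ) ∨ (2 : ℝ) ^ (a - 1) < |x|)
    (hyb : b = -(4 * Gc * s : ℤ) ∨ (2 : ℝ) ^ (b - 1) < |y|) (hθ : |x * y| ≤ θ)
    (hθ1 : (2 : ℝ) ^ ((-3 * Gc + 61) * s : ℤ) ≤ θ) :
    (2 : ℝ) ^ (a + b) ≤ 4 * θ := by
  have hθ0 : 0 ≤ θ := le_trans (by positivity) hθ1
  have key : ∀ c d : ℤ, c = -(4 * Gc * s : ℤ) → d ≤ (Gc + 61) * s →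
      (2 : ℝ) ^ (c + d) ≤ 4 * θ := by
    intro c d hc hd
    have h1 : (2 : ℝ) ^ (c + d) ≤ (2 : ℝ) ^ ((-3 * Gc + 61) * s : ℤ) := by
      apply zpow_le_zpow_right₀ (by norm_num)
      rw [hc]
      simp only [Gc] at hd ⊢
      push_cast at hd ⊢
      omega
    linarith
  rcases hxa with hxa | hxa
  · exact key a b hxa hb
  · rcases hyb with hyb | hyb
    · rw [add_comm]
      exact key b a hyb ha
    · have h1 : (2 : ℝ) ^ (a - 1) * (2 : ℝ) ^ (b - 1) ≤ |x| * |y| :=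
        mul_le_mul hxa.le hyb.le (by positivity) (abs_nonneg _)
      rw [← abs_mul, ← zpow_add₀ (by norm_num)] at h1
      have h2 : (2 : ℝ) ^ (a + b) = 4 * (2 : ℝ) ^ (a - 1 + (b - 1)) := by
        rw [show a + b = (a - 1 + (b - 1)) + 2 by ring, zpow_add₀ (by norm_num)]
        norm_num
        ring
      rw [h2]
      linarith

/-- polynomial factor -/
theorem c2_poly (s : ℕ) (hs : 200 ≤ s) : ((6 * Gc * s : ℕ) : ℝ) ^ 4 * 16 ≤ (2 : ℝ) ^ (188 * s) := by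
  have h1 : (6 * Gc * s : ℕ) ≤ 2 ^ (20 + s) := by
    rw [pow_add]
    have h2 : s ≤ 2 ^ s := Nat.lt_two_pow_self.le
    have h3 : 6 * Gc ≤ 2 ^ 20 := by simp only [Gc]; norm_num
    exact Nat.mul_le_mul h3 h2
  have h2 : ((6 * Gc * s : ℕ) : ℝ) ≤ 2 ^ (20 + s) := by exact_mod_cast h1
  calc ((6 * Gc * s : ℕ) : ℝ) ^ 4 * 16 ≤ ((2 : ℝ) ^ (20 + s)) ^ 4 * 16 :=
        mul_le_mul_of_nonneg_right (pow_le_pow_left₀ (by positivity) h2 4) (by norm_num)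
    _ = (2 : ℝ) ^ ((20 + s) * 4 + 4) := by
        rw [← pow_mul, pow_add (2 : ℝ) ((20 + s) * 4) 4]
        norm_num
    _ ≤ (2 : ℝ) ^ (188 * s) := pow_le_pow_right₀ (by norm_num) (by omega)

/-- number of classes -/
theorem c2_classes (s : ℕ) (hs : 200 ≤ s) :
    (((Icc (-(4 * Gc * s : ℤ)) ((Gc + 61) * s)).card : ℕ) : ℝ) ≤ ((6 * Gc * s : ℕ) : ℝ) := by
  rw [Int.card_Icc]
  apply Nat.cast_le.2
  simp only [Gc]
  push_cast
  omega

open Classical in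
/-- summation over the dyadic classes of the pairs `(A, B)` -/
theorem c2_group (s : ℕ) (hs : 200 ≤ s) (Γ : AddSubgroup V3)
    (F : Finset (V3 × V3 × V3)) (hF : ∀ p ∈ F, Q4 s Γ p.1 p.2.1 p.2.2) (M : ℝ) (hM0 : 0 ≤ M)
    (hM : ∀ a1 a2 b1 b2 : ℤ, -(4 * Gc * s : ℤ) ≤ a1 → a1 ≤ (Gc + 61) * s →
      -(4 * Gc * s : ℤ) ≤ a2 → a2 ≤ (Gc + 61) * s → -(4 * Gc * s : ℤ) ≤ b1 → b1 ≤ (Gc + 61) * s →
      -(4 * Gc * s : ℤ) ≤ b2 → b2 ≤ (Gc + 61) * s → ∀ F' ⊆ F,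
      (∀ p ∈ F', |p.2.1.2.1| ≤ (2 : ℝ) ^ a1 ∧ |p.2.1.2.2| ≤ (2 : ℝ) ^ a2 ∧
        |p.2.2.2.1| ≤ (2 : ℝ) ^ b1 ∧ |p.2.2.2.2| ≤ (2 : ℝ) ^ b2 ∧
        (a1 = -(4 * Gc * s : ℤ) ∨ (2 : ℝ) ^ (a1 - 1) < |p.2.1.2.1|) ∧
        (a2 = -(4 * Gc * s : ℤ) ∨ (2 : ℝ) ^ (a2 - 1) < |p.2.1.2.2|) ∧
        (b1 = -(4 * Gc * s : ℤ) ∨ (2 : ℝ) ^ (b1 - 1) < |p.2.2.2.1|) ∧
        (b2 = -(4 * Gc * s : ℤ) ∨ (2 : ℝ) ^ (b2 - 1) < |p.2.2.2.2|)) →
      (F'.card : ℝ) ≤ M) :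
    (F.card : ℝ) ≤ ((6 * Gc * s : ℕ) : ℝ) ^ 4 * M := by
  have hlev : ∀ x : ℝ, ∃ a : ℤ, |x| ≤ (2 : ℝ) ^ ((Gc + 60) * s) →
      (-(4 * Gc * s : ℤ) ≤ a ∧ a ≤ (Gc + 61) * s ∧ |x| ≤ (2 : ℝ) ^ a ∧
      (a = -(4 * Gc * s : ℤ) ∨ (2 : ℝ) ^ (a - 1) < |x|)) := by
    intro x
    by_cases hx : |x| ≤ (2 : ℝ) ^ ((Gc + 60) * s)
    · obtain ⟨a, ha⟩ := c2_level s x hx
      exact ⟨a, fun _ => ha⟩
    · exact ⟨0, fun h => absurd h hx⟩
  choose lev hlev using hlev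
  set I : Finset ℤ := Icc (-(4 * Gc * s : ℤ)) ((Gc + 61) * s) with hI
  set cls : V3 × V3 × V3 → ℤ × ℤ × ℤ × ℤ := fun p =>
    (lev p.2.1.2.1, lev p.2.1.2.2, lev p.2.2.2.1, lev p.2.2.2.2) with hcls
  have hprop : ∀ p ∈ F, |p.2.1.2.1| ≤ (2 : ℝ) ^ ((Gc + 60) * s) ∧
      |p.2.1.2.2| ≤ (2 : ℝ) ^ ((Gc + 60) * s) ∧ |p.2.2.2.1| ≤ (2 : ℝ) ^ ((Gc + 60) * s) ∧
      |p.2.2.2.2| ≤ (2 : ℝ) ^ ((Gc + 60) * s) := by
    intro p hp
    have h := hF p hp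
    exact ⟨(c2_coord h.cD h.cA).1, (c2_coord h.cD h.cA).2, (c2_coord h.cD h.cB).1,
      (c2_coord h.cD h.cB).2⟩
  apply c2_fib F cls M _ hM0
  · intro c hc
    rw [Finset.mem_image] at hc
    obtain ⟨p0, hp0, rfl⟩ := hc
    obtain ⟨q1, q2, q3, q4⟩ := hprop p0 hp0
    obtain ⟨u1, u2, -, -⟩ := hlev _ q1
    obtain ⟨v1, v2, -, -⟩ := hlev _ q2
    obtain ⟨w1, w2, -, -⟩ := hlev _ q3
    obtain ⟨z1, z2, -, -⟩ := hlev _ q4
    refine hM (lev p0.2.1.2.1) (lev p0.2.1.2.2) (lev p0.2.2.2.1) (lev p0.2.2.2.2)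
      u1 u2 v1 v2 w1 w2 z1 z2 _ (Finset.filter_subset _ _) ?_
    intro p hp
    rw [Finset.mem_filter] at hp
    obtain ⟨hpF, hpc⟩ := hp
    obtain ⟨r1, r2, r3, r4⟩ := hprop p hpF
    simp only [hcls, Prod.mk.injEq] at hpc
    obtain ⟨e1, e2, e3, e4⟩ := hpc
    rw [← e1, ← e2, ← e3, ← e4]
    exact ⟨(hlev _ r1).2.2.1, (hlev _ r2).2.2.1, (hlev _ r3).2.2.1, (hlev _ r4).2.2.1,
      (hlev _ r1).2.2.2, (hlev _ r2).2.2.2, (hlev _ r3).2.2.2, (hlev _ r4).2.2.2⟩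
  · have hsub : F.image cls ⊆ I ×ˢ I ×ˢ I ×ˢ I := by
      intro c hc
      rw [Finset.mem_image] at hc
      obtain ⟨p, hp, rfl⟩ := hc
      obtain ⟨r1, r2, r3, r4⟩ := hprop p hp
      simp only [hcls, Finset.mem_product, hI, Finset.mem_Icc]
      exact ⟨⟨(hlev _ r1).1, (hlev _ r1).2.1⟩, ⟨(hlev _ r2).1, (hlev _ r2).2.1⟩,
        ⟨(hlev _ r3).1, (hlev _ r3).2.1⟩, ⟨(hlev _ r4).1, (hlev _ r4).2.1⟩⟩
    have h1 := Finset.card_le_card hsub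
    rw [Finset.card_product, Finset.card_product, Finset.card_product] at h1
    have h2 : ((F.image cls).card : ℝ) ≤ (I.card : ℝ) ^ 4 := by
      have h3 : ((F.image cls).card : ℝ) ≤ ((I.card * (I.card * (I.card * I.card)) : ℕ) : ℝ) := by
        exact_mod_cast h1
      refine h3.trans (le_of_eq ?_)
      push_cast
      ring
    exact h2.trans (pow_le_pow_left₀ (by positivity) (c2_classes s hs) 4)

/-- Small case: `|P|, |R| ≤ θ = 2^((400-G)s)`.  Let `a1 ≥ -4Gs` be the least integer with `|A1| ≤ 2^a1` etc.  Then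
`2^(a1+b1) ≤ 4θ` (if both are proper, `2^(a1+b1-2) < |R| ≤ θ`; if one is `-4Gs`, trivially since the other is `≤ (G+61)s`), same for
`a2+b2`.  At most `(6Gs)^4` classes, `AB_class` gives `≤ 16 θ² 2^((2G+2128)s)` pairs in each, and `D_triv` for `D`. -/
theorem caseSmall (s : ℕ) (hs : 200 ≤ s) (Γ : AddSubgroup V3) (hG : GDG s Γ)
    (F : Finset (V3 × V3 × V3)) (hF : ∀ p ∈ F, Q4 s Γ p.1 p.2.1 p.2.2 ∧ p.2.1 ≠ 0 ∧ p.2.2 ≠ 0 ∧
      |PP p.2.1 p.2.2| ≤ (2 : ℝ) ^ (400 * s) / 2 ^ (Gc * s) ∧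
      |RR p.2.1 p.2.2| ≤ (2 : ℝ) ^ (400 * s) / 2 ^ (Gc * s)) :
    (F.card : ℝ) ≤ (2 : ℝ) ^ (304300 * s) := by
  classical
  set θ : ℝ := (2 : ℝ) ^ (400 * s) / 2 ^ (Gc * s) with hθ
  have hθz : θ = (2 : ℝ) ^ ((400 - Gc) * s : ℤ) := by
    rw [hθ, ← zpow_natCast, ← zpow_natCast, ← zpow_sub₀ (by norm_num)]
    congr 1
    push_cast
    ring
  have hθ1 : (2 : ℝ) ^ ((-3 * Gc + 61) * s : ℤ) ≤ θ := by
    rw [hθz]
    apply zpow_le_zpow_right₀ (by norm_num)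
    simp only [Gc]
    push_cast
    omega
  have hθ0 : 0 ≤ θ := le_trans (by positivity) hθ1
  set M : ℝ := ((2 : ℝ) ^ ((2 * Gc + 2128) * s : ℤ) * (4 * θ) * (4 * θ)) * (2 : ℝ) ^ (301184 * s)
    with hMdef
  have hgroup := c2_group s hs Γ F (fun p hp => (hF p hp).1) M (by positivity) (by
    intro a1 a2 b1 b2 ha1 ha1' ha2 ha2' hb1 hb1' hb2 hb2' F' hF' hcl
    by_cases hemp : F' = ∅
    · rw [hemp]
      simp only [Finset.card_empty, Nat.cast_zero]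
      positivity
    · obtain ⟨p0, hp0⟩ := Finset.nonempty_iff_ne_empty.2 hemp
      apply c2_fib F' (fun p => p.2) _ _ (by positivity)
      · intro q hq
        apply c2_Dfib
        intro G hGF
        exact D_triv s (by omega) Γ hG q.1 q.2 G (fun D hD => (hF _ (hF' (hGF D hD))).1)
      · have h1 := AB_class s (by omega) Γ hG a1 a2 b1 b2 ha1 ha1' ha2 ha2' hb1 hb1' hb2 hb2'
          (F'.image (fun p => p.2)) (by
            intro q hq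
            rw [Finset.mem_image] at hq
            obtain ⟨p, hp, rfl⟩ := hq
            obtain ⟨hq4, hA, hB, -, -⟩ := hF p (hF' hp)
            obtain ⟨c1, c2, c3, c4, -⟩ := hcl p hp
            have e : (2 : ℝ) ^ (((Gc : ℤ) + 1063) * (s : ℤ)) = (2 : ℝ) ^ ((Gc + 1063) * s) := by
              rw [← zpow_natCast]
              congr 1
            refine ⟨⟨hq4.mA, hA, ?_, c1, c2⟩, ⟨hq4.mB, hB, ?_, c3, c4⟩⟩
            · rw [e]
              exact hq4.zA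
            · rw [e]
              exact hq4.zB)
        refine h1.trans ?_
        obtain ⟨hq4, hA, hB, hP, hR⟩ := hF p0 (hF' hp0)
        obtain ⟨-, -, -, -, d1, d2, d3, d4⟩ := hcl p0 hp0
        have g1 : (2 : ℝ) ^ (a1 + b1) ≤ 4 * θ :=
          c2_prod s _ _ θ a1 b1 ha1' hb1' d1 d3 hR hθ1
        have g2 : (2 : ℝ) ^ (a2 + b2) ≤ 4 * θ :=
          c2_prod s _ _ θ a2 b2 ha2' hb2' d2 d4 hP hθ1
        have e : (2 : ℝ) ^ ((2 * (Gc : ℤ) + 2128) * s + a1 + a2 + b1 + b2) =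
            (2 : ℝ) ^ ((2 * Gc + 2128) * s : ℤ) * (2 : ℝ) ^ (a1 + b1) * (2 : ℝ) ^ (a2 + b2) := by
          rw [← zpow_add₀ (by norm_num), ← zpow_add₀ (by norm_num)]
          congr 1
          ring
        rw [e]
        exact mul_le_mul (mul_le_mul_of_nonneg_left g1 (by positivity)) g2 (by positivity)
          (by positivity))
  refine hgroup.trans ?_
  have h2 : M = 16 * (2 : ℝ) ^ (304112 * s) := by
    rw [hMdef, hθz]
    have e : (2 : ℝ) ^ (304112 * s) = (2 : ℝ) ^ ((2 * Gc + 2128) * s : ℤ) *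
        (2 : ℝ) ^ ((400 - Gc) * s : ℤ) * (2 : ℝ) ^ ((400 - Gc) * s : ℤ) *
        (2 : ℝ) ^ (301184 * s) := by
      rw [← zpow_natCast, ← zpow_natCast, ← zpow_add₀ (by norm_num), ← zpow_add₀ (by norm_num),
        ← zpow_add₀ (by norm_num)]
      congr 1
      simp only [Gc]
      push_cast
      ring
    rw [e]
    ring
  rw [h2]
  have h3 := c2_poly s hs
  calc ((6 * Gc * s : ℕ) : ℝ) ^ 4 * (16 * (2 : ℝ) ^ (304112 * s))
      = (((6 * Gc * s : ℕ) : ℝ) ^ 4 * 16) * (2 : ℝ) ^ (304112 * s) := by ring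
    _ ≤ (2 : ℝ) ^ (188 * s) * (2 : ℝ) ^ (304112 * s) :=
        mul_le_mul_of_nonneg_right h3 (by positivity)
    _ = (2 : ℝ) ^ (304300 * s) := by
        rw [← pow_add]
        congr 1
        ring

end MP_5e4520_nt.Ex
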