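import Pool.Agent.Lib.MP_5e4520_ntE.C2
set_option autoImplicit false

namespace MP_5e4520_nt.Ex

open Finset

/-- comparison of two products -/
private theorem c3_comp (s : ℕ) (hs : 20 ≤ s) (P R X Y : ℝ)
    (hX : (2 : ℝ) ^ (199880 * s) ≤ X) (hX' : X ≤ (2 : ℝ) ^ (200120 * s))
    (hY : (2 : ℝ) ^ (199880 * s) ≤ Y) (hY' : Y ≤ (2 : ℝ) ^ (200120 * s))
    (hE : |P * X - R * Y| ≤ (2 : ℝ) ^ (100203 * s))
    (hl : (2 : ℝ) ^ (400 * s) / 2 ^ (100000 * s) < |P|) :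
    |R| ≤ 2 * 2 ^ (240 * s) * |P| ∧ |P| ≤ 2 * 2 ^ (240 * s) * |R| ∧
      (2 : ℝ) ^ (150 * s) / 2 ^ (100000 * s) ≤ |P| ∧
      (2 : ℝ) ^ (150 * s) / 2 ^ (100000 * s) ≤ |R| := by
  have hX0 : 0 < X := lt_of_lt_of_le (by positivity) hX
  have hY0 : 0 < Y := lt_of_lt_of_le (by positivity) hY
  have hXY : X ≤ 2 ^ (240 * s) * Y := by
    calc X ≤ (2 : ℝ) ^ (200120 * s) := hX'
      _ = 2 ^ (240 * s) * (2 : ℝ) ^ (199880 * s) := by
          rw [← pow_add]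
          congr 1
          ring
      _ ≤ 2 ^ (240 * s) * Y := mul_le_mul_of_nonneg_left hY (by positivity)
  have hYX : Y ≤ 2 ^ (240 * s) * X := by
    calc Y ≤ (2 : ℝ) ^ (200120 * s) := hY'
      _ = 2 ^ (240 * s) * (2 : ℝ) ^ (199880 * s) := by
          rw [← pow_add]
          congr 1
          ring
      _ ≤ 2 ^ (240 * s) * X := mul_le_mul_of_nonneg_left hX (by positivity)
  have hPX : 2 * (2 : ℝ) ^ (100203 * s) ≤ |P| * X := by
    rw [div_lt_iff₀ (by positivity)] at hl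
    have h1 : (2 : ℝ) ^ (400 * s) * 2 ^ (199880 * s) ≤ |P| * 2 ^ (100000 * s) * X := by
      apply mul_le_mul hl.le hX (by positivity) (by positivity)
    have h2 : 2 * (2 : ℝ) ^ (100203 * s) * 2 ^ (100000 * s) ≤
        (2 : ℝ) ^ (400 * s) * 2 ^ (199880 * s) := by
      calc 2 * (2 : ℝ) ^ (100203 * s) * 2 ^ (100000 * s)
          = (2 : ℝ) ^ (1 + 100203 * s + 100000 * s) := by rw [pow_add, pow_add, pow_one]
        _ ≤ (2 : ℝ) ^ (400 * s + 199880 * s) := pow_le_pow_right₀ (by norm_num) (by omega)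
        _ = _ := pow_add _ _ _
    have h3 : (0 : ℝ) < 2 ^ (100000 * s) := by positivity
    nlinarith
  have hPXabs : |P * X| = |P| * X := by rw [abs_mul, abs_of_pos hX0]
  have hRYabs : |R * Y| = |R| * Y := by rw [abs_mul, abs_of_pos hY0]
  have hR1 : |R| * Y ≤ |P| * X + (2 : ℝ) ^ (100203 * s) := by
    rw [← hPXabs, ← hRYabs]
    have h1 : |R * Y| ≤ |P * X| + |P * X - R * Y| := by
      have h2 : R * Y = P * X - (P * X - R * Y) := by ring
      calc |R * Y| = |P * X - (P * X - R * Y)| := by rw [← h2]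
        _ ≤ |P * X| + |P * X - R * Y| := abs_sub _ _
    linarith
  have hR2 : |P| * X ≤ |R| * Y + (2 : ℝ) ^ (100203 * s) := by
    rw [← hPXabs, ← hRYabs]
    have h1 : |P * X| ≤ |R * Y| + |P * X - R * Y| := by
      have h2 : P * X = R * Y + (P * X - R * Y) := by ring
      calc |P * X| = |R * Y + (P * X - R * Y)| := by rw [← h2]
        _ ≤ |R * Y| + |P * X - R * Y| := abs_add_le _ _
    linarith
  have hP0 : 0 ≤ |P| := abs_nonneg _
  have hR0 : 0 ≤ |R| := abs_nonneg _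
  have c1 : |R| ≤ 2 * 2 ^ (240 * s) * |P| := by
    have h1 : |R| * Y ≤ 2 * |P| * X := by linarith
    have h2 : 2 * |P| * X ≤ 2 * |P| * (2 ^ (240 * s) * Y) :=
      mul_le_mul_of_nonneg_left hXY (by positivity)
    have h3 : |R| * Y ≤ (2 * 2 ^ (240 * s) * |P|) * Y := by
      calc |R| * Y ≤ 2 * |P| * (2 ^ (240 * s) * Y) := h1.trans h2
        _ = (2 * 2 ^ (240 * s) * |P|) * Y := by ring
    exact le_of_mul_le_mul_right h3 hY0
  have c2 : |P| ≤ 2 * 2 ^ (240 * s) * |R| := by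
    have h1 : |P| * X ≤ 2 * |R| * Y := by linarith
    have h2 : 2 * |R| * Y ≤ 2 * |R| * (2 ^ (240 * s) * X) :=
      mul_le_mul_of_nonneg_left hYX (by positivity)
    have h3 : |P| * X ≤ (2 * 2 ^ (240 * s) * |R|) * X := by
      calc |P| * X ≤ 2 * |R| * (2 ^ (240 * s) * X) := h1.trans h2
        _ = (2 * 2 ^ (240 * s) * |R|) * X := by ring
    exact le_of_mul_le_mul_right h3 hX0
  refine ⟨c1, c2, ?_, ?_⟩
  · refine le_trans ?_ hl.le
    apply div_le_div_of_nonneg_right _ (by positivity)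
    exact pow_le_pow_right₀ (by norm_num) (by omega)
  · have h1 : (2 : ℝ) ^ (400 * s) / 2 ^ (100000 * s) ≤ 2 * 2 ^ (240 * s) * |R| := hl.le.trans c2
    have h2 : (2 * 2 ^ (240 * s)) * ((2 : ℝ) ^ (150 * s) / 2 ^ (100000 * s)) ≤
        (2 : ℝ) ^ (400 * s) / 2 ^ (100000 * s) := by
      rw [mul_div_assoc']
      apply div_le_div_of_nonneg_right _ (by positivity)
      calc 2 * (2 : ℝ) ^ (240 * s) * 2 ^ (150 * s) = (2 : ℝ) ^ (1 + 240 * s + 150 * s) := by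
            rw [pow_add, pow_add, pow_one]
        _ ≤ (2 : ℝ) ^ (400 * s) := pow_le_pow_right₀ (by norm_num) (by omega)
    exact le_of_mul_le_mul_left (h2.trans h1) (by positivity)

private theorem c3_XY (s : ℕ) (x y : ℝ) (hx : (2 : ℝ) ^ ((Gc - 60) * s) ≤ x)
    (hx' : x ≤ (2 : ℝ) ^ ((Gc + 60) * s)) (hy : (2 : ℝ) ^ ((Gc - 60) * s) ≤ y)
    (hy' : y ≤ (2 : ℝ) ^ ((Gc + 60) * s)) :
    (2 : ℝ) ^ (199880 * s) ≤ x * y ∧ x * y ≤ (2 : ℝ) ^ (200120 * s) := by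
  have hx0 : 0 ≤ x := le_trans (by positivity) hx
  constructor
  · calc (2 : ℝ) ^ (199880 * s) = (2 : ℝ) ^ ((Gc - 60) * s) * (2 : ℝ) ^ ((Gc - 60) * s) := by
          rw [← pow_add]
          congr 1
          simp only [Gc]
          omega
      _ ≤ x * y := mul_le_mul hx hy (by positivity) hx0
  · calc x * y ≤ (2 : ℝ) ^ ((Gc + 60) * s) * (2 : ℝ) ^ ((Gc + 60) * s) :=
          mul_le_mul hx' hy' (le_trans (by positivity) hy) (by positivity)
      _ = (2 : ℝ) ^ (200120 * s) := by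
          rw [← pow_add]
          congr 1
          simp only [Gc]
          omega

/-- JOB C3.  If `|P| > θ` or `|R| > θ` (`θ = 2^((400-G)s)`) then `P` and `R` are comparable:
`|P X - R Y| ≤ 2^((G+203)s)`, `X, Y ∈ [2^(2(G-60)s), 2^(2(G+60)s)]`, e.g. `|P| X > 2^((G+280)s)`, so `|R| Y ∈ [|P|X/2, 3|P|X/2]`. -/
theorem PR_comp (s : ℕ) (hs : 20 ≤ s) (Γ : AddSubgroup V3) (D A B : V3) (h : Q4 s Γ D A B)
    (hl : (2 : ℝ) ^ (400 * s) / 2 ^ (Gc * s) < |PP A B| ∨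
      (2 : ℝ) ^ (400 * s) / 2 ^ (Gc * s) < |RR A B|) :
    |RR A B| ≤ 2 * 2 ^ (240 * s) * |PP A B| ∧ |PP A B| ≤ 2 * 2 ^ (240 * s) * |RR A B| ∧
      (2 : ℝ) ^ (150 * s) / 2 ^ (Gc * s) ≤ |PP A B| ∧
      (2 : ℝ) ^ (150 * s) / 2 ^ (Gc * s) ≤ |RR A B| := by
  have hF := h.F
  rw [F_identity] at hF
  have hFe : (2 : ℝ) ^ ((Gc + 203) * s) = (2 : ℝ) ^ (100203 * s) := by
    simp only [Gc]
  rw [hFe] at hF
  have hGe : (2 : ℝ) ^ (Gc * s) = (2 : ℝ) ^ (100000 * s) := by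
    simp only [Gc]
  rw [hGe] at hl ⊢
  obtain ⟨x1, x2, y1, y2⟩ := h.cD
  obtain ⟨x3, x4, y3, y4⟩ := h.cAB
  obtain ⟨hX, hX'⟩ := c3_XY s _ _ x1 x2 x3 x4
  obtain ⟨hY, hY'⟩ := c3_XY s _ _ y1 y2 y3 y4
  rcases hl with hl | hl
  · exact c3_comp s hs (PP A B) (RR A B) _ _ hX hX' hY hY' hF hl
  · rw [abs_sub_comm] at hF
    obtain ⟨k1, k2, k3, k4⟩ := c3_comp s hs (RR A B) (PP A B) _ _ hY hY' hX hX' hF hl
    exact ⟨k2, k1, k4, k3⟩

private theorem c3_lower (s : ℕ) (x y b : ℝ) (hxy : (2 : ℝ) ^ (150 * s) / 2 ^ (Gc * s) ≤ |x * y|)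
    (hy : |y| ≤ b) (hb : b ≤ (2 : ℝ) ^ ((Gc + 60) * s)) :
    1 / (2 : ℝ) ^ (3 * Gc * s) ≤ |x| := by
  rw [abs_mul] at hxy
  have hx0 : 0 ≤ |x| := abs_nonneg _
  have h1 : (2 : ℝ) ^ (150 * s) / 2 ^ (Gc * s) ≤ |x| * (2 : ℝ) ^ ((Gc + 60) * s) :=
    hxy.trans (mul_le_mul_of_nonneg_left (hy.trans hb) hx0)
  have h2 : 1 / (2 : ℝ) ^ (3 * Gc * s) * (2 : ℝ) ^ ((Gc + 60) * s) ≤
      (2 : ℝ) ^ (150 * s) / 2 ^ (Gc * s) := by
    rw [one_div, ← div_eq_inv_mul, div_le_div_iff₀ (by positivity) (by positivity), ← pow_add,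
      ← pow_add]
    apply pow_le_pow_right₀ (by norm_num)
    simp only [Gc]
    omega
  exact le_of_mul_le_mul_right (h2.trans h1) (by positivity)

private theorem c3_coord {s : ℕ} {D A : V3} (h1 : Core s D) (h2 : Core s (D + A)) :
    |A.2.1| ≤ (2 : ℝ) ^ ((Gc + 60) * s) ∧ |A.2.2| ≤ (2 : ℝ) ^ ((Gc + 60) * s) := by
  obtain ⟨a0, a1, a0', a2⟩ := h1
  obtain ⟨b0, b1, b0', b2⟩ := h2
  have e1 : (D + A).2.1 = D.2.1 + A.2.1 := rfl
  have e2 : (D + A).2.2 = D.2.2 + A.2.2 := rfl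
  rw [e1] at b0 b1
  rw [e2] at b0' b2
  have p : (0 : ℝ) ≤ 2 ^ ((Gc - 60) * s) := by positivity
  constructor
  · rw [abs_le]
    constructor <;> linarith
  · rw [abs_le]
    constructor <;> linarith

private theorem c3_small (s : ℕ) : 1 / (2 : ℝ) ^ (1000 * s) ≤ (2 : ℝ) ^ ((Gc + 60) * s) := by
  have h1 : 1 / (2 : ℝ) ^ (1000 * s) ≤ 1 := by
    rw [div_le_one (by positivity)]
    exact one_le_pow₀ (by norm_num)
  exact h1.trans (one_le_pow₀ (by norm_num))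

/-- The four numbers `|A1|, |A2|, |B1|, |B2|` are all `≥ 2^(-3G s)` in the main case
(`|A1| ≥ |R|/|B1|`, `|B1| ≤ 2^(-1000s)`, `|A1| ≤ 2^((G+60)s)` etc.). -/
theorem proper (s : ℕ) (hs : 20 ≤ s) (Γ : AddSubgroup V3) (D A B : V3) (h : Q4 s Γ D A B)
    (hl : (2 : ℝ) ^ (400 * s) / 2 ^ (Gc * s) < |PP A B| ∨
      (2 : ℝ) ^ (400 * s) / 2 ^ (Gc * s) < |RR A B|) :
    1 / (2 : ℝ) ^ (3 * Gc * s) ≤ |A.2.1| ∧ 1 / (2 : ℝ) ^ (3 * Gc * s) ≤ |A.2.2| ∧
      1 / (2 : ℝ) ^ (3 * Gc * s) ≤ |B.2.1| ∧ 1 / (2 : ℝ) ^ (3 * Gc * s) ≤ |B.2.2| := by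
  obtain ⟨-, -, hP, hR⟩ := PR_comp s hs Γ D A B h hl
  unfold PP at hP
  unfold RR at hR
  obtain ⟨hA1, hA2⟩ := c3_coord h.cD h.cA
  obtain ⟨hB1, hB2⟩ := c3_coord h.cD h.cB
  refine ⟨c3_lower s _ _ _ hR hB1 le_rfl, c3_lower s _ _ _ hP hB2 le_rfl, ?_, ?_⟩
  · rw [mul_comm A.2.1 B.2.1] at hR
    exact c3_lower s _ _ _ hR hA1 le_rfl
  · rw [mul_comm A.2.2 B.2.2] at hP
    exact c3_lower s _ _ _ hP hA2 le_rfl

private theorem c3_poly (s : ℕ) (hs : 200 ≤ s) :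
    ((6 * Gc * s : ℕ) : ℝ) ^ 4 * 256 ≤ (2 : ℝ) ^ (72 * s) := by
  have h1 : (6 * Gc * s : ℕ) ≤ 2 ^ (20 + s) := by
    rw [pow_add]
    have h2 : s ≤ 2 ^ s := Nat.lt_two_pow_self.le
    have h3 : 6 * Gc ≤ 2 ^ 20 := by simp only [Gc]; norm_num
    exact Nat.mul_le_mul h3 h2
  have h2 : ((6 * Gc * s : ℕ) : ℝ) ≤ 2 ^ (20 + s) := by exact_mod_cast h1
  calc ((6 * Gc * s : ℕ) : ℝ) ^ 4 * 256 ≤ ((2 : ℝ) ^ (20 + s)) ^ 4 * 256 :=
        mul_le_mul_of_nonneg_right (pow_le_pow_left₀ (by positivity) h2 4) (by norm_num)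
    _ = (2 : ℝ) ^ ((20 + s) * 4 + 8) := by
        rw [← pow_mul, pow_add (2 : ℝ) ((20 + s) * 4) 8]
        norm_num
    _ ≤ (2 : ℝ) ^ (72 * s) := pow_le_pow_right₀ (by norm_num) (by omega)

private theorem c3_notbottom (s : ℕ) (hs : 20 ≤ s) (x : ℝ) (a : ℤ)
    (h1 : 1 / (2 : ℝ) ^ (3 * Gc * s) ≤ |x|)
    (h2 : |x| ≤ (2 : ℝ) ^ a) (h3 : a = -(4 * Gc * s : ℤ) ∨ (2 : ℝ) ^ (a - 1) < |x|) :
    (2 : ℝ) ^ (a - 1) < |x| := by
  rcases h3 with h3 | h3
  · exfalso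
    rw [h3] at h2
    have h4 : 1 / (2 : ℝ) ^ (3 * Gc * s) = (2 : ℝ) ^ (-(3 * Gc * s : ℤ)) := by
      rw [zpow_neg, one_div, ← zpow_natCast]
      congr 2
    rw [h4] at h1
    have h5 := h1.trans h2
    rw [zpow_le_zpow_iff_right₀ (by norm_num)] at h5
    simp only [Gc] at h5
    push_cast at h5
    omega
  · exact h3

/-- final numerical estimate in one class -/
private theorem c3_num (s : ℕ) (p0 : ℝ) (hp0 : 0 < p0) (hp1 : p0 ≤ 4 * 2 ^ (99060 * s)) :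
    ((2 : ℝ) ^ (202128 * s) * (8 * 2 ^ (240 * s) * p0) * p0) *
      ((2 : ℝ) ^ (151500 * s) * (1 + 4 * 2 ^ (50000 * s) / p0)) ≤ 256 * 2 ^ (551988 * s) := by
  have e : ((2 : ℝ) ^ (202128 * s) * (8 * 2 ^ (240 * s) * p0) * p0) *
      ((2 : ℝ) ^ (151500 * s) * (1 + 4 * 2 ^ (50000 * s) / p0)) =
      8 * ((2 : ℝ) ^ (202128 * s) * 2 ^ (240 * s) * 2 ^ (151500 * s)) *
        (p0 ^ 2 + 4 * 2 ^ (50000 * s) * p0) := by
    field_simp
  rw [e]
  have h1 : p0 ^ 2 ≤ 16 * 2 ^ (198120 * s) := by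
    calc p0 ^ 2 ≤ (4 * 2 ^ (99060 * s)) ^ 2 := pow_le_pow_left₀ hp0.le hp1 2
      _ = 16 * 2 ^ (198120 * s) := by
          rw [mul_pow, ← pow_mul, show 99060 * s * 2 = 198120 * s by ring]
          norm_num
  have h2 : 4 * 2 ^ (50000 * s) * p0 ≤ 16 * (2 : ℝ) ^ (198120 * s) := by
    calc 4 * 2 ^ (50000 * s) * p0 ≤ 4 * 2 ^ (50000 * s) * (4 * 2 ^ (99060 * s)) :=
          mul_le_mul_of_nonneg_left hp1 (by positivity)
      _ = 16 * (2 : ℝ) ^ (50000 * s + 99060 * s) := by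
          rw [pow_add]
          ring
      _ ≤ 16 * (2 : ℝ) ^ (198120 * s) := by
          apply mul_le_mul_of_nonneg_left _ (by norm_num)
          exact pow_le_pow_right₀ (by norm_num) (by omega)
  calc 8 * ((2 : ℝ) ^ (202128 * s) * 2 ^ (240 * s) * 2 ^ (151500 * s)) *
        (p0 ^ 2 + 4 * 2 ^ (50000 * s) * p0)
      ≤ 8 * ((2 : ℝ) ^ (202128 * s) * 2 ^ (240 * s) * 2 ^ (151500 * s)) *
        (32 * 2 ^ (198120 * s)) := by
        apply mul_le_mul_of_nonneg_left _ (by positivity)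
        linarith
    _ = 256 * (2 : ℝ) ^ (202128 * s + 240 * s + 151500 * s + 198120 * s) := by
        rw [pow_add, pow_add, pow_add]
        ring
    _ = 256 * (2 : ℝ) ^ (551988 * s) := by
        rw [show 202128 * s + 240 * s + 151500 * s + 198120 * s = 551988 * s by ring]

open Classical in
private theorem c3_Dfib (F : Finset (V3 × V3 × V3)) (q : V3 × V3) (M : ℝ)
    (h : ∀ G : Finset V3, (∀ D ∈ G, (D, q) ∈ F) → (G.card : ℝ) ≤ M) :
    ((F.filter (fun p => p.2 = q)).card : ℝ) ≤ M := by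
  have h1 : ((F.filter (fun p => p.2 = q)).image Prod.fst).card =
      (F.filter (fun p => p.2 = q)).card := by
    apply Finset.card_image_of_injOn
    intro p hp p' hp' hpp
    rw [Finset.mem_coe, Finset.mem_filter] at hp hp'
    exact Prod.ext hpp (hp.2.trans hp'.2.symm)
  rw [← h1]
  apply h
  intro D hD
  rw [Finset.mem_image] at hD
  obtain ⟨p, hp, rfl⟩ := hD
  rw [Finset.mem_filter] at hp
  have : (p.1, q) = p := by
    rw [← hp.2]
  rw [this]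
  exact hp.1

private theorem c3_fib {α β : Type} [DecidableEq β] (F : Finset α) (f : α → β) (M N : ℝ)
    (hM0 : 0 ≤ M) (hM : ∀ b ∈ F.image f, ((F.filter (fun x => f x = b)).card : ℝ) ≤ M)
    (hN : ((F.image f).card : ℝ) ≤ N) : (F.card : ℝ) ≤ N * M := by
  rw [Finset.card_eq_sum_card_image f F]
  push_cast
  calc ∑ b ∈ F.image f, ((F.filter (fun x => f x = b)).card : ℝ)
      ≤ ∑ b ∈ F.image f, M := Finset.sum_le_sum hM
    _ = (F.image f).card * M := by rw [Finset.sum_const, nsmul_eq_mul]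
    _ ≤ N * M := mul_le_mul_of_nonneg_right hN hM0

/-- Main case.  Group the pairs `(A,B)` by dyadic classes `2^(a1-1) < |A1| ≤ 2^a1` etc. (`proper`; `a1, a2, b1, b2 ∈ [-3Gs, (G+61)s]`, at most
`(5Gs)^4` classes).  In a class let `p0 = 2^(a2+b2)`: `p0/4 ≤ |P| ≤ p0`, `2^(a1+b1) ≤ 4|R| ≤ 8·2^(240s) p0`, so `AB_class` gives
`≤ 8·2^((2G+2368)s) p0²` pairs, each with `≤ 2^(151500s)(1 + 4·2^(50000s)/p0)` values of `D` (`D_count`).  As
`p0 ≤ 4|A2||B2| ≤ 4·2^(-1000s)·2^((G+61)s)`: total per class `≤ 2^((3.5G+3880)s)(p0² + 4·2^(50000s)p0) ≤ 2^((5.5G+2010)s)`. -/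
theorem caseMain (s : ℕ) (hs : 200 ≤ s) (Γ : AddSubgroup V3) (hG : GDG s Γ)
    (F : Finset (V3 × V3 × V3)) (hF : ∀ p ∈ F, Q4 s Γ p.1 p.2.1 p.2.2 ∧ p.2.1 ≠ 0 ∧ p.2.2 ≠ 0 ∧
      ((2 : ℝ) ^ (400 * s) / 2 ^ (Gc * s) < |PP p.2.1 p.2.2| ∨
        (2 : ℝ) ^ (400 * s) / 2 ^ (Gc * s) < |RR p.2.1 p.2.2|)) :
    (F.card : ℝ) ≤ (2 : ℝ) ^ (552060 * s) := by
  classical
  have hgroup := c2_group s hs Γ F (fun p hp => (hF p hp).1) (256 * 2 ^ (551988 * s))
    (by positivity) (by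
    intro a1 a2 b1 b2 ha1 ha1' ha2 ha2' hb1 hb1' hb2 hb2' F' hF' hcl
    by_cases hemp : F' = ∅
    · rw [hemp]
      simp only [Finset.card_empty, Nat.cast_zero]
      positivity
    · obtain ⟨p', hp'⟩ := Finset.nonempty_iff_ne_empty.2 hemp
      set p0 : ℝ := (2 : ℝ) ^ (a2 + b2) with hp0def
      have hp0 : 0 < p0 := by positivity
      -- properties of the members of the class
      have hprop : ∀ p ∈ F', p0 / 4 < |PP p.2.1 p.2.2| ∧ |PP p.2.1 p.2.2| ≤ p0 ∧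
          (2 : ℝ) ^ (a1 + b1) ≤ 4 * |RR p.2.1 p.2.2| := by
        intro p hp
        obtain ⟨hq4, hA, hB, hl⟩ := hF p (hF' hp)
        obtain ⟨m1, m2, m3, m4⟩ := proper s (by omega) Γ _ _ _ hq4 hl
        obtain ⟨c1, c2, c3, c4, d1, d2, d3, d4⟩ := hcl p hp
        have n1 := c3_notbottom s (by omega) _ _ m1 c1 d1
        have n2 := c3_notbottom s (by omega) _ _ m2 c2 d2
        have n3 := c3_notbottom s (by omega) _ _ m3 c3 d3
        have n4 := c3_notbottom s (by omega) _ _ m4 c4 d4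
        have e4 : ∀ a b : ℤ, (2 : ℝ) ^ (a + b) = 4 * ((2 : ℝ) ^ (a - 1) * (2 : ℝ) ^ (b - 1)) := by
          intro a b
          rw [← zpow_add₀ (by norm_num), show a + b = (a - 1 + (b - 1)) + 2 by ring,
            zpow_add₀ (by norm_num) (a - 1 + (b - 1)) 2]
          norm_num
          ring
        refine ⟨?_, ?_, ?_⟩
        · have h5 : (2 : ℝ) ^ (a2 - 1) * (2 : ℝ) ^ (b2 - 1) < |PP p.2.1 p.2.2| := by
            unfold PP
            rw [abs_mul]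
            exact mul_lt_mul'' n2 n4 (by positivity) (by positivity)
          rw [hp0def, e4]
          linarith
        · unfold PP
          rw [abs_mul, hp0def, zpow_add₀ (by norm_num)]
          exact mul_le_mul c2 c4 (abs_nonneg _) (by positivity)
        · have h5 : (2 : ℝ) ^ (a1 - 1) * (2 : ℝ) ^ (b1 - 1) < |RR p.2.1 p.2.2| := by
            unfold RR
            rw [abs_mul]
            exact mul_lt_mul'' n1 n3 (by positivity) (by positivity)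
          rw [e4]
          linarith
      have hp1 : p0 ≤ 4 * 2 ^ (99060 * s) := by
        obtain ⟨hq4, -, -, -⟩ := hF p' (hF' hp')
        have h1 := (hprop p' hp').1
        have h2 : |PP p'.2.1 p'.2.2| ≤ 1 / (2 : ℝ) ^ (1000 * s) * (2 : ℝ) ^ ((Gc + 60) * s) := by
          unfold PP
          rw [abs_mul]
          exact mul_le_mul hq4.sA (c3_coord hq4.cD hq4.cB).2 (abs_nonneg _) (by positivity)
        have h3 : 1 / (2 : ℝ) ^ (1000 * s) * (2 : ℝ) ^ ((Gc + 60) * s) = 2 ^ (99060 * s) := by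
          rw [one_div, ← div_eq_inv_mul, div_eq_iff (by positivity), ← pow_add]
          congr 1
          simp only [Gc]
          omega
        rw [h3] at h2
        linarith
      refine le_trans ?_ (c3_num s p0 hp0 hp1)
      apply c3_fib F' (fun p => p.2) _ _ (by positivity)
      · intro q hq
        rw [Finset.mem_image] at hq
        obtain ⟨p, hp, rfl⟩ := hq
        obtain ⟨hq4, hA, hB, hl⟩ := hF p (hF' hp)
        obtain ⟨k1, k2, k3, k4⟩ := PR_comp s (by omega) Γ _ _ _ hq4 hl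
        have hPpos : 0 < |PP p.2.1 p.2.2| := lt_of_lt_of_le (by positivity) k3
        apply c3_Dfib
        intro G hGF
        have h1 := D_count s (by omega) Γ hG p.2.1 p.2.2 (abs_pos.1 hPpos) k1 G
          (fun D hD => (hF _ (hF' (hGF D hD))).1)
        refine h1.trans ?_
        apply mul_le_mul_of_nonneg_left _ (by positivity)
        have h2 : (2 : ℝ) ^ (50000 * s) / |PP p.2.1 p.2.2| ≤ 4 * 2 ^ (50000 * s) / p0 := by
          rw [div_le_div_iff₀ hPpos hp0]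
          have h3 := (hprop p hp).1
          have h4 : (0 : ℝ) < 2 ^ (50000 * s) := by positivity
          nlinarith
        linarith
      · have h1 := AB_class s (by omega) Γ hG a1 a2 b1 b2 ha1 ha1' ha2 ha2' hb1 hb1' hb2 hb2'
          (F'.image (fun p => p.2)) (by
            intro q hq
            rw [Finset.mem_image] at hq
            obtain ⟨p, hp, rfl⟩ := hq
            obtain ⟨hq4, hA, hB, -⟩ := hF p (hF' hp)
            obtain ⟨c1, c2, c3, c4, -⟩ := hcl p hp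
            have e : (2 : ℝ) ^ (((Gc : ℤ) + 1063) * (s : ℤ)) = (2 : ℝ) ^ ((Gc + 1063) * s) := by
              rw [← zpow_natCast]
              congr 1
            refine ⟨⟨hq4.mA, hA, ?_, c1, c2⟩, ⟨hq4.mB, hB, ?_, c3, c4⟩⟩
            · rw [e]
              exact hq4.zA
            · rw [e]
              exact hq4.zB)
        refine h1.trans ?_
        obtain ⟨hq4, -, -, hl⟩ := hF p' (hF' hp')
        obtain ⟨k1, -, -, -⟩ := PR_comp s (by omega) Γ _ _ _ hq4 hl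
        obtain ⟨g1, g2, g3⟩ := hprop p' hp'
        have g4 : (2 : ℝ) ^ (a1 + b1) ≤ 8 * 2 ^ (240 * s) * p0 := by
          have h5 : 2 * (2 : ℝ) ^ (240 * s) * |PP p'.2.1 p'.2.2| ≤ 2 * 2 ^ (240 * s) * p0 :=
            mul_le_mul_of_nonneg_left g2 (by positivity)
          linarith
        have e : (2 : ℝ) ^ ((2 * (Gc : ℤ) + 2128) * s + a1 + a2 + b1 + b2) =
            (2 : ℝ) ^ (202128 * s) * (2 : ℝ) ^ (a1 + b1) * p0 := by
          rw [hp0def, ← zpow_natCast (2 : ℝ) (202128 * s), ← zpow_add₀ (by norm_num),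
            ← zpow_add₀ (by norm_num)]
          congr 1
          simp only [Gc]
          push_cast
          ring
        rw [e]
        exact mul_le_mul_of_nonneg_right (mul_le_mul_of_nonneg_left g4 (by positivity)) hp0.le)
  refine hgroup.trans ?_
  calc ((6 * Gc * s : ℕ) : ℝ) ^ 4 * (256 * (2 : ℝ) ^ (551988 * s))
      = (((6 * Gc * s : ℕ) : ℝ) ^ 4 * 256) * (2 : ℝ) ^ (551988 * s) := by ring
    _ ≤ (2 : ℝ) ^ (72 * s) * (2 : ℝ) ^ (551988 * s) :=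
        mul_le_mul_of_nonneg_right (c3_poly s hs) (by positivity)
    _ = (2 : ℝ) ^ (552060 * s) := by
        rw [← pow_add]
        congr 1
        ring

/-- COUNT4: `caseA0`, `caseB0`, `caseSmall`, `caseMain` -/
theorem count4 (s : ℕ) (hs : 200 ≤ s) (Γ : AddSubgroup V3) (hG : GDG s Γ)
    (F : Finset (V3 × V3 × V3)) (hF : ∀ p ∈ F, Q4 s Γ p.1 p.2.1 p.2.2) :
    (F.card : ℝ) ≤ (2 : ℝ) ^ (552100 * s) := by
  classical
  set θ : ℝ := (2 : ℝ) ^ (400 * s) / 2 ^ (Gc * s) with hθ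
  set F1 := F.filter (fun p => p.2.1 = 0) with hF1
  set F2 := F.filter (fun p => p.2.2 = 0) with hF2
  set F3 := F.filter (fun p => p.2.1 ≠ 0 ∧ p.2.2 ≠ 0 ∧ |PP p.2.1 p.2.2| ≤ θ ∧
    |RR p.2.1 p.2.2| ≤ θ) with hF3
  set F4 := F.filter (fun p => p.2.1 ≠ 0 ∧ p.2.2 ≠ 0 ∧ (θ < |PP p.2.1 p.2.2| ∨
    θ < |RR p.2.1 p.2.2|)) with hF4
  have hsub : F ⊆ (F1 ∪ F2) ∪ (F3 ∪ F4) := by
    intro p hp
    rw [Finset.mem_union, Finset.mem_union, Finset.mem_union, hF1, hF2, hF3, hF4,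
      Finset.mem_filter, Finset.mem_filter, Finset.mem_filter, Finset.mem_filter]
    by_cases h1 : p.2.1 = 0
    · exact Or.inl (Or.inl ⟨hp, h1⟩)
    · by_cases h2 : p.2.2 = 0
      · exact Or.inl (Or.inr ⟨hp, h2⟩)
      · by_cases h3 : |PP p.2.1 p.2.2| ≤ θ
        · by_cases h4 : |RR p.2.1 p.2.2| ≤ θ
          · exact Or.inr (Or.inl ⟨hp, h1, h2, h3, h4⟩)
          · exact Or.inr (Or.inr ⟨hp, h1, h2, Or.inr (not_le.1 h4)⟩)
        · exact Or.inr (Or.inr ⟨hp, h1, h2, Or.inl (not_le.1 h3)⟩)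
  have hcard : (F.card : ℝ) ≤ (F1.card + F2.card) + (F3.card + F4.card) := by
    have h1 : F.card ≤ (F1.card + F2.card) + (F3.card + F4.card) :=
      (Finset.card_le_card hsub).trans ((Finset.card_union_le _ _).trans
        (add_le_add (Finset.card_union_le _ _) (Finset.card_union_le _ _)))
    exact_mod_cast h1
  have b1 : (F1.card : ℝ) ≤ (2 : ℝ) ^ (501320 * s) := by
    apply caseA0 s (by omega) Γ hG
    intro p hp
    rw [hF1, Finset.mem_filter] at hp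
    exact ⟨hF p hp.1, hp.2⟩
  have b2 : (F2.card : ℝ) ≤ (2 : ℝ) ^ (501320 * s) := by
    apply caseB0 s (by omega) Γ hG
    intro p hp
    rw [hF2, Finset.mem_filter] at hp
    exact ⟨hF p hp.1, hp.2⟩
  have b3 : (F3.card : ℝ) ≤ (2 : ℝ) ^ (304300 * s) := by
    apply caseSmall s hs Γ hG
    intro p hp
    rw [hF3, Finset.mem_filter] at hp
    exact ⟨hF p hp.1, hp.2.1, hp.2.2.1, hp.2.2.2.1, hp.2.2.2.2⟩
  have b4 : (F4.card : ℝ) ≤ (2 : ℝ) ^ (552060 * s) := by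
    apply caseMain s hs Γ hG
    intro p hp
    rw [hF4, Finset.mem_filter] at hp
    exact ⟨hF p hp.1, hp.2.1, hp.2.2.1, hp.2.2.2⟩
  have c1 : (2 : ℝ) ^ (501320 * s) ≤ (2 : ℝ) ^ (552060 * s) :=
    pow_le_pow_right₀ (by norm_num) (by omega)
  have c3 : (2 : ℝ) ^ (304300 * s) ≤ (2 : ℝ) ^ (552060 * s) :=
    pow_le_pow_right₀ (by norm_num) (by omega)
  have c4 : 4 * (2 : ℝ) ^ (552060 * s) ≤ (2 : ℝ) ^ (552100 * s) := by
    calc 4 * (2 : ℝ) ^ (552060 * s) = (2 : ℝ) ^ (2 + 552060 * s) := by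
          rw [pow_add]
          norm_num
      _ ≤ (2 : ℝ) ^ (552100 * s) := pow_le_pow_right₀ (by norm_num) (by omega)
  linarith

end MP_5e4520_nt.Ex
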