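import Pool.Agent.Lib.MP_5e4520_ntE.XDefs
import Pool.Agent.Lib.MP_5e4520_nt.EntB
set_option autoImplicit false

namespace MP_5e4520_nt.Ex

open Finset

variable {ι κ1 κ2 κ3 κ4 : Type*}

open Classical in
private theorem E1_log {κ : Type*} {S : Finset ι} (hS : S.Nonempty) (F : ι → κ) :
    ∑ p ∈ S, Real.log ((S.filter (fun x => F x = F p)).card : ℝ) =
      S.card * Real.log S.card - Real.log 2 * (ent S F * S.card) := by
  have hS0 : (0 : ℝ) < S.card := by exact_mod_cast hS.card_pos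
  have hl0 : 0 < Real.log 2 := Real.log_pos (by norm_num)
  rw [entB_mul hS F, mul_sum]
  have h1 : ∀ p ∈ S, Real.log 2 * Real.logb 2 ((S.card : ℝ) /
      ((S.filter (fun x => F x = F p)).card : ℝ)) =
      Real.log S.card - Real.log ((S.filter (fun x => F x = F p)).card : ℝ) := by
    intro p hp
    have n1 : (0 : ℝ) < ((S.filter (fun x => F x = F p)).card : ℝ) := entB_fib_pos hp rfl
    rw [Real.logb, mul_div_cancel₀ _ hl0.ne', Real.log_div hS0.ne' n1.ne']
  rw [sum_congr rfl h1, sum_sub_distrib, sum_const, nsmul_eq_mul]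
  ring

open Classical in
private theorem E1_abs {κ τ : Type*} {S : Finset ι} (hS : S.Nonempty) (F : ι → κ) (T : Finset τ)
    (G : τ → κ) (g : κ → ℝ) (hg : ∀ k, 0 ≤ g k) (hg1 : ∀ p ∈ S, 0 < g (F p)) (c : ι → ℝ)
    (hc0 : ∀ p ∈ S, 0 < c p)
    (hc : ∀ p ∈ S, ∃ U : Finset τ, (U.card : ℝ) = c p ∧ ∀ q, q ∈ U ↔ q ∈ T ∧ G q = F p)
    (Z : ℝ) (hZ : 0 < Z) :
    ∑ p ∈ S, Real.log (c p) - (S.card * Real.log S.card - Real.log 2 * (ent S F * S.card)) +
      ∑ p ∈ S, Real.log (g (F p)) ≤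
      (∑ q ∈ T, g (G q)) / Z - S.card + S.card * Real.log Z := by
  have hn : ∀ p ∈ S, (0 : ℝ) < ((S.filter (fun x => F x = F p)).card : ℝ) :=
    fun p hp => entB_fib_pos hp rfl
  have hgen : ∑ p ∈ S, c p / ((S.filter (fun x => F x = F p)).card : ℝ) * g (F p) ≤
      ∑ q ∈ T, g (G q) := by
    have h1 : ∀ p ∈ S, c p / ((S.filter (fun x => F x = F p)).card : ℝ) * g (F p) =
        ∑ q ∈ T, if F p = G q then
          (1 : ℝ) / ((S.filter (fun x => F x = F p)).card : ℝ) * g (G q) else 0 := by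
      intro p hp
      obtain ⟨U, hU, hUm⟩ := hc p hp
      rw [← sum_filter]
      have h2 : ∀ q ∈ T.filter (fun q => F p = G q),
          (1 : ℝ) / ((S.filter (fun x => F x = F p)).card : ℝ) * g (G q) =
          (1 : ℝ) / ((S.filter (fun x => F x = F p)).card : ℝ) * g (F p) := by
        intro q hq
        rw [(mem_filter.1 hq).2]
      rw [sum_congr rfl h2, sum_const, nsmul_eq_mul]
      have h3 : T.filter (fun q => F p = G q) = U := by
        ext q
        rw [mem_filter, hUm]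
        exact and_congr_right fun _ => eq_comm
      rw [h3, hU]
      ring
    rw [sum_congr rfl h1, sum_comm]
    apply sum_le_sum
    intro q _
    have h4 := entA_sum_fib S F (G q)
    rw [← sum_filter, ← sum_mul, h4]
    split_ifs
    · rw [one_mul]
    · rw [zero_mul]; exact hg _
  rw [← E1_log hS F, ← sum_sub_distrib, ← sum_add_distrib]
  have h5 : ∀ p ∈ S, Real.log (c p) - Real.log ((S.filter (fun x => F x = F p)).card : ℝ) +
      Real.log (g (F p)) ≤
      (c p / ((S.filter (fun x => F x = F p)).card : ℝ) * g (F p) / Z - 1) + Real.log Z := by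
    intro p hp
    have h6 : 0 < c p / ((S.filter (fun x => F x = F p)).card : ℝ) * g (F p) :=
      mul_pos (div_pos (hc0 p hp) (hn p hp)) (hg1 p hp)
    have h7 := Real.log_le_sub_one_of_pos (div_pos h6 hZ)
    rw [Real.log_div h6.ne' hZ.ne', Real.log_mul (div_pos (hc0 p hp) (hn p hp)).ne'
      (hg1 p hp).ne', Real.log_div (hc0 p hp).ne' (hn p hp).ne'] at h7
    linarith
  refine (sum_le_sum h5).trans ?_
  rw [sum_add_distrib, sum_sub_distrib, ← sum_div, sum_const, sum_const, nsmul_eq_mul,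
    nsmul_eq_mul, mul_one]
  have := div_le_div_of_nonneg_right hgen hZ.le
  linarith

open Classical in
/-- JOB E1.  Fourfold information lemma (like helper25's `info` in `EntB.lean`, whose file you may copy from).
With `n_X` etc. the fiber cardinalities and `n` that of the quadruple,
`(H(X)+H(Y)+H(C)+H(D)-H(XYCD)) log 2 = (1/|S|) ∑_p log(|S|³ n(p)/(n_X n_Y n_C n_D)) ≥ (1/|S|) ∑_p (1 - n_X n_Y n_C n_D/(|S|³ n(p)))`,
and `∑_p n_X n_Y n_C n_D/n(p) = ∑_{values (x,y,c,d) of the quadruple} n_X(x) n_Y(y) n_C(c) n_D(d)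
≤ |S|⁴ - #{(p1,p2,p3,p4) : N (X p1) (Y p2) (C p3) (D p4)}`. -/
theorem info4 {S : Finset ι} (hS : S.Nonempty) (X : ι → κ1) (Y : ι → κ2) (C : ι → κ3) (D : ι → κ4)
    (N : κ1 → κ2 → κ3 → κ4 → Prop) (hN : ∀ p ∈ S, ¬ N (X p) (Y p) (C p) (D p)) :
    (((S ×ˢ S ×ˢ S ×ˢ S).filter
      (fun q : ι × ι × ι × ι => N (X q.1) (Y q.2.1) (C q.2.2.1) (D q.2.2.2))).card : ℝ) /
        (S.card : ℝ) ^ 4 ≤
      ent S X + ent S Y + ent S C + ent S D - ent S (fun x => (X x, Y x, C x, D x)) := by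
  have hS0 : (0 : ℝ) < S.card := by exact_mod_cast hS.card_pos
  have n1 : ∀ p ∈ S, (0 : ℝ) < ((S.filter (fun x => X x = X p)).card : ℝ) :=
    fun p hp => entB_fib_pos hp rfl
  have n2 : ∀ p ∈ S, (0 : ℝ) < ((S.filter (fun x => Y x = Y p)).card : ℝ) :=
    fun p hp => entB_fib_pos hp rfl
  have n3 : ∀ p ∈ S, (0 : ℝ) < ((S.filter (fun x => C x = C p)).card : ℝ) :=
    fun p hp => entB_fib_pos hp rfl
  have n4 : ∀ p ∈ S, (0 : ℝ) < ((S.filter (fun x => D x = D p)).card : ℝ) :=
    fun p hp => entB_fib_pos hp rfl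
  set NN : ℝ := (((S ×ˢ S ×ˢ S ×ˢ S).filter
      (fun q : ι × ι × ι × ι => N (X q.1) (Y q.2.1) (C q.2.2.1) (D q.2.2.2))).card : ℝ) with hNN
  have h3 : ∑ q ∈ S ×ˢ S ×ˢ S ×ˢ S, (if N (X q.1) (Y q.2.1) (C q.2.2.1) (D q.2.2.2) then (0 : ℝ)
      else 1) = (S.card : ℝ) ^ 4 - NN := by
    have h4 : ∀ q ∈ S ×ˢ S ×ˢ S ×ˢ S, (if N (X q.1) (Y q.2.1) (C q.2.2.1) (D q.2.2.2) then (0 : ℝ)
        else 1) = 1 - (if N (X q.1) (Y q.2.1) (C q.2.2.1) (D q.2.2.2) then (1 : ℝ) else 0) := by
      intro q _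
      split_ifs <;> norm_num
    rw [sum_congr rfl h4, sum_sub_distrib, sum_boole, sum_const, card_product, card_product,
      card_product, nsmul_eq_mul, mul_one]
    push_cast
    ring
  have h := E1_abs hS (fun x => (X x, Y x, C x, D x)) (S ×ˢ S ×ˢ S ×ˢ S)
    (fun q : ι × ι × ι × ι => (X q.1, Y q.2.1, C q.2.2.1, D q.2.2.2))
    (fun k => if N k.1 k.2.1 k.2.2.1 k.2.2.2 then 0 else 1)
    (fun k => by split_ifs <;> norm_num)
    (fun p hp => by
      change (0 : ℝ) < if N (X p) (Y p) (C p) (D p) then 0 else 1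
      rw [if_neg (hN p hp)]
      norm_num)
    (fun p => ((S.filter (fun x => X x = X p)).card : ℝ) *
      ((S.filter (fun x => Y x = Y p)).card : ℝ) * ((S.filter (fun x => C x = C p)).card : ℝ) *
      ((S.filter (fun x => D x = D p)).card : ℝ))
    (fun p hp => mul_pos (mul_pos (mul_pos (n1 p hp) (n2 p hp)) (n3 p hp)) (n4 p hp))
    (fun p _ => ⟨(S.filter (fun x => X x = X p)) ×ˢ (S.filter (fun x => Y x = Y p)) ×ˢ
      (S.filter (fun x => C x = C p)) ×ˢ (S.filter (fun x => D x = D p)), by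
        rw [card_product, card_product, card_product]
        push_cast
        ring, by
        intro q
        simp only [mem_filter, mem_product, Prod.mk.injEq]
        tauto⟩)
    ((S.card : ℝ) ^ 3) (pow_pos hS0 3)
  have h1 : ∀ p ∈ S, Real.log (((S.filter (fun x => X x = X p)).card : ℝ) *
      ((S.filter (fun x => Y x = Y p)).card : ℝ) * ((S.filter (fun x => C x = C p)).card : ℝ) *
      ((S.filter (fun x => D x = D p)).card : ℝ)) =
      Real.log ((S.filter (fun x => X x = X p)).card : ℝ) +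
      Real.log ((S.filter (fun x => Y x = Y p)).card : ℝ) +
      Real.log ((S.filter (fun x => C x = C p)).card : ℝ) +
      Real.log ((S.filter (fun x => D x = D p)).card : ℝ) := by
    intro p hp
    have m1 := (n1 p hp).ne'
    have m2 := (n2 p hp).ne'
    have m3 := (n3 p hp).ne'
    have m4 := (n4 p hp).ne'
    rw [Real.log_mul (mul_ne_zero (mul_ne_zero m1 m2) m3) m4,
      Real.log_mul (mul_ne_zero m1 m2) m3, Real.log_mul m1 m2]
  have h2 : ∀ p ∈ S, Real.log (if N (X p) (Y p) (C p) (D p) then (0 : ℝ) else 1) = 0 := by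
    intro p hp
    rw [if_neg (hN p hp), Real.log_one]
  have h5 : ∑ p ∈ S, Real.log (if N (X p) (Y p) (C p) (D p) then (0 : ℝ) else 1) = 0 :=
    sum_eq_zero h2
  simp only at h
  rw [h3, h5, sum_congr rfl h1, sum_add_distrib, sum_add_distrib, sum_add_distrib, E1_log hS X,
    E1_log hS Y, E1_log hS C, E1_log hS D, Real.log_pow] at h
  have hl0 : 0 < Real.log 2 := Real.log_pos (by norm_num)
  have hl1 : Real.log 2 ≤ 1 := by
    have := Real.log_two_lt_d9
    linarith
  have hN0 : 0 ≤ NN / S.card ^ 3 := div_nonneg (Nat.cast_nonneg _) (pow_pos hS0 3).le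
  have h6 : ((S.card : ℝ) ^ 4 - NN) / S.card ^ 3 = S.card - NN / S.card ^ 3 := by
    field_simp
  rw [h6] at h
  push_cast at h
  set I : ℝ := ent S X + ent S Y + ent S C + ent S D - ent S (fun x => (X x, Y x, C x, D x))
    with hI
  have h7 : NN / S.card ^ 3 ≤ (I * S.card) * Real.log 2 := by
    rw [hI]
    linarith
  have h8 : 0 ≤ I * S.card := by
    by_contra hcon
    have := mul_neg_of_neg_of_pos (not_le.1 hcon) hl0
    linarith
  have h4 : NN / S.card ^ 3 ≤ I * S.card := by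
    calc NN / S.card ^ 3 ≤ (I * S.card) * Real.log 2 := h7
      _ ≤ (I * S.card) * 1 := mul_le_mul_of_nonneg_left hl1 h8
      _ = _ := mul_one _
  rw [pow_succ, ← div_div, div_le_iff₀ hS0]
  exact h4

open Classical in
/-- Comparison of the product law and the joint law for an arbitrary event `N`:
`P_prod(N) ≤ 2 (P_joint(N) + I(X;Y))`.
Gibbs/Jensen: with `R(p) = n_X(p) n_Y(p)/(|S| n_{XY}(p))` and `g = 1_N`, concavity of `log` gives
`(1/|S|) ∑_p (log R(p) - g(p)) ≤ log ((1/|S|) ∑_p R(p) e^{-g(p)}) ≤ log (E_prod e^{-g}) ≤ log (1 - (1-1/e) P_prod(N))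
≤ -(1-1/e) P_prod(N)`, the left side is `- I log 2 - P_joint(N)`; `log 2 ≤ 1`, `1/(1-1/e) ≤ 2`. -/
theorem info_event {S : Finset ι} (hS : S.Nonempty) (X : ι → κ1) (Y : ι → κ2)
    (N : κ1 → κ2 → Prop) :
    (((S ×ˢ S).filter (fun q : ι × ι => N (X q.1) (Y q.2))).card : ℝ) / (S.card : ℝ) ^ 2 ≤
      2 * ((((S.filter (fun p => N (X p) (Y p))).card : ℝ) / S.card) +
        (ent S X + ent S Y - ent S (fun x => (X x, Y x)))) := by
  have hS0 : (0 : ℝ) < S.card := by exact_mod_cast hS.card_pos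
  have n1 : ∀ p ∈ S, (0 : ℝ) < ((S.filter (fun x => X x = X p)).card : ℝ) :=
    fun p hp => entB_fib_pos hp rfl
  have n2 : ∀ p ∈ S, (0 : ℝ) < ((S.filter (fun x => Y x = Y p)).card : ℝ) :=
    fun p hp => entB_fib_pos hp rfl
  set NN : ℝ := (((S ×ˢ S).filter (fun q : ι × ι => N (X q.1) (Y q.2))).card : ℝ) with hNN
  set PJ : ℝ := ((S.filter (fun p => N (X p) (Y p))).card : ℝ) with hPJ
  have h3 : ∑ q ∈ S ×ˢ S, (if N (X q.1) (Y q.2) then (1 / 2 : ℝ) else 1) =
      (S.card : ℝ) ^ 2 - NN / 2 := by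
    have h4 : ∀ q ∈ S ×ˢ S, (if N (X q.1) (Y q.2) then (1 / 2 : ℝ) else 1) =
        1 - (if N (X q.1) (Y q.2) then (1 : ℝ) else 0) / 2 := by
      intro q _
      split_ifs <;> norm_num
    rw [sum_congr rfl h4, sum_sub_distrib, ← sum_div, sum_boole, sum_const, card_product,
      nsmul_eq_mul, mul_one]
    push_cast
    ring
  have h := E1_abs hS (fun x => (X x, Y x)) (S ×ˢ S)
    (fun q : ι × ι => (X q.1, Y q.2))
    (fun k => if N k.1 k.2 then (1 / 2 : ℝ) else 1)
    (fun k => by split_ifs <;> norm_num)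
    (fun p _ => by split_ifs <;> norm_num)
    (fun p => ((S.filter (fun x => X x = X p)).card : ℝ) *
      ((S.filter (fun x => Y x = Y p)).card : ℝ))
    (fun p hp => mul_pos (n1 p hp) (n2 p hp))
    (fun p _ => ⟨(S.filter (fun x => X x = X p)) ×ˢ (S.filter (fun x => Y x = Y p)), by
        rw [card_product]
        push_cast
        ring, by
        intro q
        simp only [mem_filter, mem_product, Prod.mk.injEq]
        tauto⟩)
    (S.card : ℝ) hS0
  have h1 : ∀ p ∈ S, Real.log (((S.filter (fun x => X x = X p)).card : ℝ) *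
      ((S.filter (fun x => Y x = Y p)).card : ℝ)) =
      Real.log ((S.filter (fun x => X x = X p)).card : ℝ) +
      Real.log ((S.filter (fun x => Y x = Y p)).card : ℝ) := by
    intro p hp
    have m1 := (n1 p hp).ne'
    have m2 := (n2 p hp).ne'
    rw [Real.log_mul m1 m2]
  have h2 : ∀ p ∈ S, Real.log (if N (X p) (Y p) then (1 / 2 : ℝ) else 1) =
      -((if N (X p) (Y p) then (1 : ℝ) else 0) * Real.log 2) := by
    intro p _
    split_ifs
    · rw [one_div, Real.log_inv]; ring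
    · rw [Real.log_one]; ring
  have h5 : ∑ p ∈ S, Real.log (if N (X p) (Y p) then (1 / 2 : ℝ) else 1) =
      -(PJ * Real.log 2) := by
    rw [sum_congr rfl h2, sum_neg_distrib, ← sum_mul, sum_boole]
  simp only at h
  rw [h3, h5, sum_congr rfl h1, sum_add_distrib, E1_log hS X, E1_log hS Y] at h
  have hl0 : 0 < Real.log 2 := Real.log_pos (by norm_num)
  have hl1 : Real.log 2 ≤ 1 := by
    have := Real.log_two_lt_d9
    linarith
  have hN0 : 0 ≤ NN / 2 / S.card := div_nonneg (by positivity) hS0.le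
  have h6 : ((S.card : ℝ) ^ 2 - NN / 2) / S.card = S.card - NN / 2 / S.card := by
    field_simp
  rw [h6] at h
  set I : ℝ := ent S X + ent S Y - ent S (fun x => (X x, Y x)) with hI
  have h7 : NN / 2 / S.card ≤ (PJ + I * S.card) * Real.log 2 := by
    rw [hI]
    linarith
  have h8 : 0 ≤ PJ + I * S.card := by
    by_contra hcon
    have := mul_neg_of_neg_of_pos (not_le.1 hcon) hl0
    linarith
  have h4 : NN / 2 / S.card ≤ PJ + I * S.card := by
    calc NN / 2 / S.card ≤ (PJ + I * S.card) * Real.log 2 := h7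
      _ ≤ (PJ + I * S.card) * 1 := mul_le_mul_of_nonneg_left hl1 h8
      _ = _ := mul_one _
  have h9 : NN / (S.card : ℝ) ^ 2 = 2 * (NN / 2 / S.card / S.card) := by
    field_simp
  have h10 : PJ / S.card + I = (PJ + I * S.card) / S.card := by
    field_simp
  rw [h9, h10]
  exact mul_le_mul_of_nonneg_left (div_le_div_of_nonneg_right h4 hS0.le) (by norm_num)

end MP_5e4520_nt.Ex
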