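import Pool.Agent.Lib.MP_5e4520_ntE.XDefs
set_option autoImplicit false

namespace MP_5e4520_nt.Ex

open Finset

variable {ι κ1 : Type*}

open Classical in
/-- `0 ≤ ent ≤ N` -/
theorem ent_le_N {S : Finset ι} (hS : S.Nonempty) (X : ι → κ1) (N : ℕ)
    (hN : (S.image X).card ≤ 2 ^ N) : ent S X ≤ N := by
  have h1 := ent_le_of_card hS X (S.image X) (fun p hp => mem_image_of_mem X hp)
  refine le_trans h1 ?_
  have h2 : (0 : ℝ) < ((S.image X).card : ℝ) := by
    have : 0 < (S.image X).card := card_pos.2 (hS.image X)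
    exact_mod_cast this
  have h3 : ((S.image X).card : ℝ) ≤ (2 : ℝ) ^ N := by exact_mod_cast hN
  calc Real.logb 2 ((S.image X).card : ℝ) ≤ Real.logb 2 ((2 : ℝ) ^ N) :=
        Real.logb_le_logb_of_le (by norm_num) h2 h3
    _ = N := by
        rw [Real.logb_pow, Real.logb_self_eq_one (by norm_num)]
        ring

private theorem E2_log (u : ℝ) (hu : 0 < u) : Real.logb 2 u ≤ u := by
  have h1 : Real.log (u / 2) ≤ u / 2 - 1 := Real.log_le_sub_one_of_pos (by positivity)
  rw [Real.log_div hu.ne' (by norm_num)] at h1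
  have h2 : Real.log 2 < 0.6931471808 := Real.log_two_lt_d9
  have h3 : 0.6931471803 < Real.log 2 := Real.log_two_gt_d9
  have h4 : Real.logb 2 u = Real.log u / Real.log 2 := rfl
  rw [h4, div_le_iff₀ (by linarith)]
  nlinarith

open Classical in
private theorem E2_sum {S : Finset ι} (hS : S.Nonempty) (X : ι → κ1) (N : ℕ)
    (hN : (S.image X).card ≤ 2 ^ N) (A : Finset ι) (hA : A ⊆ S) :
    ∑ p ∈ A, Real.logb 2 ((S.card : ℝ) / ((S.filter (fun x => X x = X p)).card : ℝ)) ≤
      A.card * N + S.card := by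
  rcases A.eq_empty_or_nonempty with rfl | hA0
  · simp
  have hS0 : (0 : ℝ) < S.card := by exact_mod_cast hS.card_pos
  have hA1 : (0 : ℝ) < A.card := by exact_mod_cast hA0.card_pos
  have hn : ∀ p ∈ A, (0 : ℝ) < ((S.filter (fun x => X x = X p)).card : ℝ) := fun p hp => by
    exact_mod_cast entA_fib_pos X (hA hp)
  have h2N : (0 : ℝ) < (2 : ℝ) ^ N := by positivity
  have h1 := entA_sum_log (S := A)
    (fun p => (S.card : ℝ) / ((S.filter (fun x => X x = X p)).card : ℝ) /
      (2 ^ N * (S.card / A.card)))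
    (fun p hp => div_pos (div_pos hS0 (hn p hp)) (by positivity)) (by
      have h2 : ∀ p ∈ A, (S.card : ℝ) / ((S.filter (fun x => X x = X p)).card : ℝ) /
          (2 ^ N * (S.card / A.card)) =
          (A.card / 2 ^ N : ℝ) * (1 / ((S.filter (fun x => X x = X p)).card : ℝ)) := by
        intro p hp
        have := hn p hp
        field_simp
      rw [sum_congr rfl h2, ← mul_sum]
      have h3 : ∑ p ∈ A, (1 : ℝ) / ((S.filter (fun x => X x = X p)).card : ℝ) ≤ 2 ^ N := by
        calc ∑ p ∈ A, (1 : ℝ) / ((S.filter (fun x => X x = X p)).card : ℝ)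
            ≤ ∑ p ∈ S, (1 : ℝ) / ((S.filter (fun x => X x = X p)).card : ℝ) :=
              sum_le_sum_of_subset_of_nonneg hA (fun p _ _ => by positivity)
          _ = ((S.image X).card : ℝ) := entA_sum_inv S X
          _ ≤ 2 ^ N := by exact_mod_cast hN
      rw [div_mul_eq_mul_div, div_le_iff₀ h2N]
      exact mul_le_mul_of_nonneg_left h3 hA1.le)
  have h4 : ∀ p ∈ A, Real.logb 2 ((S.card : ℝ) / ((S.filter (fun x => X x = X p)).card : ℝ) /
      (2 ^ N * (S.card / A.card))) =
      Real.logb 2 ((S.card : ℝ) / ((S.filter (fun x => X x = X p)).card : ℝ)) -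
      (N + Real.logb 2 (S.card / A.card)) := by
    intro p hp
    rw [Real.logb_div (div_pos hS0 (hn p hp)).ne' (by positivity),
      Real.logb_mul (by positivity) (by positivity), Real.logb_pow,
      Real.logb_self_eq_one (by norm_num)]
    ring
  rw [sum_congr rfl h4, sum_sub_distrib, sum_const, nsmul_eq_mul] at h1
  have h5 := E2_log ((S.card : ℝ) / A.card) (by positivity)
  have h6 : (A.card : ℝ) * Real.logb 2 (S.card / A.card) ≤ S.card := by
    calc (A.card : ℝ) * Real.logb 2 (S.card / A.card) ≤ A.card * (S.card / A.card) :=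
          mul_le_mul_of_nonneg_left h5 hA1.le
      _ = S.card := by field_simp
  linarith

open Classical in
/-- JOB E2.  Truncation.  `X` takes at most `2^N` values on `S`, `h = ent S X`.  The part of `S` where
`P(X = X p) ≤ 2^(-(h-t))` has proportion `P ≥ (t-1)/(N-h+t)`.
Proof: `h = avg of log2(1/p(X))`; on the complement `log2 (1/p) < h - t`; on the set itself the average of `log2(1/p)` is
`≤ P N + P log2(1/P) ≤ P N + 1` (concavity of `log`, at most `2^N` values; `P log2 (1/P) ≤ 1`).  So `h ≤ (1-P)(h-t) + P N + 1`,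
i.e. `t - 1 ≤ P (N - h + t)`. -/
theorem ent_trunc {S : Finset ι} (hS : S.Nonempty) (X : ι → κ1) (N : ℕ)
    (hN : (S.image X).card ≤ 2 ^ N) (t : ℝ) (ht : 1 ≤ t) :
    (t - 1) / (N - ent S X + t) ≤
      ((S.filter (fun p => ((S.filter (fun x => X x = X p)).card : ℝ) ≤
        (S.card : ℝ) / (2 : ℝ) ^ (ent S X - t))).card : ℝ) / S.card := by
  have hS0 : (0 : ℝ) < S.card := by exact_mod_cast hS.card_pos
  have hhN := ent_le_N hS X N hN
  set h := ent S X with hh
  set A := S.filter (fun p => ((S.filter (fun x => X x = X p)).card : ℝ) ≤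
        (S.card : ℝ) / (2 : ℝ) ^ (h - t)) with hAdef
  have hAS : A ⊆ S := filter_subset _ _
  have h1 := E2_sum hS X N hN A hAS
  have h2 : ∑ p ∈ S \ A, Real.logb 2 ((S.card : ℝ) / ((S.filter (fun x => X x = X p)).card : ℝ)) ≤
      (S \ A).card * (h - t) := by
    rw [← nsmul_eq_mul, ← sum_const]
    apply sum_le_sum
    intro p hp
    rw [mem_sdiff] at hp
    have hn : (0 : ℝ) < ((S.filter (fun x => X x = X p)).card : ℝ) := by
      exact_mod_cast entA_fib_pos X hp.1
    have h3 : (S.card : ℝ) / (2 : ℝ) ^ (h - t) < ((S.filter (fun x => X x = X p)).card : ℝ) := by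
      by_contra hcon
      exact hp.2 (mem_filter.2 ⟨hp.1, not_lt.1 hcon⟩)
    have h4 : (0 : ℝ) < (2 : ℝ) ^ (h - t) := by positivity
    rw [div_lt_iff₀ h4] at h3
    rw [Real.logb_le_iff_le_rpow (by norm_num) (div_pos hS0 hn), div_le_iff₀ hn]
    linarith
  have h3 : ∑ p ∈ S, Real.logb 2 ((S.card : ℝ) / ((S.filter (fun x => X x = X p)).card : ℝ)) =
      h * S.card := by
    rw [hh]
    unfold ent
    rw [div_mul_cancel₀ _ hS0.ne']
  have h4 := sum_sdiff hAS (f := fun p =>
    Real.logb 2 ((S.card : ℝ) / ((S.filter (fun x => X x = X p)).card : ℝ)))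
  have h5 : ((S \ A).card : ℝ) = S.card - A.card := by
    rw [card_sdiff_of_subset hAS, Nat.cast_sub (card_le_card hAS)]
  rw [h5] at h2
  rw [div_le_div_iff₀ (by linarith) hS0]
  nlinarith

end MP_5e4520_nt.Ex
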