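import Pool.Agent.Lib.MP_5e4520_ntE.FDefs
set_option autoImplicit false

namespace MP_5e4520_nt.Ex

open Finset

private theorem F1_aux {ι : Type*} (s : Finset ι) (f χ : ι → ℝ) (g : ι → ℂ)
    (p : ∀ i ∈ s, 0 ≤ χ i) (h : ∀ i ∈ s, f i ≠ 0 → 1 ≤ χ i) :
    ‖∑ i ∈ s, (f i : ℂ) * g i‖ ^ 2 ≤ (∑ i ∈ s, f i ^ 2) * ∑ i ∈ s, χ i * ‖g i‖ ^ 2 := by
  have h1 : ‖∑ i ∈ s, (f i : ℂ) * g i‖ ≤ ∑ i ∈ s, |f i| * (Real.sqrt (χ i) * ‖g i‖) := by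
    refine (norm_sum_le _ _).trans (Finset.sum_le_sum fun i hi => ?_)
    rw [norm_mul, Complex.norm_real, Real.norm_eq_abs]
    by_cases hf : f i = 0
    · simp [hf]
    · have h2 : 1 ≤ Real.sqrt (χ i) := Real.one_le_sqrt.mpr (h i hi hf)
      have h3 : ‖g i‖ ≤ Real.sqrt (χ i) * ‖g i‖ := by nlinarith [norm_nonneg (g i)]
      exact mul_le_mul_of_nonneg_left h3 (abs_nonneg _)
  have h4 : (∑ i ∈ s, |f i| * (Real.sqrt (χ i) * ‖g i‖)) ^ 2 ≤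
      (∑ i ∈ s, |f i| ^ 2) * ∑ i ∈ s, (Real.sqrt (χ i) * ‖g i‖) ^ 2 :=
    Finset.sum_mul_sq_le_sq_mul_sq _ _ _
  have h5 : ∑ i ∈ s, |f i| ^ 2 = ∑ i ∈ s, f i ^ 2 :=
    Finset.sum_congr rfl fun i _ => sq_abs _
  have h6 : ∑ i ∈ s, (Real.sqrt (χ i) * ‖g i‖) ^ 2 = ∑ i ∈ s, χ i * ‖g i‖ ^ 2 :=
    Finset.sum_congr rfl fun i hi => by rw [mul_pow, Real.sq_sqrt (p i hi)]
  rw [h5, h6] at h4
  exact (pow_le_pow_left₀ (norm_nonneg _) h1 2).trans h4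

/-- JOB F1.  Cauchy-Schwarz twice.  `S = ∑_a f1 a g a`, `g a = ∑_b f3 b M a b`:
`|S|² ≤ ∑ f1² · ∑_{a : f1 a ≠ 0} |g|² ≤ ∑ f1² · ∑_a χ1 |g|²`, and `∑_a χ1 |g|² = ∑_{b,b'} f3 b f3 b' C(b,b')`,
`C(b,b') = ∑_a χ1 a M a b conj(M a b')`, `≤ (∑ f3²)(∑_{b,b'} χ3 χ3' |C|²)^{1/2}`. -/
theorem cs4 (I J : Finset ℕ) (f1 f3 χ1 χ3 : ℕ → ℝ) (M : ℕ → ℕ → ℂ)
    (p1 : ∀ a ∈ I, 0 ≤ χ1 a) (p3 : ∀ b ∈ J, 0 ≤ χ3 b)
    (h1 : ∀ a ∈ I, f1 a ≠ 0 → 1 ≤ χ1 a) (h3 : ∀ b ∈ J, f3 b ≠ 0 → 1 ≤ χ3 b) :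
    ‖∑ a ∈ I, ∑ b ∈ J, (f1 a : ℂ) * (f3 b : ℂ) * M a b‖ ^ 4 ≤
      (∑ a ∈ I, f1 a ^ 2) ^ 2 * (∑ b ∈ J, f3 b ^ 2) ^ 2 *
      ∑ b ∈ J, ∑ b' ∈ J, χ3 b * χ3 b' *
        ‖∑ a ∈ I, (χ1 a : ℂ) * M a b * (starRingEnd ℂ) (M a b')‖ ^ 2 := by
  set g : ℕ → ℂ := fun a => ∑ b ∈ J, (f3 b : ℂ) * M a b with hg
  set C : ℕ → ℕ → ℂ := fun b b' => ∑ a ∈ I, (χ1 a : ℂ) * M a b * (starRingEnd ℂ) (M a b') with hC
  have e1 : ∑ a ∈ I, ∑ b ∈ J, (f1 a : ℂ) * (f3 b : ℂ) * M a b = ∑ a ∈ I, (f1 a : ℂ) * g a := by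
    refine Finset.sum_congr rfl fun a _ => ?_
    rw [hg, Finset.mul_sum]
    exact Finset.sum_congr rfl fun b _ => by ring
  have s1 : ‖∑ a ∈ I, (f1 a : ℂ) * g a‖ ^ 2 ≤
      (∑ a ∈ I, f1 a ^ 2) * ∑ a ∈ I, χ1 a * ‖g a‖ ^ 2 := F1_aux I f1 χ1 g p1 h1
  set P : ℝ := ∑ a ∈ I, χ1 a * ‖g a‖ ^ 2 with hP
  have hP0 : 0 ≤ P := Finset.sum_nonneg fun a ha => mul_nonneg (p1 a ha) (by positivity)
  -- expansion of P
  have e2 : (P : ℂ) = ∑ x ∈ J ×ˢ J, ((f3 x.1 * f3 x.2 : ℝ) : ℂ) * C x.1 x.2 := by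
    rw [hP, Finset.sum_product]
    push_cast
    have e3 : ∀ a, ((‖g a‖ : ℂ)) ^ 2 = ∑ b ∈ J, ∑ b' ∈ J, (f3 b : ℂ) * (f3 b' : ℂ) *
        (M a b * (starRingEnd ℂ) (M a b')) := by
      intro a
      rw [← Complex.mul_conj']
      rw [hg]
      simp only [map_sum, map_mul, Complex.conj_ofReal]
      rw [Finset.sum_mul]
      refine Finset.sum_congr rfl fun b _ => ?_
      rw [Finset.mul_sum]
      exact Finset.sum_congr rfl fun b' _ => by ring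
    calc ∑ a ∈ I, (χ1 a : ℂ) * (‖g a‖ : ℂ) ^ 2
        = ∑ a ∈ I, ∑ b ∈ J, ∑ b' ∈ J, (f3 b : ℂ) * (f3 b' : ℂ) *
            ((χ1 a : ℂ) * M a b * (starRingEnd ℂ) (M a b')) := by
          refine Finset.sum_congr rfl fun a _ => ?_
          rw [e3, Finset.mul_sum]
          refine Finset.sum_congr rfl fun b _ => ?_
          rw [Finset.mul_sum]
          exact Finset.sum_congr rfl fun b' _ => by ring
      _ = ∑ b ∈ J, ∑ b' ∈ J, (f3 b : ℂ) * (f3 b' : ℂ) * C b b' := by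
          rw [Finset.sum_comm]
          refine Finset.sum_congr rfl fun b _ => ?_
          rw [Finset.sum_comm]
          refine Finset.sum_congr rfl fun b' _ => ?_
          rw [hC, Finset.mul_sum]
  have s2 : P ^ 2 ≤ (∑ x ∈ J ×ˢ J, (f3 x.1 * f3 x.2) ^ 2) *
      ∑ x ∈ J ×ˢ J, (χ3 x.1 * χ3 x.2) * ‖C x.1 x.2‖ ^ 2 := by
    have := F1_aux (J ×ˢ J) (fun x => f3 x.1 * f3 x.2) (fun x => χ3 x.1 * χ3 x.2)
      (fun x => C x.1 x.2)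
      (fun x hx => mul_nonneg (p3 _ (Finset.mem_product.mp hx).1) (p3 _ (Finset.mem_product.mp hx).2))
      (fun x hx hne => by
        have ha := h3 _ (Finset.mem_product.mp hx).1 (left_ne_zero_of_mul hne)
        have hb := h3 _ (Finset.mem_product.mp hx).2 (right_ne_zero_of_mul hne)
        nlinarith)
    rw [← e2, Complex.norm_real, Real.norm_eq_abs, sq_abs] at this
    exact this
  have e4 : ∑ x ∈ J ×ˢ J, (f3 x.1 * f3 x.2) ^ 2 = (∑ b ∈ J, f3 b ^ 2) ^ 2 := by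
    rw [Finset.sum_product, sq (∑ b ∈ J, f3 b ^ 2), Finset.sum_mul]
    refine Finset.sum_congr rfl fun b _ => ?_
    rw [Finset.mul_sum]
    exact Finset.sum_congr rfl fun b' _ => by ring
  rw [e4, Finset.sum_product] at s2
  rw [e1]
  calc ‖∑ a ∈ I, (f1 a : ℂ) * g a‖ ^ 4 = (‖∑ a ∈ I, (f1 a : ℂ) * g a‖ ^ 2) ^ 2 := by ring
    _ ≤ ((∑ a ∈ I, f1 a ^ 2) * P) ^ 2 := pow_le_pow_left₀ (by positivity) s1 2
    _ = (∑ a ∈ I, f1 a ^ 2) ^ 2 * P ^ 2 := by ring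
    _ ≤ (∑ a ∈ I, f1 a ^ 2) ^ 2 * ((∑ b ∈ J, f3 b ^ 2) ^ 2 *
          ∑ b ∈ J, ∑ b' ∈ J, (χ3 b * χ3 b') * ‖C b b'‖ ^ 2) :=
        mul_le_mul_of_nonneg_left s2 (by positivity)
    _ = _ := by ring

private theorem F1_C (s ks ls α0 : ℕ) (T : ℤ) (N : Finset (ℤ × ℤ)) (c : ℤ × ℤ → ℂ) (b b' : ℕ) :
    ∑ a ∈ range (QA s ks ls), (chA s ks ls α0 a : ℂ) * (∑ D ∈ N, c D * psi s ks ls T D a b) *
          (starRingEnd ℂ) (∑ D ∈ N, c D * psi s ks ls T D a b') =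
      ∑ D1 ∈ N, ∑ D2 ∈ N, (c D1 * (starRingEnd ℂ) (c D2)) *
        ∑ a ∈ range (QA s ks ls), (chA s ks ls α0 a : ℂ) * psi s ks ls T D1 a b *
          (starRingEnd ℂ) (psi s ks ls T D2 a b') := by
  have h1 : ∀ a, (chA s ks ls α0 a : ℂ) * (∑ D ∈ N, c D * psi s ks ls T D a b) *
          (starRingEnd ℂ) (∑ D ∈ N, c D * psi s ks ls T D a b') =
      ∑ D1 ∈ N, ∑ D2 ∈ N, (c D1 * (starRingEnd ℂ) (c D2)) *
        ((chA s ks ls α0 a : ℂ) * psi s ks ls T D1 a b *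
          (starRingEnd ℂ) (psi s ks ls T D2 a b')) := by
    intro a
    rw [map_sum, mul_assoc, Finset.sum_mul_sum, Finset.mul_sum]
    refine Finset.sum_congr rfl fun D1 _ => ?_
    rw [Finset.mul_sum]
    refine Finset.sum_congr rfl fun D2 _ => ?_
    rw [map_mul]
    ring
  simp only [h1]
  rw [Finset.sum_comm]
  refine Finset.sum_congr rfl fun D1 _ => ?_
  rw [Finset.sum_comm]
  refine Finset.sum_congr rfl fun D2 _ => ?_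
  rw [Finset.mul_sum]

/-- Expansion of the fourfold sum. `M a b = ∑_{D ∈ N} c D ψ D a b`, `|c| ≤ 1`:
`|C(b,b')|² = C conj(C) = ∑_{D1,D2,D3,D4} c1 conj(c2) conj(c3) c4 (...)`; exchange the sums over `b,b'` and over the `D`s. -/
theorem t4_expand (s ks ls α0 β0 : ℕ) (T : ℤ) (N : Finset (ℤ × ℤ)) (c : ℤ × ℤ → ℂ)
    (hc : ∀ D, ‖c D‖ ≤ 1) :
    ∑ b ∈ range (QB s ks ls), ∑ b' ∈ range (QB s ks ls), chB s ks ls β0 b * chB s ks ls β0 b' *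
        ‖∑ a ∈ range (QA s ks ls), (chA s ks ls α0 a : ℂ) * (∑ D ∈ N, c D * psi s ks ls T D a b) *
          (starRingEnd ℂ) (∑ D ∈ N, c D * psi s ks ls T D a b')‖ ^ 2 ≤
      ∑ D1 ∈ N, ∑ D2 ∈ N, ∑ D3 ∈ N, ∑ D4 ∈ N, ‖I4 s ks ls α0 β0 T D1 D2 D3 D4‖ := by
  set X : ℤ × ℤ → ℤ × ℤ → ℕ → ℕ → ℂ := fun D1 D2 b b' =>
    ∑ a ∈ range (QA s ks ls), (chA s ks ls α0 a : ℂ) * psi s ks ls T D1 a b *
          (starRingEnd ℂ) (psi s ks ls T D2 a b') with hX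
  set R := range (QB s ks ls) with hR
  have hI4 : ∀ D1 D2 D3 D4, I4 s ks ls α0 β0 T D1 D2 D3 D4 = ∑ b ∈ R, ∑ b' ∈ R,
      (chB s ks ls β0 b : ℂ) * (chB s ks ls β0 b' : ℂ) *
        (X D1 D2 b b' * (starRingEnd ℂ) (X D3 D4 b b')) := by
    intro D1 D2 D3 D4
    rfl
  have hval : ((∑ b ∈ R, ∑ b' ∈ R, chB s ks ls β0 b * chB s ks ls β0 b' *
        ‖∑ a ∈ range (QA s ks ls), (chA s ks ls α0 a : ℂ) * (∑ D ∈ N, c D * psi s ks ls T D a b) *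
          (starRingEnd ℂ) (∑ D ∈ N, c D * psi s ks ls T D a b')‖ ^ 2 : ℝ) : ℂ) =
      ∑ D1 ∈ N, ∑ D2 ∈ N, ∑ D3 ∈ N, ∑ D4 ∈ N,
        (c D1 * (starRingEnd ℂ) (c D2) * ((starRingEnd ℂ) (c D3) * c D4)) *
          I4 s ks ls α0 β0 T D1 D2 D3 D4 := by
    have e1 : ∀ b b', ((‖∑ a ∈ range (QA s ks ls), (chA s ks ls α0 a : ℂ) *
          (∑ D ∈ N, c D * psi s ks ls T D a b) *
          (starRingEnd ℂ) (∑ D ∈ N, c D * psi s ks ls T D a b')‖ : ℂ)) ^ 2 =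
        ∑ D1 ∈ N, ∑ D2 ∈ N, ∑ D3 ∈ N, ∑ D4 ∈ N,
        (c D1 * (starRingEnd ℂ) (c D2) * ((starRingEnd ℂ) (c D3) * c D4)) *
          (X D1 D2 b b' * (starRingEnd ℂ) (X D3 D4 b b')) := by
      intro b b'
      rw [← Complex.mul_conj', F1_C]
      change (∑ D1 ∈ N, ∑ D2 ∈ N, (c D1 * (starRingEnd ℂ) (c D2)) * X D1 D2 b b') *
        (starRingEnd ℂ) (∑ D3 ∈ N, ∑ D4 ∈ N, (c D3 * (starRingEnd ℂ) (c D4)) * X D3 D4 b b') = _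
      rw [Finset.sum_mul]
      refine Finset.sum_congr rfl fun D1 _ => ?_
      rw [Finset.sum_mul]
      refine Finset.sum_congr rfl fun D2 _ => ?_
      simp only [map_sum, map_mul, Complex.conj_conj]
      rw [Finset.mul_sum]
      refine Finset.sum_congr rfl fun D3 _ => ?_
      rw [Finset.mul_sum]
      refine Finset.sum_congr rfl fun D4 _ => ?_
      ring
    push_cast
    calc _ = ∑ b ∈ R, ∑ b' ∈ R, ∑ D1 ∈ N, ∑ D2 ∈ N, ∑ D3 ∈ N, ∑ D4 ∈ N,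
        (c D1 * (starRingEnd ℂ) (c D2) * ((starRingEnd ℂ) (c D3) * c D4)) *
        ((chB s ks ls β0 b : ℂ) * (chB s ks ls β0 b' : ℂ) *
          (X D1 D2 b b' * (starRingEnd ℂ) (X D3 D4 b b'))) := by
          refine Finset.sum_congr rfl fun b _ => Finset.sum_congr rfl fun b' _ => ?_
          rw [e1, Finset.mul_sum]
          refine Finset.sum_congr rfl fun D1 _ => ?_
          rw [Finset.mul_sum]
          refine Finset.sum_congr rfl fun D2 _ => ?_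
          rw [Finset.mul_sum]
          refine Finset.sum_congr rfl fun D3 _ => ?_
          rw [Finset.mul_sum]
          refine Finset.sum_congr rfl fun D4 _ => ?_
          ring
      _ = ∑ x ∈ R ×ˢ R, ∑ y ∈ N ×ˢ (N ×ˢ (N ×ˢ N)),
        (c y.1 * (starRingEnd ℂ) (c y.2.1) * ((starRingEnd ℂ) (c y.2.2.1) * c y.2.2.2)) *
        ((chB s ks ls β0 x.1 : ℂ) * (chB s ks ls β0 x.2 : ℂ) *
          (X y.1 y.2.1 x.1 x.2 * (starRingEnd ℂ) (X y.2.2.1 y.2.2.2 x.1 x.2))) := by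
          simp only [Finset.sum_product]
      _ = ∑ y ∈ N ×ˢ (N ×ˢ (N ×ˢ N)), ∑ x ∈ R ×ˢ R,
        (c y.1 * (starRingEnd ℂ) (c y.2.1) * ((starRingEnd ℂ) (c y.2.2.1) * c y.2.2.2)) *
        ((chB s ks ls β0 x.1 : ℂ) * (chB s ks ls β0 x.2 : ℂ) *
          (X y.1 y.2.1 x.1 x.2 * (starRingEnd ℂ) (X y.2.2.1 y.2.2.2 x.1 x.2))) :=
          Finset.sum_comm
      _ = _ := by
          simp only [Finset.sum_product]
          refine Finset.sum_congr rfl fun D1 _ => Finset.sum_congr rfl fun D2 _ =>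
            Finset.sum_congr rfl fun D3 _ => Finset.sum_congr rfl fun D4 _ => ?_
          rw [hI4, Finset.mul_sum]
          refine Finset.sum_congr rfl fun b _ => ?_
          rw [Finset.mul_sum]
  refine (le_abs_self _).trans ?_
  rw [← Real.norm_eq_abs, ← Complex.norm_real, hval]
  refine (norm_sum_le _ _).trans (Finset.sum_le_sum fun D1 _ => ?_)
  refine (norm_sum_le _ _).trans (Finset.sum_le_sum fun D2 _ => ?_)
  refine (norm_sum_le _ _).trans (Finset.sum_le_sum fun D3 _ => ?_)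
  refine (norm_sum_le _ _).trans (Finset.sum_le_sum fun D4 _ => ?_)
  rw [norm_mul]
  have hb : ‖c D1 * (starRingEnd ℂ) (c D2) * ((starRingEnd ℂ) (c D3) * c D4)‖ ≤ 1 := by
    rw [norm_mul, norm_mul, norm_mul, RCLike.norm_conj, RCLike.norm_conj]
    have a1 := hc D1
    have a2 := hc D2
    have a3 := hc D3
    have a4 := hc D4
    have b1 : ‖c D1‖ * ‖c D2‖ ≤ 1 := mul_le_one₀ a1 (norm_nonneg _) a2
    have b2 : ‖c D3‖ * ‖c D4‖ ≤ 1 := mul_le_one₀ a3 (norm_nonneg _) a4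
    exact mul_le_one₀ b1 (by positivity) b2
  calc _ ≤ 1 * ‖I4 s ks ls α0 β0 T D1 D2 D3 D4‖ := mul_le_mul_of_nonneg_right hb (norm_nonneg _)
    _ = _ := one_mul _

end MP_5e4520_nt.Ex
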