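import Pool.Agent.Lib.MP_5e4520_ntE.FDefs
set_option autoImplicit false

namespace MP_5e4520_nt.Ex

open Finset

open Classical in
/-- JOB F9.  Non core part: each `f1 A f3 B ≤ 2^(2s)/2^(2 n1)`, the inner sum is at most `Ync` (its `(k,l,lb)` term), `GenF.gt`:
`≤ 2^(2s) 2^(-30s)`. -/
theorem noncore_le (s ks ls α0 β0 : ℕ) (hs : 200 ≤ s) (hp : ParF s ks ls)
    (hg : GenF s ks ls α0 β0) (k l lb : ℕ) (hk1 : ks + (Gc - 1) * s ≤ k) (hk2 : k ≤ ks + (Gc + 1) * s)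
    (hl1 : ls + (Gc - 1) * s ≤ l) (hl2 : l ≤ ls + (Gc + 1) * s)
    (hb1 : ks + ls + (2 * Gc - 22) * s ≤ lb) (hb2 : lb ≤ ks + ls + (2 * Gc - 11) * s)
    (f1 f3 : ℕ → ℝ) (hf1 : Dens s f1) (hf3 : Dens s f3) :
    ∑ A ∈ range (2 ^ ((3 * Gc + 100) * s)), ∑ B ∈ range (2 ^ ((3 * Gc + 100) * s)), f1 A * f3 B *
      ∑ h ∈ SR (QA s ks ls), ∑ h' ∈ SR (QB s ks ls),
        (if (h ≠ 0 ∨ h' ≠ 0) ∧ ¬ (coreR s ks h ∧ coreR s ls h') then
          ct (QA s ks ls / 2 ^ k) (QA s ks ls) h * ct (QB s ks ls / 2 ^ l) (QB s ks ls) h' *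
          fej (2 ^ lb) (ph s ks ls h h' (α0 * 2 ^ ((3 * Gc + 100) * s) + A)
            (β0 * 2 ^ ((3 * Gc + 100) * s) + B))
        else 0) ≤ 1 / 2 ^ (28 * s) := by
  set n1 : ℕ := (3 * Gc + 100) * s with hn1
  set T : ℕ → ℕ → ℕ → ℕ → ℕ → ℝ := fun k l lb a b =>
    ∑ h ∈ SR (QA s ks ls), ∑ h' ∈ SR (QB s ks ls),
        (if (h ≠ 0 ∨ h' ≠ 0) ∧ ¬ (coreR s ks h ∧ coreR s ls h') then
          ct (QA s ks ls / 2 ^ k) (QA s ks ls) h * ct (QB s ks ls / 2 ^ l) (QB s ks ls) h' *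
          fej (2 ^ lb) ((h : ℝ) * a / QA s ks ls + (h' : ℝ) * b / QB s ks ls)
        else 0) with hT
  have hT0 : ∀ k l lb a b, 0 ≤ T k l lb a b := by
    intro k l lb a b
    refine Finset.sum_nonneg fun h _ => Finset.sum_nonneg fun h' _ => ?_
    split_ifs
    · exact mul_nonneg (mul_nonneg (ct_nonneg _ _ _) (ct_nonneg _ _ _)) (fej_nonneg _ _)
    · exact le_rfl
  have hTY : ∀ a b, T k l lb a b ≤ Ync s ks ls a b := by
    intro a b
    have e : Ync s ks ls a b = ∑ k ∈ Icc (ks + (Gc - 1) * s) (ks + (Gc + 1) * s),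
        ∑ l ∈ Icc (ls + (Gc - 1) * s) (ls + (Gc + 1) * s),
        ∑ lb ∈ Icc (ks + ls + (2 * Gc - 22) * s) (ks + ls + (2 * Gc - 11) * s), T k l lb a b := rfl
    rw [e]
    calc T k l lb a b
        ≤ ∑ lb ∈ Icc (ks + ls + (2 * Gc - 22) * s) (ks + ls + (2 * Gc - 11) * s), T k l lb a b :=
          Finset.single_le_sum (f := fun lb => T k l lb a b) (fun _ _ => hT0 _ _ _ _ _)
            (Finset.mem_Icc.2 ⟨hb1, hb2⟩)
      _ ≤ ∑ l ∈ Icc (ls + (Gc - 1) * s) (ls + (Gc + 1) * s),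
          ∑ lb ∈ Icc (ks + ls + (2 * Gc - 22) * s) (ks + ls + (2 * Gc - 11) * s), T k l lb a b :=
          Finset.single_le_sum (f := fun l =>
            ∑ lb ∈ Icc (ks + ls + (2 * Gc - 22) * s) (ks + ls + (2 * Gc - 11) * s), T k l lb a b)
            (fun _ _ => Finset.sum_nonneg fun _ _ => hT0 _ _ _ _ _)
            (Finset.mem_Icc.2 ⟨hl1, hl2⟩)
      _ ≤ ∑ k ∈ Icc (ks + (Gc - 1) * s) (ks + (Gc + 1) * s),
          ∑ l ∈ Icc (ls + (Gc - 1) * s) (ls + (Gc + 1) * s),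
          ∑ lb ∈ Icc (ks + ls + (2 * Gc - 22) * s) (ks + ls + (2 * Gc - 11) * s), T k l lb a b :=
          Finset.single_le_sum (f := fun k => ∑ l ∈ Icc (ls + (Gc - 1) * s) (ls + (Gc + 1) * s),
            ∑ lb ∈ Icc (ks + ls + (2 * Gc - 22) * s) (ks + ls + (2 * Gc - 11) * s), T k l lb a b)
            (fun _ _ => Finset.sum_nonneg fun _ _ => Finset.sum_nonneg fun _ _ => hT0 _ _ _ _ _)
            (Finset.mem_Icc.2 ⟨hk1, hk2⟩)
  have hgt := hg.gt
  rw [← hn1] at hgt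
  have e2 : 2 * (3 * Gc + 100) * s = n1 + n1 := by rw [hn1]; ring
  rw [e2] at hgt
  set c : ℝ := 2 ^ s / 2 ^ n1 with hc
  have hc0 : 0 ≤ c := by positivity
  calc ∑ A ∈ range (2 ^ n1), ∑ B ∈ range (2 ^ n1), f1 A * f3 B *
        T k l lb (α0 * 2 ^ n1 + A) (β0 * 2 ^ n1 + B)
      ≤ ∑ A ∈ range (2 ^ n1), ∑ B ∈ range (2 ^ n1), c * c *
        Ync s ks ls (α0 * 2 ^ n1 + A) (β0 * 2 ^ n1 + B) := by
        refine Finset.sum_le_sum fun A _ => Finset.sum_le_sum fun B _ => ?_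
        refine mul_le_mul ?_ (hTY _ _) (hT0 _ _ _ _ _) (mul_nonneg hc0 hc0)
        exact mul_le_mul (hf1.sup A) (hf3.sup B) (hf3.nn B) hc0
    _ = c * c * ∑ A ∈ range (2 ^ n1), ∑ B ∈ range (2 ^ n1),
        Ync s ks ls (α0 * 2 ^ n1 + A) (β0 * 2 ^ n1 + B) := by
        simp only [Finset.mul_sum]
    _ ≤ c * c * ((2 : ℝ) ^ (n1 + n1) / 2 ^ (30 * s)) :=
        mul_le_mul_of_nonneg_left hgt (mul_nonneg hc0 hc0)
    _ = 1 / 2 ^ (28 * s) := by
        have e3 : 30 * s = 28 * s + (s + s) := by ring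
        rw [hc, e3, pow_add, pow_add, pow_add]
        have p1 : (0 : ℝ) < 2 ^ n1 := by positivity
        have p2 : (0 : ℝ) < 2 ^ s := by positivity
        have p3 : (0 : ℝ) < 2 ^ (28 * s) := by positivity
        field_simp

/-- the shell of a number in `(2^g/R, 1]` -/
private theorem f9_shell (g r : ℕ) (v : ℝ) (h1 : (2 : ℝ) ^ g / 2 ^ r < v) (h2 : v ≤ 1) :
    ∃ i ∈ range (r + 1), (2 : ℝ) ^ (i + g) / 2 ^ r < v ∧ v ≤ (2 : ℝ) ^ (i + 1 + g) / 2 ^ r := by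
  have hr : (0 : ℝ) < 2 ^ r := by positivity
  have hex : ∃ j, v ≤ (2 : ℝ) ^ (j + g) / 2 ^ r := by
    refine ⟨r, h2.trans ?_⟩
    rw [le_div_iff₀ hr, one_mul]
    exact pow_le_pow_right₀ (by norm_num) (Nat.le_add_right _ _)
  classical
  obtain ⟨j, hj, hmin⟩ : ∃ j, v ≤ (2 : ℝ) ^ (j + g) / 2 ^ r ∧ ∀ i < j,
      ¬ v ≤ (2 : ℝ) ^ (i + g) / 2 ^ r :=
    ⟨Nat.find hex, Nat.find_spec hex, fun i hi => Nat.find_min hex hi⟩
  have hj0 : j ≠ 0 := by
    rintro rfl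
    rw [Nat.zero_add] at hj
    linarith
  have hjr : j ≤ r := by
    by_contra hcon
    push Not at hcon
    refine hmin r hcon (h2.trans ?_)
    rw [le_div_iff₀ hr, one_mul]
    exact pow_le_pow_right₀ (by norm_num) (Nat.le_add_right _ _)
  obtain ⟨i, rfl⟩ := Nat.exists_eq_succ_of_ne_zero hj0
  refine ⟨i, Finset.mem_range.2 (by omega), ?_, hj⟩
  have := hmin i (Nat.lt_succ_self i)
  push Not at this
  exact this

/-- the difference of the phase and the coarse phase -/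
private theorem f9_diff (h : ℤ) (α A n u : ℕ) (hA : A < 2 ^ n) (k g : ℕ)
    (hh : |h| ≤ (2 : ℤ) ^ (k + g)) :
    |(h : ℝ) * ((α * 2 ^ n + A : ℕ) : ℝ) / ((2 ^ (u + n) : ℕ) : ℝ) - (h : ℝ) * (α / 2 ^ u)| ≤
      2 ^ (k + g) / 2 ^ u := by
  have p1 : (0 : ℝ) < 2 ^ n := by positivity
  have p2 : (0 : ℝ) < 2 ^ u := by positivity
  have e : (h : ℝ) * ((α * 2 ^ n + A : ℕ) : ℝ) / ((2 ^ (u + n) : ℕ) : ℝ) - (h : ℝ) * (α / 2 ^ u) =
      h * (A / 2 ^ n / 2 ^ u) := by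
    push_cast
    rw [pow_add]
    field_simp
    ring
  rw [e, abs_mul]
  have h1 : |(h : ℝ)| ≤ 2 ^ (k + g) := by exact_mod_cast hh
  have h2 : |((A : ℝ) / 2 ^ n / 2 ^ u)| ≤ 1 / 2 ^ u := by
    rw [abs_of_nonneg (by positivity)]
    gcongr
    rw [div_le_one p1]
    exact_mod_cast hA.le
  calc |(h : ℝ)| * |((A : ℝ) / 2 ^ n / 2 ^ u)| ≤ 2 ^ (k + g) * (1 / 2 ^ u) :=
        mul_le_mul h1 h2 (abs_nonneg _) (by positivity)
    _ = 2 ^ (k + g) / 2 ^ u := by ring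

private theorem f9_nd_abs (t : ℝ) : nd t ≤ |t| := by
  have := nd_le t 0
  simpa using this

private theorem f9_Ap : 10 ≤ Ap := by unfold Ap; norm_num

/-- decay of the window kernel -/
private theorem f9_WK (s ks ls i : ℕ) (θ : ℝ)
    (h : (2 : ℝ) ^ (i + 4 * Gc * s) / 2 ^ (ks + ls) / 2 ≤ nd θ) :
    WK s ks ls θ ≤ 1 / 2 ^ (20 * ((5 * Gc - 1100) * s + i)) := by
  have hn : 0 < nw s ks ls := by unfold nw; positivity
  have hnd : 0 < nd θ := lt_of_lt_of_le (by positivity) h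
  have hx : (5 * Gc - 1100) * s + i = (Gc - 1100) * s + (i + 4 * Gc * s) := by
    unfold Gc; omega
  set x : ℕ := (5 * Gc - 1100) * s + i with hxd
  have h1 := fejn_dec (nw s ks ls) hn θ hnd
  have h2 : (2 : ℝ) ^ x ≤ 2 * ((nw s ks ls : ℝ) * nd θ) := by
    have e : (nw s ks ls : ℝ) = 2 ^ (ks + ls) * 2 ^ ((Gc - 1100) * s) := by
      unfold nw; push_cast; rw [pow_add]
    have p : (0 : ℝ) < 2 ^ (ks + ls) := by positivity
    calc (2 : ℝ) ^ x = 2 * (2 ^ (ks + ls) * 2 ^ ((Gc - 1100) * s) *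
          ((2 : ℝ) ^ (i + 4 * Gc * s) / 2 ^ (ks + ls) / 2)) := by
          rw [hx, pow_add]
          field_simp
      _ ≤ 2 * ((nw s ks ls : ℝ) * nd θ) := by
          rw [e]
          gcongr
  have h3 : fej (nw s ks ls) θ / nw s ks ls ≤ 1 / 2 ^ (2 * x) := by
    refine h1.trans ?_
    apply one_div_le_one_div_of_le (by positivity)
    calc (2 : ℝ) ^ (2 * x) = (2 ^ x) ^ 2 := by rw [← pow_mul, mul_comm]
      _ ≤ (2 * ((nw s ks ls : ℝ) * nd θ)) ^ 2 := by gcongr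
      _ = 4 * (nw s ks ls : ℝ) ^ 2 * nd θ ^ 2 := by ring
  have h4 := (fejn_bds (nw s ks ls) θ).1
  unfold WK
  calc (fej (nw s ks ls) θ / nw s ks ls) ^ Ap ≤ (1 / 2 ^ (2 * x)) ^ Ap :=
        pow_le_pow_left₀ h4 h3 _
    _ ≤ (1 / 2 ^ (2 * x)) ^ 10 := by
        refine pow_le_pow_of_le_one (by positivity) ?_ f9_Ap
        rw [div_le_one (by positivity)]
        exact one_le_pow₀ (by norm_num)
    _ = 1 / 2 ^ (20 * x) := by
        rw [div_pow, one_pow, ← pow_mul]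
        congr 2
        ring

private theorem f9_arith (s i : ℕ) (hs : 200 ≤ s) :
    12 * Gc * s + 2 * (i + 1) + (2 * s + (i + 1)) ≤ 20 * ((5 * Gc - 1100) * s + i) := by
  unfold Gc; omega

open Classical in
/-- Far part: core frequencies with `‖h x0 + h' y0‖ > 2^(4Gs-rs)`.  For `(a,b)` in the cell
`|ph - (h x0 + h' y0)| ≤ |h|/2^us + |h'|/2^vs ≤ 2·2^((G+60)s - rs) ≤ ‖h x0+h'y0‖/2`, so `‖ph‖ ≥ ‖h x0 + h'y0‖/2`.  Shells
`2^(i+4Gs-rs) < ‖h x0 + h' y0‖ ≤ 2^(i+1+4Gs-rs)`, `i ≥ 0`: at most `2^(12Gs+2i+2)` frequencies (`GenF.gi`), and there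
`WK ≤ (1/(4 n² ‖ph‖²))^Ap`, `n‖ph‖ ≥ 2^((5G-1100)s+i-1)`, so `WK ≤ 2^(-6000((5G-1100)s+i-1))`, hence `∑ ≤ 2^(-48s)`-small;
`ct ct' ≤ 2^(-k-l)` (`ct_le`), `fej ≤ 2^lb`. -/
theorem far_le (s ks ls α0 β0 : ℕ) (hs : 200 ≤ s) (hp : ParF s ks ls)
    (hg : GenF s ks ls α0 β0) (k l lb : ℕ) (hk1 : ks + (Gc - 1) * s ≤ k) (hk2 : k ≤ ks + (Gc + 1) * s)
    (hl1 : ls + (Gc - 1) * s ≤ l) (hl2 : l ≤ ls + (Gc + 1) * s)
    (hb1 : ks + ls + (2 * Gc - 22) * s ≤ lb) (hb2 : lb ≤ ks + ls + (2 * Gc - 11) * s)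
    (A B : ℕ) (hA : A < 2 ^ ((3 * Gc + 100) * s)) (hB : B < 2 ^ ((3 * Gc + 100) * s)) :
    ∑ h ∈ SR (QA s ks ls), ∑ h' ∈ SR (QB s ks ls),
        (if (coreR s ks h ∧ coreR s ls h') ∧ ¬ nearR s ks ls α0 β0 h h' then
          ct (QA s ks ls / 2 ^ k) (QA s ks ls) h * ct (QB s ks ls / 2 ^ l) (QB s ks ls) h' *
          (fej (2 ^ lb) (ph s ks ls h h' (α0 * 2 ^ ((3 * Gc + 100) * s) + A)
            (β0 * 2 ^ ((3 * Gc + 100) * s) + B)) *
           WK s ks ls (ph s ks ls h h' (α0 * 2 ^ ((3 * Gc + 100) * s) + A)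
            (β0 * 2 ^ ((3 * Gc + 100) * s) + B)))
        else 0) ≤ 2 ^ lb / 2 ^ (k + l) / 2 ^ (2 * s) := by
  set n1 : ℕ := (3 * Gc + 100) * s with hn1
  set g : ℕ := 4 * Gc * s with hgd
  set r : ℕ := ks + ls with hr
  set Θ : ℕ → ℝ := fun i => (2 : ℝ) ^ (i + 1 + g) / 2 ^ r with hΘ
  set w : ℕ → ℝ := fun i => 1 / 2 ^ (20 * ((5 * Gc - 1100) * s + i)) with hw
  set v : ℤ → ℤ → ℝ := fun h h' => nd ((h : ℝ) * x0 ks ls α0 + (h' : ℝ) * y0 ks ls β0) with hv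
  set c : ℝ := 2 ^ lb / 2 ^ (k + l) with hc
  have hc0 : 0 ≤ c := by positivity
  have hw0 : ∀ i, 0 ≤ w i := fun i => by simp only [hw]; positivity
  -- the coefficients
  have hQA : (0 : ℕ) < QA s ks ls := by unfold QA; positivity
  have hQB : (0 : ℕ) < QB s ks ls := by unfold QB; positivity
  have hkQ : 0 < QA s ks ls / 2 ^ k := by
    apply Nat.div_pos _ (by positivity)
    unfold QA
    apply Nat.pow_le_pow_right (by norm_num)
    unfold Gc at hk2 ⊢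
    omega
  have hlQ : 0 < QB s ks ls / 2 ^ l := by
    apply Nat.div_pos _ (by positivity)
    unfold QB
    apply Nat.pow_le_pow_right (by norm_num)
    unfold Gc at hl2 ⊢
    omega
  have hct : ∀ h, ct (QA s ks ls / 2 ^ k) (QA s ks ls) h ≤ 1 / 2 ^ k := by
    intro h
    refine (ct_le _ _ hkQ h).trans ?_
    have h1 : ((QA s ks ls / 2 ^ k : ℕ) : ℝ) ≤ (QA s ks ls : ℝ) / ((2 ^ k : ℕ) : ℝ) :=
      Nat.cast_div_le
    have h2 : (0 : ℝ) < QA s ks ls := by exact_mod_cast hQA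
    rw [div_le_iff₀ h2]
    refine h1.trans (le_of_eq ?_)
    push_cast
    ring
  have hct' : ∀ h, ct (QB s ks ls / 2 ^ l) (QB s ks ls) h ≤ 1 / 2 ^ l := by
    intro h
    refine (ct_le _ _ hlQ h).trans ?_
    have h1 : ((QB s ks ls / 2 ^ l : ℕ) : ℝ) ≤ (QB s ks ls : ℝ) / ((2 ^ l : ℕ) : ℝ) :=
      Nat.cast_div_le
    have h2 : (0 : ℝ) < QB s ks ls := by exact_mod_cast hQB
    rw [div_le_iff₀ h2]
    refine h1.trans (le_of_eq ?_)
    push_cast
    ring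
  -- bound of one term
  have hterm : ∀ h h' : ℤ, (if (coreR s ks h ∧ coreR s ls h') ∧ ¬ nearR s ks ls α0 β0 h h' then
          ct (QA s ks ls / 2 ^ k) (QA s ks ls) h * ct (QB s ks ls / 2 ^ l) (QB s ks ls) h' *
          (fej (2 ^ lb) (ph s ks ls h h' (α0 * 2 ^ n1 + A) (β0 * 2 ^ n1 + B)) *
           WK s ks ls (ph s ks ls h h' (α0 * 2 ^ n1 + A) (β0 * 2 ^ n1 + B)))
        else 0) ≤ c * ∑ i ∈ range (r + 1),
          (if (coreR s ks h ∧ coreR s ls h') ∧ v h h' ≤ Θ i then w i else 0) := by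
    intro h h'
    have hnn : 0 ≤ ∑ i ∈ range (r + 1),
          (if (coreR s ks h ∧ coreR s ls h') ∧ v h h' ≤ Θ i then w i else 0) :=
      Finset.sum_nonneg fun i _ => by split_ifs; exacts [hw0 i, le_rfl]
    by_cases hP : (coreR s ks h ∧ coreR s ls h') ∧ ¬ nearR s ks ls α0 β0 h h'
    · rw [if_pos hP]
      obtain ⟨⟨hc1, hc2⟩, hnear⟩ := hP
      unfold nearR at hnear
      push Not at hnear
      obtain ⟨i, hi, hi1, hi2⟩ := f9_shell g r (v h h') hnear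
        ((nd_le_half _).trans (by norm_num))
      set θ : ℝ := ph s ks ls h h' (α0 * 2 ^ n1 + A) (β0 * 2 ^ n1 + B) with hθ
      -- lower bound for nd θ
      have hlow : (2 : ℝ) ^ (i + g) / 2 ^ r / 2 ≤ nd θ := by
        have d1 := f9_diff h α0 A n1 (2 * ks + ls) hA ks ((Gc + 60) * s) hc1.2
        have d2 := f9_diff h' β0 B n1 (ks + 2 * ls) hB ls ((Gc + 60) * s) hc2.2
        have e1 : (2 : ℝ) ^ (ks + (Gc + 60) * s) / 2 ^ (2 * ks + ls) =
            2 ^ ((Gc + 60) * s) / 2 ^ r := by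
          rw [hr, show 2 * ks + ls = ks + (ks + ls) by ring, pow_add, pow_add 2 ks (ks + ls)]
          have p : (0 : ℝ) < 2 ^ ks := by positivity
          have p' : (0 : ℝ) < 2 ^ (ks + ls) := by positivity
          field_simp
        have e2 : (2 : ℝ) ^ (ls + (Gc + 60) * s) / 2 ^ (ks + 2 * ls) =
            2 ^ ((Gc + 60) * s) / 2 ^ r := by
          rw [hr, show ks + 2 * ls = ls + (ks + ls) by ring, pow_add, pow_add 2 ls (ks + ls)]
          have p : (0 : ℝ) < 2 ^ ls := by positivity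
          have p' : (0 : ℝ) < 2 ^ (ks + ls) := by positivity
          field_simp
        rw [e1] at d1
        rw [e2] at d2
        have e3 : (h : ℝ) * x0 ks ls α0 + (h' : ℝ) * y0 ks ls β0 = θ +
            (-(((h : ℝ) * ((α0 * 2 ^ n1 + A : ℕ) : ℝ) / ((2 ^ (2 * ks + ls + n1) : ℕ) : ℝ) -
              (h : ℝ) * (α0 / 2 ^ (2 * ks + ls))) +
            ((h' : ℝ) * ((β0 * 2 ^ n1 + B : ℕ) : ℝ) / ((2 ^ (ks + 2 * ls + n1) : ℕ) : ℝ) -
              (h' : ℝ) * (β0 / 2 ^ (ks + 2 * ls))))) := by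
          rw [hθ]
          unfold ph x0 y0 QA QB
          rw [← hn1]
          ring
        have h1 : v h h' ≤ nd θ + (2 ^ ((Gc + 60) * s) / 2 ^ r + 2 ^ ((Gc + 60) * s) / 2 ^ r) := by
          simp only [hv]
          rw [e3]
          refine (nd_add_le _ _).trans (add_le_add le_rfl ?_)
          refine (f9_nd_abs _).trans ?_
          rw [abs_neg]
          exact (abs_add_le _ _).trans (add_le_add d1 d2)
        have h2 : (2 : ℝ) ^ ((Gc + 60) * s) / 2 ^ r + 2 ^ ((Gc + 60) * s) / 2 ^ r ≤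
            (2 : ℝ) ^ (i + g) / 2 ^ r / 2 := by
          have h3 : (2 : ℝ) ^ ((Gc + 60) * s + 2) ≤ 2 ^ (i + g) := by
            apply pow_le_pow_right₀ (by norm_num)
            rw [hgd]
            unfold Gc
            omega
          have h4 : (2 : ℝ) ^ ((Gc + 60) * s + 2) = 4 * 2 ^ ((Gc + 60) * s) := by
            rw [pow_add]; norm_num; ring
          rw [h4] at h3
          have p : (0 : ℝ) < 2 ^ r := by positivity
          rw [← add_div, div_div, div_le_div_iff₀ p (by positivity)]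
          nlinarith
        linarith
      have hWK : WK s ks ls θ ≤ w i := f9_WK s ks ls i θ hlow
      have hWK0 : 0 ≤ WK s ks ls θ := by
        unfold WK
        exact pow_nonneg (fejn_bds _ _).1 _
      have hfej : fej (2 ^ lb) θ ≤ 2 ^ lb := by
        have := fej_le (2 ^ lb) θ
        push_cast at this
        exact this
      have hsum : w i ≤ ∑ i ∈ range (r + 1),
          (if (coreR s ks h ∧ coreR s ls h') ∧ v h h' ≤ Θ i then w i else 0) := by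
        have h1 := Finset.single_le_sum (f := fun i =>
          if (coreR s ks h ∧ coreR s ls h') ∧ v h h' ≤ Θ i then w i else 0)
          (fun i _ => by split_ifs; exacts [hw0 i, le_rfl]) hi
        have h2 : (coreR s ks h ∧ coreR s ls h') ∧ v h h' ≤ Θ i := ⟨⟨hc1, hc2⟩, hi2⟩
        simp only [if_pos h2] at h1
        exact h1
      calc ct (QA s ks ls / 2 ^ k) (QA s ks ls) h * ct (QB s ks ls / 2 ^ l) (QB s ks ls) h' *
            (fej (2 ^ lb) θ * WK s ks ls θ)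
          ≤ (1 / 2 ^ k * (1 / 2 ^ l)) * (2 ^ lb * w i) := by
            have q1 := ct_nonneg (QA s ks ls / 2 ^ k) (QA s ks ls) h
            have q2 := ct_nonneg (QB s ks ls / 2 ^ l) (QB s ks ls) h'
            have q3 := fej_nonneg (2 ^ lb) θ
            refine mul_le_mul (mul_le_mul (hct h) (hct' h') q2 (by positivity))
              (mul_le_mul hfej hWK hWK0 (by positivity)) (mul_nonneg q3 hWK0) (by positivity)
        _ = c * w i := by
            rw [hc, pow_add]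
            field_simp
        _ ≤ _ := mul_le_mul_of_nonneg_left hsum hc0
    · rw [if_neg hP]
      exact mul_nonneg hc0 hnn
  -- counting
  have hcount : ∀ i, ∑ h ∈ SR (QA s ks ls), ∑ h' ∈ SR (QB s ks ls),
      (if (coreR s ks h ∧ coreR s ls h') ∧ v h h' ≤ Θ i then w i else 0) ≤
      w i * (2 : ℝ) ^ (12 * Gc * s + 2 * (i + 1)) := by
    intro i
    have e1 : ∑ h ∈ SR (QA s ks ls), ∑ h' ∈ SR (QB s ks ls),
        (if (coreR s ks h ∧ coreR s ls h') ∧ v h h' ≤ Θ i then w i else 0) =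
        w i * (((SR (QA s ks ls) ×ˢ SR (QB s ks ls)).filter (fun p : ℤ × ℤ =>
          (coreR s ks p.1 ∧ coreR s ls p.2) ∧ v p.1 p.2 ≤ Θ i)).card : ℝ) := by
      rw [← Finset.sum_product', Finset.card_filter]
      push_cast
      rw [Finset.mul_sum]
      refine Finset.sum_congr rfl fun p _ => ?_
      split_ifs <;> simp
    rw [e1]
    refine mul_le_mul_of_nonneg_left ?_ (hw0 i)
    refine le_trans ?_ (hg.gi (i + 1))
    unfold cntH
    refine Nat.cast_le.2 (Finset.card_le_card ?_)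
    intro p hp'
    rw [Finset.mem_filter] at hp' ⊢
    obtain ⟨-, ⟨hc1, hc2⟩, h3⟩ := hp'
    have hfl : ∀ m : ℕ, ⌊(2 : ℝ) ^ m⌋ = (2 : ℤ) ^ m := by
      intro m
      rw [Int.floor_eq_iff]
      push_cast
      constructor
      · exact le_rfl
      · linarith
    refine ⟨?_, ?_, ?_⟩
    · rw [Finset.mem_product, Finset.mem_Icc, Finset.mem_Icc, hfl, hfl]
      exact ⟨abs_le.1 hc1.2, abs_le.1 hc2.2⟩
    · left
      intro h0
      have := hc1.1
      rw [h0, abs_zero] at this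
      have h4 : (0 : ℤ) < 2 ^ (ks + (Gc - 60) * s) := by positivity
      omega
    · exact h3
  calc ∑ h ∈ SR (QA s ks ls), ∑ h' ∈ SR (QB s ks ls), _
      ≤ ∑ h ∈ SR (QA s ks ls), ∑ h' ∈ SR (QB s ks ls), c * ∑ i ∈ range (r + 1),
          (if (coreR s ks h ∧ coreR s ls h') ∧ v h h' ≤ Θ i then w i else 0) :=
        Finset.sum_le_sum fun h _ => Finset.sum_le_sum fun h' _ => hterm h h'
    _ = c * ∑ i ∈ range (r + 1), ∑ h ∈ SR (QA s ks ls), ∑ h' ∈ SR (QB s ks ls),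
          (if (coreR s ks h ∧ coreR s ls h') ∧ v h h' ≤ Θ i then w i else 0) := by
        simp only [← Finset.mul_sum]
        congr 1
        rw [Finset.sum_congr rfl fun h _ => Finset.sum_comm, Finset.sum_comm]
    _ ≤ c * ∑ i ∈ range (r + 1), 1 / 2 ^ (2 * s) * ((1 / 2 : ℝ) ^ i * (1 / 2)) := by
        refine mul_le_mul_of_nonneg_left (Finset.sum_le_sum fun i _ => ?_) hc0
        refine (hcount i).trans ?_
        simp only [hw]
        have h1 : (2 : ℝ) ^ (12 * Gc * s + 2 * (i + 1)) * 2 ^ (2 * s + (i + 1)) ≤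
            2 ^ (20 * ((5 * Gc - 1100) * s + i)) := by
          rw [← pow_add]
          exact pow_le_pow_right₀ (by norm_num) (f9_arith s i hs)
        have e : (1 : ℝ) / 2 ^ (2 * s) * ((1 / 2 : ℝ) ^ i * (1 / 2)) = 1 / 2 ^ (2 * s + (i + 1)) := by
          rw [pow_add, pow_succ, one_div_pow]
          field_simp
        rw [e, one_div_mul_eq_div, div_le_div_iff₀ (by positivity) (by positivity), one_mul]
        exact h1
    _ ≤ c * (1 / 2 ^ (2 * s)) := by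
        refine mul_le_mul_of_nonneg_left ?_ hc0
        rw [← Finset.mul_sum, ← Finset.sum_mul]
        have h1 := sum_geometric_two_le (r + 1)
        have h2 : (∑ i ∈ range (r + 1), (1 / 2 : ℝ) ^ i) * (1 / 2) ≤ 1 := by linarith
        calc (1 : ℝ) / 2 ^ (2 * s) * ((∑ i ∈ range (r + 1), (1 / 2 : ℝ) ^ i) * (1 / 2))
            ≤ 1 / 2 ^ (2 * s) * 1 := mul_le_mul_of_nonneg_left h2 (by positivity)
          _ = 1 / 2 ^ (2 * s) := mul_one _
    _ = 2 ^ lb / 2 ^ (k + l) / 2 ^ (2 * s) := by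
        rw [hc]; ring

end MP_5e4520_nt.Ex
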