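import Pool.Agent.Lib.MP_5e4520_ntE.F8
import Pool.Agent.Lib.MP_5e4520_ntE.F9
set_option autoImplicit false

namespace MP_5e4520_nt.Ex

open Finset

private theorem f10_ct (e k : ℕ) (h : k ≤ e) (z : ℤ) : ct (2 ^ e / 2 ^ k) (2 ^ e) z ≤ 1 / 2 ^ k := by
  rw [Nat.pow_div h two_pos]
  have h1 := ct_le (2 ^ (e - k)) (2 ^ e) (by positivity) z
  refine h1.trans (le_of_eq ?_)
  push_cast
  rw [div_eq_div_iff (by positivity) (by positivity), one_mul, ← pow_add]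
  congr 1
  omega

private theorem f10_mem_SR (e m : ℕ) (h : m + 2 ≤ e) (z : ℤ) (hz : |z| ≤ 2 ^ m) : z ∈ SR (2 ^ e) := by
  unfold SR
  have h1 : 2 ^ e / 2 = 2 ^ (e - 1) := by
    have : 2 ^ e = 2 ^ (e - 1) * 2 := by
      rw [← pow_succ]
      congr 1
      omega
    rw [this]
    simp
  rw [h1, mem_Ico]
  have h2 : (2 : ℤ) ^ m < 2 ^ (e - 1) := pow_lt_pow_right₀ (by norm_num) (by omega)
  have h3 := abs_le.mp hz
  push_cast
  constructor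
  · linarith
  · linarith

private theorem f10_swap {ι κ : Type*} (S : Finset ι) (U : Finset κ) (g : ι → ℂ) (x : κ → ℂ)
    (Y : ι → κ → ℂ) :
    ∑ i ∈ S, g i * ∑ u ∈ U, x u * Y i u = ∑ u ∈ U, x u * ∑ i ∈ S, g i * Y i u := by
  simp_rw [mul_sum]
  rw [sum_comm]
  refine sum_congr rfl fun u _ => sum_congr rfl fun i _ => ?_
  ring

open Classical in
private theorem f10_split (s ks ls α0 β0 : ℕ) (F : ℤ × ℤ → ℂ) (hs : 1 ≤ s) :
    ∑ h ∈ SR (QA s ks ls), ∑ h' ∈ SR (QB s ks ls),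
      (if (coreR s ks h ∧ coreR s ls h') ∧ nearR s ks ls α0 β0 h h' then F (h, h') else 0) =
    ∑ p ∈ ({1, -1} : Finset ℤ) ×ˢ ({1, -1} : Finset ℤ), ∑ D ∈ NN s ks ls α0 β0 p.1 p.2, F D := by
  rw [← sum_product' (SR (QA s ks ls)) (SR (QB s ks ls)) (fun h h' =>
    if (coreR s ks h ∧ coreR s ls h') ∧ nearR s ks ls α0 β0 h h' then F (h, h') else 0)]
  rw [← sum_filter]
  have hmaps : ∀ D ∈ (SR (QA s ks ls) ×ˢ SR (QB s ks ls)).filter (fun D : ℤ × ℤ =>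
      (coreR s ks D.1 ∧ coreR s ls D.2) ∧ nearR s ks ls α0 β0 D.1 D.2),
      (Int.sign D.1, Int.sign D.2) ∈ ({1, -1} : Finset ℤ) ×ˢ ({1, -1} : Finset ℤ) := by
    intro D hD
    obtain ⟨_, ⟨hc1, hc2⟩, _⟩ := mem_filter.mp hD
    have hsgn : ∀ (k : ℕ) (z : ℤ), coreR s k z → Int.sign z ∈ ({1, -1} : Finset ℤ) := by
      intro k z hz
      have h1 : (0 : ℤ) < 2 ^ (k + (Gc - 60) * s) := by positivity
      have h2 : z ≠ 0 := by
        intro h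
        have := hz.1
        rw [h, abs_zero] at this
        linarith
      rcases lt_or_gt_of_ne h2 with h3 | h3
      · rw [Int.sign_eq_neg_one_of_neg h3]
        simp
      · rw [Int.sign_eq_one_of_pos h3]
        simp
    exact mem_product.mpr ⟨hsgn _ _ hc1, hsgn _ _ hc2⟩
  rw [← sum_fiberwise_of_maps_to hmaps]
  apply sum_congr rfl
  intro p hp
  have hF : ∀ D : ℤ × ℤ, F (D.1, D.2) = F D := fun D => rfl
  simp only [hF]
  apply sum_congr _ fun _ _ => rfl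
  obtain ⟨hp1, hp2⟩ := mem_product.mp hp
  have hgen : ∀ (k : ℕ) (e z : ℤ), e ∈ ({1, -1} : Finset ℤ) →
      ((coreR s k z ∧ Int.sign z = e) ↔ ((-(2 : ℤ) ^ (k + (Gc + 60) * s) ≤ z ∧
        z ≤ (2 : ℤ) ^ (k + (Gc + 60) * s)) ∧ (2 : ℤ) ^ (k + (Gc - 60) * s) ≤ e * z)) := by
    intro k e z he
    have hpos : (0 : ℤ) < 2 ^ (k + (Gc - 60) * s) := by positivity
    unfold coreR
    have he' : e = 1 ∨ e = -1 := by simpa using he
    rcases he' with rfl | rfl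
    · rw [Int.sign_eq_one_iff_pos, one_mul]
      constructor
      · rintro ⟨⟨h1, h2⟩, h3⟩
        rw [abs_of_pos h3] at h1 h2
        exact ⟨⟨by linarith, h2⟩, h1⟩
      · rintro ⟨⟨h1, h2⟩, h3⟩
        have h4 : 0 < z := by linarith
        rw [abs_of_pos h4]
        exact ⟨⟨h3, h2⟩, h4⟩
    · rw [Int.sign_eq_neg_one_iff_neg]
      constructor
      · rintro ⟨⟨h1, h2⟩, h3⟩
        rw [abs_of_neg h3] at h1 h2
        exact ⟨⟨by linarith, by linarith⟩, by linarith⟩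
      · rintro ⟨⟨h1, h2⟩, h3⟩
        have h4 : z < 0 := by linarith
        rw [abs_of_neg h4]
        exact ⟨⟨by linarith, by linarith⟩, h4⟩
  ext D
  have h1 := hgen ks p.1 D.1 hp1
  have h2 := hgen ls p.2 D.2 hp2
  unfold NN
  rw [mem_filter, mem_filter, mem_filter, mem_product, mem_product, mem_Icc, mem_Icc, Prod.ext_iff]
  constructor
  · rintro ⟨⟨_, ⟨hc1, hc2⟩, hn⟩, hs1, hs2⟩
    obtain ⟨h3, h4⟩ := h1.mp ⟨hc1, hs1⟩
    obtain ⟨h5, h6⟩ := h2.mp ⟨hc2, hs2⟩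
    exact ⟨⟨h3, h5⟩, h4, h6, hn⟩
  · rintro ⟨⟨h3, h5⟩, h4, h6, hn⟩
    obtain ⟨hc1, hs1⟩ := h1.mpr ⟨h3, h4⟩
    obtain ⟨hc2, hs2⟩ := h2.mpr ⟨h5, h6⟩
    refine ⟨⟨⟨?_, ?_⟩, ⟨hc1, hc2⟩, hn⟩, hs1, hs2⟩
    · unfold QA
      exact f10_mem_SR _ (ks + (Gc + 60) * s) (by simp only [Gc]; omega) _ (abs_le.mpr h3)
    · unfold QB
      exact f10_mem_SR _ (ls + (Gc + 60) * s) (by simp only [Gc]; omega) _ (abs_le.mpr h5)

private theorem f10_psi_sum (s ks ls L : ℕ) (hL : 0 < L) (T : ℤ) (D : ℤ × ℤ) (a b : ℕ) :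
    ee (T * ph s ks ls D.1 D.2 a b) * ((fej L (ph s ks ls D.1 D.2 a b) : ℝ) : ℂ) *
      ((WK s ks ls (ph s ks ls D.1 D.2 a b) : ℝ) : ℂ) =
    ∑ t ∈ Ioo (-(L : ℤ)) L, (tri L t : ℂ) * psi s ks ls (T + t) D a b := by
  rw [fej_tri L hL, mul_sum, sum_mul]
  apply sum_congr rfl
  intro t _
  unfold psi
  have h1 : (((T + t : ℤ) : ℝ)) * ph s ks ls D.1 D.2 a b =
      T * ph s ks ls D.1 D.2 a b + t * ph s ks ls D.1 D.2 a b := by
    push_cast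
    ring
  rw [h1, ee_add]
  ring

open Classical in
/-- JOB F10.  Near part.  `fej L θ e(Tθ) = ∑_{|t|<L} tri L t e((T+t)θ)` (`fej_tri`), so the near part is
`∑_t tri L t ∑_{signs} ∑_{A,B} f1 f3 ∑_{D ∈ NN e1 e2} c(D) psi (T+t) D`, with `|c(D)| = ct ct' ≤ 2^(-k-l)`; by `WL`
(applied to `2^(k+l) c`) `≤ 4 · 2^lb · 2^(-k-l) · 2^(-2s)` (`∑ tri = L = 2^lb`; `2^(lb-1) ≤ T+t ≤ 2^(lb+4)` from the hypotheses). The
near core frequencies are the disjoint union of the four `NN e1 e2`. -/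
theorem near_le : ∃ s0 : ℕ, ∀ s ≥ s0, ∀ ks ls α0 β0 : ℕ, ParF s ks ls → α0 < 2 ^ (2 * ks + ls) →
    β0 < 2 ^ (ks + 2 * ls) → GenF s ks ls α0 β0 →
    ∀ k l lb : ℕ, ks + (Gc - 1) * s ≤ k → k ≤ ks + (Gc + 1) * s → ls + (Gc - 1) * s ≤ l →
    l ≤ ls + (Gc + 1) * s → ks + ls + (2 * Gc - 22) * s ≤ lb → lb ≤ ks + ls + (2 * Gc - 11) * s →
    ∀ T : ℤ, 3 * (2 : ℤ) ^ lb ≤ 2 * T → T ≤ (2 : ℤ) ^ (lb + 3) → ∀ f1 f3 : ℕ → ℝ, Dens s f1 →
    Dens s f3 → ∀ g1 g2 : ℤ,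
    ‖∑ A ∈ range (2 ^ ((3 * Gc + 100) * s)), ∑ B ∈ range (2 ^ ((3 * Gc + 100) * s)),
      (f1 A : ℂ) * (f3 B : ℂ) * ∑ h ∈ SR (QA s ks ls), ∑ h' ∈ SR (QB s ks ls),
        (if (coreR s ks h ∧ coreR s ls h') ∧ nearR s ks ls α0 β0 h h' then
          ((ct (QA s ks ls / 2 ^ k) (QA s ks ls) h : ℝ) : ℂ) *
          ((ct (QB s ks ls / 2 ^ l) (QB s ks ls) h' : ℝ) : ℂ) *
          ee (-((h : ℝ) * g1 / QA s ks ls + (h' : ℝ) * g2 / QB s ks ls)) *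
          (ee (T * ph s ks ls h h' (α0 * 2 ^ ((3 * Gc + 100) * s) + A) (β0 * 2 ^ ((3 * Gc + 100) * s) + B)) *
            ((fej (2 ^ lb) (ph s ks ls h h' (α0 * 2 ^ ((3 * Gc + 100) * s) + A)
              (β0 * 2 ^ ((3 * Gc + 100) * s) + B)) : ℝ) : ℂ) *
            ((WK s ks ls (ph s ks ls h h' (α0 * 2 ^ ((3 * Gc + 100) * s) + A)
              (β0 * 2 ^ ((3 * Gc + 100) * s) + B)) : ℝ) : ℂ))
        else 0)‖ ≤ 4 * (2 ^ lb / 2 ^ (k + l) / 2 ^ (2 * s)) := by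
  obtain ⟨s0, hWL⟩ := WL
  refine ⟨max s0 1, fun s hs ks ls α0 β0 hp hα hβ hg k l lb hk1 hk2 hl1 hl2 hb1 hb2 T hT1 hT2 f1 f3
    hf1 hf3 g1 g2 => ?_⟩
  have hs0 : s0 ≤ s := le_trans (le_max_left _ _) hs
  have hs1 : 1 ≤ s := le_trans (le_max_right _ _) hs
  set N : ℕ := 2 ^ ((3 * Gc + 100) * s) with hN
  set C : ℤ × ℤ → ℂ := fun D => ((ct (QA s ks ls / 2 ^ k) (QA s ks ls) D.1 : ℝ) : ℂ) *
          ((ct (QB s ks ls / 2 ^ l) (QB s ks ls) D.2 : ℝ) : ℂ) *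
          ee (-((D.1 : ℝ) * g1 / QA s ks ls + (D.2 : ℝ) * g2 / QB s ks ls)) with hC
  have hkA : k ≤ 2 * ks + ls + (3 * Gc + 100) * s := by
    simp only [Gc] at hk2 ⊢
    omega
  have hlB : l ≤ ks + 2 * ls + (3 * Gc + 100) * s := by
    simp only [Gc] at hl2 ⊢
    omega
  have hCn : ∀ D, ‖(2 : ℂ) ^ (k + l) * C D‖ ≤ 1 := by
    intro D
    have h1 : ct (QA s ks ls / 2 ^ k) (QA s ks ls) D.1 ≤ 1 / 2 ^ k := by
      unfold QA
      exact f10_ct _ _ hkA _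
    have h2 : ct (QB s ks ls / 2 ^ l) (QB s ks ls) D.2 ≤ 1 / 2 ^ l := by
      unfold QB
      exact f10_ct _ _ hlB _
    have h1' := ct_nonneg (QA s ks ls / 2 ^ k) (QA s ks ls) D.1
    have h2' := ct_nonneg (QB s ks ls / 2 ^ l) (QB s ks ls) D.2
    rw [hC]
    simp only [norm_mul, norm_ee, mul_one, Complex.norm_real, Real.norm_eq_abs, abs_of_nonneg h1',
      abs_of_nonneg h2', norm_pow, Complex.norm_two]
    have h3 : ct (QA s ks ls / 2 ^ k) (QA s ks ls) D.1 * ct (QB s ks ls / 2 ^ l) (QB s ks ls) D.2 ≤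
        1 / 2 ^ k * (1 / 2 ^ l) := mul_le_mul h1 h2 h2' (by positivity)
    calc (2 : ℝ) ^ (k + l) * (ct (QA s ks ls / 2 ^ k) (QA s ks ls) D.1 *
          ct (QB s ks ls / 2 ^ l) (QB s ks ls) D.2) ≤ (2 : ℝ) ^ (k + l) * (1 / 2 ^ k * (1 / 2 ^ l)) :=
          mul_le_mul_of_nonneg_left h3 (by positivity)
      _ = 1 := by
        rw [pow_add]
        field_simp
  have hL0 : 0 < 2 ^ lb := by positivity
  -- the inner sum
  have hinner : ∀ A B : ℕ, ∑ h ∈ SR (QA s ks ls), ∑ h' ∈ SR (QB s ks ls),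
        (if (coreR s ks h ∧ coreR s ls h') ∧ nearR s ks ls α0 β0 h h' then
          ((ct (QA s ks ls / 2 ^ k) (QA s ks ls) h : ℝ) : ℂ) *
          ((ct (QB s ks ls / 2 ^ l) (QB s ks ls) h' : ℝ) : ℂ) *
          ee (-((h : ℝ) * g1 / QA s ks ls + (h' : ℝ) * g2 / QB s ks ls)) *
          (ee (T * ph s ks ls h h' (α0 * N + A) (β0 * N + B)) *
            ((fej (2 ^ lb) (ph s ks ls h h' (α0 * N + A) (β0 * N + B)) : ℝ) : ℂ) *
            ((WK s ks ls (ph s ks ls h h' (α0 * N + A) (β0 * N + B)) : ℝ) : ℂ))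
        else 0) =
      ∑ u ∈ (({1, -1} : Finset ℤ) ×ˢ ({1, -1} : Finset ℤ)) ×ˢ Ioo (-((2 ^ lb : ℕ) : ℤ)) ((2 ^ lb : ℕ) : ℤ),
        ((tri (2 ^ lb) u.2 : ℂ) * (1 / (2 : ℂ) ^ (k + l))) *
          ∑ D ∈ NN s ks ls α0 β0 u.1.1 u.1.2, ((2 : ℂ) ^ (k + l) * C D) *
            psi s ks ls (T + u.2) D (α0 * N + A) (β0 * N + B) := by
    intro A B
    have h1 := f10_split s ks ls α0 β0 (fun D => C D *
      (ee (T * ph s ks ls D.1 D.2 (α0 * N + A) (β0 * N + B)) *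
            ((fej (2 ^ lb) (ph s ks ls D.1 D.2 (α0 * N + A) (β0 * N + B)) : ℝ) : ℂ) *
            ((WK s ks ls (ph s ks ls D.1 D.2 (α0 * N + A) (β0 * N + B)) : ℝ) : ℂ))) hs1
    simp only [hC] at h1
    rw [h1, sum_product (({1, -1} : Finset ℤ) ×ˢ ({1, -1} : Finset ℤ))
      (Ioo (-((2 ^ lb : ℕ) : ℤ)) ((2 ^ lb : ℕ) : ℤ))]
    apply sum_congr rfl
    intro p _
    have h2 : ∀ D ∈ NN s ks ls α0 β0 p.1 p.2,
        ((ct (QA s ks ls / 2 ^ k) (QA s ks ls) D.1 : ℝ) : ℂ) *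
          ((ct (QB s ks ls / 2 ^ l) (QB s ks ls) D.2 : ℝ) : ℂ) *
          ee (-((D.1 : ℝ) * g1 / QA s ks ls + (D.2 : ℝ) * g2 / QB s ks ls)) *
          (ee (T * ph s ks ls D.1 D.2 (α0 * N + A) (β0 * N + B)) *
            ((fej (2 ^ lb) (ph s ks ls D.1 D.2 (α0 * N + A) (β0 * N + B)) : ℝ) : ℂ) *
            ((WK s ks ls (ph s ks ls D.1 D.2 (α0 * N + A) (β0 * N + B)) : ℝ) : ℂ)) =
        ∑ t ∈ Ioo (-((2 ^ lb : ℕ) : ℤ)) ((2 ^ lb : ℕ) : ℤ),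
          ((tri (2 ^ lb) t : ℂ) * (1 / (2 : ℂ) ^ (k + l))) * (((2 : ℂ) ^ (k + l) * C D) *
            psi s ks ls (T + t) D (α0 * N + A) (β0 * N + B)) := by
      intro D _
      rw [f10_psi_sum s ks ls (2 ^ lb) hL0 T D, mul_sum]
      apply sum_congr rfl
      intro t _
      have h3 : (2 : ℂ) ^ (k + l) ≠ 0 := pow_ne_zero _ two_ne_zero
      rw [hC]
      field_simp
    rw [sum_congr rfl h2, sum_comm]
    apply sum_congr rfl
    intro t _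
    rw [mul_sum]
  have htot : ∑ A ∈ range N, ∑ B ∈ range N,
      (f1 A : ℂ) * (f3 B : ℂ) * ∑ h ∈ SR (QA s ks ls), ∑ h' ∈ SR (QB s ks ls),
        (if (coreR s ks h ∧ coreR s ls h') ∧ nearR s ks ls α0 β0 h h' then
          ((ct (QA s ks ls / 2 ^ k) (QA s ks ls) h : ℝ) : ℂ) *
          ((ct (QB s ks ls / 2 ^ l) (QB s ks ls) h' : ℝ) : ℂ) *
          ee (-((h : ℝ) * g1 / QA s ks ls + (h' : ℝ) * g2 / QB s ks ls)) *
          (ee (T * ph s ks ls h h' (α0 * N + A) (β0 * N + B)) *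
            ((fej (2 ^ lb) (ph s ks ls h h' (α0 * N + A) (β0 * N + B)) : ℝ) : ℂ) *
            ((WK s ks ls (ph s ks ls h h' (α0 * N + A) (β0 * N + B)) : ℝ) : ℂ))
        else 0) =
      ∑ u ∈ (({1, -1} : Finset ℤ) ×ˢ ({1, -1} : Finset ℤ)) ×ˢ Ioo (-((2 ^ lb : ℕ) : ℤ)) ((2 ^ lb : ℕ) : ℤ),
        ((tri (2 ^ lb) u.2 : ℂ) * (1 / (2 : ℂ) ^ (k + l))) *
          ∑ A ∈ range N, ∑ B ∈ range N, (f1 A : ℂ) * (f3 B : ℂ) *
            ∑ D ∈ NN s ks ls α0 β0 u.1.1 u.1.2, ((2 : ℂ) ^ (k + l) * C D) *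
            psi s ks ls (T + u.2) D (α0 * N + A) (β0 * N + B) := by
    simp_rw [hinner]
    have h1 := f10_swap (range N ×ˢ range N)
      ((({1, -1} : Finset ℤ) ×ˢ ({1, -1} : Finset ℤ)) ×ˢ Ioo (-((2 ^ lb : ℕ) : ℤ)) ((2 ^ lb : ℕ) : ℤ))
      (fun q => (f1 q.1 : ℂ) * (f3 q.2 : ℂ)) (fun u => (tri (2 ^ lb) u.2 : ℂ) * (1 / (2 : ℂ) ^ (k + l)))
      (fun q u => ∑ D ∈ NN s ks ls α0 β0 u.1.1 u.1.2, ((2 : ℂ) ^ (k + l) * C D) *
            psi s ks ls (T + u.2) D (α0 * N + q.1) (β0 * N + q.2))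
    simp only [sum_product (range N) (range N)] at h1
    exact h1
  rw [htot]
  have hterm : ∀ u ∈ (({1, -1} : Finset ℤ) ×ˢ ({1, -1} : Finset ℤ)) ×ˢ
      Ioo (-((2 ^ lb : ℕ) : ℤ)) ((2 ^ lb : ℕ) : ℤ),
      ‖((tri (2 ^ lb) u.2 : ℂ) * (1 / (2 : ℂ) ^ (k + l))) *
          ∑ A ∈ range N, ∑ B ∈ range N, (f1 A : ℂ) * (f3 B : ℂ) *
            ∑ D ∈ NN s ks ls α0 β0 u.1.1 u.1.2, ((2 : ℂ) ^ (k + l) * C D) *
            psi s ks ls (T + u.2) D (α0 * N + A) (β0 * N + B)‖ ≤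
        tri (2 ^ lb) u.2 * (1 / 2 ^ (k + l) * (1 / 2 ^ (2 * s))) := by
    rintro ⟨⟨e1, e2⟩, t⟩ hu
    obtain ⟨he, ht⟩ := mem_product.mp hu
    obtain ⟨he1, he2⟩ := mem_product.mp he
    have he1' : e1 = 1 ∨ e1 = -1 := by simpa using he1
    have he2' : e2 = 1 ∨ e2 = -1 := by simpa using he2
    have ht' := mem_Ioo.mp ht
    simp only at ht'
    push_cast at ht'
    have hTa : (2 : ℤ) ^ lb ≤ 2 * (T + t) := by linarith [ht'.1]
    have hTb : T + t ≤ (2 : ℤ) ^ (lb + 4) := by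
      have h1 : (2 : ℤ) ^ (lb + 3) = 8 * 2 ^ lb := by rw [pow_add]; ring
      have h2 : (2 : ℤ) ^ (lb + 4) = 16 * 2 ^ lb := by rw [pow_add]; ring
      have h3 : (0 : ℤ) < 2 ^ lb := by positivity
      rw [h1] at hT2
      rw [h2]
      linarith [ht'.2]
    have hW := hWL s hs0 ks ls α0 β0 hp hα hβ hg lb hb1 hb2 (T + t) hTa hTb e1 e2 he1' he2' f1 f3
      hf1 hf3 (fun D => (2 : ℂ) ^ (k + l) * C D) hCn
    have htri : 0 ≤ tri (2 ^ lb) t := tri_nonneg _ _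
    rw [norm_mul, norm_mul, norm_div, norm_one, norm_pow, Complex.norm_two, Complex.norm_real,
      Real.norm_eq_abs, abs_of_nonneg htri, mul_assoc]
    apply mul_le_mul_of_nonneg_left _ htri
    apply mul_le_mul_of_nonneg_left _ (by positivity)
    exact hW
  refine (norm_sum_le _ _).trans ((sum_le_sum hterm).trans (le_of_eq ?_))
  rw [← sum_mul, sum_product]
  have h4 : ∑ t ∈ Ioo (-((2 ^ lb : ℕ) : ℤ)) ((2 ^ lb : ℕ) : ℤ), tri (2 ^ lb) t = ((2 ^ lb : ℕ) : ℝ) :=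
    tri_sum (2 ^ lb) hL0
  simp only [h4, sum_const]
  have h5 : (({1, -1} : Finset ℤ) ×ˢ ({1, -1} : Finset ℤ)).card = 4 := by decide
  rw [h5]
  push_cast
  simp only [nsmul_eq_mul]
  push_cast
  ring

private noncomputable def f10G (s ks ls k l lb : ℕ) (T g1 g2 : ℤ) (a b : ℕ) (h h' : ℤ) : ℂ :=
  ((ct (QA s ks ls / 2 ^ k) (QA s ks ls) h : ℝ) : ℂ) *
    ((ct (QB s ks ls / 2 ^ l) (QB s ks ls) h' : ℝ) : ℂ) *
    ee (-((h : ℝ) * g1 / QA s ks ls + (h' : ℝ) * g2 / QB s ks ls)) *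
    (ee (T * ph s ks ls h h' a b) * ((fej (2 ^ lb) (ph s ks ls h h' a b) : ℝ) : ℂ) *
      ((WK s ks ls (ph s ks ls h h' a b) : ℝ) : ℂ))

private theorem f10_WK (s ks ls : ℕ) (θ : ℝ) : 0 ≤ WK s ks ls θ ∧ WK s ks ls θ ≤ 1 := by
  have h := fejn_bds (nw s ks ls) θ
  unfold WK
  exact ⟨pow_nonneg h.1 _, pow_le_one₀ h.1 h.2⟩

private theorem f10_norm (s ks ls k l lb : ℕ) (T g1 g2 : ℤ) (a b : ℕ) (h h' : ℤ) :
    ‖f10G s ks ls k l lb T g1 g2 a b h h'‖ =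
      ct (QA s ks ls / 2 ^ k) (QA s ks ls) h * ct (QB s ks ls / 2 ^ l) (QB s ks ls) h' *
        (fej (2 ^ lb) (ph s ks ls h h' a b) * WK s ks ls (ph s ks ls h h' a b)) := by
  unfold f10G
  have h1 := ct_nonneg (QA s ks ls / 2 ^ k) (QA s ks ls) h
  have h2 := ct_nonneg (QB s ks ls / 2 ^ l) (QB s ks ls) h'
  have h3 := fej_nonneg (2 ^ lb) (ph s ks ls h h' a b)
  have h4 := (f10_WK s ks ls (ph s ks ls h h' a b)).1
  simp only [norm_mul, norm_ee, mul_one, one_mul, Complex.norm_real, Real.norm_eq_abs,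
    abs_of_nonneg h1, abs_of_nonneg h2, abs_of_nonneg h3, abs_of_nonneg h4]

private theorem f10_QA (s ks ls : ℕ) (hs : 1 ≤ s) : 0 < QA s ks ls ∧ 2 ∣ QA s ks ls := by
  unfold QA
  refine ⟨by positivity, dvd_pow_self 2 ?_⟩
  simp only [Gc]
  omega

private theorem f10_QB (s ks ls : ℕ) (hs : 1 ≤ s) : 0 < QB s ks ls ∧ 2 ∣ QB s ks ls := by
  unfold QB
  refine ⟨by positivity, dvd_pow_self 2 ?_⟩
  simp only [Gc]
  omega

private theorem f10_ZZ (s ks ls k l lb : ℕ) (hs : 1 ≤ s) (T g1 g2 : ℤ) (a b : ℕ) :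
    ((ZZ (2 ^ lb) T (nw s ks ls) Ap (QA s ks ls / 2 ^ k) (QA s ks ls)
        (QB s ks ls / 2 ^ l) (QB s ks ls) g1 g2 (a : ℤ) (b : ℤ) : ℝ) : ℂ) =
      ∑ h ∈ SR (QA s ks ls), ∑ h' ∈ SR (QB s ks ls), f10G s ks ls k l lb T g1 g2 a b h h' := by
  have hA := f10_QA s ks ls hs
  have hB := f10_QB s ks ls hs
  have hn : 0 < nw s ks ls := by
    unfold nw
    positivity
  rw [ZZ_fourier (2 ^ lb) (by positivity) T (nw s ks ls) Ap _ _ _ _ hn hA.1 hA.2 hB.1 hB.2]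
  refine sum_congr rfl fun h _ => sum_congr rfl fun h' _ => ?_
  unfold f10G ph WK
  simp only [Int.cast_natCast]

private theorem f10_fej_zero (K : ℕ) (hK : 0 < K) : fej K 0 = K := by
  unfold fej
  simp only [mul_zero, ee_zero, sum_const, card_range, nsmul_eq_mul, mul_one, Complex.norm_natCast]
  have : (K : ℝ) ≠ 0 := by exact_mod_cast hK.ne'
  field_simp

private theorem f10_ct0 (e k : ℕ) (h : k ≤ e) : ct (2 ^ e / 2 ^ k) (2 ^ e) 0 = 1 / 2 ^ k := by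
  rw [Nat.pow_div h two_pos, ct_zero _ _ (by positivity)]
  push_cast
  rw [div_eq_div_iff (by positivity) (by positivity), one_mul, ← pow_add]
  congr 1
  omega

private theorem f10_G0 (s ks ls k l lb : ℕ) (T g1 g2 : ℤ) (a b : ℕ)
    (hkA : k ≤ 2 * ks + ls + (3 * Gc + 100) * s) (hlB : l ≤ ks + 2 * ls + (3 * Gc + 100) * s) :
    f10G s ks ls k l lb T g1 g2 a b 0 0 = ((2 ^ lb / 2 ^ (k + l) : ℝ) : ℂ) := by
  unfold f10G
  have h1 : ct (QA s ks ls / 2 ^ k) (QA s ks ls) 0 = 1 / 2 ^ k := by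
    unfold QA
    exact f10_ct0 _ _ hkA
  have h2 : ct (QB s ks ls / 2 ^ l) (QB s ks ls) 0 = 1 / 2 ^ l := by
    unfold QB
    exact f10_ct0 _ _ hlB
  have h3 : ph s ks ls 0 0 a b = 0 := by
    unfold ph
    simp
  have hn : 0 < nw s ks ls := by
    unfold nw
    positivity
  have h4 : WK s ks ls 0 = 1 := by
    unfold WK
    rw [f10_fej_zero _ hn]
    have : (nw s ks ls : ℝ) ≠ 0 := by exact_mod_cast hn.ne'
    rw [div_self this, one_pow]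
  have h5 : fej (2 ^ lb) 0 = 2 ^ lb := by
    rw [f10_fej_zero _ (by positivity)]
    push_cast
    rfl
  rw [h1, h2, h3, h4, h5]
  have h6 : ee (-(((0 : ℤ) : ℝ) * g1 / QA s ks ls + ((0 : ℤ) : ℝ) * g2 / QB s ks ls)) = 1 := by
    have : (-(((0 : ℤ) : ℝ) * g1 / QA s ks ls + ((0 : ℤ) : ℝ) * g2 / QB s ks ls)) = 0 := by simp
    rw [this, ee_zero]
  rw [h6, mul_zero, ee_zero]
  push_cast
  rw [pow_add]
  field_simp

open Classical in
private theorem f10_decomp (s ks ls α0 β0 : ℕ) (hs : 1 ≤ s) (F : ℤ → ℤ → ℂ) :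
    ∑ h ∈ SR (QA s ks ls), ∑ h' ∈ SR (QB s ks ls), F h h' = F 0 0 +
      ∑ h ∈ SR (QA s ks ls), ∑ h' ∈ SR (QB s ks ls),
        (if (h ≠ 0 ∨ h' ≠ 0) ∧ ¬ (coreR s ks h ∧ coreR s ls h') then F h h' else 0) +
      ∑ h ∈ SR (QA s ks ls), ∑ h' ∈ SR (QB s ks ls),
        (if (coreR s ks h ∧ coreR s ls h') ∧ ¬ nearR s ks ls α0 β0 h h' then F h h' else 0) +
      ∑ h ∈ SR (QA s ks ls), ∑ h' ∈ SR (QB s ks ls),
        (if (coreR s ks h ∧ coreR s ls h') ∧ nearR s ks ls α0 β0 h h' then F h h' else 0) := by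
  have h0A : (0 : ℤ) ∈ SR (QA s ks ls) := by
    unfold QA
    exact f10_mem_SR _ 0 (by simp only [Gc]; omega) _ (by norm_num)
  have h0B : (0 : ℤ) ∈ SR (QB s ks ls) := by
    unfold QB
    exact f10_mem_SR _ 0 (by simp only [Gc]; omega) _ (by norm_num)
  have h1 : ∀ h h' : ℤ, F h h' = (if h = 0 then (if h' = 0 then F 0 0 else 0) else 0) +
      (if (h ≠ 0 ∨ h' ≠ 0) ∧ ¬ (coreR s ks h ∧ coreR s ls h') then F h h' else 0) +
      (if (coreR s ks h ∧ coreR s ls h') ∧ ¬ nearR s ks ls α0 β0 h h' then F h h' else 0) +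
      (if (coreR s ks h ∧ coreR s ls h') ∧ nearR s ks ls α0 β0 h h' then F h h' else 0) := by
    intro h h'
    by_cases hc : coreR s ks h ∧ coreR s ls h'
    · have hh : h ≠ 0 := by
        intro h0
        have h2 : (0 : ℤ) < 2 ^ (ks + (Gc - 60) * s) := by positivity
        have h3 := hc.1.1
        rw [h0, abs_zero] at h3
        linarith
      by_cases hn : nearR s ks ls α0 β0 h h' <;> simp [hc, hh, hn]
    · by_cases hh : h = 0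
      · by_cases hh' : h' = 0
        · have hc' : ¬ (coreR s ks 0 ∧ coreR s ls 0) := by
            rw [hh, hh'] at hc
            exact hc
          subst hh hh'
          simp [hc']
        · simp [hc, hh']
      · simp [hc, hh]
  have h2 : ∑ h ∈ SR (QA s ks ls), ∑ h' ∈ SR (QB s ks ls),
      (if h = 0 then (if h' = 0 then F 0 0 else 0) else (0 : ℂ)) = F 0 0 := by
    have h3 : ∀ h ∈ SR (QA s ks ls), ∑ h' ∈ SR (QB s ks ls),
        (if h = 0 then (if h' = 0 then F 0 0 else 0) else (0 : ℂ)) = if h = 0 then F 0 0 else 0 := by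
      intro h _
      by_cases hh : h = 0
      · simp [hh, h0B]
      · simp [hh]
    rw [sum_congr rfl h3, sum_ite_eq' _ _ _, if_pos h0A]
  conv_lhs => rw [sum_congr rfl fun h _ => sum_congr rfl fun h' _ => h1 h h']
  simp only [sum_add_distrib]
  rw [h2]

/-- The mixing lemma (main result of the F-files).  `ZZ_fourier` with `w1 = QA/2^k`, `w2 = QB/2^l`, `n = nw`, `A = Ap`; the term
`h = h' = 0` gives the main term `(∑f1)(∑f3) 2^lb 2^(-k-l)`; the other terms are split into non core (`noncore_le`, using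
`(fej n/n)^Ap ≤ 1`; `2^(-28s) ≤ 2^lb/2^(k+l)/2^(2s)` since `lb - k - l ≥ -24 s`), far (`far_le`) and near (`near_le`). -/
theorem FM : ∃ s0 : ℕ, ∀ s ≥ s0, ∀ ks ls α0 β0 : ℕ, ParF s ks ls → α0 < 2 ^ (2 * ks + ls) →
    β0 < 2 ^ (ks + 2 * ls) → GenF s ks ls α0 β0 →
    ∀ k l lb : ℕ, ks + (Gc - 1) * s ≤ k → k ≤ ks + (Gc + 1) * s → ls + (Gc - 1) * s ≤ l →
    l ≤ ls + (Gc + 1) * s → ks + ls + (2 * Gc - 22) * s ≤ lb → lb ≤ ks + ls + (2 * Gc - 11) * s →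
    ∀ T : ℤ, 3 * (2 : ℤ) ^ lb ≤ 2 * T → T ≤ (2 : ℤ) ^ (lb + 3) → ∀ f1 f3 : ℕ → ℝ, Dens s f1 →
    Dens s f3 → ∀ g1 g2 : ℤ,
    |∑ A ∈ range (2 ^ ((3 * Gc + 100) * s)), ∑ B ∈ range (2 ^ ((3 * Gc + 100) * s)),
      f1 A * f3 B * ZZ (2 ^ lb) T (nw s ks ls) Ap (QA s ks ls / 2 ^ k) (QA s ks ls)
        (QB s ks ls / 2 ^ l) (QB s ks ls) g1 g2
        ((α0 * 2 ^ ((3 * Gc + 100) * s) + A : ℕ) : ℤ) ((β0 * 2 ^ ((3 * Gc + 100) * s) + B : ℕ) : ℤ) -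
      (∑ A ∈ range (2 ^ ((3 * Gc + 100) * s)), f1 A) * (∑ B ∈ range (2 ^ ((3 * Gc + 100) * s)), f3 B) *
        (2 ^ lb / 2 ^ (k + l))| ≤ 2 ^ lb / 2 ^ (k + l) / 2 ^ s := by
  classical
  obtain ⟨s0, hnear⟩ := near_le
  refine ⟨max s0 200, fun s hs ks ls α0 β0 hp hα hβ hg k l lb hk1 hk2 hl1 hl2 hb1 hb2 T hT1 hT2 f1 f3
    hf1 hf3 g1 g2 => ?_⟩
  have hs0 : s0 ≤ s := le_trans (le_max_left _ _) hs
  have hs200 : 200 ≤ s := le_trans (le_max_right _ _) hs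
  have hs1 : 1 ≤ s := by omega
  have hkA : k ≤ 2 * ks + ls + (3 * Gc + 100) * s := by
    simp only [Gc] at hk2 ⊢
    omega
  have hlB : l ≤ ks + 2 * ls + (3 * Gc + 100) * s := by
    simp only [Gc] at hl2 ⊢
    omega
  have hN := hnear s hs0 ks ls α0 β0 hp hα hβ hg k l lb hk1 hk2 hl1 hl2 hb1 hb2 T hT1 hT2 f1 f3 hf1
    hf3 g1 g2
  have hNC := noncore_le s ks ls α0 β0 hs200 hp hg k l lb hk1 hk2 hl1 hl2 hb1 hb2 f1 f3 hf1 hf3
  have hF := far_le s ks ls α0 β0 hs200 hp hg k l lb hk1 hk2 hl1 hl2 hb1 hb2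
  have hlast : k + l ≤ lb + 24 * s := by
    simp only [Gc] at hk2 hl2 hb1
    omega
  set N : ℕ := 2 ^ ((3 * Gc + 100) * s) with hNdef
  set X : ℝ := 2 ^ lb / 2 ^ (k + l) with hX
  have hX0 : 0 < X := by
    rw [hX]
    positivity
  -- parts
  set NCp : ℕ → ℕ → ℂ := fun A B => ∑ h ∈ SR (QA s ks ls), ∑ h' ∈ SR (QB s ks ls),
        (if (h ≠ 0 ∨ h' ≠ 0) ∧ ¬ (coreR s ks h ∧ coreR s ls h') then
          f10G s ks ls k l lb T g1 g2 (α0 * N + A) (β0 * N + B) h h' else 0) with hNCp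
  set Fp : ℕ → ℕ → ℂ := fun A B => ∑ h ∈ SR (QA s ks ls), ∑ h' ∈ SR (QB s ks ls),
        (if (coreR s ks h ∧ coreR s ls h') ∧ ¬ nearR s ks ls α0 β0 h h' then
          f10G s ks ls k l lb T g1 g2 (α0 * N + A) (β0 * N + B) h h' else 0) with hFp
  set Np : ℕ → ℕ → ℂ := fun A B => ∑ h ∈ SR (QA s ks ls), ∑ h' ∈ SR (QB s ks ls),
        (if (coreR s ks h ∧ coreR s ls h') ∧ nearR s ks ls α0 β0 h h' then
          f10G s ks ls k l lb T g1 g2 (α0 * N + A) (β0 * N + B) h h' else 0) with hNp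
  have hZ : ∀ A B : ℕ, ((ZZ (2 ^ lb) T (nw s ks ls) Ap (QA s ks ls / 2 ^ k) (QA s ks ls)
        (QB s ks ls / 2 ^ l) (QB s ks ls) g1 g2 ((α0 * N + A : ℕ) : ℤ) ((β0 * N + B : ℕ) : ℤ) : ℝ) : ℂ) =
      (X : ℂ) + NCp A B + Fp A B + Np A B := by
    intro A B
    rw [f10_ZZ s ks ls k l lb hs1, f10_decomp s ks ls α0 β0 hs1,
      f10_G0 s ks ls k l lb T g1 g2 _ _ hkA hlB]
  have hfn : ∀ A B, 0 ≤ f1 A * f3 B := fun A B => mul_nonneg (hf1.nn A) (hf3.nn B)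
  have hgn : ∀ A B, ‖(f1 A : ℂ) * (f3 B : ℂ)‖ = f1 A * f3 B := by
    intro A B
    rw [norm_mul, Complex.norm_real, Complex.norm_real, Real.norm_eq_abs, Real.norm_eq_abs,
      abs_of_nonneg (hf1.nn A), abs_of_nonneg (hf3.nn B)]
  -- the difference
  have hdiff : (((∑ A ∈ range N, ∑ B ∈ range N, f1 A * f3 B *
      ZZ (2 ^ lb) T (nw s ks ls) Ap (QA s ks ls / 2 ^ k) (QA s ks ls)
        (QB s ks ls / 2 ^ l) (QB s ks ls) g1 g2 ((α0 * N + A : ℕ) : ℤ) ((β0 * N + B : ℕ) : ℤ) -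
      (∑ A ∈ range N, f1 A) * (∑ B ∈ range N, f3 B) * X : ℝ)) : ℂ) =
      (∑ A ∈ range N, ∑ B ∈ range N, (f1 A : ℂ) * (f3 B : ℂ) * NCp A B) +
      (∑ A ∈ range N, ∑ B ∈ range N, (f1 A : ℂ) * (f3 B : ℂ) * Fp A B) +
      (∑ A ∈ range N, ∑ B ∈ range N, (f1 A : ℂ) * (f3 B : ℂ) * Np A B) := by
    have h1 : (((∑ A ∈ range N, ∑ B ∈ range N, f1 A * f3 B *
      ZZ (2 ^ lb) T (nw s ks ls) Ap (QA s ks ls / 2 ^ k) (QA s ks ls)
        (QB s ks ls / 2 ^ l) (QB s ks ls) g1 g2 ((α0 * N + A : ℕ) : ℤ) ((β0 * N + B : ℕ) : ℤ) : ℝ)) : ℂ) =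
        ∑ A ∈ range N, ∑ B ∈ range N, (f1 A : ℂ) * (f3 B : ℂ) *
          ((X : ℂ) + NCp A B + Fp A B + Np A B) := by
      rw [Complex.ofReal_sum]
      apply sum_congr rfl
      intro A _
      rw [Complex.ofReal_sum]
      apply sum_congr rfl
      intro B _
      rw [Complex.ofReal_mul, Complex.ofReal_mul, hZ A B]
    have h2 : ((((∑ A ∈ range N, f1 A) * (∑ B ∈ range N, f3 B) * X : ℝ)) : ℂ) =
        ∑ A ∈ range N, ∑ B ∈ range N, (f1 A : ℂ) * (f3 B : ℂ) * (X : ℂ) := by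
      rw [Complex.ofReal_mul, Complex.ofReal_mul, Complex.ofReal_sum, Complex.ofReal_sum,
        sum_mul_sum, sum_mul]
      apply sum_congr rfl
      intro A _
      rw [sum_mul]
    rw [Complex.ofReal_sub, h1, h2]
    simp only [mul_add, sum_add_distrib]
    ring
  have hnorm : |∑ A ∈ range N, ∑ B ∈ range N, f1 A * f3 B *
      ZZ (2 ^ lb) T (nw s ks ls) Ap (QA s ks ls / 2 ^ k) (QA s ks ls)
        (QB s ks ls / 2 ^ l) (QB s ks ls) g1 g2 ((α0 * N + A : ℕ) : ℤ) ((β0 * N + B : ℕ) : ℤ) -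
      (∑ A ∈ range N, f1 A) * (∑ B ∈ range N, f3 B) * X| ≤
      ‖∑ A ∈ range N, ∑ B ∈ range N, (f1 A : ℂ) * (f3 B : ℂ) * NCp A B‖ +
      ‖∑ A ∈ range N, ∑ B ∈ range N, (f1 A : ℂ) * (f3 B : ℂ) * Fp A B‖ +
      ‖∑ A ∈ range N, ∑ B ∈ range N, (f1 A : ℂ) * (f3 B : ℂ) * Np A B‖ := by
    rw [← Real.norm_eq_abs, ← Complex.norm_real, hdiff]
    exact norm_add₃_le
  refine hnorm.trans ?_
  -- non core
  have hb1' : ‖∑ A ∈ range N, ∑ B ∈ range N, (f1 A : ℂ) * (f3 B : ℂ) * NCp A B‖ ≤ 1 / 2 ^ (28 * s) := by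
    refine le_trans ?_ hNC
    refine (norm_sum_le _ _).trans (sum_le_sum fun A _ => ?_)
    refine (norm_sum_le _ _).trans (sum_le_sum fun B _ => ?_)
    rw [norm_mul, hgn]
    apply mul_le_mul_of_nonneg_left _ (hfn A B)
    rw [hNCp]
    refine (norm_sum_le _ _).trans (sum_le_sum fun h _ => ?_)
    refine (norm_sum_le _ _).trans (sum_le_sum fun h' _ => ?_)
    split_ifs with hc
    · rw [f10_norm]
      have h1 := ct_nonneg (QA s ks ls / 2 ^ k) (QA s ks ls) h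
      have h2 := ct_nonneg (QB s ks ls / 2 ^ l) (QB s ks ls) h'
      have h3 := fej_nonneg (2 ^ lb) (ph s ks ls h h' (α0 * N + A) (β0 * N + B))
      have h4 := f10_WK s ks ls (ph s ks ls h h' (α0 * N + A) (β0 * N + B))
      apply mul_le_mul_of_nonneg_left _ (mul_nonneg h1 h2)
      exact mul_le_of_le_one_right h3 h4.2
    · rw [norm_zero]
  -- far
  have hb2' : ‖∑ A ∈ range N, ∑ B ∈ range N, (f1 A : ℂ) * (f3 B : ℂ) * Fp A B‖ ≤ X / 2 ^ (2 * s) := by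
    have h1 : ‖∑ A ∈ range N, ∑ B ∈ range N, (f1 A : ℂ) * (f3 B : ℂ) * Fp A B‖ ≤
        ∑ A ∈ range N, ∑ B ∈ range N, f1 A * f3 B * (X / 2 ^ (2 * s)) := by
      refine (norm_sum_le _ _).trans (sum_le_sum fun A hA => ?_)
      refine (norm_sum_le _ _).trans (sum_le_sum fun B hB => ?_)
      rw [norm_mul, hgn]
      apply mul_le_mul_of_nonneg_left _ (hfn A B)
      refine le_trans ?_ (hF A B (mem_range.mp hA) (mem_range.mp hB))
      rw [hFp]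
      refine (norm_sum_le _ _).trans (sum_le_sum fun h _ => ?_)
      refine (norm_sum_le _ _).trans (sum_le_sum fun h' _ => ?_)
      split_ifs with hc
      · rw [f10_norm]
      · rw [norm_zero]
    refine h1.trans ?_
    have h2 : ∑ A ∈ range N, ∑ B ∈ range N, f1 A * f3 B * (X / 2 ^ (2 * s)) =
        ((∑ A ∈ range N, f1 A) * (∑ B ∈ range N, f3 B)) * (X / 2 ^ (2 * s)) := by
      rw [sum_mul_sum, sum_mul]
      apply sum_congr rfl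
      intro A _
      rw [sum_mul]
    rw [h2]
    have h3 : (∑ A ∈ range N, f1 A) * (∑ B ∈ range N, f3 B) ≤ 1 :=
      mul_le_one₀ hf1.mass (sum_nonneg fun B _ => hf3.nn B) hf3.mass
    calc ((∑ A ∈ range N, f1 A) * (∑ B ∈ range N, f3 B)) * (X / 2 ^ (2 * s)) ≤
        1 * (X / 2 ^ (2 * s)) := mul_le_mul_of_nonneg_right h3 (by positivity)
      _ = X / 2 ^ (2 * s) := one_mul _
  -- near
  have hb3' : ‖∑ A ∈ range N, ∑ B ∈ range N, (f1 A : ℂ) * (f3 B : ℂ) * Np A B‖ ≤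
      4 * (X / 2 ^ (2 * s)) := by
    refine le_trans (le_of_eq ?_) hN
    rfl
  have hXl : 1 / 2 ^ (28 * s) ≤ X / 2 ^ (2 * s) := by
    rw [hX, div_div, div_le_div_iff₀ (by positivity) (by positivity), one_mul, ← pow_add, ← pow_add]
    apply pow_le_pow_right₀ (by norm_num)
    omega
  have h6 : (6 : ℝ) ≤ 2 ^ s := by
    calc (6 : ℝ) ≤ 2 ^ 3 := by norm_num
      _ ≤ 2 ^ s := pow_le_pow_right₀ (by norm_num) (by omega)
  have hfin : 6 * (X / 2 ^ (2 * s)) ≤ X / 2 ^ s := by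
    have h7 : (2 : ℝ) ^ (2 * s) = 2 ^ s * 2 ^ s := by rw [two_mul, pow_add]
    rw [h7, ← mul_div_assoc, div_le_div_iff₀ (by positivity) (by positivity)]
    have h8 : 0 < (2 : ℝ) ^ s := by positivity
    nlinarith [mul_pos hX0 h8]
  linarith

end MP_5e4520_nt.Ex
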