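import Pool.Agent.Lib.MP_5e4520_ntE.FDefs
set_option autoImplicit false

namespace MP_5e4520_nt.Ex

open Finset

/-- JOB F2.  The majorant `chi`. -/
theorem chi_nonneg (Q J a0 a : ℕ) : 0 ≤ chi Q J a0 a := by
  unfold chi
  have h := (fejn_bds J (((a : ℝ) - a0) / Q)).1
  positivity

/-- `fejn_low` -/
theorem chi_ge_one (Q J a0 a : ℕ) (hJ : 0 < J) (h : nd (((a : ℝ) - a0) / Q) ≤ 1 / (4 * J)) :
    1 ≤ chi Q J a0 a := by
  unfold chi
  have h1 := fejn_low J hJ _ h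
  calc (1 : ℝ) = 4 ^ Ap * (1 / 4) ^ Ap := by rw [← mul_pow]; norm_num
    _ ≤ _ := by
        apply mul_le_mul_of_nonneg_left _ (by positivity)
        exact pow_le_pow_left₀ (by norm_num) h1 _

private theorem F2_exp (Q J a0 : ℕ) (hQ : 0 < Q) (hJ : 0 < J) (m : ℤ) :
    ∑ a ∈ range Q, (chi Q J a0 a : ℂ) * ee ((a : ℝ) * m / Q) =
      4 ^ Ap * ∑ t ∈ Icc (-((Ap * J : ℕ) : ℤ)) ((Ap * J : ℕ) : ℤ),
        ((pw J Ap t : ℂ) * ee (-(t * a0 / Q))) * (if (Q : ℤ) ∣ t + m then (Q : ℂ) else 0) := by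
  have h1 : ∀ a : ℕ, (chi Q J a0 a : ℂ) * ee ((a : ℝ) * m / Q) =
      4 ^ Ap * ∑ t ∈ Icc (-((Ap * J : ℕ) : ℤ)) ((Ap * J : ℕ) : ℤ),
        ((pw J Ap t : ℂ) * ee (-(t * a0 / Q))) * ee ((a : ℝ) * ((t + m : ℤ) : ℝ) / Q) := by
    intro a
    unfold chi
    rw [Complex.ofReal_mul, ← pw_fourier J Ap hJ]
    push_cast
    rw [mul_assoc, Finset.sum_mul]
    congr 1
    refine Finset.sum_congr rfl fun t _ => ?_
    rw [mul_assoc, mul_assoc, ← ee_add, ← ee_add]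
    congr 2
    field_simp
    ring
  simp only [h1]
  rw [← Finset.mul_sum, Finset.sum_comm]
  congr 1
  refine Finset.sum_congr rfl fun t _ => ?_
  rw [← Finset.mul_sum, ee_orth Q hQ]

/-- Fourier: by `pw_fourier`, `chi = 4^Ap ∑_{|t| ≤ Ap J} pw J Ap t e(t(a-a0)/Q)`, so
`∑_{a<Q} chi(a) e(am/Q) = 4^Ap Q ∑_{t ≡ -m (Q), |t| ≤ Ap J} pw J Ap t e(-t a0/Q)`; in absolute value at most
`4^Ap Q · (1/J)·#{t}`; if `2 Ap J < Q` there is at most one such `t`, and none if `Q‖m/Q‖ > Ap J`. -/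
theorem chi_hat_le (Q J a0 : ℕ) (hJ : 0 < J) (hJQ : 2 * (Ap * J) < Q) (m : ℤ) :
    ‖∑ a ∈ range Q, (chi Q J a0 a : ℂ) * ee ((a : ℝ) * m / Q)‖ ≤ 4 ^ Ap * (Q / J) := by
  have hQ : 0 < Q := by omega
  rw [F2_exp Q J a0 hQ hJ m, norm_mul, norm_pow]
  have h4 : ‖(4 : ℂ)‖ = 4 := by simp
  rw [h4]
  apply mul_le_mul_of_nonneg_left _ (by positivity)
  refine (norm_sum_le _ _).trans ?_
  have h2 : ∀ t ∈ Icc (-((Ap * J : ℕ) : ℤ)) ((Ap * J : ℕ) : ℤ),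
      ‖((pw J Ap t : ℂ) * ee (-(t * a0 / Q))) * (if (Q : ℤ) ∣ t + m then (Q : ℂ) else 0)‖ ≤
        if (Q : ℤ) ∣ t + m then (Q : ℝ) / J else 0 := by
    intro t _
    rw [norm_mul, norm_mul, norm_ee, mul_one, Complex.norm_real, Real.norm_eq_abs,
      abs_of_nonneg (pw_nonneg J Ap t)]
    split_ifs with hd
    · rw [Complex.norm_natCast]
      have := pw_le J Ap hJ (by decide) t
      calc pw J Ap t * Q ≤ 1 / J * Q := mul_le_mul_of_nonneg_right this (by positivity)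
        _ = Q / J := by ring
    · simp
  refine (Finset.sum_le_sum h2).trans ?_
  rw [← Finset.sum_filter, Finset.sum_const, nsmul_eq_mul]
  have h3 : ((Icc (-((Ap * J : ℕ) : ℤ)) ((Ap * J : ℕ) : ℤ)).filter (fun t => (Q : ℤ) ∣ t + m)).card ≤ 1 := by
    rw [Finset.card_le_one]
    intro t ht t' ht'
    rw [Finset.mem_filter, Finset.mem_Icc] at ht ht'
    obtain ⟨⟨a1, a2⟩, a3⟩ := ht
    obtain ⟨⟨b1, b2⟩, b3⟩ := ht'
    have hd : (Q : ℤ) ∣ t - t' := by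
      have := dvd_sub a3 b3
      simpa using this
    have hlt : |t - t'| < (Q : ℤ) := by
      rw [abs_lt]
      have : (2 * (Ap * J) : ℤ) < Q := by exact_mod_cast hJQ
      push_cast at a1 a2 b1 b2
      constructor <;> linarith
    have := Int.eq_zero_of_abs_lt_dvd hd hlt
    linarith
  have h5 : (((Icc (-((Ap * J : ℕ) : ℤ)) ((Ap * J : ℕ) : ℤ)).filter
      (fun t => (Q : ℤ) ∣ t + m)).card : ℝ) ≤ 1 := by exact_mod_cast h3
  have h6 : (0 : ℝ) ≤ (Q : ℝ) / J := by positivity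
  nlinarith

theorem chi_hat_zero (Q J a0 : ℕ) (hJ : 0 < J) (hJQ : 2 * (Ap * J) < Q) (m : ℤ)
    (hm : (Ap * J : ℝ) < nd ((m : ℝ) / Q) * Q) :
    ∑ a ∈ range Q, (chi Q J a0 a : ℂ) * ee ((a : ℝ) * m / Q) = 0 := by
  have hQ : 0 < Q := by omega
  have hQ' : (0 : ℝ) < Q := by exact_mod_cast hQ
  rw [F2_exp Q J a0 hQ hJ m]
  rw [Finset.sum_eq_zero, mul_zero]
  intro t ht
  rw [Finset.mem_Icc] at ht
  rw [if_neg, mul_zero]
  rintro ⟨z, hz⟩
  have h1 : (m : ℝ) / Q = -((t : ℝ) / Q) + z := by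
    have : (m : ℝ) = Q * z - t := by
      have : m = Q * z - t := by linarith
      exact_mod_cast this
    rw [this]
    field_simp
    ring
  rw [h1, nd_add_int, nd_neg] at hm
  have h2 : nd ((t : ℝ) / Q) ≤ |(t : ℝ)| / Q := by
    have := nd_le ((t : ℝ) / Q) 0
    rw [Int.cast_zero, sub_zero, abs_div, abs_of_pos hQ'] at this
    exact this
  have h3 : |(t : ℝ)| ≤ Ap * J := by
    rw [abs_le]
    constructor
    · have := ht.1
      have h : (-((Ap * J : ℕ) : ℤ) : ℝ) ≤ (t : ℝ) := by exact_mod_cast this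
      push_cast at h
      linarith
    · have := ht.2
      have h : (t : ℝ) ≤ (((Ap * J : ℕ) : ℤ) : ℝ) := by exact_mod_cast this
      push_cast at h
      linarith
  have h4 : nd ((t : ℝ) / Q) * Q ≤ |(t : ℝ)| := by
    calc nd ((t : ℝ) / Q) * Q ≤ |(t : ℝ)| / Q * Q := mul_le_mul_of_nonneg_right h2 hQ'.le
      _ = |(t : ℝ)| := by field_simp
  linarith

theorem chi_sum (Q J a0 : ℕ) (hJ : 0 < J) (hJQ : 2 * (Ap * J) < Q) :
    ∑ a ∈ range Q, chi Q J a0 a ≤ 4 ^ Ap * (Q / J) := by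
  have h := chi_hat_le Q J a0 hJ hJQ 0
  have h1 : ∑ a ∈ range Q, (chi Q J a0 a : ℂ) * ee ((a : ℝ) * ((0 : ℤ) : ℝ) / Q) =
      ((∑ a ∈ range Q, chi Q J a0 a : ℝ) : ℂ) := by
    push_cast
    refine Finset.sum_congr rfl fun a _ => ?_
    simp [ee_zero]
  rw [h1, Complex.norm_real, Real.norm_eq_abs] at h
  exact (le_abs_self _).trans h

private theorem F2_fej_sum (Q J a0 : ℕ) (hJ : 0 < J) (hJQ : J ≤ Q) :
    ∑ a ∈ range Q, fej J (((a : ℝ) - a0) / Q) = Q := by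
  have hQ : 0 < Q := by omega
  have h1 : ((∑ a ∈ range Q, fej J (((a : ℝ) - a0) / Q) : ℝ) : ℂ) =
      ∑ t ∈ Ioo (-(J : ℤ)) J, ((tri J t : ℂ) * ee (-(t * a0 / Q))) *
        (if (Q : ℤ) ∣ t then (Q : ℂ) else 0) := by
    push_cast
    simp only [fej_tri J hJ]
    rw [Finset.sum_comm]
    refine Finset.sum_congr rfl fun t _ => ?_
    rw [← ee_orth Q hQ, Finset.mul_sum]
    refine Finset.sum_congr rfl fun a _ => ?_
    rw [mul_assoc, ← ee_add]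
    congr 2
    field_simp
    ring
  have h2 : ∑ t ∈ Ioo (-(J : ℤ)) J, ((tri J t : ℂ) * ee (-(t * a0 / Q))) *
        (if (Q : ℤ) ∣ t then (Q : ℂ) else 0) = Q := by
    rw [Finset.sum_eq_single (0 : ℤ)]
    · simp [tri, ee_zero]
    · intro t ht h0
      rw [Finset.mem_Ioo] at ht
      rw [if_neg, mul_zero]
      intro hd
      apply h0
      apply Int.eq_zero_of_abs_lt_dvd hd
      rw [abs_lt]
      have : (J : ℤ) ≤ Q := by exact_mod_cast hJQ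
      constructor <;> linarith [ht.1, ht.2]
    · intro h
      exact absurd (Finset.mem_Ioo.mpr ⟨by omega, by omega⟩) h
  rw [h2] at h1
  exact_mod_cast h1

open Classical in
/-- Tail: for `‖(a-a0)/Q‖ > η`, `(fej/J)^Ap ≤ (fej/J) (1/(4J²η²))^(Ap-1)` (`fejn_dec`), and `∑_a fej J((a-a0)/Q)/J ≤ Q/J`
(orthogonality, `J ≤ Q`). -/
theorem chi_tail (Q J a0 : ℕ) (hJ : 0 < J) (hJQ : 2 * (Ap * J) < Q) (η : ℝ) (hη : 0 < η) :
    ∑ a ∈ (range Q).filter (fun a : ℕ => η < nd (((a : ℝ) - a0) / Q)), chi Q J a0 a ≤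
      4 ^ Ap * (Q / J) * (1 / (4 * (J : ℝ) ^ 2 * η ^ 2)) ^ (Ap - 1) := by
  have hJ' : (0 : ℝ) < J := by exact_mod_cast hJ
  have hA : 1 ≤ Ap := by decide
  have hJQ' : J ≤ Q := by nlinarith
  set W : ℝ := (1 / (4 * (J : ℝ) ^ 2 * η ^ 2)) ^ (Ap - 1) with hW
  have hW0 : 0 ≤ W := pow_nonneg (by positivity) _
  have h1 : ∀ a ∈ (range Q).filter (fun a : ℕ => η < nd (((a : ℝ) - a0) / Q)),
      chi Q J a0 a ≤ (4 ^ Ap * W / J) * fej J (((a : ℝ) - a0) / Q) := by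
    intro a ha
    have hn := (Finset.mem_filter.mp ha).2
    have hn0 : 0 < nd (((a : ℝ) - a0) / Q) := hη.trans hn
    have b1 := fejn_dec J hJ _ hn0
    have b2 := (fejn_bds J (((a : ℝ) - a0) / Q)).1
    have b3 : fej J (((a : ℝ) - a0) / Q) / J ≤ 1 / (4 * (J : ℝ) ^ 2 * η ^ 2) := by
      refine b1.trans ?_
      apply one_div_le_one_div_of_le (by positivity)
      have : η ^ 2 ≤ nd (((a : ℝ) - a0) / Q) ^ 2 := pow_le_pow_left₀ hη.le hn.le 2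
      nlinarith [sq_nonneg (J : ℝ)]
    have b4 : (fej J (((a : ℝ) - a0) / Q) / J) ^ (Ap - 1) ≤ W := pow_le_pow_left₀ b2 b3 _
    unfold chi
    have b5 : (fej J (((a : ℝ) - a0) / Q) / J) ^ Ap =
        (fej J (((a : ℝ) - a0) / Q) / J) ^ (Ap - 1) * (fej J (((a : ℝ) - a0) / Q) / J) := by
      rw [← pow_succ, Nat.sub_add_cancel hA]
    rw [b5]
    calc (4 : ℝ) ^ Ap * ((fej J (((a : ℝ) - a0) / Q) / J) ^ (Ap - 1) *
          (fej J (((a : ℝ) - a0) / Q) / J)) ≤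
          4 ^ Ap * (W * (fej J (((a : ℝ) - a0) / Q) / J)) := by
          apply mul_le_mul_of_nonneg_left _ (by positivity)
          exact mul_le_mul_of_nonneg_right b4 b2
      _ = _ := by ring
  refine (Finset.sum_le_sum h1).trans ?_
  have h2 : ∑ a ∈ (range Q).filter (fun a : ℕ => η < nd (((a : ℝ) - a0) / Q)),
      (4 ^ Ap * W / J) * fej J (((a : ℝ) - a0) / Q) ≤
      ∑ a ∈ range Q, (4 ^ Ap * W / J) * fej J (((a : ℝ) - a0) / Q) := by
    apply Finset.sum_le_sum_of_subset_of_nonneg (Finset.filter_subset _ _)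
    intro a _ _
    have := fej_nonneg J (((a : ℝ) - a0) / Q)
    exact mul_nonneg (div_nonneg (mul_nonneg (pow_nonneg (by norm_num) _) hW0) hJ'.le) this
  refine h2.trans ?_
  rw [← Finset.mul_sum, F2_fej_sum Q J a0 hJ hJQ']
  clear_value W
  generalize (4 : ℝ) ^ Ap = c
  apply le_of_eq
  ring

end MP_5e4520_nt.Ex
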