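import Pool.Agent.Lib.MP_5e4520_ntE.F2
set_option autoImplicit false

namespace MP_5e4520_nt.Ex

open Finset

/-- transform of `chA` -/
noncomputable def hA (s ks ls α0 : ℕ) (m : ℤ) : ℂ :=
  ∑ a ∈ range (QA s ks ls), (chA s ks ls α0 a : ℂ) * ee ((a : ℝ) * m / QA s ks ls)

noncomputable def hB (s ks ls β0 : ℕ) (m : ℤ) : ℂ :=
  ∑ b ∈ range (QB s ks ls), (chB s ks ls β0 b : ℂ) * ee ((b : ℝ) * m / QB s ks ls)

/-! ### auxiliary: exchanging sums -/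

theorem F3_swap (B B' : Finset ℕ) (R : Finset ℤ) (u v : ℕ → ℂ) (X Y : ℤ → ℤ → ℂ)
    (e1 e2 e3 e4 : ℤ → ℕ → ℂ) :
    ∑ b ∈ B, ∑ b' ∈ B', u b * v b' *
      ((∑ t1 ∈ R, ∑ t2 ∈ R, X t1 t2 * (e1 t1 b * e2 t2 b')) *
        (∑ t3 ∈ R, ∑ t4 ∈ R, Y t3 t4 * (e3 t3 b * e4 t4 b'))) =
    ∑ t1 ∈ R, ∑ t2 ∈ R, ∑ t3 ∈ R, ∑ t4 ∈ R, X t1 t2 * Y t3 t4 *
      ((∑ b ∈ B, u b * (e1 t1 b * e3 t3 b)) * (∑ b' ∈ B', v b' * (e2 t2 b' * e4 t4 b'))) := by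
  have hR : ∀ F : ℤ → ℤ → ℤ → ℤ → ℂ, ∑ t1 ∈ R, ∑ t2 ∈ R, ∑ t3 ∈ R, ∑ t4 ∈ R, F t1 t2 t3 t4 =
      ∑ x ∈ R ×ˢ (R ×ˢ (R ×ˢ R)), F x.1 x.2.1 x.2.2.1 x.2.2.2 := by
    intro F
    rw [sum_product]
    refine sum_congr rfl fun t1 _ => ?_
    rw [sum_product]
    refine sum_congr rfl fun t2 _ => ?_
    rw [sum_product]
  rw [hR]
  have hL : ∀ b b' : ℕ, u b * v b' *
      ((∑ t1 ∈ R, ∑ t2 ∈ R, X t1 t2 * (e1 t1 b * e2 t2 b')) *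
        (∑ t3 ∈ R, ∑ t4 ∈ R, Y t3 t4 * (e3 t3 b * e4 t4 b'))) =
      ∑ x ∈ R ×ˢ (R ×ˢ (R ×ˢ R)), X x.1 x.2.1 * Y x.2.2.1 x.2.2.2 *
        ((u b * (e1 x.1 b * e3 x.2.2.1 b)) * (v b' * (e2 x.2.1 b' * e4 x.2.2.2 b'))) := by
    intro b b'
    rw [← hR (fun t1 t2 t3 t4 => X t1 t2 * Y t3 t4 *
        ((u b * (e1 t1 b * e3 t3 b)) * (v b' * (e2 t2 b' * e4 t4 b'))))]
    rw [sum_mul, mul_sum]
    refine sum_congr rfl fun t1 _ => ?_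
    rw [sum_mul, mul_sum]
    refine sum_congr rfl fun t2 _ => ?_
    rw [mul_sum, mul_sum]
    refine sum_congr rfl fun t3 _ => ?_
    rw [mul_sum, mul_sum]
    refine sum_congr rfl fun t4 _ => ?_
    ring
  simp only [hL]
  have h1 : ∀ b ∈ B, ∑ b' ∈ B', ∑ x ∈ R ×ˢ (R ×ˢ (R ×ˢ R)), X x.1 x.2.1 * Y x.2.2.1 x.2.2.2 *
        ((u b * (e1 x.1 b * e3 x.2.2.1 b)) * (v b' * (e2 x.2.1 b' * e4 x.2.2.2 b'))) =
      ∑ x ∈ R ×ˢ (R ×ˢ (R ×ˢ R)), ∑ b' ∈ B', X x.1 x.2.1 * Y x.2.2.1 x.2.2.2 *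
        ((u b * (e1 x.1 b * e3 x.2.2.1 b)) * (v b' * (e2 x.2.1 b' * e4 x.2.2.2 b'))) :=
    fun b _ => sum_comm
  rw [sum_congr rfl h1, sum_comm]
  refine sum_congr rfl fun x _ => ?_
  rw [sum_mul_sum, mul_sum]
  refine sum_congr rfl fun b _ => ?_
  rw [mul_sum]

theorem F3_psi (s ks ls : ℕ) (T : ℤ) (D : ℤ × ℤ) (a b : ℕ) :
    psi s ks ls T D a b =
      ∑ t ∈ Icc (-((Ap * nw s ks ls : ℕ) : ℤ)) ((Ap * nw s ks ls : ℕ) : ℤ),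
        (pw (nw s ks ls) Ap t : ℂ) * (ee ((a : ℝ) * (((T + t) * D.1 : ℤ) : ℝ) / QA s ks ls) *
          ee ((b : ℝ) * (((T + t) * D.2 : ℤ) : ℝ) / QB s ks ls)) := by
  have hn : 0 < nw s ks ls := by unfold nw; positivity
  unfold psi WK
  rw [← pw_fourier _ _ hn, mul_sum]
  refine sum_congr rfl fun t _ => ?_
  have e1 : ee (T * ph s ks ls D.1 D.2 a b) * ee (t * ph s ks ls D.1 D.2 a b) =
      ee ((a : ℝ) * (((T + t) * D.1 : ℤ) : ℝ) / QA s ks ls) *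
          ee ((b : ℝ) * (((T + t) * D.2 : ℤ) : ℝ) / QB s ks ls) := by
    rw [← ee_add, ← ee_add]
    congr 1
    unfold ph
    push_cast
    ring
  rw [← e1]
  ring

theorem F3_inner (s ks ls α0 : ℕ) (T : ℤ) (D D' : ℤ × ℤ) (b b' : ℕ) :
    ∑ a ∈ range (QA s ks ls), (chA s ks ls α0 a : ℂ) * psi s ks ls T D a b *
        (starRingEnd ℂ) (psi s ks ls T D' a b') =
      ∑ t ∈ Icc (-((Ap * nw s ks ls : ℕ) : ℤ)) ((Ap * nw s ks ls : ℕ) : ℤ),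
      ∑ t' ∈ Icc (-((Ap * nw s ks ls : ℕ) : ℤ)) ((Ap * nw s ks ls : ℕ) : ℤ),
        ((pw (nw s ks ls) Ap t : ℂ) * (pw (nw s ks ls) Ap t' : ℂ) *
          hA s ks ls α0 ((T + t) * D.1 - (T + t') * D'.1)) *
        (ee ((b : ℝ) * (((T + t) * D.2 : ℤ) : ℝ) / QB s ks ls) *
          ee (-((b' : ℝ) * (((T + t') * D'.2 : ℤ) : ℝ) / QB s ks ls))) := by
  simp only [F3_psi]
  have h1 : ∀ a ∈ range (QA s ks ls), (chA s ks ls α0 a : ℂ) *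
      (∑ t ∈ Icc (-((Ap * nw s ks ls : ℕ) : ℤ)) ((Ap * nw s ks ls : ℕ) : ℤ),
        (pw (nw s ks ls) Ap t : ℂ) * (ee ((a : ℝ) * (((T + t) * D.1 : ℤ) : ℝ) / QA s ks ls) *
          ee ((b : ℝ) * (((T + t) * D.2 : ℤ) : ℝ) / QB s ks ls))) *
      (starRingEnd ℂ) (∑ t ∈ Icc (-((Ap * nw s ks ls : ℕ) : ℤ)) ((Ap * nw s ks ls : ℕ) : ℤ),
        (pw (nw s ks ls) Ap t : ℂ) * (ee ((a : ℝ) * (((T + t) * D'.1 : ℤ) : ℝ) / QA s ks ls) *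
          ee ((b' : ℝ) * (((T + t) * D'.2 : ℤ) : ℝ) / QB s ks ls))) =
      ∑ t ∈ Icc (-((Ap * nw s ks ls : ℕ) : ℤ)) ((Ap * nw s ks ls : ℕ) : ℤ),
      ∑ t' ∈ Icc (-((Ap * nw s ks ls : ℕ) : ℤ)) ((Ap * nw s ks ls : ℕ) : ℤ),
        (chA s ks ls α0 a : ℂ) *
          ee ((a : ℝ) * (((T + t) * D.1 - (T + t') * D'.1 : ℤ) : ℝ) / QA s ks ls) *
        ((pw (nw s ks ls) Ap t : ℂ) * (pw (nw s ks ls) Ap t' : ℂ) *
        (ee ((b : ℝ) * (((T + t) * D.2 : ℤ) : ℝ) / QB s ks ls) *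
          ee (-((b' : ℝ) * (((T + t') * D'.2 : ℤ) : ℝ) / QB s ks ls)))) := by
    intro a _
    rw [map_sum, mul_assoc, sum_mul_sum, mul_sum]
    refine sum_congr rfl fun t _ => ?_
    rw [mul_sum]
    refine sum_congr rfl fun t' _ => ?_
    have e1 : ee ((a : ℝ) * (((T + t) * D.1 - (T + t') * D'.1 : ℤ) : ℝ) / QA s ks ls) =
        ee ((a : ℝ) * (((T + t) * D.1 : ℤ) : ℝ) / QA s ks ls) *
          (starRingEnd ℂ) (ee ((a : ℝ) * (((T + t') * D'.1 : ℤ) : ℝ) / QA s ks ls)) := by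
      rw [← ee_neg, ← ee_add]
      congr 1
      push_cast
      ring
    rw [e1, ee_neg, map_mul, map_mul, Complex.conj_ofReal]
    ring
  rw [sum_congr rfl h1, sum_comm]
  refine sum_congr rfl fun t _ => ?_
  rw [sum_comm]
  refine sum_congr rfl fun t' _ => ?_
  rw [← sum_mul, hA]
  ring

/-- JOB F3.  Frequency side of `I4`.  `psi T D a b = ∑_{|t| ≤ Ap n} pw n Ap t e((T+t) ph D a b)` (`pw_fourier`), so with
`q_i = T + t_i` the sum over `a, a', b, b'` factorises: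
`I4 = ∑ pw(t1)pw(t2)pw(t3)pw(t4) hA(q1 h1 - q2 h2) conj(hA(q3 h3 - q4 h4)) hB(q1 h1' - q3 h3') hB(-q2 h2' + q4 h4')`. -/
theorem I4_freq (s ks ls α0 β0 : ℕ) (T : ℤ) (D1 D2 D3 D4 : ℤ × ℤ) :
    I4 s ks ls α0 β0 T D1 D2 D3 D4 =
      ∑ t1 ∈ Icc (-((Ap * nw s ks ls : ℕ) : ℤ)) ((Ap * nw s ks ls : ℕ) : ℤ),
      ∑ t2 ∈ Icc (-((Ap * nw s ks ls : ℕ) : ℤ)) ((Ap * nw s ks ls : ℕ) : ℤ),
      ∑ t3 ∈ Icc (-((Ap * nw s ks ls : ℕ) : ℤ)) ((Ap * nw s ks ls : ℕ) : ℤ),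
      ∑ t4 ∈ Icc (-((Ap * nw s ks ls : ℕ) : ℤ)) ((Ap * nw s ks ls : ℕ) : ℤ),
        ((pw (nw s ks ls) Ap t1 * pw (nw s ks ls) Ap t2 * pw (nw s ks ls) Ap t3 *
          pw (nw s ks ls) Ap t4 : ℝ) : ℂ) *
        (hA s ks ls α0 ((T + t1) * D1.1 - (T + t2) * D2.1) *
          (starRingEnd ℂ) (hA s ks ls α0 ((T + t3) * D3.1 - (T + t4) * D4.1)) *
          hB s ks ls β0 ((T + t1) * D1.2 - (T + t3) * D3.2) *
          hB s ks ls β0 ((T + t4) * D4.2 - (T + t2) * D2.2)) := by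
  unfold I4
  simp only [F3_inner, map_sum, map_mul, Complex.conj_ofReal]
  have h2 : ∀ b b' : ℕ, ∀ t3 t4 : ℤ,
      ((pw (nw s ks ls) Ap t3 : ℂ) * (pw (nw s ks ls) Ap t4 : ℂ) *
        (starRingEnd ℂ) (hA s ks ls α0 ((T + t3) * D3.1 - (T + t4) * D4.1))) *
      ((starRingEnd ℂ) (ee ((b : ℝ) * (((T + t3) * D3.2 : ℤ) : ℝ) / QB s ks ls)) *
        (starRingEnd ℂ) (ee (-((b' : ℝ) * (((T + t4) * D4.2 : ℤ) : ℝ) / QB s ks ls)))) =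
      ((pw (nw s ks ls) Ap t3 : ℂ) * (pw (nw s ks ls) Ap t4 : ℂ) *
        (starRingEnd ℂ) (hA s ks ls α0 ((T + t3) * D3.1 - (T + t4) * D4.1))) *
      ((fun (t : ℤ) (b : ℕ) => ee (-((b : ℝ) * (((T + t) * D3.2 : ℤ) : ℝ) / QB s ks ls))) t3 b *
        (fun (t : ℤ) (b : ℕ) => ee ((b : ℝ) * (((T + t) * D4.2 : ℤ) : ℝ) / QB s ks ls)) t4 b') := by
    intro b b' t3 t4
    rw [← ee_neg, ← ee_neg, neg_neg]
  simp only [h2]
  have h3 := F3_swap (range (QB s ks ls)) (range (QB s ks ls))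
    (Icc (-((Ap * nw s ks ls : ℕ) : ℤ)) ((Ap * nw s ks ls : ℕ) : ℤ))
    (fun b => (chB s ks ls β0 b : ℂ)) (fun b => (chB s ks ls β0 b : ℂ))
    (fun t1 t2 => (pw (nw s ks ls) Ap t1 : ℂ) * (pw (nw s ks ls) Ap t2 : ℂ) *
        (hA s ks ls α0 ((T + t1) * D1.1 - (T + t2) * D2.1)))
    (fun t3 t4 => (pw (nw s ks ls) Ap t3 : ℂ) * (pw (nw s ks ls) Ap t4 : ℂ) *
        (starRingEnd ℂ) (hA s ks ls α0 ((T + t3) * D3.1 - (T + t4) * D4.1)))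
    (fun (t : ℤ) (b : ℕ) => ee ((b : ℝ) * (((T + t) * D1.2 : ℤ) : ℝ) / QB s ks ls))
    (fun (t : ℤ) (b : ℕ) => ee (-((b : ℝ) * (((T + t) * D2.2 : ℤ) : ℝ) / QB s ks ls)))
    (fun (t : ℤ) (b : ℕ) => ee (-((b : ℝ) * (((T + t) * D3.2 : ℤ) : ℝ) / QB s ks ls)))
    (fun (t : ℤ) (b : ℕ) => ee ((b : ℝ) * (((T + t) * D4.2 : ℤ) : ℝ) / QB s ks ls))
  refine h3.trans ?_
  refine sum_congr rfl fun t1 _ => sum_congr rfl fun t2 _ => sum_congr rfl fun t3 _ =>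
    sum_congr rfl fun t4 _ => ?_
  have e1 : ∑ b ∈ range (QB s ks ls), (chB s ks ls β0 b : ℂ) *
      (ee ((b : ℝ) * (((T + t1) * D1.2 : ℤ) : ℝ) / QB s ks ls) *
        ee (-((b : ℝ) * (((T + t3) * D3.2 : ℤ) : ℝ) / QB s ks ls))) =
      hB s ks ls β0 ((T + t1) * D1.2 - (T + t3) * D3.2) := by
    unfold hB
    refine sum_congr rfl fun b _ => ?_
    rw [← ee_add]
    congr 2
    push_cast
    ring
  have e2 : ∑ b ∈ range (QB s ks ls), (chB s ks ls β0 b : ℂ) *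
      (ee (-((b : ℝ) * (((T + t2) * D2.2 : ℤ) : ℝ) / QB s ks ls)) *
        ee ((b : ℝ) * (((T + t4) * D4.2 : ℤ) : ℝ) / QB s ks ls)) =
      hB s ks ls β0 ((T + t4) * D4.2 - (T + t2) * D2.2) := by
    unfold hB
    refine sum_congr rfl fun b _ => ?_
    rw [← ee_add]
    congr 2
    push_cast
    ring
  simp only [e1, e2]
  push_cast
  ring

/-! ### parameters -/

theorem F3_JA_pos (ks ls : ℕ) : 0 < JA ks ls := by unfold JA; positivity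

theorem F3_JB_pos (ks ls : ℕ) : 0 < JB ks ls := by unfold JB; positivity

theorem F3_QA_pos (s ks ls : ℕ) : 0 < QA s ks ls := by unfold QA; positivity

theorem F3_QB_pos (s ks ls : ℕ) : 0 < QB s ks ls := by unfold QB; positivity

theorem F3_six {E : ℕ} (hE : 2 ≤ E) : 2 * (Ap * 2 ^ (E - 2)) = 1500 * 2 ^ E := by
  obtain ⟨e, rfl⟩ := Nat.exists_eq_add_of_le hE
  have h1 : 2 + e - 2 = e := by omega
  rw [h1, pow_add]
  unfold Ap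
  ring

theorem F3_par {s ks ls : ℕ} (hp : ParF s ks ls) :
    1 ≤ s ∧ 10000000 * s ≤ ks ∧ 10000000 * s ≤ ls := by
  have h1 := hp.s1
  have h2 := hp.k1
  have h3 := hp.l1
  have h4 : 100 * Gc = 10000000 := rfl
  rw [h4] at h2 h3
  exact ⟨h1, h2, h3⟩

theorem F3_G : 3 * Gc + 100 = 300100 := rfl

theorem F3_JQA {s ks ls : ℕ} (hp : ParF s ks ls) : 2 * (Ap * JA ks ls) < QA s ks ls := by
  obtain ⟨h1, h2, h3⟩ := F3_par hp
  unfold JA QA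
  rw [F3_six (by omega), F3_G, pow_add _ (2 * ks + ls), mul_comm]
  apply Nat.mul_lt_mul_of_pos_left _ (by positivity)
  calc 1500 < 2 ^ 11 := by norm_num
    _ ≤ 2 ^ (300100 * s) := Nat.pow_le_pow_right (by norm_num) (by omega)

theorem F3_JQB {s ks ls : ℕ} (hp : ParF s ks ls) : 2 * (Ap * JB ks ls) < QB s ks ls := by
  obtain ⟨h1, h2, h3⟩ := F3_par hp
  unfold JB QB
  rw [F3_six (by omega), F3_G, pow_add _ (ks + 2 * ls), mul_comm]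
  apply Nat.mul_lt_mul_of_pos_left _ (by positivity)
  calc 1500 < 2 ^ 11 := by norm_num
    _ ≤ 2 ^ (300100 * s) := Nat.pow_le_pow_right (by norm_num) (by omega)

theorem F3_hA_le {s ks ls : ℕ} (hp : ParF s ks ls) (α0 : ℕ) (m : ℤ) :
    ‖hA s ks ls α0 m‖ ≤ 4 ^ Ap * ((QA s ks ls : ℝ) / JA ks ls) :=
  chi_hat_le (QA s ks ls) (JA ks ls) _ (F3_JA_pos ks ls) (F3_JQA hp) m

theorem F3_hB_le {s ks ls : ℕ} (hp : ParF s ks ls) (β0 : ℕ) (m : ℤ) :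
    ‖hB s ks ls β0 m‖ ≤ 4 ^ Ap * ((QB s ks ls : ℝ) / JB ks ls) :=
  chi_hat_le (QB s ks ls) (JB ks ls) _ (F3_JB_pos ks ls) (F3_JQB hp) m

theorem F3_hA_zero {s ks ls : ℕ} (hp : ParF s ks ls) (α0 : ℕ) (m : ℤ)
    (hm : ¬ nd ((m : ℝ) / QA s ks ls) * QA s ks ls ≤ Ap * JA ks ls) :
    hA s ks ls α0 m = 0 :=
  chi_hat_zero (QA s ks ls) (JA ks ls) _ (F3_JA_pos ks ls) (F3_JQA hp) m (not_le.mp hm)

theorem F3_hB_zero {s ks ls : ℕ} (hp : ParF s ks ls) (β0 : ℕ) (m : ℤ)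
    (hm : ¬ nd ((m : ℝ) / QB s ks ls) * QB s ks ls ≤ Ap * JB ks ls) :
    hB s ks ls β0 m = 0 :=
  chi_hat_zero (QB s ks ls) (JB ks ls) _ (F3_JB_pos ks ls) (F3_JQB hp) m (not_le.mp hm)

/-- `I4 = 0` unless frequency admissible (`chi_hat_zero`) -/
theorem I4_zero (s ks ls α0 β0 : ℕ) (hp : ParF s ks ls) (T : ℤ) (D1 D2 D3 D4 : ℤ × ℤ)
    (h : ¬ freqAdm s ks ls T D1 D2 D3 D4) : I4 s ks ls α0 β0 T D1 D2 D3 D4 = 0 := by
  rw [I4_freq]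
  refine sum_eq_zero fun t1 ht1 => sum_eq_zero fun t2 ht2 => sum_eq_zero fun t3 ht3 =>
    sum_eq_zero fun t4 ht4 => ?_
  have habs : ∀ t : ℤ, t ∈ Icc (-((Ap * nw s ks ls : ℕ) : ℤ)) ((Ap * nw s ks ls : ℕ) : ℤ) →
      |T + t - T| ≤ Ap * nw s ks ls := by
    intro t ht
    rw [mem_Icc] at ht
    have e : T + t - T = t := by ring
    rw [e, abs_le]
    push_cast at ht
    exact ht
  by_cases c1 : nd ((((T + t1) * D1.1 - (T + t2) * D2.1 : ℤ) : ℝ) / QA s ks ls) * QA s ks ls ≤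
      Ap * JA ks ls
  · by_cases c2 : nd ((((T + t3) * D3.1 - (T + t4) * D4.1 : ℤ) : ℝ) / QA s ks ls) * QA s ks ls ≤
      Ap * JA ks ls
    · by_cases c3 : nd ((((T + t1) * D1.2 - (T + t3) * D3.2 : ℤ) : ℝ) / QB s ks ls) *
        QB s ks ls ≤ Ap * JB ks ls
      · have c4 : ¬ nd ((((T + t2) * D2.2 - (T + t4) * D4.2 : ℤ) : ℝ) / QB s ks ls) *
            QB s ks ls ≤ Ap * JB ks ls := fun c4 =>
          h ⟨T + t1, T + t2, T + t3, T + t4, habs t1 ht1, habs t2 ht2, habs t3 ht3, habs t4 ht4,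
            c1, c2, c3, c4⟩
        have c5 : ¬ nd ((((T + t4) * D4.2 - (T + t2) * D2.2 : ℤ) : ℝ) / QB s ks ls) *
            QB s ks ls ≤ Ap * JB ks ls := by
          have e : (((T + t4) * D4.2 - (T + t2) * D2.2 : ℤ) : ℝ) / QB s ks ls =
              -((((T + t2) * D2.2 - (T + t4) * D4.2 : ℤ) : ℝ) / QB s ks ls) := by
            push_cast
            ring
          rw [e, nd_neg]
          exact c4
        rw [F3_hB_zero hp β0 _ c5]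
        ring
      · rw [F3_hB_zero hp β0 _ c3]
        ring
    · rw [F3_hA_zero hp α0 _ c2, map_zero]
      ring
  · rw [F3_hA_zero hp α0 _ c1]
    ring

/-! ### counting -/

theorem F3_card_int (A : Finset ℤ) (D : ℝ) (hD : 0 ≤ D)
    (h : ∀ t ∈ A, ∀ t' ∈ A, |((t - t' : ℤ) : ℝ)| ≤ D) : (A.card : ℝ) ≤ D + 1 := by
  rcases A.eq_empty_or_nonempty with rfl | hne
  · simp only [card_empty, Nat.cast_zero]
    linarith
  · set m := A.min' hne with hm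
    set M := A.max' hne with hM
    have h1 : A ⊆ Icc m M := fun t ht => mem_Icc.mpr ⟨A.min'_le t ht, A.le_max' t ht⟩
    have h2 := card_le_card h1
    rw [Int.card_Icc] at h2
    have h3 := h M (A.max'_mem hne) m (A.min'_mem hne)
    have h4 : m ≤ M := A.min'_le M (A.max'_mem hne)
    have h5 : (((M - m : ℤ)) : ℝ) ≤ D := (le_abs_self _).trans h3
    have h6 : (((M + 1 - m).toNat : ℕ) : ℝ) = ((M - m : ℤ) : ℝ) + 1 := by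
      have h7 : (((M + 1 - m).toNat : ℕ) : ℤ) = M + 1 - m := Int.toNat_of_nonneg (by linarith)
      have h8 : (((M + 1 - m).toNat : ℕ) : ℝ) = ((M + 1 - m : ℤ) : ℝ) := by exact_mod_cast h7
      rw [h8]
      push_cast
      ring
    calc (A.card : ℝ) ≤ (((M + 1 - m).toNat : ℕ) : ℝ) := by exact_mod_cast h2
      _ = ((M - m : ℤ) : ℝ) + 1 := h6
      _ ≤ D + 1 := by linarith

open Classical in
theorem F3_cnt (Q J n : ℕ) (hQ : 0 < Q) (T x h : ℤ) (hh : 0 < |h|)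
    (hbig : 2 * ((Ap * n : ℕ) : ℝ) * |(h : ℝ)| + 2 * (Ap * J : ℝ) < Q) :
    (((Icc (-((Ap * n : ℕ) : ℤ)) ((Ap * n : ℕ) : ℤ)).filter (fun t : ℤ =>
      nd (((x - (T + t) * h : ℤ) : ℝ) / Q) * Q ≤ Ap * J)).card : ℝ) ≤
      2 * (Ap * J : ℝ) / |(h : ℝ)| + 1 := by
  have hQ' : (0 : ℝ) < Q := by exact_mod_cast hQ
  have hh' : (0 : ℝ) < |(h : ℝ)| := by exact_mod_cast hh
  apply F3_card_int _ _ (by positivity)
  intro t ht t' ht'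
  rw [mem_filter, mem_Icc] at ht ht'
  obtain ⟨⟨a1, a2⟩, a3⟩ := ht
  obtain ⟨⟨b1, b2⟩, b3⟩ := ht'
  obtain ⟨z, hz⟩ := nd_exists (((x - (T + t) * h : ℤ) : ℝ) / Q)
  obtain ⟨z', hz'⟩ := nd_exists (((x - (T + t') * h : ℤ) : ℝ) / Q)
  rw [← hz] at a3
  rw [← hz'] at b3
  have key : ∀ (y : ℝ) (z : ℤ), |y / Q - z| * Q = |y - z * Q| := by
    intro y z
    rw [← abs_of_pos hQ', ← abs_mul, abs_of_pos hQ']
    congr 1
    field_simp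
  rw [key] at a3 b3
  have hdiff : |(((t - t' : ℤ) : ℝ) * h) - ((z' - z : ℤ) : ℝ) * Q| ≤ 2 * (Ap * J : ℝ) := by
    have e : (((t - t' : ℤ) : ℝ) * h) - ((z' - z : ℤ) : ℝ) * Q =
        (((x - (T + t') * h : ℤ) : ℝ) - z' * Q) - (((x - (T + t) * h : ℤ) : ℝ) - z * Q) := by
      push_cast
      ring
    rw [e]
    refine (abs_sub _ _).trans ?_
    linarith
  have htt : |((t - t' : ℤ) : ℝ)| ≤ 2 * ((Ap * n : ℕ) : ℝ) := by
    have c1 : -(2 * ((Ap * n : ℕ) : ℤ)) ≤ t - t' := by linarith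
    have c2 : t - t' ≤ 2 * ((Ap * n : ℕ) : ℤ) := by linarith
    rw [abs_le]
    constructor
    · have : ((-(2 * ((Ap * n : ℕ) : ℤ)) : ℤ) : ℝ) ≤ ((t - t' : ℤ) : ℝ) := by exact_mod_cast c1
      push_cast at this ⊢
      linarith
    · have : ((t - t' : ℤ) : ℝ) ≤ ((2 * ((Ap * n : ℕ) : ℤ) : ℤ) : ℝ) := by exact_mod_cast c2
      push_cast at this ⊢
      linarith
  have hzz : z' - z = 0 := by
    by_contra hne
    have h1 : (1 : ℝ) ≤ |((z' - z : ℤ) : ℝ)| := by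
      have : 1 ≤ |z' - z| := Int.one_le_abs hne
      exact_mod_cast this
    have h2 : (Q : ℝ) ≤ |((z' - z : ℤ) : ℝ) * Q| := by
      rw [abs_mul, abs_of_pos hQ']
      nlinarith
    have h3 : |((z' - z : ℤ) : ℝ) * Q| ≤ |((t - t' : ℤ) : ℝ) * h| + 2 * (Ap * J : ℝ) := by
      have e : ((z' - z : ℤ) : ℝ) * Q = (((t - t' : ℤ) : ℝ) * h) -
          ((((t - t' : ℤ) : ℝ) * h) - ((z' - z : ℤ) : ℝ) * Q) := by ring
      rw [e]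
      refine (abs_sub _ _).trans ?_
      linarith
    have h4 : |((t - t' : ℤ) : ℝ) * h| ≤ 2 * ((Ap * n : ℕ) : ℝ) * |(h : ℝ)| := by
      rw [abs_mul]
      exact mul_le_mul_of_nonneg_right htt hh'.le
    linarith
  rw [hzz] at hdiff
  simp only [Int.cast_zero, zero_mul, sub_zero] at hdiff
  rw [abs_mul] at hdiff
  rw [le_div_iff₀ hh']
  exact hdiff

theorem F3_final {s ks ls k : ℕ} (hs : 20 ≤ s) (hk : 10000000 * s ≤ k) (hl : 10000000 * s ≤ ls)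
    (h : ℝ) (h1 : (2 : ℝ) ^ (k + 99940 * s) ≤ h) (E n : ℕ) (hE : E = 2 * k + ls)
    (hn : n = k + ls + 98900 * s) (hks : ks = k) :
    2 * ((Ap : ℝ) * ((2 ^ (E - 2) : ℕ) : ℝ)) / h + 1 ≤
      ((2 ^ n : ℕ) : ℝ) * (2 : ℝ) ^ (1163 * s) / 2 ^ (2 * Gc * s) := by
  have hpos : (0 : ℝ) < h := lt_of_lt_of_le (by positivity) h1
  have h6 : 2 * ((Ap : ℝ) * ((2 ^ (E - 2) : ℕ) : ℝ)) = 1500 * 2 ^ E := by
    have := F3_six (E := E) (by omega)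
    exact_mod_cast this
  rw [h6]
  obtain ⟨m, hm⟩ : ∃ m, k + ls + 60 * s = m + 100000 * s :=
    ⟨k + ls + 60 * s - 100000 * s, by omega⟩
  have e1 : (1500 : ℝ) * 2 ^ E / h ≤ 1500 * 2 ^ m := by
    rw [div_le_iff₀ hpos]
    have e2 : (2 : ℝ) ^ E = 2 ^ m * 2 ^ (k + 99940 * s) := by
      rw [← pow_add]
      congr 1
      omega
    rw [e2]
    have : (2 : ℝ) ^ m * 2 ^ (k + 99940 * s) ≤ 2 ^ m * h :=
      mul_le_mul_of_nonneg_left h1 (by positivity)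
    linarith
  have e3 : ((2 ^ n : ℕ) : ℝ) * (2 : ℝ) ^ (1163 * s) / 2 ^ (2 * Gc * s) = 2 ^ (m + 3 * s) := by
    have hG : 2 * Gc = 200000 := rfl
    rw [hG, Nat.cast_pow, Nat.cast_ofNat, ← pow_add, div_eq_iff (by positivity), ← pow_add]
    congr 1
    omega
  rw [e3, pow_add]
  have e4 : (1501 : ℝ) ≤ 2 ^ (3 * s) := by
    calc (1501 : ℝ) ≤ 2 ^ 11 := by norm_num
      _ ≤ 2 ^ (3 * s) := pow_le_pow_right₀ (by norm_num) (by omega)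
  have e5 : (1 : ℝ) ≤ 2 ^ m := one_le_pow₀ (by norm_num)
  have e6 : (2 : ℝ) ^ m * 1501 ≤ 2 ^ m * 2 ^ (3 * s) := mul_le_mul_of_nonneg_left e4 (by positivity)
  linarith

theorem F3_big {s k ls : ℕ} (hs : 20 ≤ s) (hk : 10000000 * s ≤ k) (hl : 10000000 * s ≤ ls)
    (h : ℝ) (h2 : h ≤ (2 : ℝ) ^ (k + 100060 * s)) :
    2 * ((Ap * 2 ^ (k + ls + 98900 * s) : ℕ) : ℝ) * h +
      2 * ((Ap : ℝ) * ((2 ^ (2 * k + ls - 2) : ℕ) : ℝ)) < ((2 ^ (2 * k + ls + 300100 * s) : ℕ) : ℝ) := by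
  have h6 : 2 * ((Ap : ℝ) * ((2 ^ (2 * k + ls - 2) : ℕ) : ℝ)) = 1500 * 2 ^ (2 * k + ls) := by
    have := F3_six (E := 2 * k + ls) (by omega)
    exact_mod_cast this
  rw [h6]
  have hAp : (Ap : ℝ) = 3000 := by unfold Ap; norm_num
  have e1 : 2 * ((Ap * 2 ^ (k + ls + 98900 * s) : ℕ) : ℝ) * h ≤
      6000 * (2 ^ (2 * k + ls) * 2 ^ (198960 * s)) := by
    have e2 : ((Ap * 2 ^ (k + ls + 98900 * s) : ℕ) : ℝ) = 3000 * 2 ^ (k + ls + 98900 * s) := by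
      push_cast
      rw [hAp]
    rw [e2]
    calc 2 * (3000 * (2 : ℝ) ^ (k + ls + 98900 * s)) * h
        ≤ 2 * (3000 * (2 : ℝ) ^ (k + ls + 98900 * s)) * 2 ^ (k + 100060 * s) :=
          mul_le_mul_of_nonneg_left h2 (by positivity)
      _ = 6000 * (2 ^ (k + ls + 98900 * s) * 2 ^ (k + 100060 * s)) := by ring
      _ = 6000 * (2 ^ (2 * k + ls) * 2 ^ (198960 * s)) := by
          rw [← pow_add, ← pow_add]
          congr 2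
          omega
  have e3 : ((2 ^ (2 * k + ls + 300100 * s) : ℕ) : ℝ) = 2 ^ (2 * k + ls) * 2 ^ (300100 * s) := by
    push_cast
    rw [pow_add]
  rw [e3]
  have e4 : (2 : ℝ) ^ (300100 * s) = 2 ^ (198960 * s) * 2 ^ (101140 * s) := by
    rw [← pow_add]
    congr 1
    omega
  have e5 : (8000 : ℝ) ≤ 2 ^ (101140 * s) := by
    calc (8000 : ℝ) ≤ 2 ^ 13 := by norm_num
      _ ≤ 2 ^ (101140 * s) := pow_le_pow_right₀ (by norm_num) (by omega)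
  have e6 : (1 : ℝ) ≤ 2 ^ (198960 * s) := one_le_pow₀ (by norm_num)
  have hX : (0 : ℝ) < 2 ^ (2 * k + ls) := by positivity
  have e7 : (8000 : ℝ) * 2 ^ (198960 * s) ≤ 2 ^ (300100 * s) := by
    rw [e4, mul_comm]
    exact mul_le_mul_of_nonneg_left e5 (by positivity)
  have e8 : (2 : ℝ) ^ (2 * k + ls) * (8000 * 2 ^ (198960 * s)) ≤
      2 ^ (2 * k + ls) * 2 ^ (300100 * s) := mul_le_mul_of_nonneg_left e7 hX.le
  have e9 : (2 : ℝ) ^ (2 * k + ls) * 1 ≤ 2 ^ (2 * k + ls) * 2 ^ (198960 * s) :=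
    mul_le_mul_of_nonneg_left e6 hX.le
  nlinarith

open Classical in
/-- For `D ∈ NN` and fixed `x`, the number of `t ∈ [-Ap n, Ap n]` with `Q‖(x - (T+t) h)/Q‖ ≤ Ap J` is at most
`2 Ap J/|h| + 1`, if the numbers `(T+t) h` vary in an interval of length `< Q/2`: here
`|h| ≤ 2^(ks+(G+60)s)`, `2 Ap n |h| ≤ 6000 · 2^(2ks+ls+(2G-1040)s) < QA/2`. -/
theorem cnt_t (s ks ls : ℕ) (hs : 20 ≤ s) (hp : ParF s ks ls) (T x : ℤ) (h : ℤ)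
    (h1 : (2 : ℤ) ^ (ks + (Gc - 60) * s) ≤ |h|) (h2 : |h| ≤ (2 : ℤ) ^ (ks + (Gc + 60) * s)) :
    (((Icc (-((Ap * nw s ks ls : ℕ) : ℤ)) ((Ap * nw s ks ls : ℕ) : ℤ)).filter (fun t : ℤ =>
      nd (((x - (T + t) * h : ℤ) : ℝ) / QA s ks ls) * QA s ks ls ≤ Ap * JA ks ls)).card : ℝ) ≤
      nw s ks ls * (2 : ℝ) ^ (1163 * s) / 2 ^ (2 * Gc * s) := by
  obtain ⟨_, hk, hl⟩ := F3_par hp
  have g1 : Gc - 60 = 99940 := rfl
  have g2 : Gc + 60 = 100060 := rfl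
  have g3 : Gc - 1100 = 98900 := rfl
  rw [g1] at h1
  rw [g2] at h2
  have h1' : (2 : ℝ) ^ (ks + 99940 * s) ≤ |(h : ℝ)| := by exact_mod_cast h1
  have h2' : |(h : ℝ)| ≤ (2 : ℝ) ^ (ks + 100060 * s) := by exact_mod_cast h2
  have hh : 0 < |h| := lt_of_lt_of_le (by positivity) h1
  have hn : nw s ks ls = 2 ^ (ks + ls + 98900 * s) := by unfold nw; rw [g3]
  have hJ : JA ks ls = 2 ^ (2 * ks + ls - 2) := rfl
  have hQ : QA s ks ls = 2 ^ (2 * ks + ls + 300100 * s) := by unfold QA; rw [F3_G]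
  have hb := F3_big (s := s) (k := ks) (ls := ls) hs hk hl _ h2'
  rw [← hn, ← hJ, ← hQ] at hb
  refine (F3_cnt (QA s ks ls) (JA ks ls) (nw s ks ls) (F3_QA_pos s ks ls) T x h hh hb).trans ?_
  have hf := F3_final (ks := ks) hs hk hl _ h1' _ _ rfl rfl rfl
  rw [← hn, ← hJ] at hf
  exact hf

open Classical in
theorem cnt_t' (s ks ls : ℕ) (hs : 20 ≤ s) (hp : ParF s ks ls) (T x : ℤ) (h : ℤ)
    (h1 : (2 : ℤ) ^ (ls + (Gc - 60) * s) ≤ |h|) (h2 : |h| ≤ (2 : ℤ) ^ (ls + (Gc + 60) * s)) :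
    (((Icc (-((Ap * nw s ks ls : ℕ) : ℤ)) ((Ap * nw s ks ls : ℕ) : ℤ)).filter (fun t : ℤ =>
      nd (((x - (T + t) * h : ℤ) : ℝ) / QB s ks ls) * QB s ks ls ≤ Ap * JB ks ls)).card : ℝ) ≤
      nw s ks ls * (2 : ℝ) ^ (1163 * s) / 2 ^ (2 * Gc * s) := by
  obtain ⟨_, hk, hl⟩ := F3_par hp
  have g1 : Gc - 60 = 99940 := rfl
  have g2 : Gc + 60 = 100060 := rfl
  have g3 : Gc - 1100 = 98900 := rfl
  rw [g1] at h1
  rw [g2] at h2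
  have h1' : (2 : ℝ) ^ (ls + 99940 * s) ≤ |(h : ℝ)| := by exact_mod_cast h1
  have h2' : |(h : ℝ)| ≤ (2 : ℝ) ^ (ls + 100060 * s) := by exact_mod_cast h2
  have hh : 0 < |h| := lt_of_lt_of_le (by positivity) h1
  have hn : nw s ks ls = 2 ^ (ls + ks + 98900 * s) := by
    unfold nw; rw [g3, add_comm ks ls]
  have hJ : JB ks ls = 2 ^ (2 * ls + ks - 2) := by unfold JB; rw [add_comm ks (2 * ls)]
  have hQ : QB s ks ls = 2 ^ (2 * ls + ks + 300100 * s) := by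
    unfold QB; rw [F3_G, add_comm ks (2 * ls)]
  have hb := F3_big (s := s) (k := ls) (ls := ks) hs hl hk _ h2'
  rw [← hn, ← hJ, ← hQ] at hb
  refine (F3_cnt (QB s ks ls) (JB ks ls) (nw s ks ls) (F3_QB_pos s ks ls) T x h hh hb).trans ?_
  have hf := F3_final (ks := ls) hs hl hk _ h1' _ _ rfl rfl rfl
  rw [← hn, ← hJ] at hf
  exact hf

/-! ### the size of `I4` -/

theorem F3_NN {s ks ls α0 β0 : ℕ} {e1 e2 : ℤ} {D : ℤ × ℤ} (h : D ∈ NN s ks ls α0 β0 e1 e2)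
    (he1 : e1 = 1 ∨ e1 = -1) (he2 : e2 = 1 ∨ e2 = -1) :
    ((2 : ℤ) ^ (ks + (Gc - 60) * s) ≤ |D.1| ∧ |D.1| ≤ (2 : ℤ) ^ (ks + (Gc + 60) * s)) ∧
    ((2 : ℤ) ^ (ls + (Gc - 60) * s) ≤ |D.2| ∧ |D.2| ≤ (2 : ℤ) ^ (ls + (Gc + 60) * s)) := by
  simp only [NN, mem_filter, mem_product, mem_Icc] at h
  obtain ⟨⟨⟨a1, a2⟩, a3, a4⟩, b1, b2, _⟩ := h
  have hle : ∀ e x : ℤ, (e = 1 ∨ e = -1) → e * x ≤ |x| := by
    intro e x he
    rcases he with rfl | rfl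
    · rw [one_mul]; exact le_abs_self x
    · rw [neg_one_mul]; exact neg_le_abs x
  exact ⟨⟨b1.trans (hle _ _ he1), abs_le.mpr ⟨a1, a2⟩⟩, ⟨b2.trans (hle _ _ he2), abs_le.mpr ⟨a3, a4⟩⟩⟩

open Classical in
theorem F3_sum (R : Finset ℤ) (w : ℤ → ℝ) (g : ℤ → ℝ) (p : ℤ → Prop) (n c κ : ℝ) (hn : 0 < n)
    (hc : 0 ≤ c) (hw : ∀ t, 0 ≤ w t) (hw1 : ∀ t, w t ≤ 1 / n) (hg0 : ∀ t, ¬ p t → g t = 0)
    (hg1 : ∀ t, g t ≤ c) (hcard : ((R.filter p).card : ℝ) ≤ n * κ) :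
    ∑ t ∈ R, w t * g t ≤ c * κ := by
  have h1 : ∑ t ∈ R, w t * g t = ∑ t ∈ R.filter p, w t * g t := by
    symm
    apply sum_subset (filter_subset _ _)
    intro t ht ht'
    rw [hg0 t (fun hpt => ht' (mem_filter.mpr ⟨ht, hpt⟩)), mul_zero]
  rw [h1]
  calc ∑ t ∈ R.filter p, w t * g t ≤ ∑ _t ∈ R.filter p, (1 / n) * c := by
        refine sum_le_sum fun t _ => ?_
        calc w t * g t ≤ w t * c := mul_le_mul_of_nonneg_left (hg1 t) (hw t)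
          _ ≤ (1 / n) * c := mul_le_mul_of_nonneg_right (hw1 t) hc
    _ = ((R.filter p).card : ℝ) * ((1 / n) * c) := by rw [sum_const, nsmul_eq_mul]
    _ ≤ (n * κ) * ((1 / n) * c) := mul_le_mul_of_nonneg_right hcard (by positivity)
    _ = c * κ := by field_simp

theorem F3_sumA {s ks ls : ℕ} (hs : 20 ≤ s) (hp : ParF s ks ls) (α0 : ℕ) (T x : ℤ) (h : ℤ)
    (h1 : (2 : ℤ) ^ (ks + (Gc - 60) * s) ≤ |h|) (h2 : |h| ≤ (2 : ℤ) ^ (ks + (Gc + 60) * s)) :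
    ∑ t ∈ Icc (-((Ap * nw s ks ls : ℕ) : ℤ)) ((Ap * nw s ks ls : ℕ) : ℤ),
      pw (nw s ks ls) Ap t * ‖hA s ks ls α0 (x - (T + t) * h)‖ ≤
      (4 ^ Ap * ((QA s ks ls : ℝ) / JA ks ls)) * ((2 : ℝ) ^ (1163 * s) / 2 ^ (2 * Gc * s)) := by
  have hn : 0 < nw s ks ls := by unfold nw; positivity
  have hn' : (0 : ℝ) < nw s ks ls := by exact_mod_cast hn
  have hcnt := cnt_t s ks ls hs hp T x h h1 h2
  rw [mul_div_assoc] at hcnt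
  have hAp : 1 ≤ Ap := by unfold Ap; norm_num
  refine F3_sum _ _ _ (fun t : ℤ =>
      nd (((x - (T + t) * h : ℤ) : ℝ) / QA s ks ls) * QA s ks ls ≤ Ap * JA ks ls)
      (nw s ks ls) _ _ hn' (by positivity) (pw_nonneg _ _) (pw_le _ _ hn hAp) ?_ ?_ ?_
  · intro t ht
    rw [F3_hA_zero hp α0 _ ht, norm_zero]
  · intro t
    exact F3_hA_le hp α0 _
  · exact hcnt

theorem F3_sumB {s ks ls : ℕ} (hs : 20 ≤ s) (hp : ParF s ks ls) (β0 : ℕ) (T x : ℤ) (h : ℤ)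
    (h1 : (2 : ℤ) ^ (ls + (Gc - 60) * s) ≤ |h|) (h2 : |h| ≤ (2 : ℤ) ^ (ls + (Gc + 60) * s)) :
    ∑ t ∈ Icc (-((Ap * nw s ks ls : ℕ) : ℤ)) ((Ap * nw s ks ls : ℕ) : ℤ),
      pw (nw s ks ls) Ap t * ‖hB s ks ls β0 (x - (T + t) * h)‖ ≤
      (4 ^ Ap * ((QB s ks ls : ℝ) / JB ks ls)) * ((2 : ℝ) ^ (1163 * s) / 2 ^ (2 * Gc * s)) := by
  have hn : 0 < nw s ks ls := by unfold nw; positivity
  have hn' : (0 : ℝ) < nw s ks ls := by exact_mod_cast hn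
  have hcnt := cnt_t' s ks ls hs hp T x h h1 h2
  rw [mul_div_assoc] at hcnt
  have hAp : 1 ≤ Ap := by unfold Ap; norm_num
  refine F3_sum _ _ _ (fun t : ℤ =>
      nd (((x - (T + t) * h : ℤ) : ℝ) / QB s ks ls) * QB s ks ls ≤ Ap * JB ks ls)
      (nw s ks ls) _ _ hn' (by positivity) (pw_nonneg _ _) (pw_le _ _ hn hAp) ?_ ?_ ?_
  · intro t ht
    rw [F3_hB_zero hp β0 _ ht, norm_zero]
  · intro t
    exact F3_hB_le hp β0 _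
  · exact hcnt

/-- Size of `I4`.  In `I4_freq` bound every transform by `4^Ap Q/J`; for fixed `t1`: `t2` is in a set of size `cnt_t` (from
`hA(q1h1-q2h2)`), `t3` in a set of size `cnt_t'` (from `hB(q1h1'-q3h3')`), then `t4` in a set of size `cnt_t` (from
`hA(q3h3-q4h4)`); `pw ≤ 1/n`, `∑ pw = 1` (for `t1`).  `2^(3·1163 s - 6 G s)`. -/
theorem I4_size (s ks ls α0 β0 : ℕ) (hs : 20 ≤ s) (hp : ParF s ks ls) (T : ℤ) (e1 e2 : ℤ)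
    (D1 D2 D3 D4 : ℤ × ℤ) (h1 : D1 ∈ NN s ks ls α0 β0 e1 e2) (h2 : D2 ∈ NN s ks ls α0 β0 e1 e2)
    (h3 : D3 ∈ NN s ks ls α0 β0 e1 e2) (h4 : D4 ∈ NN s ks ls α0 β0 e1 e2)
    (he1 : e1 = 1 ∨ e1 = -1) (he2 : e2 = 1 ∨ e2 = -1) :
    ‖I4 s ks ls α0 β0 T D1 D2 D3 D4‖ ≤
      (4 ^ Ap * ((QA s ks ls : ℝ) / JA ks ls)) ^ 2 * (4 ^ Ap * ((QB s ks ls : ℝ) / JB ks ls)) ^ 2 *
        ((2 : ℝ) ^ (3489 * s) / 2 ^ (6 * Gc * s)) := by
  have hn : 0 < nw s ks ls := by unfold nw; positivity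
  set cA : ℝ := 4 ^ Ap * ((QA s ks ls : ℝ) / JA ks ls) with hcA
  set cB : ℝ := 4 ^ Ap * ((QB s ks ls : ℝ) / JB ks ls) with hcB
  set κ : ℝ := (2 : ℝ) ^ (1163 * s) / 2 ^ (2 * Gc * s) with hκ
  have hκ3 : (2 : ℝ) ^ (3489 * s) / 2 ^ (6 * Gc * s) = κ ^ 3 := by
    rw [hκ, div_pow, ← pow_mul, ← pow_mul]
    congr 2
    · ring
    · ring
  have hκ0 : 0 ≤ κ := by positivity
  have hcA0 : 0 ≤ cA := by positivity
  have hcB0 : 0 ≤ cB := by positivity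
  rw [hκ3]
  set R := Icc (-((Ap * nw s ks ls : ℕ) : ℤ)) ((Ap * nw s ks ls : ℕ) : ℤ) with hR
  set w : ℤ → ℝ := fun t => pw (nw s ks ls) Ap t with hw
  have hw0 : ∀ t, 0 ≤ w t := fun t => pw_nonneg _ _ t
  set α : ℤ → ℤ → ℝ := fun t1 t2 => ‖hA s ks ls α0 ((T + t1) * D1.1 - (T + t2) * D2.1)‖ with hα
  set α' : ℤ → ℤ → ℝ := fun t3 t4 => ‖hA s ks ls α0 ((T + t3) * D3.1 - (T + t4) * D4.1)‖ with hα'
  set β : ℤ → ℤ → ℝ := fun t1 t3 => ‖hB s ks ls β0 ((T + t1) * D1.2 - (T + t3) * D3.2)‖ with hβ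
  obtain ⟨d2, _⟩ := F3_NN h2 he1 he2
  obtain ⟨_, d3⟩ := F3_NN h3 he1 he2
  obtain ⟨d4, _⟩ := F3_NN h4 he1 he2
  have sα : ∀ t1, ∑ t2 ∈ R, w t2 * α t1 t2 ≤ cA * κ := fun t1 =>
    F3_sumA hs hp α0 T ((T + t1) * D1.1) D2.1 d2.1 d2.2
  have sα' : ∀ t3, ∑ t4 ∈ R, w t4 * α' t3 t4 ≤ cA * κ := fun t3 =>
    F3_sumA hs hp α0 T ((T + t3) * D3.1) D4.1 d4.1 d4.2
  have sβ : ∀ t1, ∑ t3 ∈ R, w t3 * β t1 t3 ≤ cB * κ := fun t1 =>
    F3_sumB hs hp β0 T ((T + t1) * D1.2) D3.2 d3.1 d3.2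
  have hα0 : ∀ t1 t2, 0 ≤ α t1 t2 := fun _ _ => norm_nonneg _
  have hα'0 : ∀ t1 t2, 0 ≤ α' t1 t2 := fun _ _ => norm_nonneg _
  have hβ0 : ∀ t1 t2, 0 ≤ β t1 t2 := fun _ _ => norm_nonneg _
  rw [I4_freq]
  calc ‖∑ t1 ∈ R, ∑ t2 ∈ R, ∑ t3 ∈ R, ∑ t4 ∈ R, ((w t1 * w t2 * w t3 * w t4 : ℝ) : ℂ) *
        (hA s ks ls α0 ((T + t1) * D1.1 - (T + t2) * D2.1) *
          (starRingEnd ℂ) (hA s ks ls α0 ((T + t3) * D3.1 - (T + t4) * D4.1)) *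
          hB s ks ls β0 ((T + t1) * D1.2 - (T + t3) * D3.2) *
          hB s ks ls β0 ((T + t4) * D4.2 - (T + t2) * D2.2))‖
      ≤ ∑ t1 ∈ R, ∑ t2 ∈ R, ∑ t3 ∈ R, ∑ t4 ∈ R,
        (w t1 * (w t2 * α t1 t2) * (w t3 * β t1 t3) * cB) * (w t4 * α' t3 t4) := by
        refine (norm_sum_le _ _).trans (sum_le_sum fun t1 _ => ?_)
        refine (norm_sum_le _ _).trans (sum_le_sum fun t2 _ => ?_)
        refine (norm_sum_le _ _).trans (sum_le_sum fun t3 _ => ?_)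
        refine (norm_sum_le _ _).trans (sum_le_sum fun t4 _ => ?_)
        rw [norm_mul, norm_mul, norm_mul, norm_mul, RCLike.norm_conj, Complex.norm_real,
          Real.norm_of_nonneg (mul_nonneg (mul_nonneg (mul_nonneg (hw0 t1) (hw0 t2)) (hw0 t3))
            (hw0 t4))]
        have hb := F3_hB_le hp β0 ((T + t4) * D4.2 - (T + t2) * D2.2)
        rw [← hcB] at hb
        have h5 : 0 ≤ w t1 * w t2 * w t3 * w t4 * (α t1 t2 * α' t3 t4 * β t1 t3) :=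
          mul_nonneg (mul_nonneg (mul_nonneg (mul_nonneg (hw0 t1) (hw0 t2)) (hw0 t3)) (hw0 t4))
            (mul_nonneg (mul_nonneg (hα0 _ _) (hα'0 _ _)) (hβ0 _ _))
        have h6 := mul_le_mul_of_nonneg_left hb h5
        calc _ = w t1 * w t2 * w t3 * w t4 * (α t1 t2 * α' t3 t4 * β t1 t3) *
              ‖hB s ks ls β0 ((T + t4) * D4.2 - (T + t2) * D2.2)‖ := by ring
          _ ≤ w t1 * w t2 * w t3 * w t4 * (α t1 t2 * α' t3 t4 * β t1 t3) * cB := h6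
          _ = _ := by ring
    _ ≤ ∑ t1 ∈ R, ∑ t2 ∈ R, ∑ t3 ∈ R,
        (w t1 * (w t2 * α t1 t2) * cB * (cA * κ)) * (w t3 * β t1 t3) := by
        refine sum_le_sum fun t1 _ => sum_le_sum fun t2 _ => sum_le_sum fun t3 _ => ?_
        rw [← mul_sum]
        have h5 : 0 ≤ w t1 * (w t2 * α t1 t2) * (w t3 * β t1 t3) * cB :=
          mul_nonneg (mul_nonneg (mul_nonneg (hw0 _) (mul_nonneg (hw0 _) (hα0 _ _)))
            (mul_nonneg (hw0 _) (hβ0 _ _))) hcB0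
        calc _ ≤ (w t1 * (w t2 * α t1 t2) * (w t3 * β t1 t3) * cB) * (cA * κ) :=
              mul_le_mul_of_nonneg_left (sα' t3) h5
          _ = _ := by ring
    _ ≤ ∑ t1 ∈ R, ∑ t2 ∈ R, (w t1 * cB * (cA * κ) * (cB * κ)) * (w t2 * α t1 t2) := by
        refine sum_le_sum fun t1 _ => sum_le_sum fun t2 _ => ?_
        rw [← mul_sum]
        have h5 : 0 ≤ w t1 * (w t2 * α t1 t2) * cB * (cA * κ) :=
          mul_nonneg (mul_nonneg (mul_nonneg (hw0 _) (mul_nonneg (hw0 _) (hα0 _ _))) hcB0)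
            (mul_nonneg hcA0 hκ0)
        calc _ ≤ (w t1 * (w t2 * α t1 t2) * cB * (cA * κ)) * (cB * κ) :=
              mul_le_mul_of_nonneg_left (sβ t1) h5
          _ = _ := by ring
    _ ≤ ∑ t1 ∈ R, (cB * (cA * κ) * (cB * κ) * (cA * κ)) * w t1 := by
        refine sum_le_sum fun t1 _ => ?_
        rw [← mul_sum]
        have h5 : 0 ≤ w t1 * cB * (cA * κ) * (cB * κ) :=
          mul_nonneg (mul_nonneg (mul_nonneg (hw0 _) hcB0) (mul_nonneg hcA0 hκ0))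
            (mul_nonneg hcB0 hκ0)
        calc _ ≤ (w t1 * cB * (cA * κ) * (cB * κ)) * (cA * κ) :=
              mul_le_mul_of_nonneg_left (sα t1) h5
          _ = _ := by ring
    _ = cA ^ 2 * cB ^ 2 * κ ^ 3 := by
        rw [← mul_sum]
        have : ∑ t1 ∈ R, w t1 = 1 := pw_sum _ _ hn
        rw [this]
        ring

end MP_5e4520_nt.Ex
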