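import Pool.Agent.Lib.MP_5e4520_ntE.F2
set_option autoImplicit false

namespace MP_5e4520_nt.Ex

open Finset

theorem WK_bds (s ks ls : ℕ) (θ : ℝ) : 0 ≤ WK s ks ls θ ∧ WK s ks ls θ ≤ 1 := by
  unfold WK
  obtain ⟨h0, h1⟩ := fejn_bds (nw s ks ls) θ
  exact ⟨pow_nonneg h0 _, pow_le_one₀ h0 h1⟩

/-- `|psi| = WK ≤ 1` -/
theorem norm_psi (s ks ls : ℕ) (T : ℤ) (D : ℤ × ℤ) (a b : ℕ) :
    ‖psi s ks ls T D a b‖ = WK s ks ls (ph s ks ls D.1 D.2 a b) := by
  unfold psi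
  rw [norm_mul, norm_ee, one_mul, Complex.norm_real, Real.norm_eq_abs,
    abs_of_nonneg (WK_bds s ks ls _).1]

/-- if `‖θ‖ > 2^(1000s)/n` then `WK θ ≤ (1/(4·2^(2000 s)))^3000 ≤ 2^(-6000000 s)` -/
theorem WK_far (s ks ls : ℕ) (θ : ℝ) (h : 2 ^ (1000 * s) / (nw s ks ls : ℝ) < nd θ) :
    WK s ks ls θ ≤ 1 / 2 ^ (6000000 * s) := by
  have hn : 0 < nw s ks ls := by unfold nw; positivity
  have hnR : (0 : ℝ) < nw s ks ls := by exact_mod_cast hn
  have hnd : 0 < nd θ := lt_trans (by positivity) h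
  have h1 := fejn_dec (nw s ks ls) hn θ hnd
  have h2 : (2 : ℝ) ^ (1000 * s) < nw s ks ls * nd θ := by
    rw [div_lt_iff₀ hnR] at h
    linarith
  have h3 : (2 : ℝ) ^ (2000 * s) ≤ 4 * (nw s ks ls : ℝ) ^ 2 * nd θ ^ 2 := by
    have e1 : (2 : ℝ) ^ (2000 * s) = (2 ^ (1000 * s)) ^ 2 := by
      rw [← pow_mul]
      congr 1
      ring
    have e2 : ((2 : ℝ) ^ (1000 * s)) ^ 2 ≤ ((nw s ks ls : ℝ) * nd θ) ^ 2 :=
      pow_le_pow_left₀ (by positivity) h2.le 2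
    rw [e1]
    nlinarith [sq_nonneg ((nw s ks ls : ℝ) * nd θ)]
  have h4 : fej (nw s ks ls) θ / nw s ks ls ≤ 1 / 2 ^ (2000 * s) :=
    h1.trans (one_div_le_one_div_of_le (by positivity) h3)
  have h5 : WK s ks ls θ ≤ (1 / 2 ^ (2000 * s)) ^ Ap := by
    unfold WK
    exact pow_le_pow_left₀ (fejn_bds _ _).1 h4 _
  refine h5.trans (le_of_eq ?_)
  rw [one_div_pow, ← pow_mul]
  congr 2
  unfold Ap
  ring

private theorem F4_sum (B : Finset ℕ) (f g : ℕ → ℝ) (u v : ℝ) :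
    ∑ b ∈ B, ∑ b' ∈ B, (f b * f b' * u + v * (g b * f b') + v * (f b * g b')) =
      (∑ b ∈ B, f b) * (∑ b ∈ B, f b) * u + v * ((∑ b ∈ B, g b) * (∑ b ∈ B, f b)) +
        v * ((∑ b ∈ B, f b) * (∑ b ∈ B, g b)) := by
  simp only [sum_add_distrib, ← sum_mul, ← mul_sum]

/-- the abstract estimate -/
private theorem F4_core (A B : Finset ℕ) (cA cB : ℕ → ℝ) (fa fb : ℕ → Prop) [DecidablePred fa]
    [DecidablePred fb] (w1 w2 w3 w4 : ℕ → ℕ → ℝ) (X1 X3 ε1 ε2 : ℝ)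
    (hcA : ∀ a, 0 ≤ cA a) (hcB : ∀ b, 0 ≤ cB b)
    (h1 : ∀ a b, 0 ≤ w1 a b ∧ w1 a b ≤ 1) (h2 : ∀ a b, 0 ≤ w2 a b ∧ w2 a b ≤ 1)
    (h3 : ∀ a b, 0 ≤ w3 a b ∧ w3 a b ≤ 1) (h4 : ∀ a b, 0 ≤ w4 a b ∧ w4 a b ≤ 1)
    (hε1 : 0 ≤ ε1) (hε2 : 0 ≤ ε2)
    (sA : ∑ a ∈ A, cA a ≤ X1) (sB : ∑ b ∈ B, cB b ≤ X3)
    (tA : ∑ a ∈ A.filter fa, cA a ≤ X1 * ε1) (tB : ∑ b ∈ B.filter fb, cB b ≤ X3 * ε1)
    (hw : ∀ a a' b b', ¬ fa a → ¬ fa a' → ¬ fb b → ¬ fb b' →
      w1 a b * w2 a b' * (w3 a' b * w4 a' b') ≤ ε2) :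
    ∑ b ∈ B, ∑ b' ∈ B, cB b * cB b' * ((∑ a ∈ A, cA a * w1 a b * w2 a b') *
      (∑ a ∈ A, cA a * w3 a b * w4 a b')) ≤ X1 ^ 2 * X3 ^ 2 * (4 * ε1 + ε2) := by
  set SA := ∑ a ∈ A, cA a with hSA
  set SB := ∑ b ∈ B, cB b with hSB
  set TA := ∑ a ∈ A.filter fa, cA a with hTA
  set TB := ∑ b ∈ B.filter fb, cB b with hTB
  have hTA' : ∑ a ∈ A, cA a * (if fa a then 1 else 0) = TA := by
    rw [hTA, sum_filter]
    exact sum_congr rfl fun a _ => by split_ifs <;> simp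
  have hTB' : ∑ b ∈ B, cB b * (if fb b then 1 else 0) = TB := by
    rw [hTB, sum_filter]
    exact sum_congr rfl fun a _ => by split_ifs <;> simp
  have pSA : 0 ≤ SA := sum_nonneg fun a _ => hcA a
  have pSB : 0 ≤ SB := sum_nonneg fun a _ => hcB a
  have pTA : 0 ≤ TA := sum_nonneg fun a _ => hcA a
  have pTB : 0 ≤ TB := sum_nonneg fun a _ => hcB a
  have hW : ∀ a a' b b', w1 a b * w2 a b' * (w3 a' b * w4 a' b') ≤
      (if fa a then 1 else 0) + (if fa a' then 1 else 0) + (if fb b then 1 else 0) +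
        (if fb b' then 1 else 0) + ε2 := by
    intro a a' b b'
    have hle1 : w1 a b * w2 a b' * (w3 a' b * w4 a' b') ≤ 1 := by
      have e1 : w1 a b * w2 a b' ≤ 1 := mul_le_one₀ (h1 _ _).2 (h2 _ _).1 (h2 _ _).2
      have e2 : w3 a' b * w4 a' b' ≤ 1 := mul_le_one₀ (h3 _ _).2 (h4 _ _).1 (h4 _ _).2
      exact mul_le_one₀ e1 (mul_nonneg (h3 _ _).1 (h4 _ _).1) e2
    have i0 : ∀ (p : Prop) [Decidable p], (0 : ℝ) ≤ if p then 1 else 0 := by
      intro p _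
      split_ifs <;> norm_num
    have ia := i0 (fa a)
    have ia' := i0 (fa a')
    have ib := i0 (fb b)
    have ib' := i0 (fb b')
    by_cases c1 : fa a
    · rw [if_pos c1] at ia ⊢
      linarith
    by_cases c2 : fa a'
    · rw [if_pos c2] at ia' ⊢
      linarith
    by_cases c3 : fb b
    · rw [if_pos c3] at ib ⊢
      linarith
    by_cases c4 : fb b'
    · rw [if_pos c4] at ib' ⊢
      linarith
    have := hw a a' b b' c1 c2 c3 c4
    linarith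
  have hin : ∀ b b', (∑ a ∈ A, cA a * w1 a b * w2 a b') * (∑ a ∈ A, cA a * w3 a b * w4 a b') ≤
      2 * TA * SA + SA ^ 2 * ((if fb b then 1 else 0) + (if fb b' then 1 else 0) + ε2) := by
    intro b b'
    calc (∑ a ∈ A, cA a * w1 a b * w2 a b') * (∑ a ∈ A, cA a * w3 a b * w4 a b')
        = ∑ a ∈ A, ∑ a' ∈ A, cA a * cA a' * (w1 a b * w2 a b' * (w3 a' b * w4 a' b')) := by
          rw [sum_mul_sum]
          exact sum_congr rfl fun a _ => sum_congr rfl fun a' _ => by ring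
      _ ≤ ∑ a ∈ A, ∑ a' ∈ A, cA a * cA a' * ((if fa a then 1 else 0) + (if fa a' then 1 else 0) +
            (if fb b then 1 else 0) + (if fb b' then 1 else 0) + ε2) :=
          sum_le_sum fun a _ => sum_le_sum fun a' _ =>
            mul_le_mul_of_nonneg_left (hW a a' b b') (mul_nonneg (hcA a) (hcA a'))
      _ = ∑ a ∈ A, ∑ a' ∈ A, ((cA a * (if fa a then 1 else 0)) * cA a' +
            cA a * (cA a' * (if fa a' then 1 else 0)) +
            cA a * cA a' * ((if fb b then 1 else 0) + (if fb b' then 1 else 0) + ε2)) :=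
          sum_congr rfl fun a _ => sum_congr rfl fun a' _ => by ring
      _ = (∑ a ∈ A, cA a * (if fa a then 1 else 0)) * (∑ a ∈ A, cA a) +
            (∑ a ∈ A, cA a) * (∑ a ∈ A, cA a * (if fa a then 1 else 0)) +
            (∑ a ∈ A, cA a) * (∑ a ∈ A, cA a) *
              ((if fb b then 1 else 0) + (if fb b' then 1 else 0) + ε2) := by
          rw [sum_mul_sum, sum_mul_sum, sum_mul_sum, sum_mul, ← sum_add_distrib, ← sum_add_distrib]
          exact sum_congr rfl fun a _ => by rw [sum_mul, ← sum_add_distrib, ← sum_add_distrib]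
      _ = _ := by rw [hTA']; ring
  calc ∑ b ∈ B, ∑ b' ∈ B, cB b * cB b' * ((∑ a ∈ A, cA a * w1 a b * w2 a b') *
        (∑ a ∈ A, cA a * w3 a b * w4 a b'))
      ≤ ∑ b ∈ B, ∑ b' ∈ B, cB b * cB b' * (2 * TA * SA +
          SA ^ 2 * ((if fb b then 1 else 0) + (if fb b' then 1 else 0) + ε2)) :=
        sum_le_sum fun b _ => sum_le_sum fun b' _ =>
          mul_le_mul_of_nonneg_left (hin b b') (mul_nonneg (hcB b) (hcB b'))
    _ = ∑ b ∈ B, ∑ b' ∈ B, (cB b * cB b' * (2 * TA * SA + SA ^ 2 * ε2) +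
          SA ^ 2 * ((cB b * (if fb b then 1 else 0)) * cB b') +
          SA ^ 2 * (cB b * (cB b' * (if fb b' then 1 else 0)))) :=
        sum_congr rfl fun b _ => sum_congr rfl fun b' _ => by ring
    _ = SB * SB * (2 * TA * SA + SA ^ 2 * ε2) + SA ^ 2 * (TB * SB) + SA ^ 2 * (SB * TB) := by
        rw [F4_sum B cB (fun b => cB b * (if fb b then 1 else 0)), hTB']
    _ ≤ X3 * X3 * (2 * (X1 * ε1) * X1 + X1 ^ 2 * ε2) + X1 ^ 2 * ((X3 * ε1) * X3) +
          X1 ^ 2 * (X3 * (X3 * ε1)) := by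
        have pX1 : 0 ≤ X1 := pSA.trans sA
        have pX3 : 0 ≤ X3 := pSB.trans sB
        gcongr
    _ = _ := by ring

private theorem F4_conj (a b : ℕ → ℂ) (S : Finset ℕ) (c : ℕ → ℝ) (hc : ∀ x, 0 ≤ c x) :
    ‖∑ x ∈ S, (c x : ℂ) * a x * (starRingEnd ℂ) (b x)‖ ≤ ∑ x ∈ S, c x * ‖a x‖ * ‖b x‖ := by
  refine (norm_sum_le _ _).trans (le_of_eq (sum_congr rfl fun x _ => ?_))
  rw [norm_mul, norm_mul, RCLike.norm_conj, Complex.norm_real, Real.norm_eq_abs,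
    abs_of_nonneg (hc x)]

private theorem F4_exp (s : ℕ) (hs : 20 ≤ s) :
    4 * (1 / (2 : ℝ) ^ (2000 * s - 2)) ^ (Ap - 1) + 1 / 2 ^ (6000000 * s) ≤
      1 / 2 ^ (50 * Gc * s) := by
  have e1 : ((1 : ℝ) / (2 : ℝ) ^ (2000 * s - 2)) ^ (Ap - 1) ≤ 1 / 2 ^ (5000000 * s + 3) := by
    rw [one_div_pow, ← pow_mul]
    refine one_div_le_one_div_of_le (by positivity) (pow_le_pow_right₀ (by norm_num) ?_)
    unfold Ap
    omega
  have e2 : (1 : ℝ) / 2 ^ (6000000 * s) ≤ 1 / 2 ^ (5000000 * s + 3) :=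
    one_div_le_one_div_of_le (by positivity) (pow_le_pow_right₀ (by norm_num) (by omega))
  have e3 : 50 * Gc * s = 5000000 * s := by unfold Gc; rfl
  rw [e3]
  have e4 : (1 : ℝ) / 2 ^ (5000000 * s + 3) = (1 / 2 ^ (5000000 * s)) / 8 := by
    rw [pow_add]
    norm_num
    ring
  have e5 : (0 : ℝ) < 1 / 2 ^ (5000000 * s) := by positivity
  rw [e4] at e1 e2
  linarith

/-- JOB F4.  Physical side of `I4`: `‖I4‖ ≤ ∑_{a,a',b,b'} χA(a)χA(a')χB(b)χB(b') WK WK WK WK` (phases of modulus one).  If the quadruple is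
not physically admissible then for every `(a,a',b,b')` either one of the four points is far from the cell (`chi_tail` with
`η = 2^(1000s)/2^us`, `J = 2^(us-2)`: factor `(1/(4J²η²))^2999 = 2^(-(2000s-2)·2999)`) or one of the four `WK` is
`≤ 2^(-6000000 s)` (`WK_far`).  Total `≤ X1² X3² (4·2^(-(2000s-2)2999) + 2^(-6000000s)) ≤ X1² X3²/2^(50 G s)`, `50 G = 5000000`,
`X1 = 4^Ap QA/JA`, `X3 = 4^Ap QB/JB` (`chi_sum`). -/
theorem I4_phys (s ks ls α0 β0 : ℕ) (hs : 20 ≤ s) (hp : ParF s ks ls) (T : ℤ)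
    (D1 D2 D3 D4 : ℤ × ℤ) (h : ¬ physAdm s ks ls α0 β0 D1 D2 D3 D4) :
    ‖I4 s ks ls α0 β0 T D1 D2 D3 D4‖ ≤
      (4 ^ Ap * ((QA s ks ls : ℝ) / JA ks ls)) ^ 2 * (4 ^ Ap * ((QB s ks ls : ℝ) / JB ks ls)) ^ 2 /
        2 ^ (50 * Gc * s) := by
  classical
  have hks : 2 ≤ ks := by
    have := hp.k1
    have h1 : 100 * Gc * s = 10000000 * s := by unfold Gc; rfl
    omega
  have hls : 2 ≤ ls := by
    have := hp.l1
    have h1 : 100 * Gc * s = 10000000 * s := by unfold Gc; rfl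
    omega
  have hGs : (3 * Gc + 100) * s = 300100 * s := by unfold Gc; rfl
  -- conditions of the tail lemma
  have hlt : ∀ u : ℕ, 2 ≤ u → 2 * (Ap * 2 ^ (u - 2)) < 2 ^ (u + (3 * Gc + 100) * s) := by
    intro u hu
    have h1 : 2 ^ (u + (3 * Gc + 100) * s) = 2 ^ (u - 2) * 2 ^ (2 + 300100 * s) := by
      rw [← pow_add, hGs]
      congr 1
      omega
    have h2 : (2 : ℕ) ^ 20 ≤ 2 ^ (2 + 300100 * s) := Nat.pow_le_pow_right (by norm_num) (by omega)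
    have h3 : 0 < 2 ^ (u - 2) := by positivity
    rw [h1]
    calc 2 * (Ap * 2 ^ (u - 2)) = 2 ^ (u - 2) * 6000 := by unfold Ap; ring
      _ < 2 ^ (u - 2) * 2 ^ 20 := Nat.mul_lt_mul_of_pos_left (by norm_num) h3
      _ ≤ _ := Nat.mul_le_mul_left _ h2
  have hfac : ∀ u : ℕ, 2 ≤ u →
      (1 : ℝ) / (4 * (((2 ^ (u - 2) : ℕ) : ℝ)) ^ 2 * (2 ^ (1000 * s) / 2 ^ u) ^ 2) =
        1 / 2 ^ (2000 * s - 2) := by
    intro u hu
    congr 1
    have h1 : (2 : ℝ) ^ u = 2 ^ (u - 2) * 4 := by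
      have : u = (u - 2) + 2 := by omega
      conv_lhs => rw [this]
      rw [pow_add]
      norm_num
    have h2 : ((2 : ℝ) ^ (1000 * s)) ^ 2 = 2 ^ (2000 * s - 2) * 4 := by
      rw [← pow_mul]
      have : 1000 * s * 2 = (2000 * s - 2) + 2 := by omega
      rw [this, pow_add]
      norm_num
    rw [h1]
    push_cast
    have h3 : (0 : ℝ) < 2 ^ (u - 2) := by positivity
    rw [div_pow, h2]
    field_simp
  set A0 := α0 * 2 ^ ((3 * Gc + 100) * s) with hA0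
  set B0 := β0 * 2 ^ ((3 * Gc + 100) * s) with hB0
  set ηA : ℝ := 2 ^ (1000 * s) / 2 ^ (2 * ks + ls) with hηA
  set ηB : ℝ := 2 ^ (1000 * s) / 2 ^ (ks + 2 * ls) with hηB
  have hJA : 0 < JA ks ls := by unfold JA; positivity
  have hJB : 0 < JB ks ls := by unfold JB; positivity
  have hltA : 2 * (Ap * JA ks ls) < QA s ks ls := hlt (2 * ks + ls) (by omega)
  have hltB : 2 * (Ap * JB ks ls) < QB s ks ls := hlt (ks + 2 * ls) (by omega)
  have pηA : 0 < ηA := by rw [hηA]; positivity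
  have pηB : 0 < ηB := by rw [hηB]; positivity
  have tA := chi_tail (QA s ks ls) (JA ks ls) A0 hJA hltA ηA pηA
  have tB := chi_tail (QB s ks ls) (JB ks ls) B0 hJB hltB ηB pηB
  have fA : (1 : ℝ) / (4 * (JA ks ls : ℝ) ^ 2 * ηA ^ 2) = 1 / 2 ^ (2000 * s - 2) :=
    hfac (2 * ks + ls) (by omega)
  have fB : (1 : ℝ) / (4 * (JB ks ls : ℝ) ^ 2 * ηB ^ 2) = 1 / 2 ^ (2000 * s - 2) :=
    hfac (ks + 2 * ls) (by omega)
  rw [fA] at tA
  rw [fB] at tB
  have sA := chi_sum (QA s ks ls) (JA ks ls) A0 hJA hltA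
  have sB := chi_sum (QB s ks ls) (JB ks ls) B0 hJB hltB
  have hcore := F4_core (range (QA s ks ls)) (range (QB s ks ls)) (chA s ks ls α0) (chB s ks ls β0)
    (fun a : ℕ => ηA < nd (((a : ℝ) - A0) / QA s ks ls))
    (fun b : ℕ => ηB < nd (((b : ℝ) - B0) / QB s ks ls))
    (fun a b => WK s ks ls (ph s ks ls D1.1 D1.2 a b))
    (fun a b => WK s ks ls (ph s ks ls D2.1 D2.2 a b))
    (fun a b => WK s ks ls (ph s ks ls D3.1 D3.2 a b))
    (fun a b => WK s ks ls (ph s ks ls D4.1 D4.2 a b))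
    (4 ^ Ap * ((QA s ks ls : ℝ) / JA ks ls)) (4 ^ Ap * ((QB s ks ls : ℝ) / JB ks ls))
    ((1 / (2 : ℝ) ^ (2000 * s - 2)) ^ (Ap - 1)) (1 / 2 ^ (6000000 * s))
    (fun a => chi_nonneg _ _ _ _) (fun b => chi_nonneg _ _ _ _)
    (fun a b => WK_bds _ _ _ _) (fun a b => WK_bds _ _ _ _)
    (fun a b => WK_bds _ _ _ _) (fun a b => WK_bds _ _ _ _)
    (by positivity) (by positivity) sA sB tA tB (by
      intro a a' b b' ha ha' hb hb'
      rw [not_lt] at ha ha' hb hb'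
      have w1 := WK_bds s ks ls (ph s ks ls D1.1 D1.2 a b)
      have w2 := WK_bds s ks ls (ph s ks ls D2.1 D2.2 a b')
      have w3 := WK_bds s ks ls (ph s ks ls D3.1 D3.2 a' b)
      have w4 := WK_bds s ks ls (ph s ks ls D4.1 D4.2 a' b')
      have hε : (0 : ℝ) < 1 / 2 ^ (6000000 * s) := by positivity
      have hdisj : WK s ks ls (ph s ks ls D1.1 D1.2 a b) ≤ 1 / 2 ^ (6000000 * s) ∨
          WK s ks ls (ph s ks ls D2.1 D2.2 a b') ≤ 1 / 2 ^ (6000000 * s) ∨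
          WK s ks ls (ph s ks ls D3.1 D3.2 a' b) ≤ 1 / 2 ^ (6000000 * s) ∨
          WK s ks ls (ph s ks ls D4.1 D4.2 a' b') ≤ 1 / 2 ^ (6000000 * s) := by
        by_contra hcon
        push Not at hcon
        obtain ⟨c1, c2, c3, c4⟩ := hcon
        apply h
        refine ⟨a, a', b, b', ha, ha', hb, hb', ?_, ?_, ?_, ?_⟩
        · by_contra hc
          exact absurd (WK_far s ks ls _ (not_le.mp hc)) (not_le.mpr c1)
        · by_contra hc
          exact absurd (WK_far s ks ls _ (not_le.mp hc)) (not_le.mpr c2)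
        · by_contra hc
          exact absurd (WK_far s ks ls _ (not_le.mp hc)) (not_le.mpr c3)
        · by_contra hc
          exact absurd (WK_far s ks ls _ (not_le.mp hc)) (not_le.mpr c4)
      generalize WK s ks ls (ph s ks ls D1.1 D1.2 a b) = x1 at *
      generalize WK s ks ls (ph s ks ls D2.1 D2.2 a b') = x2 at *
      generalize WK s ks ls (ph s ks ls D3.1 D3.2 a' b) = x3 at *
      generalize WK s ks ls (ph s ks ls D4.1 D4.2 a' b') = x4 at *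
      generalize (1 : ℝ) / 2 ^ (6000000 * s) = ε at *
      have p12 : x1 * x2 ≤ 1 := mul_le_one₀ w1.2 w2.1 w2.2
      have p34 : x3 * x4 ≤ 1 := mul_le_one₀ w3.2 w4.1 w4.2
      have q12 : 0 ≤ x1 * x2 := mul_nonneg w1.1 w2.1
      have q34 : 0 ≤ x3 * x4 := mul_nonneg w3.1 w4.1
      rcases hdisj with hd | hd | hd | hd
      · calc x1 * x2 * (x3 * x4) ≤ x1 * x2 * 1 := mul_le_mul_of_nonneg_left p34 q12
          _ ≤ ε * 1 * 1 := by
            have : x1 * x2 ≤ ε * 1 := mul_le_mul hd w2.2 w2.1 hε.le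
            linarith
          _ = ε := by ring
      · calc x1 * x2 * (x3 * x4) ≤ x1 * x2 * 1 := mul_le_mul_of_nonneg_left p34 q12
          _ ≤ 1 * ε * 1 := by
            have : x1 * x2 ≤ 1 * ε := mul_le_mul w1.2 hd w2.1 (by norm_num)
            linarith
          _ = ε := by ring
      · calc x1 * x2 * (x3 * x4) ≤ 1 * (x3 * x4) := mul_le_mul_of_nonneg_right p12 q34
          _ ≤ 1 * (ε * 1) := by
            have : x3 * x4 ≤ ε * 1 := mul_le_mul hd w4.2 w4.1 hε.le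
            linarith
          _ = ε := by ring
      · calc x1 * x2 * (x3 * x4) ≤ 1 * (x3 * x4) := mul_le_mul_of_nonneg_right p12 q34
          _ ≤ 1 * (1 * ε) := by
            have : x3 * x4 ≤ 1 * ε := mul_le_mul w3.2 hd w4.1 (by norm_num)
            linarith
          _ = ε := by ring)
  have hI : ‖I4 s ks ls α0 β0 T D1 D2 D3 D4‖ ≤
      ∑ b ∈ range (QB s ks ls), ∑ b' ∈ range (QB s ks ls), chB s ks ls β0 b * chB s ks ls β0 b' *
        ((∑ a ∈ range (QA s ks ls), chA s ks ls α0 a * WK s ks ls (ph s ks ls D1.1 D1.2 a b) *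
          WK s ks ls (ph s ks ls D2.1 D2.2 a b')) *
        (∑ a ∈ range (QA s ks ls), chA s ks ls α0 a * WK s ks ls (ph s ks ls D3.1 D3.2 a b) *
          WK s ks ls (ph s ks ls D4.1 D4.2 a b'))) := by
    unfold I4
    refine (norm_sum_le _ _).trans (sum_le_sum fun b _ => ?_)
    refine (norm_sum_le _ _).trans (sum_le_sum fun b' _ => ?_)
    have hcA : ∀ a, 0 ≤ chA s ks ls α0 a := fun a => chi_nonneg _ _ _ _
    have hcB : ∀ a, 0 ≤ chB s ks ls β0 a := fun a => chi_nonneg _ _ _ _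
    rw [norm_mul, norm_mul, norm_mul, RCLike.norm_conj, Complex.norm_real, Complex.norm_real,
      Real.norm_eq_abs, Real.norm_eq_abs, abs_of_nonneg (hcB b), abs_of_nonneg (hcB b')]
    have e1 := F4_conj (fun a => psi s ks ls T D1 a b) (fun a => psi s ks ls T D2 a b')
      (range (QA s ks ls)) (chA s ks ls α0) hcA
    have e2 := F4_conj (fun a => psi s ks ls T D3 a b) (fun a => psi s ks ls T D4 a b')
      (range (QA s ks ls)) (chA s ks ls α0) hcA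
    simp only [norm_psi] at e1 e2
    exact mul_le_mul_of_nonneg_left (mul_le_mul e1 e2 (norm_nonneg _) ((norm_nonneg _).trans e1))
      (mul_nonneg (hcB b) (hcB b'))
  refine hI.trans (hcore.trans ?_)
  have hexp := F4_exp s hs
  have hP : 0 ≤ (4 ^ Ap * ((QA s ks ls : ℝ) / JA ks ls)) ^ 2 *
      (4 ^ Ap * ((QB s ks ls : ℝ) / JB ks ls)) ^ 2 := mul_nonneg (sq_nonneg _) (sq_nonneg _)
  generalize (4 ^ Ap * ((QA s ks ls : ℝ) / JA ks ls)) ^ 2 *
      (4 ^ Ap * ((QB s ks ls : ℝ) / JB ks ls)) ^ 2 = P at hP ⊢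
  generalize (2 : ℝ) ^ (50 * Gc * s) = R at hexp ⊢
  calc P * (4 * (1 / (2 : ℝ) ^ (2000 * s - 2)) ^ (Ap - 1) + 1 / 2 ^ (6000000 * s)) ≤ P * (1 / R) :=
        mul_le_mul_of_nonneg_left hexp hP
    _ = P / R := by rw [mul_one_div]

end MP_5e4520_nt.Ex
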