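import Pool.Agent.Lib.MP_5e4520_ntE.FDefs
import Pool.Agent.Lib.MP_5e4520_ntE.C3
set_option autoImplicit false

namespace MP_5e4520_nt.Ex

open Finset

/-- the vector of `(h, h', j)`: `(2^rs (h x0 + h' y0 - j), e1 h/2^ks, e2 h'/2^ls)`, `rs = ks + ls` -/
noncomputable def vec (ks ls α0 β0 : ℕ) (e1 e2 h h' j : ℤ) : V3 :=
  (2 ^ (ks + ls) * ((h : ℝ) * x0 ks ls α0 + (h' : ℝ) * y0 ks ls β0 - j), e1 * h / 2 ^ ks, e2 * h' / 2 ^ ls)

theorem vec_add (ks ls α0 β0 : ℕ) (e1 e2 h h' j k k' l : ℤ) :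
    vec ks ls α0 β0 e1 e2 (h + k) (h' + k') (j + l) =
      vec ks ls α0 β0 e1 e2 h h' j + vec ks ls α0 β0 e1 e2 k k' l := by
  unfold vec
  refine Prod.ext ?_ (Prod.ext ?_ ?_)
  · push_cast
    simp only [Prod.fst_add]
    ring
  · push_cast
    simp only [Prod.fst_add, Prod.snd_add]
    ring
  · push_cast
    simp only [Prod.snd_add]
    ring

private theorem F5_vec_zero (ks ls α0 β0 : ℕ) (e1 e2 : ℤ) :
    vec ks ls α0 β0 e1 e2 0 0 0 = 0 := by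
  unfold vec
  refine Prod.ext ?_ (Prod.ext ?_ ?_) <;> simp

/-- the subgroup of all these vectors -/
noncomputable def Gam (ks ls α0 β0 : ℕ) (e1 e2 : ℤ) : AddSubgroup V3 where
  carrier := {z | ∃ h h' j : ℤ, z = vec ks ls α0 β0 e1 e2 h h' j}
  add_mem' := by
    rintro _ _ ⟨h, h', j, rfl⟩ ⟨k, k', l, rfl⟩
    exact ⟨h + k, h' + k', j + l, (vec_add _ _ _ _ _ _ _ _ _ _ _ _).symm⟩
  zero_mem' := ⟨0, 0, 0, (F5_vec_zero _ _ _ _ _ _).symm⟩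
  neg_mem' := by
    rintro _ ⟨h, h', j, rfl⟩
    refine ⟨-h, -h', -j, ?_⟩
    have h1 := vec_add ks ls α0 β0 e1 e2 h h' j (-h) (-h') (-j)
    rw [add_neg_cancel, add_neg_cancel, add_neg_cancel, F5_vec_zero] at h1
    exact (eq_neg_of_add_eq_zero_right h1.symm).symm

private theorem F5_round (t : ℝ) (j : ℤ) (h : |t - j| < 1 / 2) : round t = j := by
  have h1 := abs_sub_round t
  have h2 : |((round t - j : ℤ) : ℝ)| < 1 := by
    push_cast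
    calc |(round t : ℝ) - j| = |(t - j) - (t - round t)| := by congr 1; ring
      _ ≤ |t - j| + |t - round t| := abs_sub _ _
      _ < 1 := by linarith
  have h3 : |round t - j| < 1 := by exact_mod_cast h2
  have h4 := Int.abs_lt_one_iff.1 h3
  omega

private theorem F5_abs_bound (k : ℕ) (j1 : ℤ) (e h : ℤ) (he : e = 1 ∨ e = -1)
    (hb : |(e : ℝ) * h / 2 ^ k| ≤ (2 : ℝ) ^ j1) :
    h ∈ Icc (-⌊(2 : ℝ) ^ ((k : ℤ) + j1)⌋) ⌊(2 : ℝ) ^ ((k : ℤ) + j1)⌋ := by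
  have he1 : |(e : ℝ)| = 1 := by
    rcases he with rfl | rfl <;> simp
  have h2k : (0 : ℝ) < 2 ^ k := by positivity
  rw [abs_div, abs_mul, he1, one_mul, abs_of_pos h2k, div_le_iff₀ h2k] at hb
  have hb2 : |(h : ℝ)| ≤ (2 : ℝ) ^ ((k : ℤ) + j1) := by
    rw [zpow_add₀ (by norm_num), zpow_natCast]
    linarith
  rw [mem_Icc, neg_le, Int.le_floor, Int.le_floor]
  push_cast
  exact ⟨le_trans (neg_le_abs _) hb2, le_trans (le_abs_self _) hb2⟩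

/-- JOB F5.  `GenF` gives the counting property.  A nonzero `z = vec h h' j` in the box `(j0,j1,j2)` has `|h| ≤ 2^(ks+j1)`,
`|h'| ≤ 2^(ls+j2)`, `|h x0 + h' y0 - j| ≤ 2^(j0-rs) < 1/2` (`j0 ≤ 2Gs`, `rs ≥ 200 G s`), so `j` is determined by `(h,h')`,
`‖h x0 + h' y0‖ ≤ 2^(j0-rs)`, and `(h,h') ≠ 0` (otherwise `|j| < 1/2`, `j = 0`, `z = 0`). -/
theorem Gam_GD (s ks ls α0 β0 : ℕ) (hp : ParF s ks ls) (hg : GenF s ks ls α0 β0) (e1 e2 : ℤ)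
    (he1 : e1 = 1 ∨ e1 = -1) (he2 : e2 = 1 ∨ e2 = -1) : GDG s (Gam ks ls α0 β0 e1 e2) := by
  classical
  intro j0 j1 j2 hj1 hj10 hj2 hj20 hj0 F hF
  have key := hg.gd j0 j1 j2 hj1 hj10 hj2 hj20 hj0
  have hs := hp.s1
  have hk := hp.k1
  have hl := hp.l1
  have hexp : (j0 : ℤ) - ks - ls ≤ -2 := by
    have h1 : ((100 * Gc * s : ℕ) : ℤ) ≤ ks := by exact_mod_cast hk
    have h2 : ((100 * Gc * s : ℕ) : ℤ) ≤ ls := by exact_mod_cast hl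
    have h3 : (1 : ℤ) ≤ s := by exact_mod_cast hs
    have h4 : ((Gc : ℕ) : ℤ) = 100000 := rfl
    push_cast at h1 h2
    rw [h4] at h1 h2 hj0
    nlinarith
  have hsmall : (2 : ℝ) ^ ((j0 : ℤ) - ks - ls) < 1 / 2 := by
    calc (2 : ℝ) ^ ((j0 : ℤ) - ks - ls) ≤ (2 : ℝ) ^ (-2 : ℤ) :=
          zpow_le_zpow_right₀ (by norm_num) hexp
      _ < 1 / 2 := by norm_num
  refine le_trans ?_ key
  unfold cntH
  rw [Nat.cast_le]
  refine le_trans (card_le_card (t := ((((Icc (-⌊(2 : ℝ) ^ ((ks : ℤ) + j1)⌋) ⌊(2 : ℝ) ^ ((ks : ℤ) + j1)⌋) ×ˢ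
    (Icc (-⌊(2 : ℝ) ^ ((ls : ℤ) + j2)⌋) ⌊(2 : ℝ) ^ ((ls : ℤ) + j2)⌋)).filter (fun p : ℤ × ℤ =>
    (p.1 ≠ 0 ∨ p.2 ≠ 0) ∧ nd ((p.1 : ℝ) * x0 ks ls α0 + (p.2 : ℝ) * y0 ks ls β0) ≤
      (2 : ℝ) ^ ((j0 : ℤ) - ks - ls))).image fun p : ℤ × ℤ =>
      vec ks ls α0 β0 e1 e2 p.1 p.2 (round ((p.1 : ℝ) * x0 ks ls α0 + (p.2 : ℝ) * y0 ks ls β0)))) ?_)
    card_image_le
  intro z hz
  obtain ⟨⟨h, h', j, rfl⟩, hz0, hzb⟩ := hF z hz
  obtain ⟨b0, b1, b2⟩ := hzb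
  have hsm : |(h : ℝ) * x0 ks ls α0 + (h' : ℝ) * y0 ks ls β0 - j| ≤ (2 : ℝ) ^ ((j0 : ℤ) - ks - ls) := by
    unfold vec at b0
    simp only at b0
    have h2 : (0 : ℝ) < 2 ^ (ks + ls) := by positivity
    rw [abs_mul, abs_of_pos h2] at b0
    have h3 : (2 : ℝ) ^ ((j0 : ℤ) - ks - ls) = (2 : ℝ) ^ j0 / 2 ^ (ks + ls) := by
      rw [sub_sub, zpow_sub₀ (by norm_num), ← Nat.cast_add, zpow_natCast]
    rw [h3, le_div_iff₀ h2]
    linarith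
  have hround := F5_round _ j (lt_of_le_of_lt hsm hsmall)
  rw [mem_image]
  refine ⟨(h, h'), ?_, ?_⟩
  · rw [mem_filter, mem_product]
    refine ⟨⟨F5_abs_bound ks j1 e1 h he1 b1, F5_abs_bound ls j2 e2 h' he2 b2⟩, ?_, ?_⟩
    · by_contra hcon
      push Not at hcon
      simp only at hcon
      obtain ⟨rfl, rfl⟩ := hcon
      have : j = 0 := by
        rw [← hround]
        simp
      subst this
      exact hz0 (F5_vec_zero _ _ _ _ _ _)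
    · exact le_trans (nd_le _ j) hsm
  · simp only
    rw [hround]

end MP_5e4520_nt.Ex
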