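import Pool.Agent.Lib.MP_5e4520_ntE.F5
set_option autoImplicit false

namespace MP_5e4520_nt.Ex

open Finset

private theorem F6_q (s r lb : ℕ) (hs : 200 ≤ s) (hb1 : r + (2 * Gc - 22) * s ≤ lb) (T : ℤ)
    (hT1 : (2 : ℤ) ^ lb ≤ 2 * T) (hT2 : T ≤ (2 : ℤ) ^ (lb + 4)) (q : ℤ)
    (hq : |q - T| ≤ Ap * (2 ^ (r + (Gc - 1100) * s) : ℕ)) :
    (2 : ℝ) ^ lb ≤ 4 * q ∧ (q : ℝ) ≤ (2 : ℝ) ^ (lb + 5) ∧
      |(q : ℝ) - T| ≤ (2 : ℝ) ^ (r + 98900 * s + 12) := by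
  have hG : Gc = 100000 := rfl
  have hA : Ap = 3000 := rfl
  rw [hG] at hb1 hq
  rw [hA] at hq
  have e1 : (100000 - 1100) * s = 98900 * s := by norm_num
  have e2 : (2 * 100000 - 22) * s = 199978 * s := by norm_num
  rw [e1] at hq
  rw [e2] at hb1
  have hq' : |(q : ℝ) - T| ≤ 3000 * (2 : ℝ) ^ (r + 98900 * s) := by exact_mod_cast hq
  have hT1' : (2 : ℝ) ^ lb ≤ 2 * T := by exact_mod_cast hT1
  have hT2' : (T : ℝ) ≤ (2 : ℝ) ^ (lb + 4) := by exact_mod_cast hT2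
  have h12 : |(q : ℝ) - T| ≤ (2 : ℝ) ^ (r + 98900 * s + 12) := by
    refine hq'.trans ?_
    rw [pow_add (2 : ℝ) (r + 98900 * s) 12, mul_comm]
    exact mul_le_mul_of_nonneg_left (by norm_num) (by positivity)
  have h3 : (2 : ℝ) ^ (r + 98900 * s + 12) * 8 ≤ (2 : ℝ) ^ lb := by
    calc (2 : ℝ) ^ (r + 98900 * s + 12) * 8 = (2 : ℝ) ^ (r + 98900 * s + 12 + 3) := by
          rw [pow_add (2 : ℝ) (r + 98900 * s + 12) 3]; norm_num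
      _ ≤ (2 : ℝ) ^ lb := pow_le_pow_right₀ (by norm_num) (by omega)
  have h4 := abs_le.1 h12
  rw [pow_add (2 : ℝ) lb 4] at hT2'
  refine ⟨by linarith [h4.1], ?_, h12⟩
  rw [pow_add (2 : ℝ) lb 5]
  linarith [h4.2]

private theorem F6_close (s k r : ℕ) (hs : 200 ≤ s) (hr : 2 ≤ r) (lb : ℕ)
    (hb1 : r + (2 * Gc - 22) * s ≤ lb) (hb2 : lb ≤ r + (2 * Gc - 11) * s) (T : ℤ)
    (hT1 : (2 : ℤ) ^ lb ≤ 2 * T) (hT2 : T ≤ (2 : ℤ) ^ (lb + 4)) (q q' h h' : ℤ)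
    (hq : |q - T| ≤ Ap * (2 ^ (r + (Gc - 1100) * s) : ℕ))
    (hq' : |q' - T| ≤ Ap * (2 ^ (r + (Gc - 1100) * s) : ℕ))
    (hh : |h| ≤ (2 : ℤ) ^ (k + (Gc + 60) * s)) (hh' : |h'| ≤ (2 : ℤ) ^ (k + (Gc + 60) * s))
    (hx : nd (((q * h - q' * h' : ℤ) : ℝ) / (2 ^ (k + r + (3 * Gc + 100) * s) : ℕ)) *
      (2 ^ (k + r + (3 * Gc + 100) * s) : ℕ) ≤ Ap * (2 ^ (k + r - 2) : ℕ)) :
    |q * h - q' * h'| ≤ Ap * (2 ^ (k + r - 2) : ℕ) ∧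
      |((h : ℝ) - h')| ≤ 2 ^ k / 2 ^ (1015 * s) := by
  obtain ⟨ql, qu, qd⟩ := F6_q s r lb hs hb1 T hT1 hT2 q hq
  obtain ⟨ql', qu', qd'⟩ := F6_q s r lb hs hb1 T hT1 hT2 q' hq'
  have hG : Gc = 100000 := rfl
  have hA : Ap = 3000 := rfl
  rw [hG] at hb1 hb2 hh hh' hx
  rw [hA] at hx ⊢
  have e2 : (2 * 100000 - 22) * s = 199978 * s := by norm_num
  have e3 : (2 * 100000 - 11) * s = 199989 * s := by norm_num
  have e4 : (100000 + 60) * s = 100060 * s := by norm_num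
  have e5 : (3 * 100000 + 100) * s = 300100 * s := by norm_num
  rw [e2] at hb1
  rw [e3] at hb2
  rw [e4] at hh hh'
  rw [e5] at hx
  have hh1 : |(h : ℝ)| ≤ (2 : ℝ) ^ (k + 100060 * s) := by exact_mod_cast hh
  have hh2 : |(h' : ℝ)| ≤ (2 : ℝ) ^ (k + 100060 * s) := by exact_mod_cast hh'
  have hL : (0 : ℝ) < 2 ^ lb := by positivity
  have hq0 : (0 : ℝ) < q := by linarith
  have hq0' : (0 : ℝ) < q' := by linarith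
  have hx1 : |(((q * h - q' * h' : ℤ) : ℝ))| ≤ (2 : ℝ) ^ (lb + k + 100060 * s + 6) := by
    push_cast
    have b1 : |(q : ℝ) * h| ≤ (2 : ℝ) ^ (lb + 5) * (2 : ℝ) ^ (k + 100060 * s) := by
      rw [abs_mul, abs_of_pos hq0]
      exact mul_le_mul qu hh1 (abs_nonneg _) (by positivity)
    have b2 : |(q' : ℝ) * h'| ≤ (2 : ℝ) ^ (lb + 5) * (2 : ℝ) ^ (k + 100060 * s) := by
      rw [abs_mul, abs_of_pos hq0']
      exact mul_le_mul qu' hh2 (abs_nonneg _) (by positivity)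
    calc |(q : ℝ) * h - q' * h'| ≤ |(q : ℝ) * h| + |(q' : ℝ) * h'| := abs_sub _ _
      _ ≤ (2 : ℝ) ^ (lb + 5) * (2 : ℝ) ^ (k + 100060 * s) +
          (2 : ℝ) ^ (lb + 5) * (2 : ℝ) ^ (k + 100060 * s) := add_le_add b1 b2
      _ = (2 : ℝ) ^ (lb + k + 100060 * s + 6) := by ring
  set x : ℤ := q * h - q' * h' with hxdef
  have hQ : ((2 ^ (k + r + 300100 * s) : ℕ) : ℝ) = (2 : ℝ) ^ (k + r + 300100 * s) := by
    push_cast; ring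
  rw [hQ] at hx
  have hQ0 : (0 : ℝ) < (2 : ℝ) ^ (k + r + 300100 * s) := by positivity
  have hsmall : |(x : ℝ) / (2 : ℝ) ^ (k + r + 300100 * s) - (0 : ℤ)| ≤ 1 / 2 := by
    rw [Int.cast_zero, sub_zero, abs_div, abs_of_pos hQ0, div_le_iff₀ hQ0]
    refine hx1.trans ?_
    have : (2 : ℝ) ^ (lb + k + 100060 * s + 6) * 2 ≤ (2 : ℝ) ^ (k + r + 300100 * s) := by
      rw [← pow_succ]
      exact pow_le_pow_right₀ (by norm_num) (by omega)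
    linarith
  rw [nd_eq_of _ 0 hsmall, Int.cast_zero, sub_zero, abs_div, abs_of_pos hQ0,
    div_mul_cancel₀ _ hQ0.ne'] at hx
  refine ⟨by exact_mod_cast hx, ?_⟩
  have hx2 : |(x : ℝ)| ≤ (2 : ℝ) ^ (k + r + 10) := by
    refine hx.trans ?_
    push_cast
    have : (2 : ℝ) ^ (k + r + 10) = 4096 * (2 : ℝ) ^ (k + r - 2) := by
      have : k + r + 10 = 12 + (k + r - 2) := by omega
      rw [this, pow_add]; norm_num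
    rw [this]
    exact mul_le_mul_of_nonneg_right (by norm_num) (by positivity)
  have hqq : |(q : ℝ) - q'| ≤ 2 * (2 : ℝ) ^ (r + 98900 * s + 12) := by
    calc |(q : ℝ) - q'| = |((q : ℝ) - T) - (q' - T)| := by congr 1; ring
      _ ≤ |(q : ℝ) - T| + |(q' : ℝ) - T| := abs_sub _ _
      _ ≤ _ := by linarith
  have hmain : (q : ℝ) * |(h : ℝ) - h'| ≤ (2 : ℝ) ^ (k + r + 10) +
      (2 : ℝ) ^ (k + 100060 * s) * (2 * (2 : ℝ) ^ (r + 98900 * s + 12)) := by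
    calc (q : ℝ) * |(h : ℝ) - h'| = |(q : ℝ) * (h - h')| := by rw [abs_mul, abs_of_pos hq0]
      _ = |(x : ℝ) - h' * (q - q')| := by
          rw [hxdef]; push_cast; congr 1; ring
      _ ≤ |(x : ℝ)| + |(h' : ℝ) * (q - q')| := abs_sub _ _
      _ ≤ _ := by
          rw [abs_mul]
          exact add_le_add hx2 (mul_le_mul hh2 hqq (abs_nonneg _) (by positivity))
  rw [le_div_iff₀ (by positivity)]
  have hfin : (2 : ℝ) ^ (1015 * s) * (4 * ((2 : ℝ) ^ (k + r + 10) +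
      (2 : ℝ) ^ (k + 100060 * s) * (2 * (2 : ℝ) ^ (r + 98900 * s + 12)))) ≤
      (2 : ℝ) ^ lb * (2 : ℝ) ^ k := by
    have a1 : (2 : ℝ) ^ (1015 * s) * (4 * (2 : ℝ) ^ (k + r + 10)) * 2 ≤ (2 : ℝ) ^ lb * (2 : ℝ) ^ k := by
      calc (2 : ℝ) ^ (1015 * s) * (4 * (2 : ℝ) ^ (k + r + 10)) * 2
          = (2 : ℝ) ^ (1015 * s + k + r + 13) := by ring
        _ ≤ (2 : ℝ) ^ (lb + k) := pow_le_pow_right₀ (by norm_num) (by omega)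
        _ = _ := pow_add _ _ _
    have a2 : (2 : ℝ) ^ (1015 * s) * (4 * ((2 : ℝ) ^ (k + 100060 * s) *
        (2 * (2 : ℝ) ^ (r + 98900 * s + 12)))) * 2 ≤ (2 : ℝ) ^ lb * (2 : ℝ) ^ k := by
      calc (2 : ℝ) ^ (1015 * s) * (4 * ((2 : ℝ) ^ (k + 100060 * s) *
            (2 * (2 : ℝ) ^ (r + 98900 * s + 12)))) * 2
          = (2 : ℝ) ^ (1015 * s + k + 100060 * s + r + 98900 * s + 16) := by ring
        _ ≤ (2 : ℝ) ^ (lb + k) := pow_le_pow_right₀ (by norm_num) (by omega)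
        _ = _ := pow_add _ _ _
    linarith
  have h5 : (2 : ℝ) ^ lb * (|(h : ℝ) - h'| * 2 ^ (1015 * s)) ≤ (2 : ℝ) ^ lb * (2 : ℝ) ^ k := by
    calc (2 : ℝ) ^ lb * (|(h : ℝ) - h'| * 2 ^ (1015 * s))
        ≤ (4 * q) * (|(h : ℝ) - h'| * 2 ^ (1015 * s)) :=
          mul_le_mul_of_nonneg_right ql (by positivity)
      _ = 2 ^ (1015 * s) * (4 * (q * |(h : ℝ) - h'|)) := by ring
      _ ≤ 2 ^ (1015 * s) * (4 * ((2 : ℝ) ^ (k + r + 10) +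
          (2 : ℝ) ^ (k + 100060 * s) * (2 * (2 : ℝ) ^ (r + 98900 * s + 12)))) := by
          gcongr
      _ ≤ _ := hfin
  exact le_of_mul_le_mul_left h5 hL

/-- JOB F6.  No wrap around: for `D, D' ∈ NN`, `|q - T|, |q' - T| ≤ Ap n`, `2^(lb-1) ≤ T ≤ 2^(lb+4)`,
`rs+(2G-22)s ≤ lb ≤ rs+(2G-11)s`: `|q D.1 - q' D'.1| ≤ 2·2^(lb+5)·2^(ks+(G+60)s) ≤ 2^(2ks+ls+(3G+49)s+6) < QA/2`, so
`Q‖x/Q‖ = |x|` for `x = q D.1 - q' D'.1`.  Then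
`|D.1 - D'.1| ≤ (|x| + |D'.1||q-q'|)/q ≤ (Ap 2^(us-2) + 2^(ks+(G+60)s)·2 Ap n)/2^(lb-2) ≤ 2^(ks - 1015 s)`
(`us - lb ≤ ks - (2G-22)s`, `n = 2^(rs+(G-1100)s)`). -/
theorem freq_close (s ks ls α0 β0 : ℕ) (hs : 200 ≤ s) (hp : ParF s ks ls) (lb : ℕ)
    (hb1 : ks + ls + (2 * Gc - 22) * s ≤ lb) (hb2 : lb ≤ ks + ls + (2 * Gc - 11) * s) (T : ℤ)
    (hT1 : (2 : ℤ) ^ lb ≤ 2 * T) (hT2 : T ≤ (2 : ℤ) ^ (lb + 4)) (q q' h h' : ℤ)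
    (hq : |q - T| ≤ Ap * nw s ks ls) (hq' : |q' - T| ≤ Ap * nw s ks ls)
    (hh : |h| ≤ (2 : ℤ) ^ (ks + (Gc + 60) * s)) (hh' : |h'| ≤ (2 : ℤ) ^ (ks + (Gc + 60) * s))
    (hx : nd (((q * h - q' * h' : ℤ) : ℝ) / QA s ks ls) * QA s ks ls ≤ Ap * JA ks ls) :
    |q * h - q' * h'| ≤ Ap * JA ks ls ∧ |((h : ℝ) - h')| ≤ 2 ^ ks / 2 ^ (1015 * s) := by
  have hr : 2 ≤ ks + ls := by
    have h1 := hp.k1
    have hG : Gc = 100000 := rfl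
    rw [hG] at h1
    omega
  have eQ : QA s ks ls = 2 ^ (ks + (ks + ls) + (3 * Gc + 100) * s) := by
    unfold QA; congr 1; ring
  have eJ : JA ks ls = 2 ^ (ks + (ks + ls) - 2) := by
    unfold JA; congr 1; omega
  rw [eQ, eJ] at hx
  rw [eJ]
  exact F6_close s ks (ks + ls) hs hr lb hb1 hb2 T hT1 hT2 q q' h h' hq hq' hh hh' hx

/-- the same in the second coordinate -/
theorem freq_close' (s ks ls α0 β0 : ℕ) (hs : 200 ≤ s) (hp : ParF s ks ls) (lb : ℕ)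
    (hb1 : ks + ls + (2 * Gc - 22) * s ≤ lb) (hb2 : lb ≤ ks + ls + (2 * Gc - 11) * s) (T : ℤ)
    (hT1 : (2 : ℤ) ^ lb ≤ 2 * T) (hT2 : T ≤ (2 : ℤ) ^ (lb + 4)) (q q' h h' : ℤ)
    (hq : |q - T| ≤ Ap * nw s ks ls) (hq' : |q' - T| ≤ Ap * nw s ks ls)
    (hh : |h| ≤ (2 : ℤ) ^ (ls + (Gc + 60) * s)) (hh' : |h'| ≤ (2 : ℤ) ^ (ls + (Gc + 60) * s))
    (hx : nd (((q * h - q' * h' : ℤ) : ℝ) / QB s ks ls) * QB s ks ls ≤ Ap * JB ks ls) :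
    |q * h - q' * h'| ≤ Ap * JB ks ls ∧ |((h : ℝ) - h')| ≤ 2 ^ ls / 2 ^ (1015 * s) := by
  have hr : 2 ≤ ks + ls := by
    have h1 := hp.k1
    have hG : Gc = 100000 := rfl
    rw [hG] at h1
    omega
  have eQ : QB s ks ls = 2 ^ (ls + (ks + ls) + (3 * Gc + 100) * s) := by
    unfold QB; congr 1; ring
  have eJ : JB ks ls = 2 ^ (ls + (ks + ls) - 2) := by
    unfold JB; congr 1; omega
  rw [eQ, eJ] at hx
  rw [eJ]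
  exact F6_close s ls (ks + ls) hs hr lb hb1 hb2 T hT1 hT2 q q' h h' hq hq' hh hh' hx

private theorem F6_prod (P P' R R' ε M : ℝ) (hε : 0 ≤ ε) (h1 : |P - P'| ≤ ε) (h2 : |R - R'| ≤ ε)
    (hP : |P| ≤ M) (hR : |R'| ≤ M) : |P * R - P' * R'| ≤ 2 * ε * M := by
  have hM : 0 ≤ M := (abs_nonneg _).trans hP
  calc |P * R - P' * R'| = |P * (R - R') + (P - P') * R'| := by congr 1; ring
    _ ≤ |P * (R - R')| + |(P - P') * R'| := abs_add_le _ _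
    _ = |P| * |R - R'| + |P - P'| * |R'| := by rw [abs_mul, abs_mul]
    _ ≤ M * ε + ε * M := add_le_add (mul_le_mul hP h2 (abs_nonneg _) hM)
        (mul_le_mul h1 hR (abs_nonneg _) hε)
    _ = 2 * ε * M := by ring

private theorem F6_NN {s ks ls α0 β0 : ℕ} {e1 e2 : ℤ} {D : ℤ × ℤ}
    (h : D ∈ NN s ks ls α0 β0 e1 e2) :
    |D.1| ≤ (2 : ℤ) ^ (ks + (Gc + 60) * s) ∧ |D.2| ≤ (2 : ℤ) ^ (ls + (Gc + 60) * s) := by
  classical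
  unfold NN at h
  rw [mem_filter, mem_product, mem_Icc, mem_Icc] at h
  exact ⟨abs_le.2 h.1.1, abs_le.2 h.1.2⟩

private theorem F6_am {a b A B : ℝ} (h1 : |a| ≤ A) (h2 : |b| ≤ B) : |a * b| ≤ A * B := by
  rw [abs_mul]
  exact mul_le_mul h1 h2 (abs_nonneg _) ((abs_nonneg _).trans h1)

/-- The determinant inequality.  Put `ε1 = Ap JA`, `ε2 = Ap JB`, `M1 = 2^(lb+5) 2^(ks+(G+60)s)`, `M2 = 2^(lb+5) 2^(ls+(G+60)s)`
(`|q_i h_i| ≤ M1`, `|q_i h_i'| ≤ M2`).  From `q1h1 = q2h2 + O(ε1)`, `q4h4 = q3h3 + O(ε1)`: `q1q4h1h4 = q2q3h2h3 + O(3ε1M1)`;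
from `q3h3' = q1h1' + O(ε2)`, `q2h2' = q4h4' + O(ε2)`: `q2q3h2'h3' = q1q4h1'h4' + O(3ε2M2)`.  Multiply:
`q1q2q3q4 (h1h4h2'h3' - h2h3h1'h4') = O(3ε2M2M1² + 3ε1M1M2² + 9ε1ε2M1M2)`; divide by `q1q2q3q4 ≥ 2^(4(lb-2))` and by `2^(2ks+2ls)`:
`≤ 2^((G+203)s)` (`ε1 ≤ 2^12·2^(2ks+ls-2)`, `2^(us-ks-lb) ≤ 2^(-(2G-22)s)`). -/
theorem det_small (s ks ls α0 β0 : ℕ) (hs : 200 ≤ s) (hp : ParF s ks ls) (lb : ℕ)
    (hb1 : ks + ls + (2 * Gc - 22) * s ≤ lb) (hb2 : lb ≤ ks + ls + (2 * Gc - 11) * s) (T : ℤ)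
    (hT1 : (2 : ℤ) ^ lb ≤ 2 * T) (hT2 : T ≤ (2 : ℤ) ^ (lb + 4)) (e1 e2 : ℤ)
    (he1 : e1 = 1 ∨ e1 = -1) (he2 : e2 = 1 ∨ e2 = -1) (D1 D2 D3 D4 : ℤ × ℤ)
    (h1 : D1 ∈ NN s ks ls α0 β0 e1 e2) (h2 : D2 ∈ NN s ks ls α0 β0 e1 e2)
    (h3 : D3 ∈ NN s ks ls α0 β0 e1 e2) (h4 : D4 ∈ NN s ks ls α0 β0 e1 e2)
    (hf : freqAdm s ks ls T D1 D2 D3 D4) :
    |(D1.1 : ℝ) * D4.1 * (D3.2 * D2.2) - (D3.1 : ℝ) * D2.1 * (D1.2 * D4.2)| ≤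
      (2 : ℝ) ^ (2 * ks + 2 * ls) * (2 : ℝ) ^ ((Gc + 203) * s) := by
  obtain ⟨q1, q2, q3, q4, hq1, hq2, hq3, hq4, hx1, hx2, hx3, hx4⟩ := hf
  obtain ⟨a1, b1⟩ := F6_NN h1
  obtain ⟨a2, b2⟩ := F6_NN h2
  obtain ⟨a3, b3⟩ := F6_NN h3
  obtain ⟨a4, b4⟩ := F6_NN h4
  have c1 := (freq_close s ks ls α0 β0 hs hp lb hb1 hb2 T hT1 hT2 q1 q2 D1.1 D2.1 hq1 hq2 a1 a2 hx1).1
  have c2 := (freq_close s ks ls α0 β0 hs hp lb hb1 hb2 T hT1 hT2 q3 q4 D3.1 D4.1 hq3 hq4 a3 a4 hx2).1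
  have c3 := (freq_close' s ks ls α0 β0 hs hp lb hb1 hb2 T hT1 hT2 q1 q3 D1.2 D3.2 hq1 hq3 b1 b3 hx3).1
  have c4 := (freq_close' s ks ls α0 β0 hs hp lb hb1 hb2 T hT1 hT2 q2 q4 D2.2 D4.2 hq2 hq4 b2 b4 hx4).1
  have hr : 100000 * s ≤ ks ∧ 100000 * s ≤ ls := by
    have h1 := hp.k1
    have h2 := hp.l1
    have hG : Gc = 100000 := rfl
    rw [hG] at h1 h2
    constructor <;> omega
  obtain ⟨l1, u1, -⟩ := F6_q s (ks + ls) lb hs hb1 T hT1 hT2 q1 hq1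
  obtain ⟨l2, u2, -⟩ := F6_q s (ks + ls) lb hs hb1 T hT1 hT2 q2 hq2
  obtain ⟨l3, u3, -⟩ := F6_q s (ks + ls) lb hs hb1 T hT1 hT2 q3 hq3
  obtain ⟨l4, u4, -⟩ := F6_q s (ks + ls) lb hs hb1 T hT1 hT2 q4 hq4
  have hG : Gc = 100000 := rfl
  have hA : Ap = 3000 := rfl
  rw [hG] at hb1 hb2 a1 a2 a3 a4 b1 b2 b3 b4 ⊢
  rw [hA] at c1 c2 c3 c4
  have e2 : (2 * 100000 - 22) * s = 199978 * s := by norm_num
  have e3 : (2 * 100000 - 11) * s = 199989 * s := by norm_num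
  have e4 : (100000 + 60) * s = 100060 * s := by norm_num
  have e5 : (100000 + 203) * s = 100203 * s := by norm_num
  rw [e2] at hb1
  rw [e3] at hb2
  rw [e4] at a1 a2 a3 a4 b1 b2 b3 b4
  rw [e5]
  have hL : (0 : ℝ) < 2 ^ lb := by positivity
  have p1 : (0 : ℝ) < q1 := by linarith
  have p2 : (0 : ℝ) < q2 := by linarith
  have p3 : (0 : ℝ) < q3 := by linarith
  have p4 : (0 : ℝ) < q4 := by linarith
  set ε1 : ℝ := (2 : ℝ) ^ (2 * ks + ls + 10) with hε1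
  set ε2 : ℝ := (2 : ℝ) ^ (ks + 2 * ls + 10) with hε2
  set M1 : ℝ := (2 : ℝ) ^ (lb + 5) * (2 : ℝ) ^ (ks + 100060 * s) with hM1
  set M2 : ℝ := (2 : ℝ) ^ (lb + 5) * (2 : ℝ) ^ (ls + 100060 * s) with hM2
  have hJA : (3000 : ℝ) * (JA ks ls : ℝ) ≤ ε1 := by
    unfold JA
    push_cast
    have : ε1 = 4096 * (2 : ℝ) ^ (2 * ks + ls - 2) := by
      have h5 : 2 * ks + ls + 10 = 12 + (2 * ks + ls - 2) := by omega
      rw [hε1, h5, pow_add]; norm_num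
    rw [this]
    exact mul_le_mul_of_nonneg_right (by norm_num) (by positivity)
  have hJB : (3000 : ℝ) * (JB ks ls : ℝ) ≤ ε2 := by
    unfold JB
    push_cast
    have : ε2 = 4096 * (2 : ℝ) ^ (ks + 2 * ls - 2) := by
      have h5 : ks + 2 * ls + 10 = 12 + (ks + 2 * ls - 2) := by omega
      rw [hε2, h5, pow_add]; norm_num
    rw [this]
    exact mul_le_mul_of_nonneg_right (by norm_num) (by positivity)
  have d1 : |(q1 : ℝ) * D1.1 - q2 * D2.1| ≤ ε1 := by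
    refine le_trans ?_ hJA
    exact_mod_cast c1
  have d2 : |(q3 : ℝ) * D3.1 - q4 * D4.1| ≤ ε1 := by
    refine le_trans ?_ hJA
    exact_mod_cast c2
  have d3 : |(q1 : ℝ) * D1.2 - q3 * D3.2| ≤ ε2 := by
    refine le_trans ?_ hJB
    exact_mod_cast c3
  have d4 : |(q2 : ℝ) * D2.2 - q4 * D4.2| ≤ ε2 := by
    refine le_trans ?_ hJB
    exact_mod_cast c4
  have bd : ∀ (q : ℤ) (h : ℤ) (k : ℕ), (0 : ℝ) < q → (q : ℝ) ≤ (2 : ℝ) ^ (lb + 5) →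
      |h| ≤ (2 : ℤ) ^ (k + 100060 * s) →
      |(q : ℝ) * h| ≤ (2 : ℝ) ^ (lb + 5) * (2 : ℝ) ^ (k + 100060 * s) := by
    intro q h k h0 hq hh
    have hh1 : |(h : ℝ)| ≤ (2 : ℝ) ^ (k + 100060 * s) := by exact_mod_cast hh
    rw [abs_mul, abs_of_pos h0]
    exact mul_le_mul hq hh1 (abs_nonneg _) (by positivity)
  have k1 : |((q1 : ℝ) * D1.1) * (q4 * D4.1) - ((q2 : ℝ) * D2.1) * (q3 * D3.1)| ≤ 2 * ε1 * M1 :=
    F6_prod _ _ _ _ _ _ (by positivity) d1 (by rw [abs_sub_comm]; exact d2)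
      (bd q1 D1.1 ks p1 u1 a1) (bd q3 D3.1 ks p3 u3 a3)
  have k2 : |((q3 : ℝ) * D3.2) * (q2 * D2.2) - ((q1 : ℝ) * D1.2) * (q4 * D4.2)| ≤ 2 * ε2 * M2 :=
    F6_prod _ _ _ _ _ _ (by positivity) (by rw [abs_sub_comm]; exact d3) d4
      (bd q3 D3.2 ls p3 u3 b3) (bd q4 D4.2 ls p4 u4 b4)
  have k3 : |((q1 : ℝ) * D1.1) * (q4 * D4.1)| ≤ M1 * M1 := by
    rw [abs_mul]
    exact mul_le_mul (bd q1 D1.1 ks p1 u1 a1) (bd q4 D4.1 ks p4 u4 a4) (abs_nonneg _) (by positivity)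
  have k4 : |((q1 : ℝ) * D1.2) * (q4 * D4.2)| ≤ M2 * M2 := by
    rw [abs_mul]
    exact mul_le_mul (bd q1 D1.2 ls p1 u1 b1) (bd q4 D4.2 ls p4 u4 b4) (abs_nonneg _) (by positivity)
  have k5 : (q1 : ℝ) * q2 * q3 * q4 *
      |(D1.1 : ℝ) * D4.1 * (D3.2 * D2.2) - (D3.1 : ℝ) * D2.1 * (D1.2 * D4.2)| ≤
      (M1 * M1) * (2 * ε2 * M2) + (2 * ε1 * M1) * (M2 * M2) := by
    have hpos : (0 : ℝ) < (q1 : ℝ) * q2 * q3 * q4 := by positivity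
    calc (q1 : ℝ) * q2 * q3 * q4 *
          |(D1.1 : ℝ) * D4.1 * (D3.2 * D2.2) - (D3.1 : ℝ) * D2.1 * (D1.2 * D4.2)|
        = |((q1 : ℝ) * q2 * q3 * q4) *
            ((D1.1 : ℝ) * D4.1 * (D3.2 * D2.2) - (D3.1 : ℝ) * D2.1 * (D1.2 * D4.2))| := by
          rw [abs_mul, abs_of_pos hpos]
      _ = |(((q1 : ℝ) * D1.1) * (q4 * D4.1)) *
              (((q3 : ℝ) * D3.2) * (q2 * D2.2) - ((q1 : ℝ) * D1.2) * (q4 * D4.2)) +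
            (((q1 : ℝ) * D1.1) * (q4 * D4.1) - ((q2 : ℝ) * D2.1) * (q3 * D3.1)) *
              (((q1 : ℝ) * D1.2) * (q4 * D4.2))| := by
          congr 1; ring
      _ ≤ _ := by
          exact (abs_add_le _ _).trans (add_le_add (F6_am k3 k2) (F6_am k1 k4))
  have k6 : ((2 : ℝ) ^ lb) ^ 4 ≤ 256 * ((q1 : ℝ) * q2 * q3 * q4) := by
    have h5 : (2 : ℝ) ^ lb * 2 ^ lb ≤ (4 * q1) * (4 * q2) :=
      mul_le_mul l1 l2 hL.le (by positivity)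
    have h6 : (2 : ℝ) ^ lb * 2 ^ lb ≤ (4 * q3) * (4 * q4) :=
      mul_le_mul l3 l4 hL.le (by positivity)
    have h7 := mul_le_mul h5 h6 (by positivity) (by positivity)
    calc ((2 : ℝ) ^ lb) ^ 4 = (2 : ℝ) ^ lb * 2 ^ lb * ((2 : ℝ) ^ lb * 2 ^ lb) := by ring
      _ ≤ _ := h7
      _ = _ := by ring
  have k7 : 256 * ((M1 * M1) * (2 * ε2 * M2) + (2 * ε1 * M1) * (M2 * M2)) ≤
      ((2 : ℝ) ^ lb) ^ 4 * ((2 : ℝ) ^ (2 * ks + 2 * ls) * (2 : ℝ) ^ (100203 * s)) := by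
    have g1 : 256 * ((M1 * M1) * (2 * ε2 * M2)) * 2 ≤
        ((2 : ℝ) ^ lb) ^ 4 * ((2 : ℝ) ^ (2 * ks + 2 * ls) * (2 : ℝ) ^ (100203 * s)) := by
      calc 256 * ((M1 * M1) * (2 * ε2 * M2)) * 2
          = (2 : ℝ) ^ (3 * lb + 3 * ks + 3 * ls + 300180 * s + 35) := by
            rw [hM1, hM2, hε2]; ring
        _ ≤ (2 : ℝ) ^ (4 * lb + (2 * ks + 2 * ls + 100203 * s)) :=
            pow_le_pow_right₀ (by norm_num) (by omega)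
        _ = _ := by ring
    have g2 : 256 * ((2 * ε1 * M1) * (M2 * M2)) * 2 ≤
        ((2 : ℝ) ^ lb) ^ 4 * ((2 : ℝ) ^ (2 * ks + 2 * ls) * (2 : ℝ) ^ (100203 * s)) := by
      calc 256 * ((2 * ε1 * M1) * (M2 * M2)) * 2
          = (2 : ℝ) ^ (3 * lb + 3 * ks + 3 * ls + 300180 * s + 35) := by
            rw [hM1, hM2, hε1]; ring
        _ ≤ (2 : ℝ) ^ (4 * lb + (2 * ks + 2 * ls + 100203 * s)) :=
            pow_le_pow_right₀ (by norm_num) (by omega)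
        _ = _ := by ring
    linarith
  refine le_of_mul_le_mul_left (a := ((2 : ℝ) ^ lb) ^ 4) ?_ (by positivity)
  calc ((2 : ℝ) ^ lb) ^ 4 *
        |(D1.1 : ℝ) * D4.1 * (D3.2 * D2.2) - (D3.1 : ℝ) * D2.1 * (D1.2 * D4.2)|
      ≤ (256 * ((q1 : ℝ) * q2 * q3 * q4)) *
        |(D1.1 : ℝ) * D4.1 * (D3.2 * D2.2) - (D3.1 : ℝ) * D2.1 * (D1.2 * D4.2)| :=
        mul_le_mul_of_nonneg_right k6 (abs_nonneg _)
    _ = 256 * ((q1 : ℝ) * q2 * q3 * q4 *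
        |(D1.1 : ℝ) * D4.1 * (D3.2 * D2.2) - (D3.1 : ℝ) * D2.1 * (D1.2 * D4.2)|) := by ring
    _ ≤ 256 * ((M1 * M1) * (2 * ε2 * M2) + (2 * ε1 * M1) * (M2 * M2)) :=
        mul_le_mul_of_nonneg_left k5 (by norm_num)
    _ ≤ _ := k7

end MP_5e4520_nt.Ex
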