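import Pool.Agent.Lib.MP_5e4520_ntE.F6
set_option autoImplicit false

namespace MP_5e4520_nt.Ex

open Finset

private theorem F7_f1 (s ks ls : ℕ) : (2 : ℝ) ^ (ks + ls) * (2 ^ (1000 * s) / (nw s ks ls : ℝ)) ≤
    1 / 2 ^ (20 * s) := by
  unfold nw Gc
  push_cast
  have e : (2 : ℝ) ^ (ks + ls) * (2 ^ (1000 * s) / 2 ^ (ks + ls + (100000 - 1100) * s)) =
      1 / 2 ^ (97900 * s) := by
    rw [mul_div_assoc', div_eq_div_iff (by positivity) (by positivity), one_mul, ← pow_add,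
      ← pow_add]
    congr 1
    omega
  rw [e]
  apply one_div_le_one_div_of_le (by positivity)
  apply pow_le_pow_right₀ one_le_two
  omega

private theorem F7_f2 (s ks ls : ℕ) : (2 : ℝ) ^ (ks + ls) * 2 ^ (ks + (Gc + 60) * s) *
    (2 ^ (1000 * s) / 2 ^ (2 * ks + ls)) = 2 ^ ((Gc + 1060) * s) := by
  unfold Gc
  rw [mul_div_assoc', div_eq_iff (by positivity), ← pow_add, ← pow_add, ← pow_add]
  congr 1
  ring

private theorem F7_f3 (s ks ls : ℕ) : (2 : ℝ) ^ (ks + ls) * 2 ^ (ls + (Gc + 60) * s) *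
    (2 ^ (1000 * s) / 2 ^ (ks + 2 * ls)) = 2 ^ ((Gc + 1060) * s) := by
  unfold Gc
  rw [mul_div_assoc', div_eq_iff (by positivity), ← pow_add, ← pow_add, ← pow_add]
  congr 1
  ring

private theorem F7_frac (A B C D E : ℝ) : A * (B / C) * (D / E) = (A * B * D) / (C * E) := by ring

private theorem F7_f4 (s ks ls : ℕ) : (2 : ℝ) ^ (ks + ls) * (2 ^ ks / 2 ^ (1015 * s)) *
    (2 ^ (1000 * s) / 2 ^ (2 * ks + ls)) = 1 / 2 ^ (15 * s) := by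
  rw [F7_frac, div_eq_div_iff (by positivity) (by positivity), one_mul,
    ← pow_add, ← pow_add, ← pow_add, ← pow_add]
  congr 1
  ring

private theorem F7_f5 (s ks ls : ℕ) : (2 : ℝ) ^ (ks + ls) * (2 ^ ls / 2 ^ (1015 * s)) *
    (2 ^ (1000 * s) / 2 ^ (ks + 2 * ls)) = 1 / 2 ^ (15 * s) := by
  rw [F7_frac, div_eq_div_iff (by positivity) (by positivity), one_mul,
    ← pow_add, ← pow_add, ← pow_add, ← pow_add]
  congr 1
  ring

/-- the shift of a coordinate -/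
private theorem F7_shift (s ks ls α0 : ℕ) (a : ℕ) (δ : ℝ)
    (h : nd (((a : ℝ) - (α0 * 2 ^ ((3 * Gc + 100) * s) : ℕ)) / QA s ks ls) ≤ δ) :
    ∃ (y : ℝ) (z : ℤ), |y| ≤ δ ∧ (a : ℝ) / QA s ks ls = x0 ks ls α0 + y + z := by
  obtain ⟨z, hz⟩ := nd_exists (((a : ℝ) - (α0 * 2 ^ ((3 * Gc + 100) * s) : ℕ)) / QA s ks ls)
  refine ⟨((a : ℝ) - (α0 * 2 ^ ((3 * Gc + 100) * s) : ℕ)) / QA s ks ls - z, z, by
    rw [hz]; exact h, ?_⟩
  have e : x0 ks ls α0 = ((α0 * 2 ^ ((3 * Gc + 100) * s) : ℕ) : ℝ) / QA s ks ls := by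
    unfold x0 QA
    push_cast
    rw [div_eq_div_iff (by positivity) (by positivity), mul_assoc, ← pow_add]
    congr 2
    ring
  rw [e]
  ring

private theorem F7_shift' (s ks ls β0 : ℕ) (b : ℕ) (δ : ℝ)
    (h : nd (((b : ℝ) - (β0 * 2 ^ ((3 * Gc + 100) * s) : ℕ)) / QB s ks ls) ≤ δ) :
    ∃ (y : ℝ) (z : ℤ), |y| ≤ δ ∧ (b : ℝ) / QB s ks ls = y0 ks ls β0 + y + z := by
  obtain ⟨z, hz⟩ := nd_exists (((b : ℝ) - (β0 * 2 ^ ((3 * Gc + 100) * s) : ℕ)) / QB s ks ls)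
  refine ⟨((b : ℝ) - (β0 * 2 ^ ((3 * Gc + 100) * s) : ℕ)) / QB s ks ls - z, z, by
    rw [hz]; exact h, ?_⟩
  have e : y0 ks ls β0 = ((β0 * 2 ^ ((3 * Gc + 100) * s) : ℕ) : ℝ) / QB s ks ls := by
    unfold y0 QB
    push_cast
    rw [div_eq_div_iff (by positivity) (by positivity), mul_assoc, ← pow_add]
    congr 2
    ring
  rw [e]
  ring

/-- the nearest integer -/
private theorem F7_near (s ks ls : ℕ) (X Y : ℝ) (h h' : ℤ) (a b : ℕ) (ya yb η : ℝ) (za zb : ℤ)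
    (ha : (a : ℝ) / QA s ks ls = X + ya + za) (hb : (b : ℝ) / QB s ks ls = Y + yb + zb)
    (hn : nd (ph s ks ls h h' a b) ≤ η) :
    ∃ j : ℤ, |(h : ℝ) * (X + ya) + h' * (Y + yb) - j| ≤ η := by
  obtain ⟨z, hz⟩ := nd_exists (ph s ks ls h h' a b)
  refine ⟨z - h * za - h' * zb, ?_⟩
  rw [← hz] at hn
  refine le_trans (le_of_eq ?_) hn
  congr 1
  unfold ph
  rw [mul_div_assoc, mul_div_assoc, ha, hb]
  push_cast
  ring

open Classical in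
private theorem F7_NN {s ks ls α0 β0 : ℕ} {e1 e2 : ℤ} {D : ℤ × ℤ}
    (h : D ∈ NN s ks ls α0 β0 e1 e2) :
    |(D.1 : ℝ)| ≤ 2 ^ (ks + (Gc + 60) * s) ∧ |(D.2 : ℝ)| ≤ 2 ^ (ls + (Gc + 60) * s) ∧
    (2 : ℝ) ^ (ks + (Gc - 60) * s) ≤ e1 * D.1 ∧ (2 : ℝ) ^ (ls + (Gc - 60) * s) ≤ e2 * D.2 ∧
    |D.1| ≤ (2 : ℤ) ^ (ks + (Gc + 60) * s) ∧ |D.2| ≤ (2 : ℤ) ^ (ls + (Gc + 60) * s) ∧
    nearR s ks ls α0 β0 D.1 D.2 := by
  unfold NN at h
  rw [mem_filter, mem_product, mem_Icc, mem_Icc] at h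
  obtain ⟨⟨⟨h1, h2⟩, h3, h4⟩, h5, h6, h7⟩ := h
  have a1 : |D.1| ≤ (2 : ℤ) ^ (ks + (Gc + 60) * s) := abs_le.2 ⟨h1, h2⟩
  have a2 : |D.2| ≤ (2 : ℤ) ^ (ls + (Gc + 60) * s) := abs_le.2 ⟨h3, h4⟩
  refine ⟨by exact_mod_cast a1, by exact_mod_cast a2, by exact_mod_cast h5, by exact_mod_cast h6,
    a1, a2, h7⟩

/-- one coordinate -/
private theorem F7_one (s ks ls : ℕ) (X Y h h' j ya yb : ℝ)
    (ht : |h * (X + ya) + h' * (Y + yb) - j| ≤ 2 ^ (1000 * s) / (nw s ks ls : ℝ))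
    (hya : |ya| ≤ 2 ^ (1000 * s) / 2 ^ (2 * ks + ls))
    (hyb : |yb| ≤ 2 ^ (1000 * s) / 2 ^ (ks + 2 * ls))
    (hh : |h| ≤ 2 ^ (ks + (Gc + 60) * s)) (hh' : |h'| ≤ 2 ^ (ls + (Gc + 60) * s)) (hs : 1 ≤ s) :
    |(2 : ℝ) ^ (ks + ls) * (h * X + h' * Y - j)| ≤ (2 : ℝ) ^ ((Gc + 1062) * s) := by
  have hR : (0 : ℝ) < (2 : ℝ) ^ (ks + ls) := by positivity
  have e : (2 : ℝ) ^ (ks + ls) * (h * X + h' * Y - j) =
      (2 : ℝ) ^ (ks + ls) * (h * (X + ya) + h' * (Y + yb) - j) -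
      (2 : ℝ) ^ (ks + ls) * h * ya - (2 : ℝ) ^ (ks + ls) * h' * yb := by ring
  have b1 : |(2 : ℝ) ^ (ks + ls) * (h * (X + ya) + h' * (Y + yb) - j)| ≤ 1 / 2 ^ (20 * s) := by
    rw [abs_mul, abs_of_pos hR]
    exact (mul_le_mul_of_nonneg_left ht hR.le).trans (F7_f1 s ks ls)
  have b2 : |(2 : ℝ) ^ (ks + ls) * h * ya| ≤ 2 ^ ((Gc + 1060) * s) := by
    rw [abs_mul, abs_mul, abs_of_pos hR, ← F7_f2 s ks ls]
    exact mul_le_mul (mul_le_mul_of_nonneg_left hh hR.le) hya (abs_nonneg _) (by positivity)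
  have b3 : |(2 : ℝ) ^ (ks + ls) * h' * yb| ≤ 2 ^ ((Gc + 1060) * s) := by
    rw [abs_mul, abs_mul, abs_of_pos hR, ← F7_f3 s ks ls]
    exact mul_le_mul (mul_le_mul_of_nonneg_left hh' hR.le) hyb (abs_nonneg _) (by positivity)
  have b4 : (1 : ℝ) / 2 ^ (20 * s) ≤ 2 ^ ((Gc + 1060) * s) := by
    rw [div_le_iff₀ (by positivity)]
    exact one_le_mul_of_one_le_of_one_le (one_le_pow₀ one_le_two) (one_le_pow₀ one_le_two)
  have b5 : 3 * (2 : ℝ) ^ ((Gc + 1060) * s) ≤ 2 ^ ((Gc + 1062) * s) := by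
    have e2 : (2 : ℝ) ^ ((Gc + 1062) * s) = 2 ^ ((Gc + 1060) * s) * 2 ^ (2 * s) := by
      rw [← pow_add]; congr 1; ring
    have e3 : (4 : ℝ) ≤ 2 ^ (2 * s) := by
      calc (4 : ℝ) = 2 ^ 2 := by norm_num
        _ ≤ 2 ^ (2 * s) := pow_le_pow_right₀ one_le_two (by omega)
    rw [e2]
    have e4 : (0 : ℝ) < 2 ^ ((Gc + 1060) * s) := by positivity
    nlinarith
  rw [e]
  refine (abs_sub _ _).trans ?_
  have := abs_sub ((2 : ℝ) ^ (ks + ls) * (h * (X + ya) + h' * (Y + yb) - j))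
    ((2 : ℝ) ^ (ks + ls) * h * ya)
  linarith

/-- JOB F7.  Physical side.  For a physically admissible quadruple in `NN` let `j_i` be the nearest integers to the phases
`ph D_i (point_i)`, and `V_i = vec D_i j_i`.  With `y_a = (a - a0)/QA` reduced mod 1 (choose the integer so that `|y_a| ≤ 2^(1000s-us)`; this
changes `ph` by an integer multiple of `h`, absorbed in `j_i` -- more precisely choose `j_i` as the nearest integer to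
`h_i (x0 + y_a) + h_i'(y0 + y_b)`), one has `|h_i x0 + h_i' y0 - j_i| ≤ 2^(1000s)/n + |h_i| 2^(1000s-us) + |h_i'| 2^(1000s-vs)`, so
`|V_i.1| ≤ 2^((G+1062)s)` (`2^rs/n = 2^((1100-G)s)`, `2^rs 2^(ks+(G+60)s) 2^(1000s-us) = 2^((G+1060)s)`), and
`|V1.1 - V2.1 - V3.1 + V4.1| ≤ 4·2^(1000s)·2^((1100-G)s) + 2^rs(|h1-h2| + |h3-h4|)·2^(1000s-us) + ... ≤ 2^(-14 s)`
(`|h1-h2| ≤ 2^(ks-1015s)`, etc., `freq_close`). -/
theorem phys_vec (s ks ls α0 β0 : ℕ) (hs : 200 ≤ s) (hp : ParF s ks ls) (e1 e2 : ℤ)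
    (he1 : e1 = 1 ∨ e1 = -1) (he2 : e2 = 1 ∨ e2 = -1) (D1 D2 D3 D4 : ℤ × ℤ)
    (h1 : D1 ∈ NN s ks ls α0 β0 e1 e2) (h2 : D2 ∈ NN s ks ls α0 β0 e1 e2)
    (h3 : D3 ∈ NN s ks ls α0 β0 e1 e2) (h4 : D4 ∈ NN s ks ls α0 β0 e1 e2)
    (c12 : |((D1.1 : ℝ) - D2.1)| ≤ 2 ^ ks / 2 ^ (1015 * s))
    (c34 : |((D3.1 : ℝ) - D4.1)| ≤ 2 ^ ks / 2 ^ (1015 * s))
    (c13 : |((D1.2 : ℝ) - D3.2)| ≤ 2 ^ ls / 2 ^ (1015 * s))
    (c24 : |((D2.2 : ℝ) - D4.2)| ≤ 2 ^ ls / 2 ^ (1015 * s))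
    (hf : physAdm s ks ls α0 β0 D1 D2 D3 D4) :
    ∃ j1 j2 j3 j4 : ℤ,
      |(vec ks ls α0 β0 e1 e2 D1.1 D1.2 j1).1| ≤ (2 : ℝ) ^ ((Gc + 1062) * s) ∧
      |(vec ks ls α0 β0 e1 e2 D2.1 D2.2 j2).1| ≤ (2 : ℝ) ^ ((Gc + 1062) * s) ∧
      |(vec ks ls α0 β0 e1 e2 D3.1 D3.2 j3).1| ≤ (2 : ℝ) ^ ((Gc + 1062) * s) ∧
      |(vec ks ls α0 β0 e1 e2 D4.1 D4.2 j4).1| ≤ (2 : ℝ) ^ ((Gc + 1062) * s) ∧
      |(vec ks ls α0 β0 e1 e2 (D1.1 - D2.1 - D3.1 + D4.1) (D1.2 - D2.2 - D3.2 + D4.2)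
        (j1 - j2 - j3 + j4)).1| ≤ 1 / (2 : ℝ) ^ (14 * s) := by
  obtain ⟨a, a', b, b', ha, ha', hb, hb', p1, p2, p3, p4⟩ := hf
  obtain ⟨ya, za, hya, ea⟩ := F7_shift s ks ls α0 a _ ha
  obtain ⟨ya', za', hya', ea'⟩ := F7_shift s ks ls α0 a' _ ha'
  obtain ⟨yb, zb, hyb, eb⟩ := F7_shift' s ks ls β0 b _ hb
  obtain ⟨yb', zb', hyb', eb'⟩ := F7_shift' s ks ls β0 b' _ hb'
  obtain ⟨j1, hj1⟩ := F7_near s ks ls _ _ D1.1 D1.2 a b ya yb _ za zb ea eb p1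
  obtain ⟨j2, hj2⟩ := F7_near s ks ls _ _ D2.1 D2.2 a b' ya yb' _ za zb' ea eb' p2
  obtain ⟨j3, hj3⟩ := F7_near s ks ls _ _ D3.1 D3.2 a' b ya' yb _ za' zb ea' eb p3
  obtain ⟨j4, hj4⟩ := F7_near s ks ls _ _ D4.1 D4.2 a' b' ya' yb' _ za' zb' ea' eb' p4
  have n1 := F7_NN h1
  have n2 := F7_NN h2
  have n3 := F7_NN h3
  have n4 := F7_NN h4
  have hs1 : 1 ≤ s := by omega
  refine ⟨j1, j2, j3, j4, ?_, ?_, ?_, ?_, ?_⟩
  · exact F7_one s ks ls _ _ _ _ _ ya yb hj1 hya hyb n1.1 n1.2.1 hs1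
  · exact F7_one s ks ls _ _ _ _ _ ya yb' hj2 hya hyb' n2.1 n2.2.1 hs1
  · exact F7_one s ks ls _ _ _ _ _ ya' yb hj3 hya' hyb n3.1 n3.2.1 hs1
  · exact F7_one s ks ls _ _ _ _ _ ya' yb' hj4 hya' hyb' n4.1 n4.2.1 hs1
  · unfold vec
    simp only
    set R : ℝ := (2 : ℝ) ^ (ks + ls) with hRdef
    have hR : 0 < R := by positivity
    set X := x0 ks ls α0
    set Y := y0 ks ls β0
    set η : ℝ := 2 ^ (1000 * s) / (nw s ks ls : ℝ) with hη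
    set δa : ℝ := 2 ^ (1000 * s) / 2 ^ (2 * ks + ls) with hδa
    set δb : ℝ := 2 ^ (1000 * s) / 2 ^ (ks + 2 * ls) with hδb
    set t1 : ℝ := (D1.1 : ℝ) * (X + ya) + D1.2 * (Y + yb) - j1 with ht1
    set t2 : ℝ := (D2.1 : ℝ) * (X + ya) + D2.2 * (Y + yb') - j2 with ht2
    set t3 : ℝ := (D3.1 : ℝ) * (X + ya') + D3.2 * (Y + yb) - j3 with ht3
    set t4 : ℝ := (D4.1 : ℝ) * (X + ya') + D4.2 * (Y + yb') - j4 with ht4
    have e : R * (((D1.1 - D2.1 - D3.1 + D4.1 : ℤ) : ℝ) * X +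
        ((D1.2 - D2.2 - D3.2 + D4.2 : ℤ) : ℝ) * Y - ((j1 - j2 - j3 + j4 : ℤ) : ℝ)) =
        R * t1 - R * t2 - R * t3 + R * t4 - R * ((D1.1 : ℝ) - D2.1) * ya +
        R * ((D3.1 : ℝ) - D4.1) * ya' - R * ((D1.2 : ℝ) - D3.2) * yb +
        R * ((D2.2 : ℝ) - D4.2) * yb' := by
      rw [ht1, ht2, ht3, ht4]
      push_cast
      ring
    rw [e]
    have f1 : R * η ≤ 1 / 2 ^ (20 * s) := F7_f1 s ks ls
    have b1 : ∀ t : ℝ, |t| ≤ η → |R * t| ≤ 1 / 2 ^ (20 * s) := by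
      intro t ht
      rw [abs_mul, abs_of_pos hR]
      exact (mul_le_mul_of_nonneg_left ht hR.le).trans f1
    have b2 : ∀ x y : ℝ, |x| ≤ 2 ^ ks / 2 ^ (1015 * s) → |y| ≤ δa → |R * x * y| ≤ 1 / 2 ^ (15 * s) := by
      intro x y hx hy
      rw [abs_mul, abs_mul, abs_of_pos hR, ← F7_f4 s ks ls]
      exact mul_le_mul (mul_le_mul_of_nonneg_left hx hR.le) hy (abs_nonneg _) (by positivity)
    have b3 : ∀ x y : ℝ, |x| ≤ 2 ^ ls / 2 ^ (1015 * s) → |y| ≤ δb → |R * x * y| ≤ 1 / 2 ^ (15 * s) := by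
      intro x y hx hy
      rw [abs_mul, abs_mul, abs_of_pos hR, ← F7_f5 s ks ls]
      exact mul_le_mul (mul_le_mul_of_nonneg_left hx hR.le) hy (abs_nonneg _) (by positivity)
    have g1 := abs_le.1 (b1 t1 hj1)
    have g2 := abs_le.1 (b1 t2 hj2)
    have g3 := abs_le.1 (b1 t3 hj3)
    have g4 := abs_le.1 (b1 t4 hj4)
    have g5 := abs_le.1 (b2 _ ya c12 hya)
    have g6 := abs_le.1 (b2 _ ya' c34 hya')
    have g7 := abs_le.1 (b3 _ yb c13 hyb)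
    have g8 := abs_le.1 (b3 _ yb' c24 hyb')
    have k1 : (1 : ℝ) / 2 ^ (15 * s) = (1 / 2 ^ (14 * s)) * (1 / 2 ^ s) := by
      rw [div_mul_div_comm, one_mul, ← pow_add]; congr 2; ring
    have k2 : (1 : ℝ) / 2 ^ (20 * s) ≤ 1 / 2 ^ (15 * s) := by
      apply one_div_le_one_div_of_le (by positivity)
      apply pow_le_pow_right₀ one_le_two
      omega
    have k3 : (1 : ℝ) / 2 ^ s ≤ 1 / 8 := by
      apply one_div_le_one_div_of_le (by norm_num)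
      calc (8 : ℝ) = 2 ^ 3 := by norm_num
        _ ≤ 2 ^ s := pow_le_pow_right₀ one_le_two (by omega)
    have k4 : (0 : ℝ) < 1 / 2 ^ (14 * s) := by positivity
    have k5 : (1 : ℝ) / 2 ^ (15 * s) ≤ (1 / 2 ^ (14 * s)) * (1 / 8) := by
      rw [k1]
      exact mul_le_mul_of_nonneg_left k3 k4.le
    rw [abs_le]
    constructor <;> linarith

open Classical in
/-- the data attached to an admissible quadruple -/
private theorem F7_data (s ks ls α0 β0 : ℕ) (hs : 200 ≤ s) (hp : ParF s ks ls)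
    (hg : GenF s ks ls α0 β0) (lb : ℕ)
    (hb1 : ks + ls + (2 * Gc - 22) * s ≤ lb) (hb2 : lb ≤ ks + ls + (2 * Gc - 11) * s) (T : ℤ)
    (hT1 : (2 : ℤ) ^ lb ≤ 2 * T) (hT2 : T ≤ (2 : ℤ) ^ (lb + 4)) (e1 e2 : ℤ)
    (he1 : e1 = 1 ∨ e1 = -1) (he2 : e2 = 1 ∨ e2 = -1) (D1 D2 D3 D4 : ℤ × ℤ)
    (h1 : D1 ∈ NN s ks ls α0 β0 e1 e2) (h2 : D2 ∈ NN s ks ls α0 β0 e1 e2)
    (h3 : D3 ∈ NN s ks ls α0 β0 e1 e2) (h4 : D4 ∈ NN s ks ls α0 β0 e1 e2)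
    (hfr : freqAdm s ks ls T D1 D2 D3 D4) (hph : physAdm s ks ls α0 β0 D1 D2 D3 D4) :
    ∃ z : V3 × V3 × V3, Q4 s (Gam ks ls α0 β0 e1 e2) z.1 z.2.1 z.2.2 ∧
      z.1.2 = ((e1 * D1.1 / 2 ^ ks : ℝ), (e2 * D1.2 / 2 ^ ls : ℝ)) ∧
      (z.1 + z.2.1).2 = ((e1 * D3.1 / 2 ^ ks : ℝ), (e2 * D3.2 / 2 ^ ls : ℝ)) ∧
      (z.1 + z.2.2).2 = ((e1 * D2.1 / 2 ^ ks : ℝ), (e2 * D2.2 / 2 ^ ls : ℝ)) ∧
      (z.1 + z.2.1 + z.2.2).2 = ((e1 * D4.1 / 2 ^ ks : ℝ), (e2 * D4.2 / 2 ^ ls : ℝ)) := by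
  have n1 := F7_NN h1
  have n2 := F7_NN h2
  have n3 := F7_NN h3
  have n4 := F7_NN h4
  have hdet := det_small s ks ls α0 β0 hs hp lb hb1 hb2 T hT1 hT2 e1 e2 he1 he2 D1 D2 D3 D4 h1 h2 h3
    h4 hfr
  obtain ⟨q1, q2, q3, q4, a1, a2, a3, a4, r1, r2, r3, r4⟩ := hfr
  have c12 := (freq_close s ks ls α0 β0 hs hp lb hb1 hb2 T hT1 hT2 q1 q2 D1.1 D2.1 a1 a2
    n1.2.2.2.2.1 n2.2.2.2.2.1 r1).2
  have c34 := (freq_close s ks ls α0 β0 hs hp lb hb1 hb2 T hT1 hT2 q3 q4 D3.1 D4.1 a3 a4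
    n3.2.2.2.2.1 n4.2.2.2.2.1 r2).2
  have c13 := (freq_close' s ks ls α0 β0 hs hp lb hb1 hb2 T hT1 hT2 q1 q3 D1.2 D3.2 a1 a3
    n1.2.2.2.2.2.1 n3.2.2.2.2.2.1 r3).2
  have c24 := (freq_close' s ks ls α0 β0 hs hp lb hb1 hb2 T hT1 hT2 q2 q4 D2.2 D4.2 a2 a4
    n2.2.2.2.2.2.1 n4.2.2.2.2.2.1 r4).2
  obtain ⟨j1, j2, j3, j4, v1, v2, v3, v4, v5⟩ := phys_vec s ks ls α0 β0 hs hp e1 e2 he1 he2 D1 D2 D3
    D4 h1 h2 h3 h4 c12 c34 c13 c24 hph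
  set Γ := Gam ks ls α0 β0 e1 e2 with hΓ
  set V1 := vec ks ls α0 β0 e1 e2 D1.1 D1.2 j1 with hV1
  set V2 := vec ks ls α0 β0 e1 e2 D2.1 D2.2 j2 with hV2
  set V3' := vec ks ls α0 β0 e1 e2 D3.1 D3.2 j3 with hV3
  set V4 := vec ks ls α0 β0 e1 e2 D4.1 D4.2 j4 with hV4
  have m1 : V1 ∈ Γ := ⟨D1.1, D1.2, j1, rfl⟩
  have m2 : V2 ∈ Γ := ⟨D2.1, D2.2, j2, rfl⟩
  have m3 : V3' ∈ Γ := ⟨D3.1, D3.2, j3, rfl⟩
  have m4 : V4 ∈ Γ := ⟨D4.1, D4.2, j4, rfl⟩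
  have hs1 : 1 ≤ s := by omega
  have hk0 : (0 : ℝ) < 2 ^ ks := by positivity
  have hl0 : (0 : ℝ) < 2 ^ ls := by positivity
  have ab1 : |(e1 : ℝ)| = 1 := by rcases he1 with h | h <;> rw [h] <;> simp
  have ab2 : |(e2 : ℝ)| = 1 := by rcases he2 with h | h <;> rw [h] <;> simp
  have sq1 : (e1 : ℝ) * e1 = 1 := by rcases he1 with h | h <;> rw [h] <;> simp
  have sq2 : (e2 : ℝ) * e2 = 1 := by rcases he2 with h | h <;> rw [h] <;> simp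
  -- the small vector is zero
  set U := vec ks ls α0 β0 e1 e2 (D1.1 - D2.1 - D3.1 + D4.1) (D1.2 - D2.2 - D3.2 + D4.2)
        (j1 - j2 - j3 + j4) with hU
  have hUeq : U = V1 - V2 - V3' + V4 := by
    rw [hU, hV1, hV2, hV3, hV4]
    unfold vec
    ext
    · simp only [Prod.fst_add, Prod.fst_sub]
      push_cast
      ring
    · simp only [Prod.snd_add, Prod.snd_sub, Prod.fst_add, Prod.fst_sub]
      push_cast
      ring
    · simp only [Prod.snd_add, Prod.snd_sub]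
      push_cast
      ring
  have hU0 : U = 0 := by
    by_contra hne
    have hz : ((-(13 * s) : ℤ)) = -(13 * (s : ℤ)) := rfl
    have hGD := Gam_GD s ks ls α0 β0 hp hg e1 e2 he1 he2 (-(13 * s : ℤ)) (-(13 * s : ℤ))
      (-(13 * s : ℤ)) (by unfold Gc; push_cast; omega) le_rfl (by unfold Gc; push_cast; omega) le_rfl
      (by unfold Gc; push_cast; omega) {U} (by
        intro z hz
        rw [mem_singleton] at hz
        rw [hz]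
        refine ⟨⟨_, _, _, rfl⟩, hne, ?_, ?_, ?_⟩
        · refine v5.trans ?_
          rw [zpow_neg, one_div]
          apply inv_anti₀ (by positivity)
          have : (13 * s : ℤ) = ((13 * s : ℕ) : ℤ) := by push_cast; ring
          rw [this, zpow_natCast]
          apply pow_le_pow_right₀ one_le_two
          omega
        · have hh : U.2.1 = e1 * (((D1.1 : ℝ) - D2.1) - ((D3.1 : ℝ) - D4.1)) / 2 ^ ks := by
            rw [hU]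
            unfold vec
            simp only
            push_cast
            ring
          rw [hh, abs_div, abs_mul, ab1, one_mul, abs_of_pos hk0, div_le_iff₀ hk0]
          refine (abs_sub _ _).trans ?_
          have : (13 * s : ℤ) = ((13 * s : ℕ) : ℤ) := by push_cast; ring
          rw [zpow_neg, this, zpow_natCast]
          have t1 : (2 : ℝ) ^ ks / 2 ^ (1015 * s) + 2 ^ ks / 2 ^ (1015 * s) ≤
              ((2 : ℝ) ^ (13 * s))⁻¹ * 2 ^ ks := by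
            have t2 : (2 : ℝ) ^ ks / 2 ^ (1015 * s) + 2 ^ ks / 2 ^ (1015 * s) =
                (2 / 2 ^ (1015 * s)) * 2 ^ ks := by ring
            rw [t2]
            apply mul_le_mul_of_nonneg_right _ hk0.le
            rw [div_le_iff₀ (by positivity), ← div_eq_inv_mul, le_div_iff₀ (by positivity)]
            calc (2 : ℝ) * 2 ^ (13 * s) = 2 ^ (13 * s + 1) := by rw [pow_succ]; ring
              _ ≤ 2 ^ (1015 * s) := pow_le_pow_right₀ one_le_two (by omega)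
          linarith
        · have hh : U.2.2 = e2 * (((D1.2 : ℝ) - D3.2) - ((D2.2 : ℝ) - D4.2)) / 2 ^ ls := by
            rw [hU]
            unfold vec
            simp only
            push_cast
            ring
          rw [hh, abs_div, abs_mul, ab2, one_mul, abs_of_pos hl0, div_le_iff₀ hl0]
          refine (abs_sub _ _).trans ?_
          have : (13 * s : ℤ) = ((13 * s : ℕ) : ℤ) := by push_cast; ring
          rw [zpow_neg, this, zpow_natCast]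
          have t1 : (2 : ℝ) ^ ls / 2 ^ (1015 * s) + 2 ^ ls / 2 ^ (1015 * s) ≤
              ((2 : ℝ) ^ (13 * s))⁻¹ * 2 ^ ls := by
            have t2 : (2 : ℝ) ^ ls / 2 ^ (1015 * s) + 2 ^ ls / 2 ^ (1015 * s) =
                (2 / 2 ^ (1015 * s)) * 2 ^ ls := by ring
            rw [t2]
            apply mul_le_mul_of_nonneg_right _ hl0.le
            rw [div_le_iff₀ (by positivity), ← div_eq_inv_mul, le_div_iff₀ (by positivity)]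
            calc (2 : ℝ) * 2 ^ (13 * s) = 2 ^ (13 * s + 1) := by rw [pow_succ]; ring
              _ ≤ 2 ^ (1015 * s) := pow_le_pow_right₀ one_le_two (by omega)
          linarith)
    rw [card_singleton, Nat.cast_one] at hGD
    have h5 : (2 : ℝ) ^ ((s : ℤ) + -(13 * s : ℤ) + -(13 * s : ℤ) + -(13 * s : ℤ)) < 1 := by
      apply zpow_lt_one_of_neg₀ one_lt_two
      omega
    linarith
  have hV4' : V1 + (V3' - V1) + (V2 - V1) = V4 := by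
    have : V1 - V2 - V3' + V4 = 0 := by rw [← hUeq, hU0]
    calc V1 + (V3' - V1) + (V2 - V1) = V4 - (V1 - V2 - V3' + V4) := by abel
      _ = V4 := by rw [this, sub_zero]
  have hV3' : V1 + (V3' - V1) = V3' := by abel
  have hV2' : V1 + (V2 - V1) = V2 := by abel
  have hcore : ∀ (D : ℤ × ℤ) (j : ℤ), D ∈ NN s ks ls α0 β0 e1 e2 →
      Core s (vec ks ls α0 β0 e1 e2 D.1 D.2 j) := by
    intro D j hD
    obtain ⟨b1, b2, b3, b4, _⟩ := F7_NN hD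
    unfold Core vec
    simp only
    have u1 : (e1 : ℝ) * D.1 ≤ 2 ^ (ks + (Gc + 60) * s) := by
      refine (le_abs_self _).trans ?_
      rw [abs_mul, ab1, one_mul]
      exact b1
    have u2 : (e2 : ℝ) * D.2 ≤ 2 ^ (ls + (Gc + 60) * s) := by
      refine (le_abs_self _).trans ?_
      rw [abs_mul, ab2, one_mul]
      exact b2
    rw [le_div_iff₀ hk0, div_le_iff₀ hk0, le_div_iff₀ hl0, div_le_iff₀ hl0, ← pow_add, ← pow_add,
      ← pow_add, ← pow_add, add_comm _ ks, add_comm _ ks, add_comm _ ls, add_comm _ ls]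
    exact ⟨b3, u1, b4, u2⟩
  have hbig : (2 : ℝ) ^ ((Gc + 1062) * s) + 2 ^ ((Gc + 1062) * s) ≤ 2 ^ ((Gc + 1063) * s) := by
    have : (2 : ℝ) ^ ((Gc + 1062) * s) + 2 ^ ((Gc + 1062) * s) = 2 ^ ((Gc + 1062) * s + 1) := by
      rw [pow_succ]; ring
    rw [this]
    apply pow_le_pow_right₀ one_le_two
    have : (Gc + 1063) * s = (Gc + 1062) * s + s := by ring
    omega
  have hpos62 : (0 : ℝ) < 2 ^ ((Gc + 1062) * s) := by positivity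
  have hQ : Q4 s Γ V1 (V3' - V1) (V2 - V1) := by
    refine ⟨m1, Γ.sub_mem m3 m1, Γ.sub_mem m2 m1, hcore D1 j1 h1, ?_, ?_, ?_, ?_, ?_, ?_, ?_, ?_, ?_⟩
    · rw [hV3']; exact hcore D3 j3 h3
    · rw [hV2']; exact hcore D2 j2 h2
    · rw [hV4']; exact hcore D4 j4 h4
    · linarith
    · rw [Prod.fst_sub]
      refine (abs_sub _ _).trans ?_
      linarith
    · rw [Prod.fst_sub]
      refine (abs_sub _ _).trans ?_
      linarith
    · have e : (V3' - V1).2.2 = -(e2 * ((D1.2 : ℝ) - D3.2)) / 2 ^ ls := by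
        rw [hV1, hV3]
        unfold vec
        simp only [Prod.snd_sub]
        ring
      rw [e, abs_div, abs_neg, abs_mul, ab2, one_mul, abs_of_pos hl0, div_le_iff₀ hl0]
      refine c13.trans ?_
      rw [div_eq_inv_mul, ← one_div]
      apply mul_le_mul_of_nonneg_right _ hl0.le
      apply one_div_le_one_div_of_le (by positivity)
      exact pow_le_pow_right₀ one_le_two (by omega)
    · have e : (V2 - V1).2.1 = -(e1 * ((D1.1 : ℝ) - D2.1)) / 2 ^ ks := by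
        rw [hV1, hV2]
        unfold vec
        simp only [Prod.snd_sub, Prod.fst_sub]
        ring
      rw [e, abs_div, abs_neg, abs_mul, ab1, one_mul, abs_of_pos hk0, div_le_iff₀ hk0]
      refine c12.trans ?_
      rw [div_eq_inv_mul, ← one_div]
      apply mul_le_mul_of_nonneg_right _ hk0.le
      apply one_div_le_one_div_of_le (by positivity)
      exact pow_le_pow_right₀ one_le_two (by omega)
    · rw [hV4', hV3', hV2']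
      have e : V1.2.1 * V4.2.1 * (V3'.2.2 * V2.2.2) - V3'.2.1 * V2.2.1 * (V1.2.2 * V4.2.2) =
          ((D1.1 : ℝ) * D4.1 * (D3.2 * D2.2) - (D3.1 : ℝ) * D2.1 * (D1.2 * D4.2)) /
            (2 : ℝ) ^ (2 * ks + 2 * ls) := by
        rw [hV1, hV2, hV3, hV4]
        unfold vec
        simp only
        have w : (2 : ℝ) ^ (2 * ks + 2 * ls) = 2 ^ ks * 2 ^ ks * (2 ^ ls * 2 ^ ls) := by
          rw [← pow_add, ← pow_add, ← pow_add]; congr 1; ring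
        rw [w, div_mul_div_comm, div_mul_div_comm, div_mul_div_comm, div_mul_div_comm,
          div_mul_div_comm, div_mul_div_comm, ← sub_div]
        congr 1
        have w1 : (e1 : ℝ) * D1.1 * (e1 * D4.1) * (e2 * D3.2 * (e2 * D2.2)) =
            (e1 * e1) * (e2 * e2) * (D1.1 * D4.1 * (D3.2 * D2.2)) := by ring
        have w2 : (e1 : ℝ) * D3.1 * (e1 * D2.1) * (e2 * D1.2 * (e2 * D4.2)) =
            (e1 * e1) * (e2 * e2) * (D3.1 * D2.1 * (D1.2 * D4.2)) := by ring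
        rw [w1, w2, sq1, sq2]
        ring
      rw [e, abs_div, abs_of_pos (by positivity : (0 : ℝ) < 2 ^ (2 * ks + 2 * ls)),
        div_le_iff₀ (by positivity), mul_comm ((2 : ℝ) ^ ((Gc + 203) * s))]
      exact hdet
  refine ⟨(V1, V3' - V1, V2 - V1), hQ, rfl, ?_, ?_, ?_⟩
  · simp only
    rw [hV3']
    rfl
  · simp only
    rw [hV2']
    rfl
  · simp only
    rw [hV4']
    rfl

open Classical in
/-- Number of admissible quadruples.  By `freq_close`, `phys_vec` the vector `V1 - V2 - V3 + V4 ∈ Γ` is in the box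
`(-13s, -13s, -13s)`, so by `GDG` (`2^(s-39s) < 1`) it is `0`.  Hence with `D = V1`, `A = V3 - V1`, `B = V2 - V1` one has
`V4 = D + A + B` and `Q4 s Γ D A B` holds (`det_small` divided by `2^(2ks+2ls)`, `e1² = e2² = 1`).  The map
`(D1,D2,D3,D4) ↦ (D,A,B)` (with chosen `j`s) is injective (`D_i` can be read off, `D4 = D2 + D3 - D1`); `count4`. -/
theorem adm_card (s ks ls α0 β0 : ℕ) (hs : 200 ≤ s) (hp : ParF s ks ls)
    (hg : GenF s ks ls α0 β0) (lb : ℕ)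
    (hb1 : ks + ls + (2 * Gc - 22) * s ≤ lb) (hb2 : lb ≤ ks + ls + (2 * Gc - 11) * s) (T : ℤ)
    (hT1 : (2 : ℤ) ^ lb ≤ 2 * T) (hT2 : T ≤ (2 : ℤ) ^ (lb + 4)) (e1 e2 : ℤ)
    (he1 : e1 = 1 ∨ e1 = -1) (he2 : e2 = 1 ∨ e2 = -1) :
    (((NN s ks ls α0 β0 e1 e2 ×ˢ NN s ks ls α0 β0 e1 e2 ×ˢ NN s ks ls α0 β0 e1 e2 ×ˢ
      NN s ks ls α0 β0 e1 e2).filter (fun p : (ℤ × ℤ) × (ℤ × ℤ) × (ℤ × ℤ) × (ℤ × ℤ) =>
        freqAdm s ks ls T p.1 p.2.1 p.2.2.1 p.2.2.2 ∧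
        physAdm s ks ls α0 β0 p.1 p.2.1 p.2.2.1 p.2.2.2)).card : ℝ) ≤ (2 : ℝ) ^ (552100 * s) := by
  set 𝓕 := (NN s ks ls α0 β0 e1 e2 ×ˢ NN s ks ls α0 β0 e1 e2 ×ˢ NN s ks ls α0 β0 e1 e2 ×ˢ
      NN s ks ls α0 β0 e1 e2).filter (fun p : (ℤ × ℤ) × (ℤ × ℤ) × (ℤ × ℤ) × (ℤ × ℤ) =>
        freqAdm s ks ls T p.1 p.2.1 p.2.2.1 p.2.2.2 ∧
        physAdm s ks ls α0 β0 p.1 p.2.1 p.2.2.1 p.2.2.2) with h𝓕
  have hdata : ∀ p : (ℤ × ℤ) × (ℤ × ℤ) × (ℤ × ℤ) × (ℤ × ℤ), p ∈ 𝓕 → ∃ z : V3 × V3 × V3,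
      Q4 s (Gam ks ls α0 β0 e1 e2) z.1 z.2.1 z.2.2 ∧
      z.1.2 = ((e1 * p.1.1 / 2 ^ ks : ℝ), (e2 * p.1.2 / 2 ^ ls : ℝ)) ∧
      (z.1 + z.2.1).2 = ((e1 * p.2.2.1.1 / 2 ^ ks : ℝ), (e2 * p.2.2.1.2 / 2 ^ ls : ℝ)) ∧
      (z.1 + z.2.2).2 = ((e1 * p.2.1.1 / 2 ^ ks : ℝ), (e2 * p.2.1.2 / 2 ^ ls : ℝ)) ∧
      (z.1 + z.2.1 + z.2.2).2 = ((e1 * p.2.2.2.1 / 2 ^ ks : ℝ), (e2 * p.2.2.2.2 / 2 ^ ls : ℝ)) := by
    intro p hpm
    rw [h𝓕, mem_filter, mem_product, mem_product, mem_product] at hpm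
    obtain ⟨⟨h1, h2, h3, h4⟩, hfr, hph⟩ := hpm
    exact F7_data s ks ls α0 β0 hs hp hg lb hb1 hb2 T hT1 hT2 e1 e2 he1 he2 p.1 p.2.1 p.2.2.1
      p.2.2.2 h1 h2 h3 h4 hfr hph
  choose! z hz using hdata
  have hk0 : (2 : ℝ) ^ ks ≠ 0 := by positivity
  have hl0 : (2 : ℝ) ^ ls ≠ 0 := by positivity
  have he1' : (e1 : ℝ) ≠ 0 := by rcases he1 with h | h <;> rw [h] <;> simp
  have he2' : (e2 : ℝ) ≠ 0 := by rcases he2 with h | h <;> rw [h] <;> simp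
  have hread : ∀ D D' : ℤ × ℤ, (((e1 : ℝ) * D.1 / 2 ^ ks : ℝ), ((e2 : ℝ) * D.2 / 2 ^ ls : ℝ)) =
      (((e1 : ℝ) * D'.1 / 2 ^ ks : ℝ), ((e2 : ℝ) * D'.2 / 2 ^ ls : ℝ)) → D = D' := by
    intro D D' h
    rw [Prod.mk.injEq, div_left_inj' hk0, div_left_inj' hl0] at h
    have h1 := mul_left_cancel₀ he1' h.1
    have h2 := mul_left_cancel₀ he2' h.2
    ext
    · exact_mod_cast h1
    · exact_mod_cast h2
  have hinj : Set.InjOn z 𝓕 := by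
    intro p hpm p' hpm' heq
    obtain ⟨_, q1, q2, q3, q4⟩ := hz p hpm
    obtain ⟨_, q1', q2', q3', q4'⟩ := hz p' hpm'
    rw [heq] at q1 q2 q3 q4
    have r1 := hread _ _ (q1.symm.trans q1')
    have r2 := hread _ _ (q2.symm.trans q2')
    have r3 := hread _ _ (q3.symm.trans q3')
    have r4 := hread _ _ (q4.symm.trans q4')
    exact Prod.ext r1 (Prod.ext r3 (Prod.ext r2 r4))
  have hcount := count4 s hs (Gam ks ls α0 β0 e1 e2) (Gam_GD s ks ls α0 β0 hp hg e1 e2 he1 he2)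
    (𝓕.image z) (by
      intro q hq
      rw [mem_image] at hq
      obtain ⟨p, hpm, rfl⟩ := hq
      exact (hz p hpm).1)
  rw [card_image_of_injOn hinj] at hcount
  exact hcount

/-- `|NN| ≤ 2^(12 G s)` (`GenF.gi` with `i = 0`) -/
theorem NN_card (s ks ls α0 β0 : ℕ) (hs : 200 ≤ s) (hp : ParF s ks ls)
    (hg : GenF s ks ls α0 β0) (e1 e2 : ℤ) (he1 : e1 = 1 ∨ e1 = -1) (he2 : e2 = 1 ∨ e2 = -1) :
    ((NN s ks ls α0 β0 e1 e2).card : ℝ) ≤ (2 : ℝ) ^ (12 * Gc * s) := by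
  classical
  have h := hg.gi 0
  rw [mul_zero, add_zero, zero_add] at h
  refine le_trans ?_ h
  unfold cntH
  rw [Nat.cast_le]
  apply card_le_card
  intro D hD
  obtain ⟨b1, b2, b3, b4, b5, b6, b7⟩ := F7_NN hD
  have hf1 : ⌊(2 : ℝ) ^ (ks + (Gc + 60) * s)⌋ = (2 : ℤ) ^ (ks + (Gc + 60) * s) := by
    have : (2 : ℝ) ^ (ks + (Gc + 60) * s) = (((2 : ℤ) ^ (ks + (Gc + 60) * s) : ℤ) : ℝ) := by
      push_cast; rfl
    rw [this, Int.floor_intCast]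
  have hf2 : ⌊(2 : ℝ) ^ (ls + (Gc + 60) * s)⌋ = (2 : ℤ) ^ (ls + (Gc + 60) * s) := by
    have : (2 : ℝ) ^ (ls + (Gc + 60) * s) = (((2 : ℤ) ^ (ls + (Gc + 60) * s) : ℤ) : ℝ) := by
      push_cast; rfl
    rw [this, Int.floor_intCast]
  rw [mem_filter, mem_product, mem_Icc, mem_Icc, hf1, hf2]
  refine ⟨⟨abs_le.1 b5, abs_le.1 b6⟩, Or.inl ?_, b7⟩
  intro h0
  rw [h0, Int.cast_zero, mul_zero] at b3
  have : (0 : ℝ) < 2 ^ (ks + (Gc - 60) * s) := by positivity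
  linarith

end MP_5e4520_nt.Ex
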