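import Pool.Agent.Lib.MP_5e4520_ntE.F1
import Pool.Agent.Lib.MP_5e4520_ntE.F3
import Pool.Agent.Lib.MP_5e4520_ntE.F4
import Pool.Agent.Lib.MP_5e4520_ntE.F7
set_option autoImplicit false

namespace MP_5e4520_nt.Ex

open Finset

private theorem f8_ar1 (s : ℕ) (hs : 200 ≤ s) :
    3489 * s + 552100 * s + 44000 * s + 1 ≤ 6 * Gc * s := by
  unfold Gc; omega

private theorem f8_ar2 (s : ℕ) (hs : 200 ≤ s) :
    48 * Gc * s + 44000 * s + 1 ≤ 50 * Gc * s := by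
  unfold Gc; omega

private theorem f8_ar3 (s : ℕ) (hs : 200 ≤ s) :
    4 * s + (8 * Ap + 8) + 8 * s ≤ 44000 * s := by
  unfold Ap; omega

private theorem f8_sum4 {ι : Type*} (N : Finset ι) (F : ι → ι → ι → ι → ℝ) (P : ι → ι → ι → ι → Prop)
    [DecidablePred (fun p : ι × ι × ι × ι => P p.1 p.2.1 p.2.2.1 p.2.2.2)] (c1 c2 : ℝ)
    (h1 : ∀ D1 ∈ N, ∀ D2 ∈ N, ∀ D3 ∈ N, ∀ D4 ∈ N, P D1 D2 D3 D4 → F D1 D2 D3 D4 ≤ c1)
    (h2 : ∀ D1 ∈ N, ∀ D2 ∈ N, ∀ D3 ∈ N, ∀ D4 ∈ N, ¬ P D1 D2 D3 D4 → F D1 D2 D3 D4 ≤ c2)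
    (hc2 : 0 ≤ c2) :
    ∑ D1 ∈ N, ∑ D2 ∈ N, ∑ D3 ∈ N, ∑ D4 ∈ N, F D1 D2 D3 D4 ≤
      c1 * (((N ×ˢ N ×ˢ N ×ˢ N).filter (fun p : ι × ι × ι × ι =>
        P p.1 p.2.1 p.2.2.1 p.2.2.2)).card : ℝ) + (N.card : ℝ) ^ 4 * c2 := by
  have e : ∑ D1 ∈ N, ∑ D2 ∈ N, ∑ D3 ∈ N, ∑ D4 ∈ N, F D1 D2 D3 D4 =
      ∑ p ∈ N ×ˢ N ×ˢ N ×ˢ N, F p.1 p.2.1 p.2.2.1 p.2.2.2 := by
    rw [Finset.sum_product]
    refine Finset.sum_congr rfl fun D1 _ => ?_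
    rw [Finset.sum_product]
    refine Finset.sum_congr rfl fun D2 _ => ?_
    rw [Finset.sum_product]
  rw [e]
  calc ∑ p ∈ N ×ˢ N ×ˢ N ×ˢ N, F p.1 p.2.1 p.2.2.1 p.2.2.2
      ≤ ∑ p ∈ N ×ˢ N ×ˢ N ×ˢ N,
        ((if P p.1 p.2.1 p.2.2.1 p.2.2.2 then c1 else 0) + c2) := by
        refine Finset.sum_le_sum fun p hp => ?_
        simp only [Finset.mem_product] at hp
        obtain ⟨m1, m2, m3, m4⟩ := hp
        split_ifs with hP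
        · exact (h1 _ m1 _ m2 _ m3 _ m4 hP).trans (by linarith)
        · exact (h2 _ m1 _ m2 _ m3 _ m4 hP).trans (by linarith)
    _ = _ := by
        rw [Finset.sum_add_distrib, Finset.sum_const, Finset.card_product, Finset.card_product,
          Finset.card_product, ← Finset.sum_filter, Finset.sum_const, nsmul_eq_mul, nsmul_eq_mul]
        push_cast
        ring

/-- JOB F8.  Sum over all quadruples: admissible ones by `I4_size` and `adm_card`, the others are `0` (`I4_zero`) or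
`≤ X1²X3²/2^(50Gs)` (`I4_phys`), at most `|NN|^4 ≤ 2^(48 G s)` of them.
`552100 + 3489 - 600000 = -44411`. -/
theorem sum_I4 (s ks ls α0 β0 : ℕ) (hs : 200 ≤ s) (hp : ParF s ks ls)
    (hg : GenF s ks ls α0 β0) (lb : ℕ)
    (hb1 : ks + ls + (2 * Gc - 22) * s ≤ lb) (hb2 : lb ≤ ks + ls + (2 * Gc - 11) * s) (T : ℤ)
    (hT1 : (2 : ℤ) ^ lb ≤ 2 * T) (hT2 : T ≤ (2 : ℤ) ^ (lb + 4)) (e1 e2 : ℤ)
    (he1 : e1 = 1 ∨ e1 = -1) (he2 : e2 = 1 ∨ e2 = -1) :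
    ∑ D1 ∈ NN s ks ls α0 β0 e1 e2, ∑ D2 ∈ NN s ks ls α0 β0 e1 e2, ∑ D3 ∈ NN s ks ls α0 β0 e1 e2,
      ∑ D4 ∈ NN s ks ls α0 β0 e1 e2, ‖I4 s ks ls α0 β0 T D1 D2 D3 D4‖ ≤
      (4 ^ Ap * ((QA s ks ls : ℝ) / JA ks ls)) ^ 2 * (4 ^ Ap * ((QB s ks ls : ℝ) / JB ks ls)) ^ 2 *
        (1 / (2 : ℝ) ^ (44000 * s)) := by
  classical
  set X : ℝ := (4 ^ Ap * ((QA s ks ls : ℝ) / JA ks ls)) ^ 2 *
    (4 ^ Ap * ((QB s ks ls : ℝ) / JB ks ls)) ^ 2 with hX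
  have hX0 : 0 ≤ X := by rw [hX]; positivity
  have hsum := f8_sum4 (NN s ks ls α0 β0 e1 e2)
    (fun D1 D2 D3 D4 => ‖I4 s ks ls α0 β0 T D1 D2 D3 D4‖)
    (fun D1 D2 D3 D4 => freqAdm s ks ls T D1 D2 D3 D4 ∧ physAdm s ks ls α0 β0 D1 D2 D3 D4)
    (X * ((2 : ℝ) ^ (3489 * s) / 2 ^ (6 * Gc * s))) (X / 2 ^ (50 * Gc * s))
    (fun D1 m1 D2 m2 D3 m3 D4 m4 _ => I4_size s ks ls α0 β0 (by omega) hp T e1 e2 D1 D2 D3 D4
      m1 m2 m3 m4 he1 he2)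
    (fun D1 m1 D2 m2 D3 m3 D4 m4 hP => by
      by_cases hf : freqAdm s ks ls T D1 D2 D3 D4
      · have hph : ¬ physAdm s ks ls α0 β0 D1 D2 D3 D4 := fun h => hP ⟨hf, h⟩
        exact I4_phys s ks ls α0 β0 (by omega) hp T D1 D2 D3 D4 hph
      · rw [I4_zero s ks ls α0 β0 hp T D1 D2 D3 D4 hf, norm_zero]
        positivity)
    (by positivity)
  refine hsum.trans ?_
  have hadm := adm_card s ks ls α0 β0 hs hp hg lb hb1 hb2 T hT1 hT2 e1 e2 he1 he2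
  have hN := NN_card s ks ls α0 β0 hs hp hg e1 e2 he1 he2
  have hN4 : ((NN s ks ls α0 β0 e1 e2).card : ℝ) ^ 4 ≤ (2 : ℝ) ^ (48 * Gc * s) := by
    calc ((NN s ks ls α0 β0 e1 e2).card : ℝ) ^ 4 ≤ ((2 : ℝ) ^ (12 * Gc * s)) ^ 4 :=
          pow_le_pow_left₀ (Nat.cast_nonneg _) hN 4
      _ = (2 : ℝ) ^ (48 * Gc * s) := by
          rw [← pow_mul]
          congr 1
          ring
  have q1 : (2 : ℝ) ^ (3489 * s) / 2 ^ (6 * Gc * s) * 2 ^ (552100 * s) ≤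
      1 / 2 * (1 / 2 ^ (44000 * s)) := by
    have h := pow_le_pow_right₀ (by norm_num : (1 : ℝ) ≤ 2) (f8_ar1 s hs)
    rw [pow_add, pow_add, pow_add, pow_one] at h
    rw [div_mul_eq_mul_div, div_mul_div_comm, div_le_div_iff₀ (by positivity) (by positivity)]
    linarith
  have q2 : (2 : ℝ) ^ (48 * Gc * s) / 2 ^ (50 * Gc * s) ≤ 1 / 2 * (1 / 2 ^ (44000 * s)) := by
    have h := pow_le_pow_right₀ (by norm_num : (1 : ℝ) ≤ 2) (f8_ar2 s hs)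
    rw [pow_add, pow_add, pow_one] at h
    rw [div_mul_div_comm, div_le_div_iff₀ (by positivity) (by positivity)]
    linarith
  have hc : 0 ≤ (2 : ℝ) ^ (3489 * s) / 2 ^ (6 * Gc * s) := by positivity
  calc X * ((2 : ℝ) ^ (3489 * s) / 2 ^ (6 * Gc * s)) *
        (((NN s ks ls α0 β0 e1 e2 ×ˢ NN s ks ls α0 β0 e1 e2 ×ˢ NN s ks ls α0 β0 e1 e2 ×ˢ
        NN s ks ls α0 β0 e1 e2).filter (fun p : (ℤ × ℤ) × (ℤ × ℤ) × (ℤ × ℤ) × (ℤ × ℤ) =>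
          freqAdm s ks ls T p.1 p.2.1 p.2.2.1 p.2.2.2 ∧
          physAdm s ks ls α0 β0 p.1 p.2.1 p.2.2.1 p.2.2.2)).card : ℝ) +
        ((NN s ks ls α0 β0 e1 e2).card : ℝ) ^ 4 * (X / 2 ^ (50 * Gc * s))
      ≤ X * ((2 : ℝ) ^ (3489 * s) / 2 ^ (6 * Gc * s)) * 2 ^ (552100 * s) +
        2 ^ (48 * Gc * s) * (X / 2 ^ (50 * Gc * s)) := by
        refine add_le_add (mul_le_mul_of_nonneg_left ?_ (mul_nonneg hX0 hc))
          (mul_le_mul_of_nonneg_right hN4 (by positivity))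
        convert hadm
    _ = X * ((2 : ℝ) ^ (3489 * s) / 2 ^ (6 * Gc * s) * 2 ^ (552100 * s) +
        2 ^ (48 * Gc * s) / 2 ^ (50 * Gc * s)) := by ring
    _ ≤ X * (1 / 2 ^ (44000 * s)) := by
        refine mul_le_mul_of_nonneg_left ?_ hX0
        linarith

private theorem f8_cell {M : Type*} [AddCommMonoid M] (N α Q : ℕ) (h : α * N + N ≤ Q) (H : ℕ → M)
    (hH : ∀ a, ¬ (α * N ≤ a ∧ a < α * N + N) → H a = 0) :
    ∑ a ∈ range Q, H a = ∑ A ∈ range N, H (α * N + A) := by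
  have e : ∑ A ∈ range N, H (α * N + A) =
      ∑ a ∈ (range N).map (addLeftEmbedding (α * N)), H a := by
    rw [Finset.sum_map]
    rfl
  rw [e]
  symm
  apply Finset.sum_subset
  · intro a ha
    rw [Finset.mem_map] at ha
    obtain ⟨A, hA, rfl⟩ := ha
    rw [Finset.mem_range] at hA ⊢
    simp only [addLeftEmbedding_apply]
    omega
  · intro a _ ha
    apply hH
    rintro ⟨h1, h2⟩
    apply ha
    rw [Finset.mem_map]
    refine ⟨a - α * N, Finset.mem_range.2 (by omega), ?_⟩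
    simp only [addLeftEmbedding_apply]
    omega

private theorem f8_QA (s ks ls : ℕ) :
    QA s ks ls = 2 ^ (2 * ks + ls) * 2 ^ ((3 * Gc + 100) * s) := by
  unfold QA; rw [pow_add]

private theorem f8_QB (s ks ls : ℕ) :
    QB s ks ls = 2 ^ (ks + 2 * ls) * 2 ^ ((3 * Gc + 100) * s) := by
  unfold QB; rw [pow_add]

private theorem f8_chi (u n a0 a : ℕ) (hu : 2 ≤ u) (h1 : a0 ≤ a) (h2 : a < a0 + 2 ^ n) :
    1 ≤ chi (2 ^ (u + n)) (2 ^ (u - 2)) a0 a := by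
  apply chi_ge_one _ _ _ _ (by positivity)
  have h3 : nd (((a : ℝ) - a0) / ((2 ^ (u + n) : ℕ) : ℝ)) ≤ |((a : ℝ) - a0) / ((2 ^ (u + n) : ℕ) : ℝ)| := by
    have := nd_le (((a : ℝ) - a0) / ((2 ^ (u + n) : ℕ) : ℝ)) 0
    simpa using this
  refine h3.trans ?_
  have h4 : (a0 : ℝ) ≤ a := by exact_mod_cast h1
  have h5 : (a : ℝ) ≤ a0 + 2 ^ n := by exact_mod_cast h2.le
  have h6 : (0 : ℝ) ≤ (a : ℝ) - a0 := by linarith
  rw [abs_of_nonneg (div_nonneg h6 (by positivity))]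
  obtain ⟨v, rfl⟩ : ∃ v, u = v + 2 := ⟨u - 2, by omega⟩
  have e : v + 2 - 2 = v := by omega
  rw [e]
  push_cast
  rw [div_le_div_iff₀ (by positivity) (by positivity), one_mul, pow_add, pow_add]
  have h7 : (a : ℝ) - a0 ≤ 2 ^ n := by linarith
  have p : (0 : ℝ) < 2 ^ v := by positivity
  calc ((a : ℝ) - a0) * (4 * 2 ^ v) ≤ 2 ^ n * (4 * 2 ^ v) :=
        mul_le_mul_of_nonneg_right h7 (by positivity)
    _ = 2 ^ v * 2 ^ 2 * 2 ^ n := by ring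

private theorem f8_ratio (u n : ℕ) (hu : 2 ≤ u) :
    (((2 ^ (u + n) : ℕ) : ℝ) / ((2 ^ (u - 2) : ℕ) : ℝ)) = 4 * 2 ^ n := by
  obtain ⟨v, rfl⟩ : ∃ v, u = v + 2 := ⟨u - 2, by omega⟩
  have e : v + 2 - 2 = v := by omega
  rw [e]
  push_cast
  rw [pow_add, pow_add]
  have p : (0 : ℝ) < 2 ^ v := by positivity
  field_simp
  norm_num

private theorem f8_sq (s : ℕ) (f : ℕ → ℝ) (hf : Dens s f) :
    ∑ A ∈ range (2 ^ ((3 * Gc + 100) * s)), f A ^ 2 ≤ 2 ^ s / 2 ^ ((3 * Gc + 100) * s) := by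
  calc ∑ A ∈ range (2 ^ ((3 * Gc + 100) * s)), f A ^ 2
      ≤ ∑ A ∈ range (2 ^ ((3 * Gc + 100) * s)), 2 ^ s / 2 ^ ((3 * Gc + 100) * s) * f A := by
        refine Finset.sum_le_sum fun A _ => ?_
        rw [sq]
        exact mul_le_mul_of_nonneg_right (hf.sup A) (hf.nn A)
    _ = 2 ^ s / 2 ^ ((3 * Gc + 100) * s) * ∑ A ∈ range (2 ^ ((3 * Gc + 100) * s)), f A := by
        rw [Finset.mul_sum]
    _ ≤ 2 ^ s / 2 ^ ((3 * Gc + 100) * s) * 1 :=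
        mul_le_mul_of_nonneg_left hf.mass (by positivity)
    _ = 2 ^ s / 2 ^ ((3 * Gc + 100) * s) := mul_one _

/-- The window lemma.  Extend `f1, f3` by zero: `F1 a = f1 (a - α0 2^n1)` on the cell.  `cs4` with `χ = chA, chB` (`≥ 1` on the cells:
`|a-a0|/QA < 2^(-us) = 1/(4 JA)`, `chi_ge_one`), `t4_expand`, `sum_I4`; `∑ F1² ≤ 2^s/2^n1`, so
`(∑F1²)² (4^Ap QA/JA)² ≤ 2^(2s)·4^(2Ap+2)` as `QA/JA = 4·2^n1`.  Total fourth power `≤ 2^(4s)·4^(4Ap+4)·2^(-44000s) ≤ 2^(-8s)`. -/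
theorem WL : ∃ s0 : ℕ, ∀ s ≥ s0, ∀ ks ls α0 β0 : ℕ, ParF s ks ls → α0 < 2 ^ (2 * ks + ls) →
    β0 < 2 ^ (ks + 2 * ls) → GenF s ks ls α0 β0 →
    ∀ lb : ℕ, ks + ls + (2 * Gc - 22) * s ≤ lb → lb ≤ ks + ls + (2 * Gc - 11) * s → ∀ T : ℤ,
    (2 : ℤ) ^ lb ≤ 2 * T → T ≤ (2 : ℤ) ^ (lb + 4) → ∀ e1 e2 : ℤ, (e1 = 1 ∨ e1 = -1) →
    (e2 = 1 ∨ e2 = -1) → ∀ f1 f3 : ℕ → ℝ, Dens s f1 → Dens s f3 → ∀ c : ℤ × ℤ → ℂ,
    (∀ D, ‖c D‖ ≤ 1) →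
    ‖∑ A ∈ range (2 ^ ((3 * Gc + 100) * s)), ∑ B ∈ range (2 ^ ((3 * Gc + 100) * s)),
      (f1 A : ℂ) * (f3 B : ℂ) * ∑ D ∈ NN s ks ls α0 β0 e1 e2, c D *
        psi s ks ls T D (α0 * 2 ^ ((3 * Gc + 100) * s) + A) (β0 * 2 ^ ((3 * Gc + 100) * s) + B)‖ ≤
      1 / 2 ^ (2 * s) := by
  refine ⟨200, ?_⟩
  intro s hs ks ls α0 β0 hp hα hβ hg lb hb1 hb2 T hT1 hT2 e1 e2 he1 he2 f1 f3 hf1 hf3 c hc
  have hks : 2 ≤ ks := by
    have := hp.k1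
    unfold Gc at this
    omega
  have hls : 2 ≤ ls := by
    have := hp.l1
    unfold Gc at this
    omega
  set n1 : ℕ := (3 * Gc + 100) * s with hn1
  set M : ℕ → ℕ → ℂ := fun a b => ∑ D ∈ NN s ks ls α0 β0 e1 e2, c D * psi s ks ls T D a b with hM
  set F1 : ℕ → ℝ := fun a => if α0 * 2 ^ n1 ≤ a ∧ a < α0 * 2 ^ n1 + 2 ^ n1 then
    f1 (a - α0 * 2 ^ n1) else 0 with hF1
  set F3 : ℕ → ℝ := fun b => if β0 * 2 ^ n1 ≤ b ∧ b < β0 * 2 ^ n1 + 2 ^ n1 then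
    f3 (b - β0 * 2 ^ n1) else 0 with hF3
  have hQA : α0 * 2 ^ n1 + 2 ^ n1 ≤ QA s ks ls := by
    rw [f8_QA, ← hn1]
    calc α0 * 2 ^ n1 + 2 ^ n1 = (α0 + 1) * 2 ^ n1 := by ring
      _ ≤ 2 ^ (2 * ks + ls) * 2 ^ n1 := Nat.mul_le_mul_right _ hα
  have hQB : β0 * 2 ^ n1 + 2 ^ n1 ≤ QB s ks ls := by
    rw [f8_QB, ← hn1]
    calc β0 * 2 ^ n1 + 2 ^ n1 = (β0 + 1) * 2 ^ n1 := by ring
      _ ≤ 2 ^ (ks + 2 * ls) * 2 ^ n1 := Nat.mul_le_mul_right _ hβ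
  have hF1v : ∀ A, A < 2 ^ n1 → F1 (α0 * 2 ^ n1 + A) = f1 A := by
    intro A hA
    simp only [hF1]
    rw [if_pos ⟨Nat.le_add_right _ _, Nat.add_lt_add_left hA _⟩, Nat.add_sub_cancel_left]
  have hF3v : ∀ B, B < 2 ^ n1 → F3 (β0 * 2 ^ n1 + B) = f3 B := by
    intro B hB
    simp only [hF3]
    rw [if_pos ⟨Nat.le_add_right _ _, Nat.add_lt_add_left hB _⟩, Nat.add_sub_cancel_left]
  have hF10 : ∀ a, ¬ (α0 * 2 ^ n1 ≤ a ∧ a < α0 * 2 ^ n1 + 2 ^ n1) → F1 a = 0 := by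
    intro a ha
    simp only [hF1]
    rw [if_neg ha]
  have hF30 : ∀ b, ¬ (β0 * 2 ^ n1 ≤ b ∧ b < β0 * 2 ^ n1 + 2 ^ n1) → F3 b = 0 := by
    intro b hb
    simp only [hF3]
    rw [if_neg hb]
  -- reindexing
  have e : ∑ A ∈ range (2 ^ n1), ∑ B ∈ range (2 ^ n1), (f1 A : ℂ) * (f3 B : ℂ) *
      ∑ D ∈ NN s ks ls α0 β0 e1 e2, c D * psi s ks ls T D (α0 * 2 ^ n1 + A) (β0 * 2 ^ n1 + B) =
      ∑ a ∈ range (QA s ks ls), ∑ b ∈ range (QB s ks ls), (F1 a : ℂ) * (F3 b : ℂ) * M a b := by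
    rw [f8_cell (2 ^ n1) α0 (QA s ks ls) hQA]
    · refine Finset.sum_congr rfl fun A hA => ?_
      rw [Finset.mem_range] at hA
      rw [f8_cell (2 ^ n1) β0 (QB s ks ls) hQB]
      · refine Finset.sum_congr rfl fun B hB => ?_
        rw [Finset.mem_range] at hB
        rw [hF1v A hA, hF3v B hB]
      · intro b hb
        rw [hF30 b hb]
        simp
    · intro a ha
      refine Finset.sum_eq_zero fun b _ => ?_
      rw [hF10 a ha]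
      simp
  rw [e]
  have s1 : ∑ a ∈ range (QA s ks ls), F1 a ^ 2 ≤ 2 ^ s / 2 ^ n1 := by
    rw [f8_cell (2 ^ n1) α0 (QA s ks ls) hQA]
    · refine le_trans (le_of_eq ?_) (f8_sq s f1 hf1)
      refine Finset.sum_congr rfl fun A hA => ?_
      rw [Finset.mem_range] at hA
      rw [hF1v A hA]
    · intro a ha
      rw [hF10 a ha]
      simp
  have s3 : ∑ b ∈ range (QB s ks ls), F3 b ^ 2 ≤ 2 ^ s / 2 ^ n1 := by
    rw [f8_cell (2 ^ n1) β0 (QB s ks ls) hQB]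
    · refine le_trans (le_of_eq ?_) (f8_sq s f3 hf3)
      refine Finset.sum_congr rfl fun A hA => ?_
      rw [Finset.mem_range] at hA
      rw [hF3v A hA]
    · intro a ha
      rw [hF30 a ha]
      simp
  have hcs := cs4 (range (QA s ks ls)) (range (QB s ks ls)) F1 F3 (chA s ks ls α0) (chB s ks ls β0) M
    (fun a _ => chi_nonneg _ _ _ _) (fun b _ => chi_nonneg _ _ _ _)
    (fun a _ ha => by
      have hin : α0 * 2 ^ n1 ≤ a ∧ a < α0 * 2 ^ n1 + 2 ^ n1 := by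
        by_contra hcon
        exact ha (hF10 a hcon)
      exact f8_chi (2 * ks + ls) n1 _ a (by omega) hin.1 hin.2)
    (fun b _ hb => by
      have hin : β0 * 2 ^ n1 ≤ b ∧ b < β0 * 2 ^ n1 + 2 ^ n1 := by
        by_contra hcon
        exact hb (hF30 b hcon)
      exact f8_chi (ks + 2 * ls) n1 _ b (by omega) hin.1 hin.2)
  have ht4 := t4_expand s ks ls α0 β0 T (NN s ks ls α0 β0 e1 e2) c hc
  have hI4 := sum_I4 s ks ls α0 β0 hs hp hg lb hb1 hb2 T hT1 hT2 e1 e2 he1 he2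
  have hrA : ((QA s ks ls : ℝ) / JA ks ls) = 4 * 2 ^ n1 := f8_ratio (2 * ks + ls) n1 (by omega)
  have hrB : ((QB s ks ls : ℝ) / JB ks ls) = 4 * 2 ^ n1 := f8_ratio (ks + 2 * ls) n1 (by omega)
  rw [hrA, hrB] at hI4
  have hfin : ‖∑ a ∈ range (QA s ks ls), ∑ b ∈ range (QB s ks ls),
      (F1 a : ℂ) * (F3 b : ℂ) * M a b‖ ^ 4 ≤ (1 / 2 ^ (2 * s)) ^ 4 := by
    refine hcs.trans ?_
    have g1 : (0 : ℝ) ≤ ∑ a ∈ range (QA s ks ls), F1 a ^ 2 :=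
      Finset.sum_nonneg fun _ _ => sq_nonneg _
    have g3 : (0 : ℝ) ≤ ∑ b ∈ range (QB s ks ls), F3 b ^ 2 :=
      Finset.sum_nonneg fun _ _ => sq_nonneg _
    have g5 : (0 : ℝ) ≤ 2 ^ s / 2 ^ n1 := by positivity
    have g4 : ∑ b ∈ range (QB s ks ls), ∑ b' ∈ range (QB s ks ls),
        chB s ks ls β0 b * chB s ks ls β0 b' *
        ‖∑ a ∈ range (QA s ks ls), (chA s ks ls α0 a : ℂ) * M a b *
          (starRingEnd ℂ) (M a b')‖ ^ 2 ≤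
        (4 ^ Ap * (4 * 2 ^ n1)) ^ 2 * (4 ^ Ap * (4 * 2 ^ n1)) ^ 2 * (1 / 2 ^ (44000 * s)) :=
      ht4.trans hI4
    have g6 : (0 : ℝ) ≤ ∑ b ∈ range (QB s ks ls), ∑ b' ∈ range (QB s ks ls),
        chB s ks ls β0 b * chB s ks ls β0 b' *
        ‖∑ a ∈ range (QA s ks ls), (chA s ks ls α0 a : ℂ) * M a b *
          (starRingEnd ℂ) (M a b')‖ ^ 2 :=
      Finset.sum_nonneg fun b _ => Finset.sum_nonneg fun b' _ =>
        mul_nonneg (mul_nonneg (chi_nonneg _ _ _ _) (chi_nonneg _ _ _ _)) (sq_nonneg _)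
    calc (∑ a ∈ range (QA s ks ls), F1 a ^ 2) ^ 2 * (∑ b ∈ range (QB s ks ls), F3 b ^ 2) ^ 2 *
          ∑ b ∈ range (QB s ks ls), ∑ b' ∈ range (QB s ks ls),
          chB s ks ls β0 b * chB s ks ls β0 b' *
          ‖∑ a ∈ range (QA s ks ls), (chA s ks ls α0 a : ℂ) * M a b *
            (starRingEnd ℂ) (M a b')‖ ^ 2
        ≤ (2 ^ s / 2 ^ n1) ^ 2 * (2 ^ s / 2 ^ n1) ^ 2 *
          ((4 ^ Ap * (4 * 2 ^ n1)) ^ 2 * (4 ^ Ap * (4 * 2 ^ n1)) ^ 2 * (1 / 2 ^ (44000 * s))) := by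
          refine mul_le_mul (mul_le_mul (pow_le_pow_left₀ g1 s1 2) (pow_le_pow_left₀ g3 s3 2)
            (sq_nonneg _) (sq_nonneg _)) g4 g6 (mul_nonneg (sq_nonneg _) (sq_nonneg _))
      _ = (2 ^ (4 * s) * 2 ^ (8 * Ap + 8)) / 2 ^ (44000 * s) := by
          have k1 : (4 : ℝ) ^ Ap = 2 ^ (2 * Ap) := by
            rw [pow_mul]; norm_num
          have k2 : (2 : ℝ) ^ (8 * Ap + 8) = (2 ^ (2 * Ap)) ^ 4 * 256 := by
            rw [← pow_mul, pow_add]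
            norm_num
            ring
          have k3 : (2 : ℝ) ^ (4 * s) = (2 ^ s) ^ 4 := by
            rw [← pow_mul, mul_comm]
          rw [k1, k2, k3]
          have p1 : (0 : ℝ) < 2 ^ n1 := by positivity
          have p2 : (0 : ℝ) < 2 ^ (44000 * s) := by positivity
          generalize (2 : ℝ) ^ (44000 * s) = z at *
          generalize (2 : ℝ) ^ n1 = y at *
          generalize (2 : ℝ) ^ (2 * Ap) = x at *
          generalize (2 : ℝ) ^ s = w at *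
          field_simp
          ring
      _ ≤ (1 / 2 ^ (2 * s)) ^ 4 := by
          have h := pow_le_pow_right₀ (by norm_num : (1 : ℝ) ≤ 2) (f8_ar3 s hs)
          rw [pow_add, pow_add] at h
          have k4 : ((1 : ℝ) / 2 ^ (2 * s)) ^ 4 = 1 / 2 ^ (8 * s) := by
            rw [div_pow, one_pow, ← pow_mul]
            congr 2
            ring
          rw [k4, div_le_div_iff₀ (by positivity) (by positivity), one_mul]
          exact h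
  exact (pow_le_pow_iff_left₀ (norm_nonneg _) (by positivity) (by norm_num)).1 hfin

end MP_5e4520_nt.Ex
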