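import Pool.Agent.Lib.MP_5e4520_ntE.Fo3
set_option autoImplicit false

/-!
# Mixing lemma (case 2): definitions

Fixed: `s, ks, ls` (`ParF`), coarse pair `(α0, β0)`, `a = α0 2^n1 + A`, `b = β0 2^n1 + B`, `A, B < 2^n1`,
`n1 = (3G+100)s`, `QA = 2^(2ks+ls+n1)`, `QB = 2^(ks+2ls+n1)`, phase `ph h h' a b = h a/QA + h' b/QB`.
`rs = ks+ls`.  `n = nw = 2^(rs+(G-1100)s)` window length in `q`; `W(θ) = (fej n θ/n)^Ap`.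
-/

namespace MP_5e4520_nt.Ex

open Finset

noncomputable def ph (s ks ls : ℕ) (h h' : ℤ) (a b : ℕ) : ℝ :=
  (h : ℝ) * a / QA s ks ls + (h' : ℝ) * b / QB s ks ls

/-- window kernel -/
noncomputable def WK (s ks ls : ℕ) (θ : ℝ) : ℝ := (fej (nw s ks ls) θ / nw s ks ls) ^ Ap

/-- one window wave -/
noncomputable def psi (s ks ls : ℕ) (T : ℤ) (D : ℤ × ℤ) (a b : ℕ) : ℂ :=
  ee (T * ph s ks ls D.1 D.2 a b) * ((WK s ks ls (ph s ks ls D.1 D.2 a b) : ℝ) : ℂ)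

/-- near: `‖h x0 + h' y0‖ ≤ 2^(4 G s)/2^(ks+ls)` -/
def nearR (s ks ls α0 β0 : ℕ) (h h' : ℤ) : Prop :=
  nd ((h : ℝ) * x0 ks ls α0 + (h' : ℝ) * y0 ks ls β0) ≤ 2 ^ (4 * Gc * s) / 2 ^ (ks + ls)

open Classical in
/-- core and near frequencies with signs `e1, e2 ∈ {1, -1}` -/
noncomputable def NN (s ks ls α0 β0 : ℕ) (e1 e2 : ℤ) : Finset (ℤ × ℤ) :=
  ((Icc (-(2 : ℤ) ^ (ks + (Gc + 60) * s)) ((2 : ℤ) ^ (ks + (Gc + 60) * s))) ×ˢ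
    (Icc (-(2 : ℤ) ^ (ls + (Gc + 60) * s)) ((2 : ℤ) ^ (ls + (Gc + 60) * s)))).filter
    (fun D => (2 : ℤ) ^ (ks + (Gc - 60) * s) ≤ e1 * D.1 ∧ (2 : ℤ) ^ (ls + (Gc - 60) * s) ≤ e2 * D.2 ∧
      nearR s ks ls α0 β0 D.1 D.2)

/-- `J1 = 2^(2ks+ls-2)`, `J2 = 2^(ks+2ls-2)` -/
def JA (ks ls : ℕ) : ℕ := 2 ^ (2 * ks + ls - 2)

def JB (ks ls : ℕ) : ℕ := 2 ^ (ks + 2 * ls - 2)

/-- majorants of the cells: `4^Ap (fej J ((a-a0)/Q)/J)^Ap` -/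
noncomputable def chi (Q J : ℕ) (a0 a : ℕ) : ℝ :=
  4 ^ Ap * (fej J (((a : ℝ) - a0) / Q) / J) ^ Ap

noncomputable def chA (s ks ls α0 a : ℕ) : ℝ :=
  chi (QA s ks ls) (JA ks ls) (α0 * 2 ^ ((3 * Gc + 100) * s)) a

noncomputable def chB (s ks ls β0 b : ℕ) : ℝ :=
  chi (QB s ks ls) (JB ks ls) (β0 * 2 ^ ((3 * Gc + 100) * s)) b

/-- the fourfold correlation: `D1, D2` share `a`; `D3, D4` share `a'`; `D1, D3` share `b`; `D2, D4` share `b'` -/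
noncomputable def I4 (s ks ls α0 β0 : ℕ) (T : ℤ) (D1 D2 D3 D4 : ℤ × ℤ) : ℂ :=
  ∑ b ∈ range (QB s ks ls), ∑ b' ∈ range (QB s ks ls),
    (chB s ks ls β0 b : ℂ) * (chB s ks ls β0 b' : ℂ) *
    ((∑ a ∈ range (QA s ks ls), (chA s ks ls α0 a : ℂ) * psi s ks ls T D1 a b *
        (starRingEnd ℂ) (psi s ks ls T D2 a b')) *
      (starRingEnd ℂ) (∑ a ∈ range (QA s ks ls), (chA s ks ls α0 a : ℂ) * psi s ks ls T D3 a b *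
        (starRingEnd ℂ) (psi s ks ls T D4 a b')))

/-- frequency admissible quadruple -/
def freqAdm (s ks ls : ℕ) (T : ℤ) (D1 D2 D3 D4 : ℤ × ℤ) : Prop :=
  ∃ q1 q2 q3 q4 : ℤ, |q1 - T| ≤ Ap * nw s ks ls ∧ |q2 - T| ≤ Ap * nw s ks ls ∧
    |q3 - T| ≤ Ap * nw s ks ls ∧ |q4 - T| ≤ Ap * nw s ks ls ∧
    nd (((q1 * D1.1 - q2 * D2.1 : ℤ) : ℝ) / QA s ks ls) * QA s ks ls ≤ Ap * JA ks ls ∧
    nd (((q3 * D3.1 - q4 * D4.1 : ℤ) : ℝ) / QA s ks ls) * QA s ks ls ≤ Ap * JA ks ls ∧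
    nd (((q1 * D1.2 - q3 * D3.2 : ℤ) : ℝ) / QB s ks ls) * QB s ks ls ≤ Ap * JB ks ls ∧
    nd (((q2 * D2.2 - q4 * D4.2 : ℤ) : ℝ) / QB s ks ls) * QB s ks ls ≤ Ap * JB ks ls

/-- physically admissible quadruple -/
def physAdm (s ks ls α0 β0 : ℕ) (D1 D2 D3 D4 : ℤ × ℤ) : Prop :=
  ∃ a a' b b' : ℕ,
    nd (((a : ℝ) - (α0 * 2 ^ ((3 * Gc + 100) * s) : ℕ)) / QA s ks ls) ≤ 2 ^ (1000 * s) / 2 ^ (2 * ks + ls) ∧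
    nd (((a' : ℝ) - (α0 * 2 ^ ((3 * Gc + 100) * s) : ℕ)) / QA s ks ls) ≤ 2 ^ (1000 * s) / 2 ^ (2 * ks + ls) ∧
    nd (((b : ℝ) - (β0 * 2 ^ ((3 * Gc + 100) * s) : ℕ)) / QB s ks ls) ≤ 2 ^ (1000 * s) / 2 ^ (ks + 2 * ls) ∧
    nd (((b' : ℝ) - (β0 * 2 ^ ((3 * Gc + 100) * s) : ℕ)) / QB s ks ls) ≤ 2 ^ (1000 * s) / 2 ^ (ks + 2 * ls) ∧
    nd (ph s ks ls D1.1 D1.2 a b) ≤ 2 ^ (1000 * s) / nw s ks ls ∧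
    nd (ph s ks ls D2.1 D2.2 a b') ≤ 2 ^ (1000 * s) / nw s ks ls ∧
    nd (ph s ks ls D3.1 D3.2 a' b) ≤ 2 ^ (1000 * s) / nw s ks ls ∧
    nd (ph s ks ls D4.1 D4.2 a' b') ≤ 2 ^ (1000 * s) / nw s ks ls

/-- densities on the block -/
structure Dens (s : ℕ) (f : ℕ → ℝ) : Prop where
  nn : ∀ A, 0 ≤ f A
  sup : ∀ A, f A ≤ 2 ^ s / 2 ^ ((3 * Gc + 100) * s)
  mass : ∑ A ∈ range (2 ^ ((3 * Gc + 100) * s)), f A ≤ 1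

end MP_5e4520_nt.Ex
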