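import Pool.Agent.Lib.MP_5e4520_ntE.FDefs
set_option autoImplicit false

namespace MP_5e4520_nt.Ex

open Finset

open Classical in
private theorem g1_card (P1 P2 : ℕ) (H1 H2 θ : ℝ) :
    ∑ α ∈ range P1, ∑ β ∈ range P2, (cntH ((α : ℝ) / P1) ((β : ℝ) / P2) H1 H2 θ : ℝ) =
    ∑ p ∈ ((Icc (-⌊H1⌋) ⌊H1⌋) ×ˢ (Icc (-⌊H2⌋) ⌊H2⌋)).filter (fun p : ℤ × ℤ => p.1 ≠ 0 ∨ p.2 ≠ 0),
      (((range P1 ×ˢ range P2).filter (fun q : ℕ × ℕ =>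
      nd ((p.1 : ℝ) * q.1 / P1 + (p.2 : ℝ) * q.2 / P2) ≤ θ)).card : ℝ) := by
  have h1 : ∀ α β : ℕ, (cntH ((α : ℝ) / P1) ((β : ℝ) / P2) H1 H2 θ : ℝ) =
      ∑ p ∈ ((Icc (-⌊H1⌋) ⌊H1⌋) ×ˢ (Icc (-⌊H2⌋) ⌊H2⌋)).filter (fun p : ℤ × ℤ => p.1 ≠ 0 ∨ p.2 ≠ 0),
        if nd ((p.1 : ℝ) * α / P1 + (p.2 : ℝ) * β / P2) ≤ θ then (1 : ℝ) else 0 := by
    intro α β
    unfold cntH
    rw [← Finset.sum_filter, Finset.filter_filter, Finset.sum_const, nsmul_eq_mul, mul_one]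
    congr 3
    ext p
    rw [mul_div_assoc, mul_div_assoc]
  simp only [h1]
  rw [← Finset.sum_product', Finset.sum_comm]
  apply Finset.sum_congr rfl
  intro p _
  rw [← Finset.sum_filter, Finset.sum_const, nsmul_eq_mul, mul_one]

/-- JOB G1.  First moment of `cntH`: `∑_{α,β} cntH(α/P1, β/P2; H1, H2, θ) = ∑_{(h,h') ≠ 0} #{..} ≤ ∑ (2θP1P2 + P1|h'| + P2|h|)`
(`cnt_two`), with `|h| ≤ H1 ≤ θ P1`, `|h'| ≤ H2 ≤ θ P2`, at most `9 H1 H2` pairs: `≤ 36 θ H1 H2 P1 P2`. -/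
theorem cntH_mean (P1 P2 : ℕ) (hP1 : 0 < P1) (hP2 : 0 < P2) (H1 H2 θ : ℝ) (h1 : 1 ≤ H1) (h2 : 1 ≤ H2)
    (hθ : 0 ≤ θ) (h1θ : H1 ≤ θ * P1) (h2θ : H2 ≤ θ * P2) :
    ∑ α ∈ range P1, ∑ β ∈ range P2, (cntH ((α : ℝ) / P1) ((β : ℝ) / P2) H1 H2 θ : ℝ) ≤
      36 * θ * H1 * H2 * P1 * P2 := by
  classical
  rw [g1_card]
  have hP1' : (0 : ℝ) < P1 := by exact_mod_cast hP1
  have hP2' : (0 : ℝ) < P2 := by exact_mod_cast hP2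
  have key : ∀ p ∈ ((Icc (-⌊H1⌋) ⌊H1⌋) ×ˢ (Icc (-⌊H2⌋) ⌊H2⌋)).filter (fun p : ℤ × ℤ => p.1 ≠ 0 ∨ p.2 ≠ 0),
      (((range P1 ×ˢ range P2).filter (fun q : ℕ × ℕ =>
      nd ((p.1 : ℝ) * q.1 / P1 + (p.2 : ℝ) * q.2 / P2) ≤ θ)).card : ℝ) ≤ 4 * θ * P1 * P2 := by
    intro p hp
    rw [Finset.mem_filter, Finset.mem_product, Finset.mem_Icc, Finset.mem_Icc] at hp
    obtain ⟨⟨⟨ha1, ha2⟩, hb1, hb2⟩, h0⟩ := hp
    have hc := cnt_two P1 P2 hP1 hP2 p.1 p.2 h0 θ hθ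
    have hA : |(p.1 : ℝ)| ≤ H1 := by
      have : |p.1| ≤ ⌊H1⌋ := abs_le.2 ⟨ha1, ha2⟩
      have h3 : ((|p.1| : ℤ) : ℝ) ≤ (⌊H1⌋ : ℝ) := by exact_mod_cast this
      rw [Int.cast_abs] at h3
      exact h3.trans (Int.floor_le _)
    have hB : |(p.2 : ℝ)| ≤ H2 := by
      have : |p.2| ≤ ⌊H2⌋ := abs_le.2 ⟨hb1, hb2⟩
      have h3 : ((|p.2| : ℤ) : ℝ) ≤ (⌊H2⌋ : ℝ) := by exact_mod_cast this
      rw [Int.cast_abs] at h3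
      exact h3.trans (Int.floor_le _)
    have hA' : (P2 : ℝ) * |(p.1 : ℝ)| ≤ P2 * (θ * P1) :=
      mul_le_mul_of_nonneg_left (hA.trans h1θ) hP2'.le
    have hB' : (P1 : ℝ) * |(p.2 : ℝ)| ≤ P1 * (θ * P2) :=
      mul_le_mul_of_nonneg_left (hB.trans h2θ) hP1'.le
    refine hc.trans ?_
    nlinarith
  refine (Finset.sum_le_card_nsmul _ _ _ key).trans ?_
  rw [nsmul_eq_mul]
  have hcard : ((((Icc (-⌊H1⌋) ⌊H1⌋) ×ˢ (Icc (-⌊H2⌋) ⌊H2⌋)).filter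
      (fun p : ℤ × ℤ => p.1 ≠ 0 ∨ p.2 ≠ 0)).card : ℝ) ≤ 9 * H1 * H2 := by
    have hc1 : (((Icc (-⌊H1⌋) ⌊H1⌋) ×ˢ (Icc (-⌊H2⌋) ⌊H2⌋)).filter
      (fun p : ℤ × ℤ => p.1 ≠ 0 ∨ p.2 ≠ 0)).card ≤ (Icc (-⌊H1⌋) ⌊H1⌋).card * (Icc (-⌊H2⌋) ⌊H2⌋).card := by
      rw [← Finset.card_product]
      exact Finset.card_filter_le _ _
    have hc2 : ∀ H : ℝ, 1 ≤ H → ((Icc (-⌊H⌋) ⌊H⌋).card : ℝ) ≤ 3 * H := by
      intro H hH
      rw [Int.card_Icc]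
      have hf : 1 ≤ ⌊H⌋ := Int.le_floor.2 (by exact_mod_cast hH)
      have : ((⌊H⌋ + 1 - -⌊H⌋).toNat : ℤ) = 2 * ⌊H⌋ + 1 := by
        rw [Int.toNat_of_nonneg (by omega)]; ring
      have h4 : (((⌊H⌋ + 1 - -⌊H⌋).toNat : ℕ) : ℝ) = 2 * (⌊H⌋ : ℝ) + 1 := by exact_mod_cast this
      rw [h4]
      have := Int.floor_le H
      linarith
    calc ((((Icc (-⌊H1⌋) ⌊H1⌋) ×ˢ (Icc (-⌊H2⌋) ⌊H2⌋)).filter
      (fun p : ℤ × ℤ => p.1 ≠ 0 ∨ p.2 ≠ 0)).card : ℝ) ≤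
        ((Icc (-⌊H1⌋) ⌊H1⌋).card : ℝ) * ((Icc (-⌊H2⌋) ⌊H2⌋).card : ℝ) := by exact_mod_cast hc1
      _ ≤ (3 * H1) * (3 * H2) := by
          apply mul_le_mul (hc2 H1 h1) (hc2 H2 h2) (by positivity) (by positivity)
      _ = 9 * H1 * H2 := by ring
  calc ((((Icc (-⌊H1⌋) ⌊H1⌋) ×ˢ (Icc (-⌊H2⌋) ⌊H2⌋)).filter
      (fun p : ℤ × ℤ => p.1 ≠ 0 ∨ p.2 ≠ 0)).card : ℝ) * (4 * θ * P1 * P2)
      ≤ (9 * H1 * H2) * (4 * θ * P1 * P2) := mul_le_mul_of_nonneg_right hcard (by positivity)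
    _ = 36 * θ * H1 * H2 * P1 * P2 := by ring

open Classical in
/-- Markov: the number of `(α,β)` with `cntH > K` -/
theorem cntH_markov (P1 P2 : ℕ) (hP1 : 0 < P1) (hP2 : 0 < P2) (H1 H2 θ : ℝ) (h1 : 1 ≤ H1) (h2 : 1 ≤ H2)
    (hθ : 0 ≤ θ) (h1θ : H1 ≤ θ * P1) (h2θ : H2 ≤ θ * P2) (K : ℝ) (hK : 0 < K) :
    (((range P1 ×ˢ range P2).filter (fun p : ℕ × ℕ =>
      K < (cntH ((p.1 : ℝ) / P1) ((p.2 : ℝ) / P2) H1 H2 θ : ℝ))).card : ℝ) ≤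
      36 * θ * H1 * H2 / K * P1 * P2 := by
  have hm := cntH_mean P1 P2 hP1 hP2 H1 H2 θ h1 h2 hθ h1θ h2θ
  rw [← Finset.sum_product' (range P1) (range P2)
    (fun α β => (cntH ((α : ℝ) / P1) ((β : ℝ) / P2) H1 H2 θ : ℝ))] at hm
  set S := (range P1 ×ˢ range P2).filter (fun p : ℕ × ℕ =>
      K < (cntH ((p.1 : ℝ) / P1) ((p.2 : ℝ) / P2) H1 H2 θ : ℝ)) with hS
  have h3 : (S.card : ℝ) * K ≤ ∑ x ∈ range P1 ×ˢ range P2,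
      (cntH ((x.1 : ℝ) / P1) ((x.2 : ℝ) / P2) H1 H2 θ : ℝ) := by
    calc (S.card : ℝ) * K = ∑ x ∈ S, K := by rw [Finset.sum_const, nsmul_eq_mul]
      _ ≤ ∑ x ∈ S, (cntH ((x.1 : ℝ) / P1) ((x.2 : ℝ) / P2) H1 H2 θ : ℝ) := by
          apply Finset.sum_le_sum
          intro x hx
          exact (Finset.mem_filter.1 hx).2.le
      _ ≤ _ := by
          apply Finset.sum_le_sum_of_subset_of_nonneg (Finset.filter_subset _ _)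
          intro x _ _
          positivity
  have h4 := h3.trans hm
  rw [show 36 * θ * H1 * H2 / K * (P1 : ℝ) * P2 = 36 * θ * H1 * H2 * P1 * P2 / K by ring]
  rw [le_div_iff₀ hK]
  exact h4

open Classical in
/-- `GenF.gd` fails rarely: union over at most `(6Gs+1)^3` triples, each `≤ 36/2^s` (`θ = 2^(j0-rs)`, `H1 = 2^(ks+j1)`, `H2 = 2^(ls+j2)`,
`P1 = 2^(2ks+ls)`, `P2 = 2^(ks+2ls)`: `H1 ≤ θP1` is `j1 ≤ j0`; note `H1 ≥ 1` as `ks ≥ 100Gs`). -/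
theorem gd_frac (s ks ls : ℕ) (hp : ParF s ks ls) :
    (((range (2 ^ (2 * ks + ls)) ×ˢ range (2 ^ (ks + 2 * ls))).filter (fun p : ℕ × ℕ =>
      ¬ (∀ j0 j1 j2 : ℤ, -(4 * Gc * s : ℤ) ≤ j1 → j1 ≤ j0 → -(4 * Gc * s : ℤ) ≤ j2 → j2 ≤ j0 →
        j0 ≤ 2 * Gc * s →
        (cntH (x0 ks ls p.1) (y0 ks ls p.2) ((2 : ℝ) ^ (ks + j1)) ((2 : ℝ) ^ (ls + j2))
          ((2 : ℝ) ^ (j0 - ks - ls)) : ℝ) ≤ (2 : ℝ) ^ (s + j0 + j1 + j2)))).card : ℝ) ≤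
      36 * (6 * Gc * s + 1) ^ 3 / 2 ^ s * (2 ^ (2 * ks + ls) * 2 ^ (ks + 2 * ls)) := by
  obtain ⟨hs1, hk1, hl1, -, -⟩ := hp
  have hk1' : (100 * Gc * s : ℤ) ≤ ks := by exact_mod_cast hk1
  have hl1' : (100 * Gc * s : ℤ) ≤ ls := by exact_mod_cast hl1
  have hG0 : (0 : ℤ) ≤ (Gc : ℤ) * s := by positivity
  set J : Finset ℤ := Icc (-(4 * Gc * s : ℤ)) (2 * Gc * s) with hJ
  set T : Finset (ℤ × ℤ × ℤ) := (J ×ˢ J ×ˢ J).filter (fun t => t.2.1 ≤ t.1 ∧ t.2.2 ≤ t.1) with hT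
  set B : ℤ × ℤ × ℤ → Finset (ℕ × ℕ) := fun t =>
    (range (2 ^ (2 * ks + ls)) ×ˢ range (2 ^ (ks + 2 * ls))).filter (fun p : ℕ × ℕ =>
      (2 : ℝ) ^ ((s : ℤ) + t.1 + t.2.1 + t.2.2) <
        (cntH ((p.1 : ℝ) / ((2 ^ (2 * ks + ls) : ℕ) : ℝ)) ((p.2 : ℝ) / ((2 ^ (ks + 2 * ls) : ℕ) : ℝ))
          ((2 : ℝ) ^ ((ks : ℤ) + t.2.1)) ((2 : ℝ) ^ ((ls : ℤ) + t.2.2))
          ((2 : ℝ) ^ (t.1 - ks - ls)) : ℝ)) with hB
  have hsub : (range (2 ^ (2 * ks + ls)) ×ˢ range (2 ^ (ks + 2 * ls))).filter (fun p : ℕ × ℕ =>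
      ¬ (∀ j0 j1 j2 : ℤ, -(4 * Gc * s : ℤ) ≤ j1 → j1 ≤ j0 → -(4 * Gc * s : ℤ) ≤ j2 → j2 ≤ j0 →
        j0 ≤ 2 * Gc * s →
        (cntH (x0 ks ls p.1) (y0 ks ls p.2) ((2 : ℝ) ^ (ks + j1)) ((2 : ℝ) ^ (ls + j2))
          ((2 : ℝ) ^ (j0 - ks - ls)) : ℝ) ≤ (2 : ℝ) ^ (s + j0 + j1 + j2))) ⊆ T.biUnion B := by
    intro p hp
    rw [Finset.mem_filter] at hp
    obtain ⟨hp1, hp2⟩ := hp
    push Not at hp2
    obtain ⟨j0, j1, j2, a1, a2, a3, a4, a5, a6⟩ := hp2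
    rw [Finset.mem_biUnion]
    refine ⟨(j0, j1, j2), ?_, ?_⟩
    · rw [hT, Finset.mem_filter, Finset.mem_product, Finset.mem_product, hJ]
      simp only [Finset.mem_Icc]
      refine ⟨⟨⟨?_, ?_⟩, ⟨?_, ?_⟩, ?_, ?_⟩, a2, a4⟩ <;> linarith
    · rw [hB]
      simp only
      rw [Finset.mem_filter]
      refine ⟨hp1, ?_⟩
      have e1 : x0 ks ls p.1 = (p.1 : ℝ) / ((2 ^ (2 * ks + ls) : ℕ) : ℝ) := by
        unfold x0; push_cast; rfl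
      have e2 : y0 ks ls p.2 = (p.2 : ℝ) / ((2 ^ (ks + 2 * ls) : ℕ) : ℝ) := by
        unfold y0; push_cast; rfl
      rw [e1, e2] at a6
      exact a6
  have hBt : ∀ t ∈ T, ((B t).card : ℝ) ≤ 36 / 2 ^ s * (2 ^ (2 * ks + ls) * 2 ^ (ks + 2 * ls)) := by
    intro t ht
    rw [hT, Finset.mem_filter, Finset.mem_product, Finset.mem_product, hJ] at ht
    simp only [Finset.mem_Icc] at ht
    obtain ⟨⟨⟨b1, b2⟩, ⟨b3, b4⟩, b5, b6⟩, b7, b8⟩ := ht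
    have hone : ∀ z : ℤ, 0 ≤ z → (1 : ℝ) ≤ (2 : ℝ) ^ z := fun z hz => one_le_zpow₀ (by norm_num) hz
    have hmon : ∀ z w : ℤ, z ≤ w → (2 : ℝ) ^ z ≤ (2 : ℝ) ^ w := fun z w h =>
      zpow_le_zpow_right₀ (by norm_num) h
    have hc := cntH_markov (2 ^ (2 * ks + ls)) (2 ^ (ks + 2 * ls)) (by positivity) (by positivity)
      ((2 : ℝ) ^ ((ks : ℤ) + t.2.1)) ((2 : ℝ) ^ ((ls : ℤ) + t.2.2)) ((2 : ℝ) ^ (t.1 - ks - ls))
      (hone _ (by linarith)) (hone _ (by linarith)) (by positivity)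
      (by
        push_cast
        rw [← zpow_natCast, ← zpow_add₀ (by norm_num)]
        apply hmon
        push_cast
        linarith)
      (by
        push_cast
        rw [← zpow_natCast, ← zpow_add₀ (by norm_num)]
        apply hmon
        push_cast
        linarith)
      ((2 : ℝ) ^ ((s : ℤ) + t.1 + t.2.1 + t.2.2)) (by positivity)
    refine hc.trans (le_of_eq ?_)
    push_cast
    have e : 36 * (2 : ℝ) ^ (t.1 - ks - ls) * (2 : ℝ) ^ ((ks : ℤ) + t.2.1) * (2 : ℝ) ^ ((ls : ℤ) + t.2.2) /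
        (2 : ℝ) ^ ((s : ℤ) + t.1 + t.2.1 + t.2.2) = 36 / 2 ^ s := by
      rw [div_eq_div_iff (by positivity) (by positivity)]
      rw [mul_assoc, mul_assoc, mul_assoc, ← zpow_natCast (2 : ℝ) s,
        ← zpow_add₀ (by norm_num), ← zpow_add₀ (by norm_num), ← zpow_add₀ (by norm_num)]
      congr 2
      ring
    rw [e]
    ring
  have hTc : (T.card : ℝ) ≤ (6 * Gc * s + 1) ^ 3 := by
    have h1 : T.card ≤ J.card * (J.card * J.card) := by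
      rw [← Finset.card_product, ← Finset.card_product]
      exact Finset.card_filter_le _ _
    have h2 : (J.card : ℝ) = 6 * Gc * s + 1 := by
      rw [hJ, Int.card_Icc]
      have : (((2 * Gc * s : ℤ) + 1 - -(4 * Gc * s : ℤ)).toNat : ℤ) = 6 * Gc * s + 1 := by
        rw [Int.toNat_of_nonneg (by linarith)]; ring
      exact_mod_cast this
    calc (T.card : ℝ) ≤ (J.card : ℝ) * ((J.card : ℝ) * (J.card : ℝ)) := by exact_mod_cast h1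
      _ = _ := by rw [h2]; ring
  calc _ ≤ ((T.biUnion B).card : ℝ) := by exact_mod_cast Finset.card_le_card hsub
    _ ≤ ∑ t ∈ T, ((B t).card : ℝ) := by exact_mod_cast Finset.card_biUnion_le
    _ ≤ ∑ t ∈ T, (36 / 2 ^ s * (2 ^ (2 * ks + ls) * 2 ^ (ks + 2 * ls)) : ℝ) := Finset.sum_le_sum hBt
    _ = T.card * (36 / 2 ^ s * (2 ^ (2 * ks + ls) * 2 ^ (ks + 2 * ls)) : ℝ) := by
        rw [Finset.sum_const, nsmul_eq_mul]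
    _ ≤ (6 * Gc * s + 1) ^ 3 * (36 / 2 ^ s * (2 ^ (2 * ks + ls) * 2 ^ (ks + 2 * ls)) : ℝ) :=
        mul_le_mul_of_nonneg_right hTc (by positivity)
    _ = _ := by ring

/-- trivial bound for `cntH` -/
private theorem g1_triv (x1 x2 H1 H2 θ : ℝ) (h1 : 1 ≤ H1) (h2 : 1 ≤ H2) :
    (cntH x1 x2 H1 H2 θ : ℝ) ≤ 9 * H1 * H2 := by
  classical
  have hc1 : cntH x1 x2 H1 H2 θ ≤ (Icc (-⌊H1⌋) ⌊H1⌋).card * (Icc (-⌊H2⌋) ⌊H2⌋).card := by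
    unfold cntH
    rw [← Finset.card_product]
    exact Finset.card_filter_le _ _
  have hc2 : ∀ H : ℝ, 1 ≤ H → ((Icc (-⌊H⌋) ⌊H⌋).card : ℝ) ≤ 3 * H := by
    intro H hH
    rw [Int.card_Icc]
    have hf : 1 ≤ ⌊H⌋ := Int.le_floor.2 (by exact_mod_cast hH)
    have : ((⌊H⌋ + 1 - -⌊H⌋).toNat : ℤ) = 2 * ⌊H⌋ + 1 := by
      rw [Int.toNat_of_nonneg (by omega)]; ring
    have h4 : (((⌊H⌋ + 1 - -⌊H⌋).toNat : ℕ) : ℝ) = 2 * (⌊H⌋ : ℝ) + 1 := by exact_mod_cast this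
    rw [h4]
    have := Int.floor_le H
    linarith
  calc (cntH x1 x2 H1 H2 θ : ℝ) ≤ ((Icc (-⌊H1⌋) ⌊H1⌋).card : ℝ) * ((Icc (-⌊H2⌋) ⌊H2⌋).card : ℝ) := by
        exact_mod_cast hc1
    _ ≤ (3 * H1) * (3 * H2) := by
        apply mul_le_mul (hc2 H1 h1) (hc2 H2 h2) (by positivity) (by positivity)
    _ = 9 * H1 * H2 := by ring

open Classical in
/-- `GenF.gi` fails rarely.  If `2^(i+4Gs) ≥ 2^rs` the bound is trivial: `cntH ≤ 9·2^(ks+ls+2(G+60)s) ≤ 9·2^(i+4Gs+2(G+60)s)`.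
Otherwise `cntH_markov` with `K = 2^(12Gs+2i)`: `≤ 36·2^(i+4Gs+2(G+60)s)/2^(12Gs+2i)`; sum over `i`. -/
theorem gi_frac (s ks ls : ℕ) (hs : 200 ≤ s) (hp : ParF s ks ls) :
    (((range (2 ^ (2 * ks + ls)) ×ˢ range (2 ^ (ks + 2 * ls))).filter (fun p : ℕ × ℕ =>
      ¬ (∀ i : ℕ, (cntH (x0 ks ls p.1) (y0 ks ls p.2) ((2 : ℝ) ^ (ks + (Gc + 60) * s))
        ((2 : ℝ) ^ (ls + (Gc + 60) * s)) ((2 : ℝ) ^ (i + 4 * Gc * s : ℕ) / 2 ^ (ks + ls)) : ℝ) ≤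
        (2 : ℝ) ^ (12 * Gc * s + 2 * i)))).card : ℝ) ≤
      1 / 2 ^ s * (2 ^ (2 * ks + ls) * 2 ^ (ks + 2 * ls)) := by
  obtain ⟨hs1, hk1, hl1, -, -⟩ := hp
  have hGc : Gc = 100000 := rfl
  have hone : ∀ z : ℕ, (1 : ℝ) ≤ (2 : ℝ) ^ z := fun z => one_le_pow₀ (by norm_num)
  have hmon : ∀ z w : ℕ, z ≤ w → (2 : ℝ) ^ z ≤ (2 : ℝ) ^ w := fun z w h =>
    pow_le_pow_right₀ (by norm_num) h
  set B : ℕ → Finset (ℕ × ℕ) := fun i =>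
    (range (2 ^ (2 * ks + ls)) ×ˢ range (2 ^ (ks + 2 * ls))).filter (fun p : ℕ × ℕ =>
      (2 : ℝ) ^ (12 * Gc * s + 2 * i) <
        (cntH ((p.1 : ℝ) / ((2 ^ (2 * ks + ls) : ℕ) : ℝ)) ((p.2 : ℝ) / ((2 ^ (ks + 2 * ls) : ℕ) : ℝ))
          ((2 : ℝ) ^ (ks + (Gc + 60) * s)) ((2 : ℝ) ^ (ls + (Gc + 60) * s))
          ((2 : ℝ) ^ (i + 4 * Gc * s : ℕ) / 2 ^ (ks + ls)) : ℝ)) with hB
  have hsub : (range (2 ^ (2 * ks + ls)) ×ˢ range (2 ^ (ks + 2 * ls))).filter (fun p : ℕ × ℕ =>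
      ¬ (∀ i : ℕ, (cntH (x0 ks ls p.1) (y0 ks ls p.2) ((2 : ℝ) ^ (ks + (Gc + 60) * s))
        ((2 : ℝ) ^ (ls + (Gc + 60) * s)) ((2 : ℝ) ^ (i + 4 * Gc * s : ℕ) / 2 ^ (ks + ls)) : ℝ) ≤
        (2 : ℝ) ^ (12 * Gc * s + 2 * i))) ⊆ (range (ks + ls)).biUnion B := by
    intro p hp
    rw [Finset.mem_filter] at hp
    obtain ⟨hp1, hp2⟩ := hp
    push Not at hp2
    obtain ⟨i, hi⟩ := hp2
    rw [Finset.mem_biUnion]
    refine ⟨i, ?_, ?_⟩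
    · rw [Finset.mem_range]
      by_contra hcon
      push Not at hcon
      have h1 := g1_triv (x0 ks ls p.1) (y0 ks ls p.2) ((2 : ℝ) ^ (ks + (Gc + 60) * s))
        ((2 : ℝ) ^ (ls + (Gc + 60) * s)) ((2 : ℝ) ^ (i + 4 * Gc * s : ℕ) / 2 ^ (ks + ls))
        (hone _) (hone _)
      have h2 : 9 * (2 : ℝ) ^ (ks + (Gc + 60) * s) * (2 : ℝ) ^ (ls + (Gc + 60) * s) ≤
          (2 : ℝ) ^ (12 * Gc * s + 2 * i) := by
        calc 9 * (2 : ℝ) ^ (ks + (Gc + 60) * s) * (2 : ℝ) ^ (ls + (Gc + 60) * s)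
            ≤ 2 ^ 4 * (2 : ℝ) ^ (ks + (Gc + 60) * s) * (2 : ℝ) ^ (ls + (Gc + 60) * s) := by
              gcongr; norm_num
          _ = (2 : ℝ) ^ (4 + (ks + (Gc + 60) * s) + (ls + (Gc + 60) * s)) := by
              rw [← pow_add, ← pow_add]
          _ ≤ _ := by
              apply hmon
              rw [hGc]
              omega
      linarith
    · rw [hB]
      simp only
      rw [Finset.mem_filter]
      refine ⟨hp1, ?_⟩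
      have e1 : x0 ks ls p.1 = (p.1 : ℝ) / ((2 ^ (2 * ks + ls) : ℕ) : ℝ) := by
        unfold x0; push_cast; rfl
      have e2 : y0 ks ls p.2 = (p.2 : ℝ) / ((2 ^ (ks + 2 * ls) : ℕ) : ℝ) := by
        unfold y0; push_cast; rfl
      rw [e1, e2] at hi
      exact hi
  have hBt : ∀ i ∈ range (ks + ls), ((B i).card : ℝ) ≤
      (1 / 2) ^ i * (1 / 2 * (1 / 2 ^ s * (2 ^ (2 * ks + ls) * 2 ^ (ks + 2 * ls)))) := by
    intro i _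
    have hc := cntH_markov (2 ^ (2 * ks + ls)) (2 ^ (ks + 2 * ls)) (by positivity) (by positivity)
      ((2 : ℝ) ^ (ks + (Gc + 60) * s)) ((2 : ℝ) ^ (ls + (Gc + 60) * s))
      ((2 : ℝ) ^ (i + 4 * Gc * s : ℕ) / 2 ^ (ks + ls))
      (hone _) (hone _) (by positivity)
      (by
        push_cast
        rw [div_mul_eq_mul_div, le_div_iff₀ (by positivity), ← pow_add, ← pow_add]
        apply hmon
        rw [hGc]
        omega)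
      (by
        push_cast
        rw [div_mul_eq_mul_div, le_div_iff₀ (by positivity), ← pow_add, ← pow_add]
        apply hmon
        rw [hGc]
        omega)
      ((2 : ℝ) ^ (12 * Gc * s + 2 * i)) (by positivity)
    refine hc.trans ?_
    push_cast
    have e : 36 * ((2 : ℝ) ^ (i + 4 * Gc * s : ℕ) / 2 ^ (ks + ls)) * (2 : ℝ) ^ (ks + (Gc + 60) * s) *
        (2 : ℝ) ^ (ls + (Gc + 60) * s) / (2 : ℝ) ^ (12 * Gc * s + 2 * i) ≤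
        (1 / 2) ^ i * (1 / 2 * (1 / 2 ^ s)) := by
      rw [div_le_iff₀ (by positivity)]
      rw [one_div_pow, one_div_mul_one_div, one_div_mul_one_div, div_mul_eq_mul_div,
        le_div_iff₀ (by positivity)]
      have e1 : 36 * ((2 : ℝ) ^ (i + 4 * Gc * s : ℕ) / 2 ^ (ks + ls)) * (2 : ℝ) ^ (ks + (Gc + 60) * s) *
        (2 : ℝ) ^ (ls + (Gc + 60) * s) * (2 ^ i * (2 * 2 ^ s)) =
        36 * (2 : ℝ) ^ (i + 4 * Gc * s + (Gc + 60) * s + (Gc + 60) * s + i + 1 + s) := by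
        have : (2 : ℝ) ^ (ks + ls) ≠ 0 := by positivity
        field_simp
        ring
      rw [e1]
      calc 36 * (2 : ℝ) ^ (i + 4 * Gc * s + (Gc + 60) * s + (Gc + 60) * s + i + 1 + s)
          ≤ 2 ^ 6 * (2 : ℝ) ^ (i + 4 * Gc * s + (Gc + 60) * s + (Gc + 60) * s + i + 1 + s) := by
            gcongr; norm_num
        _ = (2 : ℝ) ^ (6 + (i + 4 * Gc * s + (Gc + 60) * s + (Gc + 60) * s + i + 1 + s)) := by
            rw [← pow_add]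
        _ ≤ 1 * (2 : ℝ) ^ (12 * Gc * s + 2 * i) := by
            rw [one_mul]
            apply hmon
            rw [hGc]
            omega
    calc _ ≤ ((1 / 2) ^ i * (1 / 2 * (1 / 2 ^ s))) * (2 : ℝ) ^ (2 * ks + ls) * 2 ^ (ks + 2 * ls) := by
          gcongr
      _ = _ := by ring
  have hgeo : ∀ n : ℕ, ∑ i ∈ range n, (1 / 2 : ℝ) ^ i ≤ 2 := by
    intro n
    have := geom_sum_eq (x := (1 / 2 : ℝ)) (by norm_num) n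
    rw [this]
    have h3 : (0 : ℝ) ≤ (1 / 2) ^ n := by positivity
    have : ((1 / 2 : ℝ) ^ n - 1) / (1 / 2 - 1) = 2 - 2 * (1 / 2) ^ n := by
      field_simp; ring
    rw [this]
    linarith
  calc _ ≤ (((range (ks + ls)).biUnion B).card : ℝ) := by exact_mod_cast Finset.card_le_card hsub
    _ ≤ ∑ t ∈ range (ks + ls), ((B t).card : ℝ) := by exact_mod_cast Finset.card_biUnion_le
    _ ≤ ∑ i ∈ range (ks + ls),
        ((1 / 2) ^ i * (1 / 2 * (1 / 2 ^ s * (2 ^ (2 * ks + ls) * 2 ^ (ks + 2 * ls)))) : ℝ) :=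
        Finset.sum_le_sum hBt
    _ = (∑ i ∈ range (ks + ls), (1 / 2 : ℝ) ^ i) *
        (1 / 2 * (1 / 2 ^ s * (2 ^ (2 * ks + ls) * 2 ^ (ks + 2 * ls)))) := by
        rw [Finset.sum_mul]
    _ ≤ 2 * (1 / 2 * (1 / 2 ^ s * (2 ^ (2 * ks + ls) * 2 ^ (ks + 2 * ls)))) :=
        mul_le_mul_of_nonneg_right (hgeo _) (by positivity)
    _ = _ := by ring

end MP_5e4520_nt.Ex
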