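import Pool.Agent.Lib.MP_5e4520_ntE.FDefs
set_option autoImplicit false

namespace MP_5e4520_nt.Ex

open Finset

private theorem g2_sum_mul (P m : ℕ) (f : ℕ → ℝ) :
    ∑ a ∈ range (P * m), f a = ∑ α ∈ range P, ∑ A ∈ range m, f (α * m + A) := by
  induction P with
  | zero => simp
  | succ P ih =>
    rw [Nat.succ_mul, Finset.sum_range_add, ih, Finset.sum_range_succ]

open Classical in
/-- JOB G2.  Markov inequality on cells: `Y ≥ 0` on `[P1 m1] × [P2 m2]` with total `≤ η P1 m1 P2 m2`; the number of cells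
`(α,β) ∈ [P1] × [P2]` whose sum `∑_{A<m1,B<m2} Y(α m1 + A, β m2 + B)` exceeds `t m1 m2` is at most `(η/t) P1 P2`. -/
theorem cell_markov (P1 P2 m1 m2 : ℕ) (hm1 : 0 < m1) (hm2 : 0 < m2) (Y : ℕ → ℕ → ℝ)
    (hY : ∀ a b, 0 ≤ Y a b) (η t : ℝ) (ht : 0 < t)
    (h : ∑ a ∈ range (P1 * m1), ∑ b ∈ range (P2 * m2), Y a b ≤ η * (P1 * m1) * (P2 * m2)) :
    (((range P1 ×ˢ range P2).filter (fun p : ℕ × ℕ =>
      t * m1 * m2 < ∑ A ∈ range m1, ∑ B ∈ range m2, Y (p.1 * m1 + A) (p.2 * m2 + B))).card : ℝ) ≤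
      η / t * P1 * P2 := by
  have hm1' : (0 : ℝ) < m1 := by exact_mod_cast hm1
  have hm2' : (0 : ℝ) < m2 := by exact_mod_cast hm2
  set Z : ℕ × ℕ → ℝ := fun p => ∑ A ∈ range m1, ∑ B ∈ range m2, Y (p.1 * m1 + A) (p.2 * m2 + B) with hZ
  have hZ0 : ∀ p, 0 ≤ Z p := fun p =>
    Finset.sum_nonneg (fun A _ => Finset.sum_nonneg (fun B _ => hY _ _))
  have hsum : ∑ a ∈ range (P1 * m1), ∑ b ∈ range (P2 * m2), Y a b =
      ∑ p ∈ range P1 ×ˢ range P2, Z p := by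
    rw [g2_sum_mul, Finset.sum_product]
    apply Finset.sum_congr rfl
    intro α _
    rw [Finset.sum_comm]
    have : ∀ A, ∑ b ∈ range (P2 * m2), Y (α * m1 + A) b =
        ∑ β ∈ range P2, ∑ B ∈ range m2, Y (α * m1 + A) (β * m2 + B) := fun A => g2_sum_mul _ _ _
    rw [Finset.sum_comm]
    simp only [this]
    rw [Finset.sum_comm]
  rw [hsum] at h
  set S := (range P1 ×ˢ range P2).filter (fun p : ℕ × ℕ => t * m1 * m2 < Z p) with hS
  have h3 : (S.card : ℝ) * (t * m1 * m2) ≤ ∑ x ∈ range P1 ×ˢ range P2, Z x := by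
    calc (S.card : ℝ) * (t * m1 * m2) = ∑ x ∈ S, (t * m1 * m2) := by
          rw [Finset.sum_const, nsmul_eq_mul]
      _ ≤ ∑ x ∈ S, Z x := by
          apply Finset.sum_le_sum
          intro x hx
          exact (Finset.mem_filter.1 hx).2.le
      _ ≤ _ := by
          apply Finset.sum_le_sum_of_subset_of_nonneg (Finset.filter_subset _ _)
          intro x _ _
          exact hZ0 x
  have h4 := h3.trans h
  rw [show η / t * (P1 : ℝ) * P2 = η * (P1 * m1) * (P2 * m2) / (t * m1 * m2) by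
    field_simp]
  rw [le_div_iff₀ (by positivity)]
  exact h4

theorem Ync_nonneg (s ks ls a b : ℕ) : 0 ≤ Ync s ks ls a b := by
  classical
  unfold Ync
  apply Finset.sum_nonneg; intro k _
  apply Finset.sum_nonneg; intro l _
  apply Finset.sum_nonneg; intro lb _
  apply Finset.sum_nonneg; intro h _
  apply Finset.sum_nonneg; intro h' _
  split_ifs
  · exact mul_nonneg (mul_nonneg (ct_nonneg _ _ _) (ct_nonneg _ _ _)) (fej_nonneg _ _)
  · exact le_rfl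

open Classical in
/-- one-sided non core mass -/
private theorem g2_nc (s u ks k : ℕ) (hk1 : ks + (Gc - 1) * s ≤ k)
    (hk2 : k ≤ ks + (Gc + 1) * s) (hku : k ≤ u) :
    ∑ h ∈ SR (2 ^ u), (if ¬ coreR s ks h then ct (2 ^ (u - k)) (2 ^ u) h else 0) ≤
      4 / 2 ^ (59 * s) := by
  have hGc : Gc = 100000 := rfl
  have hw : 0 < 2 ^ (u - k) := by positivity
  have hQ : 0 < 2 ^ u := by positivity
  have hlow := ct_low (2 ^ (u - k)) (2 ^ u) hw hQ (2 ^ (ks + (Gc - 60) * s))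
  have hhigh := ct_high (2 ^ (u - k)) (2 ^ u) hw hQ (2 ^ (ks + (Gc + 60) * s)) (by positivity)
  have hkey : ∑ h ∈ SR (2 ^ u), (if ¬ coreR s ks h then ct (2 ^ (u - k)) (2 ^ u) h else 0) ≤
      ∑ h ∈ (SR (2 ^ u)).filter (fun h => |h| < ((2 ^ (ks + (Gc - 60) * s) : ℕ) : ℤ)),
        ct (2 ^ (u - k)) (2 ^ u) h +
      ∑ h ∈ (SR (2 ^ u)).filter (fun h => ((2 ^ (ks + (Gc + 60) * s) : ℕ) : ℤ) < |h|),
        ct (2 ^ (u - k)) (2 ^ u) h := by
    rw [Finset.sum_filter, Finset.sum_filter, ← Finset.sum_add_distrib]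
    apply Finset.sum_le_sum
    intro h _
    have h0 := ct_nonneg (2 ^ (u - k)) (2 ^ u) h
    by_cases hc : coreR s ks h
    · rw [if_neg (not_not.2 hc)]
      apply add_nonneg <;> split_ifs <;> first | exact h0 | exact le_rfl
    · rw [if_pos hc]
      unfold coreR at hc
      rw [not_and_or] at hc
      rcases hc with hc | hc
      · rw [if_pos (by push_cast; exact not_le.1 hc)]
        have : 0 ≤ (if ((2 ^ (ks + (Gc + 60) * s) : ℕ) : ℤ) < |h| then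
          ct (2 ^ (u - k)) (2 ^ u) h else 0) := by split_ifs <;> first | exact h0 | exact le_rfl
        linarith
      · rw [if_pos (show ((2 ^ (ks + (Gc + 60) * s) : ℕ) : ℤ) < |h| by
          push_cast; exact not_le.1 hc)]
        have : 0 ≤ (if |h| < ((2 ^ (ks + (Gc - 60) * s) : ℕ) : ℤ) then
          ct (2 ^ (u - k)) (2 ^ u) h else 0) := by split_ifs <;> first | exact h0 | exact le_rfl
        linarith
  have hmon : ∀ z w : ℕ, z ≤ w → (2 : ℝ) ^ z ≤ (2 : ℝ) ^ w := fun z w h =>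
    pow_le_pow_right₀ (by norm_num) h
  have hb1 : (2 * ((2 ^ (ks + (Gc - 60) * s) : ℕ) : ℝ) + 1) *
      (((2 ^ (u - k) : ℕ) : ℝ) / ((2 ^ u : ℕ) : ℝ)) ≤ 3 / 2 ^ (59 * s) := by
    push_cast
    have e1 : (2 : ℝ) ^ u = 2 ^ (u - k) * 2 ^ k := by
      rw [← pow_add]; congr 1; omega
    have e2 : (2 : ℝ) ^ (u - k) / 2 ^ u = 1 / 2 ^ k := by
      rw [e1]
      rw [div_mul_eq_div_div, div_self (by positivity)]
    rw [e2]
    have h1 : (1 : ℝ) ≤ 2 ^ (ks + (Gc - 60) * s) := one_le_pow₀ (by norm_num)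
    calc (2 * (2 : ℝ) ^ (ks + (Gc - 60) * s) + 1) * (1 / 2 ^ k)
        ≤ (3 * (2 : ℝ) ^ (ks + (Gc - 60) * s)) * (1 / 2 ^ k) := by
          apply mul_le_mul_of_nonneg_right _ (by positivity)
          linarith
      _ ≤ 3 / 2 ^ (59 * s) := by
          rw [mul_one_div, div_le_div_iff₀ (by positivity) (by positivity), mul_assoc, ← pow_add]
          apply mul_le_mul_of_nonneg_left _ (by norm_num)
          apply hmon
          rw [hGc] at hk1 ⊢
          omega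
  have hb2 : ((2 ^ u : ℕ) : ℝ) / (2 * ((2 ^ (u - k) : ℕ) : ℝ) * ((2 ^ (ks + (Gc + 60) * s) : ℕ) : ℝ)) ≤
      1 / 2 ^ (59 * s) := by
    push_cast
    have e1 : (2 : ℝ) ^ u = 2 ^ (u - k) * 2 ^ k := by
      rw [← pow_add]; congr 1; omega
    rw [e1, div_le_div_iff₀ (by positivity) (by positivity)]
    have h2 : (2 : ℝ) ^ k * 2 ^ (59 * s) ≤ 2 ^ (ks + (Gc + 60) * s) := by
      rw [← pow_add]
      apply hmon
      rw [hGc] at hk2 ⊢
      omega
    have h3 : (0 : ℝ) < 2 ^ (u - k) := by positivity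
    have h4 : (0 : ℝ) < 2 ^ (ks + (Gc + 60) * s) := by positivity
    calc (2 : ℝ) ^ (u - k) * 2 ^ k * 2 ^ (59 * s) = 2 ^ (u - k) * (2 ^ k * 2 ^ (59 * s)) := by ring
      _ ≤ 2 ^ (u - k) * 2 ^ (ks + (Gc + 60) * s) := mul_le_mul_of_nonneg_left h2 h3.le
      _ ≤ 1 * (2 * 2 ^ (u - k) * 2 ^ (ks + (Gc + 60) * s)) := by nlinarith [mul_pos h3 h4]
  calc _ ≤ _ := hkey
    _ ≤ 3 / 2 ^ (59 * s) + 1 / 2 ^ (59 * s) := add_le_add (hlow.trans hb1) (hhigh.trans hb2)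
    _ = 4 / 2 ^ (59 * s) := by ring

private theorem g2_num (s : ℕ) (hs : 200 ≤ s) : 8 * (2 * s + 1) ^ 2 * (11 * s + 1) ≤ 2 ^ s := by
  induction s, hs using Nat.le_induction with
  | base => norm_num
  | succ s hs ih =>
    rw [pow_succ]
    have : 8 * (2 * (s + 1) + 1) ^ 2 * (11 * (s + 1) + 1) ≤ (8 * (2 * s + 1) ^ 2 * (11 * s + 1)) * 2 := by
      nlinarith [mul_le_mul hs hs (by norm_num) (by omega), sq_nonneg (s : ℤ)]
    exact this.trans (Nat.mul_le_mul_right 2 ih)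

open Classical in
private theorem g2_nc2 (s u v ks ls k l : ℕ) (hk1 : ks + (Gc - 1) * s ≤ k)
    (hk2 : k ≤ ks + (Gc + 1) * s) (hku : k ≤ u) (hu : 0 < u) (hl1 : ls + (Gc - 1) * s ≤ l)
    (hl2 : l ≤ ls + (Gc + 1) * s) (hlv : l ≤ v) (hv : 0 < v) :
    ∑ h ∈ SR (2 ^ u), ∑ h' ∈ SR (2 ^ v),
      (if (h ≠ 0 ∨ h' ≠ 0) ∧ ¬ (coreR s ks h ∧ coreR s ls h') then
        ct (2 ^ (u - k)) (2 ^ u) h * ct (2 ^ (v - l)) (2 ^ v) h' else 0) ≤ 8 / 2 ^ (59 * s) := by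
  have hu2 : 2 ∣ 2 ^ u := dvd_pow_self 2 hu.ne'
  have hv2 : 2 ∣ 2 ^ v := dvd_pow_self 2 hv.ne'
  have su := ct_sum (2 ^ (u - k)) (2 ^ u) (by positivity)
    (Nat.pow_le_pow_right (by norm_num) (Nat.sub_le _ _)) hu2
  have sv := ct_sum (2 ^ (v - l)) (2 ^ v) (by positivity)
    (Nat.pow_le_pow_right (by norm_num) (Nat.sub_le _ _)) hv2
  have nu := g2_nc s u ks k hk1 hk2 hku
  have nv := g2_nc s v ls l hl1 hl2 hlv
  calc _ ≤ ∑ h ∈ SR (2 ^ u), ∑ h' ∈ SR (2 ^ v),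
      ((if ¬ coreR s ks h then ct (2 ^ (u - k)) (2 ^ u) h else 0) * ct (2 ^ (v - l)) (2 ^ v) h' +
        ct (2 ^ (u - k)) (2 ^ u) h * (if ¬ coreR s ls h' then ct (2 ^ (v - l)) (2 ^ v) h' else 0)) := by
        apply Finset.sum_le_sum; intro h _
        apply Finset.sum_le_sum; intro h' _
        have a1 := ct_nonneg (2 ^ (u - k)) (2 ^ u) h
        have a2 := ct_nonneg (2 ^ (v - l)) (2 ^ v) h'
        have a3 := mul_nonneg a1 a2
        by_cases c1 : coreR s ks h <;> by_cases c2 : coreR s ls h' <;> simp [c1, c2]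
        · split_ifs <;> simp [a3]
        · split_ifs <;> simp [a3]
        · split_ifs <;> linarith
    _ = (∑ h ∈ SR (2 ^ u), (if ¬ coreR s ks h then ct (2 ^ (u - k)) (2 ^ u) h else 0)) *
          (∑ h' ∈ SR (2 ^ v), ct (2 ^ (v - l)) (2 ^ v) h') +
        (∑ h ∈ SR (2 ^ u), ct (2 ^ (u - k)) (2 ^ u) h) *
          (∑ h' ∈ SR (2 ^ v), (if ¬ coreR s ls h' then ct (2 ^ (v - l)) (2 ^ v) h' else 0)) := by
        rw [Finset.sum_mul_sum, Finset.sum_mul_sum, ← Finset.sum_add_distrib]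
        apply Finset.sum_congr rfl; intro h _
        rw [← Finset.sum_add_distrib]
    _ ≤ 4 / 2 ^ (59 * s) + 4 / 2 ^ (59 * s) := by
        rw [su, sv, mul_one, one_mul]
        exact add_le_add nu nv
    _ = _ := by ring

/-- Mean of `Ync`.  For each `(k,l,lb)` and each non core `(h,h') ≠ 0` with `ct ct' ≠ 0` the average of `fej` is `1` (`fej_avg_one`:
`2^lb ≤ QA/2^k`, `2^lb ≤ QB/2^l`).  The non core mass is `≤ 2·(ct_low + ct_high)` with `H = 2^(ks+(G-60)s)` resp. `2^(ks+(G+60)s)` and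
`∑ ct = 1`: `≤ 2(3·2^(-59s) + 2^(-59s))`.  Number of `(k,l,lb)`: `(2s+1)²(11s+1)`. -/
theorem Ync_mean (s ks ls : ℕ) (hs : 200 ≤ s) (hp : ParF s ks ls) :
    ∑ a ∈ range (QA s ks ls), ∑ b ∈ range (QB s ks ls), Ync s ks ls a b ≤
      1 / 2 ^ (58 * s) * (QA s ks ls) * (QB s ks ls) := by
  classical
  have hGc : Gc = 100000 := rfl
  set u : ℕ := 2 * ks + ls + (3 * Gc + 100) * s with hu
  set v : ℕ := ks + 2 * ls + (3 * Gc + 100) * s with hv
  have hQA : QA s ks ls = 2 ^ u := rfl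
  have hQB : QB s ks ls = 2 ^ v := rfl
  have hQA0 : (0 : ℝ) ≤ (QA s ks ls : ℝ) := by positivity
  have hQB0 : (0 : ℝ) ≤ (QB s ks ls : ℝ) := by positivity
  have hu0 : 0 < u := by rw [hu, hGc]; omega
  have hv0 : 0 < v := by rw [hv, hGc]; omega
  -- swap
  have hswap : ∑ a ∈ range (QA s ks ls), ∑ b ∈ range (QB s ks ls), Ync s ks ls a b =
      ∑ k ∈ Icc (ks + (Gc - 1) * s) (ks + (Gc + 1) * s),
      ∑ l ∈ Icc (ls + (Gc - 1) * s) (ls + (Gc + 1) * s),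
      ∑ lb ∈ Icc (ks + ls + (2 * Gc - 22) * s) (ks + ls + (2 * Gc - 11) * s),
      ∑ h ∈ SR (QA s ks ls), ∑ h' ∈ SR (QB s ks ls),
      ∑ a ∈ range (QA s ks ls), ∑ b ∈ range (QB s ks ls),
        if (h ≠ 0 ∨ h' ≠ 0) ∧ ¬ (coreR s ks h ∧ coreR s ls h') then
          ct (QA s ks ls / 2 ^ k) (QA s ks ls) h * ct (QB s ks ls / 2 ^ l) (QB s ks ls) h' *
            fej (2 ^ lb) ((h : ℝ) * a / QA s ks ls + (h' : ℝ) * b / QB s ks ls)
        else 0 := by
    unfold Ync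
    rw [← Finset.sum_product', Finset.sum_comm]
    apply Finset.sum_congr rfl; intro k _
    rw [Finset.sum_comm]
    apply Finset.sum_congr rfl; intro l _
    rw [Finset.sum_comm]
    apply Finset.sum_congr rfl; intro lb _
    rw [Finset.sum_comm]
    apply Finset.sum_congr rfl; intro h _
    rw [Finset.sum_comm]
    apply Finset.sum_congr rfl; intro h' _
    rw [Finset.sum_product]
  rw [hswap]
  have hterm : ∀ k ∈ Icc (ks + (Gc - 1) * s) (ks + (Gc + 1) * s),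
      ∀ l ∈ Icc (ls + (Gc - 1) * s) (ls + (Gc + 1) * s),
      ∀ lb ∈ Icc (ks + ls + (2 * Gc - 22) * s) (ks + ls + (2 * Gc - 11) * s),
      ∑ h ∈ SR (QA s ks ls), ∑ h' ∈ SR (QB s ks ls),
      ∑ a ∈ range (QA s ks ls), ∑ b ∈ range (QB s ks ls),
        (if (h ≠ 0 ∨ h' ≠ 0) ∧ ¬ (coreR s ks h ∧ coreR s ls h') then
          ct (QA s ks ls / 2 ^ k) (QA s ks ls) h * ct (QB s ks ls / 2 ^ l) (QB s ks ls) h' *
            fej (2 ^ lb) ((h : ℝ) * a / QA s ks ls + (h' : ℝ) * b / QB s ks ls)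
        else 0) ≤ 8 / 2 ^ (59 * s) * ((QA s ks ls : ℝ) * (QB s ks ls)) := by
    intro k hk l hl lb hlb
    rw [Finset.mem_Icc] at hk hl hlb
    have hku : k ≤ u := by rw [hu]; rw [hGc] at hk ⊢; omega
    have hlv : l ≤ v := by rw [hv]; rw [hGc] at hl ⊢; omega
    have hbu : lb ≤ u - k := by rw [hu]; rw [hGc] at hk hlb ⊢; omega
    have hbv : lb ≤ v - l := by rw [hv]; rw [hGc] at hl hlb ⊢; omega
    rw [hQA, hQB, Nat.pow_div hku (by norm_num), Nat.pow_div hlv (by norm_num)]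
    calc _ ≤ ∑ h ∈ SR (2 ^ u), ∑ h' ∈ SR (2 ^ v),
        (if (h ≠ 0 ∨ h' ≠ 0) ∧ ¬ (coreR s ks h ∧ coreR s ls h') then
          ct (2 ^ (u - k)) (2 ^ u) h * ct (2 ^ (v - l)) (2 ^ v) h' else 0) *
          ((((2 ^ u : ℕ) : ℝ)) * ((2 ^ v : ℕ) : ℝ)) := by
          apply Finset.sum_le_sum; intro h hh
          apply Finset.sum_le_sum; intro h' hh'
          by_cases hc : (h ≠ 0 ∨ h' ≠ 0) ∧ ¬ (coreR s ks h ∧ coreR s ls h')
          · simp only [if_pos hc]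
            by_cases hz : ct (2 ^ (u - k)) (2 ^ u) h * ct (2 ^ (v - l)) (2 ^ v) h' = 0
            · rw [hz]; simp
            · have hz1 : ct (2 ^ (u - k)) (2 ^ u) h ≠ 0 := fun h0 => hz (by rw [h0, zero_mul])
              have hz2 : ct (2 ^ (v - l)) (2 ^ v) h' ≠ 0 := fun h0 => hz (by rw [h0, mul_zero])
              have := fej_avg_one u v k l (2 ^ lb) hku hlv (by positivity)
                (Nat.pow_le_pow_right (by norm_num) hbu) (Nat.pow_le_pow_right (by norm_num) hbv)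
                h h' hh hh' hc.1 hz1 hz2
              simp only [← Finset.mul_sum]
              rw [this]
              push_cast
              exact le_rfl
          · simp only [if_neg hc]
            simp
      _ = (∑ h ∈ SR (2 ^ u), ∑ h' ∈ SR (2 ^ v),
        (if (h ≠ 0 ∨ h' ≠ 0) ∧ ¬ (coreR s ks h ∧ coreR s ls h') then
          ct (2 ^ (u - k)) (2 ^ u) h * ct (2 ^ (v - l)) (2 ^ v) h' else 0)) *
          ((((2 ^ u : ℕ) : ℝ)) * ((2 ^ v : ℕ) : ℝ)) := by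
          rw [Finset.sum_mul]
          apply Finset.sum_congr rfl; intro h _
          rw [Finset.sum_mul]
      _ ≤ 8 / 2 ^ (59 * s) * ((((2 ^ u : ℕ) : ℝ)) * ((2 ^ v : ℕ) : ℝ)) := by
          apply mul_le_mul_of_nonneg_right _ (by positivity)
          exact g2_nc2 s u v ks ls k l hk.1 hk.2 hku hu0 hl.1 hl.2 hlv hv0
  have hcard1 : ∀ z : ℕ, (Icc (z + (Gc - 1) * s) (z + (Gc + 1) * s)).card = 2 * s + 1 := by
    intro z
    rw [Nat.card_Icc, hGc]; omega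
  have hcard2 : ∀ z : ℕ, (Icc (z + (2 * Gc - 22) * s) (z + (2 * Gc - 11) * s)).card = 11 * s + 1 := by
    intro z
    rw [Nat.card_Icc, hGc]; omega
  calc _ ≤ ∑ k ∈ Icc (ks + (Gc - 1) * s) (ks + (Gc + 1) * s),
      ∑ l ∈ Icc (ls + (Gc - 1) * s) (ls + (Gc + 1) * s),
      ∑ lb ∈ Icc (ks + ls + (2 * Gc - 22) * s) (ks + ls + (2 * Gc - 11) * s),
      (8 / 2 ^ (59 * s) * ((QA s ks ls : ℝ) * (QB s ks ls))) := by
        apply Finset.sum_le_sum; intro k hk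
        apply Finset.sum_le_sum; intro l hl
        apply Finset.sum_le_sum; intro lb hlb
        exact hterm k hk l hl lb hlb
    _ = ((8 * (2 * s + 1) ^ 2 * (11 * s + 1) : ℕ) : ℝ) / 2 ^ (59 * s) *
          ((QA s ks ls : ℝ) * (QB s ks ls)) := by
        simp only [Finset.sum_const, nsmul_eq_mul, hcard1, hcard2]
        push_cast
        ring
    _ ≤ (2 : ℝ) ^ s / 2 ^ (59 * s) * ((QA s ks ls : ℝ) * (QB s ks ls)) := by
        apply mul_le_mul_of_nonneg_right _ (by positivity)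
        apply div_le_div_of_nonneg_right _ (by positivity)
        exact_mod_cast g2_num s hs
    _ = 1 / 2 ^ (58 * s) * (QA s ks ls) * (QB s ks ls) := by
        rw [show 59 * s = s + 58 * s by ring, pow_add, div_mul_eq_div_div, div_self (by positivity)]
        ring

open Classical in
/-- `GenF.gt` fails rarely (`cell_markov`) -/
theorem gt_frac (s ks ls : ℕ) (hs : 200 ≤ s) (hp : ParF s ks ls) :
    (((range (2 ^ (2 * ks + ls)) ×ˢ range (2 ^ (ks + 2 * ls))).filter (fun p : ℕ × ℕ =>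
      ¬ (∑ A ∈ range (2 ^ ((3 * Gc + 100) * s)), ∑ B ∈ range (2 ^ ((3 * Gc + 100) * s)),
        Ync s ks ls (p.1 * 2 ^ ((3 * Gc + 100) * s) + A) (p.2 * 2 ^ ((3 * Gc + 100) * s) + B) ≤
        (2 : ℝ) ^ (2 * (3 * Gc + 100) * s) / 2 ^ (30 * s)))).card : ℝ) ≤
      1 / 2 ^ s * (2 ^ (2 * ks + ls) * 2 ^ (ks + 2 * ls)) := by
  have hm := Ync_mean s ks ls hs hp
  set N : ℕ := (3 * Gc + 100) * s with hN
  have hQA : QA s ks ls = 2 ^ (2 * ks + ls) * 2 ^ N := by unfold QA; rw [← pow_add]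
  have hQB : QB s ks ls = 2 ^ (ks + 2 * ls) * 2 ^ N := by unfold QB; rw [← pow_add]
  rw [hQA, hQB] at hm
  have hc := cell_markov (2 ^ (2 * ks + ls)) (2 ^ (ks + 2 * ls)) (2 ^ N) (2 ^ N) (by positivity)
    (by positivity) (fun a b => Ync s ks ls a b) (fun a b => Ync_nonneg s ks ls a b)
    (1 / 2 ^ (58 * s)) (1 / 2 ^ (30 * s)) (by positivity)
    (by push_cast at hm ⊢; exact hm)
  have hfil : (range (2 ^ (2 * ks + ls)) ×ˢ range (2 ^ (ks + 2 * ls))).filter (fun p : ℕ × ℕ =>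
      ¬ (∑ A ∈ range (2 ^ N), ∑ B ∈ range (2 ^ N),
        Ync s ks ls (p.1 * 2 ^ N + A) (p.2 * 2 ^ N + B) ≤
        (2 : ℝ) ^ (2 * (3 * Gc + 100) * s) / 2 ^ (30 * s))) =
      (range (2 ^ (2 * ks + ls)) ×ˢ range (2 ^ (ks + 2 * ls))).filter (fun p : ℕ × ℕ =>
      (1 / 2 ^ (30 * s) : ℝ) * ((2 ^ N : ℕ) : ℝ) * ((2 ^ N : ℕ) : ℝ) <
        ∑ A ∈ range (2 ^ N), ∑ B ∈ range (2 ^ N),
        Ync s ks ls (p.1 * 2 ^ N + A) (p.2 * 2 ^ N + B)) := by
    apply Finset.filter_congr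
    intro p _
    rw [not_le]
    have : (2 : ℝ) ^ (2 * (3 * Gc + 100) * s) / 2 ^ (30 * s) =
        (1 / 2 ^ (30 * s) : ℝ) * ((2 ^ N : ℕ) : ℝ) * ((2 ^ N : ℕ) : ℝ) := by
      push_cast
      rw [show 2 * (3 * Gc + 100) * s = N + N by rw [hN]; ring, pow_add]
      ring
    rw [this]
  rw [hfil]
  refine hc.trans ?_
  push_cast
  have e : (1 / 2 ^ (58 * s) : ℝ) / (1 / 2 ^ (30 * s)) ≤ 1 / 2 ^ s := by
    rw [div_div_eq_mul_div, div_one, one_div_mul_eq_div, div_le_div_iff₀ (by positivity) (by positivity),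
      ← pow_add, one_mul]
    exact pow_le_pow_right₀ (by norm_num) (by omega)
  calc (1 / 2 ^ (58 * s) : ℝ) / (1 / 2 ^ (30 * s)) * 2 ^ (2 * ks + ls) * 2 ^ (ks + 2 * ls)
      ≤ 1 / 2 ^ s * 2 ^ (2 * ks + ls) * 2 ^ (ks + 2 * ls) := by gcongr
    _ = _ := by ring

end MP_5e4520_nt.Ex
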