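import Pool.Agent.Lib.MP_5e4520_ntE.V4
import Pool.Agent.Lib.MP_5e4520_ntE.G1
import Pool.Agent.Lib.MP_5e4520_ntE.G2
set_option autoImplicit false

/-!
# Genericity of the coarse pair holds with high probability
-/

namespace MP_5e4520_nt.Ex

open Finset

private theorem v5_num (s : ℕ) (hs : 200 ≤ s) : s ^ 2 ≤ 2 ^ s := by
  induction s, hs using Nat.le_induction with
  | base => norm_num
  | succ s hs ih =>
    rw [pow_succ 2 s]
    nlinarith [mul_le_mul hs hs (by norm_num) (by omega)]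

private theorem v5_lin (s n : ℕ) (hs : 1 ≤ s) (hn : 200 * s ≤ n) : n ≤ 2 ^ (n - 100 * s) := by
  obtain ⟨m, hm⟩ : ∃ m, n - 100 * s = m + 1 := ⟨n - 100 * s - 1, by omega⟩
  have h2 : m < 2 ^ m := Nat.lt_two_pow_self
  rw [hm, pow_succ]
  omega

private theorem v5_r (s n : ℕ) (hs : 1 ≤ s) (hn : 200 * s ≤ n) :
    (n : ℝ) / 2 ^ n ≤ 1 / 2 ^ (100 * s) := by
  rw [div_le_div_iff₀ (by positivity) (by positivity), one_mul]
  have h1 := v5_lin s n hs hn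
  have h2 : (n : ℝ) ≤ 2 ^ (n - 100 * s) := by exact_mod_cast h1
  calc (n : ℝ) * 2 ^ (100 * s) ≤ 2 ^ (n - 100 * s) * 2 ^ (100 * s) := by gcongr
    _ = 2 ^ n := by rw [← pow_add]; congr 1; omega

/-- JOB V5.  `Wrk ≤ 2 s² pairN` (box of `rk`, `rank2_pair`), `pairN_mean` with `n = κ + lm - 12 s + 1`, `ξ1 = 2^(s+1)/2^κ`,
`ξ2 = 2^(s+1)/2^lm`, `κ = ks + G s`, `lm = ls + G s`: `2^n ξ1 ξ2 = 2^(3 - 10 s)`, first term `1152·2^(6-20s)`; second term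
`288 (ξ1+ξ2) 2^(3-10s) (n+2) ≤ 2^(-40 s)` : `n + 2 ≤ κ + lm ≤ 2^(s+1) κ` and `≤ 2^(s+1) lm` (`ParF.kl, lk`), `κ ≤ 2^(κ/2)`, `κ ≥ 100 G s`.
Total `2 s² (2^17·2^(-20s) + 2^(-40s)) ≤ 2^(-18 s)` for `s ≥ 200`. -/
theorem Wrk_mean (s ks ls : ℕ) (hs : 200 ≤ s) (hp : ParF s ks ls) :
    ∑ a ∈ range (QA s ks ls), ∑ b ∈ range (QB s ks ls),
      Wrk (ks + Gc * s) (ls + Gc * s) s (100 * s) a b ≤
      1 / 2 ^ (18 * s) * (QA s ks ls) * (QB s ks ls) := by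
  classical
  obtain ⟨hs1, hk1, hl1, hkl, hlk⟩ := hp
  have hGc : Gc = 100000 := rfl
  set κ : ℕ := ks + Gc * s with hκ
  set lm : ℕ := ls + Gc * s with hlm
  have hκ1 : 200 * s ≤ κ := by rw [hκ, hGc]; omega
  have hlm1 : 200 * s ≤ lm := by rw [hlm, hGc]; omega
  have hQA : QA s ks ls = 2 ^ (2 * κ + lm + 100 * s) := by
    unfold QA; congr 1; rw [hκ, hlm, hGc]; ring
  have hQB : QB s ks ls = 2 ^ (κ + 2 * lm + 100 * s) := by
    unfold QB; congr 1; rw [hκ, hlm, hGc]; ring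
  set n : ℕ := κ + lm - 12 * s + 1 with hn
  set ξ1 : ℝ := 2 ^ (s + 1) / 2 ^ κ with hξ1
  set ξ2 : ℝ := 2 ^ (s + 1) / 2 ^ lm with hξ2
  have hξ1p : 0 < ξ1 := by positivity
  have hξ2p : 0 < ξ2 := by positivity
  have hpt : ∀ a b : ℕ, Wrk κ lm s (100 * s) a b ≤
      2 * (s : ℝ) ^ 2 * (pairN (QA s ks ls) (QB s ks ls) (2 ^ n) ξ1 ξ2 a b : ℝ) := by
    intro a b
    unfold Wrk
    split_ifs with hr
    · have hterm : ∀ x ∈ range s, ∀ y ∈ range s,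
          (1 + (hom (2 ^ (2 * κ + lm + 100 * s)) (2 ^ (κ + 2 * lm + 100 * s))
            (2 ^ (κ - x + (lm - y) - 12 * s + 1)) (1 / 2 ^ (κ - x)) (1 / 2 ^ (lm - y)) a b : ℝ)) ≤
          2 * (pairN (QA s ks ls) (QB s ks ls) (2 ^ n) ξ1 ξ2 a b : ℝ) := by
        intro x hx y hy
        rw [Finset.mem_range] at hx hy
        rw [hQA, hQB]
        apply rank2_pair _ _ _ _ _ _ _ _ a b _ _ _ hr
        · apply Nat.pow_le_pow_right (by norm_num)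
          omega
        · rw [div_le_div_iff₀ (by positivity) (by positivity), one_mul, ← pow_add]
          exact pow_le_pow_right₀ (by norm_num) (by omega)
        · rw [div_le_div_iff₀ (by positivity) (by positivity), one_mul, ← pow_add]
          exact pow_le_pow_right₀ (by norm_num) (by omega)
      calc _ ≤ ∑ x ∈ range s, ∑ y ∈ range s,
            2 * (pairN (QA s ks ls) (QB s ks ls) (2 ^ n) ξ1 ξ2 a b : ℝ) :=
            Finset.sum_le_sum (fun x hx => Finset.sum_le_sum (fun y hy => hterm x hx y hy))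
        _ = _ := by
            rw [Finset.sum_const, Finset.sum_const, Finset.card_range, nsmul_eq_mul, nsmul_eq_mul]
            ring
    · positivity
  have hX1 : (2 : ℝ) ^ n ≤ ξ1 * (QA s ks ls : ℕ) := by
    rw [hQA, hξ1]
    push_cast
    rw [div_mul_eq_mul_div, le_div_iff₀ (by positivity), ← pow_add, ← pow_add]
    exact pow_le_pow_right₀ (by norm_num) (by omega)
  have hX2 : (2 : ℝ) ^ n ≤ ξ2 * (QB s ks ls : ℕ) := by
    rw [hQB, hξ2]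
    push_cast
    rw [div_mul_eq_mul_div, le_div_iff₀ (by positivity), ← pow_add, ← pow_add]
    exact pow_le_pow_right₀ (by norm_num) (by omega)
  have hmean := pairN_mean (QA s ks ls) (QB s ks ls) n ξ1 ξ2 hξ1p hξ2p hX1 hX2
  have hprod : (2 : ℝ) ^ n * ξ1 * ξ2 = 8 / 2 ^ (10 * s) := by
    rw [hξ1, hξ2, eq_div_iff (by positivity)]
    have e1 : (2 : ℝ) ^ n * (2 ^ (s + 1) / 2 ^ κ) * (2 ^ (s + 1) / 2 ^ lm) * 2 ^ (10 * s) =
        (2 ^ n * 2 ^ (s + 1) * 2 ^ (s + 1) * 2 ^ (10 * s)) / (2 ^ κ * 2 ^ lm) := by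
      field_simp
    rw [e1, ← pow_add, ← pow_add, ← pow_add, ← pow_add, div_eq_iff (by positivity),
      show (8 : ℝ) = 2 ^ 3 by norm_num, ← pow_add]
    congr 1
    omega
  have hn2 : ((n : ℝ) + 2) ≤ 2 ^ (s + 1) * κ ∧ ((n : ℝ) + 2) ≤ 2 ^ (s + 1) * lm := by
    have a1 : n + 2 ≤ κ + lm := by omega
    have ps : 1 ≤ 2 ^ s := Nat.one_le_two_pow
    have a2 : lm ≤ 2 ^ s * κ := by
      rw [hκ, hlm, mul_add]
      exact Nat.add_le_add hlk (Nat.le_mul_of_pos_left _ ps)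
    have a3 : κ ≤ 2 ^ s * lm := by
      rw [hκ, hlm, mul_add]
      exact Nat.add_le_add hkl (Nat.le_mul_of_pos_left _ ps)
    have a4 : κ ≤ 2 ^ s * κ := Nat.le_mul_of_pos_left _ ps
    have a5 : lm ≤ 2 ^ s * lm := Nat.le_mul_of_pos_left _ ps
    constructor
    · have : n + 2 ≤ 2 ^ (s + 1) * κ := by rw [pow_succ]; nlinarith
      exact_mod_cast this
    · have : n + 2 ≤ 2 ^ (s + 1) * lm := by rw [pow_succ]; nlinarith
      exact_mod_cast this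
  have hs2 : (2 : ℝ) ^ (s + 1) * 2 ^ (s + 1) ≤ 2 ^ (3 * s) := by
    rw [← pow_add]
    exact pow_le_pow_right₀ (by norm_num) (by omega)
  have hr1 : ξ1 * ((n : ℝ) + 2) ≤ 1 / 2 ^ (97 * s) := by
    have h1 := v5_r s κ (by omega) hκ1
    calc ξ1 * ((n : ℝ) + 2) ≤ ξ1 * (2 ^ (s + 1) * κ) := by
          apply mul_le_mul_of_nonneg_left hn2.1 hξ1p.le
      _ = (2 ^ (s + 1) * 2 ^ (s + 1)) * ((κ : ℝ) / 2 ^ κ) := by rw [hξ1]; ring
      _ ≤ 2 ^ (3 * s) * (1 / 2 ^ (100 * s)) := by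
          apply mul_le_mul hs2 h1 (by positivity) (by positivity)
      _ = 1 / 2 ^ (97 * s) := by
          rw [mul_one_div, div_eq_div_iff (by positivity) (by positivity), ← pow_add, one_mul]
          congr 1
          omega
  have hr2 : ξ2 * ((n : ℝ) + 2) ≤ 1 / 2 ^ (97 * s) := by
    have h1 := v5_r s lm (by omega) hlm1
    calc ξ2 * ((n : ℝ) + 2) ≤ ξ2 * (2 ^ (s + 1) * lm) := by
          apply mul_le_mul_of_nonneg_left hn2.2 hξ2p.le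
      _ = (2 ^ (s + 1) * 2 ^ (s + 1)) * ((lm : ℝ) / 2 ^ lm) := by rw [hξ2]; ring
      _ ≤ 2 ^ (3 * s) * (1 / 2 ^ (100 * s)) := by
          apply mul_le_mul hs2 h1 (by positivity) (by positivity)
      _ = 1 / 2 ^ (97 * s) := by
          rw [mul_one_div, div_eq_div_iff (by positivity) (by positivity), ← pow_add, one_mul]
          congr 1
          omega
  have hbr : (1152 * ((2 : ℝ) ^ n) ^ 2 * ξ1 ^ 2 * ξ2 ^ 2 +
        288 * (ξ1 ^ 2 * ξ2 + ξ1 * ξ2 ^ 2) * 2 ^ n * (n + 2)) ≤ 2 ^ 18 / 2 ^ (20 * s) := by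
    have e1 : (1152 * ((2 : ℝ) ^ n) ^ 2 * ξ1 ^ 2 * ξ2 ^ 2 +
        288 * (ξ1 ^ 2 * ξ2 + ξ1 * ξ2 ^ 2) * 2 ^ n * (n + 2)) =
        1152 * ((2 : ℝ) ^ n * ξ1 * ξ2) ^ 2 +
        288 * ((2 : ℝ) ^ n * ξ1 * ξ2) * (ξ1 * ((n : ℝ) + 2) + ξ2 * ((n : ℝ) + 2)) := by ring
    rw [e1, hprod]
    have e2 : (8 / (2 : ℝ) ^ (10 * s)) ^ 2 = 64 / 2 ^ (20 * s) := by
      rw [div_pow, ← pow_mul]
      norm_num
      congr 1
      ring
    rw [e2]
    have e3 : 288 * (8 / (2 : ℝ) ^ (10 * s)) * (ξ1 * ((n : ℝ) + 2) + ξ2 * ((n : ℝ) + 2)) ≤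
        4608 / 2 ^ (20 * s) := by
      calc 288 * (8 / (2 : ℝ) ^ (10 * s)) * (ξ1 * ((n : ℝ) + 2) + ξ2 * ((n : ℝ) + 2))
          ≤ 288 * (8 / (2 : ℝ) ^ (10 * s)) * (1 / 2 ^ (97 * s) + 1 / 2 ^ (97 * s)) := by
            gcongr
        _ = 4608 / 2 ^ (107 * s) := by
            rw [show 107 * s = 10 * s + 97 * s by ring, pow_add]
            field_simp
            norm_num
        _ ≤ 4608 / 2 ^ (20 * s) := by
            apply div_le_div_of_nonneg_left (by norm_num) (by positivity)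
            exact pow_le_pow_right₀ (by norm_num) (by omega)
    calc 1152 * (64 / (2 : ℝ) ^ (20 * s)) +
          288 * (8 / (2 : ℝ) ^ (10 * s)) * (ξ1 * ((n : ℝ) + 2) + ξ2 * ((n : ℝ) + 2))
        ≤ 1152 * (64 / (2 : ℝ) ^ (20 * s)) + 4608 / 2 ^ (20 * s) := by gcongr
      _ = 78336 / 2 ^ (20 * s) := by ring
      _ ≤ 2 ^ 18 / 2 ^ (20 * s) := by gcongr; norm_num
  have hnum : 2 * (s : ℝ) ^ 2 * (2 ^ 18 / 2 ^ (20 * s)) ≤ 1 / 2 ^ (18 * s) := by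
    have h1 : (s : ℝ) ^ 2 ≤ 2 ^ s := by exact_mod_cast v5_num s hs
    have h2 : (2 : ℝ) ^ 19 ≤ 2 ^ s := pow_le_pow_right₀ (by norm_num) (by omega)
    rw [le_div_iff₀ (by positivity)]
    have e : 2 * (s : ℝ) ^ 2 * (2 ^ 18 / 2 ^ (20 * s)) * 2 ^ (18 * s) =
        (s : ℝ) ^ 2 * 2 ^ 19 / 2 ^ (2 * s) := by
      rw [show 20 * s = 18 * s + 2 * s by ring, pow_add (2 : ℝ) (18 * s) (2 * s)]
      field_simp
    rw [e, div_le_one (by positivity), show 2 * s = s + s by ring, pow_add]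
    exact mul_le_mul h1 h2 (by positivity) (by positivity)
  calc ∑ a ∈ range (QA s ks ls), ∑ b ∈ range (QB s ks ls), Wrk κ lm s (100 * s) a b
      ≤ ∑ a ∈ range (QA s ks ls), ∑ b ∈ range (QB s ks ls),
        2 * (s : ℝ) ^ 2 * (pairN (QA s ks ls) (QB s ks ls) (2 ^ n) ξ1 ξ2 a b : ℝ) :=
        Finset.sum_le_sum (fun a _ => Finset.sum_le_sum (fun b _ => hpt a b))
    _ = 2 * (s : ℝ) ^ 2 * ∑ a ∈ range (QA s ks ls), ∑ b ∈ range (QB s ks ls),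
        (pairN (QA s ks ls) (QB s ks ls) (2 ^ n) ξ1 ξ2 a b : ℝ) := by
        rw [Finset.mul_sum]
        apply Finset.sum_congr rfl
        intro a _
        rw [Finset.mul_sum]
    _ ≤ 2 * (s : ℝ) ^ 2 * ((1152 * ((2 : ℝ) ^ n) ^ 2 * ξ1 ^ 2 * ξ2 ^ 2 +
        288 * (ξ1 ^ 2 * ξ2 + ξ1 * ξ2 ^ 2) * 2 ^ n * (n + 2)) * (QA s ks ls : ℕ) * (QB s ks ls : ℕ)) := by
        apply mul_le_mul_of_nonneg_left hmean (by positivity)
    _ ≤ 2 * (s : ℝ) ^ 2 * (2 ^ 18 / 2 ^ (20 * s) * (QA s ks ls : ℕ) * (QB s ks ls : ℕ)) := by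
        gcongr
    _ = (2 * (s : ℝ) ^ 2 * (2 ^ 18 / 2 ^ (20 * s))) * (QA s ks ls : ℕ) * (QB s ks ls : ℕ) := by ring
    _ ≤ _ := by gcongr

/-- `hom_mean` with `X = 2^(k+l-17s)`, `ξ1 = 2^(-k)`, `ξ2 = 2^(-l)`: each term `36 · 2^(-17 s)`; `36 s² ≤ 2^s`. -/
theorem Smq_mean (s ks ls : ℕ) (hs : 200 ≤ s) (hp : ParF s ks ls) :
    ∑ a ∈ range (QA s ks ls), ∑ b ∈ range (QB s ks ls),
      Smq (ks + Gc * s) (ls + Gc * s) s (100 * s) a b ≤
      1 / 2 ^ (16 * s) * (QA s ks ls) * (QB s ks ls) := by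
  classical
  obtain ⟨hs1, hk1, hl1, hkl, hlk⟩ := hp
  have hGc : Gc = 100000 := rfl
  set κ : ℕ := ks + Gc * s with hκ
  set lm : ℕ := ls + Gc * s with hlm
  have hκ1 : 200 * s ≤ κ := by rw [hκ, hGc]; omega
  have hlm1 : 200 * s ≤ lm := by rw [hlm, hGc]; omega
  have hQA : QA s ks ls = 2 ^ (2 * κ + lm + 100 * s) := by
    unfold QA; congr 1; rw [hκ, hlm, hGc]; ring
  have hQB : QB s ks ls = 2 ^ (κ + 2 * lm + 100 * s) := by
    unfold QB; congr 1; rw [hκ, hlm, hGc]; ring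
  have hone : ∀ x ∈ range s, ∀ y ∈ range s,
      ∑ a ∈ range (QA s ks ls), ∑ b ∈ range (QB s ks ls),
        (hom (2 ^ (2 * κ + lm + 100 * s)) (2 ^ (κ + 2 * lm + 100 * s))
        (2 ^ (κ - x + (lm - y) - 17 * s)) (1 / 2 ^ (κ - x)) (1 / 2 ^ (lm - y)) a b : ℝ) ≤
      36 / 2 ^ (17 * s) * (QA s ks ls) * (QB s ks ls) := by
    intro x hx y hy
    rw [Finset.mem_range] at hx hy
    rw [← hQA, ← hQB]
    have hm := hom_mean (QA s ks ls) (QB s ks ls) (2 ^ (κ - x + (lm - y) - 17 * s))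
      (1 / 2 ^ (κ - x)) (1 / 2 ^ (lm - y)) (by positivity) (by positivity)
      (by
        rw [hQA]
        push_cast
        rw [one_div_mul_eq_div, le_div_iff₀ (by positivity), ← pow_add]
        exact pow_le_pow_right₀ (by norm_num) (by omega))
      (by
        rw [hQB]
        push_cast
        rw [one_div_mul_eq_div, le_div_iff₀ (by positivity), ← pow_add]
        exact pow_le_pow_right₀ (by norm_num) (by omega))
    refine hm.trans (le_of_eq ?_)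
    push_cast
    have e : (36 : ℝ) * 2 ^ (κ - x + (lm - y) - 17 * s) * (1 / 2 ^ (κ - x)) * (1 / 2 ^ (lm - y)) =
        36 / 2 ^ (17 * s) := by
      rw [eq_div_iff (by positivity)]
      have e1 : (36 : ℝ) * 2 ^ (κ - x + (lm - y) - 17 * s) * (1 / 2 ^ (κ - x)) *
          (1 / 2 ^ (lm - y)) * 2 ^ (17 * s) =
          36 * (2 ^ (κ - x + (lm - y) - 17 * s + 17 * s) / (2 ^ ((κ - x) + (lm - y)))) := by
        rw [pow_add (2 : ℝ) _ (17 * s), pow_add (2 : ℝ) (κ - x) (lm - y)]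
        field_simp
      rw [e1, show κ - x + (lm - y) - 17 * s + 17 * s = (κ - x) + (lm - y) by omega,
        div_self (by positivity)]
      norm_num
    rw [e]
  have hnum : (s : ℝ) ^ 2 * (36 / 2 ^ (17 * s)) ≤ 1 / 2 ^ (16 * s) := by
    have h1 : 36 * s ^ 2 ≤ 2 ^ s := by
      clear hone hQA hQB hκ1 hlm1 hκ hlm hs1 hk1 hl1 hkl hlk
      induction s, hs using Nat.le_induction with
      | base => norm_num
      | succ s hs ih =>
        rw [pow_succ 2 s]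
        nlinarith [mul_le_mul hs hs (by norm_num) (by omega)]
    have h2 : 36 * (s : ℝ) ^ 2 ≤ 2 ^ s := by exact_mod_cast h1
    rw [mul_div_assoc', div_le_div_iff₀ (by positivity) (by positivity), one_mul,
      show 17 * s = s + 16 * s by ring, pow_add]
    have : (0 : ℝ) < 2 ^ (16 * s) := by positivity
    nlinarith
  calc ∑ a ∈ range (QA s ks ls), ∑ b ∈ range (QB s ks ls), Smq κ lm s (100 * s) a b
      = ∑ x ∈ range s, ∑ y ∈ range s, ∑ a ∈ range (QA s ks ls), ∑ b ∈ range (QB s ks ls),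
        (hom (2 ^ (2 * κ + lm + 100 * s)) (2 ^ (κ + 2 * lm + 100 * s))
        (2 ^ (κ - x + (lm - y) - 17 * s)) (1 / 2 ^ (κ - x)) (1 / 2 ^ (lm - y)) a b : ℝ) := by
        unfold Smq
        rw [Finset.sum_congr rfl (fun a _ => Finset.sum_comm), Finset.sum_comm]
        apply Finset.sum_congr rfl
        intro x _
        rw [Finset.sum_congr rfl (fun a _ => Finset.sum_comm), Finset.sum_comm]
    _ ≤ ∑ x ∈ range s, ∑ y ∈ range s, 36 / 2 ^ (17 * s) * (QA s ks ls : ℝ) * (QB s ks ls : ℝ) :=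
        Finset.sum_le_sum (fun x hx => Finset.sum_le_sum (fun y hy => hone x hx y hy))
    _ = ((s : ℝ) ^ 2 * (36 / 2 ^ (17 * s))) * (QA s ks ls : ℝ) * (QB s ks ls : ℝ) := by
        rw [Finset.sum_const, Finset.sum_const, Finset.card_range, nsmul_eq_mul, nsmul_eq_mul]
        ring
    _ ≤ _ := by gcongr

private theorem Wrk_nonneg (κ lm s e a b : ℕ) : 0 ≤ Wrk κ lm s e a b := by
  classical
  unfold Wrk
  split_ifs
  · positivity
  · exact le_rfl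

private theorem Smq_nonneg (κ lm s e a b : ℕ) : 0 ≤ Smq κ lm s e a b := by
  classical
  unfold Smq
  positivity

open Classical in
private theorem v5_cell (Y : ℕ → ℕ → ℝ) (hY : ∀ a b, 0 ≤ Y a b) (s ks ls u v : ℕ) (huv : u = v + s)
    (hm : ∑ a ∈ range (QA s ks ls), ∑ b ∈ range (QB s ks ls), Y a b ≤
      1 / 2 ^ u * (QA s ks ls) * (QB s ks ls)) :
    (((range (2 ^ (2 * ks + ls)) ×ˢ range (2 ^ (ks + 2 * ls))).filter (fun p : ℕ × ℕ =>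
      ¬ (∑ A ∈ range (2 ^ ((3 * Gc + 100) * s)), ∑ B ∈ range (2 ^ ((3 * Gc + 100) * s)),
        Y (p.1 * 2 ^ ((3 * Gc + 100) * s) + A) (p.2 * 2 ^ ((3 * Gc + 100) * s) + B) ≤
        (2 : ℝ) ^ (2 * (3 * Gc + 100) * s) / 2 ^ v))).card : ℝ) ≤
      1 / 2 ^ s * (2 ^ (2 * ks + ls) * 2 ^ (ks + 2 * ls)) := by
  set N : ℕ := (3 * Gc + 100) * s with hN
  have hQA : QA s ks ls = 2 ^ (2 * ks + ls) * 2 ^ N := by unfold QA; rw [← pow_add]
  have hQB : QB s ks ls = 2 ^ (ks + 2 * ls) * 2 ^ N := by unfold QB; rw [← pow_add]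
  rw [hQA, hQB] at hm
  have hc := cell_markov (2 ^ (2 * ks + ls)) (2 ^ (ks + 2 * ls)) (2 ^ N) (2 ^ N) (by positivity)
    (by positivity) Y hY
    (1 / 2 ^ u) (1 / 2 ^ v) (by positivity)
    (by push_cast at hm ⊢; exact hm)
  have hfil : (range (2 ^ (2 * ks + ls)) ×ˢ range (2 ^ (ks + 2 * ls))).filter (fun p : ℕ × ℕ =>
      ¬ (∑ A ∈ range (2 ^ N), ∑ B ∈ range (2 ^ N),
        Y (p.1 * 2 ^ N + A) (p.2 * 2 ^ N + B) ≤
        (2 : ℝ) ^ (2 * (3 * Gc + 100) * s) / 2 ^ v)) =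
      (range (2 ^ (2 * ks + ls)) ×ˢ range (2 ^ (ks + 2 * ls))).filter (fun p : ℕ × ℕ =>
      (1 / 2 ^ v : ℝ) * ((2 ^ N : ℕ) : ℝ) * ((2 ^ N : ℕ) : ℝ) <
        ∑ A ∈ range (2 ^ N), ∑ B ∈ range (2 ^ N),
        Y (p.1 * 2 ^ N + A) (p.2 * 2 ^ N + B)) := by
    apply Finset.filter_congr
    intro p _
    rw [not_le]
    have : (2 : ℝ) ^ (2 * (3 * Gc + 100) * s) / 2 ^ v =
        (1 / 2 ^ v : ℝ) * ((2 ^ N : ℕ) : ℝ) * ((2 ^ N : ℕ) : ℝ) := by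
      push_cast
      rw [show 2 * (3 * Gc + 100) * s = N + N by rw [hN]; ring, pow_add]
      ring
    rw [this]
  rw [hfil]
  refine hc.trans (le_of_eq ?_)
  push_cast
  have e : (1 / 2 ^ u : ℝ) / (1 / 2 ^ v) = 1 / 2 ^ s := by
    rw [div_div_eq_mul_div, div_one, one_div_mul_eq_div, div_eq_div_iff (by positivity) (by positivity),
      ← pow_add, one_mul, huv]
  rw [e]
  ring

open Classical in
/-- `cell_markov` -/
theorem w_frac (s ks ls : ℕ) (hs : 200 ≤ s) (hp : ParF s ks ls) :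
    (((range (2 ^ (2 * ks + ls)) ×ˢ range (2 ^ (ks + 2 * ls))).filter (fun p : ℕ × ℕ =>
      ¬ GenV s ks ls p.1 p.2)).card : ℝ) ≤
      2 / 2 ^ s * (2 ^ (2 * ks + ls) * 2 ^ (ks + 2 * ls)) := by
  have h1 := v5_cell (fun a b => Wrk (ks + Gc * s) (ls + Gc * s) s (100 * s) a b)
    (fun a b => Wrk_nonneg _ _ _ _ a b) s ks ls (18 * s) (17 * s) (by ring) (Wrk_mean s ks ls hs hp)
  have h2 := v5_cell (fun a b => Smq (ks + Gc * s) (ls + Gc * s) s (100 * s) a b)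
    (fun a b => Smq_nonneg _ _ _ _ a b) s ks ls (16 * s) (15 * s) (by ring) (Smq_mean s ks ls hs hp)
  have hsub : (range (2 ^ (2 * ks + ls)) ×ˢ range (2 ^ (ks + 2 * ls))).filter (fun p : ℕ × ℕ =>
      ¬ GenV s ks ls p.1 p.2) ⊆
      (range (2 ^ (2 * ks + ls)) ×ˢ range (2 ^ (ks + 2 * ls))).filter (fun p : ℕ × ℕ =>
      ¬ (∑ A ∈ range (2 ^ ((3 * Gc + 100) * s)), ∑ B ∈ range (2 ^ ((3 * Gc + 100) * s)),
        Wrk (ks + Gc * s) (ls + Gc * s) s (100 * s) (p.1 * 2 ^ ((3 * Gc + 100) * s) + A)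
          (p.2 * 2 ^ ((3 * Gc + 100) * s) + B) ≤
        (2 : ℝ) ^ (2 * (3 * Gc + 100) * s) / 2 ^ (17 * s))) ∪
      (range (2 ^ (2 * ks + ls)) ×ˢ range (2 ^ (ks + 2 * ls))).filter (fun p : ℕ × ℕ =>
      ¬ (∑ A ∈ range (2 ^ ((3 * Gc + 100) * s)), ∑ B ∈ range (2 ^ ((3 * Gc + 100) * s)),
        Smq (ks + Gc * s) (ls + Gc * s) s (100 * s) (p.1 * 2 ^ ((3 * Gc + 100) * s) + A)
          (p.2 * 2 ^ ((3 * Gc + 100) * s) + B) ≤
        (2 : ℝ) ^ (2 * (3 * Gc + 100) * s) / 2 ^ (15 * s))) := by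
    intro p hp
    rw [Finset.mem_filter] at hp
    rw [Finset.mem_union, Finset.mem_filter, Finset.mem_filter]
    by_contra hcon
    push Not at hcon
    exact hp.2 ⟨hcon.1 hp.1, hcon.2 hp.1⟩
  have hcard := (Finset.card_le_card hsub).trans (Finset.card_union_le _ _)
  have hcard' := (Nat.cast_le (α := ℝ)).2 hcard
  push_cast at hcard'
  calc _ ≤ _ := hcard'
    _ ≤ 1 / 2 ^ s * (2 ^ (2 * ks + ls) * 2 ^ (ks + 2 * ls)) +
        1 / 2 ^ s * (2 ^ (2 * ks + ls) * 2 ^ (ks + 2 * ls)) := add_le_add h1 h2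
    _ = _ := by ring

open Classical in
/-- `GenF` fails rarely: `gd_frac`, `gi_frac`, `gt_frac` -/
theorem f_frac (s ks ls : ℕ) (hs : 200 ≤ s) (hp : ParF s ks ls) :
    (((range (2 ^ (2 * ks + ls)) ×ˢ range (2 ^ (ks + 2 * ls))).filter (fun p : ℕ × ℕ =>
      ¬ GenF s ks ls p.1 p.2)).card : ℝ) ≤
      (36 * (6 * Gc * s + 1) ^ 3 + 2) / 2 ^ s * (2 ^ (2 * ks + ls) * 2 ^ (ks + 2 * ls)) := by
  have h1 := gd_frac s ks ls hp
  have h2 := gi_frac s ks ls hs hp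
  have h3 := gt_frac s ks ls hs hp
  have hsub : (range (2 ^ (2 * ks + ls)) ×ˢ range (2 ^ (ks + 2 * ls))).filter (fun p : ℕ × ℕ =>
      ¬ GenF s ks ls p.1 p.2) ⊆
      ((range (2 ^ (2 * ks + ls)) ×ˢ range (2 ^ (ks + 2 * ls))).filter (fun p : ℕ × ℕ =>
      ¬ (∀ j0 j1 j2 : ℤ, -(4 * Gc * s : ℤ) ≤ j1 → j1 ≤ j0 → -(4 * Gc * s : ℤ) ≤ j2 → j2 ≤ j0 →
        j0 ≤ 2 * Gc * s →
        (cntH (x0 ks ls p.1) (y0 ks ls p.2) ((2 : ℝ) ^ (ks + j1)) ((2 : ℝ) ^ (ls + j2))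
          ((2 : ℝ) ^ (j0 - ks - ls)) : ℝ) ≤ (2 : ℝ) ^ (s + j0 + j1 + j2))) ∪
      (range (2 ^ (2 * ks + ls)) ×ˢ range (2 ^ (ks + 2 * ls))).filter (fun p : ℕ × ℕ =>
      ¬ (∀ i : ℕ, (cntH (x0 ks ls p.1) (y0 ks ls p.2) ((2 : ℝ) ^ (ks + (Gc + 60) * s))
        ((2 : ℝ) ^ (ls + (Gc + 60) * s)) ((2 : ℝ) ^ (i + 4 * Gc * s : ℕ) / 2 ^ (ks + ls)) : ℝ) ≤
        (2 : ℝ) ^ (12 * Gc * s + 2 * i)))) ∪
      (range (2 ^ (2 * ks + ls)) ×ˢ range (2 ^ (ks + 2 * ls))).filter (fun p : ℕ × ℕ =>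
      ¬ (∑ A ∈ range (2 ^ ((3 * Gc + 100) * s)), ∑ B ∈ range (2 ^ ((3 * Gc + 100) * s)),
        Ync s ks ls (p.1 * 2 ^ ((3 * Gc + 100) * s) + A) (p.2 * 2 ^ ((3 * Gc + 100) * s) + B) ≤
        (2 : ℝ) ^ (2 * (3 * Gc + 100) * s) / 2 ^ (30 * s))) := by
    intro p hp
    rw [Finset.mem_filter] at hp
    rw [Finset.mem_union, Finset.mem_union, Finset.mem_filter, Finset.mem_filter, Finset.mem_filter]
    by_contra hcon
    rw [not_or, not_or] at hcon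
    obtain ⟨⟨c1, c2⟩, c3⟩ := hcon
    have d1 := not_not.1 (fun h => c1 ⟨hp.1, h⟩)
    have d2 := not_not.1 (fun h => c2 ⟨hp.1, h⟩)
    have d3 := not_not.1 (fun h => c3 ⟨hp.1, h⟩)
    exact hp.2 ⟨d1, d2, d3⟩
  have hcard := (Finset.card_le_card hsub).trans ((Finset.card_union_le _ _).trans
    (Nat.add_le_add_right (Finset.card_union_le _ _) _))
  have hcard' := (Nat.cast_le (α := ℝ)).2 hcard
  push_cast at hcard'
  calc _ ≤ _ := hcard'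
    _ ≤ 36 * (6 * Gc * s + 1) ^ 3 / 2 ^ s * (2 ^ (2 * ks + ls) * 2 ^ (ks + 2 * ls)) +
        1 / 2 ^ s * (2 ^ (2 * ks + ls) * 2 ^ (ks + 2 * ls)) +
        1 / 2 ^ s * (2 ^ (2 * ks + ls) * 2 ^ (ks + 2 * ls)) := add_le_add (add_le_add h1 h2) h3
    _ = _ := by ring

open Classical in
/-- Together: the proportion of non generic coarse pairs is at most `1/s` for large `s`. -/
theorem gen_frac : ∃ s0 : ℕ, ∀ s ≥ s0, ∀ ks ls : ℕ, ParF s ks ls →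
    (((range (2 ^ (2 * ks + ls)) ×ˢ range (2 ^ (ks + 2 * ls))).filter (fun p : ℕ × ℕ =>
      ¬ (GenF s ks ls p.1 p.2 ∧ GenV s ks ls p.1 p.2))).card : ℝ) ≤
      1 / s * (2 ^ (2 * ks + ls) * 2 ^ (ks + 2 * ls)) := by
  have hlim : Filter.Tendsto (fun n : ℕ => (36 * (6 * (Gc : ℝ) + 1) ^ 3 + 4) *
      ((n : ℝ) ^ 4 / (2 : ℝ) ^ n)) Filter.atTop (nhds 0) := by
    have := (tendsto_pow_const_div_const_pow_of_one_lt 4 (one_lt_two : (1 : ℝ) < 2)).const_mul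
      (36 * (6 * (Gc : ℝ) + 1) ^ 3 + 4)
    simpa using this
  have hev := hlim.eventually (gt_mem_nhds (zero_lt_one : (0 : ℝ) < 1))
  obtain ⟨s1, hs1⟩ := Filter.eventually_atTop.1 hev
  refine ⟨max s1 200, fun s hs ks ls hp => ?_⟩
  have hs200 : 200 ≤ s := le_of_max_le_right hs
  have hb := hs1 s (le_of_max_le_left hs)
  have h1 := f_frac s ks ls hs200 hp
  have h2 := w_frac s ks ls hs200 hp
  have hsub : (range (2 ^ (2 * ks + ls)) ×ˢ range (2 ^ (ks + 2 * ls))).filter (fun p : ℕ × ℕ =>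
      ¬ (GenF s ks ls p.1 p.2 ∧ GenV s ks ls p.1 p.2)) ⊆
      (range (2 ^ (2 * ks + ls)) ×ˢ range (2 ^ (ks + 2 * ls))).filter (fun p : ℕ × ℕ =>
      ¬ GenF s ks ls p.1 p.2) ∪
      (range (2 ^ (2 * ks + ls)) ×ˢ range (2 ^ (ks + 2 * ls))).filter (fun p : ℕ × ℕ =>
      ¬ GenV s ks ls p.1 p.2) := by
    intro p hp
    rw [Finset.mem_filter] at hp
    rw [Finset.mem_union, Finset.mem_filter, Finset.mem_filter]
    by_contra hcon
    push Not at hcon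
    exact hp.2 ⟨hcon.1 hp.1, hcon.2 hp.1⟩
  have hcard := (Finset.card_le_card hsub).trans (Finset.card_union_le _ _)
  have hcard' := (Nat.cast_le (α := ℝ)).2 hcard
  push_cast at hcard'
  have hsr : (1 : ℝ) ≤ s := by exact_mod_cast (by omega : 1 ≤ s)
  have hkey : (36 * (6 * (Gc : ℝ) * s + 1) ^ 3 + 4) / 2 ^ s ≤ 1 / s := by
    rw [div_le_div_iff₀ (by positivity) (by positivity), one_mul]
    have h3 : (36 * (6 * (Gc : ℝ) * s + 1) ^ 3 + 4) * s ≤ (36 * (6 * (Gc : ℝ) + 1) ^ 3 + 4) * (s : ℝ) ^ 4 := by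
      have a1 : (6 * (Gc : ℝ) * s + 1) ≤ (6 * (Gc : ℝ) + 1) * s := by nlinarith
      have a2 : (6 * (Gc : ℝ) * s + 1) ^ 3 ≤ ((6 * (Gc : ℝ) + 1) * s) ^ 3 := by gcongr
      have a3 : (1 : ℝ) ≤ (s : ℝ) ^ 3 := one_le_pow₀ hsr
      calc (36 * (6 * (Gc : ℝ) * s + 1) ^ 3 + 4) * s
          ≤ (36 * ((6 * (Gc : ℝ) + 1) * s) ^ 3 + 4 * (s : ℝ) ^ 3) * s := by
            gcongr
            linarith
        _ = _ := by ring
    have h4 : (36 * (6 * (Gc : ℝ) + 1) ^ 3 + 4) * (s : ℝ) ^ 4 ≤ 2 ^ s := by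
      have h5 : (36 * (6 * (Gc : ℝ) + 1) ^ 3 + 4) * ((s : ℝ) ^ 4 / 2 ^ s) ≤ 1 := hb.le
      rw [mul_div_assoc', div_le_one (by positivity)] at h5
      exact h5
    exact h3.trans h4
  calc _ ≤ _ := hcard'
    _ ≤ (36 * (6 * Gc * s + 1) ^ 3 + 2) / 2 ^ s * (2 ^ (2 * ks + ls) * 2 ^ (ks + 2 * ls)) +
        2 / 2 ^ s * (2 ^ (2 * ks + ls) * 2 ^ (ks + 2 * ls)) := add_le_add h1 h2
    _ = (36 * (6 * (Gc : ℝ) * s + 1) ^ 3 + 4) / 2 ^ s * (2 ^ (2 * ks + ls) * 2 ^ (ks + 2 * ls)) := by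
        ring
    _ ≤ _ := by gcongr

end MP_5e4520_nt.Ex
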