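import Pool.Agent.Lib.MP_5e4520_ntE.S3
import Pool.Agent.Lib.MP_5e4520_ntE.V5
set_option autoImplicit false

/-!
# Small blocks: the theorem
-/

namespace MP_5e4520_nt.Ex

open Finset

/-- JOB S4.  `a3 = 1/(64 G)`, `c = 1/(2·10^6)`.  Base point `(2ks+ls, ks+2ls, kg, lg)`, fibres `F_p`.  By `EE_cond`, `fib_X`, `fib_Y`,
`fib_XY` the deficits and `I` are averages over `p ∈ S` of the fibre quantities `3σ' - ent F_p X` (`≥ 0`, `ent_le_N` with
`image_div_card`, `fib_div1`), `3σ' - ent F_p Y`, `I(p) = ent F_p X + ent F_p Y - ent F_p (X,Y)` (`≥ 0` by `info` with `N = False`).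
Markov (`markovS`): the deficits are `> s/8` for at most `|S|/8` points each (`a3 G s/(s/8) = 1/8`).  Non generic
coarse pairs: at most `Λ |S|/s ≤ |S|/8` points (`prefix_prob` with `gen_frac`).  For the other `≥ 5|S|/8` points `fib_core2`.
Hence `I ≥ (5/8) s²/(10^6 2^(12s))`. -/
theorem R2S : ∃ a3 c : ℝ, 0 < a3 ∧ 0 < c ∧ ∀ Λ : ℕ, 1 ≤ Λ → ∃ s0 : ℕ, ∀ s ≥ s0,
    ∀ (M lo hi : ℕ) (S : Finset Pt), Sys M (12 * s) Λ lo hi S →
    ∀ ks ls kg lg : ℕ, ParF s ks ls → lo + s ≤ ks → lo + s ≤ ls →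
    ks + Gc * s + (ls + Gc * s) ≤ hi → ks + Gc * s ≤ kg → ls + Gc * s ≤ lg →
    2 * ks + ls + 3 * (Gc * s) ≤ M → ks + 2 * ls + 3 * (Gc * s) ≤ M → kg ≤ M → lg ≤ M →
    3 * (Gc * s : ℕ) - (EE M S (2 * ks + ls + 3 * (Gc * s)) (ks + 2 * ls) kg lg -
      EE M S (2 * ks + ls) (ks + 2 * ls) kg lg) ≤ a3 * (Gc * s : ℕ) →
    3 * (Gc * s : ℕ) - (EE M S (2 * ks + ls) (ks + 2 * ls + 3 * (Gc * s)) kg lg -
      EE M S (2 * ks + ls) (ks + 2 * ls) kg lg) ≤ a3 * (Gc * s : ℕ) →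
    c * ((s : ℝ) ^ 2 / 2 ^ (12 * s)) ≤
      EE M S (2 * ks + ls + 3 * (Gc * s)) (ks + 2 * ls) kg lg +
      EE M S (2 * ks + ls) (ks + 2 * ls + 3 * (Gc * s)) kg lg -
      EE M S (2 * ks + ls) (ks + 2 * ls) kg lg -
      EE M S (2 * ks + ls + 3 * (Gc * s)) (ks + 2 * ls + 3 * (Gc * s)) kg lg := by
  classical
  refine ⟨1 / (64 * Gc), 1 / (2 * 10 ^ 6), by unfold Gc; norm_num, by norm_num, ?_⟩
  intro Λ hΛ
  obtain ⟨s1, h1⟩ := fib_core2
  obtain ⟨s2, h2⟩ := gen_frac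
  refine ⟨max (max s1 s2) (8 * Λ), ?_⟩
  intro s hs M lo hi S hS ks ls kg lg hp hlk hll hhi hkg hlg hM1 hM2 hkM hlM hdX hdY
  have hs1 : s1 ≤ s := (le_max_left s1 s2).trans ((le_max_left _ _).trans hs)
  have hs2 : s2 ≤ s := (le_max_right s1 s2).trans ((le_max_left _ _).trans hs)
  have hs3 : 8 * Λ ≤ s := (le_max_right _ _).trans hs
  have hs3' : (8 : ℝ) * Λ ≤ s := by exact_mod_cast hs3
  have hΛ' : (1 : ℝ) ≤ Λ := by exact_mod_cast hΛ
  have hspos : (0 : ℝ) < s := by linarith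
  have hGc : (0 : ℝ) < Gc := by unfold Gc; norm_num
  set a := 2 * ks + ls with ha
  set b := ks + 2 * ls with hb
  set n := 3 * (Gc * s) with hn
  have hnR : (3 * (Gc * s : ℕ) : ℝ) = (n : ℝ) := by rw [hn]; push_cast; ring
  rw [hnR] at hdX hdY
  -- S is nonempty
  have hSc : 0 < S.card := by
    rcases Nat.eq_zero_or_pos S.card with h | h
    · have h3 := hS.card
      rw [h, Nat.mul_zero] at h3
      have : 0 < 4 ^ M := by positivity
      omega
    · exact h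
  have hSR : (0 : ℝ) < S.card := by exact_mod_cast hSc
  set F : Pt → Finset Pt := fun p => fib M S a b kg lg p with hF
  set X : Pt → ℕ := fun x => pre M (a + n) x.1 with hX
  set Y : Pt → ℕ := fun x => pre M (b + n) x.2.1 with hY
  have hFne : ∀ p ∈ S, (F p).Nonempty := by
    intro p hpS
    refine ⟨p, ?_⟩
    simp only [hF, fib, mem_filter]
    exact ⟨hpS, trivial⟩
  have eX : EE M S (a + n) b kg lg - EE M S a b kg lg = (∑ p ∈ S, ent (F p) X) / S.card := by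
    rw [EE_cond M S a b kg lg (a + n) b kg lg (Nat.le_add_right _ _) le_rfl le_rfl le_rfl]
    congr 1
    exact sum_congr rfl (fun p _ => fib_X M S a b kg lg (a + n) p)
  have eY : EE M S a (b + n) kg lg - EE M S a b kg lg = (∑ p ∈ S, ent (F p) Y) / S.card := by
    rw [EE_cond M S a b kg lg a (b + n) kg lg le_rfl (Nat.le_add_right _ _) le_rfl le_rfl]
    congr 1
    exact sum_congr rfl (fun p _ => fib_Y M S a b kg lg (b + n) p)
  have eXY : EE M S (a + n) (b + n) kg lg - EE M S a b kg lg =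
      (∑ p ∈ S, ent (F p) (fun x => (X x, Y x))) / S.card := by
    rw [EE_cond M S a b kg lg (a + n) (b + n) kg lg (Nat.le_add_right _ _) (Nat.le_add_right _ _)
      le_rfl le_rfl]
    congr 1
    exact sum_congr rfl (fun p _ => fib_XY M S a b kg lg (a + n) (b + n) p)
  have hXn : ∀ p ∈ S, ent (F p) X ≤ n := by
    intro p hpS
    exact S3_ent_le (hFne p hpS) X n (pre M a p.1)
      (fun x hx => fib_div1 M S a b kg lg n hM1 p x hx)
  have hYn : ∀ p ∈ S, ent (F p) Y ≤ n := by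
    intro p hpS
    exact S3_ent_le (hFne p hpS) Y n (pre M b p.2.1)
      (fun x hx => fib_div2 M S a b kg lg n hM2 p x hx)
  have hI0 : ∀ p ∈ S, 0 ≤ ent (F p) X + ent (F p) Y - ent (F p) (fun x => (X x, Y x)) := by
    intro p hpS
    refine le_trans ?_ (info (hFne p hpS) X Y (fun _ _ => False) (fun _ _ => id))
    positivity
  -- the sums
  have sumc : ∀ u : Pt → ℝ, (∑ p ∈ S, ((n : ℝ) - u p)) / S.card = n - (∑ p ∈ S, u p) / S.card := by
    intro u
    rw [sum_sub_distrib, sum_const, nsmul_eq_mul, sub_div, mul_comm (S.card : ℝ), mul_div_assoc,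
      div_self hSR.ne', mul_one]
  have ha3 : 1 / (64 * (Gc : ℝ)) * (Gc * s : ℕ) = s / 64 := by
    push_cast
    field_simp
  rw [ha3] at hdX hdY
  have mX : (∑ p ∈ S, ((n : ℝ) - ent (F p) X)) / S.card ≤ (s : ℝ) / 64 := by
    rw [sumc, ← eX]; exact hdX
  have mY : (∑ p ∈ S, ((n : ℝ) - ent (F p) Y)) / S.card ≤ (s : ℝ) / 64 := by
    rw [sumc, ← eY]; exact hdY
  set T1 := S.filter (fun p => (s : ℝ) / 8 < n - ent (F p) X) with hT1
  set T2 := S.filter (fun p => (s : ℝ) / 8 < n - ent (F p) Y) with hT2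
  set T3 := S.filter (fun p => ¬ (GenF s ks ls (pre M a p.1) (pre M b p.2.1) ∧
    GenV s ks ls (pre M a p.1) (pre M b p.2.1))) with hT3
  have hm8 : (s : ℝ) / 64 / (s / 8) = 1 / 8 := by field_simp; norm_num
  have t1 : (T1.card : ℝ) ≤ 1 / 8 * S.card := by
    rw [← hm8]
    exact markovS S (fun p => (n : ℝ) - ent (F p) X) (fun p hpS => by linarith [hXn p hpS]) _ _
      (by positivity) mX T1 (filter_subset _ _) (fun p hpT => (mem_filter.1 hpT).2.le)
  have t2 : (T2.card : ℝ) ≤ 1 / 8 * S.card := by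
    rw [← hm8]
    exact markovS S (fun p => (n : ℝ) - ent (F p) Y) (fun p hpS => by linarith [hYn p hpS]) _ _
      (by positivity) mY T2 (filter_subset _ _) (fun p hpT => (mem_filter.1 hpT).2.le)
  have t3 : (T3.card : ℝ) ≤ 1 / 8 * S.card := by
    have g1 := prefix_prob hS a b (by omega) (by omega)
      (fun x y => ¬ (GenF s ks ls x y ∧ GenV s ks ls x y))
    have g2 := h2 s hs2 ks ls hp
    have g3 : (T3.card : ℝ) ≤ Λ * S.card * (1 / s * (2 ^ a * 2 ^ b)) / 2 ^ (a + b) := by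
      refine le_trans (le_trans (le_of_eq ?_) g1) (div_le_div_of_nonneg_right
        (mul_le_mul_of_nonneg_left (le_trans (le_of_eq ?_) g2) (by positivity)) (by positivity))
      · rw [hT3]
        congr!
      · congr!
    refine g3.trans ?_
    rw [div_le_iff₀ (by positivity)]
    calc (Λ : ℝ) * S.card * (1 / s * (2 ^ a * 2 ^ b))
      _ = (Λ : ℝ) / s * (S.card * 2 ^ (a + b)) := by rw [pow_add]; ring
      _ ≤ 1 / 8 * (S.card * 2 ^ (a + b)) := by
          apply mul_le_mul_of_nonneg_right _ (by positivity)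
          rw [div_le_div_iff₀ hspos (by norm_num)]
          linarith
      _ = 1 / 8 * S.card * 2 ^ (a + b) := by ring
  set G := S \ (T1 ∪ (T2 ∪ T3)) with hG
  have hGc2 : (5 : ℝ) / 8 * S.card ≤ G.card := by
    have u1 : S.card ≤ G.card + (T1 ∪ (T2 ∪ T3)).card := by
      rw [hG]
      exact tsub_le_iff_right.1 (le_card_sdiff _ _)
    have u2 : (T1 ∪ (T2 ∪ T3)).card ≤ T1.card + (T2.card + T3.card) :=
      (card_union_le _ _).trans (Nat.add_le_add_left (card_union_le _ _) _)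
    have u3 : (S.card : ℝ) ≤ G.card + (T1.card + (T2.card + T3.card)) := by
      exact_mod_cast u1.trans (Nat.add_le_add_left u2 _)
    linarith
  have hGI : ∀ p ∈ G, (s : ℝ) ^ 2 / (10 ^ 6 * 2 ^ (12 * s)) ≤
      ent (F p) X + ent (F p) Y - ent (F p) (fun x => (X x, Y x)) := by
    intro p hpG
    rw [hG, mem_sdiff, mem_union, mem_union] at hpG
    obtain ⟨hpS, hpn⟩ := hpG
    push Not at hpn
    obtain ⟨q1, q2, q3⟩ := hpn
    have r1 : (n : ℝ) - ent (F p) X ≤ s / 8 := by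
      by_contra hc
      exact q1 (mem_filter.2 ⟨hpS, not_le.1 hc⟩)
    have r2 : (n : ℝ) - ent (F p) Y ≤ s / 8 := by
      by_contra hc
      exact q2 (mem_filter.2 ⟨hpS, not_le.1 hc⟩)
    have r3 : GenF s ks ls (pre M a p.1) (pre M b p.2.1) ∧
        GenV s ks ls (pre M a p.1) (pre M b p.2.1) := by
      by_contra hc
      exact q3 (mem_filter.2 ⟨hpS, hc⟩)
    rw [← hnR] at r1 r2
    exact h1 s hs1 Λ M lo hi S hS ks ls kg lg hp hlk hll hhi hkg hlg hM1 hM2 hkM hlM p hpS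
      r3.1 r3.2 r1 r2
  have tot : EE M S (a + n) b kg lg + EE M S a (b + n) kg lg - EE M S a b kg lg -
      EE M S (a + n) (b + n) kg lg =
      (∑ p ∈ S, (ent (F p) X + ent (F p) Y - ent (F p) (fun x => (X x, Y x)))) / S.card := by
    rw [sum_sub_distrib, sum_add_distrib, sub_div, add_div, ← eX, ← eY, ← eXY]
    ring
  rw [tot, le_div_iff₀ hSR]
  calc 1 / (2 * 10 ^ 6) * ((s : ℝ) ^ 2 / 2 ^ (12 * s)) * S.card
      ≤ (5 / 8 * S.card) * ((s : ℝ) ^ 2 / (10 ^ 6 * 2 ^ (12 * s))) := by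
        have : (s : ℝ) ^ 2 / (10 ^ 6 * 2 ^ (12 * s)) = 1 / 10 ^ 6 * ((s : ℝ) ^ 2 / 2 ^ (12 * s)) := by
          field_simp
        rw [this]
        have h5 : 0 ≤ ((s : ℝ) ^ 2 / 2 ^ (12 * s)) * S.card := by positivity
        nlinarith
    _ ≤ G.card * ((s : ℝ) ^ 2 / (10 ^ 6 * 2 ^ (12 * s))) :=
        mul_le_mul_of_nonneg_right hGc2 (by positivity)
    _ = ∑ p ∈ G, (s : ℝ) ^ 2 / (10 ^ 6 * 2 ^ (12 * s)) := by rw [sum_const, nsmul_eq_mul]
    _ ≤ ∑ p ∈ G, (ent (F p) X + ent (F p) Y - ent (F p) (fun x => (X x, Y x))) :=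
        sum_le_sum hGI
    _ ≤ ∑ p ∈ S, (ent (F p) X + ent (F p) Y - ent (F p) (fun x => (X x, Y x))) :=
        sum_le_sum_of_subset_of_nonneg sdiff_subset (fun p hpS _ => hI0 p hpS)

end MP_5e4520_nt.Ex
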