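import Pool.Agent.Lib.MP_5e4520_ntE.XDefs
set_option autoImplicit false

namespace MP_5e4520_nt.Ex

open Finset

theorem ct_nonneg (w Q : ℕ) (h : ℤ) : 0 ≤ ct w Q h := by
  unfold ct; positivity

/-- JOB Fo2.  `ct` at nonnegative integers is helper25's `ctri`, and `ct` is `Q`-periodic. -/
theorem ct_nat (w Q h : ℕ) : ct w Q (h : ℤ) = ctri w Q h := by
  unfold ct ctri
  simp only [Int.cast_natCast]

theorem ct_periodic (w Q : ℕ) (hQ : 0 < Q) (h : ℤ) : ct w Q (h + Q) = ct w Q h := by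
  have hQ' : (Q : ℝ) ≠ 0 := by positivity
  unfold ct
  have h1 : ∑ i ∈ range w, ee (i * (((h + Q : ℤ) : ℝ) / Q)) = ∑ i ∈ range w, ee (i * ((h : ℝ) / Q)) := by
    refine sum_congr rfl fun i _ => ?_
    have e : (i : ℝ) * (((h + Q : ℤ) : ℝ) / Q) = i * ((h : ℝ) / Q) + ((i : ℤ) : ℝ) := by
      push_cast
      field_simp
    rw [e, ee_add_int]
  rw [h1]

/-- sums of `Q`-periodic functions over `SR Q` and `range Q` agree (`Q` even) -/
theorem sum_SR {β : Type*} [AddCommMonoid β] (Q : ℕ) (hQ : 0 < Q) (he : 2 ∣ Q) (f : ℤ → β)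
    (hf : ∀ h, f (h + Q) = f h) : ∑ h ∈ SR Q, f h = ∑ h ∈ range Q, f (h : ℤ) := by
  obtain ⟨m, rfl⟩ := he
  have hm : 2 * m / 2 = m := by omega
  unfold SR
  rw [hm]
  refine sum_nbij' (fun h : ℤ => if 0 ≤ h then h.toNat else (h + (2 * m : ℕ)).toNat)
    (fun k : ℕ => if k < m then (k : ℤ) else (k : ℤ) - (2 * m : ℕ)) ?_ ?_ ?_ ?_ ?_
  · intro h hh
    rw [mem_Ico] at hh
    rw [mem_range]
    split_ifs <;> omega
  · intro k hk
    rw [mem_range] at hk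
    rw [mem_Ico]
    split_ifs <;> omega
  · intro h hh
    rw [mem_Ico] at hh
    by_cases c : 0 ≤ h
    · rw [if_pos c, if_pos (by omega)]
      omega
    · rw [if_neg c, if_neg (by omega)]
      omega
  · intro k hk
    rw [mem_range] at hk
    by_cases c : k < m
    · rw [if_pos c, if_pos (by omega)]
      omega
    · rw [if_neg c, if_neg (by omega)]
      omega
  · intro h hh
    rw [mem_Ico] at hh
    by_cases c : 0 ≤ h
    · rw [if_pos c]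
      congr 1
      omega
    · rw [if_neg c, ← hf h]
      congr 1
      omega

/-- Fourier expansion of `btri` in signed frequencies (`btri_fourier`) -/
theorem btri_ct (w Q : ℕ) (hQ : 0 < Q) (he : 2 ∣ Q) (x : ℤ) :
    ((btri w Q x : ℝ) : ℂ) = ∑ h ∈ SR Q, ((ct w Q h : ℝ) : ℂ) * ee ((h : ℝ) * x / Q) := by
  have hQ' : (Q : ℝ) ≠ 0 := by positivity
  rw [btri_fourier w Q hQ x, sum_SR Q hQ he (fun h : ℤ => ((ct w Q h : ℝ) : ℂ) * ee ((h : ℝ) * x / Q))]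
  · refine sum_congr rfl fun h _ => ?_
    rw [ct_nat, Int.cast_natCast]
  · intro h
    rw [ct_periodic w Q hQ]
    congr 1
    have e : (((h + Q : ℤ) : ℝ)) * x / Q = (h : ℝ) * x / Q + (x : ℝ) := by
      push_cast
      field_simp
    rw [e, ee_add_int]

theorem ct_zero (w Q : ℕ) (hw : 0 < w) : ct w Q 0 = (w : ℝ) / Q := by
  have h := ct_nat w Q 0
  rw [Nat.cast_zero] at h
  rw [h, ctri_at_zero w Q hw]

theorem ct_le (w Q : ℕ) (hw : 0 < w) (h : ℤ) : ct w Q h ≤ (w : ℝ) / Q := by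
  have hw' : (w : ℝ) ≠ 0 := by positivity
  unfold ct
  have h1 := pow_le_pow_left₀ (norm_nonneg _) (dir_le w ((h : ℝ) / Q)) 2
  calc ‖∑ i ∈ range w, ee (i * ((h : ℝ) / Q))‖ ^ 2 / (w * Q) ≤ (w : ℝ) ^ 2 / (w * Q) :=
        div_le_div_of_nonneg_right h1 (by positivity)
    _ = (w : ℝ) / Q := by
        rw [sq, mul_div_mul_left _ _ hw']

/-- `|D_w(h/Q)| ≤ 1/(2‖h/Q‖) = Q/(2|h|)` for `|h| ≤ Q/2` -/
theorem ct_dec (w Q : ℕ) (hw : 0 < w) (hQ : 0 < Q) (h : ℤ) (h0 : h ≠ 0) (h1 : 2 * |h| ≤ (Q : ℤ)) :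
    ct w Q h ≤ (Q : ℝ) / (4 * w * (h : ℝ) ^ 2) := by
  have hw' : (0 : ℝ) < w := by exact_mod_cast hw
  have hQ' : (0 : ℝ) < Q := by exact_mod_cast hQ
  have hh : (0 : ℝ) < |(h : ℝ)| := abs_pos.2 (by exact_mod_cast h0)
  have h1' : 2 * |(h : ℝ)| ≤ Q := by exact_mod_cast h1
  have e1 : |(h : ℝ) / Q| = |(h : ℝ)| / Q := by rw [abs_div, abs_of_pos hQ']
  have e2 : nd ((h : ℝ) / Q) = |(h : ℝ)| / Q := by
    have := nd_eq_of ((h : ℝ) / Q) 0 (by
      rw [Int.cast_zero, sub_zero, e1, div_le_iff₀ hQ']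
      linarith)
    rw [this, Int.cast_zero, sub_zero, e1]
  have h2 : 0 < nd ((h : ℝ) / Q) := by
    rw [e2]
    positivity
  have h3 := pow_le_pow_left₀ (norm_nonneg _) (dir_le_inv w ((h : ℝ) / Q) h2) 2
  unfold ct
  calc ‖∑ i ∈ range w, ee (i * ((h : ℝ) / Q))‖ ^ 2 / (w * Q) ≤
        (1 / (2 * nd ((h : ℝ) / Q))) ^ 2 / (w * Q) :=
        div_le_div_of_nonneg_right h3 (by positivity)
    _ = (Q : ℝ) / (4 * w * (h : ℝ) ^ 2) := by
        rw [e2, ← sq_abs (h : ℝ)]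
        field_simp
        norm_num

theorem ct_sum (w Q : ℕ) (hw : 0 < w) (hwQ : w ≤ Q) (he : 2 ∣ Q) : ∑ h ∈ SR Q, ct w Q h = 1 := by
  have hQ : 0 < Q := by omega
  rw [sum_SR Q hQ he (fun h => ct w Q h) (ct_periodic w Q hQ), ← ctri_sum w Q hw hwQ]
  exact sum_congr rfl fun h _ => ct_nat w Q h

/-- `ct` vanishes at the nonzero multiples of `Q/w` (`ctri_vanish`) -/
theorem ct_vanish (k u : ℕ) (hku : k ≤ u) (h : ℤ) (h0 : ¬ ((2 : ℤ) ^ u ∣ h)) (hd : (2 : ℤ) ^ k ∣ h) :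
    ct (2 ^ (u - k)) (2 ^ u) h = 0 := by
  obtain ⟨h', rfl⟩ := hd
  have e0 : (2 : ℝ) ^ u = 2 ^ k * 2 ^ (u - k) := by
    rw [← pow_add]
    congr 1
    omega
  have e0' : (2 : ℤ) ^ u = 2 ^ k * 2 ^ (u - k) := by
    rw [← pow_add]
    congr 1
    omega
  have h1 : ∑ i ∈ range (2 ^ (u - k)), ee (i * (((2 ^ k * h' : ℤ) : ℝ) / ((2 ^ u : ℕ) : ℝ))) =
      ∑ i ∈ range (2 ^ (u - k)), ee ((i : ℝ) * (h' : ℝ) / ((2 ^ (u - k) : ℕ) : ℝ)) := by
    refine sum_congr rfl fun i _ => ?_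
    congr 1
    push_cast
    rw [e0]
    have h2 : (2 : ℝ) ^ k ≠ 0 := by positivity
    have h3 : (2 : ℝ) ^ (u - k) ≠ 0 := by positivity
    field_simp
  unfold ct
  rw [h1, ee_orth (2 ^ (u - k)) (by positivity) h', if_neg]
  · simp
  · intro hd
    apply h0
    rw [e0']
    apply mul_dvd_mul_left
    exact_mod_cast hd

/-- low frequencies: `∑_{|h| < H} ct ≤ (2H+1) w/Q` and high frequencies `∑_{|h| > H} ct ≤ Q/(2 w H)` -/
theorem ct_low (w Q : ℕ) (hw : 0 < w) (hQ : 0 < Q) (H : ℕ) :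
    ∑ h ∈ (SR Q).filter (fun h => |h| < (H : ℤ)), ct w Q h ≤ (2 * H + 1) * (w / Q) := by
  have h1 : ∑ h ∈ (SR Q).filter (fun h => |h| < (H : ℤ)), ct w Q h ≤
      ∑ h ∈ (SR Q).filter (fun h => |h| < (H : ℤ)), (w : ℝ) / Q :=
    sum_le_sum fun h _ => ct_le w Q hw h
  refine h1.trans ?_
  rw [sum_const, nsmul_eq_mul]
  apply mul_le_mul_of_nonneg_right _ (by positivity)
  have h2 : (SR Q).filter (fun h => |h| < (H : ℤ)) ⊆ Icc (-(H : ℤ)) H := by
    intro h hh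
    rw [mem_filter, abs_lt] at hh
    rw [mem_Icc]
    omega
  have h3 := card_le_card h2
  rw [Int.card_Icc] at h3
  have h4 : ((SR Q).filter (fun h => |h| < (H : ℤ))).card ≤ 2 * H + 1 := by omega
  exact_mod_cast h4

private theorem fo2_inv (H M : ℕ) (hH : 0 < H) :
    ∑ k ∈ Ioc H M, (1 : ℝ) / (k : ℝ) ^ 2 ≤ (1 : ℝ) / H := by
  rcases le_total H M with h | h
  · have h1 := sum_Ioc_inv_sq_le_sub (α := ℝ) hH.ne' h
    have h2 : (0 : ℝ) ≤ (M : ℝ)⁻¹ := by positivity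
    have h3 : ∀ k ∈ Ioc H M, (1 : ℝ) / (k : ℝ) ^ 2 = ((k : ℝ) ^ 2)⁻¹ := fun k _ => one_div _
    rw [sum_congr rfl h3, one_div]
    linarith
  · rw [Ioc_eq_empty (by omega), sum_empty]
    positivity

theorem ct_high (w Q : ℕ) (hw : 0 < w) (hQ : 0 < Q) (H : ℕ) (hH : 0 < H) :
    ∑ h ∈ (SR Q).filter (fun h => (H : ℤ) < |h|), ct w Q h ≤ (Q : ℝ) / (2 * w * H) := by
  have hw' : (0 : ℝ) < w := by exact_mod_cast hw
  have hQ' : (0 : ℝ) < Q := by exact_mod_cast hQ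
  have hH' : (0 : ℝ) < H := by exact_mod_cast hH
  have h1 : ∑ h ∈ (SR Q).filter (fun h => (H : ℤ) < |h|), ct w Q h ≤
      ∑ h ∈ (SR Q).filter (fun h => (H : ℤ) < |h|), (Q : ℝ) / (4 * w) * ((1 : ℝ) / ((h.natAbs : ℕ) : ℝ) ^ 2) := by
    refine sum_le_sum fun h hh => ?_
    rw [mem_filter] at hh
    obtain ⟨ha, hb⟩ := hh
    unfold SR at ha
    rw [mem_Ico] at ha
    have h0 : h ≠ 0 := by
      rintro rfl
      rw [abs_zero] at hb
      omega
    have h2 : 2 * |h| ≤ (Q : ℤ) := by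
      have : |h| ≤ ((Q / 2 : ℕ) : ℤ) := by
        rw [abs_le]
        omega
      omega
    refine (ct_dec w Q hw hQ h h0 h2).trans (le_of_eq ?_)
    have e : ((h.natAbs : ℕ) : ℝ) ^ 2 = (h : ℝ) ^ 2 := by
      rw [Nat.cast_natAbs, Int.cast_abs, sq_abs]
    have h3 : (h : ℝ) ≠ 0 := by exact_mod_cast h0
    rw [e]
    field_simp
  refine h1.trans ?_
  rw [← mul_sum]
  have h2 : ∑ h ∈ (SR Q).filter (fun h => (H : ℤ) < |h|), ((1 : ℝ) / ((h.natAbs : ℕ) : ℝ) ^ 2) ≤ 2 * ((1 : ℝ) / H) := by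
    have h3 : ∑ h ∈ (SR Q).filter (fun h => (H : ℤ) < |h|), ((1 : ℝ) / ((h.natAbs : ℕ) : ℝ) ^ 2) ≤
        ∑ h ∈ (Ioc H Q).image (fun k : ℕ => (k : ℤ)) ∪ (Ioc H Q).image (fun k : ℕ => -(k : ℤ)),
          ((1 : ℝ) / ((h.natAbs : ℕ) : ℝ) ^ 2) := by
      apply sum_le_sum_of_subset_of_nonneg
      · intro h hh
        rw [mem_filter] at hh
        obtain ⟨ha, hb⟩ := hh
        unfold SR at ha
        rw [mem_Ico] at ha
        rw [mem_union, mem_image, mem_image]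
        rcases le_total 0 h with c | c
        · left
          rw [abs_of_nonneg c] at hb
          refine ⟨h.toNat, ?_, by omega⟩
          rw [mem_Ioc]
          omega
        · right
          rw [abs_of_nonpos c] at hb
          refine ⟨(-h).toNat, ?_, by omega⟩
          rw [mem_Ioc]
          omega
      · intro h _ _
        positivity
    refine h3.trans ?_
    have h4 : ∀ f : ℤ → ℝ, (∀ h, 0 ≤ f h) → ∀ A B : Finset ℤ, ∑ h ∈ A ∪ B, f h ≤ ∑ h ∈ A, f h + ∑ h ∈ B, f h := by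
      intro f hf A B
      rw [← sum_union_inter]
      have : 0 ≤ ∑ h ∈ A ∩ B, f h := sum_nonneg fun h _ => hf h
      linarith
    refine (h4 _ (fun h => by positivity) _ _).trans ?_
    rw [sum_image (by
      intro x _ y _ hxy
      have hxy' : (x : ℤ) = (y : ℤ) := hxy
      omega), sum_image (by
      intro x _ y _ hxy
      have hxy' : -(x : ℤ) = -(y : ℤ) := hxy
      omega)]
    simp only [Int.natAbs_natCast, Int.natAbs_neg]
    have h5 := fo2_inv H Q hH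
    linarith
  calc (Q : ℝ) / (4 * w) * ∑ h ∈ (SR Q).filter (fun h => (H : ℤ) < |h|), ((1 : ℝ) / ((h.natAbs : ℕ) : ℝ) ^ 2) ≤
        (Q : ℝ) / (4 * w) * (2 * ((1 : ℝ) / H)) := mul_le_mul_of_nonneg_left h2 (by positivity)
    _ = (Q : ℝ) / (2 * w * H) := by
        field_simp
        norm_num

end MP_5e4520_nt.Ex
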