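import Pool.Agent.Lib.MP_5e4520_ntE.Fo1
import Pool.Agent.Lib.MP_5e4520_ntE.Fo2
import Pool.Agent.Lib.MP_5e4520_nt.GenA
set_option autoImplicit false

namespace MP_5e4520_nt.Ex

open Finset

/-- JOB Fo3.  Fourier expansion of the smoothed hit count.  Insert `btri_ct` twice, `fej_tri`, `pw_fourier`. -/
theorem ZZ_fourier (L : ℕ) (hL : 0 < L) (T : ℤ) (n A w1 Q1 w2 Q2 : ℕ) (hn : 0 < n) (hQ1 : 0 < Q1)
    (he1 : 2 ∣ Q1) (hQ2 : 0 < Q2) (he2 : 2 ∣ Q2) (g1 g2 a b : ℤ) :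
    ((ZZ L T n A w1 Q1 w2 Q2 g1 g2 a b : ℝ) : ℂ) =
      ∑ h ∈ SR Q1, ∑ h' ∈ SR Q2, ((ct w1 Q1 h : ℝ) : ℂ) * ((ct w2 Q2 h' : ℝ) : ℂ) *
        ee (-((h : ℝ) * g1 / Q1 + (h' : ℝ) * g2 / Q2)) *
        (ee (T * ((h : ℝ) * a / Q1 + (h' : ℝ) * b / Q2)) *
          ((fej L ((h : ℝ) * a / Q1 + (h' : ℝ) * b / Q2) : ℝ) : ℂ) *
          (((fej n ((h : ℝ) * a / Q1 + (h' : ℝ) * b / Q2) / n) ^ A : ℝ) : ℂ)) := by
  have h1 : ((ZZ L T n A w1 Q1 w2 Q2 g1 g2 a b : ℝ) : ℂ) =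
      ∑ t ∈ Ioo (-(L : ℤ)) L, ∑ t' ∈ Icc (-((A * n : ℕ) : ℤ)) ((A * n : ℕ) : ℤ),
        ∑ h ∈ SR Q1, ∑ h' ∈ SR Q2,
          (tri L t : ℂ) * (pw n A t' : ℂ) *
          (((ct w1 Q1 h : ℝ) : ℂ) * ee ((h : ℝ) * (((T + t + t') * a - g1 : ℤ) : ℝ) / Q1)) *
          (((ct w2 Q2 h' : ℝ) : ℂ) * ee ((h' : ℝ) * (((T + t + t') * b - g2 : ℤ) : ℝ) / Q2)) := by
    unfold ZZ
    rw [Complex.ofReal_sum]
    refine sum_congr rfl fun t _ => ?_
    rw [Complex.ofReal_sum]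
    refine sum_congr rfl fun t' _ => ?_
    rw [Complex.ofReal_mul, Complex.ofReal_mul, Complex.ofReal_mul, btri_ct w1 Q1 hQ1 he1,
      btri_ct w2 Q2 hQ2 he2, mul_assoc, sum_mul_sum, mul_sum]
    refine sum_congr rfl fun h _ => ?_
    rw [mul_sum]
    refine sum_congr rfl fun h' _ => ?_
    ring
  rw [h1]
  rw [sum_congr rfl fun t _ => sum_comm, sum_comm]
  refine sum_congr rfl fun h _ => ?_
  rw [sum_congr rfl fun t _ => sum_comm, sum_comm]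
  refine sum_congr rfl fun h' _ => ?_
  rw [fej_tri L hL, ← pw_fourier n A hn, mul_assoc (ee _), sum_mul_sum, mul_sum, mul_sum]
  refine sum_congr rfl fun t _ => ?_
  rw [mul_sum, mul_sum]
  refine sum_congr rfl fun t' _ => ?_
  have hQ1' : (Q1 : ℝ) ≠ 0 := by positivity
  have hQ2' : (Q2 : ℝ) ≠ 0 := by positivity
  have e : ee ((h : ℝ) * (((T + t + t') * a - g1 : ℤ) : ℝ) / Q1) *
      ee ((h' : ℝ) * (((T + t + t') * b - g2 : ℤ) : ℝ) / Q2) =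
      ee (-((h : ℝ) * g1 / Q1 + (h' : ℝ) * g2 / Q2)) *
      (ee (T * ((h : ℝ) * a / Q1 + (h' : ℝ) * b / Q2)) *
      (ee (t * ((h : ℝ) * a / Q1 + (h' : ℝ) * b / Q2)) *
      ee (t' * ((h : ℝ) * a / Q1 + (h' : ℝ) * b / Q2)))) := by
    rw [← ee_add, ← ee_add, ← ee_add, ← ee_add]
    congr 1
    push_cast
    ring
  linear_combination ((tri L t : ℂ) * (pw n A t' : ℂ) * ((ct w1 Q1 h : ℝ) : ℂ) *
    ((ct w2 Q2 h' : ℝ) : ℂ)) * e

/-- the term `h = h' = 0` is `L · w1/Q1 · w2/Q2` -/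
theorem ZZ_nonneg (L : ℕ) (T : ℤ) (n A w1 Q1 w2 Q2 : ℕ) (g1 g2 a b : ℤ) :
    0 ≤ ZZ L T n A w1 Q1 w2 Q2 g1 g2 a b := by
  unfold ZZ
  refine sum_nonneg fun t _ => sum_nonneg fun t' _ => ?_
  exact mul_nonneg (mul_nonneg (mul_nonneg (tri_nonneg _ _) (pw_nonneg _ _ _)) (btri_nonneg _ _ _))
    (btri_nonneg _ _ _)

private theorem fo3_not_dvd (u : ℕ) (h : ℤ) (hh : h ∈ SR (2 ^ u)) (h0 : h ≠ 0) : ¬ ((2 : ℤ) ^ u ∣ h) := by
  intro hd
  apply h0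
  apply Int.eq_zero_of_abs_lt_dvd hd
  unfold SR at hh
  rw [mem_Ico] at hh
  have h1 : (2 ^ u / 2 : ℕ) < 2 ^ u := Nat.div_lt_self (by positivity) (by norm_num)
  have h2 : ((2 ^ u / 2 : ℕ) : ℤ) < (2 : ℤ) ^ u := by exact_mod_cast h1
  rw [abs_lt]
  constructor <;> linarith [hh.1, hh.2]

private theorem fo3_step (u k K i j : ℕ) (h : ℤ) (hk : k ≤ u) (hh : h ∈ SR (2 ^ u)) (h0 : h ≠ 0)
    (hc : ct (2 ^ (u - k)) (2 ^ u) h ≠ 0) (hK : K ≤ 2 ^ (u - k)) (hi : i < K) (hj : j < K)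
    (hd : ((2 ^ u : ℕ) : ℤ) ∣ ((i : ℤ) - j) * ((h % (2 ^ u : ℕ)).toNat : ℕ)) : i = j := by
  by_contra hij
  apply hc
  apply ct_vanish k u hk h (fo3_not_dvd u h hh h0)
  have h1 : ((2 ^ (u - k + k) : ℕ) : ℤ) ∣ ((i : ℤ) - j) * ((h % (2 ^ u : ℕ)).toNat : ℕ) := by
    have : u - k + k = u := by omega
    rw [this]
    exact hd
  have h2 := gena_int hK hi hj hij h1
  have h3 : 0 ≤ h % ((2 ^ u : ℕ) : ℤ) := Int.emod_nonneg _ (by positivity)
  have h4 : ((2 : ℤ) ^ k) ∣ h % ((2 ^ u : ℕ) : ℤ) := by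
    rw [← Int.toNat_of_nonneg h3]
    exact_mod_cast h2
  have h5 : ((2 : ℤ) ^ k) ∣ ((2 ^ u : ℕ) : ℤ) := by
    push_cast
    exact pow_dvd_pow _ hk
  rw [← Int.emod_add_mul_ediv h ((2 ^ u : ℕ) : ℤ)]
  exact dvd_add h4 (h5.mul_right _)

open Classical in
/-- Averages of the Fejer kernel over the dual group: the average over `(a,b)` of `fej K (h a/2^u + h' b/2^v)` is `1`, if
`ct (2^(u-k)) (2^u) h ≠ 0`, `ct (2^(v-l)) (2^v) h' ≠ 0`, `(h,h') ≠ 0` (in `SR × SR`) and `K ≤ 2^(u-k)`, `K ≤ 2^(v-l)`: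
helper25's `fej_avg` for nonnegative frequencies (periodicity), and if `h ≠ 0` then `2^k ∤ h` (`ct_vanish`), so
`2^u ∣ (i-j) h` forces `2^(u-k+1) ∣ i - j`, i.e. `i = j`. -/
theorem fej_avg_one (u v k l K : ℕ) (hk : k ≤ u) (hl : l ≤ v) (hK : 0 < K) (hK1 : K ≤ 2 ^ (u - k))
    (hK2 : K ≤ 2 ^ (v - l)) (h h' : ℤ) (hh : h ∈ SR (2 ^ u)) (hh' : h' ∈ SR (2 ^ v))
    (h0 : h ≠ 0 ∨ h' ≠ 0) (hc : ct (2 ^ (u - k)) (2 ^ u) h ≠ 0) (hc' : ct (2 ^ (v - l)) (2 ^ v) h' ≠ 0) :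
    ∑ a ∈ range (2 ^ u), ∑ b ∈ range (2 ^ v),
      fej K ((h : ℝ) * a / ((2 ^ u : ℕ) : ℝ) + (h' : ℝ) * b / ((2 ^ v : ℕ) : ℝ)) = 2 ^ u * 2 ^ v := by
  set U : ℕ := 2 ^ u with hU
  set V : ℕ := 2 ^ v with hV
  have hU0 : 0 < U := by positivity
  have hV0 : 0 < V := by positivity
  have hU' : (U : ℝ) ≠ 0 := by positivity
  have hV' : (V : ℝ) ≠ 0 := by positivity
  have hKR : (K : ℝ) ≠ 0 := by positivity
  have e1 : ∀ a ∈ range U, ∀ b ∈ range V,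
      fej K ((h : ℝ) * a / (U : ℝ) + (h' : ℝ) * b / (V : ℝ)) =
      fej K ((((h % (U : ℤ)).toNat : ℕ) : ℝ) * a / (U : ℝ) + (((h' % (V : ℤ)).toNat : ℕ) : ℝ) * b / (V : ℝ)) := by
    intro a _ b _
    have h3 : 0 ≤ h % (U : ℤ) := Int.emod_nonneg _ (by positivity)
    have h3' : 0 ≤ h' % (V : ℤ) := Int.emod_nonneg _ (by positivity)
    have h4 : (h : ℝ) = (((h % (U : ℤ)).toNat : ℕ) : ℝ) + U * ((h / (U : ℤ) : ℤ) : ℝ) := by
      have h5 : h = (((h % (U : ℤ)).toNat : ℕ) : ℤ) + U * (h / (U : ℤ)) := by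
        rw [Int.toNat_of_nonneg h3]
        exact (Int.emod_add_mul_ediv h U).symm
      exact_mod_cast h5
    have h4' : (h' : ℝ) = (((h' % (V : ℤ)).toNat : ℕ) : ℝ) + V * ((h' / (V : ℤ) : ℤ) : ℝ) := by
      have h5 : h' = (((h' % (V : ℤ)).toNat : ℕ) : ℤ) + V * (h' / (V : ℤ)) := by
        rw [Int.toNat_of_nonneg h3']
        exact (Int.emod_add_mul_ediv h' V).symm
      exact_mod_cast h5
    have h6 : (h : ℝ) * a / (U : ℝ) + (h' : ℝ) * b / (V : ℝ) =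
        ((((h % (U : ℤ)).toNat : ℕ) : ℝ) * a / (U : ℝ) + (((h' % (V : ℤ)).toNat : ℕ) : ℝ) * b / (V : ℝ)) +
        (((h / (U : ℤ)) * a + (h' / (V : ℤ)) * b : ℤ) : ℝ) := by
      conv_lhs => rw [h4, h4']
      push_cast
      field_simp
      ring
    rw [h6, fej_add_int]
  rw [sum_congr rfl fun a ha => sum_congr rfl (e1 a ha), fej_avg K U V _ _ hU0 hV0]
  have h7 : (range K ×ˢ range K).filter (fun p : ℕ × ℕ =>
      (U : ℤ) ∣ ((p.1 : ℤ) - p.2) * ((h % (U : ℤ)).toNat : ℕ) ∧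
      (V : ℤ) ∣ ((p.1 : ℤ) - p.2) * ((h' % (V : ℤ)).toNat : ℕ)) = (range K).image (fun i => (i, i)) := by
    ext ⟨i, j⟩
    rw [mem_filter, mem_product, mem_range, mem_range, mem_image]
    constructor
    · rintro ⟨⟨hi, hj⟩, hd1, hd2⟩
      have hij : i = j := by
        rcases h0 with h0 | h0
        · exact fo3_step u k K i j h hk hh h0 hc hK1 hi hj hd1
        · exact fo3_step v l K i j h' hl hh' h0 hc' hK2 hi hj hd2
      exact ⟨i, mem_range.2 hi, by rw [hij]⟩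
    · rintro ⟨x, hx, hxy⟩
      rw [mem_range] at hx
      simp only [Prod.mk.injEq] at hxy
      obtain ⟨rfl, rfl⟩ := hxy
      refine ⟨⟨hx, hx⟩, ?_, ?_⟩ <;> simp
  rw [h7, card_image_of_injective _ (fun x y hxy => congrArg Prod.fst hxy), card_range]
  rw [mul_div_assoc, div_self hKR, mul_one, hU, hV]
  push_cast
  rfl

private theorem fo3_cnt0 (Q : ℕ) (hQ : 0 < Q) (c θ : ℝ) (hθ : 0 ≤ θ) :
    (((range Q).filter (fun r : ℕ => nd (c + (r : ℝ) / Q) ≤ θ)).card : ℝ) ≤ 2 * θ * Q + 1 := by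
  have hQ' : (0 : ℝ) < Q := by exact_mod_cast hQ
  have h1 : ((range Q).filter (fun r : ℕ => nd (c + (r : ℝ) / Q) ≤ θ)).card ≤
      (Icc ⌈(c - θ) * Q⌉ ⌊(c + θ) * Q⌋).card := by
    apply card_le_card_of_injOn (fun r : ℕ => round (c + (r : ℝ) / Q) * (Q : ℤ) - (r : ℤ))
    · intro r hr
      rw [mem_coe, mem_filter, mem_range] at hr
      obtain ⟨_, hn⟩ := hr
      rw [mem_coe, mem_Icc, Int.ceil_le, Int.le_floor]
      unfold nd at hn
      rw [abs_le] at hn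
      set z : ℤ := round (c + (r : ℝ) / Q) with hz
      have e : (c + (r : ℝ) / Q - z) * Q = c * Q + r - z * Q := by
        field_simp
      have h2 : -θ * Q ≤ (c + (r : ℝ) / Q - z) * Q := mul_le_mul_of_nonneg_right hn.1 hQ'.le
      have h3 : (c + (r : ℝ) / Q - z) * Q ≤ θ * Q := mul_le_mul_of_nonneg_right hn.2 hQ'.le
      rw [e] at h2 h3
      push_cast
      constructor <;> linarith
    · intro r hr r' hr' heq
      rw [mem_coe, mem_filter, mem_range] at hr hr'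
      have heq' : round (c + (r : ℝ) / Q) * (Q : ℤ) - (r : ℤ) =
        round (c + (r' : ℝ) / Q) * (Q : ℤ) - (r' : ℤ) := heq
      have h2 : (Q : ℤ) ∣ (r : ℤ) - r' := by
        refine ⟨round (c + (r : ℝ) / Q) - round (c + (r' : ℝ) / Q), ?_⟩
        linear_combination -heq'
      have h3 : (r : ℤ) - r' = 0 := by
        apply Int.eq_zero_of_abs_lt_dvd h2
        rw [abs_lt]
        omega
      omega
  rw [Int.card_Icc] at h1
  have h2 : (((⌊(c + θ) * Q⌋ + 1 - ⌈(c - θ) * Q⌉).toNat : ℕ) : ℝ) ≤ 2 * θ * Q + 1 := by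
    rcases le_total 0 (⌊(c + θ) * Q⌋ + 1 - ⌈(c - θ) * Q⌉) with h | h
    · have h3 : (((⌊(c + θ) * Q⌋ + 1 - ⌈(c - θ) * Q⌉).toNat : ℕ) : ℝ) =
          ((⌊(c + θ) * Q⌋ + 1 - ⌈(c - θ) * Q⌉ : ℤ) : ℝ) := by
        have h4 : (((⌊(c + θ) * Q⌋ + 1 - ⌈(c - θ) * Q⌉).toNat : ℕ) : ℤ) =
          (⌊(c + θ) * Q⌋ + 1 - ⌈(c - θ) * Q⌉) := Int.toNat_of_nonneg h
        exact_mod_cast h4
      rw [h3]
      push_cast
      have h5 := Int.floor_le ((c + θ) * Q)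
      have h6 := Int.le_ceil ((c - θ) * Q)
      linarith
    · rw [Int.toNat_of_nonpos h]
      push_cast
      positivity
  calc (((range Q).filter (fun r : ℕ => nd (c + (r : ℝ) / Q) ≤ θ)).card : ℝ) ≤
        (((⌊(c + θ) * Q⌋ + 1 - ⌈(c - θ) * Q⌉).toNat : ℕ) : ℝ) := by exact_mod_cast h1
    _ ≤ _ := h2

private theorem fo3_cntd (d Q : ℕ) (hd : 0 < d) (hQ : 0 < Q) (c X : ℝ) (hX : 0 ≤ X) :
    (((range Q).filter (fun a : ℕ => nd (c + (d : ℝ) * a / Q) ≤ X)).card : ℝ) ≤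
      2 * X * Q + Nat.gcd d Q := by
  set g : ℕ := Nat.gcd d Q with hg
  have hg0 : 0 < g := Nat.gcd_pos_of_pos_left _ hd
  obtain ⟨d', Q', hcop, hd', hQ'⟩ : ∃ d' Q', Nat.Coprime d' Q' ∧ d = d' * g ∧ Q = Q' * g := by
    obtain ⟨d', Q', h1, h2, h3⟩ := Nat.exists_coprime d Q
    exact ⟨d', Q', h1, h2, h3⟩
  have hQ'0 : 0 < Q' := by
    rcases Nat.eq_zero_or_pos Q' with h | h
    · rw [hQ', h] at hQ
      simp at hQ
    · exact h
  have hgR : (g : ℝ) ≠ 0 := by positivity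
  have hQR : (Q' : ℝ) ≠ 0 := by positivity
  have key : ((range Q).filter (fun a : ℕ => nd (c + (d : ℝ) * a / Q) ≤ X)).card ≤
      (range g ×ˢ (range Q').filter (fun a : ℕ => nd (c + (a : ℝ) / Q') ≤ X)).card := by
    apply card_le_card_of_injOn (fun a => (a / Q', (d' * a) % Q'))
    · intro a ha
      rw [mem_coe, mem_filter, mem_range] at ha
      obtain ⟨ha, hn⟩ := ha
      rw [mem_coe, mem_product, mem_range, mem_filter, mem_range]
      refine ⟨?_, Nat.mod_lt _ hQ'0, ?_⟩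
      · exact Nat.div_lt_of_lt_mul (by rw [← hQ']; exact ha)
      · have e1 : (d : ℝ) * a / Q = (d' : ℝ) * a / Q' := by
          rw [hd', hQ']
          push_cast
          field_simp
        have e2 : (d' : ℝ) * a / Q' = ((((d' * a) % Q' : ℕ) : ℝ) / Q') + (((d' * a) / Q' : ℕ) : ℤ) := by
          have h := Nat.mod_add_div (d' * a) Q'
          generalize (d' * a) % Q' = s at *
          generalize (d' * a) / Q' = k at *
          have h2 : (d' : ℝ) * a = (s : ℝ) + Q' * (k : ℝ) := by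
            exact_mod_cast h.symm
          rw [div_eq_iff hQR, add_mul, div_mul_cancel₀ _ hQR, Int.cast_natCast, h2]
          ring
        rw [e1, e2, ← add_assoc, nd_add_int] at hn
        exact hn
    · intro a ha b hb hab
      simp only [Prod.mk.injEq] at hab
      obtain ⟨h1, h2⟩ := hab
      have h3 : a ≡ b [MOD Q'] := Nat.ModEq.cancel_left_of_coprime (by
        rw [Nat.coprime_comm] at hcop
        exact hcop) h2
      rw [← Nat.mod_add_div a Q', ← Nat.mod_add_div b Q', h1, h3]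
  rw [card_product, card_range] at key
  have h0 := fo3_cnt0 Q' hQ'0 c X hX
  calc (((range Q).filter (fun a : ℕ => nd (c + (d : ℝ) * a / Q) ≤ X)).card : ℝ) ≤
        ((g * ((range Q').filter (fun a : ℕ => nd (c + (a : ℝ) / Q') ≤ X)).card : ℕ) : ℝ) := by
        exact_mod_cast key
    _ ≤ g * (2 * X * Q' + 1) := by
        push_cast
        exact mul_le_mul_of_nonneg_left h0 (by positivity)
    _ = 2 * X * Q + g := by
        rw [hQ']
        push_cast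
        ring

open Classical in
/-- Counting: for `h' ≠ 0` and any real `c`, `#{b < Q : ‖c + h' b/Q‖ ≤ θ} ≤ 2θQ + |h'|` (`h' b mod Q` runs `g = gcd(h',Q)` times
through the multiples of `g`, an interval of length `ℓ` contains at most `ℓ/g + 1` multiples of `g`). -/
theorem cnt_shift (Q : ℕ) (hQ : 0 < Q) (h' : ℤ) (h0 : h' ≠ 0) (c θ : ℝ) (hθ : 0 ≤ θ) :
    (((range Q).filter (fun b : ℕ => nd (c + (h' : ℝ) * b / Q) ≤ θ)).card : ℝ) ≤
      2 * θ * Q + |(h' : ℝ)| := by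
  have hpos : ∀ (d : ℕ) (c : ℝ), 0 < d →
      (((range Q).filter (fun b : ℕ => nd (c + (d : ℝ) * b / Q) ≤ θ)).card : ℝ) ≤ 2 * θ * Q + d := by
    intro d c hd
    refine (fo3_cntd d Q hd hQ c θ hθ).trans ?_
    have h1 : ((Nat.gcd d Q : ℕ) : ℝ) ≤ d := by exact_mod_cast Nat.gcd_le_left Q hd
    linarith
  rcases lt_or_gt_of_ne h0 with h | h
  · obtain ⟨d, hd⟩ := Int.eq_ofNat_of_zero_le (neg_nonneg.2 h.le)
    have hd0 : 0 < d := by omega
    have e : (h' : ℝ) = -(d : ℝ) := by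
      have : h' = -(d : ℤ) := by omega
      rw [this]
      push_cast
      ring
    have h2 := hpos d (-c) hd0
    have h3 : (range Q).filter (fun b : ℕ => nd (c + (h' : ℝ) * b / Q) ≤ θ) =
        (range Q).filter (fun b : ℕ => nd (-c + (d : ℝ) * b / Q) ≤ θ) := by
      refine filter_congr fun b _ => ?_
      have e2 : c + (h' : ℝ) * b / Q = -(-c + (d : ℝ) * b / Q) := by
        rw [e]
        ring
      rw [e2, nd_neg]
    rw [h3, e, abs_neg, Nat.abs_cast]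
    exact h2
  · obtain ⟨d, hd⟩ := Int.eq_ofNat_of_zero_le h.le
    have hd0 : 0 < d := by omega
    have e : (h' : ℝ) = (d : ℝ) := by
      rw [hd]
      push_cast
      ring
    rw [e, Nat.abs_cast]
    exact hpos d c hd0

open Classical in
/-- For `(h,h') ≠ 0`: `#{(a,b) : ‖h a/P1 + h' b/P2‖ ≤ θ} ≤ 2θ P1 P2 + P1 |h'| + P2 |h|`. -/
theorem cnt_two (P1 P2 : ℕ) (hP1 : 0 < P1) (hP2 : 0 < P2) (h h' : ℤ) (h0 : h ≠ 0 ∨ h' ≠ 0) (θ : ℝ)
    (hθ : 0 ≤ θ) :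
    (((range P1 ×ˢ range P2).filter (fun p : ℕ × ℕ =>
      nd ((h : ℝ) * p.1 / P1 + (h' : ℝ) * p.2 / P2) ≤ θ)).card : ℝ) ≤
      2 * θ * P1 * P2 + P1 * |(h' : ℝ)| + P2 * |(h : ℝ)| := by
  have hP1' : (0 : ℝ) ≤ P1 := Nat.cast_nonneg _
  have hP2' : (0 : ℝ) ≤ P2 := Nat.cast_nonneg _
  by_cases c : h' = 0
  · have hh : h ≠ 0 := by
      rcases h0 with h0 | h0
      · exact h0
      · exact absurd c h0
    have h1 : ((range P1 ×ˢ range P2).filter (fun p : ℕ × ℕ =>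
        nd ((h : ℝ) * p.1 / P1 + (h' : ℝ) * p.2 / P2) ≤ θ)).card =
        ∑ b ∈ range P2, ((range P1).filter (fun a : ℕ =>
          nd ((h' : ℝ) * b / P2 + (h : ℝ) * a / P1) ≤ θ)).card := by
      rw [card_filter, sum_product_right]
      refine sum_congr rfl fun b _ => ?_
      rw [card_filter]
      refine sum_congr rfl fun a _ => ?_
      simp only [add_comm]
    rw [h1]
    push_cast
    have h2 : ∀ b ∈ range P2, (((range P1).filter (fun a : ℕ =>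
          nd ((h' : ℝ) * b / P2 + (h : ℝ) * a / P1) ≤ θ)).card : ℝ) ≤ 2 * θ * P1 + |(h : ℝ)| :=
      fun b _ => cnt_shift P1 hP1 h hh _ θ hθ
    refine (sum_le_sum h2).trans ?_
    rw [sum_const, card_range, nsmul_eq_mul]
    have h3 : 0 ≤ (P1 : ℝ) * |(h' : ℝ)| := by positivity
    nlinarith
  · have h1 : ((range P1 ×ˢ range P2).filter (fun p : ℕ × ℕ =>
        nd ((h : ℝ) * p.1 / P1 + (h' : ℝ) * p.2 / P2) ≤ θ)).card =
        ∑ a ∈ range P1, ((range P2).filter (fun b : ℕ =>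
          nd ((h : ℝ) * a / P1 + (h' : ℝ) * b / P2) ≤ θ)).card := by
      rw [card_filter, sum_product]
      refine sum_congr rfl fun a _ => ?_
      rw [card_filter]
    rw [h1]
    push_cast
    have h2 : ∀ a ∈ range P1, (((range P2).filter (fun b : ℕ =>
          nd ((h : ℝ) * a / P1 + (h' : ℝ) * b / P2) ≤ θ)).card : ℝ) ≤ 2 * θ * P2 + |(h' : ℝ)| :=
      fun a _ => cnt_shift P2 hP2 h' c _ θ hθ
    refine (sum_le_sum h2).trans ?_
    rw [sum_const, card_range, nsmul_eq_mul]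
    have h3 : 0 ≤ (P2 : ℝ) * |(h : ℝ)| := by positivity
    nlinarith

end MP_5e4520_nt.Ex
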