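import Pool.Agent.Lib.MP_5e4520_nt.Basic
import Pool.Agent.Lib.MP_5e4520_nt.BumpA
import Pool.Agent.Lib.MP_5e4520_nt.PreProb
import Pool.Agent.Lib.MP_5e4520_nt.EEPoly
set_option autoImplicit false

/-!
# MP_5e4520_nt, exact rate (helper30): definitions

We build on helper25's library `MP_5e4520_nt` (`nd`, `ee`, `fej`, `btri`, `ctri`, `Hit`, `pre`, `Sys`, `ent`,
`EE`, `Poly`).  `s` is the main parameter (tends to infinity); `2^(-12s)` is the target rate, so the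
systems are `Sys M (12*s) Λ lo hi S`.
-/

namespace MP_5e4520_nt.Ex

open Finset

/-- block of tests: one of the tests at the levels `(κ - x, lm - y)`, `x, y < s`, is a hit; `X` has
`2κ+lm` digits, `Y` has `κ+2lm` digits, `g` has `κ` digits, `d` has `lm` digits. -/
def hitB (κ lm r s X Y g d : ℕ) : Prop :=
  ∃ x < s, ∃ y < s, Hit (κ - x) (lm - y) 0 r (X / 2 ^ (2 * x + y)) (Y / 2 ^ (x + 2 * y))
    (g / 2 ^ x) (d / 2 ^ y)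

/-- triangle weights on the integers -/
noncomputable def tri (n : ℕ) (t : ℤ) : ℝ := max 0 (1 - |(t : ℝ)| / n)

/-- `A`-fold convolution of the probability weight `tri n / n` (supported in `[-A n, A n]`) -/
noncomputable def pw (n : ℕ) : ℕ → ℤ → ℝ
  | 0, t => if t = 0 then 1 else 0
  | (A + 1), t => ∑ t' ∈ Ioo (-(n : ℤ)) n, tri n t' / n * pw n A (t - t')

/-- Fourier coefficients of `btri w Q` at integer (signed) frequencies -/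
noncomputable def ct (w Q : ℕ) (h : ℤ) : ℝ := ‖∑ i ∈ range w, ee (i * ((h : ℝ) / Q))‖ ^ 2 / (w * Q)

/-- signed residues mod `Q` (`Q` even) -/
noncomputable def SR (Q : ℕ) : Finset ℤ := Ico (-((Q / 2 : ℕ) : ℤ)) ((Q / 2 : ℕ) : ℤ)

/-- the smoothed hit count: `q = T + t + t'`, `|t| < L`, `|t'| ≤ A n` -/
noncomputable def ZZ (L : ℕ) (T : ℤ) (n A w1 Q1 w2 Q2 : ℕ) (g1 g2 a b : ℤ) : ℝ :=
  ∑ t ∈ Ioo (-(L : ℤ)) L, ∑ t' ∈ Icc (-((A * n : ℕ) : ℤ)) ((A * n : ℕ) : ℤ),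
    tri L t * pw n A t' * btri w1 Q1 ((T + t + t') * a - g1) * btri w2 Q2 ((T + t + t') * b - g2)

open Classical in
/-- number of nonzero integer vectors `(h, h')`, `|h| ≤ H1`, `|h'| ≤ H2`, with `‖h x1 + h' x2‖ ≤ θ` -/
noncomputable def cntH (x1 x2 H1 H2 θ : ℝ) : ℕ :=
  (((Icc (-⌊H1⌋) ⌊H1⌋) ×ˢ (Icc (-⌊H2⌋) ⌊H2⌋)).filter (fun p : ℤ × ℤ =>
    (p.1 ≠ 0 ∨ p.2 ≠ 0) ∧ nd ((p.1 : ℝ) * x1 + (p.2 : ℝ) * x2) ≤ θ)).card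

open Classical in
/-- number of homogeneous solutions `1 ≤ q ≤ X`, `‖q a/Q1‖ < ξ1`, `‖q b/Q2‖ < ξ2` -/
noncomputable def hom (Q1 Q2 X : ℕ) (ξ1 ξ2 : ℝ) (a b : ℕ) : ℕ :=
  ((Icc 1 X).filter (fun q : ℕ => nd ((q : ℝ) * a / Q1) < ξ1 ∧ nd ((q : ℝ) * b / Q2) < ξ2)).card

open Classical in
/-- the shell: `2^ρ < q < 2^(ρ+1)`, `(q a - G1) mod Q1 ∈ (Q1/2^(k+1), Q1/2^k)`, same for `b` -/
noncomputable def shell (Q1 Q2 k l ρ : ℕ) (G1 G2 : ℤ) (a b : ℕ) : Finset ℕ :=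
  (Ioo (2 ^ ρ) (2 ^ (ρ + 1))).filter (fun q : ℕ =>
    (Q1 : ℤ) < 2 ^ (k + 1) * (((q : ℤ) * a - G1) % Q1) ∧ 2 ^ k * (((q : ℤ) * a - G1) % Q1) < Q1 ∧
    (Q2 : ℤ) < 2 ^ (l + 1) * (((q : ℤ) * b - G2) % Q2) ∧ 2 ^ l * (((q : ℤ) * b - G2) % Q2) < Q2)

/-! ## Small blocks (case 2): constants -/

/-- `Gc = G`: length of the small blocks in units of `s` (levels); `m = 2^(G s)` -/
def Gc : ℕ := 100000

/-- power of the Fejer kernels -/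
def Ap : ℕ := 3000

/-- `Q1 = 2^(2ks+ls+(3G+100)s)` : digits of `a` (`100 s` digits more than the block) -/
def QA (s ks ls : ℕ) : ℕ := 2 ^ (2 * ks + ls + (3 * Gc + 100) * s)

def QB (s ks ls : ℕ) : ℕ := 2 ^ (ks + 2 * ls + (3 * Gc + 100) * s)

/-- length of the `q`-windows -/
def nw (s ks ls : ℕ) : ℕ := 2 ^ (ks + ls + (Gc - 1100) * s)

/-- core frequencies `2^(k+(G-60)s) ≤ |h| ≤ 2^(k+(G+60)s)` -/
def coreR (s k : ℕ) (h : ℤ) : Prop :=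
  (2 : ℤ) ^ (k + (Gc - 60) * s) ≤ |h| ∧ |h| ≤ (2 : ℤ) ^ (k + (Gc + 60) * s)

open Classical in
/-- non core part of the total variation -/
noncomputable def Ync (s ks ls : ℕ) (a b : ℕ) : ℝ :=
  ∑ k ∈ Icc (ks + (Gc - 1) * s) (ks + (Gc + 1) * s),
  ∑ l ∈ Icc (ls + (Gc - 1) * s) (ls + (Gc + 1) * s),
  ∑ lb ∈ Icc (ks + ls + (2 * Gc - 22) * s) (ks + ls + (2 * Gc - 11) * s),
  ∑ h ∈ SR (QA s ks ls), ∑ h' ∈ SR (QB s ks ls),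
    if (h ≠ 0 ∨ h' ≠ 0) ∧ ¬ (coreR s ks h ∧ coreR s ls h') then
      ct (QA s ks ls / 2 ^ k) (QA s ks ls) h * ct (QB s ks ls / 2 ^ l) (QB s ks ls) h' *
        fej (2 ^ lb) ((h : ℝ) * a / QA s ks ls + (h' : ℝ) * b / QB s ks ls)
    else 0

/-- the coarse point -/
noncomputable def x0 (ks ls α0 : ℕ) : ℝ := (α0 : ℝ) / 2 ^ (2 * ks + ls)

noncomputable def y0 (ks ls β0 : ℕ) : ℝ := (β0 : ℝ) / 2 ^ (ks + 2 * ls)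

/-- genericity of the coarse pair `(α0, β0)` for the mixing lemma -/
structure GenF (s ks ls α0 β0 : ℕ) : Prop where
  gd : ∀ j0 j1 j2 : ℤ, -(4 * Gc * s : ℤ) ≤ j1 → j1 ≤ j0 → -(4 * Gc * s : ℤ) ≤ j2 → j2 ≤ j0 →
    j0 ≤ 2 * Gc * s →
    (cntH (x0 ks ls α0) (y0 ks ls β0) ((2 : ℝ) ^ (ks + j1)) ((2 : ℝ) ^ (ls + j2))
      ((2 : ℝ) ^ (j0 - ks - ls)) : ℝ) ≤ (2 : ℝ) ^ (s + j0 + j1 + j2)
  gi : ∀ i : ℕ, (cntH (x0 ks ls α0) (y0 ks ls β0) ((2 : ℝ) ^ (ks + (Gc + 60) * s))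
      ((2 : ℝ) ^ (ls + (Gc + 60) * s)) ((2 : ℝ) ^ (i + 4 * Gc * s : ℕ) / 2 ^ (ks + ls)) : ℝ) ≤
      (2 : ℝ) ^ (12 * Gc * s + 2 * i)
  gt : ∑ A ∈ range (2 ^ ((3 * Gc + 100) * s)), ∑ B ∈ range (2 ^ ((3 * Gc + 100) * s)),
      Ync s ks ls (α0 * 2 ^ ((3 * Gc + 100) * s) + A) (β0 * 2 ^ ((3 * Gc + 100) * s) + B) ≤
      (2 : ℝ) ^ (2 * (3 * Gc + 100) * s) / 2 ^ (30 * s)

/-- parameters in the allowed range (case 2) -/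
structure ParF (s ks ls : ℕ) : Prop where
  s1 : 1 ≤ s
  k1 : 100 * Gc * s ≤ ks
  l1 : 100 * Gc * s ≤ ls
  kl : ks ≤ 2 ^ s * ls
  lk : ls ≤ 2 ^ s * ks

/-! ## Returns (homogeneous solutions) -/

/-- two non parallel homogeneous solutions in the box -/
def rank2 (Q1 Q2 X : ℕ) (ξ1 ξ2 : ℝ) (a b : ℕ) : Prop :=
  ∃ q q' : ℕ, (1 ≤ q ∧ q ≤ X) ∧ (1 ≤ q' ∧ q' ≤ X) ∧
    nd ((q : ℝ) * a / Q1) < ξ1 ∧ nd ((q : ℝ) * b / Q2) < ξ2 ∧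
    nd ((q' : ℝ) * a / Q1) < ξ1 ∧ nd ((q' : ℝ) * b / Q2) < ξ2 ∧
    ((q : ℤ) * round ((q' : ℝ) * a / Q1) ≠ q' * round ((q : ℝ) * a / Q1) ∨
      (q : ℤ) * round ((q' : ℝ) * b / Q2) ≠ q' * round ((q : ℝ) * b / Q2))

/-- `rank2` for the large box around the block of tests at `(κ, lm)` -/
def rk (κ lm s e a b : ℕ) : Prop :=
  rank2 (2 ^ (2 * κ + lm + e)) (2 ^ (κ + 2 * lm + e)) (2 ^ (κ + lm - 12 * s + 1))
    (2 ^ (s + 1) / 2 ^ κ) (2 ^ (s + 1) / 2 ^ lm) a b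

open Classical in
/-- contribution of the rank 2 configurations -/
noncomputable def Wrk (κ lm s e a b : ℕ) : ℝ :=
  if rk κ lm s e a b then
    ∑ x ∈ range s, ∑ y ∈ range s, (1 + (hom (2 ^ (2 * κ + lm + e)) (2 ^ (κ + 2 * lm + e))
      (2 ^ (κ - x + (lm - y) - 12 * s + 1)) (1 / 2 ^ (κ - x)) (1 / 2 ^ (lm - y)) a b : ℝ))
  else 0

/-- small homogeneous solutions -/
noncomputable def Smq (κ lm s e a b : ℕ) : ℝ :=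
  ∑ x ∈ range s, ∑ y ∈ range s, (hom (2 ^ (2 * κ + lm + e)) (2 ^ (κ + 2 * lm + e))
      (2 ^ (κ - x + (lm - y) - 17 * s)) (1 / 2 ^ (κ - x)) (1 / 2 ^ (lm - y)) a b : ℝ)

/-- genericity of the coarse pair: returns -/
structure GenV (s ks ls α0 β0 : ℕ) : Prop where
  w : ∑ A ∈ range (2 ^ ((3 * Gc + 100) * s)), ∑ B ∈ range (2 ^ ((3 * Gc + 100) * s)),
      Wrk (ks + Gc * s) (ls + Gc * s) s (100 * s) (α0 * 2 ^ ((3 * Gc + 100) * s) + A)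
        (β0 * 2 ^ ((3 * Gc + 100) * s) + B) ≤ (2 : ℝ) ^ (2 * (3 * Gc + 100) * s) / 2 ^ (17 * s)
  sm : ∑ A ∈ range (2 ^ ((3 * Gc + 100) * s)), ∑ B ∈ range (2 ^ ((3 * Gc + 100) * s)),
      Smq (ks + Gc * s) (ls + Gc * s) s (100 * s) (α0 * 2 ^ ((3 * Gc + 100) * s) + A)
        (β0 * 2 ^ ((3 * Gc + 100) * s) + B) ≤ (2 : ℝ) ^ (2 * (3 * Gc + 100) * s) / 2 ^ (15 * s)

/-! ## Large blocks (case 1) -/

/-- core frequencies of the large blocks -/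
def core1 (s k : ℕ) (h : ℤ) : Prop :=
  (2 : ℤ) ^ (k - 30 * s) ≤ |h| ∧ |h| ≤ (2 : ℤ) ^ (k + 30 * s)

open Classical in
/-- the part of the total variation that is not core and near -/
noncomputable def Y1 (κ lm s a b : ℕ) : ℝ :=
  ∑ x ∈ range s, ∑ y ∈ range s,
  ∑ h ∈ SR (2 ^ (2 * κ + lm)), ∑ h' ∈ SR (2 ^ (κ + 2 * lm)),
    if (h ≠ 0 ∨ h' ≠ 0) ∧ ¬ (core1 s κ h ∧ core1 s lm h' ∧
        nd ((h : ℝ) * a / 2 ^ (2 * κ + lm) + (h' : ℝ) * b / 2 ^ (κ + 2 * lm)) ≤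
          2 ^ (50 * s) / 2 ^ (κ + lm)) then
      ct (2 ^ (κ + lm + x - 2)) (2 ^ (2 * κ + lm)) h * ct (2 ^ (κ + lm + y - 2)) (2 ^ (κ + 2 * lm)) h' *
        fej (2 ^ (κ - x + (lm - y) - 12 * s - 2))
          ((h : ℝ) * a / 2 ^ (2 * κ + lm) + (h' : ℝ) * b / 2 ^ (κ + 2 * lm))
    else 0

/-- bad pairs for the large blocks -/
def Bad1 (κ lm s a b : ℕ) : Prop :=
  1 / 2 ^ (14 * s) < Y1 κ lm s a b ∨
  0 < hom (2 ^ (2 * κ + lm)) (2 ^ (κ + 2 * lm)) (2 ^ (κ + lm - 12 * s + 1))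
    (2 ^ (s + 1) / 2 ^ κ) (2 ^ (s + 1) / 2 ^ lm) a b

/-- genericity of the coarse pair for the large blocks (`κ, lm` = levels at the END of the block, `σ` = unit) -/
structure GenC (κ lm σ s α0 β0 : ℕ) : Prop where
  c1 : (cntH ((α0 : ℝ) / 2 ^ (2 * κ + lm - 3 * σ)) ((β0 : ℝ) / 2 ^ (κ + 2 * lm - 3 * σ))
    (2 ^ (κ - 3 * σ)) (2 ^ (lm + 31 * s)) (2 ^ (3 * σ + 62 * s) / 2 ^ (κ + lm)) : ℝ) ≤ 2 ^ (200 * s)
  c2 : (cntH ((α0 : ℝ) / 2 ^ (2 * κ + lm - 3 * σ)) ((β0 : ℝ) / 2 ^ (κ + 2 * lm - 3 * σ))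
    (2 ^ (κ + 31 * s)) (2 ^ (lm - 3 * σ)) (2 ^ (3 * σ + 62 * s) / 2 ^ (κ + lm)) : ℝ) ≤ 2 ^ (200 * s)

end MP_5e4520_nt.Ex
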