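import Pool.Agent.Lib.MP_5e4520_nt.GcdS
import Pool.Agent.Lib.MP_5e4520_ntE.XDefs
set_option autoImplicit false

/-!
# Means of the numbers of returns and of pairs of non parallel returns
-/

namespace MP_5e4520_nt.Ex

open Finset

open Classical in
/-- `#{a < Q : ‖q a/Q‖ < ξ}` -/
noncomputable def cone (Q : ℕ) (ξ : ℝ) (q : ℕ) : ℕ :=
  ((range Q).filter (fun a : ℕ => nd ((q : ℝ) * a / Q) < ξ)).card

open Classical in
/-- `a < Q` for which `q, q'` are both returns, and not parallel -/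
noncomputable def cnon (Q : ℕ) (ξ : ℝ) (q q' : ℕ) : ℕ :=
  ((range Q).filter (fun a : ℕ => nd ((q : ℝ) * a / Q) < ξ ∧ nd ((q' : ℝ) * a / Q) < ξ ∧
    (q : ℤ) * round ((q' : ℝ) * a / Q) ≠ q' * round ((q : ℝ) * a / Q))).card

open Classical in
/-- `a < Q` for which `q, q'` are both returns, and parallel -/
noncomputable def cpar (Q : ℕ) (ξ : ℝ) (q q' : ℕ) : ℕ :=
  ((range Q).filter (fun a : ℕ => nd ((q : ℝ) * a / Q) < ξ ∧ nd ((q' : ℝ) * a / Q) < ξ ∧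
    (q : ℤ) * round ((q' : ℝ) * a / Q) = q' * round ((q : ℝ) * a / Q))).card

open Classical in
/-- ordered pairs of non parallel returns in the box -/
noncomputable def pairN (Q1 Q2 X : ℕ) (ξ1 ξ2 : ℝ) (a b : ℕ) : ℕ :=
  ((Icc 1 X ×ˢ Icc 1 X).filter (fun p : ℕ × ℕ =>
    nd ((p.1 : ℝ) * a / Q1) < ξ1 ∧ nd ((p.1 : ℝ) * b / Q2) < ξ2 ∧
    nd ((p.2 : ℝ) * a / Q1) < ξ1 ∧ nd ((p.2 : ℝ) * b / Q2) < ξ2 ∧
    ((p.1 : ℤ) * round ((p.2 : ℝ) * a / Q1) ≠ p.2 * round ((p.1 : ℝ) * a / Q1) ∨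
      (p.1 : ℤ) * round ((p.2 : ℝ) * b / Q2) ≠ p.2 * round ((p.1 : ℝ) * b / Q2)))).card

private theorem V4_int_card (x y : ℝ) (h : x ≤ y) : (((Finset.Icc ⌈x⌉ ⌊y⌋).card : ℕ) : ℝ) ≤ y - x + 1 := by
  rw [Int.card_Icc]
  have h1 : ((⌊y⌋ + 1 - ⌈x⌉).toNat : ℝ) = ((max (⌊y⌋ + 1 - ⌈x⌉) 0 : ℤ) : ℝ) := by
    rw [← Int.toNat_eq_max]
    norm_cast
  rw [h1]
  push_cast
  apply max_le
  · have h2 := Int.floor_le y
    have h3 := Int.le_ceil x
    linarith
  · linarith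

open Classical in
/-- number of `a < Q` in an interval -/
private theorem V4_cnt (Q : ℕ) (c ρ : ℝ) (hρ : 0 ≤ ρ) :
    (((range Q).filter (fun a : ℕ => |(a : ℝ) - c| < ρ)).card : ℝ) ≤ 2 * ρ + 1 := by
  have h1 : ((range Q).filter (fun a : ℕ => |(a : ℝ) - c| < ρ)).card ≤
      (Finset.Icc ⌈c - ρ⌉ ⌊c + ρ⌋).card := by
    apply Finset.card_le_card_of_injOn (fun a : ℕ => (a : ℤ))
    · intro a ha
      rw [Finset.mem_coe, Finset.mem_filter] at ha
      rw [Finset.mem_coe, Finset.mem_Icc]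
      have h2 := abs_lt.1 ha.2
      constructor
      · rw [Int.ceil_le]
        push_cast
        linarith
      · rw [Int.le_floor]
        push_cast
        linarith
    · intro a _ b _ hab
      have hab' : (a : ℤ) = b := hab
      exact_mod_cast hab'
  have h2 := V4_int_card (c - ρ) (c + ρ) (by linarith)
  have h3 : (((range Q).filter (fun a : ℕ => |(a : ℝ) - c| < ρ)).card : ℝ) ≤
      ((Finset.Icc ⌈c - ρ⌉ ⌊c + ρ⌋).card : ℝ) := by exact_mod_cast h1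
  linarith

open Classical in
/-- fibres: number of `a < Q` with a return at `q` and prescribed nearest integer `p` -/
private theorem V4_fib (Q : ℕ) (ξ : ℝ) (q : ℕ) (h1 : 1 ≤ q) (hq : (q : ℝ) ≤ ξ * Q) (p : ℤ) :
    (((range Q).filter (fun a : ℕ => nd ((q : ℝ) * a / Q) < ξ ∧
      round ((q : ℝ) * a / Q) = p)).card : ℝ) ≤ 3 * ξ * Q / q := by
  have hq0 : (1 : ℝ) ≤ q := by exact_mod_cast h1
  have hQ : (0 : ℝ) < Q := by
    rcases Nat.eq_zero_or_pos Q with h | h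
    · rw [h] at hq
      simp at hq
      linarith
    · exact_mod_cast h
  have hξ : 0 < ξ := by
    by_contra h
    push Not at h
    nlinarith
  have h2 : ((range Q).filter (fun a : ℕ => nd ((q : ℝ) * a / Q) < ξ ∧
      round ((q : ℝ) * a / Q) = p)) ⊆
      (range Q).filter (fun a : ℕ => |(a : ℝ) - p * Q / q| < ξ * Q / q) := by
    intro a ha
    rw [Finset.mem_filter] at ha ⊢
    refine ⟨ha.1, ?_⟩
    have h3 : |(q : ℝ) * a / Q - p| < ξ := by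
      have := ha.2.1
      unfold nd at this
      rwa [ha.2.2] at this
    have h4 : (a : ℝ) - p * Q / q = ((q : ℝ) * a / Q - p) * (Q / q) := by
      field_simp
    rw [h4, abs_mul, abs_of_pos (by positivity : (0 : ℝ) < Q / q)]
    calc |(q : ℝ) * a / Q - p| * (Q / q) < ξ * (Q / q) :=
          mul_lt_mul_of_pos_right h3 (by positivity)
      _ = ξ * Q / q := by ring
  have h3 : (((range Q).filter (fun a : ℕ => nd ((q : ℝ) * a / Q) < ξ ∧
      round ((q : ℝ) * a / Q) = p)).card : ℝ) ≤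
      ((range Q).filter (fun a : ℕ => |(a : ℝ) - p * Q / q| < ξ * Q / q)).card := by
    exact_mod_cast Finset.card_le_card h2
  have h4 := V4_cnt Q (p * Q / q) (ξ * Q / q) (by positivity)
  have h5 : (1 : ℝ) ≤ ξ * Q / q := by
    rw [le_div_iff₀ (by linarith)]
    linarith
  calc _ ≤ 2 * (ξ * Q / q) + 1 := h3.trans h4
    _ ≤ 3 * ξ * Q / q := by
        have : 3 * ξ * Q / q = 3 * (ξ * Q / q) := by ring
        rw [this]
        linarith

/-- the nearest integer is in `[0, q]` -/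
private theorem V4_round (Q q a : ℕ) (ha : a < Q) :
    0 ≤ round ((q : ℝ) * a / Q) ∧ round ((q : ℝ) * a / Q) ≤ q := by
  have hQ : (0 : ℝ) < Q := by
    have : 0 < Q := by omega
    exact_mod_cast this
  have h0 : (0 : ℝ) ≤ (q : ℝ) * a / Q := by positivity
  have h1 : (q : ℝ) * a / Q ≤ q := by
    rw [div_le_iff₀ hQ]
    have : (a : ℝ) ≤ Q := by exact_mod_cast ha.le
    have h2 : (0 : ℝ) ≤ q := Nat.cast_nonneg q
    nlinarith
  rw [round_eq]
  constructor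
  · rw [Int.le_floor]
    push_cast
    linarith
  · have : ⌊(q : ℝ) * a / Q + 1 / 2⌋ < (q : ℤ) + 1 := by
      rw [Int.floor_lt]
      push_cast
      linarith
    omega

open Classical in
/-- covering by fibres -/
private theorem V4_cover (Q : ℕ) (ξ : ℝ) (q : ℕ) (h1 : 1 ≤ q) (hq : (q : ℝ) ≤ ξ * Q)
    (P : Finset ℤ) (f : ℕ → Prop) (hf : ∀ a < Q, f a → nd ((q : ℝ) * a / Q) < ξ ∧
      round ((q : ℝ) * a / Q) ∈ P) :
    (((range Q).filter f).card : ℝ) ≤ P.card * (3 * ξ * Q / q) := by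
  have h2 : (range Q).filter f ⊆ P.biUnion (fun p => (range Q).filter (fun a : ℕ =>
      nd ((q : ℝ) * a / Q) < ξ ∧ round ((q : ℝ) * a / Q) = p)) := by
    intro a ha
    rw [Finset.mem_filter, Finset.mem_range] at ha
    rw [Finset.mem_biUnion]
    obtain ⟨h3, h4⟩ := hf a ha.1 ha.2
    exact ⟨_, h4, by rw [Finset.mem_filter, Finset.mem_range]; exact ⟨ha.1, h3, rfl⟩⟩
  have h3 := (Finset.card_le_card h2).trans Finset.card_biUnion_le
  have h4 : (((range Q).filter f).card : ℝ) ≤ ∑ p ∈ P, (((range Q).filter (fun a : ℕ =>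
      nd ((q : ℝ) * a / Q) < ξ ∧ round ((q : ℝ) * a / Q) = p)).card : ℝ) := by
    exact_mod_cast h3
  refine h4.trans ?_
  calc _ ≤ ∑ _p ∈ P, 3 * ξ * Q / q := Finset.sum_le_sum (fun p _ => V4_fib Q ξ q h1 hq p)
    _ = _ := by rw [Finset.sum_const, nsmul_eq_mul]

/-- elements of one class mod `u` in `[0, u g]` -/
private theorem V4_class (u g : ℕ) (hu : 1 ≤ u) (P : Finset ℤ)
    (hP : ∀ p ∈ P, 0 ≤ p ∧ p ≤ (u * g : ℕ)) (hP2 : ∀ p ∈ P, ∀ p' ∈ P, (u : ℤ) ∣ p - p') :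
    P.card ≤ g + 1 := by
  have h1 : P.card ≤ (Finset.range (g + 1)).card := by
    apply Finset.card_le_card_of_injOn (fun p : ℤ => (p / u).toNat)
    · intro p hp
      rw [Finset.mem_coe] at hp
      rw [Finset.mem_coe, Finset.mem_range]
      obtain ⟨h2, h3⟩ := hP p hp
      have h4 : p / u ≤ g := by
        calc p / u ≤ ((u * g : ℕ) : ℤ) / u := Int.ediv_le_ediv (by exact_mod_cast hu) h3
          _ = g := by
            push_cast
            rw [Int.mul_ediv_cancel_left _ (by positivity)]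
      show (p / u).toNat < g + 1
      omega
    · intro p hp p' hp' h
      rw [Finset.mem_coe] at hp hp'
      have hu' : (0 : ℤ) < u := by exact_mod_cast hu
      have h5 : 0 ≤ p / u := Int.ediv_nonneg (hP p hp).1 hu'.le
      have h6 : 0 ≤ p' / u := Int.ediv_nonneg (hP p' hp').1 hu'.le
      have h7 : p / u = p' / u := by
        have h8 : (p / u).toNat = (p' / u).toNat := h
        omega
      have h9 : p % u = p' % u :=
        Int.emod_eq_emod_iff_emod_sub_eq_zero.2 (Int.emod_eq_zero_of_dvd (hP2 p hp p' hp'))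
      rw [← Int.mul_ediv_add_emod p u, ← Int.mul_ediv_add_emod p' u, h7, h9]
  rwa [Finset.card_range] at h1

open Classical in
private theorem V4_par (Q : ℕ) (ξ : ℝ) (q q' : ℕ) (h1 : 1 ≤ q) (h1' : 1 ≤ q') (hξ : 0 < ξ)
    (hq : (q : ℝ) ≤ ξ * Q) :
    (cpar Q ξ q q' : ℝ) ≤ 6 * ξ * Q * ((Nat.gcd q q' : ℝ) / (q : ℕ)) := by
  have hq0 : (1 : ℝ) ≤ q := by exact_mod_cast h1
  set g := Nat.gcd q q' with hg
  have hg0 : 0 < g := Nat.gcd_pos_of_pos_left _ h1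
  obtain ⟨u, hu⟩ : g ∣ q := Nat.gcd_dvd_left q q'
  obtain ⟨v, hv⟩ : g ∣ q' := Nat.gcd_dvd_right q q'
  have hu0 : 1 ≤ u := by
    rcases Nat.eq_zero_or_pos u with h | h
    · rw [h] at hu
      omega
    · exact h
  have hcop : Nat.Coprime u v := by
    have h2 : g * Nat.gcd u v = g := by
      rw [← Nat.gcd_mul_left, ← hu, ← hv]
    have h3 : g * Nat.gcd u v = g * 1 := by omega
    exact Nat.eq_of_mul_eq_mul_left hg0 h3
  set P : Finset ℤ := (Finset.Icc 0 (q : ℤ)).filter (fun p => (u : ℤ) ∣ p) with hPdef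
  have hPc : P.card ≤ g + 1 := by
    apply V4_class u g hu0
    · intro p hp
      rw [hPdef, Finset.mem_filter, Finset.mem_Icc] at hp
      refine ⟨hp.1.1, ?_⟩
      rw [mul_comm, ← hu]
      exact hp.1.2
    · intro p hp p' hp'
      rw [hPdef, Finset.mem_filter] at hp hp'
      exact dvd_sub hp.2 hp'.2
  have h2 := V4_cover Q ξ q h1 hq P (fun a : ℕ => nd ((q : ℝ) * a / Q) < ξ ∧
    nd ((q' : ℝ) * a / Q) < ξ ∧
    (q : ℤ) * round ((q' : ℝ) * a / Q) = q' * round ((q : ℝ) * a / Q)) (by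
      rintro a ha ⟨a1, a2, a3⟩
      refine ⟨a1, ?_⟩
      rw [hPdef, Finset.mem_filter, Finset.mem_Icc]
      refine ⟨V4_round Q q a ha, ?_⟩
      have h4 : (u : ℤ) * round ((q' : ℝ) * a / Q) = v * round ((q : ℝ) * a / Q) := by
        have h5 : (g : ℤ) * ((u : ℤ) * round ((q' : ℝ) * a / Q)) =
            g * (v * round ((q : ℝ) * a / Q)) := by
          rw [← mul_assoc, ← mul_assoc]
          rw [hu, hv] at a3
          push_cast at a3
          rw [hu, hv]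
          push_cast
          exact a3
        exact mul_left_cancel₀ (by exact_mod_cast hg0.ne') h5
      have h6 : (u : ℤ) ∣ v * round ((q : ℝ) * a / Q) := Dvd.intro _ h4
      exact (Nat.Coprime.isCoprime hcop).dvd_of_dvd_mul_left h6)
  have h4 : (cpar Q ξ q q' : ℝ) ≤ P.card * (3 * ξ * Q / q) := by
    unfold cpar
    convert h2
  have h5 : 0 ≤ 3 * ξ * Q / q := by positivity
  have h6 : (P.card : ℝ) ≤ 2 * g := by
    have : P.card ≤ 2 * g := by omega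
    exact_mod_cast this
  calc (cpar Q ξ q q' : ℝ) ≤ P.card * (3 * ξ * Q / q) := h4
    _ ≤ 2 * g * (3 * ξ * Q / q) := mul_le_mul_of_nonneg_right h6 h5
    _ = _ := by ring

/-- number of nonzero integers with `|k| < X` -/
private theorem V4_kcard (X : ℝ) (hX : 0 < X) :
    ((((Finset.Icc (-⌊X⌋) ⌊X⌋).erase 0).card : ℕ) : ℝ) ≤ 2 * X := by
  have h0 : 0 ≤ ⌊X⌋ := Int.floor_nonneg.2 hX.le
  rw [Finset.card_erase_of_mem (by rw [Finset.mem_Icc]; omega), Int.card_Icc]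
  have h1 : (⌊X⌋ + 1 - -⌊X⌋).toNat - 1 = (2 * ⌊X⌋).toNat := by omega
  rw [h1]
  have h2 : (((2 * ⌊X⌋).toNat : ℕ) : ℝ) = ((2 * ⌊X⌋ : ℤ) : ℝ) := by
    have : (((2 * ⌊X⌋).toNat : ℕ) : ℤ) = 2 * ⌊X⌋ := Int.toNat_of_nonneg (by omega)
    exact_mod_cast this
  rw [h2]
  push_cast
  have := Int.floor_le X
  linarith

open Classical in
private theorem V4_non (Q : ℕ) (ξ : ℝ) (q q' : ℕ) (h1 : 1 ≤ q) (h1' : 1 ≤ q') (hξ : 0 < ξ)
    (hq : (q : ℝ) ≤ ξ * Q) (hle : q' ≤ q) : (cnon Q ξ q q' : ℝ) ≤ 24 * ξ ^ 2 * Q := by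
  have hq0 : (1 : ℝ) ≤ q := by exact_mod_cast h1
  have hq0' : (0 : ℝ) < q' := by exact_mod_cast h1'
  have hle' : (q' : ℝ) ≤ q := by exact_mod_cast hle
  set g := Nat.gcd q q' with hg
  have hg0 : 0 < g := Nat.gcd_pos_of_pos_left _ h1
  have hg0' : (1 : ℝ) ≤ g := by exact_mod_cast hg0
  obtain ⟨u, hu⟩ : g ∣ q := Nat.gcd_dvd_left q q'
  obtain ⟨v, hv⟩ : g ∣ q' := Nat.gcd_dvd_right q q'
  have hu0 : 1 ≤ u := by
    rcases Nat.eq_zero_or_pos u with h | h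
    · rw [h] at hu
      omega
    · exact h
  have hcop : Nat.Coprime u v := by
    have h2 : g * Nat.gcd u v = g := by
      rw [← Nat.gcd_mul_left, ← hu, ← hv]
    have h3 : g * Nat.gcd u v = g * 1 := by omega
    exact Nat.eq_of_mul_eq_mul_left hg0 h3
  set X : ℝ := 2 * q * ξ / g with hX
  have hX0 : 0 < X := by positivity
  set K : Finset ℤ := (Finset.Icc (-⌊X⌋) ⌊X⌋).erase 0 with hK
  set P : ℤ → Finset ℤ := fun k => (Finset.Icc 0 (q : ℤ)).filter (fun p => ∃ p' : ℤ,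
    p * v - p' * u = k) with hPdef
  have hPc : ∀ k, (P k).card ≤ g + 1 := by
    intro k
    apply V4_class u g hu0
    · intro p hp
      rw [hPdef, Finset.mem_filter, Finset.mem_Icc] at hp
      refine ⟨hp.1.1, ?_⟩
      rw [mul_comm, ← hu]
      exact hp.1.2
    · intro p hp p' hp'
      rw [hPdef, Finset.mem_filter] at hp hp'
      obtain ⟨r, hr⟩ := hp.2
      obtain ⟨r', hr'⟩ := hp'.2
      have h4 : (u : ℤ) ∣ v * (p - p') := ⟨r - r', by linear_combination hr - hr'⟩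
      exact (Nat.Coprime.isCoprime hcop).dvd_of_dvd_mul_left h4
  have h2 := V4_cover Q ξ q h1 hq (K.biUnion P) (fun a : ℕ => nd ((q : ℝ) * a / Q) < ξ ∧
    nd ((q' : ℝ) * a / Q) < ξ ∧
    (q : ℤ) * round ((q' : ℝ) * a / Q) ≠ q' * round ((q : ℝ) * a / Q)) (by
      rintro a ha ⟨a1, a2, a3⟩
      refine ⟨a1, ?_⟩
      set p := round ((q : ℝ) * a / Q) with hp
      set p' := round ((q' : ℝ) * a / Q) with hp'
      rw [Finset.mem_biUnion]
      refine ⟨p * v - p' * u, ?_, ?_⟩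
      · rw [hK, Finset.mem_erase, Finset.mem_Icc]
        have h5 : (g : ℤ) * (p * v - p' * u) = q' * p - q * p' := by
          rw [hv, hu]
          push_cast
          ring
        constructor
        · intro h6
          rw [h6, mul_zero] at h5
          exact a3 (by linarith)
        · have h7 : |((p * v - p' * u : ℤ) : ℝ)| < X := by
            rw [hX, lt_div_iff₀ (by linarith)]
            have h8 : |((p * v - p' * u : ℤ) : ℝ)| * g = |((q' * p - q * p' : ℤ) : ℝ)| := by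
              rw [← h5]
              push_cast
              rw [abs_mul, abs_of_pos (by linarith : (0 : ℝ) < g)]
              ring
            rw [h8]
            have h9 : ((q' * p - q * p' : ℤ) : ℝ) = q' * (p - (q : ℝ) * a / Q) +
                q * ((q' : ℝ) * a / Q - p') := by
              push_cast
              ring
            rw [h9]
            have h10 : |(p : ℝ) - (q : ℝ) * a / Q| < ξ := by
              rw [abs_sub_comm]
              exact a1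
            have h11 : |(q' : ℝ) * a / Q - p'| < ξ := a2
            calc |(q' : ℝ) * (p - (q : ℝ) * a / Q) + q * ((q' : ℝ) * a / Q - p')|
                ≤ |(q' : ℝ) * (p - (q : ℝ) * a / Q)| + |q * ((q' : ℝ) * a / Q - p')| :=
                  abs_add_le _ _
              _ = q' * |(p : ℝ) - (q : ℝ) * a / Q| + q * |(q' : ℝ) * a / Q - p'| := by
                  rw [abs_mul, abs_mul, abs_of_pos hq0', abs_of_pos (by linarith : (0 : ℝ) < q)]
              _ < q' * ξ + q * ξ := by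
                  apply add_lt_add
                  · exact mul_lt_mul_of_pos_left h10 hq0'
                  · exact mul_lt_mul_of_pos_left h11 (by linarith)
              _ ≤ 2 * q * ξ := by nlinarith
          have h12 := abs_lt.1 h7
          constructor
          · have h13 : -(p * v - p' * u) ≤ ⌊X⌋ := by
              rw [Int.le_floor]
              push_cast at h12 ⊢
              linarith [h12.1]
            omega
          · rw [Int.le_floor]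
            exact h12.2.le
      · rw [hPdef, Finset.mem_filter, Finset.mem_Icc]
        exact ⟨V4_round Q q a ha, p', rfl⟩)
  have h4 : (cnon Q ξ q q' : ℝ) ≤ (K.biUnion P).card * (3 * ξ * Q / q) := by
    unfold cnon
    convert h2
  have h5 : 0 ≤ 3 * ξ * Q / q := by positivity
  have h6 : ((K.biUnion P).card : ℝ) ≤ 2 * X * (2 * g) := by
    have h7 : (K.biUnion P).card ≤ K.card * (g + 1) := by
      refine Finset.card_biUnion_le.trans ?_
      calc ∑ k ∈ K, (P k).card ≤ ∑ _k ∈ K, (g + 1) := Finset.sum_le_sum (fun k _ => hPc k)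
        _ = _ := by rw [Finset.sum_const, smul_eq_mul]
    have h8 : ((K.biUnion P).card : ℝ) ≤ K.card * (g + 1) := by exact_mod_cast h7
    have h9 := V4_kcard X hX0
    calc ((K.biUnion P).card : ℝ) ≤ K.card * (g + 1) := h8
      _ ≤ (2 * X) * (g + 1) := mul_le_mul_of_nonneg_right h9 (by positivity)
      _ ≤ 2 * X * (2 * g) := mul_le_mul_of_nonneg_left (by linarith) (by positivity)
  calc (cnon Q ξ q q' : ℝ) ≤ (K.biUnion P).card * (3 * ξ * Q / q) := h4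
    _ ≤ 2 * X * (2 * g) * (3 * ξ * Q / q) := mul_le_mul_of_nonneg_right h6 h5
    _ = 24 * ξ ^ 2 * Q := by
        rw [hX]
        field_simp
        ring

/-- JOB V4.  `p = round (q a/Q) ∈ [0, q]`; for each `p` the `a` with `|a - p Q/q| < ξ Q/q` : at most `2ξQ/q + 1 ≤ 3ξQ/q`.
Total `(q+1) 3ξQ/q ≤ 6ξQ`. -/
theorem cone_le (Q : ℕ) (ξ : ℝ) (q : ℕ) (h1 : 1 ≤ q) (hq : (q : ℝ) ≤ ξ * Q) :
    (cone Q ξ q : ℝ) ≤ 6 * ξ * Q := by
  classical
  have hq0 : (1 : ℝ) ≤ q := by exact_mod_cast h1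
  have h2 := V4_cover Q ξ q h1 hq (Finset.Icc 0 (q : ℤ)) (fun a : ℕ => nd ((q : ℝ) * a / Q) < ξ)
    (fun a ha h => ⟨h, Finset.mem_Icc.2 (V4_round Q q a ha)⟩)
  have h3 : ((Finset.Icc 0 (q : ℤ)).card : ℝ) = q + 1 := by
    rw [Int.card_Icc]
    have : ((q : ℤ) + 1 - 0).toNat = q + 1 := by omega
    rw [this]
    push_cast
    ring
  rw [h3] at h2
  have h4 : (cone Q ξ q : ℝ) ≤ ((q : ℝ) + 1) * (3 * ξ * Q / q) := by
    unfold cone
    convert h2
  refine h4.trans ?_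
  have h5 : 0 ≤ ξ * Q := by linarith
  have h6 : ((q : ℝ) + 1) * (3 * ξ * Q / q) = (3 * (ξ * Q)) * (((q : ℝ) + 1) / q) := by
    field_simp
  rw [h6]
  have h7 : ((q : ℝ) + 1) / q ≤ 2 := by
    rw [div_le_iff₀ (by linarith)]
    linarith
  calc (3 * (ξ * Q)) * (((q : ℝ) + 1) / q) ≤ (3 * (ξ * Q)) * 2 :=
        mul_le_mul_of_nonneg_left h7 (by linarith)
    _ = 6 * ξ * Q := by ring

/-- By symmetry `q' ≤ q`.  `p = round (q a/Q) ∈ [0,q]`, `p' = round (q' a/Q)`, `D = p q' - p' q = q'(p - q a/Q) + q (q' a/Q - p')`, so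
`|D| < 2 q ξ`, `D ≠ 0` is a multiple of `g = gcd(q,q')`: at most `4 q ξ/g` values.  Given `D` the `p ∈ [0,q]` lie in one class modulo
`q/g`: at most `g + 1 ≤ 2g`; given `p` (then `p'` is determined) at most `3ξQ/q` values of `a`.  Total `≤ 24 ξ² Q`. -/
theorem cnon_le (Q : ℕ) (ξ : ℝ) (q q' : ℕ) (h1 : 1 ≤ q) (h1' : 1 ≤ q') (hξ : 0 < ξ)
    (hq : (q : ℝ) ≤ ξ * Q) (hq' : (q' : ℝ) ≤ ξ * Q) : (cnon Q ξ q q' : ℝ) ≤ 24 * ξ ^ 2 * Q := by
  rcases le_total q' q with h | h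
  · exact V4_non Q ξ q q' h1 h1' hξ hq h
  · have h2 : cnon Q ξ q q' = cnon Q ξ q' q := by
      unfold cnon
      congr 1
      apply Finset.filter_congr
      intro a _
      constructor
      · rintro ⟨a1, a2, a3⟩
        exact ⟨a2, a1, fun h => a3 h.symm⟩
      · rintro ⟨a1, a2, a3⟩
        exact ⟨a2, a1, fun h => a3 h.symm⟩
    rw [h2]
    exact V4_non Q ξ q' q h1' h1 hξ hq' h

/-- Parallel: `p = (q/g) u`, `0 ≤ u ≤ g`; for each `u` at most `3ξQ/q` values of `a` (use the larger of `q, q'`). -/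
theorem cpar_le (Q : ℕ) (ξ : ℝ) (q q' : ℕ) (h1 : 1 ≤ q) (h1' : 1 ≤ q') (hξ : 0 < ξ)
    (hq : (q : ℝ) ≤ ξ * Q) (hq' : (q' : ℝ) ≤ ξ * Q) :
    (cpar Q ξ q q' : ℝ) ≤ 6 * ξ * Q * ((Nat.gcd q q' : ℝ) / (max q q' : ℕ)) := by
  rcases le_total q' q with h | h
  · rw [max_eq_left h]
    exact V4_par Q ξ q q' h1 h1' hξ hq
  · rw [max_eq_right h, Nat.gcd_comm]
    have h2 : cpar Q ξ q q' = cpar Q ξ q' q := by
      unfold cpar
      congr 1
      apply Finset.filter_congr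
      intro a _
      constructor
      · rintro ⟨a1, a2, a3⟩
        exact ⟨a2, a1, a3.symm⟩
      · rintro ⟨a1, a2, a3⟩
        exact ⟨a2, a1, a3.symm⟩
    rw [h2]
    exact V4_par Q ξ q' q h1' h1 hξ hq'

/-- `∑_{q, q' ≤ X} gcd/max ≤ 2 ∑_{q ≤ X} ∑_{q' ≤ q} gcd(q,q')/q ≤ 2 ∑_{q ≤ X} d(q) ≤ 2X ∑_{d ≤ X} 1/d ≤ 2 X (2 + log2 X)`:
`∑_{q' ≤ q} gcd(q,q') ≤ ∑_{d ∣ q} d · #{q' ≤ q : d ∣ q'} = ∑_{d ∣ q} q`; `harm_le`. -/
theorem gcdmax_sum (n : ℕ) : ∑ q ∈ Icc 1 (2 ^ n), ∑ q' ∈ Icc 1 (2 ^ n),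
    (Nat.gcd q q' : ℝ) / (max q q' : ℕ) ≤ 2 * 2 ^ n * (n + 2) := by
  set X := 2 ^ n with hX
  have hX1 : 1 ≤ X := Nat.one_le_two_pow
  -- half of the sum
  have hhalf : ∑ q ∈ Icc 1 X, ∑ q' ∈ Icc 1 q, (Nat.gcd q q' : ℝ) / q ≤ X * (n + 2) := by
    have e1 : ∀ q ∈ Icc 1 X, ∑ q' ∈ Icc 1 q, (Nat.gcd q q' : ℝ) / q ≤
        ∑ d ∈ Icc 1 X, if d ∣ q then (1 : ℝ) else 0 := by
      intro q hq
      rw [Finset.mem_Icc] at hq
      have hq0 : (0 : ℝ) < q := by exact_mod_cast hq.1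
      have e2 : ∀ q' ∈ Icc 1 q, (Nat.gcd q q' : ℝ) / q ≤
          ∑ d ∈ Icc 1 X, if d ∣ q then (if d ∣ q' then (d : ℝ) / q else 0) else 0 := by
        intro q' hq'
        rw [Finset.mem_Icc] at hq'
        have h3 := Finset.single_le_sum (s := Icc 1 X)
          (f := fun d => if d ∣ q then (if d ∣ q' then (d : ℝ) / q else 0) else 0)
          (a := Nat.gcd q q') (by
            intro d _
            show 0 ≤ if d ∣ q then (if d ∣ q' then (d : ℝ) / q else 0) else 0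
            split_ifs
            · positivity
            · exact le_rfl
            · exact le_rfl)
          (by
            rw [Finset.mem_Icc]
            refine ⟨Nat.gcd_pos_of_pos_left _ hq.1, ?_⟩
            exact (Nat.le_of_dvd hq.1 (Nat.gcd_dvd_left q q')).trans hq.2)
        simp only [if_pos (Nat.gcd_dvd_left q q'), if_pos (Nat.gcd_dvd_right q q')] at h3
        exact h3
      refine (Finset.sum_le_sum e2).trans ?_
      rw [Finset.sum_comm]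
      apply Finset.sum_le_sum
      intro d hd
      rw [Finset.mem_Icc] at hd
      by_cases hdq : d ∣ q
      · simp only [if_pos hdq]
        rw [← Finset.sum_filter, Finset.sum_const, nsmul_eq_mul]
        have hc : ((Icc 1 q).filter (fun x => d ∣ x)).card = q / d := by
          have := Nat.Ioc_filter_dvd_card_eq_div q d
          have h5 : Ioc 0 q = Icc 1 q := by
            ext x
            rw [Finset.mem_Ioc, Finset.mem_Icc]
            omega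
          rwa [h5] at this
        rw [hc]
        have h6 : ((q / d : ℕ) : ℝ) * (d : ℝ) = q := by
          exact_mod_cast Nat.div_mul_cancel hdq
        calc ((q / d : ℕ) : ℝ) * ((d : ℝ) / q) = (((q / d : ℕ) : ℝ) * (d : ℝ)) / q := by ring
          _ = 1 := by rw [h6]; exact div_self hq0.ne'
          _ ≤ 1 := le_rfl
      · simp only [if_neg hdq, Finset.sum_const_zero, le_refl]
    refine (Finset.sum_le_sum e1).trans ?_
    rw [Finset.sum_comm]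
    have e3 : ∀ d ∈ Icc 1 X, ∑ q ∈ Icc 1 X, (if d ∣ q then (1 : ℝ) else 0) ≤ X * (1 / (d : ℝ)) := by
      intro d hd
      rw [Finset.mem_Icc] at hd
      rw [← Finset.sum_filter, Finset.sum_const, nsmul_eq_mul, mul_one]
      have hc : ((Icc 1 X).filter (fun x => d ∣ x)).card = X / d := by
        have := Nat.Ioc_filter_dvd_card_eq_div X d
        have h5 : Ioc 0 X = Icc 1 X := by
          ext x
          rw [Finset.mem_Ioc, Finset.mem_Icc]
          omega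
        rwa [h5] at this
      rw [hc]
      calc ((X / d : ℕ) : ℝ) ≤ (X : ℝ) / d := Nat.cast_div_le
        _ = X * (1 / (d : ℝ)) := by ring
    refine (Finset.sum_le_sum e3).trans ?_
    rw [← Finset.mul_sum]
    apply mul_le_mul_of_nonneg_left _ (Nat.cast_nonneg X)
    have h7 := harm_le (X + 1)
    have h8 : Ico 1 (X + 1) = Icc 1 X := by
      ext x
      rw [Finset.mem_Ico, Finset.mem_Icc]
      omega
    rw [h8] at h7
    have h9 : Nat.log 2 (X + 1) ≤ n + 1 := by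
      have h10 : Nat.log 2 (X + 1) < n + 2 := by
        apply Nat.log_lt_of_lt_pow (by omega)
        rw [pow_add, ← hX]
        omega
      omega
    have h11 : (Nat.log 2 (X + 1) : ℝ) ≤ n + 1 := by exact_mod_cast h9
    linarith
  have hsplit : ∑ q ∈ Icc 1 X, ∑ q' ∈ Icc 1 X, (Nat.gcd q q' : ℝ) / (max q q' : ℕ) ≤
      ∑ q ∈ Icc 1 X, ∑ q' ∈ Icc 1 X, ((if q' ≤ q then (Nat.gcd q q' : ℝ) / q else 0) +
        (if q ≤ q' then (Nat.gcd q' q : ℝ) / q' else 0)) := by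
    apply Finset.sum_le_sum
    intro q hq
    apply Finset.sum_le_sum
    intro q' hq'
    rcases le_total q' q with h | h
    · rw [max_eq_left h, if_pos h]
      have : (0 : ℝ) ≤ (if q ≤ q' then (Nat.gcd q' q : ℝ) / q' else 0) := by
        split_ifs
        · positivity
        · exact le_rfl
      linarith
    · rw [max_eq_right h, if_pos h]
      have : (0 : ℝ) ≤ (if q' ≤ q then (Nat.gcd q q' : ℝ) / q else 0) := by
        split_ifs
        · positivity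
        · exact le_rfl
      rw [Nat.gcd_comm q q']
      rw [Nat.gcd_comm q q'] at this
      linarith
  have hsum : ∑ q ∈ Icc 1 X, ∑ q' ∈ Icc 1 X, (if q' ≤ q then (Nat.gcd q q' : ℝ) / q else 0) =
      ∑ q ∈ Icc 1 X, ∑ q' ∈ Icc 1 q, (Nat.gcd q q' : ℝ) / q := by
    apply Finset.sum_congr rfl
    intro q hq
    rw [Finset.mem_Icc] at hq
    rw [← Finset.sum_filter]
    apply Finset.sum_congr _ (fun _ _ => rfl)
    ext x
    rw [Finset.mem_filter, Finset.mem_Icc, Finset.mem_Icc]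
    omega
  have hcast : ((X : ℕ) : ℝ) = 2 ^ n := by
    rw [hX]
    push_cast
    ring
  calc _ ≤ _ := hsplit
    _ = (∑ q ∈ Icc 1 X, ∑ q' ∈ Icc 1 X, (if q' ≤ q then (Nat.gcd q q' : ℝ) / q else 0)) +
        ∑ q ∈ Icc 1 X, ∑ q' ∈ Icc 1 X, (if q ≤ q' then (Nat.gcd q' q : ℝ) / q' else 0) := by
        simp only [Finset.sum_add_distrib]
    _ = (∑ q ∈ Icc 1 X, ∑ q' ∈ Icc 1 X, (if q' ≤ q then (Nat.gcd q q' : ℝ) / q else 0)) +
        ∑ q' ∈ Icc 1 X, ∑ q ∈ Icc 1 X, (if q ≤ q' then (Nat.gcd q' q : ℝ) / q' else 0) := by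
        congr 1
        rw [Finset.sum_comm]
    _ ≤ X * (n + 2) + X * (n + 2) := by
        rw [hsum]
        linarith
    _ = 2 * 2 ^ n * (n + 2) := by
        rw [hcast]
        ring

/-- mean of `hom` : `∑_{a,b} hom = ∑_{q ≤ X} cone cone ≤ 36 X ξ1 ξ2 Q1 Q2` -/
theorem hom_mean (Q1 Q2 X : ℕ) (ξ1 ξ2 : ℝ) (h1 : 0 < ξ1) (h2 : 0 < ξ2)
    (hX1 : (X : ℝ) ≤ ξ1 * Q1) (hX2 : (X : ℝ) ≤ ξ2 * Q2) :
    ∑ a ∈ range Q1, ∑ b ∈ range Q2, (hom Q1 Q2 X ξ1 ξ2 a b : ℝ) ≤ 36 * X * ξ1 * ξ2 * Q1 * Q2 := by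
  classical
  have e1 : ∑ a ∈ range Q1, ∑ b ∈ range Q2, (hom Q1 Q2 X ξ1 ξ2 a b : ℝ) =
      ∑ q ∈ Icc 1 X, (cone Q1 ξ1 q : ℝ) * (cone Q2 ξ2 q : ℝ) := by
    have e2 : ∀ a b : ℕ, (hom Q1 Q2 X ξ1 ξ2 a b : ℝ) = ∑ q ∈ Icc 1 X,
        (if nd ((q : ℝ) * a / Q1) < ξ1 then (1 : ℝ) else 0) *
          (if nd ((q : ℝ) * b / Q2) < ξ2 then (1 : ℝ) else 0) := by
      intro a b
      unfold hom
      rw [Finset.card_filter]
      push_cast
      apply Finset.sum_congr rfl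
      intro q _
      by_cases c1 : nd ((q : ℝ) * a / Q1) < ξ1
      · by_cases c2 : nd ((q : ℝ) * b / Q2) < ξ2
        · simp [c1, c2]
        · simp [c1, c2]
      · simp [c1]
    have e3 : ∀ (Q : ℕ) (ξ : ℝ) (q : ℕ), (cone Q ξ q : ℝ) = ∑ a ∈ range Q,
        (if nd ((q : ℝ) * a / Q) < ξ then (1 : ℝ) else 0) := by
      intro Q ξ q
      unfold cone
      rw [Finset.card_filter]
      push_cast
      rfl
    simp only [e2, e3]
    have e4 : ∀ a ∈ range Q1, ∑ b ∈ range Q2, ∑ q ∈ Icc 1 X,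
        (if nd ((q : ℝ) * a / Q1) < ξ1 then (1 : ℝ) else 0) *
          (if nd ((q : ℝ) * b / Q2) < ξ2 then (1 : ℝ) else 0) =
        ∑ q ∈ Icc 1 X, (if nd ((q : ℝ) * a / Q1) < ξ1 then (1 : ℝ) else 0) *
          ∑ b ∈ range Q2, (if nd ((q : ℝ) * b / Q2) < ξ2 then (1 : ℝ) else 0) := by
      intro a _
      rw [Finset.sum_comm]
      apply Finset.sum_congr rfl
      intro q _
      rw [Finset.mul_sum]
    rw [Finset.sum_congr rfl e4, Finset.sum_comm]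
    apply Finset.sum_congr rfl
    intro q _
    rw [Finset.sum_mul]
  rw [e1]
  calc ∑ q ∈ Icc 1 X, (cone Q1 ξ1 q : ℝ) * (cone Q2 ξ2 q : ℝ)
      ≤ ∑ _q ∈ Icc 1 X, (6 * ξ1 * Q1) * (6 * ξ2 * Q2) := by
        apply Finset.sum_le_sum
        intro q hq
        rw [Finset.mem_Icc] at hq
        have hqX : (q : ℝ) ≤ X := by exact_mod_cast hq.2
        apply mul_le_mul (cone_le Q1 ξ1 q hq.1 (hqX.trans hX1))
          (cone_le Q2 ξ2 q hq.1 (hqX.trans hX2)) (Nat.cast_nonneg _) (by positivity)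
    _ = 36 * X * ξ1 * ξ2 * Q1 * Q2 := by
        rw [Finset.sum_const, Nat.card_Icc, nsmul_eq_mul, Nat.add_sub_cancel]
        ring

/-- mean of `pairN`: for each `(q,q')` the number of `(a,b)` is at most `cnon1 (cnon2 + cpar2) + (cnon1 + cpar1) cnon2`
`≤ Q1 Q2 (1152 ξ1² ξ2² + 144 (ξ1² ξ2 + ξ1 ξ2²) gcd/max)`; sum over `q, q' ≤ X = 2^n`. -/
theorem pairN_mean (Q1 Q2 n : ℕ) (ξ1 ξ2 : ℝ) (h1 : 0 < ξ1) (h2 : 0 < ξ2)
    (hX1 : (2 : ℝ) ^ n ≤ ξ1 * Q1) (hX2 : (2 : ℝ) ^ n ≤ ξ2 * Q2) :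
    ∑ a ∈ range Q1, ∑ b ∈ range Q2, (pairN Q1 Q2 (2 ^ n) ξ1 ξ2 a b : ℝ) ≤
      (1152 * (2 ^ n) ^ 2 * ξ1 ^ 2 * ξ2 ^ 2 +
        288 * (ξ1 ^ 2 * ξ2 + ξ1 * ξ2 ^ 2) * 2 ^ n * (n + 2)) * Q1 * Q2 := by
  classical
  set A : ℕ → ℝ → ℕ → ℕ → ℕ → ℝ := fun Q ξ q q' a =>
    if nd ((q : ℝ) * a / Q) < ξ ∧ nd ((q' : ℝ) * a / Q) < ξ ∧
      (q : ℤ) * round ((q' : ℝ) * a / Q) ≠ q' * round ((q : ℝ) * a / Q) then (1 : ℝ) else 0 with hA
  set B : ℕ → ℝ → ℕ → ℕ → ℕ → ℝ := fun Q ξ q q' a =>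
    if nd ((q : ℝ) * a / Q) < ξ ∧ nd ((q' : ℝ) * a / Q) < ξ ∧
      (q : ℤ) * round ((q' : ℝ) * a / Q) = q' * round ((q : ℝ) * a / Q) then (1 : ℝ) else 0 with hB
  have hA0 : ∀ Q ξ q q' a, 0 ≤ A Q ξ q q' a := by
    intro Q ξ q q' a
    rw [hA]
    show (0 : ℝ) ≤ if _ then (1 : ℝ) else 0
    split_ifs
    · exact zero_le_one
    · exact le_rfl
  have hB0 : ∀ Q ξ q q' a, 0 ≤ B Q ξ q q' a := by
    intro Q ξ q q' a
    rw [hB]
    show (0 : ℝ) ≤ if _ then (1 : ℝ) else 0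
    split_ifs
    · exact zero_le_one
    · exact le_rfl
  have sA : ∀ Q ξ q q', ∑ a ∈ range Q, A Q ξ q q' a = cnon Q ξ q q' := by
    intro Q ξ q q'
    unfold cnon
    rw [Finset.card_filter]
    push_cast
    rfl
  have sB : ∀ Q ξ q q', ∑ a ∈ range Q, B Q ξ q q' a = cpar Q ξ q q' := by
    intro Q ξ q q'
    unfold cpar
    rw [Finset.card_filter]
    push_cast
    rfl
  have e2 : ∀ a b : ℕ, (pairN Q1 Q2 (2 ^ n) ξ1 ξ2 a b : ℝ) ≤
      ∑ q ∈ Icc 1 (2 ^ n), ∑ q' ∈ Icc 1 (2 ^ n),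
        (A Q1 ξ1 q q' a * (A Q2 ξ2 q q' b + B Q2 ξ2 q q' b) +
          (A Q1 ξ1 q q' a + B Q1 ξ1 q q' a) * A Q2 ξ2 q q' b) := by
    intro a b
    unfold pairN
    rw [Finset.card_filter]
    push_cast
    rw [Finset.sum_product]
    apply Finset.sum_le_sum
    intro q _
    apply Finset.sum_le_sum
    intro q' _
    split_ifs with c
    · obtain ⟨c1, c2, c3, c4, c5⟩ := c
      rcases c5 with c5 | c5
      · have a1 : A Q1 ξ1 q q' a = 1 := if_pos ⟨c1, c3, c5⟩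
        have a2 : A Q2 ξ2 q q' b + B Q2 ξ2 q q' b = 1 := by
          by_cases c6 : (q : ℤ) * round ((q' : ℝ) * b / Q2) = q' * round ((q : ℝ) * b / Q2)
          · have b1 : A Q2 ξ2 q q' b = 0 := if_neg (fun h => h.2.2 c6)
            have b2 : B Q2 ξ2 q q' b = 1 := if_pos ⟨c2, c4, c6⟩
            rw [b1, b2, zero_add]
          · have b1 : A Q2 ξ2 q q' b = 1 := if_pos ⟨c2, c4, c6⟩
            have b2 : B Q2 ξ2 q q' b = 0 := if_neg (fun h => c6 h.2.2)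
            rw [b1, b2, add_zero]
        rw [a2, a1, mul_one]
        have := mul_nonneg (add_nonneg zero_le_one (hB0 Q1 ξ1 q q' a)) (hA0 Q2 ξ2 q q' b)
        linarith
      · have a1 : A Q2 ξ2 q q' b = 1 := if_pos ⟨c2, c4, c5⟩
        have a2 : A Q1 ξ1 q q' a + B Q1 ξ1 q q' a = 1 := by
          by_cases c6 : (q : ℤ) * round ((q' : ℝ) * a / Q1) = q' * round ((q : ℝ) * a / Q1)
          · have b1 : A Q1 ξ1 q q' a = 0 := if_neg (fun h => h.2.2 c6)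
            have b2 : B Q1 ξ1 q q' a = 1 := if_pos ⟨c1, c3, c6⟩
            rw [b1, b2, zero_add]
          · have b1 : A Q1 ξ1 q q' a = 1 := if_pos ⟨c1, c3, c6⟩
            have b2 : B Q1 ξ1 q q' a = 0 := if_neg (fun h => c6 h.2.2)
            rw [b1, b2, add_zero]
        rw [a2, a1, mul_one]
        have := mul_nonneg (hA0 Q1 ξ1 q q' a) (add_nonneg zero_le_one (hB0 Q2 ξ2 q q' b))
        linarith
    · exact add_nonneg (mul_nonneg (hA0 _ _ _ _ _) (add_nonneg (hA0 _ _ _ _ _) (hB0 _ _ _ _ _)))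
        (mul_nonneg (add_nonneg (hA0 _ _ _ _ _) (hB0 _ _ _ _ _)) (hA0 _ _ _ _ _))
  have e5 : ∑ a ∈ range Q1, ∑ b ∈ range Q2, (pairN Q1 Q2 (2 ^ n) ξ1 ξ2 a b : ℝ) ≤
      ∑ q ∈ Icc 1 (2 ^ n), ∑ q' ∈ Icc 1 (2 ^ n),
        ((cnon Q1 ξ1 q q' : ℝ) * ((cnon Q2 ξ2 q q' : ℝ) + cpar Q2 ξ2 q q') +
          ((cnon Q1 ξ1 q q' : ℝ) + cpar Q1 ξ1 q q') * cnon Q2 ξ2 q q') := by
    calc ∑ a ∈ range Q1, ∑ b ∈ range Q2, (pairN Q1 Q2 (2 ^ n) ξ1 ξ2 a b : ℝ)
        ≤ ∑ a ∈ range Q1, ∑ b ∈ range Q2, ∑ q ∈ Icc 1 (2 ^ n), ∑ q' ∈ Icc 1 (2 ^ n),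
          (A Q1 ξ1 q q' a * (A Q2 ξ2 q q' b + B Q2 ξ2 q q' b) +
          (A Q1 ξ1 q q' a + B Q1 ξ1 q q' a) * A Q2 ξ2 q q' b) :=
          Finset.sum_le_sum (fun a _ => Finset.sum_le_sum (fun b _ => e2 a b))
      _ = ∑ q ∈ Icc 1 (2 ^ n), ∑ q' ∈ Icc 1 (2 ^ n), ∑ a ∈ range Q1, ∑ b ∈ range Q2,
          (A Q1 ξ1 q q' a * (A Q2 ξ2 q q' b + B Q2 ξ2 q q' b) +
          (A Q1 ξ1 q q' a + B Q1 ξ1 q q' a) * A Q2 ξ2 q q' b) := by
          have f1 : ∀ a ∈ range Q1, ∑ b ∈ range Q2, ∑ q ∈ Icc 1 (2 ^ n), ∑ q' ∈ Icc 1 (2 ^ n),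
            (A Q1 ξ1 q q' a * (A Q2 ξ2 q q' b + B Q2 ξ2 q q' b) +
            (A Q1 ξ1 q q' a + B Q1 ξ1 q q' a) * A Q2 ξ2 q q' b) =
            ∑ q ∈ Icc 1 (2 ^ n), ∑ q' ∈ Icc 1 (2 ^ n), ∑ b ∈ range Q2,
            (A Q1 ξ1 q q' a * (A Q2 ξ2 q q' b + B Q2 ξ2 q q' b) +
            (A Q1 ξ1 q q' a + B Q1 ξ1 q q' a) * A Q2 ξ2 q q' b) := by
            intro a _
            rw [Finset.sum_comm]
            apply Finset.sum_congr rfl
            intro q _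
            rw [Finset.sum_comm]
          rw [Finset.sum_congr rfl f1, Finset.sum_comm]
          apply Finset.sum_congr rfl
          intro q _
          rw [Finset.sum_comm]
      _ = _ := by
          apply Finset.sum_congr rfl
          intro q _
          apply Finset.sum_congr rfl
          intro q' _
          have f2 : ∀ a ∈ range Q1, ∑ b ∈ range Q2,
              (A Q1 ξ1 q q' a * (A Q2 ξ2 q q' b + B Q2 ξ2 q q' b) +
              (A Q1 ξ1 q q' a + B Q1 ξ1 q q' a) * A Q2 ξ2 q q' b) =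
              A Q1 ξ1 q q' a * ((cnon Q2 ξ2 q q' : ℝ) + cpar Q2 ξ2 q q') +
              (A Q1 ξ1 q q' a + B Q1 ξ1 q q' a) * cnon Q2 ξ2 q q' := by
            intro a _
            rw [Finset.sum_add_distrib, ← Finset.mul_sum, ← Finset.mul_sum,
              Finset.sum_add_distrib, sA, sB]
          rw [Finset.sum_congr rfl f2, Finset.sum_add_distrib, ← Finset.sum_mul, ← Finset.sum_mul,
            Finset.sum_add_distrib, sA, sB]
  refine e5.trans ?_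
  set γ : ℕ → ℕ → ℝ := fun q q' => (Nat.gcd q q' : ℝ) / (max q q' : ℕ) with hγ
  have hγ0 : ∀ q q', 0 ≤ γ q q' := by
    intro q q'
    rw [hγ]
    positivity
  have e6 : ∀ q ∈ Icc 1 (2 ^ n), ∀ q' ∈ Icc 1 (2 ^ n),
      ((cnon Q1 ξ1 q q' : ℝ) * ((cnon Q2 ξ2 q q' : ℝ) + cpar Q2 ξ2 q q') +
          ((cnon Q1 ξ1 q q' : ℝ) + cpar Q1 ξ1 q q') * cnon Q2 ξ2 q q') ≤
      (1152 * ξ1 ^ 2 * ξ2 ^ 2 + 144 * (ξ1 ^ 2 * ξ2 + ξ1 * ξ2 ^ 2) * γ q q') * Q1 * Q2 := by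
    intro q hq q' hq'
    rw [Finset.mem_Icc] at hq hq'
    have hqX : (q : ℝ) ≤ 2 ^ n := by exact_mod_cast hq.2
    have hqX' : (q' : ℝ) ≤ 2 ^ n := by exact_mod_cast hq'.2
    have n1 := cnon_le Q1 ξ1 q q' hq.1 hq'.1 h1 (hqX.trans hX1) (hqX'.trans hX1)
    have n2 := cnon_le Q2 ξ2 q q' hq.1 hq'.1 h2 (hqX.trans hX2) (hqX'.trans hX2)
    have p1 := cpar_le Q1 ξ1 q q' hq.1 hq'.1 h1 (hqX.trans hX1) (hqX'.trans hX1)
    have p2 := cpar_le Q2 ξ2 q q' hq.1 hq'.1 h2 (hqX.trans hX2) (hqX'.trans hX2)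
    have hg := hγ0 q q'
    have p1' : (cpar Q1 ξ1 q q' : ℝ) ≤ 6 * ξ1 * Q1 * γ q q' := p1
    have p2' : (cpar Q2 ξ2 q q' : ℝ) ≤ 6 * ξ2 * Q2 * γ q q' := p2
    have m1 : (cnon Q1 ξ1 q q' : ℝ) * ((cnon Q2 ξ2 q q' : ℝ) + cpar Q2 ξ2 q q') ≤
        (24 * ξ1 ^ 2 * Q1) * (24 * ξ2 ^ 2 * Q2 + 6 * ξ2 * Q2 * γ q q') :=
      mul_le_mul n1 (add_le_add n2 p2') (by positivity) (by positivity)
    have m2 : ((cnon Q1 ξ1 q q' : ℝ) + cpar Q1 ξ1 q q') * cnon Q2 ξ2 q q' ≤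
        (24 * ξ1 ^ 2 * Q1 + 6 * ξ1 * Q1 * γ q q') * (24 * ξ2 ^ 2 * Q2) :=
      mul_le_mul (add_le_add n1 p1') n2 (by positivity) (by positivity)
    calc _ ≤ _ := add_le_add m1 m2
      _ = _ := by ring
  refine (Finset.sum_le_sum (fun q hq => Finset.sum_le_sum (fun q' hq' => e6 q hq q' hq'))).trans ?_
  have e7 : ∑ q ∈ Icc 1 (2 ^ n), ∑ q' ∈ Icc 1 (2 ^ n),
      (1152 * ξ1 ^ 2 * ξ2 ^ 2 + 144 * (ξ1 ^ 2 * ξ2 + ξ1 * ξ2 ^ 2) * γ q q') * Q1 * Q2 =
      (1152 * (2 ^ n) ^ 2 * ξ1 ^ 2 * ξ2 ^ 2 + 144 * (ξ1 ^ 2 * ξ2 + ξ1 * ξ2 ^ 2) *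
        ∑ q ∈ Icc 1 (2 ^ n), ∑ q' ∈ Icc 1 (2 ^ n), γ q q') * Q1 * Q2 := by
    simp only [← Finset.sum_mul, Finset.sum_add_distrib, ← Finset.mul_sum, Finset.sum_const,
      Nat.card_Icc, nsmul_eq_mul, Nat.add_sub_cancel]
    push_cast
    ring
  rw [e7]
  have e8 := gcdmax_sum n
  have e9 : (1152 * (2 ^ n) ^ 2 * ξ1 ^ 2 * ξ2 ^ 2 + 144 * (ξ1 ^ 2 * ξ2 + ξ1 * ξ2 ^ 2) *
        ∑ q ∈ Icc 1 (2 ^ n), ∑ q' ∈ Icc 1 (2 ^ n), γ q q') ≤
      (1152 * (2 ^ n) ^ 2 * ξ1 ^ 2 * ξ2 ^ 2 +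
        288 * (ξ1 ^ 2 * ξ2 + ξ1 * ξ2 ^ 2) * 2 ^ n * (n + 2)) := by
    have := mul_le_mul_of_nonneg_left e8
      (by positivity : (0 : ℝ) ≤ 144 * (ξ1 ^ 2 * ξ2 + ξ1 * ξ2 ^ 2))
    calc _ ≤ 1152 * (2 ^ n) ^ 2 * ξ1 ^ 2 * ξ2 ^ 2 +
        144 * (ξ1 ^ 2 * ξ2 + ξ1 * ξ2 ^ 2) * (2 * 2 ^ n * (n + 2)) := by
          exact add_le_add le_rfl this
      _ = _ := by ring
  exact mul_le_mul_of_nonneg_right (mul_le_mul_of_nonneg_right e9 (Nat.cast_nonneg _))
    (Nat.cast_nonneg _)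

/-- Rank 2: every return is non parallel to some return (if `v` were parallel to both `w, w'` of the definition of `rank2`, where
parallel means that the integer vectors `(q, round (q a/Q1), round (q b/Q2))` are proportional, `w, w'` would be parallel, as `q ≥ 1`),
so `1 + hom ≤ 2 pairN` for every smaller box. -/
theorem rank2_pair (Q1 Q2 X X' : ℕ) (ξ1 ξ2 ξ1' ξ2' : ℝ) (a b : ℕ) (hX : X' ≤ X) (h1 : ξ1' ≤ ξ1)
    (h2 : ξ2' ≤ ξ2) (hr : rank2 Q1 Q2 X ξ1 ξ2 a b) :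
    (1 + (hom Q1 Q2 X' ξ1' ξ2' a b : ℝ)) ≤ 2 * (pairN Q1 Q2 X ξ1 ξ2 a b : ℝ) := by
  classical
  obtain ⟨q, q', ⟨x1, x2⟩, ⟨x3, x4⟩, y1, y2, y3, y4, y5⟩ := hr
  set T := (Icc 1 X ×ˢ Icc 1 X).filter (fun p : ℕ × ℕ =>
    nd ((p.1 : ℝ) * a / Q1) < ξ1 ∧ nd ((p.1 : ℝ) * b / Q2) < ξ2 ∧
    nd ((p.2 : ℝ) * a / Q1) < ξ1 ∧ nd ((p.2 : ℝ) * b / Q2) < ξ2 ∧
    ((p.1 : ℤ) * round ((p.2 : ℝ) * a / Q1) ≠ p.2 * round ((p.1 : ℝ) * a / Q1) ∨
      (p.1 : ℤ) * round ((p.2 : ℝ) * b / Q2) ≠ p.2 * round ((p.1 : ℝ) * b / Q2))) with hT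
  have hTc : pairN Q1 Q2 X ξ1 ξ2 a b = T.card := by
    unfold pairN
    rw [hT]
  have k1 : 1 ≤ T.card := by
    apply Finset.card_pos.2
    refine ⟨(q, q'), ?_⟩
    rw [hT, Finset.mem_filter, Finset.mem_product, Finset.mem_Icc, Finset.mem_Icc]
    exact ⟨⟨⟨x1, x2⟩, ⟨x3, x4⟩⟩, y1, y2, y3, y4, y5⟩
  have k2 : hom Q1 Q2 X' ξ1' ξ2' a b ≤ T.card := by
    unfold hom
    have hsub : (Icc 1 X').filter (fun q : ℕ => nd ((q : ℝ) * a / Q1) < ξ1' ∧
        nd ((q : ℝ) * b / Q2) < ξ2') ⊆ T.image Prod.fst := by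
      intro v hv
      rw [Finset.mem_filter, Finset.mem_Icc] at hv
      obtain ⟨⟨v1, v2⟩, v3, v4⟩ := hv
      rw [Finset.mem_image]
      by_cases c : ((v : ℤ) * round ((q : ℝ) * a / Q1) ≠ q * round ((v : ℝ) * a / Q1) ∨
        (v : ℤ) * round ((q : ℝ) * b / Q2) ≠ q * round ((v : ℝ) * b / Q2))
      · refine ⟨(v, q), ?_, rfl⟩
        rw [hT, Finset.mem_filter, Finset.mem_product, Finset.mem_Icc, Finset.mem_Icc]
        exact ⟨⟨⟨v1, v2.trans hX⟩, ⟨x1, x2⟩⟩, v3.trans_le h1, v4.trans_le h2, y1, y2, c⟩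
      · by_cases c' : ((v : ℤ) * round ((q' : ℝ) * a / Q1) ≠ q' * round ((v : ℝ) * a / Q1) ∨
          (v : ℤ) * round ((q' : ℝ) * b / Q2) ≠ q' * round ((v : ℝ) * b / Q2))
        · refine ⟨(v, q'), ?_, rfl⟩
          rw [hT, Finset.mem_filter, Finset.mem_product, Finset.mem_Icc, Finset.mem_Icc]
          exact ⟨⟨⟨v1, v2.trans hX⟩, ⟨x3, x4⟩⟩, v3.trans_le h1, v4.trans_le h2, y3, y4, c'⟩
        · exfalso
          push Not at c c'
          have hv0 : (v : ℤ) ≠ 0 := by exact_mod_cast (by omega : v ≠ 0)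
          rcases y5 with y5 | y5
          · apply y5
            apply mul_left_cancel₀ hv0
            linear_combination (q : ℤ) * c'.1 - q' * c.1
          · apply y5
            apply mul_left_cancel₀ hv0
            linear_combination (q : ℤ) * c'.2 - q' * c.2
    have k3 := (Finset.card_le_card hsub).trans Finset.card_image_le
    convert k3
  rw [hTc]
  have k4 : (hom Q1 Q2 X' ξ1' ξ2' a b : ℝ) ≤ T.card := by exact_mod_cast k2
  have k5 : (1 : ℝ) ≤ T.card := by exact_mod_cast k1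
  linarith

end MP_5e4520_nt.Ex
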