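import Pool.Agent.Lib.MP_5e4520_ntE.L2
import Pool.Agent.Lib.MP_5e4520_ntE.Fo3
import Pool.Agent.Lib.MP_5e4520_ntE.V4
import Pool.Agent.Lib.MP_5e4520_ntE.G1
set_option autoImplicit false

/-!
# Large blocks: the bad pairs and the non generic coarse pairs are rare
-/

namespace MP_5e4520_nt.Ex

open Finset

/-- JOB L5 (auxiliary): pointwise dyadic bound -/
private theorem L5_pt (K : ℕ) (hK : 0 < K) (η : ℝ) (hη : 0 < η) (J : ℕ) (hJ : 1 / 2 ≤ 2 ^ J * η) (θ : ℝ) :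
    (if η < nd θ then fej K θ else 0) ≤
      ∑ j ∈ range J, (if nd θ ≤ 2 ^ (j + 1) * η then 1 / (4 * (K : ℝ) * 4 ^ j * η ^ 2) else 0) := by
  have hK' : (0 : ℝ) < K := by exact_mod_cast hK
  have hnn : ∀ j ∈ range J, (0 : ℝ) ≤
      (if nd θ ≤ 2 ^ (j + 1) * η then 1 / (4 * (K : ℝ) * 4 ^ j * η ^ 2) else 0) := by
    intro j _
    split_ifs
    · positivity
    · exact le_rfl
  by_cases h : η < nd θ
  · rw [if_pos h]
    have hex : ∃ j : ℕ, nd θ ≤ 2 ^ j * η := ⟨J, (nd_le_half θ).trans hJ⟩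
    classical
    set j0 := Nat.find hex with hj0
    have h1 : nd θ ≤ 2 ^ j0 * η := Nat.find_spec hex
    have h2 : j0 ≤ J := Nat.find_min' hex ((nd_le_half θ).trans hJ)
    have h3 : j0 ≠ 0 := by
      intro h0
      rw [h0, pow_zero, one_mul] at h1
      linarith
    obtain ⟨i, hi⟩ : ∃ i, j0 = i + 1 := ⟨j0 - 1, by omega⟩
    have h4 : 2 ^ i * η < nd θ := by
      have := Nat.find_min hex (m := i) (by omega)
      exact not_le.1 this
    have hmem : i ∈ range J := by rw [mem_range]; omega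
    refine le_trans ?_ (single_le_sum hnn hmem)
    rw [if_pos (by rw [← hi]; exact h1)]
    have h5 : 0 < nd θ := hη.trans h
    refine (fej_le_inv K θ h5).trans ?_
    apply one_div_le_one_div_of_le (by positivity)
    have h6 : (2 ^ i * η) ^ 2 ≤ nd θ ^ 2 := pow_le_pow_left₀ (by positivity) h4.le 2
    have h7 : (2 ^ i * η) ^ 2 = 4 ^ i * η ^ 2 := by
      rw [mul_pow, ← pow_mul, mul_comm i 2, pow_mul]
      norm_num
    rw [h7] at h6
    calc 4 * (K : ℝ) * 4 ^ i * η ^ 2 = 4 * K * (4 ^ i * η ^ 2) := by ring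
      _ ≤ 4 * K * nd θ ^ 2 := mul_le_mul_of_nonneg_left h6 (by positivity)
  · rw [if_neg h]
    exact sum_nonneg hnn

private theorem L5_geom (J : ℕ) : ∑ j ∈ range J, (1 : ℝ) / 2 ^ j ≤ 2 := by
  have h : ∀ J : ℕ, ∑ j ∈ range J, (1 : ℝ) / 2 ^ j = 2 - 2 / 2 ^ J := by
    intro J
    induction J with
    | zero => simp
    | succ n ih =>
      rw [sum_range_succ, ih, pow_succ]
      field_simp
      ring
  rw [h]
  have : (0 : ℝ) ≤ 2 / 2 ^ J := by positivity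
  linarith

open Classical in
/-- JOB L5.  Average of the tail of a Fejer kernel.  `P1 = 2^u`, `P2 = 2^v`, `(h,h') ≠ 0`, `|h|/P1 ≤ η`, `|h'|/P2 ≤ η`:
`∑_{a,b} fej K(θ) 1[‖θ‖ > η] ≤ 8/(K η) P1 P2`, `θ = h a/P1 + h' b/P2`.  Dyadic: for `2^j η < ‖θ‖ ≤ 2^(j+1) η` we have
`fej K ≤ 1/(4 K 4^j η²)` (`fejn_dec`) and `cnt_two` bounds the number of pairs by `(2·2^(j+1) η + 2η) P1 P2 ≤ 2^(j+3) η P1 P2`;
`∑_j 2^(j+3) η/(4 K 4^j η²) ≤ 4/(K η)`. -/
theorem fej_tail_avg (P1 P2 : ℕ) (hP1 : 0 < P1) (hP2 : 0 < P2) (h h' : ℤ) (h0 : h ≠ 0 ∨ h' ≠ 0)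
    (K : ℕ) (hK : 0 < K) (η : ℝ) (hη : 0 < η) (h1 : |(h : ℝ)| ≤ η * P1) (h2 : |(h' : ℝ)| ≤ η * P2) :
    ∑ a ∈ range P1, ∑ b ∈ range P2,
      (if η < nd ((h : ℝ) * a / P1 + (h' : ℝ) * b / P2) then
        fej K ((h : ℝ) * a / P1 + (h' : ℝ) * b / P2) else 0) ≤ 8 / (K * η) * P1 * P2 := by
  have hK' : (0 : ℝ) < K := by exact_mod_cast hK
  have hP1' : (0 : ℝ) < P1 := by exact_mod_cast hP1
  have hP2' : (0 : ℝ) < P2 := by exact_mod_cast hP2
  obtain ⟨J, hJ⟩ : ∃ J : ℕ, 1 / 2 ≤ (2 : ℝ) ^ J * η := by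
    obtain ⟨J, hJ⟩ := pow_unbounded_of_one_lt (1 / (2 * η)) (one_lt_two)
    refine ⟨J, ?_⟩
    rw [div_lt_iff₀ (by positivity)] at hJ
    linarith
  calc ∑ a ∈ range P1, ∑ b ∈ range P2,
      (if η < nd ((h : ℝ) * a / P1 + (h' : ℝ) * b / P2) then
        fej K ((h : ℝ) * a / P1 + (h' : ℝ) * b / P2) else 0)
      ≤ ∑ a ∈ range P1, ∑ b ∈ range P2, ∑ j ∈ range J,
        (if nd ((h : ℝ) * a / P1 + (h' : ℝ) * b / P2) ≤ 2 ^ (j + 1) * η then
          1 / (4 * (K : ℝ) * 4 ^ j * η ^ 2) else 0) :=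
        sum_le_sum fun a _ => sum_le_sum fun b _ => L5_pt K hK η hη J hJ _
    _ = ∑ j ∈ range J, ∑ p ∈ range P1 ×ˢ range P2,
        (if nd ((h : ℝ) * p.1 / P1 + (h' : ℝ) * p.2 / P2) ≤ 2 ^ (j + 1) * η then
          1 / (4 * (K : ℝ) * 4 ^ j * η ^ 2) else 0) := by
        rw [← sum_product' (range P1) (range P2) (fun a b => ∑ j ∈ range J,
          (if nd ((h : ℝ) * a / P1 + (h' : ℝ) * b / P2) ≤ 2 ^ (j + 1) * η then
            1 / (4 * (K : ℝ) * 4 ^ j * η ^ 2) else 0)), sum_comm]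
    _ ≤ ∑ j ∈ range J, 2 / (K * η) * P1 * P2 * (1 / 2 ^ j) := by
        apply sum_le_sum
        intro j _
        rw [← sum_filter, sum_const, nsmul_eq_mul]
        have hc := cnt_two P1 P2 hP1 hP2 h h' h0 (2 ^ (j + 1) * η) (by positivity)
        have hj1 : (1 : ℝ) ≤ 2 ^ j := one_le_pow₀ (by norm_num)
        have hb1 : (P1 : ℝ) * |(h' : ℝ)| ≤ P1 * (η * P2) := mul_le_mul_of_nonneg_left h2 hP1'.le
        have hb2 : (P2 : ℝ) * |(h : ℝ)| ≤ P2 * (η * P1) := mul_le_mul_of_nonneg_left h1 hP2'.le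
        have hc2 : 2 * (2 ^ (j + 1) * η) * P1 * P2 + P1 * |(h' : ℝ)| + P2 * |(h : ℝ)| ≤
            8 * 2 ^ j * η * P1 * P2 := by
          have h9 : 0 < η * P1 * P2 := by positivity
          have h10 : η * P1 * P2 ≤ 2 ^ j * (η * P1 * P2) := le_mul_of_one_le_left h9.le hj1
          calc _ ≤ 2 * (2 ^ (j + 1) * η) * P1 * P2 + P1 * (η * P2) + P2 * (η * P1) := by linarith
            _ = 4 * (2 ^ j * (η * P1 * P2)) + 2 * (η * P1 * P2) := by rw [pow_succ]; ring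
            _ ≤ 8 * (2 ^ j * (η * P1 * P2)) := by linarith [mul_pos (pow_pos (zero_lt_two' ℝ) j) h9]
            _ = _ := by ring
        calc _ ≤ (8 * 2 ^ j * η * P1 * P2) * (1 / (4 * (K : ℝ) * 4 ^ j * η ^ 2)) :=
              mul_le_mul_of_nonneg_right (hc.trans hc2) (by positivity)
          _ = 2 / (K * η) * P1 * P2 * (1 / 2 ^ j) := by
              have e4 : (4 : ℝ) ^ j = 2 ^ j * 2 ^ j := by
                rw [← mul_pow]; norm_num
              rw [e4]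
              field_simp
              norm_num
    _ ≤ 2 / (K * η) * P1 * P2 * 2 := by
        rw [← mul_sum]
        exact mul_le_mul_of_nonneg_left (L5_geom J) (by positivity)
    _ ≤ 8 / (K * η) * P1 * P2 := by
        have : 0 ≤ 1 / (K * η) * P1 * P2 := by positivity
        have e1 : 2 / (K * η) * P1 * P2 * 2 = 4 * (1 / (K * η) * P1 * P2) := by ring
        have e2 : 8 / (K * η) * P1 * P2 = 8 * (1 / (K * η) * P1 * P2) := by ring
        rw [e1, e2]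
        linarith

open Classical in
/-- one-sided non core mass -/
private theorem L5_nc (s u κ x : ℕ) (hs : 200 ≤ s) (hx : x < s) (hκ : 10000 * s ≤ κ) (hu : κ + 2 ≤ u) :
    ∑ h ∈ SR (2 ^ u), (if ¬ core1 s κ h then ct (2 ^ (u - (κ + 2 - x))) (2 ^ u) h else 0) ≤
      2 / 2 ^ (29 * s) := by
  set k : ℕ := κ + 2 - x with hk
  have hku : k ≤ u := by omega
  have hw : 0 < 2 ^ (u - k) := by positivity
  have hQ : 0 < 2 ^ u := by positivity
  have hlow := ct_low (2 ^ (u - k)) (2 ^ u) hw hQ (2 ^ (κ - 30 * s))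
  have hhigh := ct_high (2 ^ (u - k)) (2 ^ u) hw hQ (2 ^ (κ + 30 * s)) (by positivity)
  have hkey : ∑ h ∈ SR (2 ^ u), (if ¬ core1 s κ h then ct (2 ^ (u - k)) (2 ^ u) h else 0) ≤
      ∑ h ∈ (SR (2 ^ u)).filter (fun h => |h| < ((2 ^ (κ - 30 * s) : ℕ) : ℤ)),
        ct (2 ^ (u - k)) (2 ^ u) h +
      ∑ h ∈ (SR (2 ^ u)).filter (fun h => ((2 ^ (κ + 30 * s) : ℕ) : ℤ) < |h|),
        ct (2 ^ (u - k)) (2 ^ u) h := by
    rw [Finset.sum_filter, Finset.sum_filter, ← Finset.sum_add_distrib]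
    apply Finset.sum_le_sum
    intro h _
    have h0 := ct_nonneg (2 ^ (u - k)) (2 ^ u) h
    by_cases hc : core1 s κ h
    · rw [if_neg (not_not.2 hc)]
      apply add_nonneg <;> split_ifs <;> first | exact h0 | exact le_rfl
    · rw [if_pos hc]
      unfold core1 at hc
      rw [not_and_or] at hc
      rcases hc with hc | hc
      · rw [if_pos (by push_cast; exact not_le.1 hc)]
        have : 0 ≤ (if ((2 ^ (κ + 30 * s) : ℕ) : ℤ) < |h| then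
          ct (2 ^ (u - k)) (2 ^ u) h else 0) := by split_ifs <;> first | exact h0 | exact le_rfl
        linarith
      · rw [if_pos (show ((2 ^ (κ + 30 * s) : ℕ) : ℤ) < |h| by
          push_cast; exact not_le.1 hc)]
        have : 0 ≤ (if |h| < ((2 ^ (κ - 30 * s) : ℕ) : ℤ) then
          ct (2 ^ (u - k)) (2 ^ u) h else 0) := by split_ifs <;> first | exact h0 | exact le_rfl
        linarith
  have hmon : ∀ z w : ℕ, z ≤ w → (2 : ℝ) ^ z ≤ (2 : ℝ) ^ w := fun z w h =>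
    pow_le_pow_right₀ (by norm_num) h
  have e1 : (2 : ℝ) ^ u = 2 ^ (u - k) * 2 ^ k := by
    rw [← pow_add]; congr 1; omega
  have hb1 : (2 * ((2 ^ (κ - 30 * s) : ℕ) : ℝ) + 1) *
      (((2 ^ (u - k) : ℕ) : ℝ) / ((2 ^ u : ℕ) : ℝ)) ≤ 1 / 2 ^ (29 * s) := by
    push_cast
    have e2 : (2 : ℝ) ^ (u - k) / 2 ^ u = 1 / 2 ^ k := by
      rw [e1]
      rw [div_mul_eq_div_div, div_self (by positivity)]
    rw [e2]
    have h1 : (1 : ℝ) ≤ 2 ^ (κ - 30 * s) := one_le_pow₀ (by norm_num)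
    calc (2 * (2 : ℝ) ^ (κ - 30 * s) + 1) * (1 / 2 ^ k)
        ≤ (2 ^ 2 * (2 : ℝ) ^ (κ - 30 * s)) * (1 / 2 ^ k) := by
          apply mul_le_mul_of_nonneg_right _ (by positivity)
          linarith
      _ ≤ 1 / 2 ^ (29 * s) := by
          rw [mul_one_div, div_le_div_iff₀ (by positivity) (by positivity), one_mul, ← pow_add,
            ← pow_add]
          apply hmon
          omega
  have hb2 : ((2 ^ u : ℕ) : ℝ) / (2 * ((2 ^ (u - k) : ℕ) : ℝ) * ((2 ^ (κ + 30 * s) : ℕ) : ℝ)) ≤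
      1 / 2 ^ (29 * s) := by
    push_cast
    rw [e1, div_le_div_iff₀ (by positivity) (by positivity), one_mul]
    have h2 : (2 : ℝ) ^ k * 2 ^ (29 * s) ≤ 2 * 2 ^ (κ + 30 * s) := by
      rw [← pow_add, ← pow_succ']
      apply hmon
      omega
    calc (2 : ℝ) ^ (u - k) * 2 ^ k * 2 ^ (29 * s) = 2 ^ (u - k) * (2 ^ k * 2 ^ (29 * s)) := by ring
      _ ≤ 2 ^ (u - k) * (2 * 2 ^ (κ + 30 * s)) := mul_le_mul_of_nonneg_left h2 (by positivity)
      _ = 2 * 2 ^ (u - k) * 2 ^ (κ + 30 * s) := by ring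
  calc _ ≤ _ := hkey
    _ ≤ 1 / 2 ^ (29 * s) + 1 / 2 ^ (29 * s) := add_le_add (hlow.trans hb1) (hhigh.trans hb2)
    _ = 2 / 2 ^ (29 * s) := by ring

open Classical in
/-- two-sided non core mass -/
private theorem L5_nc2 (s u v κ lm x y : ℕ) (hs : 200 ≤ s) (hx : x < s) (hy : y < s)
    (hκ : 10000 * s ≤ κ) (hlm : 10000 * s ≤ lm) (hu : κ + 2 ≤ u) (hv : lm + 2 ≤ v) :
    ∑ h ∈ SR (2 ^ u), ∑ h' ∈ SR (2 ^ v),
      (if ¬ (core1 s κ h ∧ core1 s lm h') then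
        ct (2 ^ (u - (κ + 2 - x))) (2 ^ u) h * ct (2 ^ (v - (lm + 2 - y))) (2 ^ v) h' else 0) ≤
      4 / 2 ^ (29 * s) := by
  have hu2 : 2 ∣ 2 ^ u := dvd_pow_self 2 (by omega)
  have hv2 : 2 ∣ 2 ^ v := dvd_pow_self 2 (by omega)
  have nu := L5_nc s u κ x hs hx hκ hu
  have nv := L5_nc s v lm y hs hy hlm hv
  set k : ℕ := κ + 2 - x with hk
  set l : ℕ := lm + 2 - y with hl
  have su := ct_sum (2 ^ (u - k)) (2 ^ u) (by positivity)
    (Nat.pow_le_pow_right (by norm_num) (Nat.sub_le _ _)) hu2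
  have sv := ct_sum (2 ^ (v - l)) (2 ^ v) (by positivity)
    (Nat.pow_le_pow_right (by norm_num) (Nat.sub_le _ _)) hv2
  calc _ ≤ ∑ h ∈ SR (2 ^ u), ∑ h' ∈ SR (2 ^ v),
      ((if ¬ core1 s κ h then ct (2 ^ (u - k)) (2 ^ u) h else 0) * ct (2 ^ (v - l)) (2 ^ v) h' +
        ct (2 ^ (u - k)) (2 ^ u) h * (if ¬ core1 s lm h' then ct (2 ^ (v - l)) (2 ^ v) h' else 0)) := by
        apply Finset.sum_le_sum; intro h _
        apply Finset.sum_le_sum; intro h' _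
        have a1 := ct_nonneg (2 ^ (u - k)) (2 ^ u) h
        have a2 := ct_nonneg (2 ^ (v - l)) (2 ^ v) h'
        have a3 := mul_nonneg a1 a2
        by_cases c1 : core1 s κ h <;> by_cases c2 : core1 s lm h' <;> simp [c1, c2, a3]
    _ = (∑ h ∈ SR (2 ^ u), (if ¬ core1 s κ h then ct (2 ^ (u - k)) (2 ^ u) h else 0)) *
          (∑ h' ∈ SR (2 ^ v), ct (2 ^ (v - l)) (2 ^ v) h') +
        (∑ h ∈ SR (2 ^ u), ct (2 ^ (u - k)) (2 ^ u) h) *
          (∑ h' ∈ SR (2 ^ v), (if ¬ core1 s lm h' then ct (2 ^ (v - l)) (2 ^ v) h' else 0)) := by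
        rw [Finset.sum_mul_sum, Finset.sum_mul_sum, ← Finset.sum_add_distrib]
        apply Finset.sum_congr rfl; intro h _
        rw [← Finset.sum_add_distrib]
    _ ≤ 2 / 2 ^ (29 * s) + 2 / 2 ^ (29 * s) := by
        rw [su, sv, mul_one, one_mul]
        exact add_le_add nu nv
    _ = _ := by ring

private theorem L5_num (s : ℕ) (hs : 200 ≤ s) : 64 * s ^ 2 ≤ 2 ^ s := by
  induction s, hs using Nat.le_induction with
  | base => norm_num
  | succ s hs ih =>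
    rw [pow_succ 2 s]
    have : 64 * (s + 1) ^ 2 ≤ (64 * s ^ 2) * 2 := by nlinarith
    exact this.trans (Nat.mul_le_mul_right 2 ih)

/-- Mean of `Y1`.  For fixed `x, y`: non core frequencies with `ct ct' ≠ 0`: the average of `fej` is `1` (`fej_avg_one` with
`u = 2κ+lm`, `2^(u-k') = 2^(κ+lm+x-2)`, `K = 2^(ρ-2) ≤ 2^(κ+lm+x-2)`), their total mass is
`≤ 2·(ct_low + ct_high) ≤ 2^(-28 s)` (`H = 2^(κ-30s)` resp. `2^(κ+30s)`, `∑ ct = 1`); core, not near: `fej_tail_avg` with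
`η = 2^(50s)/2^(κ+lm)`: `≤ 8·2^(2-ρ) 2^(κ+lm-50s) ≤ 2^(5 - 36 s)`.  Sum over `x, y`: `≤ s² 2^(-27 s) ≤ 2^(-20s)`. -/
theorem Y1_mean (κ lm σ s : ℕ) (hs : 200 ≤ s) (hp : ParC κ lm σ s) :
    ∑ a ∈ range (2 ^ (2 * κ + lm)), ∑ b ∈ range (2 ^ (κ + 2 * lm)), Y1 κ lm s a b ≤
      1 / 2 ^ (20 * s) * (2 ^ (2 * κ + lm) * 2 ^ (κ + 2 * lm)) := by
  classical
  obtain ⟨-, h1, h2, h3⟩ := hp
  have hκ : 10000 * s ≤ κ := by omega
  have hlm : 10000 * s ≤ lm := by omega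
  set u : ℕ := 2 * κ + lm with hu
  set v : ℕ := κ + 2 * lm with hv
  have hu2 : 2 ∣ 2 ^ u := dvd_pow_self 2 (by omega)
  have hv2 : 2 ∣ 2 ^ v := dvd_pow_self 2 (by omega)
  have hmon : ∀ z w : ℕ, z ≤ w → (2 : ℝ) ^ z ≤ (2 : ℝ) ^ w := fun z w h =>
    pow_le_pow_right₀ (by norm_num) h
  have hPu : (((2 ^ u : ℕ)) : ℝ) = 2 ^ u := by push_cast; rfl
  have hPv : (((2 ^ v : ℕ)) : ℝ) = 2 ^ v := by push_cast; rfl
  -- one pair (x, y)
  have hterm : ∀ x ∈ range s, ∀ y ∈ range s,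
      ∑ a ∈ range (2 ^ u), ∑ b ∈ range (2 ^ v),
      ∑ h ∈ SR (2 ^ u), ∑ h' ∈ SR (2 ^ v),
        (if (h ≠ 0 ∨ h' ≠ 0) ∧ ¬ (core1 s κ h ∧ core1 s lm h' ∧
            nd ((h : ℝ) * a / 2 ^ u + (h' : ℝ) * b / 2 ^ v) ≤ 2 ^ (50 * s) / 2 ^ (κ + lm)) then
          ct (2 ^ (κ + lm + x - 2)) (2 ^ u) h * ct (2 ^ (κ + lm + y - 2)) (2 ^ v) h' *
            fej (2 ^ (κ - x + (lm - y) - 12 * s - 2)) ((h : ℝ) * a / 2 ^ u + (h' : ℝ) * b / 2 ^ v)
        else 0) ≤ 36 / 2 ^ (29 * s) * (2 ^ u * 2 ^ v) := by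
    intro x hx y hy
    rw [mem_range] at hx hy
    set k : ℕ := κ + 2 - x with hk
    set l : ℕ := lm + 2 - y with hl
    have ek : κ + lm + x - 2 = u - k := by omega
    have el : κ + lm + y - 2 = v - l := by omega
    set K : ℕ := 2 ^ (κ - x + (lm - y) - 12 * s - 2) with hK
    have hK0 : 0 < K := by positivity
    have hK1 : K ≤ 2 ^ (u - k) := Nat.pow_le_pow_right (by norm_num) (by omega)
    have hK2 : K ≤ 2 ^ (v - l) := Nat.pow_le_pow_right (by norm_num) (by omega)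
    set η : ℝ := 2 ^ (50 * s) / 2 ^ (κ + lm) with hη
    have hη0 : 0 < η := by positivity
    have hδ : 8 / ((K : ℝ) * η) ≤ 32 / 2 ^ (29 * s) := by
      rw [hK, hη]
      push_cast
      rw [div_le_div_iff₀ (by positivity) (by positivity)]
      have : 8 * (2 : ℝ) ^ (29 * s) * 2 ^ (κ + lm) ≤
          32 * (2 ^ (κ - x + (lm - y) - 12 * s - 2) * 2 ^ (50 * s)) := by
        rw [mul_assoc, ← pow_add, ← pow_add, show (8 : ℝ) = 2 ^ 3 by norm_num,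
          show (32 : ℝ) = 2 ^ 5 by norm_num, ← pow_add, ← pow_add]
        apply hmon
        omega
      calc 8 * (2 : ℝ) ^ (29 * s) = 8 * (2 : ℝ) ^ (29 * s) * 2 ^ (κ + lm) / 2 ^ (κ + lm) := by
            field_simp
        _ ≤ 32 * (2 ^ (κ - x + (lm - y) - 12 * s - 2) * 2 ^ (50 * s)) / 2 ^ (κ + lm) :=
            div_le_div_of_nonneg_right this (by positivity)
        _ = _ := by ring
    rw [ek, el]
    -- swap
    have hswap : ∑ a ∈ range (2 ^ u), ∑ b ∈ range (2 ^ v),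
      ∑ h ∈ SR (2 ^ u), ∑ h' ∈ SR (2 ^ v),
        (if (h ≠ 0 ∨ h' ≠ 0) ∧ ¬ (core1 s κ h ∧ core1 s lm h' ∧
            nd ((h : ℝ) * a / 2 ^ u + (h' : ℝ) * b / 2 ^ v) ≤ η) then
          ct (2 ^ (u - k)) (2 ^ u) h * ct (2 ^ (v - l)) (2 ^ v) h' *
            fej K ((h : ℝ) * a / 2 ^ u + (h' : ℝ) * b / 2 ^ v)
        else 0) = 
      ∑ h ∈ SR (2 ^ u), ∑ h' ∈ SR (2 ^ v), ∑ a ∈ range (2 ^ u), ∑ b ∈ range (2 ^ v),
        (if (h ≠ 0 ∨ h' ≠ 0) ∧ ¬ (core1 s κ h ∧ core1 s lm h' ∧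
            nd ((h : ℝ) * a / 2 ^ u + (h' : ℝ) * b / 2 ^ v) ≤ η) then
          ct (2 ^ (u - k)) (2 ^ u) h * ct (2 ^ (v - l)) (2 ^ v) h' *
            fej K ((h : ℝ) * a / 2 ^ u + (h' : ℝ) * b / 2 ^ v)
        else 0) := by
      rw [← Finset.sum_product', Finset.sum_comm]
      apply Finset.sum_congr rfl; intro h _
      rw [Finset.sum_comm]
      apply Finset.sum_congr rfl; intro h' _
      rw [Finset.sum_product]
    rw [hswap]
    have hin : ∀ h ∈ SR (2 ^ u), ∀ h' ∈ SR (2 ^ v), ∑ a ∈ range (2 ^ u), ∑ b ∈ range (2 ^ v),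
        (if (h ≠ 0 ∨ h' ≠ 0) ∧ ¬ (core1 s κ h ∧ core1 s lm h' ∧
            nd ((h : ℝ) * a / 2 ^ u + (h' : ℝ) * b / 2 ^ v) ≤ η) then
          ct (2 ^ (u - k)) (2 ^ u) h * ct (2 ^ (v - l)) (2 ^ v) h' *
            fej K ((h : ℝ) * a / 2 ^ u + (h' : ℝ) * b / 2 ^ v)
        else 0) ≤
        ((if ¬ (core1 s κ h ∧ core1 s lm h') then
          ct (2 ^ (u - k)) (2 ^ u) h * ct (2 ^ (v - l)) (2 ^ v) h' else 0) +
          32 / 2 ^ (29 * s) * (ct (2 ^ (u - k)) (2 ^ u) h * ct (2 ^ (v - l)) (2 ^ v) h')) *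
          (2 ^ u * 2 ^ v) := by
      intro h hh h' hh'
      have c1 := ct_nonneg (2 ^ (u - k)) (2 ^ u) h
      have c2 := ct_nonneg (2 ^ (v - l)) (2 ^ v) h'
      have c3 := mul_nonneg c1 c2
      by_cases h0 : h ≠ 0 ∨ h' ≠ 0
      swap
      · have hz : ∀ a ∈ range (2 ^ u), ∑ b ∈ range (2 ^ v),
          (if (h ≠ 0 ∨ h' ≠ 0) ∧ ¬ (core1 s κ h ∧ core1 s lm h' ∧
            nd ((h : ℝ) * a / 2 ^ u + (h' : ℝ) * b / 2 ^ v) ≤ η) then
          ct (2 ^ (u - k)) (2 ^ u) h * ct (2 ^ (v - l)) (2 ^ v) h' *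
            fej K ((h : ℝ) * a / 2 ^ u + (h' : ℝ) * b / 2 ^ v)
          else 0) = 0 := by
          intro a _
          apply sum_eq_zero
          intro b _
          rw [if_neg (fun hc => h0 hc.1)]
        rw [sum_eq_zero hz]
        have : 0 ≤ (if ¬ (core1 s κ h ∧ core1 s lm h') then
          ct (2 ^ (u - k)) (2 ^ u) h * ct (2 ^ (v - l)) (2 ^ v) h' else 0) := by
          split_ifs <;> first | exact c3 | exact le_rfl
        positivity
      by_cases hc : core1 s κ h ∧ core1 s lm h'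
      · -- core: the tail of the Fejer kernel
        have b1 : |(h : ℝ)| ≤ η * ((2 ^ u : ℕ) : ℝ) := by
          have := hc.1.2
          have t1 : |(h : ℝ)| ≤ 2 ^ (κ + 30 * s) := by exact_mod_cast this
          refine t1.trans ?_
          rw [hη, hPu, div_mul_eq_mul_div, le_div_iff₀ (by positivity), ← pow_add, ← pow_add]
          apply hmon
          omega
        have b2 : |(h' : ℝ)| ≤ η * ((2 ^ v : ℕ) : ℝ) := by
          have := hc.2.2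
          have t1 : |(h' : ℝ)| ≤ 2 ^ (lm + 30 * s) := by exact_mod_cast this
          refine t1.trans ?_
          rw [hη, hPv, div_mul_eq_mul_div, le_div_iff₀ (by positivity), ← pow_add, ← pow_add]
          apply hmon
          omega
        have hft := fej_tail_avg (2 ^ u) (2 ^ v) (by positivity) (by positivity) h h' h0 K hK0 η hη0
          b1 b2
        rw [hPu, hPv] at hft
        have e1 : ∑ a ∈ range (2 ^ u), ∑ b ∈ range (2 ^ v),
            (if (h ≠ 0 ∨ h' ≠ 0) ∧ ¬ (core1 s κ h ∧ core1 s lm h' ∧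
              nd ((h : ℝ) * a / 2 ^ u + (h' : ℝ) * b / 2 ^ v) ≤ η) then
            ct (2 ^ (u - k)) (2 ^ u) h * ct (2 ^ (v - l)) (2 ^ v) h' *
              fej K ((h : ℝ) * a / 2 ^ u + (h' : ℝ) * b / 2 ^ v)
            else 0) = ct (2 ^ (u - k)) (2 ^ u) h * ct (2 ^ (v - l)) (2 ^ v) h' *
            ∑ a ∈ range (2 ^ u), ∑ b ∈ range (2 ^ v),
              (if η < nd ((h : ℝ) * a / 2 ^ u + (h' : ℝ) * b / 2 ^ v) then
                fej K ((h : ℝ) * a / 2 ^ u + (h' : ℝ) * b / 2 ^ v) else 0) := by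
          rw [mul_sum]
          apply sum_congr rfl; intro a _
          rw [mul_sum]
          apply sum_congr rfl; intro b _
          by_cases hn : η < nd ((h : ℝ) * a / 2 ^ u + (h' : ℝ) * b / 2 ^ v)
          · rw [if_pos hn, if_pos ⟨h0, fun hq => absurd hq.2.2 (not_le.2 hn)⟩]
          · rw [if_neg hn, if_neg (fun hq => hq.2 ⟨hc.1, hc.2, not_lt.1 hn⟩), mul_zero]
        rw [e1, if_neg (not_not.2 hc), zero_add]
        calc _ ≤ ct (2 ^ (u - k)) (2 ^ u) h * ct (2 ^ (v - l)) (2 ^ v) h' *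
              (8 / (K * η) * 2 ^ u * 2 ^ v) := mul_le_mul_of_nonneg_left hft c3
          _ ≤ ct (2 ^ (u - k)) (2 ^ u) h * ct (2 ^ (v - l)) (2 ^ v) h' *
              (32 / 2 ^ (29 * s) * 2 ^ u * 2 ^ v) := by
              apply mul_le_mul_of_nonneg_left _ c3
              apply mul_le_mul_of_nonneg_right _ (by positivity)
              exact mul_le_mul_of_nonneg_right hδ (by positivity)
          _ = _ := by ring
      · -- not core: the average is one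
        rw [if_pos hc]
        have hle : ∀ a ∈ range (2 ^ u), ∀ b ∈ range (2 ^ v),
            (if (h ≠ 0 ∨ h' ≠ 0) ∧ ¬ (core1 s κ h ∧ core1 s lm h' ∧
              nd ((h : ℝ) * a / 2 ^ u + (h' : ℝ) * b / 2 ^ v) ≤ η) then
            ct (2 ^ (u - k)) (2 ^ u) h * ct (2 ^ (v - l)) (2 ^ v) h' *
              fej K ((h : ℝ) * a / 2 ^ u + (h' : ℝ) * b / 2 ^ v)
            else 0) = ct (2 ^ (u - k)) (2 ^ u) h * ct (2 ^ (v - l)) (2 ^ v) h' *
              fej K ((h : ℝ) * a / ((2 ^ u : ℕ) : ℝ) + (h' : ℝ) * b / ((2 ^ v : ℕ) : ℝ)) := by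
          intro a _ b _
          rw [if_pos ⟨h0, fun hq => hc ⟨hq.1, hq.2.1⟩⟩, hPu, hPv]
        rw [sum_congr rfl (fun a ha => sum_congr rfl (hle a ha))]
        by_cases hz : ct (2 ^ (u - k)) (2 ^ u) h * ct (2 ^ (v - l)) (2 ^ v) h' = 0
        · rw [hz]; simp
        · have hz1 : ct (2 ^ (u - k)) (2 ^ u) h ≠ 0 := fun h0 => hz (by rw [h0, zero_mul])
          have hz2 : ct (2 ^ (v - l)) (2 ^ v) h' ≠ 0 := fun h0 => hz (by rw [h0, mul_zero])
          have := fej_avg_one u v k l K (by omega) (by omega) hK0 hK1 hK2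
            h h' hh hh' h0 hz1 hz2
          simp only [← Finset.mul_sum]
          rw [this]
          apply mul_le_mul_of_nonneg_right _ (by positivity)
          have : 0 ≤ 32 / 2 ^ (29 * s) * (ct (2 ^ (u - k)) (2 ^ u) h * ct (2 ^ (v - l)) (2 ^ v) h') := by
            positivity
          linarith
    have su := ct_sum (2 ^ (u - k)) (2 ^ u) (by positivity)
      (Nat.pow_le_pow_right (by norm_num) (Nat.sub_le _ _)) hu2
    have sv := ct_sum (2 ^ (v - l)) (2 ^ v) (by positivity)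
      (Nat.pow_le_pow_right (by norm_num) (Nat.sub_le _ _)) hv2
    calc _ ≤ ∑ h ∈ SR (2 ^ u), ∑ h' ∈ SR (2 ^ v),
        ((if ¬ (core1 s κ h ∧ core1 s lm h') then
          ct (2 ^ (u - k)) (2 ^ u) h * ct (2 ^ (v - l)) (2 ^ v) h' else 0) +
          32 / 2 ^ (29 * s) * (ct (2 ^ (u - k)) (2 ^ u) h * ct (2 ^ (v - l)) (2 ^ v) h')) *
          (2 ^ u * 2 ^ v) := sum_le_sum fun h hh => sum_le_sum fun h' hh' => hin h hh h' hh'
      _ = (∑ h ∈ SR (2 ^ u), ∑ h' ∈ SR (2 ^ v), (if ¬ (core1 s κ h ∧ core1 s lm h') then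
          ct (2 ^ (u - k)) (2 ^ u) h * ct (2 ^ (v - l)) (2 ^ v) h' else 0) +
          32 / 2 ^ (29 * s) * ((∑ h ∈ SR (2 ^ u), ct (2 ^ (u - k)) (2 ^ u) h) *
            (∑ h' ∈ SR (2 ^ v), ct (2 ^ (v - l)) (2 ^ v) h'))) * (2 ^ u * 2 ^ v) := by
          rw [sum_mul_sum, mul_sum, ← sum_add_distrib, sum_mul]
          apply sum_congr rfl; intro h _
          rw [mul_sum, ← sum_add_distrib, sum_mul]
      _ ≤ (4 / 2 ^ (29 * s) + 32 / 2 ^ (29 * s) * (1 * 1)) * (2 ^ u * 2 ^ v) := by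
          rw [su, sv]
          apply mul_le_mul_of_nonneg_right _ (by positivity)
          have := L5_nc2 s u v κ lm x y (by omega) hx hy hκ hlm (by omega) (by omega)
          linarith
      _ = _ := by ring
  have hsum : ∑ a ∈ range (2 ^ u), ∑ b ∈ range (2 ^ v), Y1 κ lm s a b =
      ∑ x ∈ range s, ∑ y ∈ range s, ∑ a ∈ range (2 ^ u), ∑ b ∈ range (2 ^ v),
      ∑ h ∈ SR (2 ^ u), ∑ h' ∈ SR (2 ^ v),
        (if (h ≠ 0 ∨ h' ≠ 0) ∧ ¬ (core1 s κ h ∧ core1 s lm h' ∧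
            nd ((h : ℝ) * a / 2 ^ u + (h' : ℝ) * b / 2 ^ v) ≤ 2 ^ (50 * s) / 2 ^ (κ + lm)) then
          ct (2 ^ (κ + lm + x - 2)) (2 ^ u) h * ct (2 ^ (κ + lm + y - 2)) (2 ^ v) h' *
            fej (2 ^ (κ - x + (lm - y) - 12 * s - 2)) ((h : ℝ) * a / 2 ^ u + (h' : ℝ) * b / 2 ^ v)
        else 0) := by
    unfold Y1
    rw [← Finset.sum_product', Finset.sum_comm]
    apply Finset.sum_congr rfl; intro x _
    rw [Finset.sum_comm]
    apply Finset.sum_congr rfl; intro y _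
    rw [Finset.sum_product]
  rw [hsum]
  calc _ ≤ ∑ x ∈ range s, ∑ y ∈ range s, (36 / 2 ^ (29 * s) * ((2 : ℝ) ^ u * 2 ^ v)) :=
        sum_le_sum fun x hx => sum_le_sum fun y hy => hterm x hx y hy
    _ = (36 * (s : ℝ) ^ 2) / 2 ^ (29 * s) * (2 ^ u * 2 ^ v) := by
        simp only [sum_const, card_range, nsmul_eq_mul]
        ring
    _ ≤ (2 : ℝ) ^ s / 2 ^ (29 * s) * (2 ^ u * 2 ^ v) := by
        apply mul_le_mul_of_nonneg_right _ (by positivity)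
        apply div_le_div_of_nonneg_right _ (by positivity)
        have h4 : ((64 * s ^ 2 : ℕ) : ℝ) ≤ ((2 ^ s : ℕ) : ℝ) := by exact_mod_cast L5_num s hs
        push_cast at h4
        nlinarith [sq_nonneg (s : ℝ)]
    _ ≤ 1 / 2 ^ (20 * s) * (2 ^ u * 2 ^ v) := by
        apply mul_le_mul_of_nonneg_right _ (by positivity)
        rw [div_le_div_iff₀ (by positivity) (by positivity), one_mul, ← pow_add]
        apply hmon
        omega

theorem Y1_nonneg (κ lm s a b : ℕ) : 0 ≤ Y1 κ lm s a b := by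
  classical
  unfold Y1
  refine sum_nonneg fun x _ => sum_nonneg fun y _ => sum_nonneg fun h _ => sum_nonneg fun h' _ => ?_
  split_ifs
  · exact mul_nonneg (mul_nonneg (ct_nonneg _ _ _) (ct_nonneg _ _ _)) (fej_nonneg _ _)
  · exact le_rfl

open Classical in
/-- `Bad1` is rare: Markov for `Y1` (`2^(-20s)/2^(-14s)`) and `hom_mean` (`36·2^(κ+lm-12s+1)·2^(s+1-κ)·2^(s+1-lm) = 288·2^(-10s)`). -/
theorem bad1_frac (κ lm σ s : ℕ) (hs : 200 ≤ s) (hp : ParC κ lm σ s) :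
    (((range (2 ^ (2 * κ + lm)) ×ˢ range (2 ^ (κ + 2 * lm))).filter (fun p : ℕ × ℕ =>
      Bad1 κ lm s p.1 p.2)).card : ℝ) ≤ 1 / 2 ^ (5 * s) * (2 ^ (2 * κ + lm) * 2 ^ (κ + 2 * lm)) := by
  have hm := Y1_mean κ lm σ s hs hp
  obtain ⟨-, h1, h2, h3⟩ := hp
  have hκ : 10000 * s ≤ κ := by omega
  have hlm : 10000 * s ≤ lm := by omega
  have hmon : ∀ z w : ℕ, z ≤ w → (2 : ℝ) ^ z ≤ (2 : ℝ) ^ w := fun z w h =>
    pow_le_pow_right₀ (by norm_num) h
  have hhm := hom_mean (2 ^ (2 * κ + lm)) (2 ^ (κ + 2 * lm)) (2 ^ (κ + lm - 12 * s + 1))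
    (2 ^ (s + 1) / 2 ^ κ) (2 ^ (s + 1) / 2 ^ lm) (by positivity) (by positivity)
    (by
      push_cast
      rw [div_mul_eq_mul_div, le_div_iff₀ (by positivity), ← pow_add, ← pow_add]
      apply hmon; omega)
    (by
      push_cast
      rw [div_mul_eq_mul_div, le_div_iff₀ (by positivity), ← pow_add, ← pow_add]
      apply hmon; omega)
  push_cast at hhm
  set P : ℝ := 2 ^ (2 * κ + lm) * 2 ^ (κ + 2 * lm) with hP
  have hP0 : 0 < P := by positivity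
  have hhm2 : 36 * (2 : ℝ) ^ (κ + lm - 12 * s + 1) * (2 ^ (s + 1) / 2 ^ κ) * (2 ^ (s + 1) / 2 ^ lm) *
      2 ^ (2 * κ + lm) * 2 ^ (κ + 2 * lm) ≤ 288 / 2 ^ (10 * s) * P := by
    have e1 : 36 * (2 : ℝ) ^ (κ + lm - 12 * s + 1) * (2 ^ (s + 1) / 2 ^ κ) * (2 ^ (s + 1) / 2 ^ lm) ≤
        288 / 2 ^ (10 * s) := by
      have e2 : 36 * (2 : ℝ) ^ (κ + lm - 12 * s + 1) * (2 ^ (s + 1) / 2 ^ κ) * (2 ^ (s + 1) / 2 ^ lm) =
          36 * 2 ^ (κ + lm - 12 * s + 1 + (s + 1) + (s + 1)) / 2 ^ (κ + lm) := by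
        rw [pow_add (2 : ℝ) (κ + lm - 12 * s + 1 + (s + 1)) (s + 1),
          pow_add (2 : ℝ) (κ + lm - 12 * s + 1) (s + 1), pow_add (2 : ℝ) κ lm]
        field_simp
      rw [e2, div_le_div_iff₀ (by positivity) (by positivity)]
      have e3 : (2 : ℝ) ^ (κ + lm - 12 * s + 1 + (s + 1) + (s + 1)) * 2 ^ (10 * s) ≤
          2 ^ 3 * 2 ^ (κ + lm) := by
        rw [← pow_add, ← pow_add]
        apply hmon; omega
      nlinarith
    calc _ = 36 * (2 : ℝ) ^ (κ + lm - 12 * s + 1) * (2 ^ (s + 1) / 2 ^ κ) * (2 ^ (s + 1) / 2 ^ lm) *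
          P := by rw [hP]; ring
      _ ≤ _ := mul_le_mul_of_nonneg_right e1 hP0.le
  rw [← sum_product'] at hm hhm
  set S := range (2 ^ (2 * κ + lm)) ×ˢ range (2 ^ (κ + 2 * lm)) with hS
  set A := S.filter (fun p : ℕ × ℕ => 1 / 2 ^ (14 * s) < Y1 κ lm s p.1 p.2) with hA
  set B := S.filter (fun p : ℕ × ℕ => 0 < hom (2 ^ (2 * κ + lm)) (2 ^ (κ + 2 * lm))
    (2 ^ (κ + lm - 12 * s + 1)) (2 ^ (s + 1) / 2 ^ κ) (2 ^ (s + 1) / 2 ^ lm) p.1 p.2) with hB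
  have hsub : S.filter (fun p : ℕ × ℕ => Bad1 κ lm s p.1 p.2) ⊆ A ∪ B := by
    intro p hp
    rw [mem_filter] at hp
    rw [mem_union]
    rcases hp.2 with h | h
    · exact Or.inl (mem_filter.2 ⟨hp.1, h⟩)
    · exact Or.inr (mem_filter.2 ⟨hp.1, h⟩)
  have hcard : ((S.filter (fun p : ℕ × ℕ => Bad1 κ lm s p.1 p.2)).card : ℝ) ≤ A.card + B.card := by
    exact_mod_cast (card_le_card hsub).trans (card_union_le _ _)
  have hAc : (A.card : ℝ) * (1 / 2 ^ (14 * s)) ≤ 1 / 2 ^ (20 * s) * P := by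
    calc (A.card : ℝ) * (1 / 2 ^ (14 * s)) = ∑ p ∈ A, (1 : ℝ) / 2 ^ (14 * s) := by
          rw [sum_const, nsmul_eq_mul]
      _ ≤ ∑ p ∈ A, Y1 κ lm s p.1 p.2 := sum_le_sum fun p hp => (mem_filter.1 hp).2.le
      _ ≤ ∑ p ∈ S, Y1 κ lm s p.1 p.2 := sum_le_sum_of_subset_of_nonneg (filter_subset _ _)
          (fun p _ _ => Y1_nonneg _ _ _ _ _)
      _ ≤ _ := hm
  have hAc2 : (A.card : ℝ) ≤ 1 / 2 ^ (6 * s) * P := by
    have e1 : (A.card : ℝ) = (A.card : ℝ) * (1 / 2 ^ (14 * s)) * 2 ^ (14 * s) := by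
      field_simp
    rw [e1]
    calc _ ≤ 1 / 2 ^ (20 * s) * P * 2 ^ (14 * s) := mul_le_mul_of_nonneg_right hAc (by positivity)
      _ = _ := by
        rw [show 20 * s = 6 * s + 14 * s by ring, pow_add]
        field_simp
  have hBc : (B.card : ℝ) ≤ 288 / 2 ^ (10 * s) * P := by
    calc (B.card : ℝ) = ∑ p ∈ B, (1 : ℝ) := by rw [sum_const, nsmul_eq_mul, mul_one]
      _ ≤ ∑ p ∈ B, (hom (2 ^ (2 * κ + lm)) (2 ^ (κ + 2 * lm))
          (2 ^ (κ + lm - 12 * s + 1)) (2 ^ (s + 1) / 2 ^ κ) (2 ^ (s + 1) / 2 ^ lm) p.1 p.2 : ℝ) :=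
          sum_le_sum fun p hp => by
            have := (mem_filter.1 hp).2
            exact_mod_cast this
      _ ≤ ∑ p ∈ S, (hom (2 ^ (2 * κ + lm)) (2 ^ (κ + 2 * lm))
          (2 ^ (κ + lm - 12 * s + 1)) (2 ^ (s + 1) / 2 ^ κ) (2 ^ (s + 1) / 2 ^ lm) p.1 p.2 : ℝ) :=
          sum_le_sum_of_subset_of_nonneg (filter_subset _ _) (fun p _ _ => Nat.cast_nonneg _)
      _ ≤ _ := hhm.trans hhm2
  refine hcard.trans ?_
  have f1 : (1 : ℝ) / 2 ^ (6 * s) + 288 / 2 ^ (10 * s) ≤ 1 / 2 ^ (5 * s) := by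
    have g1 : (1 : ℝ) / 2 ^ (6 * s) = 1 / 2 ^ (5 * s) * (1 / 2 ^ s) := by
      rw [show 6 * s = 5 * s + s by ring, pow_add]; field_simp
    have g2 : (288 : ℝ) / 2 ^ (10 * s) ≤ 1 / 2 ^ (5 * s) * (1 / 2 ^ s) := by
      rw [← g1, div_le_div_iff₀ (by positivity) (by positivity), one_mul]
      calc (288 : ℝ) * 2 ^ (6 * s) ≤ 2 ^ 9 * 2 ^ (6 * s) :=
            mul_le_mul_of_nonneg_right (by norm_num) (by positivity)
        _ = 2 ^ (9 + 6 * s) := by rw [pow_add]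
        _ ≤ _ := hmon _ _ (by omega)
    have g3 : (1 : ℝ) / 2 ^ s ≤ 1 / 2 := by
      apply one_div_le_one_div_of_le (by norm_num)
      calc (2 : ℝ) = 2 ^ 1 := by norm_num
        _ ≤ _ := hmon _ _ (by omega)
    have g4 : (0 : ℝ) < 1 / 2 ^ (5 * s) := by positivity
    rw [g1]
    nlinarith
  calc (A.card : ℝ) + B.card ≤ (1 / 2 ^ (6 * s) + 288 / 2 ^ (10 * s)) * P := by linarith
    _ ≤ _ := mul_le_mul_of_nonneg_right f1 hP0.le

open Classical in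
/-- `GenC` fails rarely: `cntH_markov` with `K = 2^(200s)`, `θ H1 H2 = 2^(93 s)` twice. -/
theorem genC_frac (κ lm σ s : ℕ) (hs : 200 ≤ s) (hp : ParC κ lm σ s) :
    (((range (2 ^ (2 * κ + lm - 3 * σ)) ×ˢ range (2 ^ (κ + 2 * lm - 3 * σ))).filter (fun p : ℕ × ℕ =>
      ¬ GenC κ lm σ s p.1 p.2)).card : ℝ) ≤
      1 / 2 ^ (50 * s) * (2 ^ (2 * κ + lm - 3 * σ) * 2 ^ (κ + 2 * lm - 3 * σ)) := by
  obtain ⟨-, h1, h2, h3⟩ := hp
  have hκ : 10000 * s ≤ κ := by omega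
  have hlm : 10000 * s ≤ lm := by omega
  have hmon : ∀ z w : ℕ, z ≤ w → (2 : ℝ) ^ z ≤ (2 : ℝ) ^ w := fun z w h =>
    pow_le_pow_right₀ (by norm_num) h
  have hone : ∀ z : ℕ, (1 : ℝ) ≤ 2 ^ z := fun z => one_le_pow₀ (by norm_num)
  set u : ℕ := 2 * κ + lm - 3 * σ with hu
  set v : ℕ := κ + 2 * lm - 3 * σ with hv
  have m1 := cntH_markov (2 ^ u) (2 ^ v) (by positivity) (by positivity)
    (2 ^ (κ - 3 * σ)) (2 ^ (lm + 31 * s)) (2 ^ (3 * σ + 62 * s) / 2 ^ (κ + lm)) (hone _) (hone _)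
    (by positivity)
    (by
      push_cast
      rw [div_mul_eq_mul_div, le_div_iff₀ (by positivity), ← pow_add, ← pow_add]
      apply hmon; omega)
    (by
      push_cast
      rw [div_mul_eq_mul_div, le_div_iff₀ (by positivity), ← pow_add, ← pow_add]
      apply hmon; omega) (2 ^ (200 * s)) (by positivity)
  have m2 := cntH_markov (2 ^ u) (2 ^ v) (by positivity) (by positivity)
    (2 ^ (κ + 31 * s)) (2 ^ (lm - 3 * σ)) (2 ^ (3 * σ + 62 * s) / 2 ^ (κ + lm)) (hone _) (hone _)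
    (by positivity)
    (by
      push_cast
      rw [div_mul_eq_mul_div, le_div_iff₀ (by positivity), ← pow_add, ← pow_add]
      apply hmon; omega)
    (by
      push_cast
      rw [div_mul_eq_mul_div, le_div_iff₀ (by positivity), ← pow_add, ← pow_add]
      apply hmon; omega) (2 ^ (200 * s)) (by positivity)
  push_cast at m1 m2
  set P : ℝ := 2 ^ u * 2 ^ v with hP
  have hP0 : 0 < P := by positivity
  have k1 : 36 * ((2 : ℝ) ^ (3 * σ + 62 * s) / 2 ^ (κ + lm)) * 2 ^ (κ - 3 * σ) * 2 ^ (lm + 31 * s) /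
      2 ^ (200 * s) ≤ 36 / 2 ^ (107 * s) := by
    have e1 : 36 * ((2 : ℝ) ^ (3 * σ + 62 * s) / 2 ^ (κ + lm)) * 2 ^ (κ - 3 * σ) * 2 ^ (lm + 31 * s) /
      2 ^ (200 * s) = 36 * (2 ^ (3 * σ + 62 * s + (κ - 3 * σ) + (lm + 31 * s))) /
        2 ^ (κ + lm + 200 * s) := by
      rw [pow_add _ _ (lm + 31 * s), pow_add _ _ (κ - 3 * σ), pow_add _ _ (200 * s)]
      field_simp
    rw [e1, div_le_div_iff₀ (by positivity) (by positivity), mul_assoc, ← pow_add]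
    exact mul_le_mul_of_nonneg_left (hmon _ _ (by omega)) (by norm_num)
  have k2 : 36 * ((2 : ℝ) ^ (3 * σ + 62 * s) / 2 ^ (κ + lm)) * 2 ^ (κ + 31 * s) * 2 ^ (lm - 3 * σ) /
      2 ^ (200 * s) ≤ 36 / 2 ^ (107 * s) := by
    have e1 : 36 * ((2 : ℝ) ^ (3 * σ + 62 * s) / 2 ^ (κ + lm)) * 2 ^ (κ + 31 * s) * 2 ^ (lm - 3 * σ) /
      2 ^ (200 * s) = 36 * (2 ^ (3 * σ + 62 * s + (κ + 31 * s) + (lm - 3 * σ))) /
        2 ^ (κ + lm + 200 * s) := by
      rw [pow_add _ _ (lm - 3 * σ), pow_add _ _ (κ + 31 * s), pow_add _ _ (200 * s)]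
      field_simp
    rw [e1, div_le_div_iff₀ (by positivity) (by positivity), mul_assoc, ← pow_add]
    exact mul_le_mul_of_nonneg_left (hmon _ _ (by omega)) (by norm_num)
  set S := range (2 ^ u) ×ˢ range (2 ^ v) with hS
  set A := S.filter (fun p : ℕ × ℕ => (2 : ℝ) ^ (200 * s) <
    (cntH ((p.1 : ℝ) / 2 ^ u) ((p.2 : ℝ) / 2 ^ v) (2 ^ (κ - 3 * σ)) (2 ^ (lm + 31 * s))
      (2 ^ (3 * σ + 62 * s) / 2 ^ (κ + lm)) : ℝ)) with hA
  set B := S.filter (fun p : ℕ × ℕ => (2 : ℝ) ^ (200 * s) <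
    (cntH ((p.1 : ℝ) / 2 ^ u) ((p.2 : ℝ) / 2 ^ v) (2 ^ (κ + 31 * s)) (2 ^ (lm - 3 * σ))
      (2 ^ (3 * σ + 62 * s) / 2 ^ (κ + lm)) : ℝ)) with hB
  have hsub : S.filter (fun p : ℕ × ℕ => ¬ GenC κ lm σ s p.1 p.2) ⊆ A ∪ B := by
    intro p hp
    rw [mem_filter] at hp
    rw [mem_union]
    by_contra hc
    rw [not_or, hA, hB, mem_filter, mem_filter, not_and, not_and] at hc
    exact hp.2 ⟨not_lt.1 (hc.1 hp.1), not_lt.1 (hc.2 hp.1)⟩
  have hcard : ((S.filter (fun p : ℕ × ℕ => ¬ GenC κ lm σ s p.1 p.2)).card : ℝ) ≤ A.card + B.card := by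
    exact_mod_cast (card_le_card hsub).trans (card_union_le _ _)
  refine hcard.trans ?_
  have f1 : (72 : ℝ) / 2 ^ (107 * s) ≤ 1 / 2 ^ (50 * s) := by
    rw [div_le_div_iff₀ (by positivity) (by positivity), one_mul]
    calc (72 : ℝ) * 2 ^ (50 * s) ≤ 2 ^ 7 * 2 ^ (50 * s) :=
          mul_le_mul_of_nonneg_right (by norm_num) (by positivity)
      _ = 2 ^ (7 + 50 * s) := by rw [pow_add]
      _ ≤ _ := hmon _ _ (by omega)
  have a1 : (A.card : ℝ) ≤ 36 / 2 ^ (107 * s) * P := by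
    refine m1.trans ?_
    rw [mul_assoc]
    exact mul_le_mul_of_nonneg_right k1 hP0.le
  have a2 : (B.card : ℝ) ≤ 36 / 2 ^ (107 * s) * P := by
    refine m2.trans ?_
    rw [mul_assoc]
    exact mul_le_mul_of_nonneg_right k2 hP0.le
  calc (A.card : ℝ) + B.card ≤ 72 / 2 ^ (107 * s) * P := by
        have : 72 / 2 ^ (107 * s) * P = 36 / 2 ^ (107 * s) * P + 36 / 2 ^ (107 * s) * P := by ring
        linarith
    _ ≤ _ := mul_le_mul_of_nonneg_right f1 hP0.le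

end MP_5e4520_nt.Ex
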