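import Pool.Agent.Lib.MP_5e4520_ntE.T1
import Pool.Agent.Lib.MP_5e4520_ntE.L5
set_option autoImplicit false

/-!
# Large blocks: the theorem
-/

namespace MP_5e4520_nt.Ex

open Finset

private theorem T2_mem {M : ℕ} {S : Finset Pt} {κ lm σ : ℕ} {p x : Pt} (hp : p ∈ S)
    (hx : x ∈ fibC M S κ lm σ p) : x ∈ S ∧ p ∈ fibC M S κ lm σ x ∧
      fibC M S κ lm σ x = fibC M S κ lm σ p := by
  unfold fibC fib at *
  rw [mem_filter] at hx
  refine ⟨hx.1, ?_, ?_⟩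
  · rw [mem_filter]
    exact ⟨hp, hx.2.symm⟩
  · rw [hx.2]

private theorem T2_self {M : ℕ} {S : Finset Pt} {κ lm σ : ℕ} {p : Pt} (hp : p ∈ S) :
    p ∈ fibC M S κ lm σ p := by
  unfold fibC fib
  rw [mem_filter]
  exact ⟨hp, rfl⟩

open Classical in
/-- double counting over the fibres -/
private theorem T2_dc (M : ℕ) (S : Finset Pt) (κ lm σ : ℕ) (P : Pt → Prop) :
    ∑ p ∈ S, (((fibC M S κ lm σ p).filter P).card : ℝ) / (fibC M S κ lm σ p).card =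
      ((S.filter P).card : ℝ) := by
  have h1 : ∀ p ∈ S, (((fibC M S κ lm σ p).filter P).card : ℝ) / (fibC M S κ lm σ p).card =
      ∑ x ∈ S, if (x ∈ fibC M S κ lm σ p ∧ P x) then
        (1 : ℝ) / (fibC M S κ lm σ x).card else 0 := by
    intro p hp
    rw [← sum_filter]
    have h2 : S.filter (fun x => x ∈ fibC M S κ lm σ p ∧ P x) =
        (fibC M S κ lm σ p).filter P := by
      ext x
      rw [mem_filter, mem_filter]
      refine ⟨fun h => h.2, fun h => ⟨(T2_mem hp h.1).1, h⟩⟩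
    rw [h2]
    have h3 : ∀ x ∈ (fibC M S κ lm σ p).filter P, (1 : ℝ) / (fibC M S κ lm σ x).card =
        1 / (fibC M S κ lm σ p).card := by
      intro x hx
      rw [mem_filter] at hx
      rw [(T2_mem hp hx.1).2.2]
    rw [sum_congr rfl h3, sum_const, nsmul_eq_mul]
    ring
  rw [sum_congr rfl h1, sum_comm]
  have h4 : ∀ x ∈ S, (∑ p ∈ S, if (x ∈ fibC M S κ lm σ p ∧ P x) then
        (1 : ℝ) / (fibC M S κ lm σ x).card else 0) = if P x then 1 else 0 := by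
    intro x hx
    by_cases hP : P x
    · rw [if_pos hP, ← sum_filter]
      have h5 : S.filter (fun p => x ∈ fibC M S κ lm σ p ∧ P x) = fibC M S κ lm σ x := by
        ext p
        rw [mem_filter]
        refine ⟨fun h => (T2_mem h.1 h.2.1).2.1, fun h => ?_⟩
        have h6 := T2_mem hx h
        exact ⟨h6.1, h6.2.1, hP⟩
      rw [h5, sum_const, nsmul_eq_mul]
      have h7 : ((fibC M S κ lm σ x).card : ℝ) ≠ 0 := by
        have : 0 < (fibC M S κ lm σ x).card := card_pos.2 ⟨x, T2_self hx⟩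
        positivity
      field_simp
    · rw [if_neg hP]
      refine sum_eq_zero fun p _ => ?_
      rw [if_neg]
      exact fun h => hP h.2
  rw [sum_congr rfl h4, ← sum_filter, sum_const, nsmul_eq_mul, mul_one]

open Classical in
/-- JOB T2.  Double counting over the fibres: `∑_{p ∈ S} badC p = #{x ∈ S : Bad1 x}` (every `x` belongs to the fibres of the
`|F_x|` points of its own fibre, each with weight `1/|F_x|`); `prefix_prob` and `bad1_frac` bound this by `Λ |S|/2^(5s)`. -/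
theorem badC_sum (Λ M lo hi s : ℕ) (S : Finset Pt) (hS : Sys M (12 * s) Λ lo hi S) (hs : 200 ≤ s)
    (κ lm σ : ℕ) (hp : ParC κ lm σ s) (h1 : 2 * κ + lm ≤ M) (h2 : κ + 2 * lm ≤ M) :
    ∑ p ∈ S, badC M S κ lm σ s p ≤ Λ / 2 ^ (5 * s) * S.card := by
  have h3 : ∑ p ∈ S, badC M S κ lm σ s p =
      ((S.filter (fun x => Bad1 κ lm s (pre M (2 * κ + lm) x.1)
        (pre M (κ + 2 * lm) x.2.1))).card : ℝ) := by
    rw [← T2_dc M S κ lm σ]
    rfl
  rw [h3]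
  have h4 := prefix_prob hS (2 * κ + lm) (κ + 2 * lm) h1 h2 (Bad1 κ lm s)
  refine h4.trans ?_
  have h5 := bad1_frac κ lm σ s hs hp
  have h6 : (2 : ℝ) ^ (2 * κ + lm) * 2 ^ (κ + 2 * lm) = 2 ^ (2 * κ + lm + (κ + 2 * lm)) := by
    rw [← pow_add]
  rw [h6] at h5
  rw [div_le_iff₀ (by positivity)]
  refine (mul_le_mul_of_nonneg_left h5 (by positivity)).trans (le_of_eq ?_)
  ring

open Classical in
private theorem T2_gen (Λ M lo hi s : ℕ) (S : Finset Pt) (hS : Sys M (12 * s) Λ lo hi S)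
    (hs : 200 ≤ s) (κ lm σ : ℕ) (hp : ParC κ lm σ s) (h1 : 2 * κ + lm ≤ M)
    (h2 : κ + 2 * lm ≤ M) :
    ((S.filter (fun p => ¬ GenC κ lm σ s (pre M (2 * κ + lm - 3 * σ) p.1)
      (pre M (κ + 2 * lm - 3 * σ) p.2.1))).card : ℝ) ≤ Λ / 2 ^ (50 * s) * S.card := by
  have h4 := prefix_prob hS (2 * κ + lm - 3 * σ) (κ + 2 * lm - 3 * σ) (by omega) (by omega)
    (fun a b => ¬ GenC κ lm σ s a b)
  have h4' : ((S.filter (fun p => ¬ GenC κ lm σ s (pre M (2 * κ + lm - 3 * σ) p.1)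
      (pre M (κ + 2 * lm - 3 * σ) p.2.1))).card : ℝ) ≤ Λ * S.card *
      (((range (2 ^ (2 * κ + lm - 3 * σ)) ×ˢ range (2 ^ (κ + 2 * lm - 3 * σ))).filter
        (fun p : ℕ × ℕ => ¬ GenC κ lm σ s p.1 p.2)).card : ℝ) /
        2 ^ (2 * κ + lm - 3 * σ + (κ + 2 * lm - 3 * σ)) := by
    convert h4
  refine h4'.trans ?_
  have h5 := genC_frac κ lm σ s hs hp
  have h6 : (2 : ℝ) ^ (2 * κ + lm - 3 * σ) * 2 ^ (κ + 2 * lm - 3 * σ) =
      2 ^ (2 * κ + lm - 3 * σ + (κ + 2 * lm - 3 * σ)) := by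
    rw [← pow_add]
  rw [h6] at h5
  rw [div_le_iff₀ (by positivity)]
  refine (mul_le_mul_of_nonneg_left h5 (by positivity)).trans (le_of_eq ?_)
  ring

/-- proportion of points with large margin -/
private theorem T2_margin {ι : Type*} (S G : Finset ι) (hG : G ⊆ S) (w : ι → ℝ) (A0 σ : ℝ)
    (hA0 : 0 < A0) (hσ : 0 < σ) (hw : ∀ p ∈ S, w p ≤ 6 * σ)
    (hn : ∀ p ∈ S, p ∉ G → w p ≤ A0 * σ / 2) (hav : A0 * σ * S.card ≤ ∑ p ∈ S, w p) :
    A0 / 12 * S.card ≤ G.card := by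
  classical
  have h1 : ∑ p ∈ S, w p = ∑ p ∈ S \ G, w p + ∑ p ∈ G, w p := (sum_sdiff hG).symm
  have h2 : ∑ p ∈ S \ G, w p ≤ (S \ G).card * (A0 * σ / 2) := by
    rw [← nsmul_eq_mul]
    refine sum_le_card_nsmul _ _ _ fun p hp => ?_
    rw [mem_sdiff] at hp
    exact hn p hp.1 hp.2
  have h3 : ∑ p ∈ G, w p ≤ G.card * (6 * σ) := by
    rw [← nsmul_eq_mul]
    exact sum_le_card_nsmul _ _ _ fun p hp => hw p (hG hp)
  have h4 : ((S \ G).card : ℝ) ≤ S.card := by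
    exact_mod_cast card_le_card sdiff_subset
  have h5 : ((S \ G).card : ℝ) * (A0 * σ / 2) ≤ S.card * (A0 * σ / 2) :=
    mul_le_mul_of_nonneg_right h4 (by positivity)
  have h6 : A0 * σ * S.card ≤ S.card * (A0 * σ / 2) + G.card * (6 * σ) := by linarith
  have h7 : σ * (A0 * S.card / 2) ≤ σ * (G.card * 6) := by nlinarith
  have h8 := le_of_mul_le_mul_left h7 hσ
  linarith

/-- total number of points in each class, final count -/
private theorem T2_count {ι : Type*} [DecidableEq ι] (G B1 B2 : Finset ι) (n g b1 b2 e : ℝ)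
    (hg : g * n ≤ G.card) (h1 : (B1.card : ℝ) ≤ b1 * n) (h2 : (B2.card : ℝ) ≤ b2 * n)
    (he : b1 + b2 + e ≤ g) (hn : 0 ≤ n) : e * n ≤ ((G \ (B1 ∪ B2)).card : ℝ) := by
  have h3 : G.card ≤ (G \ (B1 ∪ B2)).card + (B1.card + B2.card) := by
    have h4 : G.card ≤ ((G \ (B1 ∪ B2)) ∪ (B1 ∪ B2)).card := by
      apply card_le_card
      intro x hx
      by_cases h : x ∈ B1 ∪ B2
      · exact mem_union_right _ h
      · exact mem_union_left _ (mem_sdiff.2 ⟨hx, h⟩)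
    exact h4.trans ((card_union_le _ _).trans (Nat.add_le_add_left (card_union_le _ _) _))
  have h5 : (G.card : ℝ) ≤ (G \ (B1 ∪ B2)).card + (B1.card + B2.card) := by exact_mod_cast h3
  have h6 := mul_le_mul_of_nonneg_right he hn
  nlinarith

/-- The theorem.  By `EE_cond`, `fib_X` .. `fib_D` the margin is the average of `sumC p - 6σ` (`≤ 6σ`, `sumC_le`) and the total
correlation is the average of `tcC p` (`≥ 0`).  The points with `sumC p - 6σ ≥ A0σ/2` have proportion `≥ A0/12`; the points with non generic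
coarse pair have proportion `≤ Λ/2^(50s)` (`prefix_prob`, `genC_frac`), those with `badC p > 2^(-2s)` proportion `≤ Λ/2^(3s)`
(`markovS`, `badC_sum`).  For large `s` a proportion `≥ A0/24` of good points remains: `fib_core1` gives `c = (A0/24) c'`. -/
theorem R1S (A0 : ℝ) (hA0 : 0 < A0) : ∃ (K1 : ℕ) (c : ℝ), 0 < c ∧ ∀ Kσ ≥ K1, ∀ Λ : ℕ, 1 ≤ Λ →
    ∃ s0 : ℕ, ∀ s ≥ s0, ∀ (M lo hi : ℕ) (S : Finset Pt), Sys M (12 * s) Λ lo hi S →
    ∀ κ lm : ℕ, ParC κ lm (Kσ * s) s → lo + s ≤ κ → lo + s ≤ lm → κ + lm ≤ hi → 2 * κ + lm ≤ M →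
    κ + 2 * lm ≤ M → ∀ b0 : ℝ,
    b0 = EE M S (2 * κ + lm - 3 * (Kσ * s)) (κ + 2 * lm - 3 * (Kσ * s)) (κ - 3 * (Kσ * s))
      (lm - 3 * (Kσ * s)) →
    A0 * (Kσ * s : ℕ) ≤
      (EE M S (2 * κ + lm) (κ + 2 * lm - 3 * (Kσ * s)) (κ - 3 * (Kσ * s)) (lm - 3 * (Kσ * s)) - b0) +
      (EE M S (2 * κ + lm - 3 * (Kσ * s)) (κ + 2 * lm) (κ - 3 * (Kσ * s)) (lm - 3 * (Kσ * s)) - b0) +
      (EE M S (2 * κ + lm - 3 * (Kσ * s)) (κ + 2 * lm - 3 * (Kσ * s)) κ (lm - 3 * (Kσ * s)) - b0) +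
      (EE M S (2 * κ + lm - 3 * (Kσ * s)) (κ + 2 * lm - 3 * (Kσ * s)) (κ - 3 * (Kσ * s)) lm - b0) -
      6 * (Kσ * s : ℕ) →
    c * ((s : ℝ) ^ 2 / 2 ^ (12 * s)) ≤
      (EE M S (2 * κ + lm) (κ + 2 * lm - 3 * (Kσ * s)) (κ - 3 * (Kσ * s)) (lm - 3 * (Kσ * s)) - b0) +
      (EE M S (2 * κ + lm - 3 * (Kσ * s)) (κ + 2 * lm) (κ - 3 * (Kσ * s)) (lm - 3 * (Kσ * s)) - b0) +
      (EE M S (2 * κ + lm - 3 * (Kσ * s)) (κ + 2 * lm - 3 * (Kσ * s)) κ (lm - 3 * (Kσ * s)) - b0) +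
      (EE M S (2 * κ + lm - 3 * (Kσ * s)) (κ + 2 * lm - 3 * (Kσ * s)) (κ - 3 * (Kσ * s)) lm - b0) -
      (EE M S (2 * κ + lm) (κ + 2 * lm) κ lm - b0) := by
  classical
  obtain ⟨K1, c', hc', hcore⟩ := fib_core1 A0 hA0
  refine ⟨K1, A0 / 24 * c', by positivity, fun Kσ hKσ Λ hΛ => ?_⟩
  obtain ⟨s1, hcore⟩ := hcore Kσ hKσ
  obtain ⟨s2, hs2⟩ : ∃ s2 : ℕ, ∀ s ≥ s2, (48 * Λ / A0 : ℝ) ≤ 2 ^ s := by
    obtain ⟨n, hn⟩ := pow_unbounded_of_one_lt (48 * Λ / A0 : ℝ) (by norm_num : (1 : ℝ) < 2)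
    exact ⟨n, fun s hs => hn.le.trans (pow_le_pow_right₀ (by norm_num) hs)⟩
  refine ⟨max (max s1 s2) 200, fun s hs M lo hi S hS κ lm hp hlo1 hlo2 hhi h1 h2 b0 hb0 hm => ?_⟩
  have hs1 : s1 ≤ s := le_trans (le_trans (le_max_left _ _) (le_max_left _ _)) hs
  have hs2' := hs2 s (le_trans (le_trans (le_max_right _ _) (le_max_left _ _)) hs)
  have hs200 : 200 ≤ s := le_trans (le_max_right _ _) hs
  have hcore := hcore s hs1 Λ M lo hi S hS κ lm hp hlo1 hlo2 hhi h1 h2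
  set σ := Kσ * s with hσdef
  have hsσ := hp.sσ
  have hk1 := hp.k1
  have hl1 := hp.l1
  have hσ : 0 < σ := by omega
  have hσR : (0 : ℝ) < (σ : ℝ) := by exact_mod_cast hσ
  -- S nonempty
  have hSn : 0 < S.card := by
    rcases Nat.eq_zero_or_pos S.card with h | h
    · have := hS.card
      rw [h, mul_zero] at this
      have h4 : 0 < 4 ^ M := by positivity
      omega
    · exact h
  have hSR : (0 : ℝ) < S.card := by exact_mod_cast hSn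
  -- the averages
  have e1 := EE_cond M S (2 * κ + lm - 3 * σ) (κ + 2 * lm - 3 * σ) (κ - 3 * σ) (lm - 3 * σ)
    (2 * κ + lm) (κ + 2 * lm - 3 * σ) (κ - 3 * σ) (lm - 3 * σ) (by omega) le_rfl le_rfl le_rfl
  have e2 := EE_cond M S (2 * κ + lm - 3 * σ) (κ + 2 * lm - 3 * σ) (κ - 3 * σ) (lm - 3 * σ)
    (2 * κ + lm - 3 * σ) (κ + 2 * lm) (κ - 3 * σ) (lm - 3 * σ) le_rfl (by omega) le_rfl le_rfl
  have e3 := EE_cond M S (2 * κ + lm - 3 * σ) (κ + 2 * lm - 3 * σ) (κ - 3 * σ) (lm - 3 * σ)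
    (2 * κ + lm - 3 * σ) (κ + 2 * lm - 3 * σ) κ (lm - 3 * σ) le_rfl le_rfl (by omega) le_rfl
  have e4 := EE_cond M S (2 * κ + lm - 3 * σ) (κ + 2 * lm - 3 * σ) (κ - 3 * σ) (lm - 3 * σ)
    (2 * κ + lm - 3 * σ) (κ + 2 * lm - 3 * σ) (κ - 3 * σ) lm le_rfl le_rfl le_rfl (by omega)
  have e5 := EE_cond M S (2 * κ + lm - 3 * σ) (κ + 2 * lm - 3 * σ) (κ - 3 * σ) (lm - 3 * σ)
    (2 * κ + lm) (κ + 2 * lm) κ lm (by omega) (by omega) (by omega) (by omega)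
  rw [sum_congr rfl fun p _ => fib_X M S _ _ _ _ _ p] at e1
  rw [sum_congr rfl fun p _ => fib_Y M S _ _ _ _ _ p] at e2
  rw [sum_congr rfl fun p _ => fib_C M S _ _ _ _ _ p] at e3
  rw [sum_congr rfl fun p _ => fib_D M S _ _ _ _ _ p] at e4
  rw [← hb0] at e1 e2 e3 e4 e5
  rw [e1, e2, e3, e4] at hm ⊢
  rw [e5]
  have hsum : (∑ p ∈ S, ent (fib M S (2 * κ + lm - 3 * σ) (κ + 2 * lm - 3 * σ) (κ - 3 * σ)
        (lm - 3 * σ) p) (fun x => pre M (2 * κ + lm) x.1)) / (S.card : ℝ) +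
      (∑ p ∈ S, ent (fib M S (2 * κ + lm - 3 * σ) (κ + 2 * lm - 3 * σ) (κ - 3 * σ)
        (lm - 3 * σ) p) (fun x => pre M (κ + 2 * lm) x.2.1)) / (S.card : ℝ) +
      (∑ p ∈ S, ent (fib M S (2 * κ + lm - 3 * σ) (κ + 2 * lm - 3 * σ) (κ - 3 * σ)
        (lm - 3 * σ) p) (fun x => pre M κ x.2.2.1)) / (S.card : ℝ) +
      (∑ p ∈ S, ent (fib M S (2 * κ + lm - 3 * σ) (κ + 2 * lm - 3 * σ) (κ - 3 * σ)
        (lm - 3 * σ) p) (fun x => pre M lm x.2.2.2)) / (S.card : ℝ) =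
      (∑ p ∈ S, sumC M S κ lm σ p) / S.card := by
    rw [← add_div, ← add_div, ← add_div, ← sum_add_distrib, ← sum_add_distrib,
      ← sum_add_distrib]
    rfl
  rw [hsum] at hm ⊢
  have htc : (∑ p ∈ S, sumC M S κ lm σ p) / (S.card : ℝ) -
      (∑ p ∈ S, ent (fib M S (2 * κ + lm - 3 * σ) (κ + 2 * lm - 3 * σ) (κ - 3 * σ)
        (lm - 3 * σ) p) (px M (2 * κ + lm) (κ + 2 * lm) κ lm)) / (S.card : ℝ) =
      (∑ p ∈ S, tcC M S κ lm σ p) / S.card := by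
    rw [← sub_div, ← sum_sub_distrib]
    rfl
  rw [htc, le_div_iff₀ hSR]
  -- classes
  set G := S.filter (fun p => A0 * (σ : ℝ) / 2 ≤ sumC M S κ lm σ p - 6 * (σ : ℝ)) with hG
  set B1 := S.filter (fun p => ¬ GenC κ lm σ s (pre M (2 * κ + lm - 3 * σ) p.1)
      (pre M (κ + 2 * lm - 3 * σ) p.2.1)) with hB1
  set B2 := S.filter (fun p => ¬ badC M S κ lm σ s p ≤ 1 / 2 ^ (2 * s)) with hB2
  have hGc : A0 / 12 * S.card ≤ (G.card : ℝ) := by
    refine T2_margin S G (filter_subset _ _) (fun p => sumC M S κ lm σ p - 6 * (σ : ℝ)) A0 σ hA0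
      hσR (fun p hpS => ?_) (fun p hpS hpG => ?_) ?_
    · have := sumC_le M S κ lm σ p hpS (by omega) (by omega) h1 h2
      linarith
    · rw [hG, mem_filter] at hpG
      by_contra h
      exact hpG ⟨hpS, (not_le.1 h).le⟩
    · rw [sum_sub_distrib, sum_const, nsmul_eq_mul]
      have h3 := mul_le_mul_of_nonneg_right hm hSR.le
      rw [sub_mul, div_mul_cancel₀ _ hSR.ne'] at h3
      linarith
  have hB1c : (B1.card : ℝ) ≤ Λ / 2 ^ (50 * s) * S.card := by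
    have h3 := T2_gen Λ M lo hi s S hS hs200 κ lm σ hp h1 h2
    convert h3
  have hB2c : (B2.card : ℝ) ≤ Λ / 2 ^ (3 * s) * S.card := by
    have h3 := markovS S (badC M S κ lm σ s) (fun p _ => by unfold badC; positivity)
      (Λ / 2 ^ (5 * s)) (1 / 2 ^ (2 * s)) (by positivity)
      (by
        rw [div_le_iff₀ hSR]
        exact badC_sum Λ M lo hi s S hS hs200 κ lm σ hp h1 h2)
      B2 (filter_subset _ _) (fun p hpB => by
        rw [hB2, mem_filter] at hpB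
        exact (not_le.1 hpB.2).le)
    refine h3.trans (le_of_eq ?_)
    have h4 : (2 : ℝ) ^ (5 * s) = 2 ^ (3 * s) * 2 ^ (2 * s) := by
      rw [← pow_add]
      congr 1
      ring
    rw [h4]
    field_simp
  have hΛR : (1 : ℝ) ≤ Λ := by exact_mod_cast hΛ
  have hsmall : ∀ n : ℕ, s ≤ n → (Λ : ℝ) / 2 ^ n ≤ A0 / 48 := by
    intro n hn
    have h3 : (2 : ℝ) ^ s ≤ 2 ^ n := pow_le_pow_right₀ (by norm_num) hn
    rw [div_le_iff₀ (by positivity)]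
    have h4 : 48 * (Λ : ℝ) / A0 ≤ 2 ^ n := hs2'.trans h3
    rw [div_le_iff₀ hA0] at h4
    linarith
  have hgood : A0 / 24 * S.card ≤ ((G \ (B1 ∪ B2)).card : ℝ) := by
    refine T2_count G B1 B2 S.card (A0 / 12) _ _ _ hGc hB1c hB2c ?_ hSR.le
    have h3 := hsmall (50 * s) (by omega)
    have h4 := hsmall (3 * s) (by omega)
    linarith
  have hlow : ((G \ (B1 ∪ B2)).card : ℝ) * (c' * ((s : ℝ) ^ 2 / 2 ^ (12 * s))) ≤
      ∑ p ∈ G \ (B1 ∪ B2), tcC M S κ lm σ p := by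
    rw [← nsmul_eq_mul]
    refine card_nsmul_le_sum _ _ _ fun p hpg => ?_
    rw [mem_sdiff, mem_union, not_or] at hpg
    obtain ⟨hpG, hpB1, hpB2⟩ := hpg
    rw [hG, mem_filter] at hpG
    have hpS := hpG.1
    refine hcore p hpS ?_ hpG.2 ?_
    · by_contra h
      exact hpB1 (mem_filter.2 ⟨hpS, h⟩)
    · by_contra h
      exact hpB2 (mem_filter.2 ⟨hpS, h⟩)
  have hup : ∑ p ∈ G \ (B1 ∪ B2), tcC M S κ lm σ p ≤ ∑ p ∈ S, tcC M S κ lm σ p := by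
    refine sum_le_sum_of_subset_of_nonneg ?_ fun p hpS _ => tcC_nonneg M S κ lm σ p hpS
    exact sdiff_subset.trans (filter_subset _ _)
  refine le_trans ?_ (hlow.trans hup)
  have h3 : (0 : ℝ) ≤ c' * ((s : ℝ) ^ 2 / 2 ^ (12 * s)) := by positivity
  have h4 := mul_le_mul_of_nonneg_right hgood h3
  refine le_trans (le_of_eq ?_) h4
  ring

end MP_5e4520_nt.Ex
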