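import Pool.Agent.Lib.MP_5e4520_nt.RedB
import Pool.Agent.Lib.MP_5e4520_ntE.XDefs
set_option autoImplicit false

namespace MP_5e4520_nt.Ex

open Finset MeasureTheory

/-- points of the unit square with a bad shift, constant `C1` -/
def BadC (C1 : ℝ) : Set (ℝ × ℝ) :=
  {x | (0 ≤ x.1 ∧ x.1 < 1) ∧ (0 ≤ x.2 ∧ x.2 < 1) ∧
    ∃ v : ℝ × ℝ, (0 ≤ v.1 ∧ v.1 < 1) ∧ (0 ≤ v.2 ∧ v.2 < 1) ∧ ∃ N : ℕ, ∀ q : ℕ, N ≤ q →
      C1 < (q : ℝ) * Real.log q * nd (q * x.1 - v.1) * nd (q * x.2 - v.2)}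

/-- JOB X1.  Compare helper25's `RedD.lean` (copy from it).  If `x ∈ BadC (108 (C+2))` with `N`, then for every `s` with
`N ≤ 2^(12 s)` the point is in `badset (12*s) lo hi`: for `2^lo ≤ q ≤ 3·2^hi`, `log q ≤ hi + 2 ≤ (C+2) 2^(12 s)`, so
`q nd nd > 108 (C+2)/log q ≥ 108/2^(12 s)`.  By `bad_small`, `⋂_{s ≥ s1} badset` has measure `≤ 1/Λ` for every `Λ`,
hence `0`, and `BadC` is contained in a countable union of such sets. -/
theorem BadC_null (C : ℕ)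
    (core : ∀ Λ : ℕ, 1 ≤ Λ → ∃ s0 : ℕ, ∀ s ≥ s0, ∃ M lo hi : ℕ, 12 * s ≤ lo ∧ 2 * hi ≤ M ∧
      hi ≤ C * 2 ^ (12 * s) ∧ ∀ S : Finset Pt, ¬ Sys M (12 * s) Λ lo hi S) :
    volume (BadC (108 * (C + 2))) = 0 := by
  set A : ℕ → Set (ℝ × ℝ) := fun N => {x | (0 ≤ x.1 ∧ x.1 < 1) ∧ (0 ≤ x.2 ∧ x.2 < 1) ∧
    ∃ v : ℝ × ℝ, (0 ≤ v.1 ∧ v.1 < 1) ∧ (0 ≤ v.2 ∧ v.2 < 1) ∧ ∀ q : ℕ, N ≤ q →
      (108 * ((C : ℝ) + 2)) < (q : ℝ) * Real.log q * nd (q * x.1 - v.1) * nd (q * x.2 - v.2)} with hA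
  have hsub : BadC (108 * (C + 2)) ⊆ ⋃ N : ℕ, A N := by
    rintro x ⟨hx1, hx2, v, hv1, hv2, N, hN⟩
    rw [Set.mem_iUnion]
    exact ⟨N, hx1, hx2, v, hv1, hv2, hN⟩
  refine measure_mono_null hsub (measure_iUnion_null fun N => ?_)
  have hle : ∀ Λ : ℕ, 1 ≤ Λ → volume (A N) ≤ ENNReal.ofReal (1 / Λ) := by
    intro Λ hΛ
    obtain ⟨s0, hs0⟩ := core Λ hΛ
    obtain ⟨M, lo, hi, hlo, hM, hhi, hS⟩ := hs0 (max s0 (max N 1)) (le_max_left _ _)
    set s := max s0 (max N 1) with hs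
    have hsN : N ≤ s := (le_max_left _ _).trans (le_max_right _ _)
    have hs1 : 1 ≤ s := (le_max_right _ _).trans (le_max_right _ _)
    refine (measure_mono ?_).trans (bad_small M (12 * s) Λ lo hi hlo hM hΛ hS)
    rintro x ⟨hx1, hx2, v, hv1, hv2, hN⟩
    refine ⟨hx1, hx2, v, hv1, hv2, fun q hq1 hq2 => ?_⟩
    have h12 : 12 * s < 2 ^ (12 * s) := Nat.lt_two_pow_self
    have hq3 : 2 ^ (12 * s) ≤ q := (Nat.pow_le_pow_right (by norm_num) hlo).trans hq1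
    have hNq : N ≤ q := by omega
    have hq4 : 2 ≤ q := by omega
    have hq4r : (2 : ℝ) ≤ q := by exact_mod_cast hq4
    have hq0 : (0 : ℝ) < q := by linarith
    have hlog0 : 0 < Real.log q := Real.log_pos (by linarith)
    have hlog : Real.log q ≤ ((C : ℝ) + 2) * 2 ^ (12 * s) := by
      have h1 : Real.log q ≤ Real.log (3 * 2 ^ hi) := by
        apply Real.log_le_log hq0
        exact_mod_cast hq2
      have h2 : Real.log ((3 : ℝ) * 2 ^ hi) = Real.log 3 + hi * Real.log 2 := by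
        rw [Real.log_mul (by norm_num) (by positivity), Real.log_pow]
      have h3 : Real.log 3 ≤ 2 := by
        have := Real.log_le_sub_one_of_pos (show (0 : ℝ) < 3 by norm_num)
        linarith
      have h4 : Real.log 2 ≤ 1 := by
        have := Real.log_le_sub_one_of_pos (show (0 : ℝ) < 2 by norm_num)
        linarith
      have h5 : (hi : ℝ) * Real.log 2 ≤ hi := by
        have : (0 : ℝ) ≤ hi := Nat.cast_nonneg _
        nlinarith
      have h6 : (hi : ℝ) ≤ C * 2 ^ (12 * s) := by exact_mod_cast hhi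
      have h7 : (1 : ℝ) ≤ 2 ^ (12 * s) := one_le_pow₀ (by norm_num)
      nlinarith
    have hmain := hN q hNq
    set t := (q : ℝ) * nd (q * x.1 - v.1) * nd (q * x.2 - v.2) with ht
    have e : (q : ℝ) * Real.log q * nd (q * x.1 - v.1) * nd (q * x.2 - v.2) = Real.log q * t := by
      rw [ht]; ring
    rw [e] at hmain
    have hC : (0 : ℝ) < (C : ℝ) + 2 := by positivity
    have ht0 : 0 < t := by
      by_contra hcon
      push Not at hcon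
      have : Real.log q * t ≤ 0 := mul_nonpos_of_nonneg_of_nonpos hlog0.le hcon
      nlinarith
    have h8 : Real.log q * t ≤ ((C : ℝ) + 2) * 2 ^ (12 * s) * t :=
      mul_le_mul_of_nonneg_right hlog ht0.le
    rw [div_lt_iff₀ (by positivity)]
    have h9 : ((C : ℝ) + 2) * 108 < ((C : ℝ) + 2) * (t * 2 ^ (12 * s)) := by
      calc ((C : ℝ) + 2) * 108 = 108 * ((C : ℝ) + 2) := by ring
        _ < Real.log q * t := hmain
        _ ≤ ((C : ℝ) + 2) * 2 ^ (12 * s) * t := h8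
        _ = ((C : ℝ) + 2) * (t * 2 ^ (12 * s)) := by ring
    exact lt_of_mul_lt_mul_left h9 hC.le
  have hlim : Filter.Tendsto (fun L : ℕ => ENNReal.ofReal (1 / (L : ℝ))) Filter.atTop (nhds 0) := by
    have := ENNReal.tendsto_ofReal tendsto_one_div_atTop_nhds_zero_nat
    rwa [ENNReal.ofReal_zero] at this
  exact le_antisymm (ge_of_tendsto hlim (Filter.eventually_atTop.2 ⟨1, hle⟩)) (by simp)

/-- Reduce `x` and the shift modulo `1`; as in `final_of_null` of `RedD.lean`. -/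
theorem exact_of_null (C1 : ℝ) (h : volume (BadC C1) = 0) :
    ∀ᵐ x : ℝ × ℝ ∂volume, ∀ γ : ℝ × ℝ, ∃ C : ℝ, ∀ N : ℕ, ∃ q : ℕ, N ≤ q ∧
      (q : ℝ) * Real.log (q : ℝ)
        * |(q : ℝ) * x.1 - γ.1 - ((round ((q : ℝ) * x.1 - γ.1) : ℤ) : ℝ)|
        * |(q : ℝ) * x.2 - γ.2 - ((round ((q : ℝ) * x.2 - γ.2) : ℤ) : ℝ)| ≤ C := by
  rw [ae_iff]
  have hsub : {x : ℝ × ℝ | ¬ ∀ γ : ℝ × ℝ, ∃ C : ℝ, ∀ N : ℕ, ∃ q : ℕ, N ≤ q ∧
      (q : ℝ) * Real.log (q : ℝ)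
        * |(q : ℝ) * x.1 - γ.1 - ((round ((q : ℝ) * x.1 - γ.1) : ℤ) : ℝ)|
        * |(q : ℝ) * x.2 - γ.2 - ((round ((q : ℝ) * x.2 - γ.2) : ℤ) : ℝ)| ≤ C} ⊆
      ⋃ z : ℤ × ℤ, (fun x : ℝ × ℝ => x + ((z.1 : ℝ), (z.2 : ℝ))) ⁻¹' (BadC C1) := by
    intro x hx
    rw [Set.mem_ofPred_eq] at hx
    push Not at hx
    obtain ⟨γ, hγ⟩ := hx
    obtain ⟨N, hN⟩ := hγ C1
    rw [Set.mem_iUnion]
    refine ⟨(-⌊x.1⌋, -⌊x.2⌋), ?_⟩
    have e1 : x.1 + ((-⌊x.1⌋ : ℤ) : ℝ) = Int.fract x.1 := by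
      push_cast; rw [Int.fract]; ring
    have e2 : x.2 + ((-⌊x.2⌋ : ℤ) : ℝ) = Int.fract x.2 := by
      push_cast; rw [Int.fract]; ring
    rw [Set.mem_preimage]
    refine ⟨?_, ?_, (Int.fract γ.1, Int.fract γ.2), ⟨Int.fract_nonneg _, Int.fract_lt_one _⟩,
      ⟨Int.fract_nonneg _, Int.fract_lt_one _⟩, N, fun q hq => ?_⟩
    · simp only [Prod.fst_add, e1]
      exact ⟨Int.fract_nonneg _, Int.fract_lt_one _⟩
    · simp only [Prod.snd_add, e2]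
      exact ⟨Int.fract_nonneg _, Int.fract_lt_one _⟩
    · have hmain := hN q hq
      have n1 : nd ((q : ℝ) * Int.fract x.1 - Int.fract γ.1) = nd ((q : ℝ) * x.1 - γ.1) := by
        have : (q : ℝ) * x.1 - γ.1 = ((q : ℝ) * Int.fract x.1 - Int.fract γ.1) +
            ((q * ⌊x.1⌋ - ⌊γ.1⌋ : ℤ) : ℝ) := by
          push_cast
          simp only [Int.fract]; ring
        rw [this, nd_add_int]
      have n2 : nd ((q : ℝ) * Int.fract x.2 - Int.fract γ.2) = nd ((q : ℝ) * x.2 - γ.2) := by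
        have : (q : ℝ) * x.2 - γ.2 = ((q : ℝ) * Int.fract x.2 - Int.fract γ.2) +
            ((q * ⌊x.2⌋ - ⌊γ.2⌋ : ℤ) : ℝ) := by
          push_cast
          simp only [Int.fract]; ring
        rw [this, nd_add_int]
      simp only [Prod.fst_add, Prod.snd_add, e1, e2]
      rw [n1, n2]
      exact hmain
  refine measure_mono_null hsub (measure_iUnion_null fun z => ?_)
  rw [measure_preimage_add_right]
  exact h

end MP_5e4520_nt.Ex
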