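import Pool.Agent.Lib.MP_5e4520_ntE.A9
import Pool.Agent.Lib.MP_5e4520_ntE.S4
import Pool.Agent.Lib.MP_5e4520_ntE.T2
import Pool.Agent.Lib.MP_5e4520_ntE.X1
set_option autoImplicit false

/-!
# Final assembly
-/

namespace MP_5e4520_nt.Ex

open Finset

/-- Case 1 of `modA`: a block `(i,j)` with large margin has total correlation `≥ c s²/2^(12s)`.
`κ = (2i-j+1)σ`, `lm = (2j-i+1)σ`, `σ = Kσ s`: `2κ+lm = 3(i+1)σ`, `κ+2lm = 3(j+1)σ`, `2κ+lm-3σ = 3iσ`, `κ-3σ = (2i-j-2)σ`.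
Unfold `MGf, TCf, eX, .., h4, bS` and apply `R1S`. -/
theorem case1_low (A0 : ℝ) (hA0 : 0 < A0) : ∃ (K1 : ℕ) (c : ℝ), 0 < c ∧ ∀ Kσ ≥ K1, ∀ Λ : ℕ, 1 ≤ Λ →
    ∃ s0 : ℕ, ∀ s ≥ s0, ∀ (T W M hi : ℕ) (S : Finset Pt), Sys M (12 * s) Λ (12 * s) hi S →
    20 ≤ T → 1 ≤ W → 3 * W * T * (Kσ * s) ≤ hi → 8 * W * T * (Kσ * s) ≤ M →
    ∀ i j : ℕ, j + T ≤ 2 * i → i + T ≤ 2 * j → i ≤ W * T → j ≤ W * T →
    A0 * (Kσ * s : ℕ) ≤ MGf (EE M S) (Kσ * s) i j →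
    c * ((s : ℝ) ^ 2 / 2 ^ (12 * s)) ≤ TCf (EE M S) (Kσ * s) i j := by
  obtain ⟨K1, c, hc, h⟩ := R1S A0 hA0
  refine ⟨max K1 1000, c, hc, ?_⟩
  intro Kσ hK Λ hΛ
  obtain ⟨s0, h⟩ := h Kσ (le_trans (le_max_left _ _) hK) Λ hΛ
  refine ⟨max s0 1, ?_⟩
  intro s hs T W M hi S hS hT hW hhi hM i j hj hi' hiW hjW hMG
  have hs0 : s0 ≤ s := le_trans (le_max_left _ _) hs
  have hs1 : 1 ≤ s := le_trans (le_max_right _ _) hs
  have hK1000 : 1000 ≤ Kσ := le_trans (le_max_right _ _) hK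
  obtain ⟨σ, hσ⟩ : ∃ σ, σ = Kσ * s := ⟨_, rfl⟩
  rw [← hσ] at hMG ⊢ hhi hM
  have hσs : 1000 * s ≤ σ := by rw [hσ]; exact Nat.mul_le_mul_right _ hK1000
  obtain ⟨K, hKd⟩ : ∃ K, K = 2 * i - j := ⟨_, rfl⟩
  obtain ⟨L, hLd⟩ : ∃ L, L = 2 * j - i := ⟨_, rfl⟩
  have hK3 : 2 * K + L = 3 * i := by omega
  have hL3 : K + 2 * L = 3 * j := by omega
  have hKL : K + L = i + j := by omega
  have hKT : T ≤ K := by omega
  have hLT : T ≤ L := by omega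
  obtain ⟨κ, hκ⟩ : ∃ κ, κ = (K + 1) * σ := ⟨_, rfl⟩
  obtain ⟨lm, hlm⟩ : ∃ lm, lm = (L + 1) * σ := ⟨_, rfl⟩
  have e1 : 2 * κ + lm = 3 * (i + 1) * σ := by
    rw [hκ, hlm]
    have : 2 * ((K + 1) * σ) + (L + 1) * σ = (2 * K + L + 3) * σ := by ring
    rw [this, hK3]; ring
  have e2 : κ + 2 * lm = 3 * (j + 1) * σ := by
    rw [hκ, hlm]
    have : (K + 1) * σ + 2 * ((L + 1) * σ) = (K + 2 * L + 3) * σ := by ring
    rw [this, hL3]; ring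
  have e3 : 2 * κ + lm - 3 * σ = 3 * i * σ := by
    rw [e1]
    have : 3 * (i + 1) * σ = 3 * i * σ + 3 * σ := by ring
    omega
  have e4 : κ + 2 * lm - 3 * σ = 3 * j * σ := by
    rw [e2]
    have : 3 * (j + 1) * σ = 3 * j * σ + 3 * σ := by ring
    omega
  obtain ⟨K', hK'⟩ : ∃ K', K = K' + 2 := ⟨K - 2, by omega⟩
  obtain ⟨L', hL'⟩ : ∃ L', L = L' + 2 := ⟨L - 2, by omega⟩
  have e5 : κ - 3 * σ = (K - 2) * σ := by
    rw [hκ, hK']
    have : (K' + 2 + 1) * σ = K' * σ + 3 * σ := by ring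
    rw [this]; simp
  have e6 : lm - 3 * σ = (L - 2) * σ := by
    rw [hlm, hL']
    have : (L' + 2 + 1) * σ = L' * σ + 3 * σ := by ring
    rw [this]; simp
  have hTσ1 : 20 * σ ≤ K * σ := Nat.mul_le_mul_right _ (le_trans hT hKT)
  have hTσ2 : 20 * σ ≤ L * σ := Nat.mul_le_mul_right _ (le_trans hT hLT)
  have hκ' : κ = K * σ + σ := by rw [hκ]; ring
  have hlm' : lm = L * σ + σ := by rw [hlm]; ring
  have hpar : ParC κ lm (Kσ * s) s := by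
    rw [← hσ]
    exact ⟨hs1, hσs, by omega, by omega⟩
  have hWT : 20 ≤ W * T := by nlinarith
  have hsum : κ + lm ≤ hi := by
    have h1 : κ + lm = (i + j + 2) * σ := by
      rw [hκ, hlm, ← hKL]; ring
    rw [h1]
    refine le_trans (Nat.mul_le_mul_right _ ?_) hhi
    nlinarith
  have hM1 : 2 * κ + lm ≤ M := by
    rw [e1]
    refine le_trans (Nat.mul_le_mul_right _ ?_) hM
    nlinarith
  have hM2 : κ + 2 * lm ≤ M := by
    rw [e2]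
    refine le_trans (Nat.mul_le_mul_right _ ?_) hM
    nlinarith
  have hmain := h s hs0 M (12 * s) hi S hS κ lm hpar (by omega) (by omega) hsum hM1 hM2 _ rfl
  rw [← hσ] at hmain
  have f1 : (2 * i - j - 2) * σ = κ - 3 * σ := by rw [e5, hKd]
  have f2 : (2 * j - i - 2) * σ = lm - 3 * σ := by rw [e6, hLd]
  have f3 : (2 * i - j + 1) * σ = κ := by rw [hκ, hKd]
  have f4 : (2 * j - i + 1) * σ = lm := by rw [hlm, hLd]
  simp only [MGf, eX, eY, eC, eD, bS, h4, f1, f2, f3, f4, ← e1, ← e2, ← e3, ← e4] at hMG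
  simp only [TCf, eX, eY, eC, eD, eXYCD, bS, h4, f1, f2, f3, f4, ← e1, ← e2, ← e3, ← e4]
  have h2 := hmain (by linarith)
  linarith

/-- `a3, c2` from `R2S`; `A0, CA, W` from `modA a3`; `K1, c1` from `case1_low A0` (take `max K1 1`);
`K2 = K1`, `Kσ = K2 G ≥ K1`, `σ' = G s`, `σ = K2 σ' = Kσ s`; `K0 : ℕ` with `CA Kσ < c1 K0` and `CA G < c2 K2 K0`, `K0 ≥ 1`;
`T = K0 2^(12s)/s + 1` (natural division): `T ≥ K0 2^(12s)/s` (reals), `T ≥ W, 100·.., logb 2 Λ` for large `s`,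
`s T ≤ K0 2^(12s) + s`; `lo = 12 s`, `hi = 3 W T σ`, `M = 8 W T σ`, `C = 3 W Kσ (K0+1)`.
Suppose `Sys M (12s) Λ lo hi S`; `EE_poly`, `modA` (with `E = EE M S`, `lam = logb 2 Λ`).
Case 1: `c1 s²/2^(12s) ≤ TCf ≤ CA σ/T ≤ CA Kσ s²/(K0 2^(12s))`, contradiction.
Case 2: `ParF s ks ls` (`ks, ls ≥ T σ ≥ 100 G s`; `ks ≤ kg ≤ W T σ ≤ W ls ≤ 2^s ls`), `R2S`:
`c2 s²/2^(12s) ≤ I ≤ CA σ'/(K2 T) ≤ CA G s²/(K2 K0 2^(12s))`, contradiction. -/
theorem core_all : ∃ C : ℕ, ∀ Λ : ℕ, 1 ≤ Λ → ∃ s0 : ℕ, ∀ s ≥ s0, ∃ M lo hi : ℕ, 12 * s ≤ lo ∧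
    2 * hi ≤ M ∧ hi ≤ C * 2 ^ (12 * s) ∧ ∀ S : Finset Pt, ¬ Sys M (12 * s) Λ lo hi S := by
  obtain ⟨a3, c2, ha3, hc2, hR2⟩ := R2S
  obtain ⟨A0, CA, W, hA0, hCA, hW, hmod⟩ := modA a3 ha3
  obtain ⟨K1, c1, hc1, hR1⟩ := case1_low A0 hA0
  obtain ⟨K2, hK2⟩ : ∃ K2, K2 = max K1 1 := ⟨_, rfl⟩
  have hK2p : 1 ≤ K2 := by rw [hK2]; exact le_max_right _ _
  have hK21 : K1 ≤ K2 := by rw [hK2]; exact le_max_left _ _
  have hGc : 1 ≤ Gc := by unfold Gc; norm_num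
  obtain ⟨Kσ, hKσ⟩ : ∃ Kσ, Kσ = K2 * Gc := ⟨_, rfl⟩
  have hKσ1 : K1 ≤ Kσ := by
    rw [hKσ]; exact le_trans hK21 (Nat.le_mul_of_pos_right _ hGc)
  have hKσp : 1 ≤ Kσ := by rw [hKσ]; exact Nat.one_le_iff_ne_zero.2 (by positivity)
  obtain ⟨K0, hK0⟩ := exists_nat_gt (CA * Kσ / c1 + CA * Gc / c2 + 1)
  have hn1 : 0 ≤ CA * Kσ / c1 := by positivity
  have hn2 : 0 ≤ CA * Gc / c2 := by positivity
  have hK0a : CA * Kσ < c1 * K0 := by
    have : CA * Kσ / c1 < K0 := by linarith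
    rw [div_lt_iff₀ hc1] at this
    linarith
  have hK0b : CA * Gc < c2 * K0 := by
    have : CA * Gc / c2 < K0 := by linarith
    rw [div_lt_iff₀ hc2] at this
    linarith
  have hK0p : 1 ≤ K0 := by
    have : (1 : ℝ) < K0 := by linarith
    exact_mod_cast this.le
  refine ⟨3 * W * Kσ * (K0 + 1), ?_⟩
  intro Λ hΛ
  obtain ⟨s1, hs1⟩ := hR1 Kσ hKσ1 Λ hΛ
  obtain ⟨s2, hs2⟩ := hR2 Λ hΛ
  refine ⟨s1 + s2 + W + Λ + 1000, ?_⟩
  intro s hs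
  have hsp : 0 < s := by omega
  obtain ⟨T, hT⟩ : ∃ T, T = K0 * 2 ^ (12 * s) / s + 1 := ⟨_, rfl⟩
  have hsT1 : K0 * 2 ^ (12 * s) < s * T := by
    rw [hT]; exact Nat.lt_mul_div_succ _ hsp
  have hsT2 : s * T ≤ K0 * 2 ^ (12 * s) + s := by
    rw [hT, Nat.mul_add, Nat.mul_one]
    exact Nat.add_le_add_right (Nat.mul_div_le _ _) _
  have h2s : s < 2 ^ s := Nat.lt_two_pow_self
  have hTs : s ≤ T := by
    by_contra hcon
    push Not at hcon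
    have h1 : s * T ≤ s * s := Nat.mul_le_mul_left _ hcon.le
    have h2 : s * s < 2 ^ s * 2 ^ s := Nat.mul_lt_mul'' h2s h2s
    have h3 : 2 ^ s * 2 ^ s ≤ 2 ^ (12 * s) := by
      rw [← pow_add]; exact Nat.pow_le_pow_right (by norm_num) (by omega)
    have h4 : 2 ^ (12 * s) ≤ K0 * 2 ^ (12 * s) := Nat.le_mul_of_pos_left _ hK0p
    omega
  have hTW : W ≤ T := by omega
  refine ⟨8 * W * T * (Kσ * s), 12 * s, 3 * W * T * (Kσ * s), le_refl _, ?_, ?_, ?_⟩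
  · have : 2 * (3 * W * T * (Kσ * s)) = 6 * W * T * (Kσ * s) := by ring
    rw [this]
    exact Nat.mul_le_mul_right _ (Nat.mul_le_mul_right _ (Nat.mul_le_mul_right _ (by norm_num)))
  · have h1 : 3 * W * T * (Kσ * s) = 3 * W * Kσ * (s * T) := by ring
    have h2 : 3 * W * Kσ * (K0 + 1) * 2 ^ (12 * s) = 3 * W * Kσ * (K0 * 2 ^ (12 * s) + 2 ^ (12 * s)) := by
      ring
    rw [h1, h2]
    apply Nat.mul_le_mul_left
    have h3 : 2 ^ s ≤ 2 ^ (12 * s) := Nat.pow_le_pow_right (by norm_num) (by omega)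
    omega
  intro S hS
  have hpoly := EE_poly hS hΛ
  have hlam : Real.logb 2 Λ ≤ T := by
    have hΛ0 : (0 : ℝ) < Λ := by exact_mod_cast hΛ
    rw [Real.logb_le_iff_le_rpow (by norm_num) hΛ0, Real.rpow_natCast]
    have h1 : Λ ≤ T := by omega
    have h2 : T < 2 ^ T := Nat.lt_two_pow_self
    have h3 : Λ ≤ 2 ^ T := by omega
    exact_mod_cast h3
  have hσeq : K2 * (Gc * s) = Kσ * s := by rw [hKσ]; ring
  have hGs : 1 ≤ Gc * s := Nat.one_le_iff_ne_zero.2 (by positivity)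
  have hm := hmod T hTW K2 (Gc * s) hK2p hGs (EE (8 * W * T * (Kσ * s)) S) (Real.logb 2 Λ)
    (8 * W * T * (Kσ * s)) hpoly (by
      rw [hσeq]
      exact Nat.mul_le_mul_right _ (Nat.mul_le_mul_right _ (Nat.mul_le_mul_right _ (by norm_num))))
    hlam
  rw [hσeq] at hm
  have hTp : (0 : ℝ) < T := by
    have : 0 < T := by omega
    exact_mod_cast this
  have hspr : (0 : ℝ) < s := by exact_mod_cast hsp
  have hpw : (0 : ℝ) < 2 ^ (12 * s) := by positivity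
  have hsTr : (K0 : ℝ) * 2 ^ (12 * s) < s * T := by exact_mod_cast hsT1
  rcases hm with ⟨i, j, h1, h2, h3, h4, h5, h6⟩ | ⟨ks, ls, kg, lg, h1, h2, h3, h4, h5, h6, h7, h8, h9⟩
  · have hlow := hs1 s (by omega) T W _ _ S hS (by omega) hW (le_refl _) (le_refl _) i j h1 h2 h3 h4 h5
    have h7 := hlow.trans h6
    rw [mul_div_assoc', mul_div_assoc', div_le_div_iff₀ hpw hTp] at h7
    push_cast at h7
    have h8 : c1 * (s * T) ≤ CA * Kσ * 2 ^ (12 * s) := by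
      have : s * (c1 * (s * T)) ≤ s * (CA * Kσ * 2 ^ (12 * s)) := by nlinarith
      exact le_of_mul_le_mul_left this hspr
    have h9 : c1 * (K0 * 2 ^ (12 * s)) < c1 * (s * T) := mul_lt_mul_of_pos_left hsTr hc1
    have h10 : (c1 * K0 - CA * Kσ) * 2 ^ (12 * s) < 0 := by nlinarith
    have h11 : 0 < (c1 * K0 - CA * Kσ) * 2 ^ (12 * s) := mul_pos (by linarith) hpw
    linarith
  · have hT100 : 100 ≤ T := by omega
    have hTσ : 100 * Gc * s ≤ T * (Kσ * s) := by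
      rw [hKσ]
      calc 100 * Gc * s = 100 * (1 * Gc * s) := by ring
        _ ≤ T * (K2 * Gc * s) := by
          apply Nat.mul_le_mul hT100
          exact Nat.mul_le_mul_right _ (Nat.mul_le_mul_right _ hK2p)
    have hWs : W ≤ 2 ^ s := by omega
    have hkW : W * T * (Kσ * s) = W * (T * (Kσ * s)) := by ring
    have hpar : ParF s ks ls := by
      refine ⟨by omega, le_trans hTσ h1, le_trans hTσ h2, ?_, ?_⟩
      · calc ks ≤ W * T * (Kσ * s) := by omega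
          _ = W * (T * (Kσ * s)) := hkW
          _ ≤ 2 ^ s * ls := Nat.mul_le_mul hWs h2
      · calc ls ≤ W * T * (Kσ * s) := by omega
          _ = W * (T * (Kσ * s)) := hkW
          _ ≤ 2 ^ s * ks := Nat.mul_le_mul hWs h1
    have h14 : 14 * s ≤ T * (Kσ * s) := by
      refine le_trans ?_ hTσ
      apply Nat.mul_le_mul_right
      omega
    have hhi : 3 * W * T * (Kσ * s) = 3 * (W * T * (Kσ * s)) := by ring
    have hM8 : 8 * W * T * (Kσ * s) = 8 * (W * T * (Kσ * s)) := by ring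
    have hlow := hs2 s (by omega) _ _ _ S hS ks ls kg lg hpar (by omega) (by omega) (by omega)
      h3 h4 (by omega) (by omega) (by omega) (by omega) h7 h8
    have h10 := hlow.trans h9
    have hK2r : (1 : ℝ) ≤ K2 := by exact_mod_cast hK2p
    have h11 : CA * (((Gc * s : ℕ) : ℝ) / (K2 * (T : ℝ))) ≤ CA * ((Gc * s : ℕ) : ℝ) / T := by
      rw [mul_div_assoc]
      apply mul_le_mul_of_nonneg_left _ hCA.le
      apply div_le_div_of_nonneg_left (by positivity) hTp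
      nlinarith
    have h12 := h10.trans h11
    rw [mul_div_assoc', div_le_div_iff₀ hpw hTp] at h12
    push_cast at h12
    have h13 : c2 * (s * T) ≤ CA * Gc * 2 ^ (12 * s) := by
      have : s * (c2 * (s * T)) ≤ s * (CA * Gc * 2 ^ (12 * s)) := by nlinarith
      exact le_of_mul_le_mul_left this hspr
    have h15 : c2 * (K0 * 2 ^ (12 * s)) < c2 * (s * T) := mul_lt_mul_of_pos_left hsTr hc2
    have h16 : (c2 * K0 - CA * Gc) * 2 ^ (12 * s) < 0 := by nlinarith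
    have h17 : 0 < (c2 * K0 - CA * Gc) * 2 ^ (12 * s) := mul_pos (by linarith) hpw
    linarith

/-- the frozen statement -/
theorem final_exact :
    ∀ᵐ x : ℝ × ℝ ∂MeasureTheory.volume, ∀ γ : ℝ × ℝ, ∃ C : ℝ, ∀ N : ℕ, ∃ q : ℕ, N ≤ q ∧
      (q : ℝ) * Real.log (q : ℝ)
        * |(q : ℝ) * x.1 - γ.1 - ((round ((q : ℝ) * x.1 - γ.1) : ℤ) : ℝ)|
        * |(q : ℝ) * x.2 - γ.2 - ((round ((q : ℝ) * x.2 - γ.2) : ℤ) : ℝ)| ≤ C := by
  obtain ⟨C, hC⟩ := core_all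
  exact exact_of_null _ (BadC_null C hC)

end MP_5e4520_nt.Ex
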