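import Pool.Agent.Lib.MP_5e4520_ntE.XDefs
set_option autoImplicit false

namespace MP_5e4520_nt.Ex

open Finset

theorem tri_nonneg (n : ℕ) (t : ℤ) : 0 ≤ tri n t := le_max_left _ _

theorem tri_le_one (n : ℕ) (t : ℤ) : tri n t ≤ 1 := by
  unfold tri
  apply max_le zero_le_one
  have : 0 ≤ |(t : ℝ)| / n := by positivity
  linarith

private theorem fo1_fej_zero (n : ℕ) (hn : 0 < n) : fej n 0 = n := by
  unfold fej
  have hn' : (n : ℝ) ≠ 0 := by positivity
  simp only [mul_zero, ee_zero, sum_const, card_range, nsmul_eq_mul, mul_one, Complex.norm_natCast]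
  rw [sq, mul_div_assoc, div_self hn', mul_one]

private theorem fo1_card (n : ℕ) (t : ℤ) (ht : t ∈ Ioo (-(n : ℤ)) n) :
    ((((range n ×ˢ range n).filter (fun p : ℕ × ℕ => (p.1 : ℤ) - p.2 = t)).card : ℕ) : ℤ) = n - |t| := by
  rw [mem_Ioo] at ht
  rcases le_total 0 t with h | h
  · obtain ⟨k, rfl⟩ := Int.eq_ofNat_of_zero_le h
    have h1 : (range n ×ˢ range n).filter (fun p : ℕ × ℕ => (p.1 : ℤ) - p.2 = ((k : ℕ) : ℤ)) =
        (range (n - k)).image (fun j => (j + k, j)) := by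
      ext ⟨a, b⟩
      simp only [mem_filter, mem_product, mem_range, mem_image, Prod.mk.injEq]
      constructor
      · rintro ⟨⟨ha, hb⟩, hab⟩
        exact ⟨b, by omega, by omega, rfl⟩
      · rintro ⟨j, hj, h2, h3⟩
        subst h3
        omega
    have h2 : Function.Injective (fun j : ℕ => (j + k, j)) := by
      intro x y hxy
      simpa using congrArg Prod.snd hxy
    rw [h1, card_image_of_injective _ h2, card_range, abs_of_nonneg h]
    omega
  · obtain ⟨k, hk⟩ := Int.eq_ofNat_of_zero_le (neg_nonneg.2 h)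
    have h0 : t = -(k : ℤ) := by omega
    subst h0
    have h1 : (range n ×ˢ range n).filter (fun p : ℕ × ℕ => (p.1 : ℤ) - p.2 = -((k : ℕ) : ℤ)) =
        (range (n - k)).image (fun j => (j, j + k)) := by
      ext ⟨a, b⟩
      simp only [mem_filter, mem_product, mem_range, mem_image, Prod.mk.injEq]
      constructor
      · rintro ⟨⟨ha, hb⟩, hab⟩
        exact ⟨a, by omega, rfl, by omega⟩
      · rintro ⟨j, hj, h2, h3⟩
        subst h2
        omega
    have h2 : Function.Injective (fun j : ℕ => (j, j + k)) := by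
      intro x y hxy
      simpa using congrArg Prod.fst hxy
    rw [h1, card_image_of_injective _ h2, card_range, abs_of_nonpos h]
    omega

private theorem fo1_tri_eq (n : ℕ) (t : ℤ) (hn : 0 < n) (ht : t ∈ Ioo (-(n : ℤ)) n) :
    tri n t = ((n : ℝ) - |(t : ℝ)|) / n := by
  rw [mem_Ioo] at ht
  have hn' : (0 : ℝ) < n := by exact_mod_cast hn
  have h1 : |(t : ℝ)| ≤ n := by
    rw [abs_le]
    constructor
    · have : (-(n : ℤ) : ℤ) ≤ t := ht.1.le
      exact_mod_cast this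
    · have : t ≤ (n : ℤ) := ht.2.le
      exact_mod_cast this
  unfold tri
  rw [max_eq_right]
  · rw [sub_div, div_self hn'.ne']
  · rw [sub_nonneg]
    exact div_le_one_of_le₀ h1 hn'.le

/-- `fej n θ = ∑_{|t|<n} (1-|t|/n) e(tθ)` : group the pairs `(i,j)` in `fej_eq` by `t = i - j`. -/
theorem fej_tri (n : ℕ) (hn : 0 < n) (θ : ℝ) :
    ((fej n θ : ℝ) : ℂ) = ∑ t ∈ Ioo (-(n : ℤ)) n, (tri n t : ℂ) * ee (t * θ) := by
  have hn' : (n : ℂ) ≠ 0 := by exact_mod_cast hn.ne'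
  rw [fej_eq, ← sum_product', sum_div]
  rw [← sum_fiberwise_of_maps_to (s := range n ×ˢ range n) (t := Ioo (-(n : ℤ)) n)
    (g := fun p : ℕ × ℕ => (p.1 : ℤ) - p.2)]
  · refine sum_congr rfl fun t ht => ?_
    have h1 : ∀ p ∈ (range n ×ˢ range n).filter (fun p : ℕ × ℕ => (p.1 : ℤ) - p.2 = t),
        ee (((p.1 : ℝ) - p.2) * θ) / n = ee (t * θ) / n := by
      intro p hp
      rw [mem_filter] at hp
      have h2 : ((p.1 : ℝ) - p.2) = (t : ℝ) := by
        rw [← hp.2]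
        push_cast
        ring
      rw [h2]
    rw [sum_congr rfl h1, sum_const, nsmul_eq_mul, fo1_tri_eq n t hn ht]
    have h3 := fo1_card n t ht
    have h4 : ((((range n ×ˢ range n).filter (fun p : ℕ × ℕ => (p.1 : ℤ) - p.2 = t)).card : ℕ) : ℝ) =
        (n : ℝ) - |(t : ℝ)| := by
      exact_mod_cast h3
    have h5 : ((((range n ×ˢ range n).filter (fun p : ℕ × ℕ => (p.1 : ℤ) - p.2 = t)).card : ℕ) : ℂ) =
        (((n : ℝ) - |(t : ℝ)| : ℝ) : ℂ) := by
      rw [← h4]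
      push_cast
      rfl
    rw [h5, Complex.ofReal_div, Complex.ofReal_natCast]
    ring
  · intro p hp
    rw [mem_product, mem_range, mem_range] at hp
    rw [mem_Ioo]
    omega

/-- JOB Fo1.  `∑_{|t|<n} tri n t = n` (`= fej n 0`). -/
theorem tri_sum (n : ℕ) (hn : 0 < n) : ∑ t ∈ Ioo (-(n : ℤ)) n, tri n t = n := by
  have h := fej_tri n hn 0
  rw [fo1_fej_zero n hn] at h
  simp only [mul_zero, ee_zero, mul_one] at h
  have h2 : ((∑ t ∈ Ioo (-(n : ℤ)) n, tri n t : ℝ) : ℂ) = ((n : ℝ) : ℂ) := by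
    rw [Complex.ofReal_sum, ← h]
  exact_mod_cast h2

theorem pw_nonneg (n A : ℕ) (t : ℤ) : 0 ≤ pw n A t := by
  induction A generalizing t with
  | zero =>
    unfold pw
    split_ifs <;> norm_num
  | succ A ih =>
    unfold pw
    refine sum_nonneg fun t' _ => mul_nonneg (div_nonneg (tri_nonneg _ _) (Nat.cast_nonneg _)) (ih _)

/-- support: `pw n A t = 0` for `|t| > A n` -/
theorem pw_supp (n A : ℕ) (t : ℤ) (h : ((A * n : ℕ) : ℤ) < |t|) : pw n A t = 0 := by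
  induction A generalizing t with
  | zero =>
    unfold pw
    rw [if_neg]
    rintro rfl
    simp at h
  | succ A ih =>
    unfold pw
    refine sum_eq_zero fun t' ht' => ?_
    rw [mem_Ioo] at ht'
    rw [ih (t - t'), mul_zero]
    have h1 : |t'| < n := abs_lt.2 ht'
    have h2 : |t| - |t'| ≤ |t - t'| := abs_sub_abs_le_abs_sub t t'
    push_cast at h ⊢
    nlinarith

private theorem fo1_shift (n A : ℕ) (t' : ℤ) (ht' : t' ∈ Ioo (-(n : ℤ)) n) (g : ℤ → ℂ)
    (hg : ∀ s, ((A * n : ℕ) : ℤ) < |s| → g s = 0) :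
    ∑ t ∈ Icc (-(((A + 1) * n : ℕ) : ℤ)) (((A + 1) * n : ℕ) : ℤ), g (t - t') =
      ∑ s ∈ Icc (-((A * n : ℕ) : ℤ)) ((A * n : ℕ) : ℤ), g s := by
  rw [mem_Ioo] at ht'
  have h1 : ∑ t ∈ Icc (-(((A + 1) * n : ℕ) : ℤ)) (((A + 1) * n : ℕ) : ℤ), g (t - t') =
      ∑ s ∈ Icc (-(((A + 1) * n : ℕ) : ℤ) - t') ((((A + 1) * n : ℕ) : ℤ) - t'), g s := by
    refine sum_nbij' (fun t => t - t') (fun s => s + t') ?_ ?_ ?_ ?_ ?_
    · intro t ht
      rw [mem_Icc] at ht ⊢
      omega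
    · intro t ht
      rw [mem_Icc] at ht ⊢
      omega
    · intro t _
      ring
    · intro t _
      ring
    · intro t _
      rfl
  rw [h1]
  symm
  apply sum_subset
  · intro s hs
    rw [mem_Icc] at hs ⊢
    push_cast at hs ⊢
    constructor <;> nlinarith
  · intro s _ hs
    apply hg
    rw [mem_Icc] at hs
    by_contra hc
    rw [not_lt, abs_le] at hc
    exact hs hc

/-- `∑_t pw n A t e(tθ) = (fej n θ / n)^A` (induction on `A`; reindex `t = t' + (t - t')`) -/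
theorem pw_fourier (n A : ℕ) (hn : 0 < n) (θ : ℝ) :
    ∑ t ∈ Icc (-((A * n : ℕ) : ℤ)) ((A * n : ℕ) : ℤ), (pw n A t : ℂ) * ee (t * θ) =
      (((fej n θ / n) ^ A : ℝ) : ℂ) := by
  induction A with
  | zero =>
    simp [pw, ee_zero]
  | succ A ih =>
    have h1 : ∀ t ∈ Icc (-(((A + 1) * n : ℕ) : ℤ)) (((A + 1) * n : ℕ) : ℤ),
        (pw n (A + 1) t : ℂ) * ee (t * θ) =
        ∑ t' ∈ Ioo (-(n : ℤ)) n, ((tri n t' : ℂ) * ee (t' * θ) / n) *
          ((pw n A (t - t') : ℂ) * ee (((t - t' : ℤ) : ℝ) * θ)) := by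
      intro t _
      have e1 : pw n (A + 1) t = ∑ t' ∈ Ioo (-(n : ℤ)) n, tri n t' / n * pw n A (t - t') := rfl
      rw [e1, Complex.ofReal_sum, sum_mul]
      refine sum_congr rfl fun t' _ => ?_
      have e2 : ee (t * θ) = ee (t' * θ) * ee (((t - t' : ℤ) : ℝ) * θ) := by
        rw [← ee_add]
        congr 1
        push_cast
        ring
      rw [e2]
      push_cast
      ring
    rw [sum_congr rfl h1, sum_comm]
    have h2 : ∀ t' ∈ Ioo (-(n : ℤ)) n,
        ∑ t ∈ Icc (-(((A + 1) * n : ℕ) : ℤ)) (((A + 1) * n : ℕ) : ℤ),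
          ((tri n t' : ℂ) * ee (t' * θ) / n) *
          ((pw n A (t - t') : ℂ) * ee (((t - t' : ℤ) : ℝ) * θ)) =
        ((tri n t' : ℂ) * ee (t' * θ) / n) * (((fej n θ / n) ^ A : ℝ) : ℂ) := by
      intro t' ht'
      rw [← mul_sum]
      congr 1
      rw [← ih]
      exact fo1_shift n A t' ht' (fun s => (pw n A s : ℂ) * ee (s * θ)) (by
        intro s hs
        show (pw n A s : ℂ) * ee (s * θ) = 0
        rw [pw_supp n A s hs]
        simp)
    rw [sum_congr rfl h2, ← sum_mul, ← sum_div, ← fej_tri n hn θ, pow_succ]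
    push_cast
    ring

/-- total mass one (`pw_fourier` at `θ = 0`) -/
theorem pw_sum (n A : ℕ) (hn : 0 < n) :
    ∑ t ∈ Icc (-((A * n : ℕ) : ℤ)) ((A * n : ℕ) : ℤ), pw n A t = 1 := by
  have h := pw_fourier n A hn 0
  have hn' : (n : ℝ) ≠ 0 := by positivity
  rw [fo1_fej_zero n hn, div_self hn', one_pow] at h
  simp only [mul_zero, ee_zero, mul_one] at h
  have h2 : ((∑ t ∈ Icc (-((A * n : ℕ) : ℤ)) ((A * n : ℕ) : ℤ), pw n A t : ℝ) : ℂ) = ((1 : ℝ) : ℂ) := by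
    rw [Complex.ofReal_sum, h]
  exact_mod_cast h2

/-- `pw n A t ≤ 1/n` for `A ≥ 1` -/
theorem pw_le (n A : ℕ) (hn : 0 < n) (hA : 1 ≤ A) (t : ℤ) : pw n A t ≤ 1 / n := by
  obtain ⟨A, rfl⟩ : ∃ B, A = B + 1 := ⟨A - 1, by omega⟩
  have hn' : (0 : ℝ) < n := by exact_mod_cast hn
  have e1 : pw n (A + 1) t = ∑ t' ∈ Ioo (-(n : ℤ)) n, tri n t' / n * pw n A (t - t') := rfl
  rw [e1]
  have h1 : ∑ t' ∈ Ioo (-(n : ℤ)) n, tri n t' / n * pw n A (t - t') ≤
      ∑ t' ∈ Ioo (-(n : ℤ)) n, 1 / n * pw n A (t - t') := by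
    refine sum_le_sum fun t' _ => ?_
    apply mul_le_mul_of_nonneg_right _ (pw_nonneg _ _ _)
    exact div_le_div_of_nonneg_right (tri_le_one _ _) hn'.le
  refine h1.trans ?_
  rw [← mul_sum]
  have h2 : ∑ t' ∈ Ioo (-(n : ℤ)) n, pw n A (t - t') ≤ 1 := by
    have h3 : ∑ t' ∈ Ioo (-(n : ℤ)) n, pw n A (t - t') =
        ∑ s ∈ (Ioo (-(n : ℤ)) n).image (fun t' => t - t'), pw n A s := by
      rw [sum_image]
      intro x _ y _ hxy
      simp only at hxy
      linarith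
    rw [h3, ← sum_filter_add_sum_filter_not _ (fun s => |s| ≤ ((A * n : ℕ) : ℤ))]
    have h4 : ∑ s ∈ ((Ioo (-(n : ℤ)) n).image (fun t' => t - t')).filter
        (fun s => ¬ |s| ≤ ((A * n : ℕ) : ℤ)), pw n A s = 0 := by
      refine sum_eq_zero fun s hs => ?_
      rw [mem_filter, not_le] at hs
      exact pw_supp n A s hs.2
    rw [h4, add_zero, ← pw_sum n A hn]
    apply sum_le_sum_of_subset_of_nonneg
    · intro s hs
      rw [mem_filter, abs_le] at hs
      rw [mem_Icc]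
      exact hs.2
    · intro s _ _
      exact pw_nonneg _ _ _
  calc 1 / (n : ℝ) * ∑ t' ∈ Ioo (-(n : ℤ)) n, pw n A (t - t') ≤ 1 / n * 1 :=
        mul_le_mul_of_nonneg_left h2 (by positivity)
    _ = 1 / n := mul_one _

/-- `0 ≤ fej n θ / n ≤ 1` -/
theorem fejn_bds (n : ℕ) (θ : ℝ) : 0 ≤ fej n θ / n ∧ fej n θ / n ≤ 1 :=
  ⟨div_nonneg (fej_nonneg _ _) (Nat.cast_nonneg _), div_le_one_of_le₀ (fej_le _ _) (Nat.cast_nonneg _)⟩

/-- `fej n θ / n ≤ 1/(4 n² ‖θ‖²)` -/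
theorem fejn_dec (n : ℕ) (hn : 0 < n) (θ : ℝ) (h : 0 < nd θ) :
    fej n θ / n ≤ 1 / (4 * (n : ℝ) ^ 2 * nd θ ^ 2) := by
  have hn' : (0 : ℝ) < n := by exact_mod_cast hn
  rw [div_le_iff₀ hn']
  refine (fej_le_inv n θ h).trans (le_of_eq ?_)
  field_simp

/-- lower bound: for `‖θ‖ ≤ 1/(4n)` all the phases `e(jθ)`, `0 ≤ j < n`, lie in a quarter circle, so after multiplication by
`e(-(n-1)θ/2)` the real parts are `≥ cos(π/4)`; hence `|D_n(θ)|² ≥ n²/2 ≥ n²/4`. -/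
theorem fejn_low (n : ℕ) (hn : 0 < n) (θ : ℝ) (h : nd θ ≤ 1 / (4 * n)) :
    1 / 4 ≤ fej n θ / n := by
  have hn' : (0 : ℝ) < n := by exact_mod_cast hn
  have hn1 : (1 : ℝ) ≤ n := by exact_mod_cast hn
  obtain ⟨z, hz⟩ := nd_exists θ
  set s : ℝ := θ - z with hs
  have h1 : ∑ i ∈ range n, ee (i * θ) = ∑ i ∈ range n, ee (i * s) := by
    refine sum_congr rfl fun i _ => ?_
    have e : (i : ℝ) * θ = i * s + ((i * z : ℤ) : ℝ) := by
      rw [hs]
      push_cast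
      ring
    rw [e, ee_add_int]
  have h2 : |s| ≤ 1 / (4 * n) := by
    rw [hz]
    exact h
  have h3 : (n : ℝ) / 2 ≤ ‖∑ i ∈ range n, ee (i * s)‖ := by
    have h4 : ‖∑ i ∈ range n, ee (i * s)‖ = ‖ee (-(((n : ℝ) - 1) / 2 * s)) * ∑ i ∈ range n, ee (i * s)‖ := by
      rw [norm_mul, norm_ee, one_mul]
    rw [h4, mul_sum]
    refine le_trans ?_ (Complex.re_le_norm _)
    rw [Complex.re_sum]
    have h5 : ∀ i ∈ range n, (1 : ℝ) / 2 ≤ (ee (-(((n : ℝ) - 1) / 2 * s)) * ee (i * s)).re := by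
      intro i hi
      rw [mem_range] at hi
      have hi' : (i : ℝ) + 1 ≤ n := by exact_mod_cast hi
      have hi0 : (0 : ℝ) ≤ i := Nat.cast_nonneg _
      rw [← ee_add]
      unfold ee
      have e : (2 * (Real.pi : ℂ) * ((-(((n : ℝ) - 1) / 2 * s) + i * s : ℝ) : ℂ) * Complex.I) =
          ((2 * Real.pi * (((i : ℝ) - ((n : ℝ) - 1) / 2) * s) : ℝ) : ℂ) * Complex.I := by
        push_cast
        ring
      rw [e, Complex.exp_ofReal_mul_I_re]
      have h6 : |2 * Real.pi * (((i : ℝ) - ((n : ℝ) - 1) / 2) * s)| ≤ 1 := by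
        rw [abs_mul, abs_mul, abs_mul, abs_two, abs_of_pos Real.pi_pos]
        have h7 : |(i : ℝ) - ((n : ℝ) - 1) / 2| ≤ n / 2 := by
          rw [abs_le]
          constructor <;> linarith
        have h8 : |(i : ℝ) - ((n : ℝ) - 1) / 2| * |s| ≤ n / 2 * (1 / (4 * n)) :=
          mul_le_mul h7 h2 (abs_nonneg _) (by positivity)
        have h9 : (n : ℝ) / 2 * (1 / (4 * n)) = 1 / 8 := by
          field_simp
          norm_num
        rw [h9] at h8
        have := Real.pi_lt_d2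
        nlinarith [Real.pi_pos]
      have h10 := Real.one_sub_sq_div_two_le_cos (x := 2 * Real.pi * (((i : ℝ) - ((n : ℝ) - 1) / 2) * s))
      have h11 : (2 * Real.pi * (((i : ℝ) - ((n : ℝ) - 1) / 2) * s)) ^ 2 ≤ 1 := by
        rw [← sq_abs]
        exact pow_le_one₀ (abs_nonneg _) h6
      linarith
    calc (n : ℝ) / 2 = ∑ i ∈ range n, (1 : ℝ) / 2 := by
          rw [sum_const, card_range, nsmul_eq_mul]
          ring
      _ ≤ _ := sum_le_sum h5
  unfold fej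
  rw [h1, div_div, le_div_iff₀ (by positivity)]
  have h12 : ((n : ℝ) / 2) ^ 2 ≤ ‖∑ i ∈ range n, ee (i * s)‖ ^ 2 :=
    pow_le_pow_left₀ (by positivity) h3 2
  nlinarith

end MP_5e4520_nt.Ex
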