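import Pool.Agent.Lib.MP_5e4520_ntE.Fo1
set_option autoImplicit false

/-!
# Large blocks: a large sieve inequality with multiplicities
-/

namespace MP_5e4520_nt.Ex

open Finset

private theorem L1_sum_inv_sq (n : ℕ) :
    ∑ m ∈ range (n + 1), 1 / ((m : ℝ) + 1) ^ 2 ≤ 2 - 1 / ((n : ℝ) + 1) := by
  induction n with
  | zero => norm_num
  | succ n ih =>
    rw [sum_range_succ]
    have h1 : 1 / (((n + 1 : ℕ) : ℝ) + 1) ^ 2 ≤ 1 / ((n : ℝ) + 1) - 1 / (((n + 1 : ℕ) : ℝ) + 1) := by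
      push_cast
      have h2 : 1 / ((n : ℝ) + 1) - 1 / ((n : ℝ) + 1 + 1) = 1 / (((n : ℝ) + 1) * ((n : ℝ) + 1 + 1)) := by
        field_simp
        ring
      rw [h2]
      refine one_div_le_one_div_of_le (by positivity) ?_
      nlinarith [(Nat.cast_nonneg n : (0 : ℝ) ≤ n)]
    linarith

/-- the bound for the kernel in the class `k` -/
private noncomputable def L1b (N k : ℕ) : ℝ := if k = 0 then 2 * N else N / (8 * (k : ℝ) ^ 2)

private theorem L1b_nonneg (N k : ℕ) : 0 ≤ L1b N k := by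
  unfold L1b
  split_ifs <;> positivity

private theorem L1b_sum (N : ℕ) : ∑ k ∈ range N, L1b N k ≤ 2 * N + N / 4 := by
  have hN : (0 : ℝ) ≤ N := Nat.cast_nonneg N
  rcases Nat.eq_zero_or_pos N with h | h
  · subst h
    simp
  obtain ⟨n, rfl⟩ : ∃ n, N = n + 1 := ⟨N - 1, by omega⟩
  rw [sum_range_succ']
  have h0 : L1b (n + 1) 0 = 2 * ((n + 1 : ℕ) : ℝ) := by simp [L1b]
  rw [h0]
  have h1 : ∑ k ∈ range n, L1b (n + 1) (k + 1) =
      ((n + 1 : ℕ) : ℝ) / 8 * ∑ k ∈ range n, 1 / ((k : ℝ) + 1) ^ 2 := by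
    rw [mul_sum]
    refine sum_congr rfl fun k _ => ?_
    unfold L1b
    rw [if_neg (Nat.succ_ne_zero k)]
    push_cast
    field_simp
  rw [h1]
  have h2 : ∑ k ∈ range n, 1 / ((k : ℝ) + 1) ^ 2 ≤ 2 := by
    rcases Nat.eq_zero_or_pos n with h' | h'
    · subst h'
      simp
    · obtain ⟨m, rfl⟩ : ∃ m, n = m + 1 := ⟨n - 1, by omega⟩
      have := L1_sum_inv_sq m
      have h3 : 0 ≤ 1 / ((m : ℝ) + 1) := by positivity
      linarith
  have h3 : ((n + 1 : ℕ) : ℝ) / 8 * ∑ k ∈ range n, 1 / ((k : ℝ) + 1) ^ 2 ≤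
      ((n + 1 : ℕ) : ℝ) / 8 * 2 := mul_le_mul_of_nonneg_left h2 (by positivity)
  linarith

private theorem L1_fej_b (N k : ℕ) (hN : 0 < N) (φ : ℝ) (h : (k : ℝ) / N ≤ nd φ) :
    fej (2 * N) φ ≤ L1b N k := by
  unfold L1b
  have hN' : (0 : ℝ) < N := by exact_mod_cast hN
  split_ifs with hk
  · have := fej_le (2 * N) φ
    push_cast at this
    exact this
  · have hk' : (0 : ℝ) < k := by exact_mod_cast Nat.pos_of_ne_zero hk
    have hkN : (0 : ℝ) < (k : ℝ) / N := by positivity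
    have h1 := fej_le_inv (2 * N) φ (hkN.trans_le h)
    refine h1.trans ?_
    have h2 : (k : ℝ) ^ 2 / (N : ℝ) ^ 2 ≤ nd φ ^ 2 := by
      rw [← div_pow]
      exact pow_le_pow_left₀ hkN.le h 2
    have h3 : 8 * (k : ℝ) ^ 2 / N ≤ 4 * ((2 * N : ℕ) : ℝ) * nd φ ^ 2 := by
      push_cast
      have h4 := mul_le_mul_of_nonneg_left h2 (by positivity : (0 : ℝ) ≤ 8 * N)
      have h5 : 8 * (N : ℝ) * ((k : ℝ) ^ 2 / (N : ℝ) ^ 2) = 8 * (k : ℝ) ^ 2 / N := by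
        field_simp
      rw [h5] at h4
      linarith
    have h6 := one_div_le_one_div_of_le (by positivity) h3
    refine h6.trans (le_of_eq ?_)
    field_simp

private theorem L1_nd (N m : ℕ) (hN : 0 < N) (hm : m < N) (φ : ℝ) (h1 : (m : ℝ) / N ≤ Int.fract φ)
    (h2 : Int.fract φ < (m + 1) / N) :
    (m : ℝ) / N ≤ nd φ ∨ ((N - 1 - m : ℕ) : ℝ) / N ≤ nd φ := by
  have hN' : (0 : ℝ) < N := by exact_mod_cast hN
  obtain ⟨z, hz⟩ := nd_exists φ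
  have hf : Int.fract φ = φ - ⌊φ⌋ := rfl
  have hf0 := Int.fract_nonneg φ
  have hf1 := Int.fract_lt_one φ
  rcases le_or_gt z ⌊φ⌋ with h | h
  · left
    have h3 : (z : ℝ) ≤ (⌊φ⌋ : ℝ) := by exact_mod_cast h
    rw [← hz]
    refine h1.trans ?_
    have h4 := le_abs_self (φ - z)
    linarith
  · right
    have h3 : (⌊φ⌋ : ℝ) + 1 ≤ (z : ℝ) := by exact_mod_cast h
    rw [← hz]
    have h4 := neg_abs_le (φ - z)
    have h5 : ((N - 1 - m : ℕ) : ℝ) / N = 1 - (m + 1) / N := by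
      have h6 : ((N - 1 - m : ℕ) : ℝ) = N - (m + 1) := by
        have h7 : N - 1 - m = N - (m + 1) := by omega
        rw [h7, Nat.cast_sub (by omega)]
        push_cast
        ring
      rw [h6]
      field_simp
    rw [h5]
    linarith

/-- JOB L1.  Kernel sum.  If `m/N ≤ fract(φ) < (m+1)/N` then `‖φ‖ ≥ min(m, N-1-m)/N`; `fej (2N) φ ≤ 2N` always and `≤ 1/(8 N ‖φ‖²)`
(`fejn_bds`, `fejn_dec`).  Classes `m = 0, N-1`: `≤ 2N` each; other classes `≤ N/(8 m'^2)` with `m' = min(m, N-1-m) ≥ 1`, every value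
`m'` occurs at most twice, `∑ 1/m'^2 ≤ 2`.  Total `≤ (4N + N/2) Na ≤ 5 N Na`. -/
theorem fej_kernel_sum {ι : Type*} (J : Finset ι) (φ : ι → ℝ) (N : ℕ) (hN : 0 < N) (Na : ℝ)
    (hNa : ∀ m : ℕ, m < N → ((J.filter (fun j => (m : ℝ) / N ≤ Int.fract (φ j) ∧
      Int.fract (φ j) < (m + 1) / N)).card : ℝ) ≤ Na) :
    ∑ j ∈ J, fej (2 * N) (φ j) ≤ 5 * N * Na := by
  classical
  have hN' : (0 : ℝ) < N := by exact_mod_cast hN
  have hNa0 : 0 ≤ Na := (Nat.cast_nonneg _).trans (hNa 0 hN)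
  have hcl : ∀ j, ⌊(N : ℝ) * Int.fract (φ j)⌋₊ < N := by
    intro j
    rw [Nat.floor_lt (mul_nonneg hN'.le (Int.fract_nonneg _))]
    exact mul_lt_of_lt_one_right hN' (Int.fract_lt_one _)
  have hmem : ∀ j m, ⌊(N : ℝ) * Int.fract (φ j)⌋₊ = m →
      (m : ℝ) / N ≤ Int.fract (φ j) ∧ Int.fract (φ j) < (m + 1) / N := by
    intro j m h
    have h0 : 0 ≤ (N : ℝ) * Int.fract (φ j) := mul_nonneg hN'.le (Int.fract_nonneg _)
    have h1 := Nat.floor_le h0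
    have h2 := Nat.lt_floor_add_one ((N : ℝ) * Int.fract (φ j))
    rw [h] at h1 h2
    constructor
    · rw [div_le_iff₀ hN']
      linarith
    · rw [lt_div_iff₀ hN']
      linarith
  rw [← sum_fiberwise_of_maps_to (s := J) (t := range N)
    (g := fun j => ⌊(N : ℝ) * Int.fract (φ j)⌋₊) (fun j _ => mem_range.2 (hcl j))]
  have h1 : ∀ m ∈ range N, ∑ j ∈ J with ⌊(N : ℝ) * Int.fract (φ j)⌋₊ = m, fej (2 * N) (φ j) ≤
      Na * (L1b N m + L1b N (N - 1 - m)) := by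
    intro m hm
    have hmN := mem_range.1 hm
    have hb : 0 ≤ L1b N m + L1b N (N - 1 - m) := add_nonneg (L1b_nonneg _ _) (L1b_nonneg _ _)
    have h2 : ∑ j ∈ J with ⌊(N : ℝ) * Int.fract (φ j)⌋₊ = m, fej (2 * N) (φ j) ≤
        ∑ j ∈ J with ⌊(N : ℝ) * Int.fract (φ j)⌋₊ = m, (L1b N m + L1b N (N - 1 - m)) := by
      refine sum_le_sum fun j hj => ?_
      obtain ⟨h3, h4⟩ := hmem j m (mem_filter.1 hj).2
      rcases L1_nd N m hN hmN (φ j) h3 h4 with h5 | h5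
      · have := L1_fej_b N m hN (φ j) h5
        linarith [L1b_nonneg N (N - 1 - m)]
      · have := L1_fej_b N (N - 1 - m) hN (φ j) h5
        linarith [L1b_nonneg N m]
    refine h2.trans ?_
    rw [sum_const, nsmul_eq_mul]
    refine mul_le_mul_of_nonneg_right ?_ hb
    refine le_trans ?_ (hNa m hmN)
    refine Nat.cast_le.2 (card_le_card (fun j hj => ?_))
    rw [mem_filter] at hj ⊢
    exact ⟨hj.1, hmem j m hj.2⟩
  refine (sum_le_sum h1).trans ?_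
  rw [← mul_sum, sum_add_distrib, sum_range_reflect (fun k => L1b N k) N]
  have h2 := L1b_sum N
  have h3 : Na * (∑ k ∈ range N, L1b N k + ∑ k ∈ range N, L1b N k) ≤
      Na * (2 * (2 * N + N / 4)) := mul_le_mul_of_nonneg_left (by linarith) hNa0
  refine h3.trans ?_
  nlinarith [mul_nonneg hNa0 hN'.le]

/-- The large sieve (duality).  `f_j = ∑_C p(C) e(-Cθ_j)`, `S = ∑_j |f_j|² = ∑_C p(C) g(C)` with `g(C) = ∑_j conj(f_j) e(-Cθ_j)`, so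
`S² ≤ (∑ p²) ∑_{C<N} |g(C)|²`.  As `2 tri (2N) C ≥ 1` for `0 ≤ C < N`, `∑_{C<N} |g(C)|² ≤ 2 ∑_{|C|<2N} tri (2N) C |g(C)|²
= 2 ∑_{j,j'} conj(f_j) f_j' fej (2N) (θ_j' - θ_j)` (`fej_tri`) `≤ 2 ∑_j |f_j|² ∑_j' fej (2N) (θ_j' - θ_j) ≤ 2 S · 5 N Na`
(`|f_j f_j'| ≤ (|f_j|² + |f_j'|²)/2`, symmetry `fej (-θ) = fej θ`, `fej_kernel_sum`). -/
theorem large_sieve {ι : Type*} (J : Finset ι) (θ : ι → ℝ) (N : ℕ) (hN : 0 < N) (Na : ℝ)
    (hNa0 : 0 ≤ Na)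
    (hNa : ∀ j ∈ J, ∀ m : ℕ, m < N → ((J.filter (fun j' => (m : ℝ) / N ≤ Int.fract (θ j' - θ j) ∧
      Int.fract (θ j' - θ j) < (m + 1) / N)).card : ℝ) ≤ Na) (p : ℕ → ℝ) :
    ∑ j ∈ J, ‖∑ C ∈ range N, (p C : ℂ) * ee (-(C * θ j))‖ ^ 2 ≤
      10 * N * Na * ∑ C ∈ range N, p C ^ 2 := by
  have hN' : (0 : ℝ) < N := by exact_mod_cast hN
  obtain ⟨f, hf⟩ : ∃ f : ι → ℂ, f = fun j => ∑ C ∈ range N, (p C : ℂ) * ee (-(C * θ j)) := ⟨_, rfl⟩
  have hfj : ∀ j, ∑ C ∈ range N, (p C : ℂ) * ee (-(C * θ j)) = f j := fun j => by rw [hf]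
  simp only [hfj]
  obtain ⟨S, hS⟩ : ∃ S : ℝ, S = ∑ j ∈ J, ‖f j‖ ^ 2 := ⟨_, rfl⟩
  rw [← hS]
  have hS0 : 0 ≤ S := by rw [hS]; positivity
  obtain ⟨g, hg⟩ : ∃ g : ℤ → ℂ, g = fun t : ℤ => ∑ j ∈ J, (starRingEnd ℂ) (f j) * ee (-((t : ℝ) * θ j)) :=
    ⟨_, rfl⟩
  -- S = ∑ p g
  have e1 : (S : ℂ) = ∑ C ∈ range N, (p C : ℂ) * g (C : ℤ) := by
    rw [hS, Complex.ofReal_sum, hg]
    simp only [mul_sum]
    rw [sum_comm]
    refine sum_congr rfl fun j _ => ?_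
    have h1 : ((‖f j‖ ^ 2 : ℝ) : ℂ) = (starRingEnd ℂ) (f j) * f j := by
      rw [mul_comm, Complex.mul_conj, Complex.normSq_eq_norm_sq]
    rw [h1]
    have h2 : (starRingEnd ℂ) (f j) * f j =
        (starRingEnd ℂ) (f j) * ∑ C ∈ range N, (p C : ℂ) * ee (-(C * θ j)) := by rw [hfj j]
    rw [h2, mul_sum]
    refine sum_congr rfl fun C _ => ?_
    push_cast
    ring
  have e2 : S ≤ ∑ C ∈ range N, |p C| * ‖g (C : ℤ)‖ := by
    have h1 : S = ‖(S : ℂ)‖ := by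
      rw [Complex.norm_real, Real.norm_eq_abs, abs_of_nonneg hS0]
    rw [h1, e1]
    refine (norm_sum_le _ _).trans (le_of_eq ?_)
    refine sum_congr rfl fun C _ => ?_
    rw [norm_mul, Complex.norm_real, Real.norm_eq_abs]
  have e3 : S ^ 2 ≤ (∑ C ∈ range N, p C ^ 2) * ∑ C ∈ range N, ‖g (C : ℤ)‖ ^ 2 := by
    have h1 := sum_mul_sq_le_sq_mul_sq (range N) (fun C => |p C|) (fun C => ‖g (C : ℤ)‖)
    simp only [sq_abs] at h1
    exact (pow_le_pow_left₀ hS0 e2 2).trans h1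
  -- the dual form
  have e4 : ∑ C ∈ range N, ‖g (C : ℤ)‖ ^ 2 ≤
      2 * ∑ t ∈ Ioo (-((2 * N : ℕ) : ℤ)) ((2 * N : ℕ) : ℤ), tri (2 * N) t * ‖g t‖ ^ 2 := by
    have h1 : ∑ C ∈ range N, ‖g (C : ℤ)‖ ^ 2 ≤
        ∑ C ∈ range N, 2 * (tri (2 * N) (C : ℤ) * ‖g (C : ℤ)‖ ^ 2) := by
      refine sum_le_sum fun C hC => ?_
      have hC' : (C : ℝ) < N := by exact_mod_cast mem_range.1 hC
      have h2 : 1 / 2 ≤ tri (2 * N) (C : ℤ) := by
        unfold tri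
        refine le_max_of_le_right ?_
        have h3 : |(((C : ℕ) : ℤ) : ℝ)| / ((2 * N : ℕ) : ℝ) ≤ 1 / 2 := by
          rw [Int.cast_natCast, abs_of_nonneg (Nat.cast_nonneg C), div_le_iff₀ (by positivity)]
          push_cast
          linarith
        linarith
      have h3 := mul_le_mul_of_nonneg_right h2 (sq_nonneg ‖g (C : ℤ)‖)
      linarith
    refine h1.trans ?_
    rw [← mul_sum]
    refine mul_le_mul_of_nonneg_left ?_ (by norm_num)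
    have h2 : ∑ C ∈ range N, tri (2 * N) (C : ℤ) * ‖g (C : ℤ)‖ ^ 2 =
        ∑ t ∈ (range N).map ⟨fun C : ℕ => (C : ℤ), Nat.cast_injective⟩,
          tri (2 * N) t * ‖g t‖ ^ 2 := by
      rw [sum_map]
      rfl
    rw [h2]
    refine sum_le_sum_of_subset_of_nonneg ?_ ?_
    · intro t ht
      rw [mem_map] at ht
      obtain ⟨C, hC, rfl⟩ := ht
      have hC' := mem_range.1 hC
      rw [mem_Ioo]
      simp only [Function.Embedding.coeFn_mk]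
      constructor
      · push_cast
        omega
      · push_cast
        omega
    · intro t _ _
      exact mul_nonneg (tri_nonneg _ _) (sq_nonneg _)
  have e5 : ((∑ t ∈ Ioo (-((2 * N : ℕ) : ℤ)) ((2 * N : ℕ) : ℤ), tri (2 * N) t * ‖g t‖ ^ 2 : ℝ) : ℂ) =
      ∑ j ∈ J, ∑ j' ∈ J, (starRingEnd ℂ) (f j) * f j' * (fej (2 * N) (θ j' - θ j) : ℂ) := by
    have h1 : ∀ t : ℤ, ((‖g t‖ ^ 2 : ℝ) : ℂ) =
        ∑ j ∈ J, ∑ j' ∈ J, (starRingEnd ℂ) (f j) * f j' * ee (t * (θ j' - θ j)) := by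
      intro t
      have h2 : ((‖g t‖ ^ 2 : ℝ) : ℂ) = g t * (starRingEnd ℂ) (g t) := by
        rw [Complex.mul_conj, Complex.normSq_eq_norm_sq]
      rw [h2, hg]
      simp only
      rw [map_sum, sum_mul_sum]
      refine sum_congr rfl fun j _ => sum_congr rfl fun j' _ => ?_
      rw [map_mul, Complex.conj_conj, ← ee_neg, neg_neg]
      have h3 : ee (t * (θ j' - θ j)) = ee (-(t * θ j)) * ee (t * θ j') := by
        rw [← ee_add]
        congr 1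
        ring
      rw [h3]
      ring
    rw [Complex.ofReal_sum]
    simp only [Complex.ofReal_mul, h1]
    simp only [mul_sum]
    rw [sum_comm]
    refine sum_congr rfl fun j _ => ?_
    rw [sum_comm]
    refine sum_congr rfl fun j' _ => ?_
    rw [fej_tri (2 * N) (by omega), mul_sum]
    refine sum_congr rfl fun t _ => ?_
    ring
  have e6 : ∑ t ∈ Ioo (-((2 * N : ℕ) : ℤ)) ((2 * N : ℕ) : ℤ), tri (2 * N) t * ‖g t‖ ^ 2 ≤
      ∑ j ∈ J, ∑ j' ∈ J, ‖f j‖ * ‖f j'‖ * fej (2 * N) (θ j' - θ j) := by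
    have h0 : 0 ≤ ∑ t ∈ Ioo (-((2 * N : ℕ) : ℤ)) ((2 * N : ℕ) : ℤ), tri (2 * N) t * ‖g t‖ ^ 2 :=
      sum_nonneg fun t _ => mul_nonneg (tri_nonneg _ _) (sq_nonneg _)
    have h1 : ∑ t ∈ Ioo (-((2 * N : ℕ) : ℤ)) ((2 * N : ℕ) : ℤ), tri (2 * N) t * ‖g t‖ ^ 2 =
        ‖((∑ t ∈ Ioo (-((2 * N : ℕ) : ℤ)) ((2 * N : ℕ) : ℤ), tri (2 * N) t * ‖g t‖ ^ 2 : ℝ) : ℂ)‖ := by
      rw [Complex.norm_real, Real.norm_eq_abs, abs_of_nonneg h0]
    rw [h1, e5]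
    refine (norm_sum_le _ _).trans (sum_le_sum fun j _ => ?_)
    refine (norm_sum_le _ _).trans (le_of_eq (sum_congr rfl fun j' _ => ?_))
    rw [norm_mul, norm_mul, RCLike.norm_conj, Complex.norm_real, Real.norm_eq_abs,
      abs_of_nonneg (fej_nonneg _ _)]
  have e7 : ∑ j ∈ J, ∑ j' ∈ J, ‖f j‖ * ‖f j'‖ * fej (2 * N) (θ j' - θ j) ≤ 5 * N * Na * S := by
    have h1 : ∑ j ∈ J, ∑ j' ∈ J, ‖f j‖ * ‖f j'‖ * fej (2 * N) (θ j' - θ j) ≤
        ∑ j ∈ J, ∑ j' ∈ J, ((‖f j‖ ^ 2 * fej (2 * N) (θ j' - θ j)) / 2 +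
          (‖f j'‖ ^ 2 * fej (2 * N) (θ j - θ j')) / 2) := by
      refine sum_le_sum fun j _ => sum_le_sum fun j' _ => ?_
      have h2 : fej (2 * N) (θ j - θ j') = fej (2 * N) (θ j' - θ j) := by
        rw [← fej_neg, neg_sub]
      rw [h2]
      have h3 : ‖f j‖ * ‖f j'‖ ≤ (‖f j‖ ^ 2 + ‖f j'‖ ^ 2) / 2 := by
        nlinarith [sq_nonneg (‖f j‖ - ‖f j'‖)]
      have h4 := mul_le_mul_of_nonneg_right h3 (fej_nonneg (2 * N) (θ j' - θ j))
      linarith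
    refine h1.trans ?_
    simp only [sum_add_distrib]
    have h2 : ∑ j ∈ J, ∑ j' ∈ J, (‖f j'‖ ^ 2 * fej (2 * N) (θ j - θ j')) / 2 =
        ∑ j ∈ J, ∑ j' ∈ J, (‖f j‖ ^ 2 * fej (2 * N) (θ j' - θ j)) / 2 := sum_comm
    rw [h2]
    have h3 : ∑ j ∈ J, ∑ j' ∈ J, (‖f j‖ ^ 2 * fej (2 * N) (θ j' - θ j)) / 2 ≤
        ∑ j ∈ J, ‖f j‖ ^ 2 / 2 * (5 * N * Na) := by
      refine sum_le_sum fun j hj => ?_
      have h4 := fej_kernel_sum J (fun j' => θ j' - θ j) N hN Na (hNa j hj)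
      have h5 : ∑ j' ∈ J, (‖f j‖ ^ 2 * fej (2 * N) (θ j' - θ j)) / 2 =
          ‖f j‖ ^ 2 / 2 * ∑ j' ∈ J, fej (2 * N) (θ j' - θ j) := by
        rw [mul_sum]
        refine sum_congr rfl fun j' _ => ?_
        ring
      rw [h5]
      exact mul_le_mul_of_nonneg_left h4 (by positivity)
    rw [← sum_mul, ← sum_div, ← hS] at h3
    linarith
  have e8 : S ^ 2 ≤ (10 * N * Na * ∑ C ∈ range N, p C ^ 2) * S := by
    have h1 : ∑ C ∈ range N, ‖g (C : ℤ)‖ ^ 2 ≤ 2 * (5 * N * Na * S) := by linarith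
    have h2 := mul_le_mul_of_nonneg_left h1 (by positivity : 0 ≤ ∑ C ∈ range N, p C ^ 2)
    linarith
  rcases hS0.eq_or_lt with h0 | h0
  · rw [← h0]
    positivity
  · rw [sq] at e8
    exact le_of_mul_le_mul_right e8 h0

end MP_5e4520_nt.Ex
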