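import Pool.Agent.Lib.MP_5e4520_ntE.L1
set_option autoImplicit false

/-!
# Large blocks: near frequencies, windows and arcs
-/

namespace MP_5e4520_nt.Ex

open Finset

/-- parameters of the large blocks (`κ, lm` = levels at the end of the block) -/
structure ParC (κ lm σ s : ℕ) : Prop where
  s1 : 1 ≤ s
  sσ : 1000 * s ≤ σ
  k1 : 10 * σ ≤ κ
  l1 : 10 * σ ≤ lm

open Classical in
/-- core frequencies that are near for the coarse point -/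
noncomputable def PC (κ lm σ s α0 β0 : ℕ) : Finset (ℤ × ℤ) :=
  ((Icc (-(2 : ℤ) ^ (κ + 30 * s)) ((2 : ℤ) ^ (κ + 30 * s))) ×ˢ
    (Icc (-(2 : ℤ) ^ (lm + 30 * s)) ((2 : ℤ) ^ (lm + 30 * s)))).filter
    (fun D => core1 s κ D.1 ∧ core1 s lm D.2 ∧
      nd ((D.1 : ℝ) * ((α0 : ℝ) / 2 ^ (2 * κ + lm - 3 * σ)) +
        (D.2 : ℝ) * ((β0 : ℝ) / 2 ^ (κ + 2 * lm - 3 * σ))) ≤ 2 ^ (3 * σ + 60 * s) / 2 ^ (κ + lm))

open Classical in
/-- core and near frequencies of the point `(a, b)` -/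
noncomputable def NB (κ lm s a b : ℕ) : Finset (ℤ × ℤ) :=
  ((SR (2 ^ (2 * κ + lm))) ×ˢ (SR (2 ^ (κ + 2 * lm)))).filter
    (fun D => core1 s κ D.1 ∧ core1 s lm D.2 ∧
      nd ((D.1 : ℝ) * a / 2 ^ (2 * κ + lm) + (D.2 : ℝ) * b / 2 ^ (κ + 2 * lm)) ≤
        2 ^ (50 * s) / 2 ^ (κ + lm))

private theorem L2_abs_cast {h : ℤ} {n : ℕ} (hc : |h| ≤ (2 : ℤ) ^ n) : |(h : ℝ)| ≤ (2 : ℝ) ^ n := by
  have : ((|h| : ℤ) : ℝ) ≤ (((2 : ℤ) ^ n : ℤ) : ℝ) := by exact_mod_cast hc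
  push_cast at this
  exact this

private theorem L2_small {h : ℤ} {κ lm σ s M A : ℕ} (hc : |h| ≤ (2 : ℤ) ^ (κ + 30 * s))
    (hA : A < 2 ^ (3 * σ)) (hM : M = κ + (κ + lm)) :
    |(h : ℝ) * ((A : ℝ) / 2 ^ M)| ≤ 2 ^ (30 * s + 3 * σ) / 2 ^ (κ + lm) := by
  have h1 := L2_abs_cast hc
  have h2 : (A : ℝ) ≤ (2 : ℝ) ^ (3 * σ) := by exact_mod_cast hA.le
  rw [abs_mul, abs_of_nonneg (by positivity : 0 ≤ (A : ℝ) / 2 ^ M)]
  calc |(h : ℝ)| * ((A : ℝ) / 2 ^ M) ≤ 2 ^ (κ + 30 * s) * (2 ^ (3 * σ) / 2 ^ M) := by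
        refine mul_le_mul h1 ?_ (by positivity) (by positivity)
        exact div_le_div_of_nonneg_right h2 (by positivity)
    _ = 2 ^ (30 * s + 3 * σ) / 2 ^ (κ + lm) := by
        rw [hM, pow_add 2 κ (κ + lm), pow_add 2 κ (30 * s), pow_add 2 (30 * s) (3 * σ)]
        field_simp

/-- JOB L2.  `|D.1 a/2^(2κ+lm) - D.1 x0| ≤ 2^(κ+30s) 2^(3σ)/2^(2κ+lm)` and the same for the second term, so the coarse distance is at
most `(2^(50s) + 2·2^(30s+3σ))/2^(κ+lm) ≤ 2^(3σ+60s)/2^(κ+lm)`. -/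
theorem NB_sub (κ lm σ s α0 β0 A B : ℕ) (hp : ParC κ lm σ s) (hA : A < 2 ^ (3 * σ))
    (hB : B < 2 ^ (3 * σ)) :
    NB κ lm s (α0 * 2 ^ (3 * σ) + A) (β0 * 2 ^ (3 * σ) + B) ⊆ PC κ lm σ s α0 β0 := by
  classical
  intro D hD
  unfold NB at hD
  unfold PC
  rw [mem_filter] at hD ⊢
  obtain ⟨-, hc1, hc2, hnd⟩ := hD
  have hs1 := hp.s1
  have hk1 := hp.k1
  have hl1 := hp.l1
  refine ⟨?_, hc1, hc2, ?_⟩
  · rw [mem_product, mem_Icc, mem_Icc]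
    exact ⟨abs_le.1 hc1.2, abs_le.1 hc2.2⟩
  · have e1 : ((α0 * 2 ^ (3 * σ) + A : ℕ) : ℝ) / 2 ^ (2 * κ + lm) =
        (α0 : ℝ) / 2 ^ (2 * κ + lm - 3 * σ) + (A : ℝ) / 2 ^ (2 * κ + lm) := by
      have h1 : 2 * κ + lm = (2 * κ + lm - 3 * σ) + 3 * σ := by omega
      conv_lhs => rw [h1]
      conv_rhs => rw [h1, Nat.add_sub_cancel]
      push_cast
      rw [pow_add]
      field_simp
    have e2 : ((β0 * 2 ^ (3 * σ) + B : ℕ) : ℝ) / 2 ^ (κ + 2 * lm) =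
        (β0 : ℝ) / 2 ^ (κ + 2 * lm - 3 * σ) + (B : ℝ) / 2 ^ (κ + 2 * lm) := by
      have h1 : κ + 2 * lm = (κ + 2 * lm - 3 * σ) + 3 * σ := by omega
      conv_lhs => rw [h1]
      conv_rhs => rw [h1, Nat.add_sub_cancel]
      push_cast
      rw [pow_add]
      field_simp
    rw [mul_div_assoc, mul_div_assoc, e1, e2] at hnd
    have s1 := L2_small (κ := κ) (lm := lm) (σ := σ) (s := s) (M := 2 * κ + lm) hc1.2 hA (by ring)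
    have s2 := L2_small (κ := lm) (lm := κ) (σ := σ) (s := s) (M := κ + 2 * lm) hc2.2 hB (by ring)
    rw [add_comm lm κ] at s2
    obtain ⟨x, hx⟩ : ∃ x, x = (α0 : ℝ) / 2 ^ (2 * κ + lm - 3 * σ) := ⟨_, rfl⟩
    obtain ⟨y, hy⟩ : ∃ y, y = (β0 : ℝ) / 2 ^ (κ + 2 * lm - 3 * σ) := ⟨_, rfl⟩
    obtain ⟨u, hu⟩ : ∃ u, u = (A : ℝ) / 2 ^ (2 * κ + lm) := ⟨_, rfl⟩
    obtain ⟨v, hv⟩ : ∃ v, v = (B : ℝ) / 2 ^ (κ + 2 * lm) := ⟨_, rfl⟩
    rw [← hx, ← hy, ← hu, ← hv] at hnd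
    rw [← hu] at s1
    rw [← hv] at s2
    rw [← hx, ← hy]
    have h3 : (D.1 : ℝ) * x + D.2 * y = (D.1 * (x + u) + D.2 * (y + v)) +
        (-((D.1 : ℝ) * u + D.2 * v)) := by ring
    have h4 := nd_add_le (D.1 * (x + u) + D.2 * (y + v)) (-((D.1 : ℝ) * u + D.2 * v))
    rw [← h3] at h4
    have h5 := nd_le (-((D.1 : ℝ) * u + D.2 * v)) 0
    rw [Int.cast_zero, sub_zero, abs_neg] at h5
    have h6 := abs_add_le ((D.1 : ℝ) * u) (D.2 * v)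
    have h7 : (2 : ℝ) ^ (50 * s) / 2 ^ (κ + lm) + 2 * (2 ^ (30 * s + 3 * σ) / 2 ^ (κ + lm)) ≤
        2 ^ (3 * σ + 60 * s) / 2 ^ (κ + lm) := by
      rw [mul_div_assoc', ← add_div]
      refine div_le_div_of_nonneg_right ?_ (by positivity)
      have k1 : (2 : ℝ) ^ (50 * s) * 2 ≤ 2 ^ (3 * σ + 60 * s) := by
        rw [← pow_succ]
        exact pow_le_pow_right₀ (by norm_num) (by omega)
      have k2 : (2 : ℝ) ^ (30 * s + 3 * σ) * 2 ^ 2 ≤ 2 ^ (3 * σ + 60 * s) := by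
        rw [← pow_add]
        exact pow_le_pow_right₀ (by norm_num) (by omega)
      linarith
    linarith

/-- windows in general -/
private theorem L2_win (W : Finset (ℤ × ℤ)) (x1 x2 H1 H2 θ0 θ : ℝ) (hθ : 2 * θ0 ≤ θ)
    (hW : ∀ D ∈ W, nd ((D.1 : ℝ) * x1 + (D.2 : ℝ) * x2) ≤ θ0)
    (h1 : ∀ D ∈ W, ∀ D' ∈ W, |((D.1 - D'.1 : ℤ) : ℝ)| ≤ H1)
    (h2 : ∀ D ∈ W, ∀ D' ∈ W, |((D.2 - D'.2 : ℤ) : ℝ)| ≤ H2) :
    (W.card : ℝ) ≤ 1 + cntH x1 x2 H1 H2 θ := by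
  classical
  rcases W.eq_empty_or_nonempty with h | ⟨D0, hD0⟩
  · rw [h, card_empty, Nat.cast_zero]
    positivity
  have hfl : ∀ (d : ℤ) (H : ℝ), |(d : ℝ)| ≤ H → d ∈ Icc (-⌊H⌋) ⌊H⌋ := by
    intro d H hd
    rw [mem_Icc]
    have h3 := abs_le.1 hd
    constructor
    · have h4 : -d ≤ ⌊H⌋ := by
        rw [Int.le_floor]
        push_cast
        linarith [h3.1]
      linarith
    · rw [Int.le_floor]
      exact h3.2
  have hcard : (W.erase D0).card ≤ cntH x1 x2 H1 H2 θ := by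
    unfold cntH
    refine card_le_card_of_injOn (fun D => (D.1 - D0.1, D.2 - D0.2)) ?_ ?_
    · intro D hD
      rw [mem_coe, mem_erase] at hD
      rw [mem_coe, mem_filter, mem_product]
      refine ⟨⟨hfl _ _ (h1 D hD.2 D0 hD0), hfl _ _ (h2 D hD.2 D0 hD0)⟩, ?_, ?_⟩
      · by_contra hne
        push Not at hne
        apply hD.1
        ext
        · linarith [hne.1]
        · linarith [hne.2]
      · have e : ((D.1 - D0.1 : ℤ) : ℝ) * x1 + ((D.2 - D0.2 : ℤ) : ℝ) * x2 =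
            ((D.1 : ℝ) * x1 + D.2 * x2) + (-((D0.1 : ℝ) * x1 + D0.2 * x2)) := by
          push_cast
          ring
        simp only
        rw [e]
        refine (nd_add_le _ _).trans ?_
        rw [nd_neg]
        have k1 := hW D hD.2
        have k2 := hW D0 hD0
        linarith
    · intro D _ D' _ h
      simp only [Prod.mk.injEq] at h
      ext
      · linarith [h.1]
      · linarith [h.2]
  have h3 : W.card ≤ 1 + (W.erase D0).card := by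
    rw [card_erase_of_mem hD0]
    omega
  have h4 : W.card ≤ 1 + cntH x1 x2 H1 H2 θ := h3.trans (by omega)
  exact_mod_cast h4

private theorem L2_PC {κ lm σ s α0 β0 : ℕ} {D : ℤ × ℤ} (hD : D ∈ PC κ lm σ s α0 β0) :
    |D.1| ≤ (2 : ℤ) ^ (κ + 30 * s) ∧ |D.2| ≤ (2 : ℤ) ^ (lm + 30 * s) ∧
      nd ((D.1 : ℝ) * ((α0 : ℝ) / 2 ^ (2 * κ + lm - 3 * σ)) +
        (D.2 : ℝ) * ((β0 : ℝ) / 2 ^ (κ + 2 * lm - 3 * σ))) ≤ 2 ^ (3 * σ + 60 * s) / 2 ^ (κ + lm) := by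
  classical
  unfold PC at hD
  rw [mem_filter] at hD
  exact ⟨hD.2.1.2, hD.2.2.1.2, hD.2.2.2⟩

private theorem L2_diff {a b : ℤ} {n s : ℕ} (hs : 1 ≤ s) (ha : |a| ≤ (2 : ℤ) ^ (n + 30 * s))
    (hb : |b| ≤ (2 : ℤ) ^ (n + 30 * s)) : |((a - b : ℤ) : ℝ)| ≤ (2 : ℝ) ^ (n + 31 * s) := by
  have h1 := L2_abs_cast ha
  have h2 := L2_abs_cast hb
  push_cast
  have h3 := abs_sub (a : ℝ) b
  have h4 : (2 : ℝ) ^ (n + 30 * s) * 2 ≤ 2 ^ (n + 31 * s) := by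
    rw [← pow_succ]
    exact pow_le_pow_right₀ (by norm_num) (by omega)
  linarith

private theorem L2_theta (κ lm σ s : ℕ) :
    2 * ((2 : ℝ) ^ (3 * σ + 60 * s) / 2 ^ (κ + lm)) ≤ 2 ^ (3 * σ + 62 * s) / 2 ^ (κ + lm) ∨ s = 0 := by
  rcases Nat.eq_zero_or_pos s with h | h
  · right; exact h
  · left
    rw [mul_div_assoc']
    refine div_le_div_of_nonneg_right ?_ (by positivity)
    rw [← pow_succ']
    exact pow_le_pow_right₀ (by norm_num) (by omega)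

open Classical in
/-- Window: if nonempty fix one element `D0` of the window; the differences `D - D0` of the others are counted by
`cntH (..) (2^(κ-3σ)) (2^(lm+31s)) (2^(3σ+62s)/2^(κ+lm)) ≤ 2^(200 s)` (`GenC.c1`). -/
theorem win1 (κ lm σ s α0 β0 : ℕ) (hp : ParC κ lm σ s) (hg : GenC κ lm σ s α0 β0) (h0 : ℤ) :
    (((PC κ lm σ s α0 β0).filter (fun D => h0 ≤ D.1 ∧ D.1 < h0 + 2 ^ (κ - 3 * σ))).card : ℝ) ≤
      1 + 2 ^ (200 * s) := by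
  have hs1 := hp.s1
  have hθ := (L2_theta κ lm σ s).resolve_right (by omega)
  refine (L2_win _ _ _ _ _ _ _ hθ ?_ ?_ ?_).trans (add_le_add le_rfl hg.c1)
  · intro D hD
    exact (L2_PC (mem_filter.1 hD).1).2.2
  · intro D hD D' hD'
    obtain ⟨-, a1, a2⟩ := mem_filter.1 hD
    obtain ⟨-, b1, b2⟩ := mem_filter.1 hD'
    have h1 : |D.1 - D'.1| ≤ (2 : ℤ) ^ (κ - 3 * σ) := by
      rw [abs_le]
      constructor <;> linarith
    exact L2_abs_cast h1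
  · intro D hD D' hD'
    exact L2_diff hs1 (L2_PC (mem_filter.1 hD).1).2.1 (L2_PC (mem_filter.1 hD').1).2.1

open Classical in
theorem win2 (κ lm σ s α0 β0 : ℕ) (hp : ParC κ lm σ s) (hg : GenC κ lm σ s α0 β0) (h0 : ℤ) :
    (((PC κ lm σ s α0 β0).filter (fun D => h0 ≤ D.2 ∧ D.2 < h0 + 2 ^ (lm - 3 * σ))).card : ℝ) ≤
      1 + 2 ^ (200 * s) := by
  have hs1 := hp.s1
  have hθ := (L2_theta κ lm σ s).resolve_right (by omega)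
  refine (L2_win _ _ _ _ _ _ _ hθ ?_ ?_ ?_).trans (add_le_add le_rfl hg.c2)
  · intro D hD
    exact (L2_PC (mem_filter.1 hD).1).2.2
  · intro D hD D' hD'
    exact L2_diff hs1 (L2_PC (mem_filter.1 hD).1).1 (L2_PC (mem_filter.1 hD').1).1
  · intro D hD D' hD'
    obtain ⟨-, a1, a2⟩ := mem_filter.1 hD
    obtain ⟨-, b1, b2⟩ := mem_filter.1 hD'
    have h1 : |D.2 - D'.2| ≤ (2 : ℤ) ^ (lm - 3 * σ) := by
      rw [abs_le]
      constructor <;> linarith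
    exact L2_abs_cast h1

open Classical in
private theorem L2_arc (P : Finset (ℤ × ℤ)) (u : ℤ × ℤ → ℤ) (K σ s : ℕ) (hs : 4 ≤ s)
    (hK : 3 * σ ≤ K) (hu : ∀ D ∈ P, |u D| ≤ (2 : ℤ) ^ (K + 30 * s))
    (hwin : ∀ h0 : ℤ, ((P.filter (fun D => h0 ≤ u D ∧ u D < h0 + 2 ^ (K - 3 * σ))).card : ℝ) ≤
      1 + 2 ^ (200 * s)) (D0 : ℤ × ℤ) (hD0 : D0 ∈ P) (m : ℕ) :
    ((P.filter (fun D : ℤ × ℤ =>
      (m : ℝ) / ((2 ^ (3 * σ) : ℕ) : ℝ) ≤ Int.fract ((u D : ℝ) / 2 ^ K - (u D0 : ℝ) / 2 ^ K) ∧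
      Int.fract ((u D : ℝ) / 2 ^ K - (u D0 : ℝ) / 2 ^ K) < (m + 1) / ((2 ^ (3 * σ) : ℕ) : ℝ))).card : ℝ) ≤
      2 ^ (231 * s) := by
  have hsub : P.filter (fun D : ℤ × ℤ =>
      (m : ℝ) / ((2 ^ (3 * σ) : ℕ) : ℝ) ≤ Int.fract ((u D : ℝ) / 2 ^ K - (u D0 : ℝ) / 2 ^ K) ∧
      Int.fract ((u D : ℝ) / 2 ^ K - (u D0 : ℝ) / 2 ^ K) < (m + 1) / ((2 ^ (3 * σ) : ℕ) : ℝ)) ⊆
      (Icc (-(2 : ℤ) ^ (30 * s + 1)) ((2 : ℤ) ^ (30 * s + 1))).biUnion (fun z =>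
        P.filter (fun D => (u D0 + z * 2 ^ K + m * 2 ^ (K - 3 * σ)) ≤ u D ∧
          u D < (u D0 + z * 2 ^ K + m * 2 ^ (K - 3 * σ)) + 2 ^ (K - 3 * σ))) := by
    intro D hD
    obtain ⟨hDP, hf1, hf2⟩ := mem_filter.1 hD
    rw [mem_biUnion]
    obtain ⟨w, hw⟩ : ∃ w : ℝ, w = (u D : ℝ) / 2 ^ K - (u D0 : ℝ) / 2 ^ K := ⟨_, rfl⟩
    rw [← hw] at hf1 hf2
    have hfr : Int.fract w = w - ⌊w⌋ := rfl
    have hKp : (0 : ℝ) < 2 ^ K := by positivity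
    have hwK : w * 2 ^ K = u D - u D0 := by
      rw [hw]
      field_simp
    refine ⟨⌊w⌋, ?_, ?_⟩
    · have h1 := L2_abs_cast (hu D hDP)
      have h2 := L2_abs_cast (hu D0 hD0)
      have h3 : |w| ≤ 2 ^ (30 * s + 1) := by
        have h4 : |w| * 2 ^ K ≤ 2 ^ (30 * s + 1) * 2 ^ K := by
          rw [← abs_of_pos hKp, ← abs_mul, abs_of_pos hKp, hwK]
          have h5 := abs_sub (u D : ℝ) (u D0)
          have h6 : (2 : ℝ) ^ (30 * s + 1) * 2 ^ K = 2 * 2 ^ (K + 30 * s) := by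
            rw [pow_succ, pow_add]
            ring
          rw [h6]
          linarith
        exact le_of_mul_le_mul_right h4 hKp
      rw [mem_Icc]
      have h4 := abs_le.1 h3
      constructor
      · rw [Int.le_floor]
        push_cast
        linarith [h4.1]
      · have h5 : ((⌊w⌋ : ℤ) : ℝ) ≤ (((2 : ℤ) ^ (30 * s + 1) : ℤ) : ℝ) := by
          push_cast
          exact (Int.floor_le w).trans h4.2
        exact_mod_cast h5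
    · rw [mem_filter]
      refine ⟨hDP, ?_⟩
      have hN : ((2 ^ (3 * σ) : ℕ) : ℝ) * 2 ^ (K - 3 * σ) = 2 ^ K := by
        push_cast
        rw [← pow_add]
        congr 1
        omega
      have hNp : (0 : ℝ) < ((2 ^ (3 * σ) : ℕ) : ℝ) := by positivity
      have h5 : (u D : ℝ) - u D0 - ⌊w⌋ * 2 ^ K = Int.fract w * 2 ^ K := by
        rw [hfr, sub_mul, hwK]
      have h6 : (m : ℝ) * 2 ^ (K - 3 * σ) ≤ Int.fract w * 2 ^ K := by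
        have := mul_le_mul_of_nonneg_right hf1 hKp.le
        have h7 : (m : ℝ) / ((2 ^ (3 * σ) : ℕ) : ℝ) * 2 ^ K = m * 2 ^ (K - 3 * σ) := by
          rw [← hN]
          field_simp
        linarith
      have h8 : Int.fract w * 2 ^ K < ((m : ℝ) + 1) * 2 ^ (K - 3 * σ) := by
        have := mul_lt_mul_of_pos_right hf2 hKp
        have h7 : ((m : ℝ) + 1) / ((2 ^ (3 * σ) : ℕ) : ℝ) * 2 ^ K = (m + 1) * 2 ^ (K - 3 * σ) := by
          rw [← hN]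
          field_simp
        linarith
      constructor
      · have h9 : ((u D0 + ⌊w⌋ * 2 ^ K + m * 2 ^ (K - 3 * σ) : ℤ) : ℝ) ≤ (u D : ℝ) := by
          push_cast
          linarith
        exact_mod_cast h9
      · have h9 : (u D : ℝ) < ((u D0 + ⌊w⌋ * 2 ^ K + m * 2 ^ (K - 3 * σ) + 2 ^ (K - 3 * σ) : ℤ) : ℝ) := by
          push_cast
          linarith
        exact_mod_cast h9
  have h1 : ((P.filter (fun D : ℤ × ℤ =>
      (m : ℝ) / ((2 ^ (3 * σ) : ℕ) : ℝ) ≤ Int.fract ((u D : ℝ) / 2 ^ K - (u D0 : ℝ) / 2 ^ K) ∧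
      Int.fract ((u D : ℝ) / 2 ^ K - (u D0 : ℝ) / 2 ^ K) < (m + 1) / ((2 ^ (3 * σ) : ℕ) : ℝ))).card : ℝ) ≤
      ∑ z ∈ Icc (-(2 : ℤ) ^ (30 * s + 1)) ((2 : ℤ) ^ (30 * s + 1)),
        ((P.filter (fun D => (u D0 + z * 2 ^ K + m * 2 ^ (K - 3 * σ)) ≤ u D ∧
          u D < (u D0 + z * 2 ^ K + m * 2 ^ (K - 3 * σ)) + 2 ^ (K - 3 * σ))).card : ℝ) := by
    have := (card_le_card hsub).trans card_biUnion_le
    exact_mod_cast this
  refine h1.trans ((sum_le_sum fun z _ => hwin _).trans ?_)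
  rw [sum_const, nsmul_eq_mul, Int.card_Icc]
  have h2 : (((2 : ℤ) ^ (30 * s + 1) + 1 - -(2 : ℤ) ^ (30 * s + 1)).toNat : ℝ) ≤ 2 ^ (30 * s + 3) := by
    have h3 : ((2 : ℤ) ^ (30 * s + 1) + 1 - -(2 : ℤ) ^ (30 * s + 1)) ≤ 2 ^ (30 * s + 3) := by
      have h4 : (1 : ℤ) ≤ 2 ^ (30 * s + 1) := one_le_pow₀ (by norm_num)
      have h5 : (2 : ℤ) ^ (30 * s + 3) = 4 * 2 ^ (30 * s + 1) := by
        rw [pow_add, pow_add]
        ring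
      linarith
    have h4 : ((2 : ℤ) ^ (30 * s + 1) + 1 - -(2 : ℤ) ^ (30 * s + 1)).toNat ≤ 2 ^ (30 * s + 3) := by
      rw [Int.toNat_le]
      push_cast
      exact h3
    exact_mod_cast h4
  calc (((2 : ℤ) ^ (30 * s + 1) + 1 - -(2 : ℤ) ^ (30 * s + 1)).toNat : ℝ) * (1 + 2 ^ (200 * s))
      ≤ 2 ^ (30 * s + 3) * (2 ^ (200 * s) + 2 ^ (200 * s)) := by
        refine mul_le_mul h2 ?_ (by positivity) (by positivity)
        have : (1 : ℝ) ≤ 2 ^ (200 * s) := one_le_pow₀ (by norm_num)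
        linarith
    _ = 2 ^ (30 * s + 3 + (200 * s + 1)) := by
        rw [pow_add 2 (30 * s + 3) (200 * s + 1), pow_succ 2 (200 * s)]
        ring
    _ ≤ 2 ^ (231 * s) := pow_le_pow_right₀ (by norm_num) (by omega)

open Classical in
/-- Arc: `θ_D = D.1/2^κ`, `N = 2^(3σ)`; `fract(θ_D - θ_D0) ∈ [m/N, (m+1)/N)` means `D.1 ∈ D0.1 + z 2^κ + m 2^(κ-3σ) + [0, 2^(κ-3σ))`,
`z = ⌊θ_D - θ_D0⌋`, `|z| ≤ 2^(30s+1) + 1`: at most `2^(30s+3)` windows. -/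
theorem arc1 (κ lm σ s α0 β0 : ℕ) (hs : 4 ≤ s) (hp : ParC κ lm σ s) (hg : GenC κ lm σ s α0 β0)
    (D0 : ℤ × ℤ) (hD0 : D0 ∈ PC κ lm σ s α0 β0) (m : ℕ) (hm : m < 2 ^ (3 * σ)) :
    (((PC κ lm σ s α0 β0).filter (fun D : ℤ × ℤ =>
      (m : ℝ) / ((2 ^ (3 * σ) : ℕ) : ℝ) ≤ Int.fract ((D.1 : ℝ) / 2 ^ κ - (D0.1 : ℝ) / 2 ^ κ) ∧
      Int.fract ((D.1 : ℝ) / 2 ^ κ - (D0.1 : ℝ) / 2 ^ κ) < (m + 1) / ((2 ^ (3 * σ) : ℕ) : ℝ))).card : ℝ) ≤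
      2 ^ (231 * s) :=
  L2_arc (PC κ lm σ s α0 β0) (fun D => D.1) κ σ s hs (by have := hp.k1; omega)
    (fun _ hD => (L2_PC hD).1) (fun h0 => win1 κ lm σ s α0 β0 hp hg h0) D0 hD0 m

open Classical in
theorem arc2 (κ lm σ s α0 β0 : ℕ) (hs : 4 ≤ s) (hp : ParC κ lm σ s) (hg : GenC κ lm σ s α0 β0)
    (D0 : ℤ × ℤ) (hD0 : D0 ∈ PC κ lm σ s α0 β0) (m : ℕ) (hm : m < 2 ^ (3 * σ)) :
    (((PC κ lm σ s α0 β0).filter (fun D : ℤ × ℤ =>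
      (m : ℝ) / ((2 ^ (3 * σ) : ℕ) : ℝ) ≤ Int.fract ((D.2 : ℝ) / 2 ^ lm - (D0.2 : ℝ) / 2 ^ lm) ∧
      Int.fract ((D.2 : ℝ) / 2 ^ lm - (D0.2 : ℝ) / 2 ^ lm) < (m + 1) / ((2 ^ (3 * σ) : ℕ) : ℝ))).card : ℝ) ≤
      2 ^ (231 * s) :=
  L2_arc (PC κ lm σ s α0 β0) (fun D => D.2) lm σ s hs (by have := hp.l1; omega)
    (fun _ hD => (L2_PC hD).2.1) (fun h0 => win2 κ lm σ s α0 β0 hp hg h0) D0 hD0 m

end MP_5e4520_nt.Ex
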