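import Pool.Agent.Lib.MP_5e4520_ntE.L2
set_option autoImplicit false

/-!
# Large blocks: the bilinear bound
-/

namespace MP_5e4520_nt.Ex

open Finset

/-- size of the Fourier transform of a density on `3σ` digits at the frequency `h/2^κ` -/
noncomputable def nu (κ σ : ℕ) (p : ℕ → ℝ) (h : ℤ) : ℝ :=
  ‖∑ C ∈ range (2 ^ (3 * σ)), (p C : ℂ) * ee (-(C * ((h : ℝ) / 2 ^ κ)))‖

/-- sub-probability density on `3σ` digits with sup norm `P` -/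
structure DensC (σ : ℕ) (P : ℝ) (p : ℕ → ℝ) : Prop where
  nn : ∀ A, 0 ≤ p A
  sup : ∀ A, p A ≤ P
  mass : ∑ A ∈ range (2 ^ (3 * σ)), p A ≤ 1

theorem nu_nonneg (κ σ : ℕ) (p : ℕ → ℝ) (h : ℤ) : 0 ≤ nu κ σ p h := norm_nonneg _

/-- JOB L3.  triangle inequality -/
theorem nu_le_one (κ σ : ℕ) (P : ℝ) (p : ℕ → ℝ) (hp : DensC σ P p) (h : ℤ) : nu κ σ p h ≤ 1 := by
  unfold nu
  refine (norm_sum_le _ _).trans (le_trans (le_of_eq ?_) hp.mass)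
  refine sum_congr rfl fun C _ => ?_
  rw [norm_mul, norm_ee, mul_one, Complex.norm_real, Real.norm_eq_abs, abs_of_nonneg (hp.nn C)]

private theorem L3_P {σ : ℕ} {P : ℝ} {p : ℕ → ℝ} (hd : DensC σ P p) : 0 ≤ P :=
  (hd.nn 0).trans (hd.sup 0)

private theorem L3_sq {σ : ℕ} {P : ℝ} {p : ℕ → ℝ} (hd : DensC σ P p) :
    ∑ C ∈ range (2 ^ (3 * σ)), p C ^ 2 ≤ P := by
  have hP := L3_P hd
  calc ∑ C ∈ range (2 ^ (3 * σ)), p C ^ 2 ≤ ∑ C ∈ range (2 ^ (3 * σ)), P * p C := by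
        refine sum_le_sum fun C _ => ?_
        rw [sq]
        exact mul_le_mul_of_nonneg_right (hd.sup C) (hd.nn C)
    _ = P * ∑ C ∈ range (2 ^ (3 * σ)), p C := by rw [mul_sum]
    _ ≤ P * 1 := mul_le_mul_of_nonneg_left hd.mass hP
    _ = P := mul_one P

/-- `large_sieve` with `J = PC`, `θ_D = D.1/2^κ`, `arc1`; `∑ p² ≤ P ∑ p ≤ P` -/
theorem nu_sieve1 (κ lm σ s α0 β0 : ℕ) (hs : 4 ≤ s) (hp : ParC κ lm σ s) (hg : GenC κ lm σ s α0 β0)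
    (P : ℝ) (p : ℕ → ℝ) (hd : DensC σ P p) :
    ∑ D ∈ PC κ lm σ s α0 β0, nu κ σ p D.1 ^ 2 ≤ 10 * 2 ^ (3 * σ) * 2 ^ (231 * s) * P := by
  have h := large_sieve (PC κ lm σ s α0 β0) (fun D : ℤ × ℤ => (D.1 : ℝ) / 2 ^ κ) (2 ^ (3 * σ))
    (by positivity) (2 ^ (231 * s)) (by positivity)
    (fun D0 hD0 m hm => arc1 κ lm σ s α0 β0 hs hp hg D0 hD0 m hm) p
  push_cast at h
  refine h.trans ?_
  exact mul_le_mul_of_nonneg_left (L3_sq hd) (by positivity)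

theorem nu_sieve2 (κ lm σ s α0 β0 : ℕ) (hs : 4 ≤ s) (hp : ParC κ lm σ s) (hg : GenC κ lm σ s α0 β0)
    (P : ℝ) (p : ℕ → ℝ) (hd : DensC σ P p) :
    ∑ D ∈ PC κ lm σ s α0 β0, nu lm σ p D.2 ^ 2 ≤ 10 * 2 ^ (3 * σ) * 2 ^ (231 * s) * P := by
  have h := large_sieve (PC κ lm σ s α0 β0) (fun D : ℤ × ℤ => (D.2 : ℝ) / 2 ^ lm) (2 ^ (3 * σ))
    (by positivity) (2 ^ (231 * s)) (by positivity)
    (fun D0 hD0 m hm => arc2 κ lm σ s α0 β0 hs hp hg D0 hD0 m hm) p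
  push_cast at h
  refine h.trans ?_
  exact mul_le_mul_of_nonneg_left (L3_sq hd) (by positivity)

open Classical in
/-- For a core `h` and any real `c` the number of `A < 2^(3σ)` with `‖h (α0 2^(3σ) + A)/2^(2κ+lm) + c‖ ≤ 2^(50s)/2^(κ+lm)` is
at most `2^(80s+2)`: the numbers `h A/2^(2κ+lm)` form a progression with step `≥ 2^(-30s)/2^(κ+lm)` of total length
`≤ 2^(30s+3σ)/2^(κ+lm) ≤ 1/4`, and `2·2^(50s)/2^(κ+lm) ≤ 1/4`: only one integer is concerned. -/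
theorem near_count (κ lm σ s α0 : ℕ) (hp : ParC κ lm σ s) (h : ℤ) (hc : core1 s κ h) (c : ℝ) :
    (((range (2 ^ (3 * σ))).filter (fun A : ℕ =>
      nd ((h : ℝ) * ((α0 * 2 ^ (3 * σ) + A : ℕ) : ℝ) / 2 ^ (2 * κ + lm) + c) ≤
        2 ^ (50 * s) / 2 ^ (κ + lm))).card : ℝ) ≤ 2 ^ (80 * s + 2) := by
  have hs1 := hp.s1
  have hsσ := hp.sσ
  have hk1 := hp.k1
  have hl1 := hp.l1
  obtain ⟨W, hW⟩ : ∃ W : Finset ℕ, W = (range (2 ^ (3 * σ))).filter (fun A : ℕ =>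
      nd ((h : ℝ) * ((α0 * 2 ^ (3 * σ) + A : ℕ) : ℝ) / 2 ^ (2 * κ + lm) + c) ≤
        2 ^ (50 * s) / 2 ^ (κ + lm)) := ⟨_, rfl⟩
  rw [← hW]
  -- size of the step
  have hh1 : (2 : ℝ) ^ (κ - 30 * s) ≤ |(h : ℝ)| := by
    have := hc.1
    have h2 : (((2 : ℤ) ^ (κ - 30 * s) : ℤ) : ℝ) ≤ ((|h| : ℤ) : ℝ) := by exact_mod_cast this
    push_cast at h2
    exact h2
  have hh2 : |(h : ℝ)| ≤ (2 : ℝ) ^ (κ + 30 * s) := by
    have := hc.2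
    have h2 : ((|h| : ℤ) : ℝ) ≤ (((2 : ℤ) ^ (κ + 30 * s) : ℤ) : ℝ) := by exact_mod_cast this
    push_cast at h2
    exact h2
  have key : ∀ A ∈ W, ∀ A' ∈ W, |(A : ℝ) - A'| ≤ 2 ^ (80 * s + 1) := by
    intro A hA A' hA'
    rw [hW, mem_filter, mem_range] at hA hA'
    obtain ⟨hA1, hA2⟩ := hA
    obtain ⟨hA1', hA2'⟩ := hA'
    obtain ⟨z, hz⟩ := nd_exists ((h : ℝ) * ((α0 * 2 ^ (3 * σ) + A : ℕ) : ℝ) / 2 ^ (2 * κ + lm) + c)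
    obtain ⟨z', hz'⟩ :=
      nd_exists ((h : ℝ) * ((α0 * 2 ^ (3 * σ) + A' : ℕ) : ℝ) / 2 ^ (2 * κ + lm) + c)
    rw [← hz] at hA2
    rw [← hz'] at hA2'
    have e1 : ((h : ℝ) * ((α0 * 2 ^ (3 * σ) + A : ℕ) : ℝ) / 2 ^ (2 * κ + lm) + c - z) -
        ((h : ℝ) * ((α0 * 2 ^ (3 * σ) + A' : ℕ) : ℝ) / 2 ^ (2 * κ + lm) + c - z') =
        (h : ℝ) * ((A : ℝ) - A') / 2 ^ (2 * κ + lm) - ((z - z' : ℤ) : ℝ) := by
      push_cast
      ring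
    have h1 := abs_sub ((h : ℝ) * ((α0 * 2 ^ (3 * σ) + A : ℕ) : ℝ) / 2 ^ (2 * κ + lm) + c - z)
      ((h : ℝ) * ((α0 * 2 ^ (3 * σ) + A' : ℕ) : ℝ) / 2 ^ (2 * κ + lm) + c - z')
    rw [e1] at h1
    have hAA : |(A : ℝ) - A'| ≤ 2 ^ (3 * σ) := by
      have k1 : (A : ℝ) < 2 ^ (3 * σ) := by exact_mod_cast hA1
      have k2 : (A' : ℝ) < 2 ^ (3 * σ) := by exact_mod_cast hA1'
      have k3 : (0 : ℝ) ≤ A := Nat.cast_nonneg A
      have k4 : (0 : ℝ) ≤ A' := Nat.cast_nonneg A'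
      rw [abs_le]
      constructor <;> linarith
    have h2 : |(h : ℝ) * ((A : ℝ) - A') / 2 ^ (2 * κ + lm)| ≤ 1 / 4 := by
      rw [abs_div, abs_mul, abs_of_pos (by positivity : (0 : ℝ) < 2 ^ (2 * κ + lm)),
        div_le_iff₀ (by positivity)]
      calc |(h : ℝ)| * |(A : ℝ) - A'| ≤ 2 ^ (κ + 30 * s) * 2 ^ (3 * σ) :=
            mul_le_mul hh2 hAA (abs_nonneg _) (by positivity)
        _ = 2 ^ (κ + 30 * s + 3 * σ) := by rw [← pow_add]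
        _ ≤ 1 / 4 * 2 ^ (2 * κ + lm) := by
            have : (2 : ℝ) ^ (κ + 30 * s + 3 * σ) * 2 ^ 2 ≤ 2 ^ (2 * κ + lm) := by
              rw [← pow_add]
              exact pow_le_pow_right₀ (by norm_num) (by omega)
            linarith
    have h3 : (2 : ℝ) ^ (50 * s) / 2 ^ (κ + lm) ≤ 1 / 8 := by
      rw [div_le_iff₀ (by positivity)]
      have : (2 : ℝ) ^ (50 * s) * 2 ^ 3 ≤ 2 ^ (κ + lm) := by
        rw [← pow_add]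
        exact pow_le_pow_right₀ (by norm_num) (by omega)
      linarith
    have h4 : |((z - z' : ℤ) : ℝ)| < 1 := by
      have k1 := abs_sub ((h : ℝ) * ((A : ℝ) - A') / 2 ^ (2 * κ + lm))
        ((h : ℝ) * ((A : ℝ) - A') / 2 ^ (2 * κ + lm) - ((z - z' : ℤ) : ℝ))
      rw [sub_sub_cancel] at k1
      linarith
    have h5 : z - z' = 0 := by
      have : |z - z'| < 1 := by exact_mod_cast h4
      exact Int.abs_lt_one_iff.1 this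
    rw [h5, Int.cast_zero, sub_zero] at h1
    have h6 : |(h : ℝ) * ((A : ℝ) - A') / 2 ^ (2 * κ + lm)| ≤ 2 * (2 ^ (50 * s) / 2 ^ (κ + lm)) := by
      linarith
    rw [abs_div, abs_mul, abs_of_pos (by positivity : (0 : ℝ) < 2 ^ (2 * κ + lm)),
      div_le_iff₀ (by positivity)] at h6
    have h7 : (2 : ℝ) ^ (κ - 30 * s) * |(A : ℝ) - A'| ≤ |(h : ℝ)| * |(A : ℝ) - A'| :=
      mul_le_mul_of_nonneg_right hh1 (abs_nonneg _)
    have h8 : 2 * ((2 : ℝ) ^ (50 * s) / 2 ^ (κ + lm)) * 2 ^ (2 * κ + lm) =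
        2 ^ (κ - 30 * s) * 2 ^ (80 * s + 1) := by
      have k1 : (2 : ℝ) ^ (2 * κ + lm) = 2 ^ (κ + lm) * 2 ^ κ := by
        rw [← pow_add]
        congr 1
        ring
      have k2 : (2 : ℝ) ^ (κ - 30 * s) * 2 ^ (80 * s + 1) = 2 * 2 ^ (50 * s) * 2 ^ κ := by
        rw [← pow_succ', ← pow_add, ← pow_add]
        congr 1
        omega
      rw [k1, k2]
      field_simp
    rw [h8] at h6
    exact le_of_mul_le_mul_left (h7.trans h6) (by positivity)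
  rcases W.eq_empty_or_nonempty with h0 | hne
  · rw [h0, card_empty, Nat.cast_zero]
    positivity
  · have hsub : W ⊆ Icc (W.min' hne) (W.min' hne + 2 ^ (80 * s + 1)) := by
      intro A hA
      rw [mem_Icc]
      refine ⟨W.min'_le A hA, ?_⟩
      have h1 := key A hA _ (W.min'_mem hne)
      have h2 := (abs_le.1 h1).2
      have h3 : (A : ℝ) ≤ ((W.min' hne + 2 ^ (80 * s + 1) : ℕ) : ℝ) := by
        push_cast
        linarith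
      exact_mod_cast h3
    have h1 := card_le_card hsub
    rw [Nat.card_Icc] at h1
    have h2 : W.card ≤ 2 ^ (80 * s + 2) := by
      have h3 : 1 ≤ 2 ^ (80 * s + 1) := Nat.one_le_two_pow
      have h4 : 2 ^ (80 * s + 2) = 2 * 2 ^ (80 * s + 1) := by
        rw [pow_succ 2 (80 * s + 1)]
        ring
      omega
    exact_mod_cast h2

private theorem L3_geo {X a P Q : ℝ} (hX : 0 ≤ X) (ha : 0 ≤ a) (hP : 0 ≤ P) (hQ : 0 ≤ Q)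
    (h1 : X ≤ a * P) (h2 : X ≤ a * Q) : X ≤ a * Real.sqrt (P * Q) := by
  have h3 : X ^ 2 ≤ (a * Real.sqrt (P * Q)) ^ 2 := by
    rw [mul_pow, Real.sq_sqrt (by positivity), sq]
    calc X * X ≤ (a * P) * (a * Q) := mul_le_mul h1 h2 hX (by positivity)
      _ = a ^ 2 * (P * Q) := by ring
  exact le_of_sq_le_sq h3 (by positivity)

open Classical in
private theorem L3_half (κ lm σ s α0 β0 : ℕ) (hp : ParC κ lm σ s) (P1 P3 : ℝ) (p1 p3 : ℕ → ℝ)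
    (h1 : DensC σ P1 p1) (h3 : DensC σ P3 p3) (D : ℤ × ℤ) (hc : core1 s κ D.1) :
    ∑ A ∈ range (2 ^ (3 * σ)), ∑ B ∈ range (2 ^ (3 * σ)), p1 A * p3 B *
      (if nd ((D.1 : ℝ) * ((α0 * 2 ^ (3 * σ) + A : ℕ) : ℝ) / 2 ^ (2 * κ + lm) +
          (D.2 : ℝ) * ((β0 * 2 ^ (3 * σ) + B : ℕ) : ℝ) / 2 ^ (κ + 2 * lm)) ≤
          2 ^ (50 * s) / 2 ^ (κ + lm) then 1 else 0) ≤ 2 ^ (80 * s + 2) * P1 := by
  have hP1 := L3_P h1
  rw [sum_comm]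
  have hB : ∀ B ∈ range (2 ^ (3 * σ)), ∑ A ∈ range (2 ^ (3 * σ)), p1 A * p3 B *
      (if nd ((D.1 : ℝ) * ((α0 * 2 ^ (3 * σ) + A : ℕ) : ℝ) / 2 ^ (2 * κ + lm) +
          (D.2 : ℝ) * ((β0 * 2 ^ (3 * σ) + B : ℕ) : ℝ) / 2 ^ (κ + 2 * lm)) ≤
          2 ^ (50 * s) / 2 ^ (κ + lm) then (1 : ℝ) else 0) ≤ p3 B * (2 ^ (80 * s + 2) * P1) := by
    intro B _
    have hnc := near_count κ lm σ s α0 hp D.1 hc
      ((D.2 : ℝ) * ((β0 * 2 ^ (3 * σ) + B : ℕ) : ℝ) / 2 ^ (κ + 2 * lm))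
    calc ∑ A ∈ range (2 ^ (3 * σ)), p1 A * p3 B *
        (if nd ((D.1 : ℝ) * ((α0 * 2 ^ (3 * σ) + A : ℕ) : ℝ) / 2 ^ (2 * κ + lm) +
          (D.2 : ℝ) * ((β0 * 2 ^ (3 * σ) + B : ℕ) : ℝ) / 2 ^ (κ + 2 * lm)) ≤
          2 ^ (50 * s) / 2 ^ (κ + lm) then (1 : ℝ) else 0)
        ≤ ∑ A ∈ range (2 ^ (3 * σ)), p3 B * P1 *
          (if nd ((D.1 : ℝ) * ((α0 * 2 ^ (3 * σ) + A : ℕ) : ℝ) / 2 ^ (2 * κ + lm) +
            (D.2 : ℝ) * ((β0 * 2 ^ (3 * σ) + B : ℕ) : ℝ) / 2 ^ (κ + 2 * lm)) ≤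
            2 ^ (50 * s) / 2 ^ (κ + lm) then (1 : ℝ) else 0) := by
          refine sum_le_sum fun A _ => ?_
          refine mul_le_mul_of_nonneg_right ?_ (by split_ifs <;> norm_num)
          rw [mul_comm]
          exact mul_le_mul_of_nonneg_left (h1.sup A) (h3.nn B)
      _ = p3 B * P1 * (((range (2 ^ (3 * σ))).filter (fun A : ℕ =>
            nd ((D.1 : ℝ) * ((α0 * 2 ^ (3 * σ) + A : ℕ) : ℝ) / 2 ^ (2 * κ + lm) +
              (D.2 : ℝ) * ((β0 * 2 ^ (3 * σ) + B : ℕ) : ℝ) / 2 ^ (κ + 2 * lm)) ≤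
            2 ^ (50 * s) / 2 ^ (κ + lm))).card : ℝ) := by
          rw [← mul_sum, sum_boole]
      _ ≤ p3 B * P1 * 2 ^ (80 * s + 2) :=
          mul_le_mul_of_nonneg_left hnc (mul_nonneg (h3.nn B) hP1)
      _ = p3 B * (2 ^ (80 * s + 2) * P1) := by ring
  refine (sum_le_sum hB).trans ?_
  rw [← sum_mul]
  calc (∑ B ∈ range (2 ^ (3 * σ)), p3 B) * (2 ^ (80 * s + 2) * P1) ≤
        1 * (2 ^ (80 * s + 2) * P1) := mul_le_mul_of_nonneg_right h3.mass (by positivity)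
    _ = _ := one_mul _

open Classical in
/-- `W(D) = ∑_{A,B} p1(A) p3(B) 1[D near] ≤ 2^(80s+2) sqrt(P1 P3)`: it is `≤ P1 2^(80s+2)` (sum over `A` first, `near_count`) and
`≤ P3 2^(80s+2)` (sum over `B` first, `near_count` with `κ` and `lm` exchanged). -/
theorem W_le (κ lm σ s α0 β0 : ℕ) (hp : ParC κ lm σ s) (P1 P3 : ℝ) (p1 p3 : ℕ → ℝ)
    (h1 : DensC σ P1 p1) (h3 : DensC σ P3 p3) (D : ℤ × ℤ) (hc : core1 s κ D.1) (hc' : core1 s lm D.2) :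
    ∑ A ∈ range (2 ^ (3 * σ)), ∑ B ∈ range (2 ^ (3 * σ)), p1 A * p3 B *
      (if nd ((D.1 : ℝ) * ((α0 * 2 ^ (3 * σ) + A : ℕ) : ℝ) / 2 ^ (2 * κ + lm) +
          (D.2 : ℝ) * ((β0 * 2 ^ (3 * σ) + B : ℕ) : ℝ) / 2 ^ (κ + 2 * lm)) ≤
          2 ^ (50 * s) / 2 ^ (κ + lm) then 1 else 0) ≤
      2 ^ (80 * s + 2) * Real.sqrt (P1 * P3) := by
  refine L3_geo ?_ (by positivity) (L3_P h1) (L3_P h3)
    (L3_half κ lm σ s α0 β0 hp P1 P3 p1 p3 h1 h3 D hc) ?_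
  · refine sum_nonneg fun A _ => sum_nonneg fun B _ => ?_
    refine mul_nonneg (mul_nonneg (h1.nn A) (h3.nn B)) ?_
    split_ifs <;> norm_num
  · have hp' : ParC lm κ σ s := ⟨hp.s1, hp.sσ, hp.l1, hp.k1⟩
    have h := L3_half lm κ σ s β0 α0 hp' P3 P1 p3 p1 h3 h1 (D.2, D.1) hc'
    rw [sum_comm] at h
    refine le_trans (le_of_eq ?_) h
    refine sum_congr rfl fun A _ => sum_congr rfl fun B _ => ?_
    have e1 : 2 * lm + κ = κ + 2 * lm := by ring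
    have e2 : lm + 2 * κ = 2 * κ + lm := by ring
    rw [e1, e2, add_comm lm κ, mul_comm (p3 B) (p1 A)]
    simp only
    rw [add_comm ((D.2 : ℝ) * ((β0 * 2 ^ (3 * σ) + B : ℕ) : ℝ) / 2 ^ (κ + 2 * lm))]

/-- The bilinear bound: exchange the sums (`NB_sub`), `W_le`, Cauchy-Schwarz and `nu_sieve1/2`:
`U ≤ 2^(80s+2) sqrt(P1P3) · 10·2^(3σ+231s) sqrt(P2P4) ≤ 40·2^(311s+3σ)·2^(-3σ-350s) ≤ 2^(-2s)`. -/
theorem U_le (κ lm σ s α0 β0 : ℕ) (hs : 4 ≤ s) (hp : ParC κ lm σ s) (hg : GenC κ lm σ s α0 β0)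
    (P1 P2 P3 P4 : ℝ) (p1 p2 p3 p4 : ℕ → ℝ)
    (h1 : DensC σ P1 p1) (h2 : DensC σ P2 p2) (h3 : DensC σ P3 p3) (h4 : DensC σ P4 p4)
    (hP : P1 * P2 * P3 * P4 ≤ 1 / 2 ^ (6 * σ + 700 * s)) :
    ∑ A ∈ range (2 ^ (3 * σ)), ∑ B ∈ range (2 ^ (3 * σ)), p1 A * p3 B *
      ∑ D ∈ NB κ lm s (α0 * 2 ^ (3 * σ) + A) (β0 * 2 ^ (3 * σ) + B), nu κ σ p2 D.1 * nu lm σ p4 D.2 ≤
      1 / 2 ^ (2 * s) := by
  classical
  have hP1 := L3_P h1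
  have hP2 := L3_P h2
  have hP3 := L3_P h3
  have hP4 := L3_P h4
  have hnn : ∀ D : ℤ × ℤ, 0 ≤ nu κ σ p2 D.1 * nu lm σ p4 D.2 := fun D =>
    mul_nonneg (nu_nonneg _ _ _ _) (nu_nonneg _ _ _ _)
  -- step 1: extension to all near frequencies of the coarse point
  have s1 : ∀ A ∈ range (2 ^ (3 * σ)), ∀ B ∈ range (2 ^ (3 * σ)), p1 A * p3 B *
      ∑ D ∈ NB κ lm s (α0 * 2 ^ (3 * σ) + A) (β0 * 2 ^ (3 * σ) + B), nu κ σ p2 D.1 * nu lm σ p4 D.2 ≤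
      ∑ D ∈ PC κ lm σ s α0 β0, (nu κ σ p2 D.1 * nu lm σ p4 D.2) * (p1 A * p3 B *
        (if nd ((D.1 : ℝ) * ((α0 * 2 ^ (3 * σ) + A : ℕ) : ℝ) / 2 ^ (2 * κ + lm) +
          (D.2 : ℝ) * ((β0 * 2 ^ (3 * σ) + B : ℕ) : ℝ) / 2 ^ (κ + 2 * lm)) ≤
          2 ^ (50 * s) / 2 ^ (κ + lm) then (1 : ℝ) else 0)) := by
    intro A hA B hB
    have hAB : 0 ≤ p1 A * p3 B := mul_nonneg (h1.nn A) (h3.nn B)
    rw [mul_sum]
    have hsub := NB_sub κ lm σ s α0 β0 A B hp (mem_range.1 hA) (mem_range.1 hB)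
    refine le_trans (le_of_eq ?_) (sum_le_sum_of_subset_of_nonneg hsub ?_)
    · refine sum_congr rfl fun D hD => ?_
      have hnear : nd ((D.1 : ℝ) * ((α0 * 2 ^ (3 * σ) + A : ℕ) : ℝ) / 2 ^ (2 * κ + lm) +
          (D.2 : ℝ) * ((β0 * 2 ^ (3 * σ) + B : ℕ) : ℝ) / 2 ^ (κ + 2 * lm)) ≤
          2 ^ (50 * s) / 2 ^ (κ + lm) := by
        unfold NB at hD
        rw [mem_filter] at hD
        exact hD.2.2.2
      rw [if_pos hnear]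
      ring
    · intro D _ _
      refine mul_nonneg (hnn D) (mul_nonneg hAB ?_)
      split_ifs <;> norm_num
  -- step 2: exchange
  have s2 : ∑ A ∈ range (2 ^ (3 * σ)), ∑ B ∈ range (2 ^ (3 * σ)), p1 A * p3 B *
      ∑ D ∈ NB κ lm s (α0 * 2 ^ (3 * σ) + A) (β0 * 2 ^ (3 * σ) + B), nu κ σ p2 D.1 * nu lm σ p4 D.2 ≤
      ∑ D ∈ PC κ lm σ s α0 β0, (nu κ σ p2 D.1 * nu lm σ p4 D.2) *
        (2 ^ (80 * s + 2) * Real.sqrt (P1 * P3)) := by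
    refine (sum_le_sum fun A hA => sum_le_sum fun B hB => s1 A hA B hB).trans ?_
    have e : ∑ A ∈ range (2 ^ (3 * σ)), ∑ B ∈ range (2 ^ (3 * σ)),
        ∑ D ∈ PC κ lm σ s α0 β0, (nu κ σ p2 D.1 * nu lm σ p4 D.2) * (p1 A * p3 B *
        (if nd ((D.1 : ℝ) * ((α0 * 2 ^ (3 * σ) + A : ℕ) : ℝ) / 2 ^ (2 * κ + lm) +
          (D.2 : ℝ) * ((β0 * 2 ^ (3 * σ) + B : ℕ) : ℝ) / 2 ^ (κ + 2 * lm)) ≤
          2 ^ (50 * s) / 2 ^ (κ + lm) then (1 : ℝ) else 0)) =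
        ∑ D ∈ PC κ lm σ s α0 β0, (nu κ σ p2 D.1 * nu lm σ p4 D.2) *
        ∑ A ∈ range (2 ^ (3 * σ)), ∑ B ∈ range (2 ^ (3 * σ)), (p1 A * p3 B *
        (if nd ((D.1 : ℝ) * ((α0 * 2 ^ (3 * σ) + A : ℕ) : ℝ) / 2 ^ (2 * κ + lm) +
          (D.2 : ℝ) * ((β0 * 2 ^ (3 * σ) + B : ℕ) : ℝ) / 2 ^ (κ + 2 * lm)) ≤
          2 ^ (50 * s) / 2 ^ (κ + lm) then (1 : ℝ) else 0)) := by
      have e1 : ∀ A ∈ range (2 ^ (3 * σ)), ∑ B ∈ range (2 ^ (3 * σ)),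
          ∑ D ∈ PC κ lm σ s α0 β0, (nu κ σ p2 D.1 * nu lm σ p4 D.2) * (p1 A * p3 B *
          (if nd ((D.1 : ℝ) * ((α0 * 2 ^ (3 * σ) + A : ℕ) : ℝ) / 2 ^ (2 * κ + lm) +
            (D.2 : ℝ) * ((β0 * 2 ^ (3 * σ) + B : ℕ) : ℝ) / 2 ^ (κ + 2 * lm)) ≤
            2 ^ (50 * s) / 2 ^ (κ + lm) then (1 : ℝ) else 0)) =
          ∑ D ∈ PC κ lm σ s α0 β0, ∑ B ∈ range (2 ^ (3 * σ)),
          (nu κ σ p2 D.1 * nu lm σ p4 D.2) * (p1 A * p3 B *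
          (if nd ((D.1 : ℝ) * ((α0 * 2 ^ (3 * σ) + A : ℕ) : ℝ) / 2 ^ (2 * κ + lm) +
            (D.2 : ℝ) * ((β0 * 2 ^ (3 * σ) + B : ℕ) : ℝ) / 2 ^ (κ + 2 * lm)) ≤
            2 ^ (50 * s) / 2 ^ (κ + lm) then (1 : ℝ) else 0)) := fun A _ => sum_comm
      rw [sum_congr rfl e1, sum_comm]
      refine sum_congr rfl fun D _ => ?_
      rw [mul_sum]
      refine sum_congr rfl fun A _ => ?_
      rw [mul_sum]
    rw [e]
    refine sum_le_sum fun D hD => ?_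
    refine mul_le_mul_of_nonneg_left ?_ (hnn D)
    have hcore : core1 s κ D.1 ∧ core1 s lm D.2 := by
      unfold PC at hD
      rw [mem_filter] at hD
      exact ⟨hD.2.1, hD.2.2.1⟩
    exact W_le κ lm σ s α0 β0 hp P1 P3 p1 p3 h1 h3 D hcore.1 hcore.2
  refine s2.trans ?_
  rw [← sum_mul]
  -- step 3: Cauchy-Schwarz and the large sieve
  obtain ⟨T, hT⟩ : ∃ T : ℝ, T = 10 * 2 ^ (3 * σ) * 2 ^ (231 * s) := ⟨_, rfl⟩
  have hT0 : 0 ≤ T := by rw [hT]; positivity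
  have s3 : ∑ D ∈ PC κ lm σ s α0 β0, nu κ σ p2 D.1 * nu lm σ p4 D.2 ≤ T * Real.sqrt (P2 * P4) := by
    have c1 := sum_mul_sq_le_sq_mul_sq (PC κ lm σ s α0 β0) (fun D => nu κ σ p2 D.1)
      (fun D => nu lm σ p4 D.2)
    have c2 := nu_sieve1 κ lm σ s α0 β0 hs hp hg P2 p2 h2
    have c3 := nu_sieve2 κ lm σ s α0 β0 hs hp hg P4 p4 h4
    rw [← hT] at c2 c3
    have c4 : (∑ D ∈ PC κ lm σ s α0 β0, nu κ σ p2 D.1 * nu lm σ p4 D.2) ^ 2 ≤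
        (T * Real.sqrt (P2 * P4)) ^ 2 := by
      refine c1.trans ?_
      rw [mul_pow, Real.sq_sqrt (by positivity)]
      calc (∑ D ∈ PC κ lm σ s α0 β0, nu κ σ p2 D.1 ^ 2) *
            (∑ D ∈ PC κ lm σ s α0 β0, nu lm σ p4 D.2 ^ 2) ≤ (T * P2) * (T * P4) :=
            mul_le_mul c2 c3 (sum_nonneg fun D _ => sq_nonneg _) (by positivity)
        _ = T ^ 2 * (P2 * P4) := by ring
    exact le_of_sq_le_sq c4 (by positivity)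
  have s4 : Real.sqrt (P2 * P4) * Real.sqrt (P1 * P3) ≤ 1 / 2 ^ (3 * σ + 350 * s) := by
    rw [← Real.sqrt_mul (by positivity)]
    refine Real.sqrt_le_iff.2 ⟨by positivity, ?_⟩
    have e1 : P2 * P4 * (P1 * P3) = P1 * P2 * P3 * P4 := by ring
    have e2 : ((1 : ℝ) / 2 ^ (3 * σ + 350 * s)) ^ 2 = 1 / 2 ^ (6 * σ + 700 * s) := by
      rw [div_pow, one_pow, ← pow_mul]
      congr 2
      ring
    rw [e1, e2]
    exact hP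
  calc (∑ D ∈ PC κ lm σ s α0 β0, nu κ σ p2 D.1 * nu lm σ p4 D.2) *
        (2 ^ (80 * s + 2) * Real.sqrt (P1 * P3)) ≤
        (T * Real.sqrt (P2 * P4)) * (2 ^ (80 * s + 2) * Real.sqrt (P1 * P3)) :=
        mul_le_mul_of_nonneg_right s3 (by positivity)
    _ = T * 2 ^ (80 * s + 2) * (Real.sqrt (P2 * P4) * Real.sqrt (P1 * P3)) := by ring
    _ ≤ T * 2 ^ (80 * s + 2) * (1 / 2 ^ (3 * σ + 350 * s)) :=
        mul_le_mul_of_nonneg_left s4 (by positivity)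
    _ ≤ 1 / 2 ^ (2 * s) := by
        rw [mul_one_div, div_le_div_iff₀ (by positivity) (by positivity), one_mul, hT]
        calc 10 * 2 ^ (3 * σ) * 2 ^ (231 * s) * 2 ^ (80 * s + 2) * 2 ^ (2 * s) ≤
              2 ^ 4 * 2 ^ (3 * σ) * 2 ^ (231 * s) * 2 ^ (80 * s + 2) * (2 : ℝ) ^ (2 * s) := by
              have : (10 : ℝ) ≤ 2 ^ 4 := by norm_num
              have h0 : (0 : ℝ) ≤ 2 ^ (3 * σ) * 2 ^ (231 * s) * 2 ^ (80 * s + 2) * 2 ^ (2 * s) := by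
                positivity
              have := mul_le_mul_of_nonneg_right this h0
              linarith
          _ = 2 ^ (4 + 3 * σ + 231 * s + (80 * s + 2) + 2 * s) := by
              rw [pow_add 2 (4 + 3 * σ + 231 * s + (80 * s + 2)) (2 * s),
                pow_add 2 (4 + 3 * σ + 231 * s) (80 * s + 2),
                pow_add 2 (4 + 3 * σ) (231 * s), pow_add 2 4 (3 * σ)]
          _ ≤ 2 ^ (3 * σ + 350 * s) := pow_le_pow_right₀ (by norm_num) (by omega)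

end MP_5e4520_nt.Ex
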