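import Pool.Agent.Lib.MP_5e4520_ntE.Fo3
import Pool.Agent.Lib.MP_5e4520_nt.BasB
set_option autoImplicit false

/-!
# Shells and returns

Block of tests at the end levels `(κ, lm)`; `k = κ - x`, `l = lm - y`, `ρ = k + l - 12 s` (`x, y < s`);
`Q1 = 2^(2κ+lm+e)`, `Q2 = 2^(κ+2lm+e)`, shifts `G1 = g 2^(κ+lm+e)`, `G2 = d 2^(κ+lm+e)` (i.e. `G1/Q1 = g/2^κ`, `G2/Q2 = d/2^lm`).
-/

namespace MP_5e4520_nt.Ex

open Finset

/-- the shell of the block at `(κ,lm)` with indices `x, y` -/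
noncomputable def shl (κ lm s e x y g d a b : ℕ) : Finset ℕ :=
  shell (2 ^ (2 * κ + lm + e)) (2 ^ (κ + 2 * lm + e)) (κ - x) (lm - y) (κ - x + (lm - y) - 12 * s)
    ((g : ℤ) * 2 ^ (κ + lm + e)) ((d : ℤ) * 2 ^ (κ + lm + e)) a b


/-- one coordinate of `shell_hit` -/
private lemma V1_coord (K c m c' E q a g : ℕ) (hQ : m + c' = K + c + E) (hK : K ≤ m)
    (hq : q ≤ 2 ^ (m - K))
    (h0 : 0 < ((q : ℤ) * a - (g : ℤ) * 2 ^ E) % ((2 ^ (m + c') : ℕ) : ℤ))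
    (h1 : 2 ^ K * (((q : ℤ) * a - (g : ℤ) * 2 ^ E) % ((2 ^ (m + c') : ℕ) : ℤ)) <
      ((2 ^ (m + c') : ℕ) : ℤ)) :
    nd ((q : ℝ) * ((a / 2 ^ c' : ℕ) : ℝ) / 2 ^ m - ((g / 2 ^ c : ℕ) : ℝ) / 2 ^ K) < 2 / 2 ^ K := by
  set r : ℤ := ((q : ℤ) * a - (g : ℤ) * 2 ^ E) % ((2 ^ (m + c') : ℕ) : ℤ) with hr
  set z : ℤ := ((q : ℤ) * a - (g : ℤ) * 2 ^ E) / ((2 ^ (m + c') : ℕ) : ℤ) with hz
  have hrz : r + ((2 ^ (m + c') : ℕ) : ℤ) * z = (q : ℤ) * a - (g : ℤ) * 2 ^ E :=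
    Int.emod_add_mul_ediv _ _
  have ha : 2 ^ c' * (a / 2 ^ c') + a % 2 ^ c' = a := Nat.div_add_mod a (2 ^ c')
  have hg : 2 ^ c * (g / 2 ^ c) + g % 2 ^ c = g := Nat.div_add_mod g (2 ^ c)
  have hra : a % 2 ^ c' < 2 ^ c' := Nat.mod_lt _ (by positivity)
  have hrg : g % 2 ^ c < 2 ^ c := Nat.mod_lt _ (by positivity)
  set α : ℕ := a / 2 ^ c' with hα
  set γ : ℕ := g / 2 ^ c with hγ
  set ra : ℕ := a % 2 ^ c' with hra'
  set rg : ℕ := g % 2 ^ c with hrg'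
  have hrzR : (r : ℝ) + 2 ^ m * 2 ^ c' * z = (q : ℝ) * a - (g : ℝ) * 2 ^ E := by
    have := congrArg (Int.cast : ℤ → ℝ) hrz
    push_cast at this
    rw [pow_add] at this
    exact this
  have haR : (2 : ℝ) ^ c' * α + ra = a := by exact_mod_cast ha
  have hgR : (2 : ℝ) ^ c * γ + rg = g := by exact_mod_cast hg
  have hraR : (ra : ℝ) < 2 ^ c' := by exact_mod_cast hra
  have hrgR : (rg : ℝ) < 2 ^ c := by exact_mod_cast hrg
  have hra0 : (0 : ℝ) ≤ ra := Nat.cast_nonneg _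
  have hrg0 : (0 : ℝ) ≤ rg := Nat.cast_nonneg _
  have hQR : (2 : ℝ) ^ m * 2 ^ c' = 2 ^ K * 2 ^ c * 2 ^ E := by
    rw [← pow_add, ← pow_add, ← pow_add, hQ]
  have hm : (2 : ℝ) ^ m = 2 ^ K * 2 ^ (m - K) := by
    rw [← pow_add]; congr 1; omega
  have hqR : (q : ℝ) ≤ 2 ^ (m - K) := by exact_mod_cast hq
  have hq0 : (0 : ℝ) ≤ q := Nat.cast_nonneg _
  have h0R : (0 : ℝ) < r := by exact_mod_cast h0
  have h1R : (2 : ℝ) ^ K * r < 2 ^ m * 2 ^ c' := by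
    have h : ((2 ^ K * r : ℤ) : ℝ) < (((2 ^ (m + c') : ℕ) : ℤ) : ℝ) := by exact_mod_cast h1
    push_cast at h
    rw [pow_add] at h
    exact h
  have pK : (0 : ℝ) < 2 ^ K := by positivity
  have pm : (0 : ℝ) < 2 ^ m := by positivity
  have pc : (0 : ℝ) < 2 ^ c := by positivity
  have pc' : (0 : ℝ) < 2 ^ c' := by positivity
  have pE : (0 : ℝ) < 2 ^ E := by positivity
  have pmK : (0 : ℝ) < 2 ^ (m - K) := by positivity
  refine (nd_le _ z).trans_lt ?_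
  -- the three pieces
  have e1 : (q : ℝ) * α / 2 ^ m - γ / 2 ^ K - z =
      r / (2 ^ m * 2 ^ c') - q * ra / (2 ^ m * 2 ^ c') + rg / (2 ^ K * 2 ^ c) := by
    have e2 : (rg : ℝ) / (2 ^ K * 2 ^ c) = rg * 2 ^ E / (2 ^ m * 2 ^ c') := by
      rw [hQR]; field_simp
    have e3 : (γ : ℝ) / 2 ^ K = γ * 2 ^ c * 2 ^ E / (2 ^ m * 2 ^ c') := by
      rw [hQR]; field_simp
    have e4 : (q : ℝ) * α / 2 ^ m = q * α * 2 ^ c' / (2 ^ m * 2 ^ c') := by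
      field_simp
    have e5 : (z : ℝ) = z * (2 ^ m * 2 ^ c') / (2 ^ m * 2 ^ c') := by
      field_simp
    rw [e2, e3, e4]
    nth_rewrite 1 [e5]
    rw [← sub_div, ← sub_div, ← sub_div, ← add_div]
    congr 1
    rw [← haR, ← hgR] at hrzR
    linarith
  rw [e1]
  have b1 : (0 : ℝ) < r / (2 ^ m * 2 ^ c') := by positivity
  have b2 : (r : ℝ) / (2 ^ m * 2 ^ c') < 1 / 2 ^ K := by
    rw [div_lt_div_iff₀ (by positivity) pK]; linarith
  have b3 : (0 : ℝ) ≤ q * ra / (2 ^ m * 2 ^ c') := by positivity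
  have b4 : (q : ℝ) * ra / (2 ^ m * 2 ^ c') ≤ 1 / 2 ^ K := by
    rw [div_le_div_iff₀ (by positivity) pK, hm, one_mul]
    calc (q : ℝ) * ra * 2 ^ K ≤ 2 ^ (m - K) * 2 ^ c' * 2 ^ K := by gcongr
      _ = 2 ^ K * 2 ^ (m - K) * 2 ^ c' := by ring
  have b5 : (0 : ℝ) ≤ rg / (2 ^ K * 2 ^ c) := by positivity
  have b6 : (rg : ℝ) / (2 ^ K * 2 ^ c) < 1 / 2 ^ K := by
    rw [div_lt_div_iff₀ (by positivity) pK, one_mul]
    calc (rg : ℝ) * 2 ^ K < 2 ^ c * 2 ^ K := by gcongr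
      _ = 2 ^ K * 2 ^ c := by ring
  have b7 : (2 : ℝ) / 2 ^ K = 1 / 2 ^ K + 1 / 2 ^ K := by ring
  have b8 : (0 : ℝ) < 1 / 2 ^ K := by positivity
  rw [abs_lt, b7]
  constructor <;> linarith

/-- residues from the bump -/
private lemma V1_btri (w Q : ℕ) (N G : ℤ) (hw : 4 * w ≤ Q) (h : btri w Q (N - (G + 3 * w)) ≠ 0) :
    2 * (w : ℤ) < (N - G) % Q ∧ (N - G) % Q < 4 * (w : ℤ) := by
  unfold btri at h
  have h1 : ((range w ×ˢ range w).filter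
      (fun p => (Q : ℤ) ∣ ((p.1 : ℤ) - p.2 + (N - (G + 3 * w))))).card ≠ 0 := by
    intro h0
    apply h
    rw [h0]
    simp
  obtain ⟨⟨i, j⟩, hp⟩ := card_ne_zero.mp h1
  simp only [mem_filter, mem_product, mem_range] at hp
  obtain ⟨⟨hi, hj⟩, ⟨z, hz⟩⟩ := hp
  have h2 : N - G = (3 * (w : ℤ) + j - i) + Q * z := by linarith
  have h3 : (N - G) % Q = 3 * (w : ℤ) + j - i := by
    rw [h2, Int.add_mul_emod_self_left]
    apply Int.emod_eq_of_lt <;> omega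
  rw [h3]
  constructor <;> omega

/-- JOB V1.  A shell element is a hit.  Let `v = ((q a - G1) mod Q1)/Q1 ∈ (2^(-k-1), 2^(-k))`; `q a/Q1 - g/2^κ = v + integer`.
With `α = a/2^e/2^(2x+y)` (floor) `0 ≤ q a/Q1 - q α/2^(2k+l) < q/2^(2k+l) < 2·2^(-12s)/2^k` and `g' = g/2^x`:
`0 ≤ g/2^κ - g'/2^k < 1/2^k`.  So `q α/2^(2k+l) - g'/2^k` is within `(-2/2^k, 2/2^k)` of an integer.  Same for the second coordinate. -/
theorem shell_hit (κ lm s e x y g d a b q : ℕ) (hs : 1 ≤ s) (hx : x < s) (hy : y < s)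
    (hκ : 20 * s ≤ κ) (hl : 20 * s ≤ lm) (hq : q ∈ shl κ lm s e x y g d a b) :
    Hit (κ - x) (lm - y) 0 (12 * s) (a / 2 ^ e / 2 ^ (2 * x + y)) (b / 2 ^ e / 2 ^ (x + 2 * y))
      (g / 2 ^ x) (d / 2 ^ y) := by

  unfold shl shell at hq
  simp only [mem_filter, mem_Ioo] at hq
  obtain ⟨⟨hq1, hq2⟩, h1, h2, h3, h4⟩ := hq
  have r1 : κ - x + (lm - y) + 2 * 0 - 12 * s = κ - x + (lm - y) - 12 * s := by omega
  refine ⟨q, ?_, ?_, ?_, ?_⟩
  · rw [r1]; exact hq1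
  · rw [r1]
    rw [pow_succ] at hq2
    have : 0 < 2 ^ (κ - x + (lm - y) - 12 * s) := by positivity
    omega
  · have E1 : 2 * κ + lm + e = (2 * (κ - x) + (lm - y)) + (e + (2 * x + y)) := by omega
    have hh := V1_coord (κ - x) x (2 * (κ - x) + (lm - y)) (e + (2 * x + y)) (κ + lm + e) q a g
      (by omega) (by omega) (by
        refine hq2.le.trans (Nat.pow_le_pow_right (by norm_num) ?_)
        omega) (by
        rw [← E1]
        have hp : (0 : ℤ) < ((2 ^ (2 * κ + lm + e) : ℕ) : ℤ) := by positivity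
        have := hp.trans h1
        exact (mul_pos_iff_of_pos_left (by positivity)).mp this) (by rw [← E1]; exact h2)
    rw [Nat.div_div_eq_div_mul, ← pow_add]
    simpa using hh
  · have E1 : κ + 2 * lm + e = ((κ - x) + 2 * (lm - y)) + (e + (x + 2 * y)) := by omega
    have hh := V1_coord (lm - y) y ((κ - x) + 2 * (lm - y)) (e + (x + 2 * y)) (κ + lm + e) q b d
      (by omega) (by omega) (by
        refine hq2.le.trans (Nat.pow_le_pow_right (by norm_num) ?_)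
        omega) (by
        rw [← E1]
        have hp : (0 : ℤ) < ((2 ^ (κ + 2 * lm + e) : ℕ) : ℤ) := by positivity
        have := hp.trans h3
        exact (mul_pos_iff_of_pos_left (by positivity)).mp this) (by rw [← E1]; exact h4)
    rw [Nat.div_div_eq_div_mul, ← pow_add]
    simpa using hh

theorem hitB_of_shell (κ lm s e x y g d a b q : ℕ) (hs : 1 ≤ s) (hx : x < s) (hy : y < s)
    (hκ : 20 * s ≤ κ) (hl : 20 * s ≤ lm) (hq : q ∈ shl κ lm s e x y g d a b) :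
    hitB κ lm (12 * s) s (a / 2 ^ e) (b / 2 ^ e) g d := by

  exact ⟨x, hx, y, hy, shell_hit κ lm s e x y g d a b q hs hx hy hκ hl hq⟩

/-- signed position of a shell element in the first coordinate -/
noncomputable def pos1 (κ lm e g a q : ℕ) : ℝ :=
  (((((q : ℤ) * a - (g : ℤ) * 2 ^ (κ + lm + e)) % (2 ^ (2 * κ + lm + e) : ℕ) : ℤ)) : ℝ) /
    ((2 ^ (2 * κ + lm + e) : ℕ) : ℝ)

noncomputable def pos2 (κ lm e d b q : ℕ) : ℝ :=
  (((((q : ℤ) * b - (d : ℤ) * 2 ^ (κ + lm + e)) % (2 ^ (κ + 2 * lm + e) : ℕ) : ℤ)) : ℝ) /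
    ((2 ^ (κ + 2 * lm + e) : ℕ) : ℝ)

theorem shl_pos (κ lm s e x y g d a b q : ℕ) (hx : x ≤ κ) (hy : y ≤ lm)
    (hq : q ∈ shl κ lm s e x y g d a b) :
    1 / 2 ^ (κ - x + 1) < pos1 κ lm e g a q ∧ pos1 κ lm e g a q < 1 / 2 ^ (κ - x) ∧
    1 / 2 ^ (lm - y + 1) < pos2 κ lm e d b q ∧ pos2 κ lm e d b q < 1 / 2 ^ (lm - y) ∧
    2 ^ (κ - x + (lm - y) - 12 * s) < q ∧ q < 2 ^ (κ - x + (lm - y) - 12 * s + 1) := by

  unfold shl shell at hq
  simp only [mem_filter, mem_Ioo] at hq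
  obtain ⟨⟨hq1, hq2⟩, h1, h2, h3, h4⟩ := hq
  unfold pos1 pos2
  have P1 : (0 : ℝ) < ((2 ^ (2 * κ + lm + e) : ℕ) : ℝ) := by positivity
  have P2 : (0 : ℝ) < ((2 ^ (κ + 2 * lm + e) : ℕ) : ℝ) := by positivity
  set R1 := ((q : ℤ) * a - (g : ℤ) * 2 ^ (κ + lm + e)) % ((2 ^ (2 * κ + lm + e) : ℕ) : ℤ) with hR1
  set R2 := ((q : ℤ) * b - (d : ℤ) * 2 ^ (κ + lm + e)) % ((2 ^ (κ + 2 * lm + e) : ℕ) : ℤ) with hR2
  have h1' : ((2 ^ (2 * κ + lm + e) : ℕ) : ℝ) < 2 ^ (κ - x + 1) * (R1 : ℝ) := by exact_mod_cast h1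
  have h2' : 2 ^ (κ - x) * (R1 : ℝ) < ((2 ^ (2 * κ + lm + e) : ℕ) : ℝ) := by exact_mod_cast h2
  have h3' : ((2 ^ (κ + 2 * lm + e) : ℕ) : ℝ) < 2 ^ (lm - y + 1) * (R2 : ℝ) := by exact_mod_cast h3
  have h4' : 2 ^ (lm - y) * (R2 : ℝ) < ((2 ^ (κ + 2 * lm + e) : ℕ) : ℝ) := by exact_mod_cast h4
  refine ⟨?_, ?_, ?_, ?_, hq1, hq2⟩
  · rw [div_lt_div_iff₀ (by positivity) P1]; linarith
  · rw [div_lt_div_iff₀ P1 (by positivity)]; linarith
  · rw [div_lt_div_iff₀ (by positivity) P2]; linarith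
  · rw [div_lt_div_iff₀ P2 (by positivity)]; linarith

private lemma V1_diff (Q : ℕ) (hQ : 0 < Q) (a : ℕ) (G : ℤ) (q q' : ℕ) (h : q' ≤ q) :
    ∃ z : ℤ, ((((q : ℤ) * a - G) % (Q : ℤ) : ℤ) : ℝ) / (Q : ℝ) -
        ((((q' : ℤ) * a - G) % (Q : ℤ) : ℤ) : ℝ) / (Q : ℝ) =
      ((q - q' : ℕ) : ℝ) * a / (Q : ℝ) - z := by
  have P : (0 : ℝ) < (Q : ℝ) := by exact_mod_cast hQ
  have e1 := Int.emod_add_mul_ediv ((q : ℤ) * a - G) (Q : ℤ)
  have e2 := Int.emod_add_mul_ediv ((q' : ℤ) * a - G) (Q : ℤ)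
  refine ⟨((q : ℤ) * a - G) / (Q : ℤ) - ((q' : ℤ) * a - G) / (Q : ℤ), ?_⟩
  set r1 := ((q : ℤ) * a - G) % (Q : ℤ)
  set r2 := ((q' : ℤ) * a - G) % (Q : ℤ)
  set z1 := ((q : ℤ) * a - G) / (Q : ℤ)
  set z2 := ((q' : ℤ) * a - G) / (Q : ℤ)
  have e1R : (r1 : ℝ) + Q * z1 = q * a - G := by exact_mod_cast e1
  have e2R : (r2 : ℝ) + Q * z2 = q' * a - G := by exact_mod_cast e2
  rw [Nat.cast_sub h]
  push_cast
  field_simp
  linarith

/-- `pos1 q - pos1 q' ≡ (q - q') a/Q1` modulo `1` -/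
theorem pos1_diff (κ lm e g a q q' : ℕ) (h : q' ≤ q) :
    ∃ z : ℤ, pos1 κ lm e g a q - pos1 κ lm e g a q' =
      ((q - q' : ℕ) : ℝ) * a / ((2 ^ (2 * κ + lm + e) : ℕ) : ℝ) - z := by

  exact V1_diff (2 ^ (2 * κ + lm + e)) (by positivity) a ((g : ℤ) * 2 ^ (κ + lm + e)) q q' h

theorem pos2_diff (κ lm e d b q q' : ℕ) (h : q' ≤ q) :
    ∃ z : ℤ, pos2 κ lm e d b q - pos2 κ lm e d b q' =
      ((q - q' : ℕ) : ℝ) * b / ((2 ^ (κ + 2 * lm + e) : ℕ) : ℝ) - z := by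

  exact V1_diff (2 ^ (κ + 2 * lm + e)) (by positivity) b ((d : ℤ) * 2 ^ (κ + lm + e)) q q' h

private lemma V1_pos0 {n : ℕ} {u : ℝ} (h : 1 / 2 ^ n < u) : 0 < u :=
  lt_trans (by positivity) h

private lemma V1_absdiff (κ x x' s : ℕ) (u v : ℝ) (hx : x < s) (hx' : x' < s) (hxκ : x ≤ κ)
    (hxκ' : x' ≤ κ) (hu : 0 < u) (hu' : u < 1 / 2 ^ (κ - x)) (hv : 0 < v)
    (hv' : v < 1 / 2 ^ (κ - x')) : |u - v| < 2 ^ (s + 1) / 2 ^ κ := by
  have hh : ∀ t : ℕ, t < s → t ≤ κ → (1 : ℝ) / 2 ^ (κ - t) ≤ 2 ^ (s + 1) / 2 ^ κ := by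
    intro t ht htκ
    rw [div_le_div_iff₀ (by positivity) (by positivity), one_mul, ← pow_add]
    apply pow_le_pow_right₀ (by norm_num)
    omega
  have h1 := hh x hx hxκ
  have h2 := hh x' hx' hxκ'
  rw [abs_lt]
  constructor <;> linarith

/-- differences of shell elements are returns in the large box -/
theorem shell_diff (κ lm s e x y x' y' g d a b q q' : ℕ) (hs : 1 ≤ s) (hx : x < s) (hy : y < s)
    (hx' : x' < s) (hy' : y' < s) (hκ : 20 * s ≤ κ) (hl : 20 * s ≤ lm)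
    (hq : q ∈ shl κ lm s e x y g d a b) (hq' : q' ∈ shl κ lm s e x' y' g d a b) (hlt : q' < q) :
    1 ≤ q - q' ∧ q - q' ≤ 2 ^ (κ + lm - 12 * s + 1) ∧
      nd (((q - q' : ℕ) : ℝ) * a / ((2 ^ (2 * κ + lm + e) : ℕ) : ℝ)) < 2 ^ (s + 1) / 2 ^ κ ∧
      nd (((q - q' : ℕ) : ℝ) * b / ((2 ^ (κ + 2 * lm + e) : ℕ) : ℝ)) < 2 ^ (s + 1) / 2 ^ lm := by

  have p1 := shl_pos κ lm s e x y g d a b q (by omega) (by omega) hq
  have p2 := shl_pos κ lm s e x' y' g d a b q' (by omega) (by omega) hq'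
  obtain ⟨a1, a2, a3, a4, a5, a6⟩ := p1
  obtain ⟨c1, c2, c3, c4, c5, c6⟩ := p2
  refine ⟨by omega, ?_, ?_, ?_⟩
  · have : 2 ^ (κ - x + (lm - y) - 12 * s + 1) ≤ 2 ^ (κ + lm - 12 * s + 1) :=
      Nat.pow_le_pow_right (by norm_num) (by omega)
    omega
  · obtain ⟨z, hz⟩ := pos1_diff κ lm e g a q q' hlt.le
    refine (nd_le _ z).trans_lt ?_
    rw [← hz]
    exact V1_absdiff κ x x' s _ _ (by omega) (by omega) (by omega) (by omega) (V1_pos0 a1) a2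
      (V1_pos0 c1) c2
  · obtain ⟨z, hz⟩ := pos2_diff κ lm e d b q q' hlt.le
    refine (nd_le _ z).trans_lt ?_
    rw [← hz]
    exact V1_absdiff lm y y' s _ _ (by omega) (by omega) (by omega) (by omega) (V1_pos0 a3) a4
      (V1_pos0 c3) c4

private lemma V1_lev (m n : ℕ) (u : ℝ) (h : 1 / 2 ^ (m + 1) < u) (h' : u < 1 / 2 ^ n) : n ≤ m := by
  by_contra hc
  have h1 : m + 1 ≤ n := by omega
  have h2 : (1 : ℝ) / 2 ^ n ≤ 1 / 2 ^ (m + 1) := by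
    apply one_div_le_one_div_of_le (by positivity)
    exact pow_le_pow_right₀ (by norm_num) h1
  linarith

/-- shells of different tests are disjoint (`pos1` determines `x`, then `q` and `k` determine `l`) -/
theorem shell_disj (κ lm s e x y x' y' g d a b q : ℕ) (hs : 1 ≤ s) (hx : x < s) (hy : y < s)
    (hx' : x' < s) (hy' : y' < s) (hκ : 20 * s ≤ κ) (hl : 20 * s ≤ lm)
    (hq : q ∈ shl κ lm s e x y g d a b) (hq' : q ∈ shl κ lm s e x' y' g d a b) :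
    x = x' ∧ y = y' := by

  have p1 := shl_pos κ lm s e x y g d a b q (by omega) (by omega) hq
  have p2 := shl_pos κ lm s e x' y' g d a b q (by omega) (by omega) hq'
  obtain ⟨a1, a2, a3, a4, a5, a6⟩ := p1
  obtain ⟨c1, c2, c3, c4, c5, c6⟩ := p2
  have h1 := V1_lev (κ - x) (κ - x') _ a1 c2
  have h2 := V1_lev (κ - x') (κ - x) _ c1 a2
  have h3 := V1_lev (lm - y) (lm - y') _ a3 c4
  have h4 := V1_lev (lm - y') (lm - y) _ c3 a4
  omega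

/-- The smoothed count is at most the cardinality of the shell: a nonzero term has `q = T + t + t'` with
`2^ρ < q < 2^(ρ+1)` and `(q a - G1) mod Q1 ∈ (2 w1, 4 w1)`, `w1 = Q1/2^(k+2)` (definition of `btri`), and for fixed `q`
`∑_{t+t'=q-T} tri pw ≤ ∑ pw = 1`, `btri ≤ 1`. -/
theorem ZZ_le_shell (κ lm s e x y g d a b n A : ℕ) (hs : 1 ≤ s) (hx : x < s) (hy : y < s)
    (hκ : 20 * s ≤ κ) (hl : 20 * s ≤ lm) (hn : 0 < n)
    (hA : A * n ≤ 2 ^ (κ - x + (lm - y) - 12 * s - 2)) :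
    ZZ (2 ^ (κ - x + (lm - y) - 12 * s - 2)) (3 * 2 ^ (κ - x + (lm - y) - 12 * s - 1)) n A
      (2 ^ (κ + lm + e + x - 2)) (2 ^ (2 * κ + lm + e)) (2 ^ (κ + lm + e + y - 2)) (2 ^ (κ + 2 * lm + e))
      ((g : ℤ) * 2 ^ (κ + lm + e) + 3 * 2 ^ (κ + lm + e + x - 2))
      ((d : ℤ) * 2 ^ (κ + lm + e) + 3 * 2 ^ (κ + lm + e + y - 2)) a b ≤
      ((shl κ lm s e x y g d a b).card : ℝ) := by

  classical
  set ρ := κ - x + (lm - y) - 12 * s with hρ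
  have hρ2 : 2 ≤ ρ := by omega
  set L : ℕ := 2 ^ (ρ - 2) with hL
  have hLp : 0 < L := by positivity
  have e1 : (2 : ℤ) ^ (ρ - 1) = 2 * (L : ℤ) := by
    have : ρ - 1 = (ρ - 2) + 1 := by omega
    rw [this, pow_succ, hL]; push_cast; ring
  have e2 : 2 ^ ρ = 4 * L := by
    have : ρ = (ρ - 2) + 2 := by omega
    rw [hL]
    nth_rewrite 1 [this]
    rw [pow_add]; ring
  set S := shl κ lm s e x y g d a b with hS
  set w1 : ℕ := 2 ^ (κ + lm + e + x - 2) with hw1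
  set w2 : ℕ := 2 ^ (κ + lm + e + y - 2) with hw2
  have hQ1 : 2 ^ (2 * κ + lm + e) = 2 ^ (κ - x) * (4 * w1) := by
    have : 2 * κ + lm + e = (κ - x) + (2 + (κ + lm + e + x - 2)) := by omega
    rw [this, pow_add, pow_add, hw1]; ring
  have hQ2 : 2 ^ (κ + 2 * lm + e) = 2 ^ (lm - y) * (4 * w2) := by
    have : κ + 2 * lm + e = (lm - y) + (2 + (κ + lm + e + y - 2)) := by omega
    rw [this, pow_add, pow_add, hw2]; ring
  have hw1p : 0 < w1 := by positivity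
  have hw2p : 0 < w2 := by positivity
  have hle1 : 4 * w1 ≤ 2 ^ (2 * κ + lm + e) := by
    rw [hQ1]; exact Nat.le_mul_of_pos_left _ (by positivity)
  have hle2 : 4 * w2 ≤ 2 ^ (κ + 2 * lm + e) := by
    rw [hQ2]; exact Nat.le_mul_of_pos_left _ (by positivity)
  -- the key claim
  have key : ∀ t ∈ Ioo (-(L : ℤ)) L, ∀ t' ∈ Icc (-((A * n : ℕ) : ℤ)) ((A * n : ℕ) : ℤ),
      btri w1 (2 ^ (2 * κ + lm + e)) ((3 * 2 ^ (ρ - 1) + t + t') * (a : ℤ) -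
        ((g : ℤ) * 2 ^ (κ + lm + e) + 3 * 2 ^ (κ + lm + e + x - 2))) ≠ 0 →
      btri w2 (2 ^ (κ + 2 * lm + e)) ((3 * 2 ^ (ρ - 1) + t + t') * (b : ℤ) -
        ((d : ℤ) * 2 ^ (κ + lm + e) + 3 * 2 ^ (κ + lm + e + y - 2))) ≠ 0 →
      (3 * 2 ^ (ρ - 1) + t + t').toNat ∈ S ∧ 0 ≤ 3 * 2 ^ (ρ - 1) + t + t' := by
    intro t ht t' ht' hb1 hb2
    rw [mem_Ioo] at ht
    rw [mem_Icc] at ht'
    have hAn : ((A * n : ℕ) : ℤ) ≤ L := by exact_mod_cast hA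
    have hN0 : 0 ≤ 3 * 2 ^ (ρ - 1) + t + t' := by rw [e1]; omega
    refine ⟨?_, hN0⟩
    set N : ℤ := 3 * 2 ^ (ρ - 1) + t + t' with hN
    have hNe : N = 6 * (L : ℤ) + t + t' := by rw [hN, e1]; ring
    have hb1' : btri w1 (2 ^ (2 * κ + lm + e)) (N * (a : ℤ) -
        ((g : ℤ) * 2 ^ (κ + lm + e) + 3 * (w1 : ℤ))) ≠ 0 := by
      rw [hw1]; push_cast; exact hb1
    have hb2' : btri w2 (2 ^ (κ + 2 * lm + e)) (N * (b : ℤ) -
        ((d : ℤ) * 2 ^ (κ + lm + e) + 3 * (w2 : ℤ))) ≠ 0 := by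
      rw [hw2]; push_cast; exact hb2
    have r1 := V1_btri w1 _ _ _ hle1 hb1'
    have r2 := V1_btri w2 _ _ _ hle2 hb2'
    have hNt : ((N.toNat : ℕ) : ℤ) = N := Int.toNat_of_nonneg hN0
    rw [hS]
    unfold shl shell
    simp only [mem_filter, mem_Ioo]
    rw [hNt]
    have q1 : (((2 ^ (2 * κ + lm + e) : ℕ)) : ℤ) = 2 ^ (κ - x) * (4 * (w1 : ℤ)) := by
      rw [hQ1]; push_cast; ring
    have q2 : (((2 ^ (κ + 2 * lm + e) : ℕ)) : ℤ) = 2 ^ (lm - y) * (4 * (w2 : ℤ)) := by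
      rw [hQ2]; push_cast; ring
    have pk : (0 : ℤ) < 2 ^ (κ - x) := by positivity
    have pl : (0 : ℤ) < 2 ^ (lm - y) := by positivity
    refine ⟨⟨?_, ?_⟩, ?_, ?_, ?_, ?_⟩
    · rw [← hρ, e2]; omega
    · rw [← hρ, pow_succ, e2]; omega
    · calc (((2 ^ (2 * κ + lm + e) : ℕ)) : ℤ) = 2 ^ (κ - x) * (4 * (w1 : ℤ)) := q1
        _ = 2 ^ (κ - x + 1) * (2 * (w1 : ℤ)) := by rw [pow_succ]; ring
        _ < _ := by
          apply mul_lt_mul_of_pos_left r1.1 (by positivity)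
    · calc _ < 2 ^ (κ - x) * (4 * (w1 : ℤ)) := mul_lt_mul_of_pos_left r1.2 pk
        _ = _ := q1.symm
    · calc (((2 ^ (κ + 2 * lm + e) : ℕ)) : ℤ) = 2 ^ (lm - y) * (4 * (w2 : ℤ)) := q2
        _ = 2 ^ (lm - y + 1) * (2 * (w2 : ℤ)) := by rw [pow_succ]; ring
        _ < _ := by
          apply mul_lt_mul_of_pos_left r2.1 (by positivity)
    · calc _ < 2 ^ (lm - y) * (4 * (w2 : ℤ)) := mul_lt_mul_of_pos_left r2.2 pl
        _ = _ := q2.symm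
  have hwQ1 : w1 ≤ 2 ^ (2 * κ + lm + e) := by omega
  have hwQ2 : w2 ≤ 2 ^ (κ + 2 * lm + e) := by omega
  unfold ZZ
  calc _ ≤ ∑ t ∈ Ioo (-(L : ℤ)) L, ∑ t' ∈ Icc (-((A * n : ℕ) : ℤ)) ((A * n : ℕ) : ℤ),
        pw n A t' * (if ((3 * 2 ^ (ρ - 1) + t + t').toNat ∈ S ∧ 0 ≤ 3 * 2 ^ (ρ - 1) + t + t')
          then 1 else 0) := by
        apply sum_le_sum
        intro t ht
        apply sum_le_sum
        intro t' ht'
        set B1 := btri w1 (2 ^ (2 * κ + lm + e)) ((3 * 2 ^ (ρ - 1) + t + t') * (a : ℤ) -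
          ((g : ℤ) * 2 ^ (κ + lm + e) + 3 * 2 ^ (κ + lm + e + x - 2))) with hB1
        set B2 := btri w2 (2 ^ (κ + 2 * lm + e)) ((3 * 2 ^ (ρ - 1) + t + t') * (b : ℤ) -
          ((d : ℤ) * 2 ^ (κ + lm + e) + 3 * 2 ^ (κ + lm + e + y - 2))) with hB2
        have u1 := tri_nonneg L t
        have u2 := tri_le_one L t
        have u3 := pw_nonneg n A t'
        have u4 : 0 ≤ B1 := btri_nonneg _ _ _
        have u5 : B1 ≤ 1 := btri_le_one _ _ hwQ1 _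
        have u6 : 0 ≤ B2 := btri_nonneg _ _ _
        have u7 : B2 ≤ 1 := btri_le_one _ _ hwQ2 _
        by_cases hB : B1 = 0 ∨ B2 = 0
        · have : tri L t * pw n A t' * B1 * B2 = 0 := by
            rcases hB with h | h <;> rw [h] <;> ring
          rw [this]
          apply mul_nonneg u3
          split_ifs <;> norm_num
        · push Not at hB
          rw [if_pos (key t ht t' ht' hB.1 hB.2), mul_one]
          calc tri L t * pw n A t' * B1 * B2 ≤ 1 * pw n A t' * 1 * 1 := by gcongr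
            _ = pw n A t' := by ring
    _ = ∑ t' ∈ Icc (-((A * n : ℕ) : ℤ)) ((A * n : ℕ) : ℤ), pw n A t' *
          (((Ioo (-(L : ℤ)) L).filter (fun t => (3 * 2 ^ (ρ - 1) + t + t').toNat ∈ S ∧
            0 ≤ 3 * 2 ^ (ρ - 1) + t + t')).card : ℝ) := by
        rw [sum_comm]
        apply sum_congr rfl
        intro t' _
        rw [← mul_sum, card_filter]
        push_cast
        rfl
    _ ≤ ∑ t' ∈ Icc (-((A * n : ℕ) : ℤ)) ((A * n : ℕ) : ℤ), pw n A t' * (S.card : ℝ) := by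
        apply sum_le_sum
        intro t' _
        apply mul_le_mul_of_nonneg_left _ (pw_nonneg n A t')
        refine Nat.cast_le.mpr ?_
        apply card_le_card_of_injOn (fun t => (3 * 2 ^ (ρ - 1) + t + t').toNat)
        · intro t ht
          simp only [coe_filter, Set.mem_ofPred_eq] at ht
          exact ht.2.1
        · intro t ht u hu htu
          simp only [coe_filter, Set.mem_ofPred_eq] at ht hu
          simp only at htu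
          have h1 := ht.2.2
          have h2 := hu.2.2
          have h3 : ((3 * 2 ^ (ρ - 1) + t + t').toNat : ℤ) = ((3 * 2 ^ (ρ - 1) + u + t').toNat : ℤ) := by
            rw [htu]
          rw [Int.toNat_of_nonneg h1, Int.toNat_of_nonneg h2] at h3
          linarith
    _ = (S.card : ℝ) := by
        rw [← sum_mul, pw_sum n A hn, one_mul]

end MP_5e4520_nt.Ex
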