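import Pool.Agent.Lib.MP_5e4520_ntE.L3
import Pool.Agent.Lib.MP_5e4520_ntE.V1
set_option autoImplicit false

/-!
# Large blocks: Fourier expansion for a fixed pair `(a, b)`
-/

namespace MP_5e4520_nt.Ex

open Finset

private theorem L4_split (κ σ m : ℕ) (p : ℕ → ℝ) (g0 w : ℕ) (h : ℤ) :
    ‖∑ C ∈ range (2 ^ (3 * σ)), (p C : ℂ) *
      ee (-((h : ℝ) * ((((g0 * 2 ^ (3 * σ) + C : ℕ) : ℤ) * 2 ^ m + 3 * (w : ℤ) : ℤ) : ℝ) /
        ((2 ^ (κ + m) : ℕ) : ℝ)))‖ = nu κ σ p h := by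
  have key : ∀ C ∈ range (2 ^ (3 * σ)), (p C : ℂ) *
      ee (-((h : ℝ) * ((((g0 * 2 ^ (3 * σ) + C : ℕ) : ℤ) * 2 ^ m + 3 * (w : ℤ) : ℤ) : ℝ) /
        ((2 ^ (κ + m) : ℕ) : ℝ))) =
      ee (-((h : ℝ) * ((g0 * 2 ^ (3 * σ) * 2 ^ m + 3 * (w : ℝ)) / 2 ^ (κ + m)))) *
        ((p C : ℂ) * ee (-(C * ((h : ℝ) / 2 ^ κ)))) := by
    intro C _
    have e : -((h : ℝ) * ((((g0 * 2 ^ (3 * σ) + C : ℕ) : ℤ) * 2 ^ m + 3 * (w : ℤ) : ℤ) : ℝ) /
        ((2 ^ (κ + m) : ℕ) : ℝ)) =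
        -((h : ℝ) * ((g0 * 2 ^ (3 * σ) * 2 ^ m + 3 * (w : ℝ)) / 2 ^ (κ + m))) +
          -(C * ((h : ℝ) / 2 ^ κ)) := by
      push_cast
      rw [pow_add]
      field_simp
      ring
    rw [e, ee_add]
    ring
  rw [sum_congr rfl key, ← mul_sum, norm_mul, norm_ee, one_mul]
  rfl

/-- one frequency pair -/
private theorem L4_re (c c' f t1 t2 B : ℝ) (E F1 F2 : ℂ) (hc : 0 ≤ c) (hc' : 0 ≤ c') (hf : 0 ≤ f)
    (hE : ‖E‖ = 1) (h1 : ‖F1‖ = t1) (h2 : ‖F2‖ = t2) (ht1 : t1 ≤ 1) (ht2 : t2 ≤ 1)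
    (hB : c * c' * f ≤ B) :
    -(c * c' * f) ≤ ((c : ℂ) * (c' : ℂ) * (f : ℂ) * (E * F1 * F2)).re ∧
    -(B * (t1 * t2)) ≤ ((c : ℂ) * (c' : ℂ) * (f : ℂ) * (E * F1 * F2)).re := by
  have ht10 : 0 ≤ t1 := by rw [← h1]; exact norm_nonneg _
  have ht20 : 0 ≤ t2 := by rw [← h2]; exact norm_nonneg _
  have e1 : ‖(c : ℂ) * (c' : ℂ) * (f : ℂ) * (E * F1 * F2)‖ = c * c' * f * (t1 * t2) := by
    rw [norm_mul, norm_mul, norm_mul, norm_mul, norm_mul, hE, h1, h2, one_mul, Complex.norm_real,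
      Complex.norm_real, Complex.norm_real, Real.norm_eq_abs, Real.norm_eq_abs, Real.norm_eq_abs,
      abs_of_nonneg hc, abs_of_nonneg hc', abs_of_nonneg hf]
  have e2 := Complex.abs_re_le_norm ((c : ℂ) * (c' : ℂ) * (f : ℂ) * (E * F1 * F2))
  rw [e1, abs_le] at e2
  have hn : 0 ≤ c * c' * f := by positivity
  have h3 : t1 * t2 ≤ 1 := by
    calc t1 * t2 ≤ 1 * 1 := mul_le_mul ht1 ht2 ht20 (by norm_num)
      _ = 1 := by ring
  refine ⟨le_trans ?_ e2.1, le_trans ?_ e2.1⟩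
  · have := mul_le_mul_of_nonneg_left h3 hn
    linarith
  · have := mul_le_mul_of_nonneg_right hB (mul_nonneg ht10 ht20)
    linarith

/-- the expansion with the densities -/
private theorem L4_exp (L : ℕ) (hL : 0 < L) (T : ℤ) (w1 Q1 w2 Q2 n : ℕ) (hQ1 : 0 < Q1)
    (he1 : 2 ∣ Q1) (hQ2 : 0 < Q2) (he2 : 2 ∣ Q2) (a b : ℤ) (G1 G2 : ℕ → ℤ) (p2 p4 : ℕ → ℝ) :
    ((∑ C ∈ range n, ∑ D ∈ range n, p2 C * p4 D * ZZ L T 1 0 w1 Q1 w2 Q2 (G1 C) (G2 D) a b : ℝ) : ℂ) =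
      ∑ h ∈ SR Q1, ∑ h' ∈ SR Q2, ((ct w1 Q1 h : ℝ) : ℂ) * ((ct w2 Q2 h' : ℝ) : ℂ) *
        ((fej L ((h : ℝ) * a / Q1 + (h' : ℝ) * b / Q2) : ℝ) : ℂ) *
        (ee (T * ((h : ℝ) * a / Q1 + (h' : ℝ) * b / Q2)) *
          (∑ C ∈ range n, (p2 C : ℂ) * ee (-((h : ℝ) * G1 C / Q1))) *
          (∑ D ∈ range n, (p4 D : ℂ) * ee (-((h' : ℝ) * G2 D / Q2)))) := by
  have h1 : ((∑ C ∈ range n, ∑ D ∈ range n,
      p2 C * p4 D * ZZ L T 1 0 w1 Q1 w2 Q2 (G1 C) (G2 D) a b : ℝ) : ℂ) =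
      ∑ C ∈ range n, ∑ D ∈ range n, ∑ h ∈ SR Q1, ∑ h' ∈ SR Q2,
        ((ct w1 Q1 h : ℝ) : ℂ) * ((ct w2 Q2 h' : ℝ) : ℂ) *
        ((fej L ((h : ℝ) * a / Q1 + (h' : ℝ) * b / Q2) : ℝ) : ℂ) *
        (ee (T * ((h : ℝ) * a / Q1 + (h' : ℝ) * b / Q2)) *
          ((p2 C : ℂ) * ee (-((h : ℝ) * G1 C / Q1))) * ((p4 D : ℂ) * ee (-((h' : ℝ) * G2 D / Q2)))) := by
    rw [Complex.ofReal_sum]
    refine sum_congr rfl fun C _ => ?_
    rw [Complex.ofReal_sum]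
    refine sum_congr rfl fun D _ => ?_
    rw [Complex.ofReal_mul, ZZ_fourier L hL T 1 0 w1 Q1 w2 Q2 (by norm_num) hQ1 he1 hQ2 he2, mul_sum]
    refine sum_congr rfl fun h _ => ?_
    rw [mul_sum]
    refine sum_congr rfl fun h' _ => ?_
    have e : ee (-((h : ℝ) * G1 C / Q1 + (h' : ℝ) * G2 D / Q2)) =
        ee (-((h : ℝ) * G1 C / Q1)) * ee (-((h' : ℝ) * G2 D / Q2)) := by
      rw [← ee_add]
      congr 1
      ring
    rw [e, pow_zero, Complex.ofReal_one, Complex.ofReal_mul]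
    ring
  rw [h1]
  rw [sum_congr rfl fun C _ => sum_comm, sum_comm]
  refine sum_congr rfl fun h _ => ?_
  rw [sum_congr rfl fun C _ => sum_comm, sum_comm]
  refine sum_congr rfl fun h' _ => ?_
  rw [mul_assoc (ee _), sum_mul_sum, mul_sum, mul_sum]
  refine sum_congr rfl fun C _ => ?_
  rw [mul_sum, mul_sum]
  refine sum_congr rfl fun D _ => ?_
  ring

/-- JOB L4.  One test.  `k = κ-x`, `l = lm-y`, `ρ = k+l-12s`, `L = 2^(ρ-2)`.  `ZZ_fourier` (`A = 0`); the shift is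
`G1 = (g0 2^(3σ) + C) 2^(κ+lm) + 3·2^(κ+lm+x-2)`, `G1/Q1 = C/2^κ + const`, so `|∑_C p2(C) e(-h G1/Q1)| = nu κ σ p2 h`.
The term `h = h' = 0` is `m2 m4 · 2^(-k-2) 2^(-l-2) 2^(ρ-2) = m2 m4/(64·2^(12s))` (`ct_zero`); the others are bounded by absolute values:
`ct ct' fej nu nu'`; for `D ∈ NB` use `ct ct' fej ≤ 1/(64·2^(12s))` (`ct_le`, `fej L ≤ L`), for the others `nu ≤ 1`. -/
theorem test_low (κ lm σ s x y a b g0 d0 : ℕ) (hp : ParC κ lm σ s) (hx : x < s) (hy : y < s)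
    (P2 P4 : ℝ) (p2 p4 : ℕ → ℝ) (h2 : DensC σ P2 p2) (h4 : DensC σ P4 p4) :
    (∑ C ∈ range (2 ^ (3 * σ)), p2 C) * (∑ D ∈ range (2 ^ (3 * σ)), p4 D) / (64 * 2 ^ (12 * s)) -
      (∑ h ∈ SR (2 ^ (2 * κ + lm)), ∑ h' ∈ SR (2 ^ (κ + 2 * lm)),
        (open Classical in if (h ≠ 0 ∨ h' ≠ 0) ∧ ¬ (core1 s κ h ∧ core1 s lm h' ∧
            nd ((h : ℝ) * a / 2 ^ (2 * κ + lm) + (h' : ℝ) * b / 2 ^ (κ + 2 * lm)) ≤
              2 ^ (50 * s) / 2 ^ (κ + lm)) then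
          ct (2 ^ (κ + lm + x - 2)) (2 ^ (2 * κ + lm)) h *
          ct (2 ^ (κ + lm + y - 2)) (2 ^ (κ + 2 * lm)) h' *
            fej (2 ^ (κ - x + (lm - y) - 12 * s - 2))
              ((h : ℝ) * a / 2 ^ (2 * κ + lm) + (h' : ℝ) * b / 2 ^ (κ + 2 * lm))
        else 0)) -
      1 / (64 * 2 ^ (12 * s)) * ∑ D ∈ NB κ lm s a b, nu κ σ p2 D.1 * nu lm σ p4 D.2 ≤
    ∑ C ∈ range (2 ^ (3 * σ)), ∑ D ∈ range (2 ^ (3 * σ)), p2 C * p4 D *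
      ZZ (2 ^ (κ - x + (lm - y) - 12 * s - 2)) (3 * 2 ^ (κ - x + (lm - y) - 12 * s - 1)) 1 0
        (2 ^ (κ + lm + 0 + x - 2)) (2 ^ (2 * κ + lm + 0)) (2 ^ (κ + lm + 0 + y - 2))
        (2 ^ (κ + 2 * lm + 0))
        (((g0 * 2 ^ (3 * σ) + C : ℕ) : ℤ) * 2 ^ (κ + lm + 0) + 3 * 2 ^ (κ + lm + 0 + x - 2))
        (((d0 * 2 ^ (3 * σ) + D : ℕ) : ℤ) * 2 ^ (κ + lm + 0) + 3 * 2 ^ (κ + lm + 0 + y - 2)) a b := by
  classical
  have hs1 := hp.s1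
  have hsσ := hp.sσ
  have hk1 := hp.k1
  have hl1 := hp.l1
  simp only [add_zero]
  set Q1 : ℕ := 2 ^ (2 * κ + lm) with hQ1
  set Q2 : ℕ := 2 ^ (κ + 2 * lm) with hQ2
  set w1 : ℕ := 2 ^ (κ + lm + x - 2) with hw1
  set w2 : ℕ := 2 ^ (κ + lm + y - 2) with hw2
  set L : ℕ := 2 ^ (κ - x + (lm - y) - 12 * s - 2) with hL
  have pQ1 : 0 < Q1 := by positivity
  have pQ2 : 0 < Q2 := by positivity
  have pw1 : 0 < w1 := by positivity
  have pw2 : 0 < w2 := by positivity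
  have pL : 0 < L := by positivity
  have dQ1 : 2 ∣ Q1 := dvd_pow_self 2 (by omega)
  have dQ2 : 2 ∣ Q2 := dvd_pow_self 2 (by omega)
  have z1 : (0 : ℤ) ∈ SR Q1 := by
    unfold SR
    rw [mem_Ico]
    obtain ⟨m, hm⟩ := dQ1
    constructor <;> omega
  have z2 : (0 : ℤ) ∈ SR Q2 := by
    unfold SR
    rw [mem_Ico]
    obtain ⟨m, hm⟩ := dQ2
    constructor <;> omega
  have hprod : (w1 : ℝ) / Q1 * ((w2 : ℝ) / Q2) * L = 1 / (64 * 2 ^ (12 * s)) := by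
    rw [hw1, hw2, hQ1, hQ2, hL]
    push_cast
    rw [div_mul_div_comm, div_mul_eq_mul_div, div_eq_div_iff (by positivity) (by positivity), one_mul]
    have e64 : (64 : ℝ) = 2 ^ 6 := by norm_num
    rw [e64, ← pow_add, ← pow_add, ← pow_add, ← pow_add, ← pow_add]
    congr 1
    omega
  obtain ⟨c0, hc0⟩ : ∃ c0 : ℝ, c0 = 1 / (64 * 2 ^ (12 * s)) := ⟨_, rfl⟩
  have hc00 : 0 ≤ c0 := by rw [hc0]; positivity
  set θ : ℤ → ℤ → ℝ := fun h h' => (h : ℝ) * a / 2 ^ (2 * κ + lm) + (h' : ℝ) * b / 2 ^ (κ + 2 * lm)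
    with hθ
  have hexp := L4_exp L pL (3 * 2 ^ (κ - x + (lm - y) - 12 * s - 1)) w1 Q1 w2 Q2 (2 ^ (3 * σ)) pQ1 dQ1 pQ2 dQ2
    (a : ℤ) (b : ℤ)
    (fun C => ((g0 * 2 ^ (3 * σ) + C : ℕ) : ℤ) * 2 ^ (κ + lm) + 3 * 2 ^ (κ + lm + x - 2))
    (fun D => ((d0 * 2 ^ (3 * σ) + D : ℕ) : ℤ) * 2 ^ (κ + lm) + 3 * 2 ^ (κ + lm + y - 2)) p2 p4
  have hre := congrArg Complex.re hexp
  rw [Complex.ofReal_re] at hre
  rw [hre, Complex.re_sum]
  simp only [Complex.re_sum]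
  -- pointwise bound
  have hpt : ∀ h ∈ SR Q1, ∀ h' ∈ SR Q2,
      (if h = 0 ∧ h' = 0 then (∑ C ∈ range (2 ^ (3 * σ)), p2 C) * (∑ D ∈ range (2 ^ (3 * σ)), p4 D) * c0
        else 0) -
      (if (h ≠ 0 ∨ h' ≠ 0) ∧ ¬ (core1 s κ h ∧ core1 s lm h' ∧ nd (θ h h') ≤
          2 ^ (50 * s) / 2 ^ (κ + lm)) then ct w1 Q1 h * ct w2 Q2 h' * fej L (θ h h') else 0) -
      c0 * (if core1 s κ h ∧ core1 s lm h' ∧ nd (θ h h') ≤ 2 ^ (50 * s) / 2 ^ (κ + lm) then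
        nu κ σ p2 h * nu lm σ p4 h' else 0) ≤
      (((ct w1 Q1 h : ℝ) : ℂ) * ((ct w2 Q2 h' : ℝ) : ℂ) *
        ((fej L ((h : ℝ) * ((a : ℤ) : ℝ) / Q1 + (h' : ℝ) * ((b : ℤ) : ℝ) / Q2) : ℝ) : ℂ) *
        (ee (((3 * 2 ^ (κ - x + (lm - y) - 12 * s - 1) : ℤ) : ℝ) * ((h : ℝ) * ((a : ℤ) : ℝ) / Q1 + (h' : ℝ) * ((b : ℤ) : ℝ) / Q2)) *
          (∑ C ∈ range (2 ^ (3 * σ)), (p2 C : ℂ) * ee (-((h : ℝ) *
            ((((g0 * 2 ^ (3 * σ) + C : ℕ) : ℤ) * 2 ^ (κ + lm) + 3 * 2 ^ (κ + lm + x - 2) : ℤ) : ℝ) / Q1))) *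
          (∑ D ∈ range (2 ^ (3 * σ)), (p4 D : ℂ) * ee (-((h' : ℝ) *
            ((((d0 * 2 ^ (3 * σ) + D : ℕ) : ℤ) * 2 ^ (κ + lm) + 3 * 2 ^ (κ + lm + y - 2) : ℤ) : ℝ) / Q2))))).re := by
    intro h _ h' _
    have eθ : (h : ℝ) * ((a : ℤ) : ℝ) / Q1 + (h' : ℝ) * ((b : ℤ) : ℝ) / Q2 = θ h h' := by
      rw [hθ, hQ1, hQ2]
      push_cast
      ring
    rw [eθ]
    have n1 := L4_split κ σ (κ + lm) p2 g0 w1 h
    have n2 := L4_split lm σ (κ + lm) p4 d0 w2 h'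
    have k1 : κ + (κ + lm) = 2 * κ + lm := by ring
    have k2 : lm + (κ + lm) = κ + 2 * lm := by ring
    rw [k1, ← hQ1] at n1
    rw [k2, ← hQ2] at n2
    have v1 : ((w1 : ℕ) : ℤ) = 2 ^ (κ + lm + x - 2) := by rw [hw1]; push_cast; ring
    have v2 : ((w2 : ℕ) : ℤ) = 2 ^ (κ + lm + y - 2) := by rw [hw2]; push_cast; ring
    rw [v1] at n1
    rw [v2] at n2
    have hc := ct_nonneg w1 Q1 h
    have hc' := ct_nonneg w2 Q2 h'
    have hf := fej_nonneg L (θ h h')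
    have hB : ct w1 Q1 h * ct w2 Q2 h' * fej L (θ h h') ≤ c0 := by
      rw [hc0, ← hprod]
      have u1 := ct_le w1 Q1 pw1 h
      have u2 := ct_le w2 Q2 pw2 h'
      have u3 := fej_le L (θ h h')
      exact mul_le_mul (mul_le_mul u1 u2 hc' (by positivity)) u3 hf (by positivity)
    have hR := L4_re (ct w1 Q1 h) (ct w2 Q2 h') (fej L (θ h h')) (nu κ σ p2 h) (nu lm σ p4 h') c0
      (ee (((3 * 2 ^ (κ - x + (lm - y) - 12 * s - 1) : ℤ) : ℝ) * θ h h')) _ _ hc hc' hf (norm_ee _) n1 n2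
      (nu_le_one κ σ P2 p2 h2 h) (nu_le_one lm σ P4 p4 h4 h') hB
    by_cases hz : h = 0 ∧ h' = 0
    · obtain ⟨rfl, rfl⟩ := hz
      have nc : ¬ core1 s κ 0 := by
        unfold core1
        rw [abs_zero]
        have : (0 : ℤ) < 2 ^ (κ - 30 * s) := by positivity
        omega
      rw [if_pos ⟨rfl, rfl⟩, if_neg (by simp), if_neg (fun hh => nc hh.1)]
      have e0 : θ 0 0 = 0 := by rw [hθ]; simp
      rw [e0, ct_zero w1 Q1 pw1, ct_zero w2 Q2 pw2]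
      have f0 : fej L 0 = L := by
        unfold fej
        have hn' : (L : ℝ) ≠ 0 := by positivity
        simp only [mul_zero, ee_zero, sum_const, card_range, nsmul_eq_mul, mul_one, Complex.norm_natCast]
        rw [sq, mul_div_assoc, div_self hn', mul_one]
      rw [f0]
      simp only [Int.cast_zero, zero_mul, zero_div, neg_zero, mul_zero, ee_zero, mul_one, one_mul, sub_zero]
      rw [← Complex.ofReal_sum, ← Complex.ofReal_sum, ← Complex.ofReal_mul, ← Complex.ofReal_mul,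
        ← Complex.ofReal_mul, ← Complex.ofReal_mul, Complex.ofReal_re, hprod, ← hc0]
      exact le_of_eq (mul_comm _ _)
    · rw [if_neg hz]
      have hz' : h ≠ 0 ∨ h' ≠ 0 := by
        by_contra hcon
        push Not at hcon
        exact hz hcon
      by_cases hn : core1 s κ h ∧ core1 s lm h' ∧ nd (θ h h') ≤ 2 ^ (50 * s) / 2 ^ (κ + lm)
      · rw [if_neg (fun hh => hh.2 hn), if_pos hn, zero_sub, neg_zero, zero_sub]
        exact hR.2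
      · rw [if_pos ⟨hz', hn⟩, if_neg hn, zero_sub, mul_zero, sub_zero]
        exact hR.1
  refine le_trans (le_of_eq ?_) (sum_le_sum fun h hh => sum_le_sum fun h' hh' => hpt h hh h' hh')
  simp only [sum_sub_distrib]
  congr 1
  · congr 1
    obtain ⟨M, hM⟩ : ∃ M : ℝ, M = (∑ C ∈ range (2 ^ (3 * σ)), p2 C) * (∑ D ∈ range (2 ^ (3 * σ)), p4 D) :=
      ⟨_, rfl⟩
    rw [← hM, sum_eq_single (0 : ℤ), sum_eq_single (0 : ℤ)]
    · rw [if_pos ⟨rfl, rfl⟩, hc0]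
      ring
    · intro h' _ hh'
      rw [if_neg (fun hh => hh' hh.2)]
    · intro hh
      exact absurd z2 hh
    · intro h _ hh
      refine sum_eq_zero fun h' _ => ?_
      rw [if_neg (fun hh' => hh hh'.1)]
    · intro hh
      exact absurd z1 hh
  · rw [← hc0]
    simp only [← mul_sum]
    congr 1
    unfold NB
    rw [sum_filter, sum_product]

open Classical in
/-- Outside `Bad1` at most one element in all the shells together: two elements `q' < q` of shells give a return (`shell_diff`), counted by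
`hom`; equal elements of different shells are excluded by `shell_disj`.  If there is one, `hitB` holds (`hitB_of_shell`, `e = 0`). -/
theorem shells_le_one (κ lm σ s g d a b : ℕ) (hp : ParC κ lm σ s) (hb : ¬ Bad1 κ lm s a b) :
    ∑ x ∈ range s, ∑ y ∈ range s, ((shl κ lm s 0 x y g d a b).card : ℝ) ≤
      (if hitB κ lm (12 * s) s a b g d then 1 else 0) := by
  classical
  have hs1 := hp.s1
  have hsσ := hp.sσ
  have hk1 := hp.k1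
  have hl1 := hp.l1
  have hκ : 20 * s ≤ κ := by omega
  have hl : 20 * s ≤ lm := by omega
  have hh0 : hom (2 ^ (2 * κ + lm)) (2 ^ (κ + 2 * lm)) (2 ^ (κ + lm - 12 * s + 1))
    (2 ^ (s + 1) / 2 ^ κ) (2 ^ (s + 1) / 2 ^ lm) a b = 0 := by
    unfold Bad1 at hb
    push Not at hb
    exact Nat.le_zero.mp hb.2
  have hlt : ∀ x < s, ∀ y < s, ∀ x' < s, ∀ y' < s, ∀ q ∈ shl κ lm s 0 x y g d a b,
      ∀ q' ∈ shl κ lm s 0 x' y' g d a b, ¬ q' < q := by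
    intro x hx y hy x' hx' y' hy' q hq q' hq' hc
    obtain ⟨r1, r2, r3, r4⟩ := shell_diff κ lm s 0 x y x' y' g d a b q q' hs1 hx hy hx' hy' hκ hl hq hq' hc
    unfold hom at hh0
    rw [card_eq_zero] at hh0
    have hm : q - q' ∈ ((Icc 1 (2 ^ (κ + lm - 12 * s + 1))).filter (fun q : ℕ =>
        nd ((q : ℝ) * a / ((2 ^ (2 * κ + lm) : ℕ) : ℝ)) < 2 ^ (s + 1) / 2 ^ κ ∧
        nd ((q : ℝ) * b / ((2 ^ (κ + 2 * lm) : ℕ) : ℝ)) < 2 ^ (s + 1) / 2 ^ lm)) := by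
      rw [mem_filter, mem_Icc]
      exact ⟨⟨r1, r2⟩, r3, r4⟩
    have hm' : q - q' ∈ (∅ : Finset ℕ) := by
      rw [← hh0]
      convert hm
    exact absurd hm' (notMem_empty _)
  have heq : ∀ x < s, ∀ y < s, ∀ x' < s, ∀ y' < s, ∀ q ∈ shl κ lm s 0 x y g d a b,
      ∀ q' ∈ shl κ lm s 0 x' y' g d a b, q = q' ∧ x = x' ∧ y = y' := by
    intro x hx y hy x' hx' y' hy' q hq q' hq'
    have h1 := hlt x hx y hy x' hx' y' hy' q hq q' hq'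
    have h2 := hlt x' hx' y' hy' x hx y hy q' hq' q hq
    have h3 : q = q' := by omega
    subst h3
    exact ⟨rfl, shell_disj κ lm s 0 x y x' y' g d a b q hs1 hx hy hx' hy' hκ hl hq hq'⟩
  by_cases hex : ∃ x < s, ∃ y < s, ∃ q, q ∈ shl κ lm s 0 x y g d a b
  · obtain ⟨x0, hx0, y0, hy0, q0, hq0⟩ := hex
    have hit := hitB_of_shell κ lm s 0 x0 y0 g d a b q0 hs1 hx0 hy0 hκ hl hq0
    rw [pow_zero, Nat.div_one, Nat.div_one] at hit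
    rw [if_pos hit]
    have hle : ∀ x ∈ range s, ∀ y ∈ range s, ((shl κ lm s 0 x y g d a b).card : ℝ) ≤
        if x = x0 ∧ y = y0 then 1 else 0 := by
      intro x hx y hy
      rw [mem_range] at hx hy
      split_ifs with hxy
      · have : (shl κ lm s 0 x y g d a b).card ≤ 1 := by
          rw [card_le_one]
          intro q hq q' hq'
          exact (heq x hx y hy x hx y hy q hq q' hq').1
        exact_mod_cast this
      · have : (shl κ lm s 0 x y g d a b).card = 0 := by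
          rw [card_eq_zero, eq_empty_iff_forall_notMem]
          intro q hq
          exact hxy (heq x hx y hy x0 hx0 y0 hy0 q hq q0 hq0).2
        rw [this]
        simp
    refine (sum_le_sum fun x hx => sum_le_sum fun y hy => hle x hx y hy).trans (le_of_eq ?_)
    rw [sum_eq_single x0, sum_eq_single y0]
    · rw [if_pos ⟨rfl, rfl⟩]
    · intro y _ hy
      rw [if_neg (fun hh => hy hh.2)]
    · intro hh
      exact absurd (mem_range.2 hy0) hh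
    · intro x _ hx
      refine sum_eq_zero fun y _ => ?_
      rw [if_neg (fun hh => hx hh.1)]
    · intro hh
      exact absurd (mem_range.2 hx0) hh
  · have hz : ∑ x ∈ range s, ∑ y ∈ range s, ((shl κ lm s 0 x y g d a b).card : ℝ) = 0 := by
      refine sum_eq_zero fun x hx => sum_eq_zero fun y hy => ?_
      rw [mem_range] at hx hy
      have : (shl κ lm s 0 x y g d a b).card = 0 := by
        rw [card_eq_zero, eq_empty_iff_forall_notMem]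
        intro q hq
        exact hex ⟨x, hx, y, hy, q, hq⟩
      rw [this]
      simp
    rw [hz]
    split_ifs <;> norm_num

open Classical in
/-- Sum over `x, y < s` for a pair `(a,b)` that is not in `Bad1` (`ZZ_le_shell` with `n = 1`, `A = 0`, `e = 0`). -/
theorem pair_low (κ lm σ s a b g0 d0 : ℕ) (hp : ParC κ lm σ s) (hb : ¬ Bad1 κ lm s a b)
    (P2 P4 : ℝ) (p2 p4 : ℕ → ℝ) (h2 : DensC σ P2 p2) (h4 : DensC σ P4 p4) :
    (s : ℝ) ^ 2 / (64 * 2 ^ (12 * s)) *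
      ((∑ C ∈ range (2 ^ (3 * σ)), p2 C) * (∑ D ∈ range (2 ^ (3 * σ)), p4 D) -
        ∑ D ∈ NB κ lm s a b, nu κ σ p2 D.1 * nu lm σ p4 D.2) - 1 / 2 ^ (14 * s) ≤
    ∑ C ∈ range (2 ^ (3 * σ)), ∑ D ∈ range (2 ^ (3 * σ)), p2 C * p4 D *
      (if hitB κ lm (12 * s) s a b (g0 * 2 ^ (3 * σ) + C) (d0 * 2 ^ (3 * σ) + D) then 1 else 0) := by
  classical
  have hs1 := hp.s1
  have hsσ := hp.sσ
  have hk1 := hp.k1
  have hl1 := hp.l1
  have hκ : 20 * s ≤ κ := by omega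
  have hl : 20 * s ≤ lm := by omega
  have hY : Y1 κ lm s a b ≤ 1 / 2 ^ (14 * s) := by
    unfold Bad1 at hb
    push Not at hb
    exact hb.1
  have hsum := sum_le_sum fun x (hx : x ∈ range s) => sum_le_sum fun y (hy : y ∈ range s) =>
    test_low κ lm σ s x y a b g0 d0 hp (mem_range.1 hx) (mem_range.1 hy) P2 P4 p2 p4 h2 h4
  have hsh : ∀ x ∈ range s, ∀ y ∈ range s, ∀ C D : ℕ,
      ZZ (2 ^ (κ - x + (lm - y) - 12 * s - 2)) (3 * 2 ^ (κ - x + (lm - y) - 12 * s - 1)) 1 0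
        (2 ^ (κ + lm + 0 + x - 2)) (2 ^ (2 * κ + lm + 0)) (2 ^ (κ + lm + 0 + y - 2))
        (2 ^ (κ + 2 * lm + 0))
        (((g0 * 2 ^ (3 * σ) + C : ℕ) : ℤ) * 2 ^ (κ + lm + 0) + 3 * 2 ^ (κ + lm + 0 + x - 2))
        (((d0 * 2 ^ (3 * σ) + D : ℕ) : ℤ) * 2 ^ (κ + lm + 0) + 3 * 2 ^ (κ + lm + 0 + y - 2)) a b ≤
      ((shl κ lm s 0 x y (g0 * 2 ^ (3 * σ) + C) (d0 * 2 ^ (3 * σ) + D) a b).card : ℝ) := by
    intro x hx y hy C D
    rw [mem_range] at hx hy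
    exact ZZ_le_shell κ lm s 0 x y (g0 * 2 ^ (3 * σ) + C) (d0 * 2 ^ (3 * σ) + D) a b 1 0 hs1 hx hy hκ hl
      (by norm_num) (by rw [Nat.zero_mul]; positivity)
  -- left side
  have hleft : (s : ℝ) ^ 2 / (64 * 2 ^ (12 * s)) *
      ((∑ C ∈ range (2 ^ (3 * σ)), p2 C) * (∑ D ∈ range (2 ^ (3 * σ)), p4 D) -
        ∑ D ∈ NB κ lm s a b, nu κ σ p2 D.1 * nu lm σ p4 D.2) - Y1 κ lm s a b =
      ∑ x ∈ range s, ∑ y ∈ range s,
      ((∑ C ∈ range (2 ^ (3 * σ)), p2 C) * (∑ D ∈ range (2 ^ (3 * σ)), p4 D) / (64 * 2 ^ (12 * s)) -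
      (∑ h ∈ SR (2 ^ (2 * κ + lm)), ∑ h' ∈ SR (2 ^ (κ + 2 * lm)),
        (if (h ≠ 0 ∨ h' ≠ 0) ∧ ¬ (core1 s κ h ∧ core1 s lm h' ∧
            nd ((h : ℝ) * a / 2 ^ (2 * κ + lm) + (h' : ℝ) * b / 2 ^ (κ + 2 * lm)) ≤
              2 ^ (50 * s) / 2 ^ (κ + lm)) then
          ct (2 ^ (κ + lm + x - 2)) (2 ^ (2 * κ + lm)) h *
          ct (2 ^ (κ + lm + y - 2)) (2 ^ (κ + 2 * lm)) h' *
            fej (2 ^ (κ - x + (lm - y) - 12 * s - 2))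
              ((h : ℝ) * a / 2 ^ (2 * κ + lm) + (h' : ℝ) * b / 2 ^ (κ + 2 * lm))
        else 0)) -
      1 / (64 * 2 ^ (12 * s)) * ∑ D ∈ NB κ lm s a b, nu κ σ p2 D.1 * nu lm σ p4 D.2) := by
    simp only [sum_sub_distrib, sum_const, card_range, nsmul_eq_mul]
    unfold Y1
    ring
  have hright : ∑ x ∈ range s, ∑ y ∈ range s,
      ∑ C ∈ range (2 ^ (3 * σ)), ∑ D ∈ range (2 ^ (3 * σ)), p2 C * p4 D *
      ZZ (2 ^ (κ - x + (lm - y) - 12 * s - 2)) (3 * 2 ^ (κ - x + (lm - y) - 12 * s - 1)) 1 0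
        (2 ^ (κ + lm + 0 + x - 2)) (2 ^ (2 * κ + lm + 0)) (2 ^ (κ + lm + 0 + y - 2))
        (2 ^ (κ + 2 * lm + 0))
        (((g0 * 2 ^ (3 * σ) + C : ℕ) : ℤ) * 2 ^ (κ + lm + 0) + 3 * 2 ^ (κ + lm + 0 + x - 2))
        (((d0 * 2 ^ (3 * σ) + D : ℕ) : ℤ) * 2 ^ (κ + lm + 0) + 3 * 2 ^ (κ + lm + 0 + y - 2)) a b ≤
      ∑ C ∈ range (2 ^ (3 * σ)), ∑ D ∈ range (2 ^ (3 * σ)), p2 C * p4 D *
      (if hitB κ lm (12 * s) s a b (g0 * 2 ^ (3 * σ) + C) (d0 * 2 ^ (3 * σ) + D) then 1 else 0) := by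
    have e1 : ∑ x ∈ range s, ∑ y ∈ range s,
        ∑ C ∈ range (2 ^ (3 * σ)), ∑ D ∈ range (2 ^ (3 * σ)), p2 C * p4 D *
        ((shl κ lm s 0 x y (g0 * 2 ^ (3 * σ) + C) (d0 * 2 ^ (3 * σ) + D) a b).card : ℝ) =
        ∑ C ∈ range (2 ^ (3 * σ)), ∑ D ∈ range (2 ^ (3 * σ)), p2 C * p4 D *
        ∑ x ∈ range s, ∑ y ∈ range s,
        ((shl κ lm s 0 x y (g0 * 2 ^ (3 * σ) + C) (d0 * 2 ^ (3 * σ) + D) a b).card : ℝ) := by
      rw [sum_congr rfl fun x _ => sum_comm, sum_comm]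
      refine sum_congr rfl fun C _ => ?_
      rw [sum_congr rfl fun x _ => sum_comm, sum_comm]
      refine sum_congr rfl fun D _ => ?_
      rw [mul_sum]
      refine sum_congr rfl fun x _ => ?_
      rw [mul_sum]
    refine le_trans (sum_le_sum fun x hx => sum_le_sum fun y hy => sum_le_sum fun C _ =>
      sum_le_sum fun D _ => mul_le_mul_of_nonneg_left (hsh x hx y hy C D)
        (mul_nonneg (h2.nn C) (h4.nn D))) ?_
    rw [e1]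
    exact sum_le_sum fun C _ => sum_le_sum fun D _ => mul_le_mul_of_nonneg_left
      (shells_le_one κ lm σ s _ _ a b hp hb) (mul_nonneg (h2.nn C) (h4.nn D))
  have hl' : (s : ℝ) ^ 2 / (64 * 2 ^ (12 * s)) *
      ((∑ C ∈ range (2 ^ (3 * σ)), p2 C) * (∑ D ∈ range (2 ^ (3 * σ)), p4 D) -
        ∑ D ∈ NB κ lm s a b, nu κ σ p2 D.1 * nu lm σ p4 D.2) - 1 / 2 ^ (14 * s) ≤
      (s : ℝ) ^ 2 / (64 * 2 ^ (12 * s)) *
      ((∑ C ∈ range (2 ^ (3 * σ)), p2 C) * (∑ D ∈ range (2 ^ (3 * σ)), p4 D) -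
        ∑ D ∈ NB κ lm s a b, nu κ σ p2 D.1 * nu lm σ p4 D.2) - Y1 κ lm s a b := by
    linarith
  refine hl'.trans ?_
  rw [hleft]
  refine le_trans (le_of_eq ?_) (hsum.trans hright)
  refine sum_congr rfl fun x _ => sum_congr rfl fun y _ => ?_
  congr

end MP_5e4520_nt.Ex
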