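import Pool.Agent.Lib.MP_5e4520_ntE.L4
set_option autoImplicit false

/-!
# Large blocks: the probability of a hit
-/

namespace MP_5e4520_nt.Ex

open Finset

open Classical in
/-- JOB L6.  Sum `pair_low` times `p1(A) p3(B)` over the pairs that are not in `Bad1` (the left side of the claim only needs the lower
bound `0` for the others), using `U_le` for the sum of the bilinear terms (all terms are `≥ 0`, so it may be extended to all pairs):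
`≥ s²/(64·2^(12s)) ((m1 m3 - ∑∑ p1 p3 1[Bad1]) m2 m4 - 2^(-2s)) - 2^(-14s)`; `m2 m4 ≤ 1`; `2^(-14s) + s²/(64·2^(12s)) 2^(-2s)
≤ s²/(64·2^(12s)) 2^(-s)` for `s ≥ 10`. -/
theorem R1core (κ lm σ s α0 β0 g0 d0 : ℕ) (hs : 10 ≤ s) (hp : ParC κ lm σ s)
    (hg : GenC κ lm σ s α0 β0) (P1 P2 P3 P4 : ℝ) (p1 p2 p3 p4 : ℕ → ℝ)
    (h1 : DensC σ P1 p1) (h2 : DensC σ P2 p2) (h3 : DensC σ P3 p3) (h4 : DensC σ P4 p4)
    (hP : P1 * P2 * P3 * P4 ≤ 1 / 2 ^ (6 * σ + 700 * s)) :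
    (s : ℝ) ^ 2 / (64 * 2 ^ (12 * s)) *
      ((∑ A ∈ range (2 ^ (3 * σ)), p1 A) * (∑ B ∈ range (2 ^ (3 * σ)), p3 B) *
        ((∑ C ∈ range (2 ^ (3 * σ)), p2 C) * (∑ D ∈ range (2 ^ (3 * σ)), p4 D)) -
        (∑ A ∈ range (2 ^ (3 * σ)), ∑ B ∈ range (2 ^ (3 * σ)), p1 A * p3 B *
          (if Bad1 κ lm s (α0 * 2 ^ (3 * σ) + A) (β0 * 2 ^ (3 * σ) + B) then 1 else 0)) - 1 / 2 ^ s) ≤
    ∑ A ∈ range (2 ^ (3 * σ)), ∑ B ∈ range (2 ^ (3 * σ)), ∑ C ∈ range (2 ^ (3 * σ)),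
      ∑ D ∈ range (2 ^ (3 * σ)), p1 A * p3 B * (p2 C * p4 D) *
      (if hitB κ lm (12 * s) s (α0 * 2 ^ (3 * σ) + A) (β0 * 2 ^ (3 * σ) + B) (g0 * 2 ^ (3 * σ) + C)
        (d0 * 2 ^ (3 * σ) + D) then 1 else 0) := by
  set R := range (2 ^ (3 * σ)) with hR
  set K : ℝ := (s : ℝ) ^ 2 / (64 * 2 ^ (12 * s)) with hK
  set m2 := ∑ C ∈ R, p2 C with hm2
  set m4 := ∑ D ∈ R, p4 D with hm4
  set V : ℕ → ℕ → ℝ := fun A B => ∑ D ∈ NB κ lm s (α0 * 2 ^ (3 * σ) + A) (β0 * 2 ^ (3 * σ) + B),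
    nu κ σ p2 D.1 * nu lm σ p4 D.2 with hV
  set bd : ℕ → ℕ → ℝ := fun A B =>
    if Bad1 κ lm s (α0 * 2 ^ (3 * σ) + A) (β0 * 2 ^ (3 * σ) + B) then 1 else 0 with hbd
  set inn : ℕ → ℕ → ℝ := fun A B => ∑ C ∈ R, ∑ D ∈ R, p2 C * p4 D *
    (if hitB κ lm (12 * s) s (α0 * 2 ^ (3 * σ) + A) (β0 * 2 ^ (3 * σ) + B) (g0 * 2 ^ (3 * σ) + C)
        (d0 * 2 ^ (3 * σ) + D) then 1 else 0) with hinn
  have hK0 : 0 ≤ K := by rw [hK]; positivity
  have hm20 : 0 ≤ m2 := sum_nonneg fun _ _ => h2.nn _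
  have hm40 : 0 ≤ m4 := sum_nonneg fun _ _ => h4.nn _
  have hm24 : m2 * m4 ≤ 1 := mul_le_one₀ h2.mass hm40 h4.mass
  have hV0 : ∀ A B, 0 ≤ V A B := fun A B => sum_nonneg fun D _ =>
    mul_nonneg (nu_nonneg _ _ _ _) (nu_nonneg _ _ _ _)
  have hinn0 : ∀ A B, 0 ≤ inn A B := fun A B => sum_nonneg fun C _ => sum_nonneg fun D _ => by
    have := h2.nn C
    have := h4.nn D
    split_ifs <;> positivity
  have hlow : ∀ A B, K * (m2 * m4 * (1 - bd A B) - V A B) - 1 / 2 ^ (14 * s) ≤ inn A B := by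
    intro A B
    by_cases hb : Bad1 κ lm s (α0 * 2 ^ (3 * σ) + A) (β0 * 2 ^ (3 * σ) + B)
    · have e1 : bd A B = 1 := if_pos hb
      rw [e1]
      have e2 := hV0 A B
      have e3 := hinn0 A B
      have e4 : (0 : ℝ) < 1 / 2 ^ (14 * s) := by positivity
      have e5 : 0 ≤ K * V A B := mul_nonneg hK0 e2
      nlinarith
    · have e1 : bd A B = 0 := if_neg hb
      rw [e1]
      have := pair_low κ lm σ s (α0 * 2 ^ (3 * σ) + A) (β0 * 2 ^ (3 * σ) + B) g0 d0 hp hb P2 P4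
        p2 p4 h2 h4
      rw [sub_zero, mul_one]
      exact this
  have hrhs : ∑ A ∈ R, ∑ B ∈ R, ∑ C ∈ R,
      ∑ D ∈ R, p1 A * p3 B * (p2 C * p4 D) *
      (if hitB κ lm (12 * s) s (α0 * 2 ^ (3 * σ) + A) (β0 * 2 ^ (3 * σ) + B) (g0 * 2 ^ (3 * σ) + C)
        (d0 * 2 ^ (3 * σ) + D) then 1 else 0) = ∑ A ∈ R, ∑ B ∈ R, p1 A * p3 B * inn A B := by
    refine sum_congr rfl fun A _ => sum_congr rfl fun B _ => ?_
    rw [hinn, mul_sum]
    refine sum_congr rfl fun C _ => ?_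
    rw [mul_sum]
    exact sum_congr rfl fun D _ => by ring
  rw [hrhs]
  set m1 := ∑ A ∈ R, p1 A with hm1
  set m3 := ∑ B ∈ R, p3 B with hm3
  have hm10 : 0 ≤ m1 := sum_nonneg fun _ _ => h1.nn _
  have hm30 : 0 ≤ m3 := sum_nonneg fun _ _ => h3.nn _
  have hm13 : m1 * m3 ≤ 1 := mul_le_one₀ h1.mass hm30 h3.mass
  set Bd := ∑ A ∈ R, ∑ B ∈ R, p1 A * p3 B * bd A B with hBd
  set U := ∑ A ∈ R, ∑ B ∈ R, p1 A * p3 B * V A B with hU
  have hBd0 : 0 ≤ Bd := sum_nonneg fun A _ => sum_nonneg fun B _ => by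
    have := h1.nn A
    have := h3.nn B
    rw [hbd]
    simp only
    split_ifs <;> positivity
  have hUle : U ≤ 1 / 2 ^ (2 * s) := U_le κ lm σ s α0 β0 (by omega) hp hg P1 P2 P3 P4 p1 p2 p3 p4
    h1 h2 h3 h4 hP
  have hsum : K * (m2 * m4 * (m1 * m3 - Bd) - U) - m1 * m3 * (1 / 2 ^ (14 * s)) ≤
      ∑ A ∈ R, ∑ B ∈ R, p1 A * p3 B * inn A B := by
    calc K * (m2 * m4 * (m1 * m3 - Bd) - U) - m1 * m3 * (1 / 2 ^ (14 * s))
        = ∑ A ∈ R, ∑ B ∈ R, p1 A * p3 B *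
          (K * (m2 * m4 * (1 - bd A B) - V A B) - 1 / 2 ^ (14 * s)) := by
          have e : ∀ A B, p1 A * p3 B *
            (K * (m2 * m4 * (1 - bd A B) - V A B) - 1 / 2 ^ (14 * s)) =
            (K * (m2 * m4) - 1 / 2 ^ (14 * s)) * (p1 A * p3 B) -
              (K * (m2 * m4)) * (p1 A * p3 B * bd A B) - K * (p1 A * p3 B * V A B) := by
            intro A B
            ring
          simp only [e, sum_sub_distrib, ← mul_sum]
          rw [← hBd, ← hU, ← hm3, ← sum_mul, ← hm1]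
          ring
      _ ≤ _ := sum_le_sum fun A _ => sum_le_sum fun B _ =>
          mul_le_mul_of_nonneg_left (hlow A B) (mul_nonneg (h1.nn A) (h3.nn B))
  refine le_trans ?_ hsum
  have hfin : K / 2 ^ (2 * s) + 1 / 2 ^ (14 * s) ≤ K / 2 ^ s := by
    have hs2 : (100 : ℝ) ≤ (s : ℝ) ^ 2 := by
      have : (10 : ℝ) ≤ s := by exact_mod_cast hs
      nlinarith
    have e1 : (1 : ℝ) / 2 ^ (14 * s) ≤ K / 2 ^ (2 * s) := by
      rw [hK, div_div, div_le_div_iff₀ (by positivity) (by positivity)]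
      have e2 : (2 : ℝ) ^ (14 * s) = 2 ^ (12 * s) * 2 ^ (2 * s) := by
        rw [← pow_add]
        congr 1
        ring
      rw [e2]
      have e3 : (0 : ℝ) < 2 ^ (12 * s) * 2 ^ (2 * s) := by positivity
      nlinarith
    have e4 : K / 2 ^ s = K / 2 ^ (2 * s) * 2 ^ s := by
      have : (2 : ℝ) ^ (2 * s) = 2 ^ s * 2 ^ s := by
        rw [← pow_add]
        congr 1
        ring
      rw [this]
      field_simp
    have e5 : (2 : ℝ) ≤ 2 ^ s := by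
      calc (2 : ℝ) = 2 ^ 1 := by norm_num
        _ ≤ 2 ^ s := pow_le_pow_right₀ (by norm_num) (by omega)
    have e6 : 0 ≤ K / 2 ^ (2 * s) := by positivity
    rw [e4]
    nlinarith
  have e7 : m2 * m4 * Bd ≤ Bd := by
    calc m2 * m4 * Bd ≤ 1 * Bd := mul_le_mul_of_nonneg_right hm24 hBd0
      _ = Bd := one_mul _
  have e8 : m1 * m3 * (1 / 2 ^ (14 * s)) ≤ 1 / 2 ^ (14 * s) := by
    have : (0 : ℝ) ≤ 1 / 2 ^ (14 * s) := by positivity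
    calc m1 * m3 * (1 / 2 ^ (14 * s)) ≤ 1 * (1 / 2 ^ (14 * s)) :=
          mul_le_mul_of_nonneg_right hm13 this
      _ = _ := one_mul _
  have e9 : K * U ≤ K / 2 ^ (2 * s) := by
    rw [div_eq_mul_one_div]
    exact mul_le_mul_of_nonneg_left hUle hK0
  have e10 : K * (m2 * m4 * Bd) ≤ K * Bd := mul_le_mul_of_nonneg_left e7 hK0
  have e11 : K / 2 ^ s = K * (1 / 2 ^ s) := div_eq_mul_one_div _ _
  rw [e11] at hfin
  have e12 : K * (m2 * m4 * (m1 * m3 - Bd) - U) =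
      K * (m1 * m3 * (m2 * m4)) - K * (m2 * m4 * Bd) - K * U := by ring
  rw [e12]
  have e13 : K * (m1 * m3 * (m2 * m4) - Bd - 1 / 2 ^ s) =
      K * (m1 * m3 * (m2 * m4)) - K * Bd - K * (1 / 2 ^ s) := by ring
  rw [e13]
  linarith

end MP_5e4520_nt.Ex
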