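import Pool.Agent.Lib.MP_5e4520_ntE.F10
import Pool.Agent.Lib.MP_5e4520_ntE.V1
set_option autoImplicit false

/-!
# Small blocks: lower bound for the number of shell elements
-/

namespace MP_5e4520_nt.Ex

open Finset

/-- extension of a density on the block by `100 s` uniform digits -/
noncomputable def extf (s : ℕ) (p : ℕ → ℝ) (A : ℕ) : ℝ := p (A / 2 ^ (100 * s)) / 2 ^ (100 * s)

/-- densities on the block of `3 G s` digits, mass between `1/2` and `1` -/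
structure Dens3 (s : ℕ) (p : ℕ → ℝ) : Prop where
  nn : ∀ A, 0 ≤ p A
  sup : ∀ A, p A ≤ 2 ^ s / 2 ^ (3 * Gc * s)
  mass : ∑ A ∈ range (2 ^ (3 * Gc * s)), p A ≤ 1
  half : 1 / 2 ≤ ∑ A ∈ range (2 ^ (3 * Gc * s)), p A

private theorem R2A_grp (E : ℕ) (hE : 0 < E) (f : ℕ → ℝ) (N : ℕ) :
    ∑ A ∈ range (N * E), f (A / E) = E * ∑ A ∈ range N, f A := by
  induction N with
  | zero => simp
  | succ N ih =>
    rw [Nat.succ_mul, sum_range_add, ih, sum_range_succ, mul_add]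
    congr 1
    have : ∀ r ∈ range E, f ((N * E + r) / E) = f N := by
      intro r hr
      rw [mem_range] at hr
      have : (N * E + r) / E = N := by
        rw [add_comm, Nat.add_mul_div_right _ _ hE, Nat.div_eq_of_lt hr, zero_add]
      rw [this]
    rw [sum_congr rfl this, sum_const, card_range, nsmul_eq_mul]

/-- JOB R2A.  Group the sum over `A' < 2^((3G+100)s)` by `A = A'/2^(100 s)`. -/
theorem extf_sum (s : ℕ) (p F : ℕ → ℝ) :
    ∑ A ∈ range (2 ^ ((3 * Gc + 100) * s)), extf s p A * F (A / 2 ^ (100 * s)) =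
      ∑ A ∈ range (2 ^ (3 * Gc * s)), p A * F A := by
  have h1 : 2 ^ ((3 * Gc + 100) * s) = 2 ^ (3 * Gc * s) * 2 ^ (100 * s) := by
    rw [← pow_add]
    congr 1
    ring
  have hE : 0 < 2 ^ (100 * s) := by positivity
  have h2 := R2A_grp (2 ^ (100 * s)) hE (fun B => p B / 2 ^ (100 * s) * F B) (2 ^ (3 * Gc * s))
  rw [h1]
  refine Eq.trans ?_ (h2.trans ?_)
  · rfl
  · rw [mul_sum]
    refine sum_congr rfl fun B _ => ?_
    push_cast
    have : (2 : ℝ) ^ (100 * s) ≠ 0 := by positivity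
    field_simp

theorem extf_dens (s : ℕ) (p : ℕ → ℝ) (h : Dens3 s p) : Dens s (extf s p) := by
  refine ⟨fun A => ?_, fun A => ?_, ?_⟩
  · exact div_nonneg (h.nn _) (by positivity)
  · have h1 : (2 : ℝ) ^ ((3 * Gc + 100) * s) = 2 ^ (3 * Gc * s) * 2 ^ (100 * s) := by
      rw [← pow_add]
      congr 1
      ring
    unfold extf
    rw [h1, ← div_div]
    exact div_le_div_of_nonneg_right (h.sup _) (by positivity)
  · have h1 := extf_sum s p (fun _ => 1)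
    simp only [mul_one] at h1
    rw [h1]
    exact h.mass

/-- Lower bound.  `κ = ks + G s`, `lm = ls + G s`, `e = 100 s`.  By `ZZ_le_shell` (with `n = nw`, `A = Ap`; note
`2^(κ+lm+e+x-2) = QA/2^(κ-x+2)`, `QA = 2^(2κ+lm+e)`) and `FM` at `k+2, l+2`, `lb = ρ - 2`, `T = 3·2^(ρ-1)` (`k = κ-x`, `l = lm-y`,
`ρ = k+l-12s`) each `(x,y)` contributes at least `m1 m3 2^(ρ-2)/2^(k+l+4) - 2^(ρ-2)/2^(k+l+4)/2^s ≥ (1/4 - 2^(-s)) 2^(-12s)/64`;
the sum over `x, y < s` is `≥ s² 2^(-12s)/260` for large `s`. -/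
theorem R2low : ∃ s0 : ℕ, ∀ s ≥ s0, ∀ ks ls α0 β0 : ℕ, ParF s ks ls → α0 < 2 ^ (2 * ks + ls) →
    β0 < 2 ^ (ks + 2 * ls) → GenF s ks ls α0 β0 → ∀ f1 f3 : ℕ → ℝ, Dens s f1 → Dens s f3 →
    1 / 2 ≤ ∑ A ∈ range (2 ^ ((3 * Gc + 100) * s)), f1 A →
    1 / 2 ≤ ∑ A ∈ range (2 ^ ((3 * Gc + 100) * s)), f3 A → ∀ g d : ℕ,
    (s : ℝ) ^ 2 / (260 * 2 ^ (12 * s)) ≤
      ∑ A ∈ range (2 ^ ((3 * Gc + 100) * s)), ∑ B ∈ range (2 ^ ((3 * Gc + 100) * s)), f1 A * f3 B *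
        ∑ x ∈ range s, ∑ y ∈ range s,
          ((shl (ks + Gc * s) (ls + Gc * s) s (100 * s) x y g d
            (α0 * 2 ^ ((3 * Gc + 100) * s) + A) (β0 * 2 ^ ((3 * Gc + 100) * s) + B)).card : ℝ) := by
  obtain ⟨s0, hFM⟩ := FM
  refine ⟨max s0 9, ?_⟩
  intro s hs ks ls α0 β0 hp hα hβ hg f1 f3 hf1 hf3 hm1 hm3 g d
  have hs0 : s0 ≤ s := le_trans (le_max_left _ _) hs
  have hs9 : 9 ≤ s := le_trans (le_max_right _ _) hs
  have hk1 := hp.k1
  have hl1 := hp.l1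
  have hQA : QA s ks ls = 2 ^ (2 * (ks + Gc * s) + (ls + Gc * s) + 100 * s) := by
    unfold QA
    congr 1
    ring
  have hQB : QB s ks ls = 2 ^ ((ks + Gc * s) + 2 * (ls + Gc * s) + 100 * s) := by
    unfold QB
    congr 1
    ring
  -- one pair `(x, y)`
  have key : ∀ x ∈ range s, ∀ y ∈ range s, 1 / (260 * 2 ^ (12 * s)) ≤
      ∑ A ∈ range (2 ^ ((3 * Gc + 100) * s)), ∑ B ∈ range (2 ^ ((3 * Gc + 100) * s)), f1 A * f3 B *
        ((shl (ks + Gc * s) (ls + Gc * s) s (100 * s) x y g d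
            (α0 * 2 ^ ((3 * Gc + 100) * s) + A) (β0 * 2 ^ ((3 * Gc + 100) * s) + B)).card : ℝ) := by
    intro x hx y hy
    rw [mem_range] at hx hy
    set κ := ks + Gc * s with hκ
    set lm := ls + Gc * s with hlm
    set ρ := κ - x + (lm - y) - 12 * s with hρ
    have hGs : Gc * s = 100000 * s := rfl
    have hκ20 : 20 * s ≤ κ := by omega
    have hlm20 : 20 * s ≤ lm := by omega
    have e1 : QA s ks ls / 2 ^ (κ - x + 2) = 2 ^ (κ + lm + 100 * s + x - 2) := by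
      rw [hQA, Nat.pow_div (by omega) (by norm_num)]
      congr 1
      omega
    have e2 : QB s ks ls / 2 ^ (lm - y + 2) = 2 ^ (κ + lm + 100 * s + y - 2) := by
      rw [hQB, Nat.pow_div (by omega) (by norm_num)]
      congr 1
      omega
    have hT1 : 3 * (2 : ℤ) ^ (ρ - 2) ≤ 2 * (3 * 2 ^ (ρ - 1)) := by
      have : (2 : ℤ) ^ (ρ - 1) = 2 * 2 ^ (ρ - 2) := by
        have h : ρ - 1 = (ρ - 2) + 1 := by omega
        rw [h, pow_succ]; ring
      have h0 : (0 : ℤ) < 2 ^ (ρ - 2) := by positivity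
      rw [this]; linarith
    have hT2 : 3 * (2 : ℤ) ^ (ρ - 1) ≤ 2 ^ (ρ - 2 + 3) := by
      have : (2 : ℤ) ^ (ρ - 2 + 3) = 4 * 2 ^ (ρ - 1) := by
        have h : ρ - 2 + 3 = (ρ - 1) + 2 := by omega
        rw [h, pow_add]; ring
      have h0 : (0 : ℤ) < 2 ^ (ρ - 1) := by positivity
      rw [this]; linarith
    have h1 := hFM s hs0 ks ls α0 β0 hp hα hβ hg (κ - x + 2) (lm - y + 2) (ρ - 2)
      (by simp only [Gc] at *; omega) (by simp only [Gc] at *; omega)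
      (by simp only [Gc] at *; omega) (by simp only [Gc] at *; omega)
      (by simp only [Gc] at *; omega) (by simp only [Gc] at *; omega)
      (3 * 2 ^ (ρ - 1)) hT1 hT2 f1 f3 hf1 hf3
      ((g : ℤ) * 2 ^ (κ + lm + 100 * s) + 3 * 2 ^ (κ + lm + 100 * s + x - 2))
      ((d : ℤ) * 2 ^ (κ + lm + 100 * s) + 3 * 2 ^ (κ + lm + 100 * s + y - 2))
    rw [e1, e2] at h1
    have hn : 0 < nw s ks ls := by unfold nw; positivity
    have hA : Ap * nw s ks ls ≤ 2 ^ (κ - x + (lm - y) - 12 * s - 2) := by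
      have h2 : Ap ≤ 2 ^ 12 := by unfold Ap; norm_num
      calc Ap * nw s ks ls ≤ 2 ^ 12 * nw s ks ls := Nat.mul_le_mul_right _ h2
        _ = 2 ^ (12 + (ks + ls + (Gc - 1100) * s)) := by unfold nw; rw [← pow_add]
        _ ≤ 2 ^ (κ - x + (lm - y) - 12 * s - 2) := by
          apply Nat.pow_le_pow_right (by norm_num)
          simp only [Gc] at *
          omega
    have h3 : ∀ A B : ℕ, ZZ (2 ^ (ρ - 2)) (3 * 2 ^ (ρ - 1)) (nw s ks ls) Ap
        (2 ^ (κ + lm + 100 * s + x - 2)) (QA s ks ls) (2 ^ (κ + lm + 100 * s + y - 2)) (QB s ks ls)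
        ((g : ℤ) * 2 ^ (κ + lm + 100 * s) + 3 * 2 ^ (κ + lm + 100 * s + x - 2))
        ((d : ℤ) * 2 ^ (κ + lm + 100 * s) + 3 * 2 ^ (κ + lm + 100 * s + y - 2))
        ((α0 * 2 ^ ((3 * Gc + 100) * s) + A : ℕ) : ℤ)
        ((β0 * 2 ^ ((3 * Gc + 100) * s) + B : ℕ) : ℤ) ≤
        ((shl κ lm s (100 * s) x y g d (α0 * 2 ^ ((3 * Gc + 100) * s) + A)
          (β0 * 2 ^ ((3 * Gc + 100) * s) + B)).card : ℝ) := by
      intro A B
      rw [hQA, hQB]
      exact ZZ_le_shell κ lm s (100 * s) x y g d _ _ (nw s ks ls) Ap (by omega) hx hy hκ20 hlm20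
        hn hA
    have h4 : ∑ A ∈ range (2 ^ ((3 * Gc + 100) * s)), ∑ B ∈ range (2 ^ ((3 * Gc + 100) * s)),
        f1 A * f3 B * ZZ (2 ^ (ρ - 2)) (3 * 2 ^ (ρ - 1)) (nw s ks ls) Ap
        (2 ^ (κ + lm + 100 * s + x - 2)) (QA s ks ls) (2 ^ (κ + lm + 100 * s + y - 2)) (QB s ks ls)
        ((g : ℤ) * 2 ^ (κ + lm + 100 * s) + 3 * 2 ^ (κ + lm + 100 * s + x - 2))
        ((d : ℤ) * 2 ^ (κ + lm + 100 * s) + 3 * 2 ^ (κ + lm + 100 * s + y - 2))
        ((α0 * 2 ^ ((3 * Gc + 100) * s) + A : ℕ) : ℤ)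
        ((β0 * 2 ^ ((3 * Gc + 100) * s) + B : ℕ) : ℤ) ≤
        ∑ A ∈ range (2 ^ ((3 * Gc + 100) * s)), ∑ B ∈ range (2 ^ ((3 * Gc + 100) * s)), f1 A * f3 B *
        ((shl κ lm s (100 * s) x y g d
            (α0 * 2 ^ ((3 * Gc + 100) * s) + A) (β0 * 2 ^ ((3 * Gc + 100) * s) + B)).card : ℝ) := by
      refine sum_le_sum fun A _ => sum_le_sum fun B _ => ?_
      exact mul_le_mul_of_nonneg_left (h3 A B) (mul_nonneg (hf1.nn A) (hf3.nn B))
    refine le_trans ?_ h4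
    have h5 := (abs_le.1 h1).1
    have h6 : (2 : ℝ) ^ (ρ - 2) / 2 ^ (κ - x + 2 + (lm - y + 2)) = 1 / (64 * 2 ^ (12 * s)) := by
      have h7 : κ - x + 2 + (lm - y + 2) = (ρ - 2) + (12 * s + 6) := by omega
      rw [h7, pow_add _ (ρ - 2), pow_add _ (12 * s)]
      have : (2 : ℝ) ^ (ρ - 2) ≠ 0 := by positivity
      field_simp
      norm_num
    rw [h6] at h5
    set P : ℝ := 1 / (64 * 2 ^ (12 * s)) with hP
    have hP0 : 0 < P := by positivity
    have h8 : (1 : ℝ) / 2 ^ s ≤ 1 / 512 := by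
      apply one_div_le_one_div_of_le (by norm_num)
      calc (512 : ℝ) = 2 ^ 9 := by norm_num
        _ ≤ 2 ^ s := pow_le_pow_right₀ (by norm_num) hs9
    have h9 : P / 2 ^ s ≤ P / 512 := by
      rw [div_eq_mul_one_div P, div_eq_mul_one_div P (512 : ℝ)]
      exact mul_le_mul_of_nonneg_left h8 hP0.le
    have h10 : 1 / 4 * P ≤ (∑ A ∈ range (2 ^ ((3 * Gc + 100) * s)), f1 A) *
        (∑ B ∈ range (2 ^ ((3 * Gc + 100) * s)), f3 B) * P := by
      apply mul_le_mul_of_nonneg_right _ hP0.le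
      nlinarith
    have h11 : 1 / (260 * 2 ^ (12 * s)) = 64 / 260 * P := by
      rw [hP]
      field_simp
    rw [h11]
    linarith
  have hsum : ∑ A ∈ range (2 ^ ((3 * Gc + 100) * s)), ∑ B ∈ range (2 ^ ((3 * Gc + 100) * s)),
      f1 A * f3 B * ∑ x ∈ range s, ∑ y ∈ range s,
          ((shl (ks + Gc * s) (ls + Gc * s) s (100 * s) x y g d
            (α0 * 2 ^ ((3 * Gc + 100) * s) + A) (β0 * 2 ^ ((3 * Gc + 100) * s) + B)).card : ℝ) =
      ∑ x ∈ range s, ∑ y ∈ range s,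
      ∑ A ∈ range (2 ^ ((3 * Gc + 100) * s)), ∑ B ∈ range (2 ^ ((3 * Gc + 100) * s)), f1 A * f3 B *
          ((shl (ks + Gc * s) (ls + Gc * s) s (100 * s) x y g d
            (α0 * 2 ^ ((3 * Gc + 100) * s) + A) (β0 * 2 ^ ((3 * Gc + 100) * s) + B)).card : ℝ) := by
    simp only [mul_sum]
    rw [sum_congr rfl fun A _ => sum_comm, sum_comm]
    refine sum_congr rfl fun x _ => ?_
    rw [sum_congr rfl fun A _ => sum_comm, sum_comm]
  rw [hsum]
  calc (s : ℝ) ^ 2 / (260 * 2 ^ (12 * s)) =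
      ∑ x ∈ range s, ∑ y ∈ range s, 1 / (260 * 2 ^ (12 * s)) := by
        rw [sum_const, sum_const, card_range, nsmul_eq_mul, nsmul_eq_mul]
        ring
    _ ≤ _ := sum_le_sum fun x hx => sum_le_sum fun y hy => key x hx y hy

end MP_5e4520_nt.Ex
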