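import Pool.Agent.Lib.MP_5e4520_ntE.R2A
set_option autoImplicit false

/-!
# Small blocks: upper bound for the numbers of small returns
-/

namespace MP_5e4520_nt.Ex

open Finset

/-- `btri ≥ 1/2` near `0` -/
private theorem R2B_btri (w Q : ℕ) (hw : 0 < w) (hQ : 0 < Q) (x : ℤ)
    (h : nd ((x : ℝ) / Q) < (w : ℝ) / (2 * Q)) : 1 / 2 ≤ btri w Q x := by
  have hQ' : (0 : ℝ) < Q := by exact_mod_cast hQ
  have hw' : (0 : ℝ) < w := by exact_mod_cast hw
  obtain ⟨z, hz⟩ := nd_exists ((x : ℝ) / Q)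
  set r : ℤ := x - Q * z with hr
  have hr1 : 2 * |(r : ℝ)| < w := by
    rw [← hz] at h
    have h1 : (x : ℝ) / Q - z = (r : ℝ) / Q := by
      rw [hr]
      push_cast
      field_simp
    rw [h1, abs_div, abs_of_pos hQ', div_lt_div_iff₀ hQ' (by positivity)] at h
    have h2 : |(r : ℝ)| * 2 * Q < w * Q := by linarith
    have h3 := lt_of_mul_lt_mul_right h2 hQ'.le
    linarith
  have hr2 : 2 * |r| < (w : ℤ) := by
    have : ((2 * |r| : ℤ) : ℝ) < ((w : ℤ) : ℝ) := by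
      push_cast
      exact hr1
    exact_mod_cast this
  have hxr : x = Q * z + r := by rw [hr]; ring
  obtain ⟨m, hm⟩ : ∃ m : ℕ, |r| = m := ⟨r.natAbs, by simp⟩
  have hmw : 2 * m < w := by
    rw [hm] at hr2
    exact_mod_cast hr2
  have hcard : w - m ≤ ((range w ×ˢ range w).filter
      (fun p : ℕ × ℕ => (Q : ℤ) ∣ ((p.1 : ℤ) - p.2 + x))).card := by
    rcases le_total 0 r with h0 | h0
    · rw [abs_of_nonneg h0] at hm
      have h2 : ((range (w - m)).image (fun i => (i, i + m))) ⊆ ((range w ×ˢ range w).filter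
          (fun p : ℕ × ℕ => (Q : ℤ) ∣ ((p.1 : ℤ) - p.2 + x))) := by
        intro p hp
        obtain ⟨i, hi, rfl⟩ := mem_image.mp hp
        rw [mem_range] at hi
        simp only [mem_filter, mem_product, mem_range]
        refine ⟨⟨by omega, by omega⟩, ⟨z, ?_⟩⟩
        rw [hxr, hm]
        push_cast
        ring
      have h3 := card_le_card h2
      rw [card_image_of_injective _ (fun a b hab => (Prod.mk.inj hab).1), card_range] at h3
      exact h3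
    · rw [abs_of_nonpos h0] at hm
      have h2 : ((range (w - m)).image (fun i => (i + m, i))) ⊆ ((range w ×ˢ range w).filter
          (fun p : ℕ × ℕ => (Q : ℤ) ∣ ((p.1 : ℤ) - p.2 + x))) := by
        intro p hp
        obtain ⟨i, hi, rfl⟩ := mem_image.mp hp
        rw [mem_range] at hi
        simp only [mem_filter, mem_product, mem_range]
        refine ⟨⟨by omega, by omega⟩, ⟨z, ?_⟩⟩
        have hr3 : r = -(m : ℤ) := by omega
        rw [hxr, hr3]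
        push_cast
        ring
      have h3 := card_le_card h2
      rw [card_image_of_injective _ (fun a b hab => (Prod.mk.inj hab).2), card_range] at h3
      exact h3
  unfold btri
  rw [le_div_iff₀ hw']
  have h4 : (((w - m : ℕ) : ℕ) : ℝ) ≤ (((range w ×ˢ range w).filter
      (fun p : ℕ × ℕ => (Q : ℤ) ∣ ((p.1 : ℤ) - p.2 + x))).card : ℝ) := by exact_mod_cast hcard
  have h5 : (w : ℝ) / 2 ≤ ((w - m : ℕ) : ℝ) := by
    rw [Nat.cast_sub (by omega)]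
    have : (2 : ℝ) * m < w := by exact_mod_cast hmw
    linarith
  linarith

private theorem R2B_btri_pow (u k a q : ℕ) (hk : k + 10 ≤ u)
    (h : nd ((q : ℝ) * a / ((2 ^ u : ℕ) : ℝ)) < 1 / 2 ^ (k + 10)) :
    1 / 2 ≤ btri (2 ^ u / 2 ^ (k + 9)) (2 ^ u) ((q : ℤ) * (a : ℤ) - 0) := by
  have e1 : 2 ^ u / 2 ^ (k + 9) = 2 ^ (u - (k + 9)) := Nat.pow_div (by omega) (by norm_num)
  rw [e1]
  apply R2B_btri _ _ (by positivity) (by positivity)
  have e2 : (((q : ℤ) * (a : ℤ) - 0 : ℤ) : ℝ) = (q : ℝ) * a := by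
    push_cast
    ring
  rw [e2]
  refine h.trans_le (le_of_eq ?_)
  have e3 : u = (k + 9) + (u - (k + 9)) := by omega
  have e4 : ((2 ^ u : ℕ) : ℝ) = 2 ^ (k + 9) * 2 ^ (u - (k + 9)) := by
    push_cast
    rw [← pow_add, ← e3]
  rw [e4]
  push_cast
  rw [pow_succ (2 : ℝ) (k + 9)]
  field_simp


open Classical in
/-- JOB R2B.  Dyadic piece: for `2^λ ≤ q < 2^(λ+1)`, `‖q a/Q1‖ < 1/2^(k+10)`, `‖q b/Q2‖ < 1/2^(l+10)` the number `q` has weight `≥ 1/16` in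
`ZZ` with `L = 2^λ`, `T = 3·2^(λ-1)`, `w1 = Q1/2^(k+9)`, `w2 = Q2/2^(l+9)`: `btri ≥ 1/2` twice (`btri w Q x ≥ 1 - |x|/w`), and for every `t'`
in the support of `pw` the `t = q - T - t'` has `|t| ≤ 2^(λ-1) + A n ≤ (3/4) 2^λ`, so `tri ≥ 1/4`; `∑ pw = 1`. -/
theorem dyadic_le_ZZ (u v k l lam n A a b : ℕ) (hk : k + 10 ≤ u) (hl : l + 10 ≤ v) (hlam : 1 ≤ lam)
    (hn : 0 < n) (hA : 4 * (A * n) ≤ 2 ^ lam) :
    (((Ico (2 ^ lam) (2 ^ (lam + 1))).filter (fun q : ℕ =>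
      nd ((q : ℝ) * a / ((2 ^ u : ℕ) : ℝ)) < 1 / 2 ^ (k + 10) ∧
      nd ((q : ℝ) * b / ((2 ^ v : ℕ) : ℝ)) < 1 / 2 ^ (l + 10))).card : ℝ) ≤
      16 * ZZ (2 ^ lam) (3 * 2 ^ (lam - 1)) n A (2 ^ u / 2 ^ (k + 9)) (2 ^ u) (2 ^ v / 2 ^ (l + 9)) (2 ^ v)
        0 0 a b := by
  set S := (Ico (2 ^ lam) (2 ^ (lam + 1))).filter (fun q : ℕ =>
      nd ((q : ℝ) * a / ((2 ^ u : ℕ) : ℝ)) < 1 / 2 ^ (k + 10) ∧
      nd ((q : ℝ) * b / ((2 ^ v : ℕ) : ℝ)) < 1 / 2 ^ (l + 10)) with hS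
  obtain ⟨L, hL⟩ : ∃ L : ℕ, L = 2 ^ (lam - 1) := ⟨_, rfl⟩
  have hLp : 0 < L := by rw [hL]; positivity
  have e1 : 2 ^ lam = 2 * L := by
    have : lam = (lam - 1) + 1 := by omega
    rw [hL]
    nth_rewrite 1 [this]
    rw [pow_succ]
    ring
  have e2 : (3 * 2 ^ (lam - 1) : ℤ) = 3 * (L : ℤ) := by
    rw [hL]
    push_cast
    ring
  rw [e1] at hA
  have hw1 : 2 ^ u / 2 ^ (k + 9) ≤ 2 ^ u := Nat.div_le_self _ _
  have hw2 : 2 ^ v / 2 ^ (l + 9) ≤ 2 ^ v := Nat.div_le_self _ _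
  set T : ℤ := 3 * 2 ^ (lam - 1) with hT
  unfold ZZ
  rw [sum_comm, mul_sum]
  calc (S.card : ℝ) = ∑ t' ∈ Icc (-((A * n : ℕ) : ℤ)) ((A * n : ℕ) : ℤ), pw n A t' * (S.card : ℝ) := by
        rw [← sum_mul, pw_sum n A hn, one_mul]
    _ ≤ _ := by
        apply sum_le_sum
        intro t' ht'
        rw [mem_Icc] at ht'
        have hAn : 2 * ((A * n : ℕ) : ℤ) ≤ L := by
          have : 2 * (A * n) ≤ L := by omega
          exact_mod_cast this
        have hinj : Set.InjOn (fun q : ℕ => (q : ℤ) - T - t') (S : Set ℕ) := by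
          intro q _ q' _ hqq
          simp only at hqq
          omega
        have hsub : S.image (fun q : ℕ => (q : ℤ) - T - t') ⊆ Ioo (-((2 ^ lam : ℕ) : ℤ)) ((2 ^ lam : ℕ) : ℤ) := by
          intro t ht
          obtain ⟨q, hq, rfl⟩ := mem_image.mp ht
          rw [hS, mem_filter, mem_Ico, pow_succ, e1] at hq
          obtain ⟨⟨hq1, hq2⟩, -⟩ := hq
          rw [mem_Ioo, e1, e2]
          push_cast
          constructor <;> omega
        have hnn : ∀ t ∈ Ioo (-((2 ^ lam : ℕ) : ℤ)) ((2 ^ lam : ℕ) : ℤ),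
            t ∉ S.image (fun q : ℕ => (q : ℤ) - T - t') →
            0 ≤ tri (2 ^ lam) t * pw n A t' * btri (2 ^ u / 2 ^ (k + 9)) (2 ^ u) ((T + t + t') * a - 0) *
              btri (2 ^ v / 2 ^ (l + 9)) (2 ^ v) ((T + t + t') * b - 0) := fun t _ _ =>
          mul_nonneg (mul_nonneg (mul_nonneg (tri_nonneg _ _) (pw_nonneg _ _ _)) (btri_nonneg _ _ _))
            (btri_nonneg _ _ _)
        have hsum := sum_le_sum_of_subset_of_nonneg hsub hnn
        rw [sum_image hinj] at hsum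
        have hlow : ∀ q ∈ S, pw n A t' / 16 ≤ tri (2 ^ lam) ((q : ℤ) - T - t') * pw n A t' *
            btri (2 ^ u / 2 ^ (k + 9)) (2 ^ u) ((T + ((q : ℤ) - T - t') + t') * a - 0) *
              btri (2 ^ v / 2 ^ (l + 9)) (2 ^ v) ((T + ((q : ℤ) - T - t') + t') * b - 0) := by
          intro q hq
          rw [hS, mem_filter, mem_Ico, pow_succ, e1] at hq
          obtain ⟨⟨hq1, hq2⟩, hq3, hq4⟩ := hq
          have e3 : T + ((q : ℤ) - T - t') + t' = q := by ring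
          rw [e3]
          have b1 := R2B_btri_pow u k a q hk hq3
          have b2 := R2B_btri_pow v l b q hl hq4
          have b3 : 1 / 4 ≤ tri (2 ^ lam) ((q : ℤ) - T - t') := by
            unfold tri
            refine le_max_of_le_right ?_
            have habs : 2 * |(q : ℤ) - T - t'| ≤ 3 * L := by
              have : |(q : ℤ) - T - t'| ≤ |(q : ℤ) - T - t'| := le_rfl
              rcases abs_cases ((q : ℤ) - T - t') with ⟨h1, -⟩ | ⟨h1, -⟩
              · rw [h1, e2]; omega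
              · rw [h1, e2]; omega
            have habs' : 2 * |(((q : ℤ) - T - t' : ℤ) : ℝ)| ≤ 3 * L := by exact_mod_cast habs
            have hLr : (0 : ℝ) < L := by exact_mod_cast hLp
            rw [e1]
            push_cast at habs' ⊢
            rw [le_sub_comm, div_le_iff₀ (by positivity)]
            linarith
          have p0 := pw_nonneg n A t'
          have c1 : pw n A t' / 4 ≤ tri (2 ^ lam) ((q : ℤ) - T - t') * pw n A t' := by nlinarith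
          have c2 : pw n A t' / 8 ≤ tri (2 ^ lam) ((q : ℤ) - T - t') * pw n A t' *
              btri (2 ^ u / 2 ^ (k + 9)) (2 ^ u) ((q : ℤ) * a - 0) := by
            calc pw n A t' / 8 = pw n A t' / 4 * (1 / 2) := by ring
              _ ≤ _ := mul_le_mul c1 b1 (by norm_num) (by linarith)
          calc pw n A t' / 16 = pw n A t' / 8 * (1 / 2) := by ring
            _ ≤ _ := mul_le_mul c2 b2 (by norm_num) (by linarith)
        have h5 := sum_le_sum hlow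
        rw [sum_const, nsmul_eq_mul] at h5
        have h6 := h5.trans hsum
        calc pw n A t' * (S.card : ℝ) = 16 * ((S.card : ℝ) * (pw n A t' / 16)) := by ring
          _ ≤ _ := mul_le_mul_of_nonneg_left h6 (by norm_num)

/-- The whole range: `q ≤ 2^(ρ-5s)` is in the term of `Smq`, the rest is covered by `λ ∈ [ρ-5s, ρ-9]`. -/
theorem hom_le_ZZ (s ks ls x y a b : ℕ) (hs : 10 ≤ s) (hp : ParF s ks ls) (hx : x < s) (hy : y < s) :
    (hom (QA s ks ls) (QB s ks ls) (2 ^ (ks + Gc * s - x + (ls + Gc * s - y) - 12 * s - 9))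
      (1 / 2 ^ (ks + Gc * s - x + 10)) (1 / 2 ^ (ls + Gc * s - y + 10)) a b : ℝ) ≤
    (hom (QA s ks ls) (QB s ks ls) (2 ^ (ks + Gc * s - x + (ls + Gc * s - y) - 17 * s))
      (1 / 2 ^ (ks + Gc * s - x)) (1 / 2 ^ (ls + Gc * s - y)) a b : ℝ) +
    ∑ lam ∈ Icc (ks + Gc * s - x + (ls + Gc * s - y) - 17 * s)
        (ks + Gc * s - x + (ls + Gc * s - y) - 12 * s - 9),
      16 * ZZ (2 ^ lam) (3 * 2 ^ (lam - 1)) (nw s ks ls) Ap
        (QA s ks ls / 2 ^ (ks + Gc * s - x + 9)) (QA s ks ls)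
        (QB s ks ls / 2 ^ (ls + Gc * s - y + 9)) (QB s ks ls) 0 0 a b := by
  classical
  obtain ⟨-, hk1, hl1, -, -⟩ := hp
  have hG : Gc = 100000 := rfl
  obtain ⟨k, hk⟩ : ∃ k, k = ks + Gc * s - x := ⟨_, rfl⟩
  obtain ⟨l, hl⟩ : ∃ l, l = ls + Gc * s - y := ⟨_, rfl⟩
  rw [← hk, ← hl]
  have hku : k + 10 ≤ 2 * ks + ls + (3 * Gc + 100) * s := by rw [hk, hG] at *; omega
  have hlv : l + 10 ≤ ks + 2 * ls + (3 * Gc + 100) * s := by rw [hl, hG] at *; omega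
  have hA : ∀ lam ∈ Icc (k + l - 17 * s) (k + l - 12 * s - 9), 1 ≤ lam ∧
      4 * (Ap * nw s ks ls) ≤ 2 ^ lam := by
    intro lam hlam
    rw [mem_Icc] at hlam
    have h1 : 14 + (ks + ls + (Gc - 1100) * s) ≤ lam := by rw [hk, hl, hG] at *; omega
    refine ⟨by omega, ?_⟩
    calc 4 * (Ap * nw s ks ls) = 12000 * 2 ^ (ks + ls + (Gc - 1100) * s) := by
          unfold Ap nw
          ring
      _ ≤ 2 ^ 14 * 2 ^ (ks + ls + (Gc - 1100) * s) := Nat.mul_le_mul_right _ (by norm_num)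
      _ = 2 ^ (14 + (ks + ls + (Gc - 1100) * s)) := (pow_add _ _ _).symm
      _ ≤ 2 ^ lam := Nat.pow_le_pow_right (by norm_num) h1
  have hnw : 0 < nw s ks ls := by unfold nw; positivity
  have hpiece : ∀ lam ∈ Icc (k + l - 17 * s) (k + l - 12 * s - 9),
      (((Ico (2 ^ lam) (2 ^ (lam + 1))).filter (fun q : ℕ =>
        nd ((q : ℝ) * a / QA s ks ls) < 1 / 2 ^ (k + 10) ∧
        nd ((q : ℝ) * b / QB s ks ls) < 1 / 2 ^ (l + 10))).card : ℝ) ≤
      16 * ZZ (2 ^ lam) (3 * 2 ^ (lam - 1)) (nw s ks ls) Ap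
        (QA s ks ls / 2 ^ (k + 9)) (QA s ks ls) (QB s ks ls / 2 ^ (l + 9)) (QB s ks ls) 0 0 a b := by
    intro lam hlam
    obtain ⟨h1, h2⟩ := hA lam hlam
    have h3 := dyadic_le_ZZ (2 * ks + ls + (3 * Gc + 100) * s) (ks + 2 * ls + (3 * Gc + 100) * s)
      k l lam (nw s ks ls) Ap a b hku hlv h1 hnw h2
    unfold QA QB
    convert h3 using 2
  have hcov : (Icc 1 (2 ^ (k + l - 12 * s - 9))).filter (fun q : ℕ =>
      nd ((q : ℝ) * a / QA s ks ls) < 1 / 2 ^ (k + 10) ∧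
      nd ((q : ℝ) * b / QB s ks ls) < 1 / 2 ^ (l + 10)) ⊆
      ((Icc 1 (2 ^ (k + l - 17 * s))).filter (fun q : ℕ =>
      nd ((q : ℝ) * a / QA s ks ls) < 1 / 2 ^ k ∧
      nd ((q : ℝ) * b / QB s ks ls) < 1 / 2 ^ l)) ∪
      (Icc (k + l - 17 * s) (k + l - 12 * s - 9)).biUnion (fun lam =>
        (Ico (2 ^ lam) (2 ^ (lam + 1))).filter (fun q : ℕ =>
        nd ((q : ℝ) * a / QA s ks ls) < 1 / 2 ^ (k + 10) ∧
        nd ((q : ℝ) * b / QB s ks ls) < 1 / 2 ^ (l + 10))) := by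
    intro q hq
    rw [mem_filter, mem_Icc] at hq
    obtain ⟨⟨hq1, hq2⟩, hq3, hq4⟩ := hq
    rw [mem_union]
    by_cases hc : q ≤ 2 ^ (k + l - 17 * s)
    · left
      rw [mem_filter, mem_Icc]
      refine ⟨⟨hq1, hc⟩, hq3.trans_le ?_, hq4.trans_le ?_⟩
      · exact one_div_le_one_div_of_le (by positivity) (pow_le_pow_right₀ (by norm_num) (by omega))
      · exact one_div_le_one_div_of_le (by positivity) (pow_le_pow_right₀ (by norm_num) (by omega))
    · right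
      push Not at hc
      rw [mem_biUnion]
      refine ⟨Nat.log 2 q, ?_, ?_⟩
      · rw [mem_Icc]
        constructor
        · exact Nat.le_log_of_pow_le (by norm_num) hc.le
        · have h1 : Nat.log 2 q ≤ Nat.log 2 (2 ^ (k + l - 12 * s - 9)) := Nat.log_mono_right hq2
          rwa [Nat.log_pow (by norm_num)] at h1
      · rw [mem_filter, mem_Ico]
        exact ⟨⟨Nat.pow_log_le_self 2 (by omega), Nat.lt_pow_succ_log_self (by norm_num) q⟩, hq3, hq4⟩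
  have h1 := (card_le_card hcov).trans (card_union_le _ _)
  have h2 : (((Icc 1 (2 ^ (k + l - 12 * s - 9))).filter (fun q : ℕ =>
      nd ((q : ℝ) * a / QA s ks ls) < 1 / 2 ^ (k + 10) ∧
      nd ((q : ℝ) * b / QB s ks ls) < 1 / 2 ^ (l + 10))).card : ℝ) ≤
      ((((Icc 1 (2 ^ (k + l - 17 * s))).filter (fun q : ℕ =>
      nd ((q : ℝ) * a / QA s ks ls) < 1 / 2 ^ k ∧
      nd ((q : ℝ) * b / QB s ks ls) < 1 / 2 ^ l)).card : ℕ) : ℝ) +
      ∑ lam ∈ Icc (k + l - 17 * s) (k + l - 12 * s - 9),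
        (((Ico (2 ^ lam) (2 ^ (lam + 1))).filter (fun q : ℕ =>
        nd ((q : ℝ) * a / QA s ks ls) < 1 / 2 ^ (k + 10) ∧
        nd ((q : ℝ) * b / QB s ks ls) < 1 / 2 ^ (l + 10))).card : ℝ) := by
    have h3 := h1.trans (Nat.add_le_add_left card_biUnion_le _)
    exact_mod_cast h3
  have h4 := sum_le_sum hpiece
  unfold hom
  calc _ ≤ _ := h2
    _ ≤ _ := add_le_add_right h4 _

private theorem R2B_comm1 (I J S : Finset ℕ) (h : ℕ → ℕ → ℕ → ℝ) :
    ∑ A ∈ I, ∑ B ∈ J, ∑ x ∈ S, h A B x = ∑ x ∈ S, ∑ A ∈ I, ∑ B ∈ J, h A B x := by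
  calc ∑ A ∈ I, ∑ B ∈ J, ∑ x ∈ S, h A B x = ∑ A ∈ I, ∑ x ∈ S, ∑ B ∈ J, h A B x :=
        sum_congr rfl fun A _ => sum_comm
    _ = _ := sum_comm

private theorem R2B_comm (I J X Y : Finset ℕ) (L : ℕ → ℕ → Finset ℕ) (g : ℕ → ℕ → ℕ → ℕ → ℕ → ℝ) :
    ∑ A ∈ I, ∑ B ∈ J, ∑ x ∈ X, ∑ y ∈ Y, ∑ lam ∈ L x y, g A B x y lam =
      ∑ x ∈ X, ∑ y ∈ Y, ∑ lam ∈ L x y, ∑ A ∈ I, ∑ B ∈ J, g A B x y lam := by
  rw [R2B_comm1]
  refine sum_congr rfl fun x _ => ?_
  rw [R2B_comm1]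
  refine sum_congr rfl fun y _ => ?_
  rw [R2B_comm1]

private theorem R2B_geo (lo hi : ℕ) : ∑ lam ∈ Icc lo hi, (2 : ℝ) ^ lam ≤ 2 ^ (hi + 1) := by
  calc ∑ lam ∈ Icc lo hi, (2 : ℝ) ^ lam ≤ ∑ lam ∈ range (hi + 1), (2 : ℝ) ^ lam := by
        apply sum_le_sum_of_subset_of_nonneg
        · intro q hq
          rw [mem_Icc] at hq
          rw [mem_range]
          omega
        · intro _ _ _
          positivity
    _ = 2 ^ (hi + 1) - 1 := by
        rw [geom_sum_eq (by norm_num)]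
        norm_num
    _ ≤ 2 ^ (hi + 1) := by linarith

/-- Average over the densities: `FM` at `k+9, l+9`, `lb = λ`, `T = 3·2^(λ-1)`: each `ZZ` average is
`≤ (1 + 2^(-s)) 2^λ/2^(k+l+18)`; the sum over `λ ≤ ρ - 9` is `≤ 16 (1+2^(-s)) 2^(ρ-8)/2^(k+l+18) ≤ 2^(-21) 2^(-12s)`; the `Smq` part is
`≤ (2^s/2^n1)² ∑∑ Smq ≤ 2^(2s)/2^(15s)`. -/
theorem R2up : ∃ s0 : ℕ, ∀ s ≥ s0, ∀ ks ls α0 β0 : ℕ, ParF s ks ls → α0 < 2 ^ (2 * ks + ls) →
    β0 < 2 ^ (ks + 2 * ls) → GenF s ks ls α0 β0 → GenV s ks ls α0 β0 → ∀ f1 f3 : ℕ → ℝ, Dens s f1 →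
    Dens s f3 →
      ∑ A ∈ range (2 ^ ((3 * Gc + 100) * s)), ∑ B ∈ range (2 ^ ((3 * Gc + 100) * s)), f1 A * f3 B *
        ∑ x ∈ range s, ∑ y ∈ range s,
          (hom (QA s ks ls) (QB s ks ls) (2 ^ (ks + Gc * s - x + (ls + Gc * s - y) - 12 * s - 9))
            (1 / 2 ^ (ks + Gc * s - x + 10)) (1 / 2 ^ (ls + Gc * s - y + 10))
            (α0 * 2 ^ ((3 * Gc + 100) * s) + A) (β0 * 2 ^ ((3 * Gc + 100) * s) + B) : ℝ) ≤
      (s : ℝ) ^ 2 / (2 ^ 21 * 2 ^ (12 * s)) + 1 / 2 ^ (13 * s) := by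
  obtain ⟨s1, hFM⟩ := FM
  refine ⟨max s1 10, fun s hs ks ls α0 β0 hp hα hβ hgF hgV f1 f3 hf1 hf3 => ?_⟩
  have hs1 : s1 ≤ s := le_trans (le_max_left _ _) hs
  have hs10 : 10 ≤ s := le_trans (le_max_right _ _) hs
  have hpp := hp
  obtain ⟨-, hk1, hl1, -, -⟩ := hpp
  have hG : Gc = 100000 := rfl
  have hFM' := hFM s hs1 ks ls α0 β0 hp hα hβ hgF
  set N : ℕ := 2 ^ ((3 * Gc + 100) * s) with hN
  -- pointwise bound
  have hpt : ∀ A B : ℕ, ∑ x ∈ range s, ∑ y ∈ range s,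
      (hom (QA s ks ls) (QB s ks ls) (2 ^ (ks + Gc * s - x + (ls + Gc * s - y) - 12 * s - 9))
        (1 / 2 ^ (ks + Gc * s - x + 10)) (1 / 2 ^ (ls + Gc * s - y + 10))
        (α0 * N + A) (β0 * N + B) : ℝ) ≤
      Smq (ks + Gc * s) (ls + Gc * s) s (100 * s) (α0 * N + A) (β0 * N + B) +
      ∑ x ∈ range s, ∑ y ∈ range s,
        ∑ lam ∈ Icc (ks + Gc * s - x + (ls + Gc * s - y) - 17 * s)
          (ks + Gc * s - x + (ls + Gc * s - y) - 12 * s - 9),
        16 * ZZ (2 ^ lam) (3 * 2 ^ (lam - 1)) (nw s ks ls) Ap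
          (QA s ks ls / 2 ^ (ks + Gc * s - x + 9)) (QA s ks ls)
          (QB s ks ls / 2 ^ (ls + Gc * s - y + 9)) (QB s ks ls) 0 0
          ((α0 * N + A : ℕ) : ℤ) ((β0 * N + B : ℕ) : ℤ) := by
    intro A B
    have e1 : 2 * (ks + Gc * s) + (ls + Gc * s) + 100 * s = 2 * ks + ls + (3 * Gc + 100) * s := by ring
    have e2 : ks + Gc * s + 2 * (ls + Gc * s) + 100 * s = ks + 2 * ls + (3 * Gc + 100) * s := by ring
    unfold Smq
    rw [e1, e2, ← sum_add_distrib]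
    apply sum_le_sum
    intro x hx
    rw [← sum_add_distrib]
    apply sum_le_sum
    intro y hy
    exact hom_le_ZZ s ks ls x y (α0 * N + A) (β0 * N + B) hs10 hp (mem_range.1 hx) (mem_range.1 hy)
  have hf0 : ∀ A B, 0 ≤ f1 A * f3 B := fun A B => mul_nonneg (hf1.nn A) (hf3.nn B)
  -- first part
  have hS0 : ∀ A B : ℕ, 0 ≤ Smq (ks + Gc * s) (ls + Gc * s) s (100 * s) (α0 * N + A) (β0 * N + B) := by
    intro A B
    unfold Smq
    exact sum_nonneg fun _ _ => sum_nonneg fun _ _ => Nat.cast_nonneg _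
  have hpart1 : ∑ A ∈ range N, ∑ B ∈ range N, f1 A * f3 B *
      Smq (ks + Gc * s) (ls + Gc * s) s (100 * s) (α0 * N + A) (β0 * N + B) ≤ 1 / 2 ^ (13 * s) := by
    have h1 : ∀ A ∈ range N, ∀ B ∈ range N, f1 A * f3 B *
        Smq (ks + Gc * s) (ls + Gc * s) s (100 * s) (α0 * N + A) (β0 * N + B) ≤
        (2 ^ s / 2 ^ ((3 * Gc + 100) * s)) ^ 2 *
        Smq (ks + Gc * s) (ls + Gc * s) s (100 * s) (α0 * N + A) (β0 * N + B) := by
      intro A _ B _
      apply mul_le_mul_of_nonneg_right _ (hS0 A B)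
      rw [sq]
      exact mul_le_mul (hf1.sup A) (hf3.sup B) (hf3.nn B) (by positivity)
    calc _ ≤ ∑ A ∈ range N, ∑ B ∈ range N, ((2 : ℝ) ^ s / 2 ^ ((3 * Gc + 100) * s)) ^ 2 *
        Smq (ks + Gc * s) (ls + Gc * s) s (100 * s) (α0 * N + A) (β0 * N + B) :=
          sum_le_sum fun A hA => sum_le_sum fun B hB => h1 A hA B hB
      _ = ((2 : ℝ) ^ s / 2 ^ ((3 * Gc + 100) * s)) ^ 2 * ∑ A ∈ range N, ∑ B ∈ range N,
        Smq (ks + Gc * s) (ls + Gc * s) s (100 * s) (α0 * N + A) (β0 * N + B) := by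
          simp only [mul_sum]
      _ ≤ ((2 : ℝ) ^ s / 2 ^ ((3 * Gc + 100) * s)) ^ 2 *
          ((2 : ℝ) ^ (2 * (3 * Gc + 100) * s) / 2 ^ (15 * s)) :=
          mul_le_mul_of_nonneg_left hgV.sm (by positivity)
      _ = 1 / 2 ^ (13 * s) := by
          have e1 : (2 : ℝ) ^ (2 * (3 * Gc + 100) * s) = (2 ^ ((3 * Gc + 100) * s)) ^ 2 := by
            rw [← pow_mul]
            congr 1
            ring
          have e2 : (2 : ℝ) ^ (15 * s) = (2 ^ s) ^ 2 * 2 ^ (13 * s) := by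
            rw [← pow_mul, ← pow_add]
            congr 1
            ring
          have p1 : (0 : ℝ) < 2 ^ ((3 * Gc + 100) * s) := by positivity
          have p2 : (0 : ℝ) < 2 ^ s := by positivity
          have p3 : (0 : ℝ) < 2 ^ (13 * s) := by positivity
          rw [e1, e2]
          generalize (2 : ℝ) ^ ((3 * Gc + 100) * s) = u1 at p1 ⊢
          generalize (2 : ℝ) ^ s = u2 at p2 ⊢
          generalize (2 : ℝ) ^ (13 * s) = u3 at p3 ⊢
          field_simp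
  -- masses
  have hm1 : 0 ≤ ∑ A ∈ range N, f1 A := sum_nonneg fun A _ => hf1.nn A
  have hm3 : 0 ≤ ∑ B ∈ range N, f3 B := sum_nonneg fun B _ => hf3.nn B
  have hm : (∑ A ∈ range N, f1 A) * (∑ B ∈ range N, f3 B) ≤ 1 := by
    calc (∑ A ∈ range N, f1 A) * (∑ B ∈ range N, f3 B) ≤ 1 * 1 :=
        mul_le_mul hf1.mass hf3.mass hm3 zero_le_one
      _ = 1 := one_mul 1
  -- second part
  have hpiece : ∀ x ∈ range s, ∀ y ∈ range s,
      ∀ lam ∈ Icc (ks + Gc * s - x + (ls + Gc * s - y) - 17 * s)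
        (ks + Gc * s - x + (ls + Gc * s - y) - 12 * s - 9),
      ∑ A ∈ range N, ∑ B ∈ range N, f1 A * f3 B * (16 * ZZ (2 ^ lam) (3 * 2 ^ (lam - 1)) (nw s ks ls) Ap
          (QA s ks ls / 2 ^ (ks + Gc * s - x + 9)) (QA s ks ls)
          (QB s ks ls / 2 ^ (ls + Gc * s - y + 9)) (QB s ks ls) 0 0
          ((α0 * N + A : ℕ) : ℤ) ((β0 * N + B : ℕ) : ℤ)) ≤
        2 ^ lam * (32 / 2 ^ (ks + Gc * s - x + 9 + (ls + Gc * s - y + 9))) := by
    intro x hx y hy lam hlam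
    rw [mem_range] at hx hy
    rw [mem_Icc] at hlam
    have c1 : ks + (Gc - 1) * s ≤ ks + Gc * s - x + 9 := by rw [hG] at *; omega
    have c2 : ks + Gc * s - x + 9 ≤ ks + (Gc + 1) * s := by rw [hG] at *; omega
    have c3 : ls + (Gc - 1) * s ≤ ls + Gc * s - y + 9 := by rw [hG] at *; omega
    have c4 : ls + Gc * s - y + 9 ≤ ls + (Gc + 1) * s := by rw [hG] at *; omega
    have c5 : ks + ls + (2 * Gc - 22) * s ≤ lam := by rw [hG] at *; omega
    have c6 : lam ≤ ks + ls + (2 * Gc - 11) * s := by rw [hG] at *; omega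
    have c7 : 1 ≤ lam := by rw [hG] at *; omega
    have e1 : (2 : ℤ) ^ lam = 2 * 2 ^ (lam - 1) := by
      have : lam = (lam - 1) + 1 := by omega
      nth_rewrite 1 [this]
      rw [pow_succ]
      ring
    have t1 : 3 * (2 : ℤ) ^ lam ≤ 2 * (3 * 2 ^ (lam - 1)) := by rw [e1]; linarith
    have t2 : 3 * (2 : ℤ) ^ (lam - 1) ≤ 2 ^ (lam + 3) := by
      rw [pow_add, e1]
      have : (0 : ℤ) < 2 ^ (lam - 1) := by positivity
      linarith
    have h1 := hFM' (ks + Gc * s - x + 9) (ls + Gc * s - y + 9) lam c1 c2 c3 c4 c5 c6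
      (3 * 2 ^ (lam - 1)) t1 t2 f1 f3 hf1 hf3 0 0
    set X : ℝ := 2 ^ lam / 2 ^ (ks + Gc * s - x + 9 + (ls + Gc * s - y + 9)) with hX
    have hX0 : 0 < X := by rw [hX]; positivity
    have h2 := (abs_le.1 h1).2
    have h3 : X / 2 ^ s ≤ X := div_le_self hX0.le (one_le_pow₀ (by norm_num))
    have h4 : (∑ A ∈ range N, f1 A) * (∑ B ∈ range N, f3 B) * X ≤ 1 * X :=
      mul_le_mul_of_nonneg_right hm hX0.le
    have h5 : ∀ (F : ℕ → ℕ → ℝ), ∑ A ∈ range N, ∑ B ∈ range N, f1 A * f3 B * (16 * F A B) =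
        16 * ∑ A ∈ range N, ∑ B ∈ range N, f1 A * f3 B * F A B := by
      intro F
      simp only [mul_sum]
      refine sum_congr rfl fun A _ => sum_congr rfl fun B _ => ?_
      ring
    rw [h5]
    have h6 : 2 ^ lam * (32 / 2 ^ (ks + Gc * s - x + 9 + (ls + Gc * s - y + 9))) = 32 * X := by
      rw [hX]
      ring
    rw [h6]
    linarith
  have hpart2 : ∑ x ∈ range s, ∑ y ∈ range s,
        ∑ lam ∈ Icc (ks + Gc * s - x + (ls + Gc * s - y) - 17 * s)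
          (ks + Gc * s - x + (ls + Gc * s - y) - 12 * s - 9),
        ∑ A ∈ range N, ∑ B ∈ range N, f1 A * f3 B * (16 * ZZ (2 ^ lam) (3 * 2 ^ (lam - 1)) (nw s ks ls) Ap
          (QA s ks ls / 2 ^ (ks + Gc * s - x + 9)) (QA s ks ls)
          (QB s ks ls / 2 ^ (ls + Gc * s - y + 9)) (QB s ks ls) 0 0
          ((α0 * N + A : ℕ) : ℤ) ((β0 * N + B : ℕ) : ℤ)) ≤
        (s : ℝ) ^ 2 / (2 ^ 21 * 2 ^ (12 * s)) := by
    have h1 : ∀ x ∈ range s, ∀ y ∈ range s,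
        ∑ lam ∈ Icc (ks + Gc * s - x + (ls + Gc * s - y) - 17 * s)
          (ks + Gc * s - x + (ls + Gc * s - y) - 12 * s - 9),
        ∑ A ∈ range N, ∑ B ∈ range N, f1 A * f3 B * (16 * ZZ (2 ^ lam) (3 * 2 ^ (lam - 1)) (nw s ks ls) Ap
          (QA s ks ls / 2 ^ (ks + Gc * s - x + 9)) (QA s ks ls)
          (QB s ks ls / 2 ^ (ls + Gc * s - y + 9)) (QB s ks ls) 0 0
          ((α0 * N + A : ℕ) : ℤ) ((β0 * N + B : ℕ) : ℤ)) ≤ 1 / (2 ^ 21 * 2 ^ (12 * s)) := by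
      intro x hx y hy
      refine (sum_le_sum (hpiece x hx y hy)).trans ?_
      rw [← sum_mul]
      rw [mem_range] at hx hy
      refine (mul_le_mul_of_nonneg_right (R2B_geo _ _) (by positivity)).trans (le_of_eq ?_)
      have e1 : ks + Gc * s - x + 9 + (ls + Gc * s - y + 9) =
          (ks + Gc * s - x + (ls + Gc * s - y) - 12 * s - 9 + 1) + (26 + 12 * s) := by
        rw [hG] at *
        omega
      rw [e1, pow_add _ _ (26 + 12 * s), pow_add _ 26]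
      have p1 : (0 : ℝ) < 2 ^ (ks + Gc * s - x + (ls + Gc * s - y) - 12 * s - 9 + 1) := by positivity
      have p2 : (0 : ℝ) < 2 ^ (12 * s) := by positivity
      generalize (2 : ℝ) ^ (ks + Gc * s - x + (ls + Gc * s - y) - 12 * s - 9 + 1) = u1 at p1 ⊢
      generalize (2 : ℝ) ^ (12 * s) = u2 at p2 ⊢
      field_simp
      norm_num
    refine (sum_le_sum fun x hx => sum_le_sum fun y hy => h1 x hx y hy).trans (le_of_eq ?_)
    simp only [sum_const, card_range, nsmul_eq_mul]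
    ring
  calc _ ≤ ∑ A ∈ range N, ∑ B ∈ range N, (f1 A * f3 B *
        Smq (ks + Gc * s) (ls + Gc * s) s (100 * s) (α0 * N + A) (β0 * N + B) +
        ∑ x ∈ range s, ∑ y ∈ range s,
        ∑ lam ∈ Icc (ks + Gc * s - x + (ls + Gc * s - y) - 17 * s)
          (ks + Gc * s - x + (ls + Gc * s - y) - 12 * s - 9),
        f1 A * f3 B * (16 * ZZ (2 ^ lam) (3 * 2 ^ (lam - 1)) (nw s ks ls) Ap
          (QA s ks ls / 2 ^ (ks + Gc * s - x + 9)) (QA s ks ls)
          (QB s ks ls / 2 ^ (ls + Gc * s - y + 9)) (QB s ks ls) 0 0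
          ((α0 * N + A : ℕ) : ℤ) ((β0 * N + B : ℕ) : ℤ))) := by
        apply sum_le_sum
        intro A _
        apply sum_le_sum
        intro B _
        refine (mul_le_mul_of_nonneg_left (hpt A B) (hf0 A B)).trans (le_of_eq ?_)
        rw [mul_add]
        congr 1
        simp only [mul_sum]
    _ = (∑ A ∈ range N, ∑ B ∈ range N, f1 A * f3 B *
        Smq (ks + Gc * s) (ls + Gc * s) s (100 * s) (α0 * N + A) (β0 * N + B)) +
        ∑ A ∈ range N, ∑ B ∈ range N, ∑ x ∈ range s, ∑ y ∈ range s,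
        ∑ lam ∈ Icc (ks + Gc * s - x + (ls + Gc * s - y) - 17 * s)
          (ks + Gc * s - x + (ls + Gc * s - y) - 12 * s - 9),
        f1 A * f3 B * (16 * ZZ (2 ^ lam) (3 * 2 ^ (lam - 1)) (nw s ks ls) Ap
          (QA s ks ls / 2 ^ (ks + Gc * s - x + 9)) (QA s ks ls)
          (QB s ks ls / 2 ^ (ls + Gc * s - y + 9)) (QB s ks ls) 0 0
          ((α0 * N + A : ℕ) : ℤ) ((β0 * N + B : ℕ) : ℤ)) := by
        simp only [sum_add_distrib]
    _ ≤ 1 / 2 ^ (13 * s) + (s : ℝ) ^ 2 / (2 ^ 21 * 2 ^ (12 * s)) := by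
        rw [R2B_comm]
        exact add_le_add hpart1 hpart2
    _ = _ := add_comm _ _

end MP_5e4520_nt.Ex
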