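import Pool.Agent.Lib.MP_5e4520_ntE.V2
set_option autoImplicit false

/-!
# Pointwise bound for the number of shell elements of the block
-/

namespace MP_5e4520_nt.Ex

open Finset

/-- equally spaced values in an interval of length `2^10` times the spacing -/
private lemma V3_sep (U : Finset ℕ) (f : ℕ → ℝ) (c δ : ℝ) (qs q0 : ℕ)
    (h : ∀ q ∈ U, ∃ n : ℕ, q = qs + n * q0 ∧ f q = c + n * δ)
    (hU : ∀ q ∈ U, 0 < f q ∧ f q < 2 ^ 10 * |δ|) : U.card ≤ 2 ^ 10 := by
  classical
  rcases U.eq_empty_or_nonempty with hE | ⟨u, hu⟩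
  · rw [hE]
    simp
  · have hδ : 0 < |δ| := by
      obtain ⟨h1, h2⟩ := hU u hu
      have : 0 < 2 ^ 10 * |δ| := h1.trans h2
      exact (mul_pos_iff_of_pos_left (by norm_num)).1 this
    have hδ0 : δ ≠ 0 := abs_pos.1 hδ
    obtain ⟨σ, hσ, hσ1⟩ : ∃ σ : ℤ, δ = σ * |δ| ∧ σ ≠ 0 := by
      rcases lt_or_gt_of_ne hδ0 with h1 | h1
      · refine ⟨-1, ?_, by norm_num⟩
        rw [abs_of_neg h1]
        push_cast
        ring
      · refine ⟨1, ?_, by norm_num⟩
        rw [abs_of_pos h1]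
        push_cast
        ring
    have hval : ∀ q ∈ U, ∀ n : ℕ, f q = c + n * δ → ⌊f q / |δ|⌋ = ⌊c / |δ|⌋ + n * σ := by
      intro q _ n hn
      have h1 : f q / |δ| = c / |δ| + ((n * σ : ℤ) : ℝ) := by
        rw [hn]
        push_cast
        nth_rewrite 1 [hσ]
        field_simp
      rw [h1, Int.floor_add_intCast]
    have hcard : U.card ≤ (range (2 ^ 10)).card := by
      apply card_le_card_of_injOn (fun q => ⌊f q / |δ|⌋.toNat)
      · intro q hq
        obtain ⟨h1, h2⟩ := hU q hq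
        simp only [coe_range, Set.mem_Iio]
        have h3 : ⌊f q / |δ|⌋ < 2 ^ 10 := by
          rw [Int.floor_lt]
          push_cast
          rw [div_lt_iff₀ hδ]
          linarith
        have h4 : 0 ≤ ⌊f q / |δ|⌋ := Int.floor_nonneg.2 (by positivity)
        omega
      · intro q hq q' hq' hqq
        obtain ⟨n, n1, n2⟩ := h q hq
        obtain ⟨n', n1', n2'⟩ := h q' hq'
        have h4 : 0 ≤ ⌊f q / |δ|⌋ := Int.floor_nonneg.2 (div_nonneg (hU q hq).1.le hδ.le)
        have h4' : 0 ≤ ⌊f q' / |δ|⌋ := Int.floor_nonneg.2 (div_nonneg (hU q' hq').1.le hδ.le)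
        simp only at hqq
        have h5 : ⌊f q / |δ|⌋ = ⌊f q' / |δ|⌋ := by omega
        rw [hval q hq n n2, hval q' hq' n' n2'] at h5
        have h6 : (n : ℤ) * σ = n' * σ := by linarith
        have h7 : (n : ℤ) = n' := mul_right_cancel₀ hσ1 h6
        have h8 : n = n' := by exact_mod_cast h7
        rw [n1, n1', h8]
    rwa [card_range] at hcard

/-- two numbers of absolute value less than `1/2` which differ by an integer -/
private lemma V3_int (u v : ℝ) (z : ℤ) (h : u = v + z) (hu : |u| < 1 / 2) (hv : |v| ≤ 1 / 2) :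
    u = v := by
  have h1 : |(z : ℝ)| < 1 := by
    have : (z : ℝ) = u - v := by linarith
    rw [this]
    calc |u - v| ≤ |u| + |v| := abs_sub _ _
      _ < 1 := by linarith
  have h2 : |z| < 1 := by exact_mod_cast h1
  have h3 : z = 0 := Int.abs_lt_one_iff.1 h2
  rw [h, h3]
  simp

open Classical in
/-- JOB V3.  Rank `≤ 1`: the tests WITHOUT small return contribute at most `3 · 2^10` shell elements in total.
Let `U` be the set of all shell elements of these tests (disjoint union, `shell_disj`).  If `#U ≤ 1` done.  Otherwise let `q* = min U`;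
by `shell_diff` all `q - q*` (`q ∈ U`, `q ≠ q*`) are returns in the box of `rk`; `min_return` gives `q0, δ1, δ2` and
`q = q* + n q0`; and `pos1 q - pos1 q* = n δ1` exactly, `pos2 q - pos2 q* = n δ2` (both sides are equal modulo `1` by `pos1_diff`, and are
`< 1/2` in absolute value).  In particular `q` (in `U`) is determined by `n`.  A test `(x,y)` without small return satisfies one of
(i) `2^(ρ-9) < q0`; then `q < 2^(ρ+1) < 2^10 q0`: all elements of all these tests have `n < 2^10`;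
(ii) `1/2^(k+10) ≤ |δ1|`; then `0 < pos1 q < 1/2^k ≤ 2^10 |δ1|`; the numbers `pos1 q* + n δ1` are `|δ1|`-separated, so at most
`2^10` values of `n` (all tests of this type together);  (iii) the same with `δ2`.
(If none of (i)-(iii) holds `q0` itself is counted by `hom`: the test has a small return.) -/
theorem V_noret (κ lm s e g d a b : ℕ) (hs : 1 ≤ s) (hκ : 20 * s ≤ κ) (hl : 20 * s ≤ lm)
    (hr : ¬ rk κ lm s e a b) :
    ∑ x ∈ range s, ∑ y ∈ range s,
      (if hom (2 ^ (2 * κ + lm + e)) (2 ^ (κ + 2 * lm + e)) (2 ^ (κ - x + (lm - y) - 12 * s - 9))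
          (1 / 2 ^ (κ - x + 10)) (1 / 2 ^ (lm - y + 10)) a b = 0
        then ((shl κ lm s e x y g d a b).card : ℝ) else 0) ≤ 3 * 2 ^ 10 := by
  set Q1 : ℕ := 2 ^ (2 * κ + lm + e) with hQ1
  set Q2 : ℕ := 2 ^ (κ + 2 * lm + e) with hQ2
  set P : ℕ → ℕ → Prop := fun x y => hom Q1 Q2 (2 ^ (κ - x + (lm - y) - 12 * s - 9))
          (1 / 2 ^ (κ - x + 10)) (1 / 2 ^ (lm - y + 10)) a b = 0 with hP
  set T : Finset (ℕ × ℕ) := (range s ×ˢ range s).filter (fun p => P p.1 p.2) with hT
  set U : Finset ℕ := T.biUnion (fun p => shl κ lm s e p.1 p.2 g d a b) with hU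
  have hTmem : ∀ p ∈ T, p.1 < s ∧ p.2 < s ∧ P p.1 p.2 := by
    intro p hp
    rw [hT, mem_filter, mem_product, mem_range, mem_range] at hp
    exact ⟨hp.1.1, hp.1.2, hp.2⟩
  have hsum : ∑ x ∈ range s, ∑ y ∈ range s,
      (if P x y then ((shl κ lm s e x y g d a b).card : ℝ) else 0) = (U.card : ℝ) := by
    rw [hU, card_biUnion]
    · push_cast
      rw [hT, sum_filter, sum_product]
    · intro p hp p' hp' hne
      rw [Function.onFun, disjoint_left]
      intro q hq hq'
      apply hne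
      obtain ⟨p1, p2, _⟩ := hTmem p hp
      obtain ⟨p1', p2', _⟩ := hTmem p' hp'
      obtain ⟨h1, h2⟩ := shell_disj κ lm s e p.1 p.2 p'.1 p'.2 g d a b q hs p1 p2 p1' p2' hκ hl hq hq'
      exact Prod.ext h1 h2
  change ∑ x ∈ range s, ∑ y ∈ range s,
      (if P x y then ((shl κ lm s e x y g d a b).card : ℝ) else 0) ≤ 3 * 2 ^ 10
  rw [hsum]
  suffices hmain : U.card ≤ 3 * 2 ^ 10 by exact_mod_cast hmain
  by_cases hU1 : U.card ≤ 1
  · omega
  push Not at hU1
  have hUne : U.Nonempty := card_pos.1 (by omega)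
  set qs := U.min' hUne with hqs
  have hqsU : qs ∈ U := U.min'_mem hUne
  have hmem : ∀ q ∈ U, ∃ x y, x < s ∧ y < s ∧ P x y ∧ q ∈ shl κ lm s e x y g d a b := by
    intro q hq
    rw [hU, mem_biUnion] at hq
    obtain ⟨p, hp, hq⟩ := hq
    obtain ⟨p1, p2, p3⟩ := hTmem p hp
    exact ⟨p.1, p.2, p1, p2, p3, hq⟩
  have hret : ∀ q ∈ U, q ≠ qs → 1 ≤ q - qs ∧ q - qs ≤ 2 ^ (κ + lm - 12 * s + 1) ∧
      nd (((q - qs : ℕ) : ℝ) * a / (Q1 : ℝ)) < 2 ^ (s + 1) / 2 ^ κ ∧
      nd (((q - qs : ℕ) : ℝ) * b / (Q2 : ℝ)) < 2 ^ (s + 1) / 2 ^ lm := by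
    intro q hq hne
    have hlt : qs < q := lt_of_le_of_ne (U.min'_le q hq) (Ne.symm hne)
    obtain ⟨x, y, hx, hy, _, hqs1⟩ := hmem q hq
    obtain ⟨x', y', hx', hy', _, hqs2⟩ := hmem qs hqsU
    exact shell_diff κ lm s e x y x' y' g d a b q qs hs hx hy hx' hy' hκ hl hqs1 hqs2 hlt
  obtain ⟨q1, hq1U, hq1ne⟩ : ∃ q ∈ U, q ≠ qs := exists_mem_ne hU1 qs
  obtain ⟨q0, δ1, δ2, g1, g2, g3, g4, g5, g6, g7⟩ :=
    min_return Q1 Q2 _ _ _ a b hr ⟨q1 - qs, hret q1 hq1U hq1ne⟩
  -- positions are small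
  have hsmall : ∀ q ∈ U, 0 < pos1 κ lm e g a q ∧ pos1 κ lm e g a q < 1 / 2 ∧
      0 < pos2 κ lm e d b q ∧ pos2 κ lm e d b q < 1 / 2 := by
    intro q hq
    obtain ⟨x, y, hx, hy, _, hqs1⟩ := hmem q hq
    obtain ⟨a1, a2, a3, a4, _, _⟩ := shl_pos κ lm s e x y g d a b q (by omega) (by omega) hqs1
    have hh : ∀ n : ℕ, 1 ≤ n → (1 : ℝ) / 2 ^ n ≤ 1 / 2 := by
      intro n hn
      apply one_div_le_one_div_of_le (by norm_num)
      calc (2 : ℝ) = 2 ^ 1 := by norm_num
        _ ≤ 2 ^ n := pow_le_pow_right₀ (by norm_num) hn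
    refine ⟨lt_trans (by positivity) a1, lt_of_lt_of_le a2 (hh _ (by omega)),
      lt_trans (by positivity) a3, lt_of_lt_of_le a4 (hh _ (by omega))⟩
  have hn : ∀ q ∈ U, ∃ n : ℕ, q = qs + n * q0 ∧
      pos1 κ lm e g a q = pos1 κ lm e g a qs + n * δ1 ∧
      pos2 κ lm e d b q = pos2 κ lm e d b qs + n * δ2 := by
    intro q hq
    by_cases hne : q = qs
    · exact ⟨0, by simp [hne], by simp [hne], by simp [hne]⟩
    · have hle : qs ≤ q := U.min'_le q hq
      obtain ⟨r1, r2, r3, r4⟩ := hret q hq hne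
      obtain ⟨n, n1, n2, n3, n4, ⟨z1, n5⟩, ⟨z2, n6⟩⟩ := g7 (q - qs) r1 r2 r3 r4
      obtain ⟨s1, s2, s3, s4⟩ := hsmall q hq
      obtain ⟨t1, t2, t3, t4⟩ := hsmall qs hqsU
      refine ⟨n, by omega, ?_, ?_⟩
      · obtain ⟨z, hz⟩ := pos1_diff κ lm e g a q qs hle
        have h1 : pos1 κ lm e g a q - pos1 κ lm e g a qs = n * δ1 := by
          apply V3_int _ _ (z1 - z)
          · rw [hz]
            rw [n5]
            push_cast
            ring
          · rw [abs_lt]
            constructor <;> linarith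
          · rw [abs_mul, abs_of_nonneg (Nat.cast_nonneg n : (0 : ℝ) ≤ (n : ℝ)), ← n3]
            exact nd_le_half _
        linarith
      · obtain ⟨z, hz⟩ := pos2_diff κ lm e d b q qs hle
        have h1 : pos2 κ lm e d b q - pos2 κ lm e d b qs = n * δ2 := by
          apply V3_int _ _ (z2 - z)
          · rw [hz]
            rw [n6]
            push_cast
            ring
          · rw [abs_lt]
            constructor <;> linarith
          · rw [abs_mul, abs_of_nonneg (Nat.cast_nonneg n : (0 : ℝ) ≤ (n : ℝ)), ← n4]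
            exact nd_le_half _
        linarith
  -- the three types
  set U1 := U.filter (fun q => q - qs < 2 ^ 10 * q0) with hU1d
  set U2 := U.filter (fun q => pos1 κ lm e g a q < 2 ^ 10 * |δ1|) with hU2d
  set U3 := U.filter (fun q => pos2 κ lm e d b q < 2 ^ 10 * |δ2|) with hU3d
  have hcov : U ⊆ U1 ∪ U2 ∪ U3 := by
    intro q hq
    obtain ⟨x, y, hx, hy, hPxy, hqs1⟩ := hmem q hq
    obtain ⟨a1, a2, a3, a4, a5, a6⟩ :=
      shl_pos κ lm s e x y g d a b q (by omega) (by omega) hqs1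
    set ρ := κ - x + (lm - y) - 12 * s with hρ
    by_cases c1 : 2 ^ (ρ - 9) < q0
    · apply mem_union_left
      apply mem_union_left
      rw [hU1d, mem_filter]
      refine ⟨hq, ?_⟩
      have h1 : 2 ^ (ρ + 1) = 2 ^ 10 * 2 ^ (ρ - 9) := by
        rw [← pow_add]
        congr 1
        omega
      have h2 : 2 ^ 10 * 2 ^ (ρ - 9) < 2 ^ 10 * q0 := Nat.mul_lt_mul_of_pos_left c1 (by norm_num)
      omega
    · by_cases c2 : (1 : ℝ) / 2 ^ (κ - x + 10) ≤ |δ1|
      · apply mem_union_left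
        apply mem_union_right
        rw [hU2d, mem_filter]
        refine ⟨hq, lt_of_lt_of_le a2 ?_⟩
        have h1 : (1 : ℝ) / 2 ^ (κ - x) = 2 ^ 10 * (1 / 2 ^ (κ - x + 10)) := by
          rw [pow_add]
          field_simp
        rw [h1]
        exact mul_le_mul_of_nonneg_left c2 (by positivity)
      · by_cases c3 : (1 : ℝ) / 2 ^ (lm - y + 10) ≤ |δ2|
        · apply mem_union_right
          rw [hU3d, mem_filter]
          refine ⟨hq, lt_of_lt_of_le a4 ?_⟩
          have h1 : (1 : ℝ) / 2 ^ (lm - y) = 2 ^ 10 * (1 / 2 ^ (lm - y + 10)) := by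
            rw [pow_add]
            field_simp
          rw [h1]
          exact mul_le_mul_of_nonneg_left c3 (by positivity)
        · exfalso
          push Not at c1 c2 c3
          have hpos : 0 < hom Q1 Q2 (2 ^ (ρ - 9)) (1 / 2 ^ (κ - x + 10)) (1 / 2 ^ (lm - y + 10)) a b := by
            unfold hom
            apply card_pos.2
            refine ⟨q0, ?_⟩
            rw [mem_filter, mem_Icc, ← g5, ← g6]
            exact ⟨⟨g1, c1⟩, c2, c3⟩
          have h0 : hom Q1 Q2 (2 ^ (ρ - 9)) (1 / 2 ^ (κ - x + 10)) (1 / 2 ^ (lm - y + 10)) a b = 0 :=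
            hPxy
          omega
  have hc1 : U1.card ≤ 2 ^ 10 := by
    have hcard : U1.card ≤ (range (2 ^ 10)).card := by
      apply card_le_card_of_injOn (fun q => (q - qs) / q0)
      · intro q hq
        rw [mem_coe, hU1d, mem_filter] at hq
        obtain ⟨n, n1, _, _⟩ := hn q hq.1
        simp only [coe_range, Set.mem_Iio]
        have h1 : q - qs = n * q0 := by omega
        rw [h1, Nat.mul_div_cancel _ g1]
        have h2 := hq.2
        rw [h1] at h2
        exact Nat.lt_of_mul_lt_mul_right h2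
      · intro q hq q' hq' hqq
        rw [mem_coe, hU1d, mem_filter] at hq hq'
        obtain ⟨n, n1, _, _⟩ := hn q hq.1
        obtain ⟨n', n1', _, _⟩ := hn q' hq'.1
        have h1 : q - qs = n * q0 := by omega
        have h1' : q' - qs = n' * q0 := by omega
        simp only at hqq
        rw [h1, h1', Nat.mul_div_cancel _ g1, Nat.mul_div_cancel _ g1] at hqq
        rw [n1, n1', hqq]
    rwa [card_range] at hcard
  have hc2 : U2.card ≤ 2 ^ 10 := by
    apply V3_sep U2 (fun q => pos1 κ lm e g a q) (pos1 κ lm e g a qs) δ1 qs q0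
    · intro q hq
      rw [hU2d, mem_filter] at hq
      obtain ⟨n, n1, n2, _⟩ := hn q hq.1
      exact ⟨n, n1, n2⟩
    · intro q hq
      rw [hU2d, mem_filter] at hq
      exact ⟨(hsmall q hq.1).1, hq.2⟩
  have hc3 : U3.card ≤ 2 ^ 10 := by
    apply V3_sep U3 (fun q => pos2 κ lm e d b q) (pos2 κ lm e d b qs) δ2 qs q0
    · intro q hq
      rw [hU3d, mem_filter] at hq
      obtain ⟨n, n1, _, n2⟩ := hn q hq.1
      exact ⟨n, n1, n2⟩
    · intro q hq
      rw [hU3d, mem_filter] at hq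
      exact ⟨(hsmall q hq.1).2.2.1, hq.2⟩
  calc U.card ≤ (U1 ∪ U2 ∪ U3).card := card_le_card hcov
    _ ≤ (U1 ∪ U2).card + U3.card := card_union_le _ _
    _ ≤ U1.card + U2.card + U3.card := by
        have := card_union_le U1 U2
        omega
    _ ≤ 3 * 2 ^ 10 := by omega

open Classical in
/-- The pointwise bound.  If all shells are empty the left side is `0`.  Otherwise `hitB` holds (`hitB_of_shell`); if `rk` use
`shl_card_hom` and `hom_mono`; if not, `V_noret` for the tests without small return and `shl_card_small` for the others. -/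
theorem V_pointwise (κ lm s e g d a b : ℕ) (hs : 1 ≤ s) (hκ : 20 * s ≤ κ) (hl : 20 * s ≤ lm) :
    ∑ x ∈ range s, ∑ y ∈ range s, ((shl κ lm s e x y g d a b).card : ℝ) ≤
      3 * 2 ^ 10 * (if hitB κ lm (12 * s) s (a / 2 ^ e) (b / 2 ^ e) g d then 1 else 0) +
      2 ^ 10 * ∑ x ∈ range s, ∑ y ∈ range s,
        (hom (2 ^ (2 * κ + lm + e)) (2 ^ (κ + 2 * lm + e)) (2 ^ (κ - x + (lm - y) - 12 * s - 9))
          (1 / 2 ^ (κ - x + 10)) (1 / 2 ^ (lm - y + 10)) a b : ℝ) + Wrk κ lm s e a b := by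
  set Q1 : ℕ := 2 ^ (2 * κ + lm + e) with hQ1
  set Q2 : ℕ := 2 ^ (κ + 2 * lm + e) with hQ2
  have hW : 0 ≤ Wrk κ lm s e a b := by
    unfold Wrk
    split_ifs
    · exact sum_nonneg fun x _ => sum_nonneg fun y _ => by positivity
    · exact le_rfl
  have hH : (0 : ℝ) ≤ 2 ^ 10 * ∑ x ∈ range s, ∑ y ∈ range s,
        (hom Q1 Q2 (2 ^ (κ - x + (lm - y) - 12 * s - 9))
          (1 / 2 ^ (κ - x + 10)) (1 / 2 ^ (lm - y + 10)) a b : ℝ) := by
    apply mul_nonneg (by norm_num)
    exact sum_nonneg fun x _ => sum_nonneg fun y _ => by positivity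
  by_cases hall : ∀ x ∈ range s, ∀ y ∈ range s, shl κ lm s e x y g d a b = ∅
  · have h0 : ∑ x ∈ range s, ∑ y ∈ range s, ((shl κ lm s e x y g d a b).card : ℝ) = 0 := by
      apply sum_eq_zero
      intro x hx
      apply sum_eq_zero
      intro y hy
      rw [hall x hx y hy]
      simp
    rw [h0]
    have h1 : (0 : ℝ) ≤ 3 * 2 ^ 10 *
        (if hitB κ lm (12 * s) s (a / 2 ^ e) (b / 2 ^ e) g d then 1 else 0) := by
      apply mul_nonneg (by norm_num)
      split_ifs <;> norm_num
    linarith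
  · push Not at hall
    obtain ⟨x, hx, y, hy, hxy⟩ := hall
    obtain ⟨q, hq⟩ := hxy
    rw [mem_range] at hx hy
    rw [if_pos (hitB_of_shell κ lm s e x y g d a b q hs hx hy hκ hl hq)]
    by_cases hr : rk κ lm s e a b
    · have hle : ∑ x ∈ range s, ∑ y ∈ range s, ((shl κ lm s e x y g d a b).card : ℝ) ≤
          Wrk κ lm s e a b := by
        unfold Wrk
        rw [if_pos hr]
        apply sum_le_sum
        intro x hx
        apply sum_le_sum
        intro y hy
        rw [mem_range] at hx hy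
        refine (shl_card_hom κ lm s e x y g d a b hs hx hy hκ hl).trans ?_
        have hm : hom Q1 Q2 (2 ^ (κ - x + (lm - y) - 12 * s)) (1 / 2 ^ (κ - x + 1))
            (1 / 2 ^ (lm - y + 1)) a b ≤ hom Q1 Q2 (2 ^ (κ - x + (lm - y) - 12 * s + 1))
            (1 / 2 ^ (κ - x)) (1 / 2 ^ (lm - y)) a b := by
          apply hom_mono
          · exact Nat.pow_le_pow_right (by norm_num) (by omega)
          · apply one_div_le_one_div_of_le (by positivity)
            exact pow_le_pow_right₀ (by norm_num) (by omega)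
          · apply one_div_le_one_div_of_le (by positivity)
            exact pow_le_pow_right₀ (by norm_num) (by omega)
        have hmR : (hom Q1 Q2 (2 ^ (κ - x + (lm - y) - 12 * s)) (1 / 2 ^ (κ - x + 1))
            (1 / 2 ^ (lm - y + 1)) a b : ℝ) ≤ (hom Q1 Q2 (2 ^ (κ - x + (lm - y) - 12 * s + 1))
            (1 / 2 ^ (κ - x)) (1 / 2 ^ (lm - y)) a b : ℝ) := by exact_mod_cast hm
        linarith
      linarith
    · have h1 := V_noret κ lm s e g d a b hs hκ hl hr
      have h2 : ∑ x ∈ range s, ∑ y ∈ range s, ((shl κ lm s e x y g d a b).card : ℝ) ≤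
          ∑ x ∈ range s, ∑ y ∈ range s,
          (if hom Q1 Q2 (2 ^ (κ - x + (lm - y) - 12 * s - 9))
            (1 / 2 ^ (κ - x + 10)) (1 / 2 ^ (lm - y + 10)) a b = 0
          then ((shl κ lm s e x y g d a b).card : ℝ) else 0) +
          2 ^ 10 * ∑ x ∈ range s, ∑ y ∈ range s,
          (hom Q1 Q2 (2 ^ (κ - x + (lm - y) - 12 * s - 9))
            (1 / 2 ^ (κ - x + 10)) (1 / 2 ^ (lm - y + 10)) a b : ℝ) := by
        rw [mul_sum, ← sum_add_distrib]
        apply sum_le_sum
        intro x hx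
        rw [mul_sum, ← sum_add_distrib]
        apply sum_le_sum
        intro y hy
        rw [mem_range] at hx hy
        split_ifs with hh
        · rw [hh]
          simp
        · have := shl_card_small κ lm s e x y g d a b hs hx hy hκ hl hr (Nat.pos_of_ne_zero hh)
          linarith
      linarith

end MP_5e4520_nt.Ex
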