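import Pool.Agent.Lib.MP_5e4520_ntE.R2B
import Pool.Agent.Lib.MP_5e4520_ntE.V3
set_option autoImplicit false

/-!
# Small blocks: the probability of a hit
-/

namespace MP_5e4520_nt.Ex

open Finset

private lemma R2C_div (s α A : ℕ) :
    (α * 2 ^ ((3 * Gc + 100) * s) + A) / 2 ^ (100 * s) = α * 2 ^ (3 * Gc * s) + A / 2 ^ (100 * s) := by
  have h : (2 : ℕ) ^ ((3 * Gc + 100) * s) = 2 ^ (3 * Gc * s) * 2 ^ (100 * s) := by
    rw [← pow_add]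
    congr 1
    ring
  rw [h, ← mul_assoc, add_comm, Nat.add_mul_div_right _ _ (by positivity), add_comm]

private lemma R2C_QA (s ks ls : ℕ) :
    QA s ks ls = 2 ^ (2 * (ks + Gc * s) + (ls + Gc * s) + 100 * s) := by
  unfold QA
  congr 1
  ring

private lemma R2C_QB (s ks ls : ℕ) :
    QB s ks ls = 2 ^ (ks + Gc * s + 2 * (ls + Gc * s) + 100 * s) := by
  unfold QB
  congr 1
  ring

private lemma R2C_half (s : ℕ) (p : ℕ → ℝ) (h : Dens3 s p) :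
    1 / 2 ≤ ∑ A ∈ range (2 ^ ((3 * Gc + 100) * s)), extf s p A := by
  have h1 := extf_sum s p (fun _ => 1)
  simp only [mul_one] at h1
  rw [h1]
  exact h.half

open Classical in
private lemma R2C_pr (s ks ls α0 β0 : ℕ) (p1 p3 : ℕ → ℝ) (g d : ℕ) :
    ∑ A ∈ range (2 ^ ((3 * Gc + 100) * s)), ∑ B ∈ range (2 ^ ((3 * Gc + 100) * s)),
      extf s p1 A * extf s p3 B *
        (if hitB (ks + Gc * s) (ls + Gc * s) (12 * s) s
          ((α0 * 2 ^ ((3 * Gc + 100) * s) + A) / 2 ^ (100 * s))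
          ((β0 * 2 ^ ((3 * Gc + 100) * s) + B) / 2 ^ (100 * s)) g d then (1 : ℝ) else 0) =
    ∑ A ∈ range (2 ^ (3 * Gc * s)), ∑ B ∈ range (2 ^ (3 * Gc * s)), p1 A * p3 B *
        (if hitB (ks + Gc * s) (ls + Gc * s) (12 * s) s (α0 * 2 ^ (3 * Gc * s) + A)
          (β0 * 2 ^ (3 * Gc * s) + B) g d then (1 : ℝ) else 0) := by
  have h1 : ∀ A, ∑ B ∈ range (2 ^ ((3 * Gc + 100) * s)),
      extf s p1 A * extf s p3 B *
        (if hitB (ks + Gc * s) (ls + Gc * s) (12 * s) s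
          ((α0 * 2 ^ ((3 * Gc + 100) * s) + A) / 2 ^ (100 * s))
          ((β0 * 2 ^ ((3 * Gc + 100) * s) + B) / 2 ^ (100 * s)) g d then (1 : ℝ) else 0) =
      extf s p1 A * (∑ B ∈ range (2 ^ (3 * Gc * s)), p3 B *
        (if hitB (ks + Gc * s) (ls + Gc * s) (12 * s) s
          (α0 * 2 ^ (3 * Gc * s) + A / 2 ^ (100 * s))
          (β0 * 2 ^ (3 * Gc * s) + B) g d then (1 : ℝ) else 0)) := by
    intro A
    rw [← extf_sum s p3 (fun B => if hitB (ks + Gc * s) (ls + Gc * s) (12 * s) s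
          (α0 * 2 ^ (3 * Gc * s) + A / 2 ^ (100 * s))
          (β0 * 2 ^ (3 * Gc * s) + B) g d then (1 : ℝ) else 0), mul_sum]
    refine sum_congr rfl fun B _ => ?_
    rw [R2C_div, R2C_div, mul_assoc]
  rw [sum_congr rfl fun A _ => h1 A]
  rw [extf_sum s p1 (fun A => ∑ B ∈ range (2 ^ (3 * Gc * s)), p3 B *
        (if hitB (ks + Gc * s) (ls + Gc * s) (12 * s) s
          (α0 * 2 ^ (3 * Gc * s) + A)
          (β0 * 2 ^ (3 * Gc * s) + B) g d then (1 : ℝ) else 0))]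
  refine sum_congr rfl fun A _ => ?_
  rw [mul_sum]
  refine sum_congr rfl fun B _ => ?_
  ring

private lemma R2C_Wrk_nonneg (κ lm s e a b : ℕ) : 0 ≤ Wrk κ lm s e a b := by
  unfold Wrk
  split_ifs
  · exact sum_nonneg fun x _ => sum_nonneg fun y _ => by positivity
  · exact le_refl _

private lemma R2C_wrk (s ks ls α0 β0 : ℕ) (hV : GenV s ks ls α0 β0) (f1 f3 : ℕ → ℝ)
    (h1 : Dens s f1) (h3 : Dens s f3) :
    ∑ A ∈ range (2 ^ ((3 * Gc + 100) * s)), ∑ B ∈ range (2 ^ ((3 * Gc + 100) * s)), f1 A * f3 B *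
      Wrk (ks + Gc * s) (ls + Gc * s) s (100 * s) (α0 * 2 ^ ((3 * Gc + 100) * s) + A)
        (β0 * 2 ^ ((3 * Gc + 100) * s) + B) ≤ 1 / 2 ^ (15 * s) := by
  have h5 : ∑ A ∈ range (2 ^ ((3 * Gc + 100) * s)), ∑ B ∈ range (2 ^ ((3 * Gc + 100) * s)),
      f1 A * f3 B *
      Wrk (ks + Gc * s) (ls + Gc * s) s (100 * s) (α0 * 2 ^ ((3 * Gc + 100) * s) + A)
        (β0 * 2 ^ ((3 * Gc + 100) * s) + B) ≤
      ∑ A ∈ range (2 ^ ((3 * Gc + 100) * s)), ∑ B ∈ range (2 ^ ((3 * Gc + 100) * s)),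
      (2 ^ s / 2 ^ ((3 * Gc + 100) * s)) ^ 2 *
      Wrk (ks + Gc * s) (ls + Gc * s) s (100 * s) (α0 * 2 ^ ((3 * Gc + 100) * s) + A)
        (β0 * 2 ^ ((3 * Gc + 100) * s) + B) := by
    refine sum_le_sum fun A _ => sum_le_sum fun B _ => ?_
    refine mul_le_mul_of_nonneg_right ?_ (R2C_Wrk_nonneg _ _ _ _ _ _)
    rw [sq]
    exact mul_le_mul (h1.sup A) (h3.sup B) (h3.nn B) (by positivity)
  refine h5.trans ?_
  simp only [← mul_sum]
  refine (mul_le_mul_of_nonneg_left hV.w (by positivity)).trans (le_of_eq ?_)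
  have e1 : (2 : ℝ) ^ (2 * (3 * Gc + 100) * s) =
      2 ^ ((3 * Gc + 100) * s) * 2 ^ ((3 * Gc + 100) * s) := by
    rw [← pow_add]
    congr 1
    ring
  have e2 : (2 : ℝ) ^ (17 * s) = 2 ^ s * 2 ^ s * 2 ^ (15 * s) := by
    rw [← pow_add, ← pow_add]
    congr 1
    ring
  rw [e1, e2]
  field_simp

private lemma R2C_fin (T S PR U W V : ℝ) (hL : T / 260 ≤ S)
    (hS : S ≤ 3 * 2 ^ 10 * PR + 2 ^ 10 * U + W) (hU : U ≤ T / 2 ^ 21 + V) (hW : W ≤ V)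
    (hV : V ≤ T * (1 / 2 ^ 30)) (hT : 0 < T) : T / 10 ^ 6 ≤ PR := by
  norm_num at *
  linarith

open Classical in
/-- JOB R2C.  `f1 = extf s p1`, `f3 = extf s p3` (`extf_dens`, masses by `extf_sum` with `F = 1`).  `V_pointwise` (`κ = ks + G s`,
`lm = ls + G s`, `e = 100 s`; note `QA = 2^(2κ+lm+e)`, `(α0 2^n1 + A)/2^(100 s) = α0 2^(3Gs) + A/2^(100 s)`) multiplied by `f1 f3` and
summed: `s²/(260·2^(12s)) ≤ 3072 Pr + 1024 (s²/(2^21 2^(12s)) + 2^(-13s)) + ∑∑ f1 f3 Wrk` (`R2low`, `R2up`), the last term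
`≤ (2^s/2^n1)² ∑∑ Wrk ≤ 2^(2s)/2^(17s)` (`GenV.w`).  Since `1/260 - 1/2048 > 0.00335` and `0.00335/3072 > 1.09 10^-6` the claim holds for
large `s`.  `Pr` is rewritten with `extf_sum` (twice). -/
theorem R2core : ∃ s0 : ℕ, ∀ s ≥ s0, ∀ ks ls α0 β0 : ℕ, ParF s ks ls → α0 < 2 ^ (2 * ks + ls) →
    β0 < 2 ^ (ks + 2 * ls) → GenF s ks ls α0 β0 → GenV s ks ls α0 β0 → ∀ p1 p3 : ℕ → ℝ, Dens3 s p1 →
    Dens3 s p3 → ∀ g d : ℕ,
    (s : ℝ) ^ 2 / (10 ^ 6 * 2 ^ (12 * s)) ≤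
      ∑ A ∈ range (2 ^ (3 * Gc * s)), ∑ B ∈ range (2 ^ (3 * Gc * s)), p1 A * p3 B *
        (if hitB (ks + Gc * s) (ls + Gc * s) (12 * s) s (α0 * 2 ^ (3 * Gc * s) + A)
          (β0 * 2 ^ (3 * Gc * s) + B) g d then 1 else 0) := by
  obtain ⟨sa, hlow⟩ := R2low
  obtain ⟨sb, hup⟩ := R2up
  refine ⟨max (max sa sb) 30, fun s hs ks ls α0 β0 hp hα hβ hF hV p1 p3 hp1 hp3 g d => ?_⟩
  have hsa : sa ≤ s := le_trans (le_trans (le_max_left _ _) (le_max_left _ _)) hs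
  have hsb : sb ≤ s := le_trans (le_trans (le_max_right _ _) (le_max_left _ _)) hs
  have hs30 : 30 ≤ s := le_trans (le_max_right _ _) hs
  have hf1 := extf_dens s p1 hp1
  have hf3 := extf_dens s p3 hp3
  have hL := hlow s hsa ks ls α0 β0 hp hα hβ hF (extf s p1) (extf s p3) hf1 hf3
    (R2C_half s p1 hp1) (R2C_half s p3 hp3) g d
  have hU := hup s hsb ks ls α0 β0 hp hα hβ hF hV (extf s p1) (extf s p3) hf1 hf3
  have hW := R2C_wrk s ks ls α0 β0 hV (extf s p1) (extf s p3) hf1 hf3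
  have hP := R2C_pr s ks ls α0 β0 p1 p3 g d
  set PR : ℝ := ∑ A ∈ range (2 ^ (3 * Gc * s)), ∑ B ∈ range (2 ^ (3 * Gc * s)), p1 A * p3 B *
        (if hitB (ks + Gc * s) (ls + Gc * s) (12 * s) s (α0 * 2 ^ (3 * Gc * s) + A)
          (β0 * 2 ^ (3 * Gc * s) + B) g d then (1 : ℝ) else 0) with hPR
  set U : ℝ := ∑ A ∈ range (2 ^ ((3 * Gc + 100) * s)), ∑ B ∈ range (2 ^ ((3 * Gc + 100) * s)),
        extf s p1 A * extf s p3 B *
        ∑ x ∈ range s, ∑ y ∈ range s,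
          (hom (QA s ks ls) (QB s ks ls) (2 ^ (ks + Gc * s - x + (ls + Gc * s - y) - 12 * s - 9))
            (1 / 2 ^ (ks + Gc * s - x + 10)) (1 / 2 ^ (ls + Gc * s - y + 10))
            (α0 * 2 ^ ((3 * Gc + 100) * s) + A) (β0 * 2 ^ ((3 * Gc + 100) * s) + B) : ℝ) with hUdef
  set W : ℝ := ∑ A ∈ range (2 ^ ((3 * Gc + 100) * s)), ∑ B ∈ range (2 ^ ((3 * Gc + 100) * s)),
      extf s p1 A * extf s p3 B *
      Wrk (ks + Gc * s) (ls + Gc * s) s (100 * s) (α0 * 2 ^ ((3 * Gc + 100) * s) + A)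
        (β0 * 2 ^ ((3 * Gc + 100) * s) + B) with hWdef
  have hG : 20 * s ≤ Gc * s := Nat.mul_le_mul_right s (by norm_num [Gc])
  have hsum : ∑ A ∈ range (2 ^ ((3 * Gc + 100) * s)), ∑ B ∈ range (2 ^ ((3 * Gc + 100) * s)),
        extf s p1 A * extf s p3 B *
        ∑ x ∈ range s, ∑ y ∈ range s,
          ((shl (ks + Gc * s) (ls + Gc * s) s (100 * s) x y g d
            (α0 * 2 ^ ((3 * Gc + 100) * s) + A) (β0 * 2 ^ ((3 * Gc + 100) * s) + B)).card : ℝ) ≤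
      3 * 2 ^ 10 * PR + 2 ^ 10 * U + W := by
    rw [← hP, hUdef, hWdef, mul_sum, mul_sum, ← sum_add_distrib, ← sum_add_distrib]
    refine sum_le_sum fun A _ => ?_
    rw [mul_sum, mul_sum, ← sum_add_distrib, ← sum_add_distrib]
    refine sum_le_sum fun B _ => ?_
    have h1 := V_pointwise (ks + Gc * s) (ls + Gc * s) s (100 * s) g d
      (α0 * 2 ^ ((3 * Gc + 100) * s) + A) (β0 * 2 ^ ((3 * Gc + 100) * s) + B) (by omega)
      (by omega) (by omega)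
    rw [← R2C_QA, ← R2C_QB] at h1
    have h2 := mul_le_mul_of_nonneg_left h1 (mul_nonneg (hf1.nn A) (hf3.nn B))
    refine h2.trans (le_of_eq ?_)
    ring
  -- numerical conclusion
  set X : ℝ := 2 ^ (12 * s) with hX
  have hX0 : 0 < X := by positivity
  set Y : ℝ := 2 ^ s with hY
  have hY30 : (2 : ℝ) ^ 30 ≤ Y := pow_le_pow_right₀ (by norm_num) hs30
  have hY0 : 0 < Y := by positivity
  have e13 : (2 : ℝ) ^ (13 * s) = X * Y := by
    rw [hX, hY, ← pow_add]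
    congr 1
    ring
  have e15 : (2 : ℝ) ^ (15 * s) = X * Y ^ 3 := by
    rw [hX, hY, ← pow_mul, ← pow_add]
    congr 1
    ring
  rw [e13] at hU
  rw [e15] at hW
  have hs1 : (1 : ℝ) ≤ (s : ℝ) ^ 2 := by
    have : (1 : ℝ) ≤ s := by exact_mod_cast (by omega : 1 ≤ s)
    nlinarith
  have hinv : 1 / Y ≤ 1 / 2 ^ 30 := one_div_le_one_div_of_le (by positivity) hY30
  have hA : 1 / (X * Y) = 1 / X * (1 / Y) := by
    rw [one_div_mul_one_div]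
  have hB : 1 / (X * Y ^ 3) ≤ 1 / X * (1 / Y) := by
    rw [one_div_mul_one_div]
    refine one_div_le_one_div_of_le (by positivity) (mul_le_mul_of_nonneg_left ?_ hX0.le)
    have hY1 : (1 : ℝ) ≤ Y := le_trans (by norm_num) hY30
    nlinarith [sq_nonneg Y, mul_nonneg hY0.le hY0.le]
  set Z : ℝ := 1 / X with hZ
  have hZ0 : 0 < Z := by positivity
  have hZY : Z * (1 / Y) ≤ Z * (1 / 2 ^ 30) := mul_le_mul_of_nonneg_left hinv hZ0.le
  have e1 : (s : ℝ) ^ 2 / (260 * X) = (s : ℝ) ^ 2 * Z / 260 := by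
    rw [hZ]; field_simp
  have e2 : (s : ℝ) ^ 2 / (2 ^ 21 * X) = (s : ℝ) ^ 2 * Z / 2 ^ 21 := by
    rw [hZ]; field_simp
  have e3 : (s : ℝ) ^ 2 / (10 ^ 6 * X) = (s : ℝ) ^ 2 * Z / 10 ^ 6 := by
    rw [hZ]; field_simp
  rw [e1] at hL
  rw [e2, hA] at hU
  rw [e3]
  have hZs : Z ≤ (s : ℝ) ^ 2 * Z := by nlinarith
  set T : ℝ := (s : ℝ) ^ 2 * Z with hT
  have h10 : Z * (1 / 2 ^ 30) ≤ T * (1 / 2 ^ 30) := mul_le_mul_of_nonneg_right hZs (by positivity)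
  exact R2C_fin T _ PR U W (Z * (1 / Y)) hL hsum hU (hW.trans hB) (hZY.trans h10)
    (lt_of_lt_of_le hZ0 hZs)

end MP_5e4520_nt.Ex
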