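import Pool.Agent.Lib.MP_5e4520_nt.EntB
import Pool.Agent.Lib.MP_5e4520_ntE.E1
import Pool.Agent.Lib.MP_5e4520_ntE.E2
set_option autoImplicit false

/-!
# Fibres of the prefixes, conditional entropies, no hits in the blocks
-/

namespace MP_5e4520_nt.Ex

open Finset

open Classical in
/-- the fibre of `p`: the points of `S` with the same four prefixes -/
noncomputable def fib (M : ℕ) (S : Finset Pt) (a b k l : ℕ) (p : Pt) : Finset Pt :=
  S.filter (fun x => px M a b k l x = px M a b k l p)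

/-- JOB S1.  Entropies of functions with the same fibres agree (`ent_le_of_det` twice) -/
theorem ent_congr {ι κ κ' : Type*} (S : Finset ι) (f : ι → κ) (g : ι → κ')
    (h : ∀ x ∈ S, ∀ y ∈ S, f x = f y ↔ g x = g y) : ent S f = ent S g :=
  le_antisymm (ent_le_of_det S g f fun x hx y hy e => (h x hx y hy).2 e)
    (ent_le_of_det S f g fun x hx y hy e => (h x hx y hy).1 e)

private theorem S1_iff (M a b c d : ℕ) (p q : Pt) :
    px M a b c d p = px M a b c d q ↔ (pre M a p.1 = pre M a q.1 ∧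
      pre M b p.2.1 = pre M b q.2.1 ∧ pre M c p.2.2.1 = pre M c q.2.2.1 ∧
      pre M d p.2.2.2 = pre M d q.2.2.2) := by
  unfold px
  simp only [Prod.mk.injEq]

private theorem S1_mem {M : ℕ} {S : Finset Pt} {a b k l : ℕ} {p x : Pt}
    (hx : x ∈ fib M S a b k l p) : pre M a x.1 = pre M a p.1 ∧
      pre M b x.2.1 = pre M b p.2.1 ∧ pre M k x.2.2.1 = pre M k p.2.2.1 ∧
      pre M l x.2.2.2 = pre M l p.2.2.2 :=
  (S1_iff _ _ _ _ _ _ _).1 (mem_filter.1 hx).2

private theorem S1_fib (M : ℕ) (S : Finset Pt) (a b k l : ℕ) {κ κ' : Type*} (f : Pt → κ)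
    (g : Pt → κ') (p : Pt)
    (h : ∀ x y : Pt, (pre M a x.1 = pre M a y.1 ∧ pre M b x.2.1 = pre M b y.2.1 ∧
      pre M k x.2.2.1 = pre M k y.2.2.1 ∧ pre M l x.2.2.2 = pre M l y.2.2.2) →
      (f x = f y ↔ g x = g y)) :
    ent (fib M S a b k l p) f = ent (fib M S a b k l p) g := by
  refine ent_congr _ _ _ fun x hx y hy => h x y ?_
  have h1 := S1_mem hx
  have h2 := S1_mem hy
  exact ⟨h1.1.trans h2.1.symm, h1.2.1.trans h2.2.1.symm, h1.2.2.1.trans h2.2.2.1.symm,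
    h1.2.2.2.trans h2.2.2.2.symm⟩

private theorem S1_div (M a n x : ℕ) (h : a + n ≤ M) : pre M (a + n) x / 2 ^ n = pre M a x := by
  unfold pre
  rw [Nat.div_div_eq_div_mul, ← pow_add]
  congr 2
  omega

/-- `ent_cond` with `h = px M a b k l`, `f = px M a' b' k' l'`; `(f, h)` has the same fibres as `f` (`pre_mono`). -/
theorem EE_cond (M : ℕ) (S : Finset Pt) (a b k l a' b' k' l' : ℕ) (ha : a ≤ a') (hb : b ≤ b')
    (hk : k ≤ k') (hl : l ≤ l') :
    EE M S a' b' k' l' - EE M S a b k l =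
      (∑ p ∈ S, ent (fib M S a b k l p) (px M a' b' k' l')) / S.card := by
  have h1 := ent_cond S (px M a' b' k' l') (px M a b k l)
  have h2 : ent S (fun x => (px M a' b' k' l' x, px M a b k l x)) = ent S (px M a' b' k' l') := by
    refine ent_congr _ _ _ fun x _ y _ => ?_
    simp only [Prod.mk.injEq]
    refine ⟨fun h => h.1, fun h => ⟨h, ?_⟩⟩
    rw [S1_iff] at h ⊢
    exact ⟨pre_mono _ _ _ _ _ ha h.1, pre_mono _ _ _ _ _ hb h.2.1,
      pre_mono _ _ _ _ _ hk h.2.2.1, pre_mono _ _ _ _ _ hl h.2.2.2⟩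
  rw [h2] at h1
  unfold EE
  rw [h1]
  congr 1
  refine sum_congr rfl fun p _ => ?_
  congr 1
  unfold fib
  ext x
  simp only [mem_filter]

/-- on a fibre only the first coordinate varies -/
theorem fib_X (M : ℕ) (S : Finset Pt) (a b k l a' : ℕ) (p : Pt) :
    ent (fib M S a b k l p) (px M a' b k l) =
      ent (fib M S a b k l p) (fun x => pre M a' x.1) := by
  refine S1_fib M S a b k l _ _ p fun x y h => ?_
  rw [S1_iff]
  tauto

theorem fib_Y (M : ℕ) (S : Finset Pt) (a b k l b' : ℕ) (p : Pt) :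
    ent (fib M S a b k l p) (px M a b' k l) =
      ent (fib M S a b k l p) (fun x => pre M b' x.2.1) := by
  refine S1_fib M S a b k l _ _ p fun x y h => ?_
  rw [S1_iff]
  tauto

theorem fib_C (M : ℕ) (S : Finset Pt) (a b k l k' : ℕ) (p : Pt) :
    ent (fib M S a b k l p) (px M a b k' l) =
      ent (fib M S a b k l p) (fun x => pre M k' x.2.2.1) := by
  refine S1_fib M S a b k l _ _ p fun x y h => ?_
  rw [S1_iff]
  tauto

theorem fib_D (M : ℕ) (S : Finset Pt) (a b k l l' : ℕ) (p : Pt) :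
    ent (fib M S a b k l p) (px M a b k l') =
      ent (fib M S a b k l p) (fun x => pre M l' x.2.2.2) := by
  refine S1_fib M S a b k l _ _ p fun x y h => ?_
  rw [S1_iff]
  tauto

theorem fib_XY (M : ℕ) (S : Finset Pt) (a b k l a' b' : ℕ) (p : Pt) :
    ent (fib M S a b k l p) (px M a' b' k l) =
      ent (fib M S a b k l p) (fun x => (pre M a' x.1, pre M b' x.2.1)) := by
  refine S1_fib M S a b k l _ _ p fun x y h => ?_
  rw [S1_iff]
  simp only [Prod.mk.injEq]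
  tauto

/-- on the fibre the prefix of `a + n` digits is `pre a` followed by `n` free digits -/
theorem fib_div1 (M : ℕ) (S : Finset Pt) (a b k l n : ℕ) (h : a + n ≤ M) (p x : Pt)
    (hx : x ∈ fib M S a b k l p) : pre M (a + n) x.1 / 2 ^ n = pre M a p.1 := by
  rw [S1_div M a n x.1 h]
  exact (S1_mem hx).1

theorem fib_div2 (M : ℕ) (S : Finset Pt) (a b k l n : ℕ) (h : b + n ≤ M) (p x : Pt)
    (hx : x ∈ fib M S a b k l p) : pre M (b + n) x.2.1 / 2 ^ n = pre M b p.2.1 := by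
  rw [S1_div M b n x.2.1 h]
  exact (S1_mem hx).2.1

theorem fib_div3 (M : ℕ) (S : Finset Pt) (a b k l n : ℕ) (h : k + n ≤ M) (p x : Pt)
    (hx : x ∈ fib M S a b k l p) : pre M (k + n) x.2.2.1 / 2 ^ n = pre M k p.2.2.1 := by
  rw [S1_div M k n x.2.2.1 h]
  exact (S1_mem hx).2.2.1

theorem fib_div4 (M : ℕ) (S : Finset Pt) (a b k l n : ℕ) (h : l + n ≤ M) (p x : Pt)
    (hx : x ∈ fib M S a b k l p) : pre M (l + n) x.2.2.2 / 2 ^ n = pre M l p.2.2.2 := by
  rw [S1_div M l n x.2.2.2 h]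
  exact (S1_mem hx).2.2.2

open Classical in
/-- at most `2^n` values if the quotient by `2^n` is constant -/
theorem image_div_card {ι : Type*} (F : Finset ι) (f : ι → ℕ) (n v : ℕ)
    (h : ∀ x ∈ F, f x / 2 ^ n = v) : (F.image f).card ≤ 2 ^ n := by
  have h1 : F.image f ⊆ (range (2 ^ n)).image (fun r => 2 ^ n * v + r) := by
    intro y hy
    obtain ⟨x, hx, rfl⟩ := mem_image.1 hy
    refine mem_image.2 ⟨f x % 2 ^ n, mem_range.2 (Nat.mod_lt _ (by positivity)), ?_⟩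
    rw [← h x hx]
    exact Nat.div_add_mod _ _
  refine (card_le_card h1).trans (card_image_le.trans ?_)
  rw [card_range]

/-- No hit in the block of tests: `pre M (2κ+lm) α / 2^(2x+y) = pre M (2(κ-x)+(lm-y)) α` etc. and `Sys.nohit` with `u = 0`. -/
theorem nohitB {M s Λ lo hi : ℕ} {S : Finset Pt} (hS : Sys M (12 * s) Λ lo hi S) (κ lm : ℕ)
    (hκ : lo + s ≤ κ) (hl : lo + s ≤ lm) (hhi : κ + lm ≤ hi) (h1 : 2 * κ + lm ≤ M)
    (h2 : κ + 2 * lm ≤ M) (p : Pt) (hp : p ∈ S) :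
    ¬ hitB κ lm (12 * s) s (pre M (2 * κ + lm) p.1) (pre M (κ + 2 * lm) p.2.1) (pre M κ p.2.2.1)
      (pre M lm p.2.2.2) := by
  rintro ⟨x, hx, y, hy, hH⟩
  have e1 : pre M (2 * κ + lm) p.1 / 2 ^ (2 * x + y) =
      pre M (2 * (κ - x) + (lm - y) + 3 * 0) p.1 := by
    have h3 := S1_div M (2 * (κ - x) + (lm - y) + 3 * 0) (2 * x + y) p.1 (by omega)
    rw [← h3]
    congr 2
    omega
  have e2 : pre M (κ + 2 * lm) p.2.1 / 2 ^ (x + 2 * y) =
      pre M ((κ - x) + 2 * (lm - y) + 3 * 0) p.2.1 := by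
    have h3 := S1_div M ((κ - x) + 2 * (lm - y) + 3 * 0) (x + 2 * y) p.2.1 (by omega)
    rw [← h3]
    congr 2
    omega
  have e3 : pre M κ p.2.2.1 / 2 ^ x = pre M ((κ - x) + 0) p.2.2.1 := by
    have h3 := S1_div M ((κ - x) + 0) x p.2.2.1 (by omega)
    rw [← h3]
    congr 2
    omega
  have e4 : pre M lm p.2.2.2 / 2 ^ y = pre M ((lm - y) + 0) p.2.2.2 := by
    have h3 := S1_div M ((lm - y) + 0) y p.2.2.2 (by omega)
    rw [← h3]
    congr 2
    omega
  rw [e1, e2, e3, e4] at hH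
  exact hS.nohit (κ - x) (lm - y) 0 (by omega) (by omega) (by omega) p hp hH

/-- Markov inequality on `S`: if `0 ≤ u` on `S` and the average of `u` is `≤ m` then the proportion of `u > t` is `≤ m/t`. -/
theorem markovS {ι : Type*} (S : Finset ι) (u : ι → ℝ) (h0 : ∀ p ∈ S, 0 ≤ u p) (m t : ℝ) (ht : 0 < t)
    (h : (∑ p ∈ S, u p) / S.card ≤ m) (T : Finset ι) (hT : T ⊆ S) (hTt : ∀ p ∈ T, t ≤ u p) :
    (T.card : ℝ) ≤ m / t * S.card := by
  rcases S.eq_empty_or_nonempty with rfl | hS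
  · rw [subset_empty.1 hT]
    simp
  have hS0 : (0 : ℝ) < S.card := by exact_mod_cast hS.card_pos
  rw [div_le_iff₀ hS0] at h
  have h1 : (T.card : ℝ) * t ≤ ∑ p ∈ T, u p := by
    rw [← nsmul_eq_mul]
    exact card_nsmul_le_sum T u t hTt
  have h2 : ∑ p ∈ T, u p ≤ ∑ p ∈ S, u p :=
    sum_le_sum_of_subset_of_nonneg hT fun p hp _ => h0 p hp
  rw [div_mul_eq_mul_div, le_div_iff₀ ht]
  linarith

end MP_5e4520_nt.Ex
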