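import Pool.Agent.Lib.MP_5e4520_ntE.S1
set_option autoImplicit false

/-!
# Truncated densities of a part of the digits
-/

namespace MP_5e4520_nt.Ex

open Finset

variable {ι : Type*}

open Classical in
/-- density of the last `n` digits of `f` (first digits `v0`), restricted to the light values -/
noncomputable def dns (F : Finset ι) (f : ι → ℕ) (v0 n : ℕ) (τ : ℝ) (A : ℕ) : ℝ :=
  ((F.filter (fun x => f x = v0 * 2 ^ n + A ∧
    ((F.filter (fun y => f y = f x)).card : ℝ) ≤ F.card * τ)).card : ℝ) / F.card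

theorem dns_nonneg (F : Finset ι) (f : ι → ℕ) (v0 n : ℕ) (τ : ℝ) (A : ℕ) : 0 ≤ dns F f v0 n τ A := by
  unfold dns; positivity

/-- JOB S2.  Either the filtered set is empty or it is contained in a light fibre. -/
theorem dns_le (F : Finset ι) (f : ι → ℕ) (v0 n : ℕ) (τ : ℝ) (hτ : 0 ≤ τ) (A : ℕ) :
    dns F f v0 n τ A ≤ τ := by
  classical
  rcases F.eq_empty_or_nonempty with rfl | hF
  · simpa [dns] using hτ
  have hF0 : (0 : ℝ) < F.card := by exact_mod_cast hF.card_pos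
  unfold dns
  rw [div_le_iff₀ hF0]
  rcases (F.filter (fun x => f x = v0 * 2 ^ n + A ∧
    ((F.filter (fun y => f y = f x)).card : ℝ) ≤ F.card * τ)).eq_empty_or_nonempty with h | ⟨x, hx⟩
  · have : ((F.filter (fun x => f x = v0 * 2 ^ n + A ∧
      ((F.filter (fun y => f y = f x)).card : ℝ) ≤ F.card * τ)).card : ℝ) = 0 := by
      rw [h]; simp
    convert (this.le.trans (mul_nonneg hτ hF0.le)) using 4
  · have hx' := (mem_filter.1 hx).2
    have h1 : (F.filter (fun x => f x = v0 * 2 ^ n + A ∧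
      ((F.filter (fun y => f y = f x)).card : ℝ) ≤ F.card * τ)).card ≤
      (F.filter (fun y => f y = f x)).card := by
      apply card_le_card
      intro y hy
      have hy' := mem_filter.1 hy
      exact mem_filter.2 ⟨hy'.1, hy'.2.1.trans hx'.1.symm⟩
    have h2 : ((F.filter (fun x => f x = v0 * 2 ^ n + A ∧
      ((F.filter (fun y => f y = f x)).card : ℝ) ≤ F.card * τ)).card : ℝ) ≤
      ((F.filter (fun y => f y = f x)).card : ℝ) := by exact_mod_cast h1
    have h3 := h2.trans (hx'.2.trans (mul_comm _ _).le)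
    convert h3 using 4

open Classical in
theorem dns_sum (F : Finset ι) (f : ι → ℕ) (v0 n : ℕ) (τ : ℝ) (h : ∀ x ∈ F, f x / 2 ^ n = v0) :
    ∑ A ∈ range (2 ^ n), dns F f v0 n τ A =
      ((F.filter (fun x => ((F.filter (fun y => f y = f x)).card : ℝ) ≤ F.card * τ)).card : ℝ) /
        F.card := by
  unfold dns
  rw [← sum_div]
  congr 1
  have h1 : (F.filter (fun x => ((F.filter (fun y => f y = f x)).card : ℝ) ≤ F.card * τ)).card =
      ∑ A ∈ range (2 ^ n), ((F.filter (fun x =>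
        ((F.filter (fun y => f y = f x)).card : ℝ) ≤ F.card * τ)).filter
          (fun x => f x % 2 ^ n = A)).card := by
    apply card_eq_sum_card_fiberwise
    intro x _
    simp only [coe_range, Set.mem_Iio]
    exact Nat.mod_lt _ (by positivity)
  rw [h1, Nat.cast_sum]
  apply sum_congr rfl
  intro A hA
  have hA' := mem_range.1 hA
  congr 2
  ext x
  simp only [mem_filter]
  constructor
  · rintro ⟨hx, he, hl⟩
    refine ⟨⟨hx, hl⟩, ?_⟩
    rw [he, Nat.add_comm, Nat.add_mul_mod_self_right, Nat.mod_eq_of_lt hA']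
  · rintro ⟨⟨hx, hl⟩, he⟩
    refine ⟨hx, ?_, hl⟩
    have := Nat.div_add_mod (f x) (2 ^ n)
    rw [h x hx, he] at this
    rw [← this, mul_comm]

theorem dns_sum_le (F : Finset ι) (f : ι → ℕ) (v0 n : ℕ) (τ : ℝ) (h : ∀ x ∈ F, f x / 2 ^ n = v0) :
    ∑ A ∈ range (2 ^ n), dns F f v0 n τ A ≤ 1 := by
  classical
  rw [dns_sum F f v0 n τ h]
  apply div_le_one_of_le₀ _ (Nat.cast_nonneg _)
  exact_mod_cast card_le_card (filter_subset _ _)

open Classical in
private theorem S2_D (F : Finset ι) (f : ι → ℕ) (v0 n : ℕ) (τ : ℝ) (A : ℕ) :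
    dns F f v0 n τ A ≤ (∑ x ∈ F, if f x = v0 * 2 ^ n + A then (1 : ℝ) else 0) / F.card := by
  unfold dns
  apply div_le_div_of_nonneg_right _ (Nat.cast_nonneg _)
  rw [← Nat.cast_one, ← Nat.cast_zero]
  simp only [← Nat.cast_ite]
  rw [← Nat.cast_sum, ← card_filter]
  exact_mod_cast card_le_card (fun x hx => by
    have := mem_filter.1 hx
    exact mem_filter.2 ⟨this.1, this.2.1⟩)

private theorem S2_one (F : Finset ι) (f : ι → ℕ) (v0 n : ℕ) (τ : ℝ) (G : ℕ → ℝ)
    (hG : ∀ a, 0 ≤ G a) :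
    ∑ A ∈ range (2 ^ n), dns F f v0 n τ A * G (v0 * 2 ^ n + A) ≤
      (∑ x ∈ F, G (f x)) / F.card := by
  classical
  calc ∑ A ∈ range (2 ^ n), dns F f v0 n τ A * G (v0 * 2 ^ n + A)
      ≤ ∑ A ∈ range (2 ^ n), (∑ x ∈ F, if f x = v0 * 2 ^ n + A then (1 : ℝ) else 0) / F.card *
          G (v0 * 2 ^ n + A) :=
        sum_le_sum (fun A _ => mul_le_mul_of_nonneg_right (S2_D F f v0 n τ A) (hG _))
    _ = (∑ x ∈ F, ∑ A ∈ range (2 ^ n), if f x = v0 * 2 ^ n + A then G (f x) else 0) / F.card := by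
        rw [sum_comm, sum_div]
        apply sum_congr rfl
        intro A _
        rw [div_mul_eq_mul_div, sum_mul]
        congr 1
        apply sum_congr rfl
        intro x _
        split_ifs with h
        · rw [one_mul, h]
        · rw [zero_mul]
    _ ≤ (∑ x ∈ F, G (f x)) / F.card := by
        apply div_le_div_of_nonneg_right _ (Nat.cast_nonneg _)
        apply sum_le_sum
        intro x _
        by_cases hx : ∃ A ∈ range (2 ^ n), f x = v0 * 2 ^ n + A
        · obtain ⟨A, hA, hxA⟩ := hx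
          rw [sum_eq_single A]
          · rw [if_pos hxA]
          · intro B _ hBA
            rw [if_neg]
            intro h
            apply hBA
            omega
          · intro h
            exact absurd hA h
        · rw [sum_eq_zero]
          · exact hG _
          · intro A hA
            rw [if_neg]
            intro h
            exact hx ⟨A, hA, h⟩

open Classical in
/-- a subset of the product law (all the probabilities are at most those of the full law) -/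
theorem dns_two (F : Finset ι) (f g : ι → ℕ) (v0 w0 n : ℕ) (τ1 τ2 : ℝ) (N : ℕ → ℕ → Prop) :
    ∑ A ∈ range (2 ^ n), ∑ B ∈ range (2 ^ n), dns F f v0 n τ1 A * dns F g w0 n τ2 B *
      (if N (v0 * 2 ^ n + A) (w0 * 2 ^ n + B) then 1 else 0) ≤
      (((F ×ˢ F).filter (fun q : ι × ι => N (f q.1) (g q.2))).card : ℝ) / (F.card : ℝ) ^ 2 := by
  have hc : (0 : ℝ) ≤ F.card := Nat.cast_nonneg _
  have hi : ∀ P : Prop, (0 : ℝ) ≤ if P then 1 else 0 := fun P => by split_ifs <;> norm_num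
  calc ∑ A ∈ range (2 ^ n), ∑ B ∈ range (2 ^ n), dns F f v0 n τ1 A * dns F g w0 n τ2 B *
      (if N (v0 * 2 ^ n + A) (w0 * 2 ^ n + B) then (1 : ℝ) else 0)
      = ∑ A ∈ range (2 ^ n), dns F f v0 n τ1 A * ∑ B ∈ range (2 ^ n), dns F g w0 n τ2 B *
        (if N (v0 * 2 ^ n + A) (w0 * 2 ^ n + B) then (1 : ℝ) else 0) := by
        apply sum_congr rfl
        intro A _
        rw [mul_sum]
        apply sum_congr rfl
        intro B _
        ring
    _ ≤ ∑ A ∈ range (2 ^ n), dns F f v0 n τ1 A *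
        ((∑ y ∈ F, (if N (v0 * 2 ^ n + A) (g y) then (1 : ℝ) else 0)) / F.card) := by
        apply sum_le_sum
        intro A _
        apply mul_le_mul_of_nonneg_left _ (dns_nonneg _ _ _ _ _ _)
        exact S2_one F g w0 n τ2 (fun b => if N (v0 * 2 ^ n + A) b then (1 : ℝ) else 0)
          (fun b => hi _)
    _ ≤ (∑ x ∈ F, (∑ y ∈ F, (if N (f x) (g y) then (1 : ℝ) else 0)) / F.card) / F.card :=
        S2_one F f v0 n τ1 (fun a => (∑ y ∈ F, (if N a (g y) then (1 : ℝ) else 0)) / F.card)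
          (fun a => div_nonneg (sum_nonneg (fun y _ => hi _)) hc)
    _ = (((F ×ˢ F).filter (fun q : ι × ι => N (f q.1) (g q.2))).card : ℝ) / (F.card : ℝ) ^ 2 := by
        rw [← sum_div, div_div, ← sq, card_filter, sum_product]
        push_cast
        rfl

open Classical in
theorem dns_four (F : Finset ι) (f1 f2 f3 f4 : ι → ℕ) (v1 v2 v3 v4 n : ℕ) (τ1 τ2 τ3 τ4 : ℝ)
    (N : ℕ → ℕ → ℕ → ℕ → Prop) :
    ∑ A ∈ range (2 ^ n), ∑ B ∈ range (2 ^ n), ∑ C ∈ range (2 ^ n), ∑ D ∈ range (2 ^ n),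
      dns F f1 v1 n τ1 A * dns F f2 v2 n τ2 B * (dns F f3 v3 n τ3 C * dns F f4 v4 n τ4 D) *
      (if N (v1 * 2 ^ n + A) (v2 * 2 ^ n + B) (v3 * 2 ^ n + C) (v4 * 2 ^ n + D) then 1 else 0) ≤
      (((F ×ˢ F ×ˢ F ×ˢ F).filter (fun q : ι × ι × ι × ι =>
        N (f1 q.1) (f2 q.2.1) (f3 q.2.2.1) (f4 q.2.2.2))).card : ℝ) / (F.card : ℝ) ^ 4 := by
  have hc : (0 : ℝ) ≤ F.card := Nat.cast_nonneg _
  have hi : ∀ P : Prop, (0 : ℝ) ≤ if P then 1 else 0 := fun P => by split_ifs <;> norm_num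
  calc ∑ A ∈ range (2 ^ n), ∑ B ∈ range (2 ^ n), ∑ C ∈ range (2 ^ n), ∑ D ∈ range (2 ^ n),
      dns F f1 v1 n τ1 A * dns F f2 v2 n τ2 B * (dns F f3 v3 n τ3 C * dns F f4 v4 n τ4 D) *
      (if N (v1 * 2 ^ n + A) (v2 * 2 ^ n + B) (v3 * 2 ^ n + C) (v4 * 2 ^ n + D)
        then (1 : ℝ) else 0)
      = ∑ A ∈ range (2 ^ n), dns F f1 v1 n τ1 A * ∑ B ∈ range (2 ^ n), dns F f2 v2 n τ2 B *
        ∑ C ∈ range (2 ^ n), dns F f3 v3 n τ3 C * ∑ D ∈ range (2 ^ n), dns F f4 v4 n τ4 D *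
        (if N (v1 * 2 ^ n + A) (v2 * 2 ^ n + B) (v3 * 2 ^ n + C) (v4 * 2 ^ n + D)
          then (1 : ℝ) else 0) := by
        apply sum_congr rfl
        intro A _
        rw [mul_sum]
        apply sum_congr rfl
        intro B _
        rw [mul_sum, mul_sum]
        apply sum_congr rfl
        intro C _
        rw [mul_sum, mul_sum, mul_sum]
        apply sum_congr rfl
        intro D _
        ring
    _ ≤ ∑ A ∈ range (2 ^ n), dns F f1 v1 n τ1 A * ∑ B ∈ range (2 ^ n), dns F f2 v2 n τ2 B *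
        ∑ C ∈ range (2 ^ n), dns F f3 v3 n τ3 C *
        ((∑ w ∈ F, (if N (v1 * 2 ^ n + A) (v2 * 2 ^ n + B) (v3 * 2 ^ n + C) (f4 w)
          then (1 : ℝ) else 0)) / F.card) := by
        apply sum_le_sum
        intro A _
        apply mul_le_mul_of_nonneg_left _ (dns_nonneg _ _ _ _ _ _)
        apply sum_le_sum
        intro B _
        apply mul_le_mul_of_nonneg_left _ (dns_nonneg _ _ _ _ _ _)
        apply sum_le_sum
        intro C _
        apply mul_le_mul_of_nonneg_left _ (dns_nonneg _ _ _ _ _ _)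
        exact S2_one F f4 v4 n τ4 (fun d => if N (v1 * 2 ^ n + A) (v2 * 2 ^ n + B)
          (v3 * 2 ^ n + C) d then (1 : ℝ) else 0) (fun b => hi _)
    _ ≤ ∑ A ∈ range (2 ^ n), dns F f1 v1 n τ1 A * ∑ B ∈ range (2 ^ n), dns F f2 v2 n τ2 B *
        ((∑ z ∈ F, (∑ w ∈ F, (if N (v1 * 2 ^ n + A) (v2 * 2 ^ n + B) (f3 z) (f4 w)
          then (1 : ℝ) else 0)) / F.card) / F.card) := by
        apply sum_le_sum
        intro A _
        apply mul_le_mul_of_nonneg_left _ (dns_nonneg _ _ _ _ _ _)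
        apply sum_le_sum
        intro B _
        apply mul_le_mul_of_nonneg_left _ (dns_nonneg _ _ _ _ _ _)
        exact S2_one F f3 v3 n τ3 (fun c => (∑ w ∈ F, (if N (v1 * 2 ^ n + A) (v2 * 2 ^ n + B)
          c (f4 w) then (1 : ℝ) else 0)) / F.card)
          (fun c => div_nonneg (sum_nonneg (fun y _ => hi _)) hc)
    _ ≤ ∑ A ∈ range (2 ^ n), dns F f1 v1 n τ1 A *
        ((∑ y ∈ F, (∑ z ∈ F, (∑ w ∈ F, (if N (v1 * 2 ^ n + A) (f2 y) (f3 z) (f4 w)
          then (1 : ℝ) else 0)) / F.card) / F.card) / F.card) := by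
        apply sum_le_sum
        intro A _
        apply mul_le_mul_of_nonneg_left _ (dns_nonneg _ _ _ _ _ _)
        exact S2_one F f2 v2 n τ2 (fun b => (∑ z ∈ F, (∑ w ∈ F, (if N (v1 * 2 ^ n + A) b
          (f3 z) (f4 w) then (1 : ℝ) else 0)) / F.card) / F.card)
          (fun b => div_nonneg (sum_nonneg (fun z _ => div_nonneg (sum_nonneg (fun y _ => hi _)) hc))
            hc)
    _ ≤ (∑ x ∈ F, (∑ y ∈ F, (∑ z ∈ F, (∑ w ∈ F, (if N (f1 x) (f2 y) (f3 z) (f4 w)
          then (1 : ℝ) else 0)) / F.card) / F.card) / F.card) / F.card :=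
        S2_one F f1 v1 n τ1 (fun a => (∑ y ∈ F, (∑ z ∈ F, (∑ w ∈ F, (if N a (f2 y)
          (f3 z) (f4 w) then (1 : ℝ) else 0)) / F.card) / F.card) / F.card)
          (fun a => div_nonneg (sum_nonneg (fun y _ => div_nonneg (sum_nonneg (fun z _ =>
            div_nonneg (sum_nonneg (fun y _ => hi _)) hc)) hc)) hc)
    _ = (((F ×ˢ F ×ˢ F ×ˢ F).filter (fun q : ι × ι × ι × ι =>
        N (f1 q.1) (f2 q.2.1) (f3 q.2.2.1) (f4 q.2.2.2))).card : ℝ) / (F.card : ℝ) ^ 4 := by
        rw [card_filter, sum_product]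
        simp_rw [sum_product, ← sum_div, div_div]
        push_cast
        congr 1
        ring

/-- mass of the truncated density (`ent_trunc`): `τ = 2^(-(h - t))`, `h = ent F f`. -/
theorem dns_mass (F : Finset ι) (hF : F.Nonempty) (f : ι → ℕ) (v0 n : ℕ)
    (h : ∀ x ∈ F, f x / 2 ^ n = v0) (t : ℝ) (ht : 1 ≤ t) :
    (t - 1) / (n - ent F f + t) ≤
      ∑ A ∈ range (2 ^ n), dns F f v0 n ((2 : ℝ) ^ (-(ent F f - t))) A := by
  classical
  rw [dns_sum F f v0 n _ h]
  have h1 := ent_trunc hF f n (by convert image_div_card F f n v0 h) t ht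
  refine h1.trans (le_of_eq ?_)
  congr 4
  funext p
  rw [Real.rpow_neg (by norm_num), ← div_eq_mul_inv]
  congr!

end MP_5e4520_nt.Ex
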