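import Pool.Agent.Lib.MP_5e4520_ntE.S2
import Pool.Agent.Lib.MP_5e4520_ntE.R2C
set_option autoImplicit false

/-!
# Small blocks: mutual information on one fibre
-/

namespace MP_5e4520_nt.Ex

open Finset

theorem S3_ent_le {ι : Type*} {F : Finset ι} (hF : F.Nonempty) (f : ι → ℕ) (n v0 : ℕ)
    (h : ∀ x ∈ F, f x / 2 ^ n = v0) : ent F f ≤ n := by
  classical
  have h9 := image_div_card F f n v0 h
  apply ent_le_N hF f n
  convert h9

/-- JOB S3 (auxiliary): the truncated density is a density on the block -/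
private theorem S3_dens {ι : Type*} (s : ℕ) (hs : 3 ≤ s) (F : Finset ι) (hF : F.Nonempty) (f : ι → ℕ)
    (v0 : ℕ) (h : ∀ x ∈ F, f x / 2 ^ (3 * Gc * s) = v0)
    (hd : 3 * (Gc * s : ℕ) - ent F f ≤ (s : ℝ) / 8) :
    Dens3 s (dns F f v0 (3 * Gc * s) ((2 : ℝ) ^ (-(ent F f - ((s : ℝ) / 8 + 2))))) := by
  classical
  have hs' : (3 : ℝ) ≤ s := by exact_mod_cast hs
  have hn : ((3 * Gc * s : ℕ) : ℝ) = 3 * (Gc * s : ℕ) := by push_cast; ring
  have hle : ent F f ≤ (3 * Gc * s : ℕ) :=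
    S3_ent_le hF f _ v0 h
  refine ⟨fun A => dns_nonneg _ _ _ _ _ _, fun A => ?_, ?_, ?_⟩
  · refine (dns_le F f v0 _ _ (by positivity) A).trans ?_
    have e1 : (2 : ℝ) ^ s / 2 ^ (3 * Gc * s) = (2 : ℝ) ^ ((s : ℝ) - ((3 * Gc * s : ℕ) : ℝ)) := by
      rw [Real.rpow_sub (by norm_num), Real.rpow_natCast, Real.rpow_natCast]
    rw [e1]
    apply Real.rpow_le_rpow_of_exponent_le (by norm_num)
    rw [hn]
    linarith
  · exact dns_sum_le F f v0 _ _ h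
  · refine le_trans ?_ (dns_mass F hF f v0 _ h ((s : ℝ) / 8 + 2) (by linarith))
    rw [div_le_div_iff₀ (by norm_num) (by linarith)]
    rw [hn] at *
    linarith

/-- JOB S3.  `F` = fibre of `p`, `σ' = G s`, `n = 3σ'`, `X = pre M (2ks+ls+n)`, `Y = pre M (ks+2ls+n)`, `v0 = pre M (2ks+ls) p.1`,
`w0 = pre M (ks+2ls) p.2.1`.  `p1 = dns F X v0 n τ` with `τ = 2^(-(ent F X - t))`, `t = s/8 + 2`: by `dns_mass` the mass is
`≥ (s/8+1)/(s/8 + s/8 + 2) = 1/2`; `τ ≤ 2^(-(n - s/4 - 2)) ≤ 2^s/2^n` (`s ≥ 3`), so `Dens3` (`dns_le`, `dns_sum_le`); the same for `Y`.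
`R2core` (with `g = pre M (ks + G s) p.2.2.1`, `d = pre M (ls + G s) p.2.2.2`) and `dns_two` give
`s²/(10^6 2^(12s)) ≤ #{(x,y) ∈ F² : hitB .. (X x) (Y y) g d}/|F|²`, and `info` (helper25, EntB) bounds this by the mutual information,
because no point `x` of the fibre has `hitB .. (X x) (Y x) g d` (`nohitB`; `pre M κ x.2.2.1 = pre M κ p.2.2.1` as `κ ≤ kg`, `pre_mono`). -/
theorem fib_core2 : ∃ s0 : ℕ, ∀ s ≥ s0, ∀ (Λ M lo hi : ℕ) (S : Finset Pt), Sys M (12 * s) Λ lo hi S →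
    ∀ ks ls kg lg : ℕ, ParF s ks ls → lo + s ≤ ks → lo + s ≤ ls →
    ks + Gc * s + (ls + Gc * s) ≤ hi → ks + Gc * s ≤ kg → ls + Gc * s ≤ lg →
    2 * ks + ls + 3 * (Gc * s) ≤ M → ks + 2 * ls + 3 * (Gc * s) ≤ M → kg ≤ M → lg ≤ M →
    ∀ p ∈ S, GenF s ks ls (pre M (2 * ks + ls) p.1) (pre M (ks + 2 * ls) p.2.1) →
    GenV s ks ls (pre M (2 * ks + ls) p.1) (pre M (ks + 2 * ls) p.2.1) →
    3 * (Gc * s : ℕ) - ent (fib M S (2 * ks + ls) (ks + 2 * ls) kg lg p)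
      (fun x => pre M (2 * ks + ls + 3 * (Gc * s)) x.1) ≤ (s : ℝ) / 8 →
    3 * (Gc * s : ℕ) - ent (fib M S (2 * ks + ls) (ks + 2 * ls) kg lg p)
      (fun x => pre M (ks + 2 * ls + 3 * (Gc * s)) x.2.1) ≤ (s : ℝ) / 8 →
    (s : ℝ) ^ 2 / (10 ^ 6 * 2 ^ (12 * s)) ≤
      ent (fib M S (2 * ks + ls) (ks + 2 * ls) kg lg p) (fun x => pre M (2 * ks + ls + 3 * (Gc * s)) x.1) +
      ent (fib M S (2 * ks + ls) (ks + 2 * ls) kg lg p) (fun x => pre M (ks + 2 * ls + 3 * (Gc * s)) x.2.1) -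
      ent (fib M S (2 * ks + ls) (ks + 2 * ls) kg lg p) (fun x =>
        (pre M (2 * ks + ls + 3 * (Gc * s)) x.1, pre M (ks + 2 * ls + 3 * (Gc * s)) x.2.1)) := by
  obtain ⟨s0, h0⟩ := R2core
  refine ⟨max s0 3, ?_⟩
  intro s hs Λ M lo hi S hS ks ls kg lg hp hlk hll hhi hkg hlg hM1 hM2 hkM hlM p hpS hGF hGV hdX hdY
  classical
  have hs0 : s0 ≤ s := (le_max_left _ _).trans hs
  have hs3 : 3 ≤ s := (le_max_right _ _).trans hs
  set F := fib M S (2 * ks + ls) (ks + 2 * ls) kg lg p with hF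
  have hpF : p ∈ F := by
    rw [hF, fib, mem_filter]
    exact ⟨hpS, rfl⟩
  have hFne : F.Nonempty := ⟨p, hpF⟩
  have e3 : 3 * Gc * s = 3 * (Gc * s) := by ring
  set X : Pt → ℕ := fun x => pre M (2 * ks + ls + 3 * (Gc * s)) x.1 with hX
  set Y : Pt → ℕ := fun x => pre M (ks + 2 * ls + 3 * (Gc * s)) x.2.1 with hY
  set v0 := pre M (2 * ks + ls) p.1 with hv0
  set w0 := pre M (ks + 2 * ls) p.2.1 with hw0
  have hXd : ∀ x ∈ F, X x / 2 ^ (3 * Gc * s) = v0 := by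
    intro x hx
    rw [e3]
    exact fib_div1 M S _ _ _ _ _ hM1 p x hx
  have hYd : ∀ x ∈ F, Y x / 2 ^ (3 * Gc * s) = w0 := by
    intro x hx
    rw [e3]
    exact fib_div2 M S _ _ _ _ _ hM2 p x hx
  have d1 := S3_dens s hs3 F hFne X v0 hXd hdX
  have d3 := S3_dens s hs3 F hFne Y w0 hYd hdY
  have hrng := hS.rng p hpS
  have hv : v0 < 2 ^ (2 * ks + ls) := pre_lt M _ _ (by omega) hrng.1
  have hw : w0 < 2 ^ (ks + 2 * ls) := pre_lt M _ _ (by omega) hrng.2.1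
  set g := pre M (ks + Gc * s) p.2.2.1 with hg
  set d := pre M (ls + Gc * s) p.2.2.2 with hd
  have c1 := h0 s hs0 ks ls v0 w0 hp hv hw hGF hGV _ _ d1 d3 g d
  have c2 := dns_two F X Y v0 w0 (3 * Gc * s)
    ((2 : ℝ) ^ (-(ent F X - ((s : ℝ) / 8 + 2)))) ((2 : ℝ) ^ (-(ent F Y - ((s : ℝ) / 8 + 2))))
    (fun a b => hitB (ks + Gc * s) (ls + Gc * s) (12 * s) s a b g d)
  have c3 := info hFne X Y (fun a b => hitB (ks + Gc * s) (ls + Gc * s) (12 * s) s a b g d) (by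
    intro x hx
    have hxF := hx
    rw [hF, fib, mem_filter] at hxF
    have n1 := nohitB hS (ks + Gc * s) (ls + Gc * s) (by omega) (by omega) hhi
      (by omega) (by omega) x hxF.1
    have e1 : 2 * (ks + Gc * s) + (ls + Gc * s) = 2 * ks + ls + 3 * (Gc * s) := by ring
    have e2 : ks + Gc * s + 2 * (ls + Gc * s) = ks + 2 * ls + 3 * (Gc * s) := by ring
    rw [e1, e2] at n1
    have hpx := hxF.2
    unfold px at hpx
    rw [Prod.mk.injEq, Prod.mk.injEq, Prod.mk.injEq] at hpx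
    have g1 : pre M (ks + Gc * s) x.2.2.1 = g := pre_mono M _ _ _ _ hkg hpx.2.2.1
    have g2 : pre M (ls + Gc * s) x.2.2.2 = d := pre_mono M _ _ _ _ hlg hpx.2.2.2
    rw [g1, g2] at n1
    exact n1)
  exact c1.trans (c2.trans c3)

end MP_5e4520_nt.Ex
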