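import Pool.Agent.Lib.MP_5e4520_ntE.S2
import Pool.Agent.Lib.MP_5e4520_ntE.L6
set_option autoImplicit false

/-!
# Large blocks: total correlation on one fibre
-/

namespace MP_5e4520_nt.Ex

open Finset

/-- the fibre at the start of the large block whose end levels are `κ, lm` -/
noncomputable def fibC (M : ℕ) (S : Finset Pt) (κ lm σ : ℕ) (p : Pt) : Finset Pt :=
  fib M S (2 * κ + lm - 3 * σ) (κ + 2 * lm - 3 * σ) (κ - 3 * σ) (lm - 3 * σ) p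

/-- sum of the four entropies on the fibre -/
noncomputable def sumC (M : ℕ) (S : Finset Pt) (κ lm σ : ℕ) (p : Pt) : ℝ :=
  ent (fibC M S κ lm σ p) (fun x => pre M (2 * κ + lm) x.1) +
  ent (fibC M S κ lm σ p) (fun x => pre M (κ + 2 * lm) x.2.1) +
  ent (fibC M S κ lm σ p) (fun x => pre M κ x.2.2.1) +
  ent (fibC M S κ lm σ p) (fun x => pre M lm x.2.2.2)

/-- total correlation on the fibre -/
noncomputable def tcC (M : ℕ) (S : Finset Pt) (κ lm σ : ℕ) (p : Pt) : ℝ :=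
  sumC M S κ lm σ p - ent (fibC M S κ lm σ p)
    (fun x => (pre M (2 * κ + lm) x.1, pre M (κ + 2 * lm) x.2.1, pre M κ x.2.2.1, pre M lm x.2.2.2))

open Classical in
/-- proportion of the fibre in `Bad1` -/
noncomputable def badC (M : ℕ) (S : Finset Pt) (κ lm σ s : ℕ) (p : Pt) : ℝ :=
  (((fibC M S κ lm σ p).filter (fun x => Bad1 κ lm s (pre M (2 * κ + lm) x.1)
    (pre M (κ + 2 * lm) x.2.1))).card : ℝ) / (fibC M S κ lm σ p).card

private theorem T1_mem (M : ℕ) (S : Finset Pt) (κ lm σ : ℕ) (p : Pt) (hp : p ∈ S) :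
    p ∈ fibC M S κ lm σ p := by
  unfold fibC fib
  exact mem_filter.2 ⟨hp, rfl⟩

private theorem T1_sub (M : ℕ) (S : Finset Pt) (κ lm σ : ℕ) (p x : Pt)
    (hx : x ∈ fibC M S κ lm σ p) : x ∈ S := by
  unfold fibC fib at hx
  exact (mem_filter.1 hx).1

private theorem T1_div1 (M : ℕ) (S : Finset Pt) (κ lm σ : ℕ) (p : Pt) (hκ : 3 * σ ≤ κ)
    (h1 : 2 * κ + lm ≤ M) : ∀ x ∈ fibC M S κ lm σ p,
    pre M (2 * κ + lm) x.1 / 2 ^ (3 * σ) = pre M (2 * κ + lm - 3 * σ) p.1 := by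
  intro x hx
  have e : 2 * κ + lm - 3 * σ + 3 * σ = 2 * κ + lm := by omega
  have h := fib_div1 M S (2 * κ + lm - 3 * σ) (κ + 2 * lm - 3 * σ) (κ - 3 * σ) (lm - 3 * σ)
    (3 * σ) (by omega) p x hx
  rwa [e] at h

private theorem T1_div2 (M : ℕ) (S : Finset Pt) (κ lm σ : ℕ) (p : Pt) (hκ : 3 * σ ≤ κ)
    (h2 : κ + 2 * lm ≤ M) : ∀ x ∈ fibC M S κ lm σ p,
    pre M (κ + 2 * lm) x.2.1 / 2 ^ (3 * σ) = pre M (κ + 2 * lm - 3 * σ) p.2.1 := by
  intro x hx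
  have e : κ + 2 * lm - 3 * σ + 3 * σ = κ + 2 * lm := by omega
  have h := fib_div2 M S (2 * κ + lm - 3 * σ) (κ + 2 * lm - 3 * σ) (κ - 3 * σ) (lm - 3 * σ)
    (3 * σ) (by omega) p x hx
  rwa [e] at h

private theorem T1_div3 (M : ℕ) (S : Finset Pt) (κ lm σ : ℕ) (p : Pt) (hκ : 3 * σ ≤ κ)
    (h1 : 2 * κ + lm ≤ M) : ∀ x ∈ fibC M S κ lm σ p,
    pre M κ x.2.2.1 / 2 ^ (3 * σ) = pre M (κ - 3 * σ) p.2.2.1 := by
  intro x hx
  have e : κ - 3 * σ + 3 * σ = κ := by omega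
  have h := fib_div3 M S (2 * κ + lm - 3 * σ) (κ + 2 * lm - 3 * σ) (κ - 3 * σ) (lm - 3 * σ)
    (3 * σ) (by omega) p x hx
  rwa [e] at h

private theorem T1_div4 (M : ℕ) (S : Finset Pt) (κ lm σ : ℕ) (p : Pt) (hl : 3 * σ ≤ lm)
    (h1 : 2 * κ + lm ≤ M) : ∀ x ∈ fibC M S κ lm σ p,
    pre M lm x.2.2.2 / 2 ^ (3 * σ) = pre M (lm - 3 * σ) p.2.2.2 := by
  intro x hx
  have e : lm - 3 * σ + 3 * σ = lm := by omega
  have h := fib_div4 M S (2 * κ + lm - 3 * σ) (κ + 2 * lm - 3 * σ) (κ - 3 * σ) (lm - 3 * σ)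
    (3 * σ) (by omega) p x hx
  rwa [e] at h

/-- JOB T1.  `info4` with `N = False` -/
theorem tcC_nonneg (M : ℕ) (S : Finset Pt) (κ lm σ : ℕ) (p : Pt) (hp : p ∈ S) :
    0 ≤ tcC M S κ lm σ p := by
  have h := info4 (S := fibC M S κ lm σ p) ⟨p, T1_mem M S κ lm σ p hp⟩
    (fun x => pre M (2 * κ + lm) x.1) (fun x => pre M (κ + 2 * lm) x.2.1)
    (fun x => pre M κ x.2.2.1) (fun x => pre M lm x.2.2.2) (fun _ _ _ _ => False)
    (fun _ _ h => h)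
  unfold tcC sumC
  exact le_trans (by positivity) h

/-- each of the four entropies is `≤ 3σ` (`ent_le_N`, `image_div_card`, `fib_div1`..`fib_div4`) -/
theorem sumC_le (M : ℕ) (S : Finset Pt) (κ lm σ : ℕ) (p : Pt) (hp : p ∈ S) (hκ : 3 * σ ≤ κ)
    (hl : 3 * σ ≤ lm) (h1 : 2 * κ + lm ≤ M) (h2 : κ + 2 * lm ≤ M) :
    sumC M S κ lm σ p ≤ 12 * σ := by
  classical
  have hne : (fibC M S κ lm σ p).Nonempty := ⟨p, T1_mem M S κ lm σ p hp⟩
  have e1 := ent_le_N hne (fun x => pre M (2 * κ + lm) x.1) (3 * σ)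
    (by
      have := image_div_card (fibC M S κ lm σ p) (fun x => pre M (2 * κ + lm) x.1) (3 * σ) _
        (T1_div1 M S κ lm σ p hκ h1)
      convert this)
  have e2 := ent_le_N hne (fun x => pre M (κ + 2 * lm) x.2.1) (3 * σ)
    (by
      have := image_div_card (fibC M S κ lm σ p) (fun x => pre M (κ + 2 * lm) x.2.1) (3 * σ) _
        (T1_div2 M S κ lm σ p hκ h2)
      convert this)
  have e3 := ent_le_N hne (fun x => pre M κ x.2.2.1) (3 * σ)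
    (by
      have := image_div_card (fibC M S κ lm σ p) (fun x => pre M κ x.2.2.1) (3 * σ) _
        (T1_div3 M S κ lm σ p hκ h1)
      convert this)
  have e4 := ent_le_N hne (fun x => pre M lm x.2.2.2) (3 * σ)
    (by
      have := image_div_card (fibC M S κ lm σ p) (fun x => pre M lm x.2.2.2) (3 * σ) _
        (T1_div4 M S κ lm σ p hl h1)
      convert this)
  push_cast at e1 e2 e3 e4
  unfold sumC
  linarith

/-- the mutual information of the two first parts is at most the total correlation (subadditivity, `info` with `N = False`) -/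
theorem mut_le_tc (M : ℕ) (S : Finset Pt) (κ lm σ : ℕ) (p : Pt) (hp : p ∈ S) :
    ent (fibC M S κ lm σ p) (fun x => pre M (2 * κ + lm) x.1) +
      ent (fibC M S κ lm σ p) (fun x => pre M (κ + 2 * lm) x.2.1) -
      ent (fibC M S κ lm σ p) (fun x => (pre M (2 * κ + lm) x.1, pre M (κ + 2 * lm) x.2.1)) ≤
      tcC M S κ lm σ p := by
  have hne : (fibC M S κ lm σ p).Nonempty := ⟨p, T1_mem M S κ lm σ p hp⟩
  have h1 := info hne (fun x => (pre M (2 * κ + lm) x.1, pre M (κ + 2 * lm) x.2.1))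
    (fun x => (pre M κ x.2.2.1, pre M lm x.2.2.2)) (fun _ _ => False) (fun _ _ h => h)
  have h2 := info hne (fun x => pre M κ x.2.2.1) (fun x => pre M lm x.2.2.2) (fun _ _ => False)
    (fun _ _ h => h)
  have h3 : 0 ≤ ent (fibC M S κ lm σ p) (fun x => (pre M (2 * κ + lm) x.1, pre M (κ + 2 * lm) x.2.1)) +
      ent (fibC M S κ lm σ p) (fun x => (pre M κ x.2.2.1, pre M lm x.2.2.2)) -
      ent (fibC M S κ lm σ p) (fun x => ((pre M (2 * κ + lm) x.1, pre M (κ + 2 * lm) x.2.1),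
        (pre M κ x.2.2.1, pre M lm x.2.2.2))) := le_trans (by positivity) h1
  have h4 : 0 ≤ ent (fibC M S κ lm σ p) (fun x => pre M κ x.2.2.1) +
      ent (fibC M S κ lm σ p) (fun x => pre M lm x.2.2.2) -
      ent (fibC M S κ lm σ p) (fun x => (pre M κ x.2.2.1, pre M lm x.2.2.2)) :=
    le_trans (by positivity) h2
  have h5 : ent (fibC M S κ lm σ p) (fun x => ((pre M (2 * κ + lm) x.1, pre M (κ + 2 * lm) x.2.1),
        (pre M κ x.2.2.1, pre M lm x.2.2.2))) = ent (fibC M S κ lm σ p)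
    (fun x => (pre M (2 * κ + lm) x.1, pre M (κ + 2 * lm) x.2.1, pre M κ x.2.2.1, pre M lm x.2.2.2)) := by
    apply MP_5e4520_nt.Ex.ent_congr
    intro x _ y _
    simp only [Prod.mk.injEq]
    tauto
  rw [h5] at h3
  unfold tcC sumC
  linarith

/-- the mass of one truncated density -/
private theorem T1_mass {F : Finset Pt} (hF : F.Nonempty) (f : Pt → ℕ) (v0 σ : ℕ)
    (hσ : 0 < σ) (h : ∀ x ∈ F, f x / 2 ^ (3 * σ) = v0) (A0 : ℝ)
    (ht2 : 2 ≤ A0 * σ / 16) (htσ : A0 * σ / 16 ≤ σ) :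
    A0 / 128 ≤ ∑ A ∈ range (2 ^ (3 * σ)),
      dns F f v0 (3 * σ) ((2 : ℝ) ^ (-(ent F f - A0 * σ / 16))) A := by
  classical
  have hσ0 : (0 : ℝ) < σ := by exact_mod_cast hσ
  have h1 := dns_mass F hF f v0 (3 * σ) h (A0 * σ / 16) (by linarith)
  have h2 := ent_le_N hF f (3 * σ)
    (by
      have := image_div_card F f (3 * σ) _ h
      convert this)
  have h3 := ent_nonneg F f
  refine le_trans ?_ h1
  push_cast at h2 ⊢
  rw [le_div_iff₀ (by linarith)]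
  have h4 : A0 / 128 * (3 * (σ : ℝ) - ent F f + A0 * σ / 16) ≤ A0 / 128 * (4 * σ) := by
    have hA : 0 ≤ A0 / 128 := by
      by_contra hcon
      push Not at hcon
      nlinarith
    apply mul_le_mul_of_nonneg_left _ hA
    linarith
  nlinarith

/-- One good fibre. -/
private theorem T1_core (A0 : ℝ) (hA0 : 0 < A0) (s σ : ℕ) (hs : 10 ≤ s)
    (hKs : 2800 * (s : ℝ) ≤ A0 * σ)
    (hsmall : 3 / 2 ^ s ≤ (A0 / 128) ^ 4 / 4)
    (Λ M lo hi : ℕ) (S : Finset Pt) (hS : Sys M (12 * s) Λ lo hi S)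
    (κ lm : ℕ) (hPar : ParC κ lm σ s) (hκ : lo + s ≤ κ) (hl : lo + s ≤ lm) (hhi : κ + lm ≤ hi)
    (h1 : 2 * κ + lm ≤ M) (h2 : κ + 2 * lm ≤ M) (p : Pt) (hp : p ∈ S)
    (hgen : GenC κ lm σ s (pre M (2 * κ + lm - 3 * σ) p.1) (pre M (κ + 2 * lm - 3 * σ) p.2.1))
    (hsum : A0 * (σ : ℝ) / 2 ≤ sumC M S κ lm σ p - 6 * (σ : ℝ))
    (hbad : badC M S κ lm σ s p ≤ 1 / 2 ^ (2 * s)) :
    (A0 / 128) ^ 4 / 128 * ((s : ℝ) ^ 2 / 2 ^ (12 * s)) ≤ tcC M S κ lm σ p := by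
  classical
  have hκσ : 3 * σ ≤ κ := by have := hPar.k1; omega
  have hlσ : 3 * σ ≤ lm := by have := hPar.l1; omega
  have hs0 : (10 : ℝ) ≤ s := by exact_mod_cast hs
  have hσpos : 0 < σ := by have := hPar.sσ; omega
  have hσ0 : (0 : ℝ) < σ := by exact_mod_cast hσpos
  set F := fibC M S κ lm σ p with hFdef
  have hF : F.Nonempty := ⟨p, T1_mem M S κ lm σ p hp⟩
  have d1 := T1_div1 M S κ lm σ p hκσ h1
  have d2 := T1_div2 M S κ lm σ p hκσ h2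
  have d3 := T1_div3 M S κ lm σ p hκσ h1
  have d4 := T1_div4 M S κ lm σ p hlσ h1
  rw [← hFdef] at d1 d2 d3 d4
  have hsumle := sumC_le M S κ lm σ p hp hκσ hlσ h1 h2
  have hA12 : A0 * σ / 16 ≤ σ := by linarith
  have ht2 : 2 ≤ A0 * σ / 16 := by linarith
  set t : ℝ := A0 * σ / 16 with ht
  set X : Pt → ℕ := fun x => pre M (2 * κ + lm) x.1 with hX
  set Y : Pt → ℕ := fun x => pre M (κ + 2 * lm) x.2.1 with hY
  set G : Pt → ℕ := fun x => pre M κ x.2.2.1 with hG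
  set D : Pt → ℕ := fun x => pre M lm x.2.2.2 with hD
  have hsumC : sumC M S κ lm σ p = ent F X + ent F Y + ent F G + ent F D := rfl
  have m1 := T1_mass hF X _ σ hσpos d1 A0 ht2 hA12
  have m2 := T1_mass hF Y _ σ hσpos d2 A0 ht2 hA12
  have m3 := T1_mass hF G _ σ hσpos d3 A0 ht2 hA12
  have m4 := T1_mass hF D _ σ hσpos d4 A0 ht2 hA12
  rw [← ht] at m1 m2 m3 m4
  have dens : ∀ (f : Pt → ℕ) (v0 : ℕ), (∀ x ∈ F, f x / 2 ^ (3 * σ) = v0) →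
      DensC σ ((2 : ℝ) ^ (-(ent F f - t))) (dns F f v0 (3 * σ) ((2 : ℝ) ^ (-(ent F f - t)))) := by
    intro f v0 hf
    exact ⟨fun A => dns_nonneg _ _ _ _ _ _, fun A => dns_le _ _ _ _ _ (by positivity) _,
      dns_sum_le _ _ _ _ _ hf⟩
  have hP : (2 : ℝ) ^ (-(ent F X - t)) * (2 : ℝ) ^ (-(ent F G - t)) *
      (2 : ℝ) ^ (-(ent F Y - t)) * (2 : ℝ) ^ (-(ent F D - t)) ≤ 1 / 2 ^ (6 * σ + 700 * s) := by
    rw [← Real.rpow_add two_pos, ← Real.rpow_add two_pos, ← Real.rpow_add two_pos,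
      one_div, ← Real.rpow_natCast, ← Real.rpow_neg two_pos.le]
    apply Real.rpow_le_rpow_of_exponent_le one_le_two
    rw [hsumC] at hsum
    push_cast
    linarith
  have hcore := R1core κ lm σ s (pre M (2 * κ + lm - 3 * σ) p.1) (pre M (κ + 2 * lm - 3 * σ) p.2.1)
    (pre M (κ - 3 * σ) p.2.2.1) (pre M (lm - 3 * σ) p.2.2.2) hs hPar hgen
    ((2 : ℝ) ^ (-(ent F X - t))) ((2 : ℝ) ^ (-(ent F G - t))) ((2 : ℝ) ^ (-(ent F Y - t)))
    ((2 : ℝ) ^ (-(ent F D - t)))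
    (dns F X (pre M (2 * κ + lm - 3 * σ) p.1) (3 * σ) ((2 : ℝ) ^ (-(ent F X - t))))
    (dns F G (pre M (κ - 3 * σ) p.2.2.1) (3 * σ) ((2 : ℝ) ^ (-(ent F G - t))))
    (dns F Y (pre M (κ + 2 * lm - 3 * σ) p.2.1) (3 * σ) ((2 : ℝ) ^ (-(ent F Y - t))))
    (dns F D (pre M (lm - 3 * σ) p.2.2.2) (3 * σ) ((2 : ℝ) ^ (-(ent F D - t))))
    (dens X _ d1) (dens G _ d3) (dens Y _ d2) (dens D _ d4) hP
  -- the right side
  have hfour := dns_four F X Y G D (pre M (2 * κ + lm - 3 * σ) p.1)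
    (pre M (κ + 2 * lm - 3 * σ) p.2.1) (pre M (κ - 3 * σ) p.2.2.1) (pre M (lm - 3 * σ) p.2.2.2)
    (3 * σ) ((2 : ℝ) ^ (-(ent F X - t))) ((2 : ℝ) ^ (-(ent F Y - t)))
    ((2 : ℝ) ^ (-(ent F G - t))) ((2 : ℝ) ^ (-(ent F D - t))) (hitB κ lm (12 * s) s)
  have hinfo := info4 hF X Y G D (hitB κ lm (12 * s) s) (by
    intro x hx
    exact nohitB hS κ lm hκ hl hhi h1 h2 x (T1_sub M S κ lm σ p x hx))
  have htc : tcC M S κ lm σ p = ent F X + ent F Y + ent F G + ent F D -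
      ent F (fun x => (X x, Y x, G x, D x)) := rfl
  rw [← htc] at hinfo
  have hR := hcore.trans (hfour.trans hinfo)
  -- the bad pairs
  have htwo := dns_two F X Y (pre M (2 * κ + lm - 3 * σ) p.1)
    (pre M (κ + 2 * lm - 3 * σ) p.2.1) (3 * σ) ((2 : ℝ) ^ (-(ent F X - t)))
    ((2 : ℝ) ^ (-(ent F Y - t))) (Bad1 κ lm s)
  have hev := info_event hF X Y (Bad1 κ lm s)
  have hmut := mut_le_tc M S κ lm σ p hp
  have hbadC : (((F.filter (fun x => Bad1 κ lm s (X x) (Y x))).card : ℝ) / F.card) ≤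
      1 / 2 ^ (2 * s) := hbad
  have hbp : ∑ A ∈ range (2 ^ (3 * σ)), ∑ B ∈ range (2 ^ (3 * σ)),
      dns F X (pre M (2 * κ + lm - 3 * σ) p.1) (3 * σ) ((2 : ℝ) ^ (-(ent F X - t))) A *
      dns F Y (pre M (κ + 2 * lm - 3 * σ) p.2.1) (3 * σ) ((2 : ℝ) ^ (-(ent F Y - t))) B *
      (if Bad1 κ lm s (pre M (2 * κ + lm - 3 * σ) p.1 * 2 ^ (3 * σ) + A)
        (pre M (κ + 2 * lm - 3 * σ) p.2.1 * 2 ^ (3 * σ) + B) then 1 else 0) ≤
      2 * (1 / 2 ^ (2 * s)) + 2 * tcC M S κ lm σ p := by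
    refine (htwo.trans hev).trans ?_
    have : ent F X + ent F Y - ent F (fun x => (X x, Y x)) ≤ tcC M S κ lm σ p := hmut
    linarith
  have htc0 := tcC_nonneg M S κ lm σ p hp
  -- numerics
  have hc4 : 0 < (A0 / 128) ^ 4 := by positivity
  have hpow : (s : ℝ) ^ 2 / 2 ^ (12 * s) ≤ 1 := by
    rw [div_le_one (by positivity)]
    have h3 : (s : ℝ) < 2 ^ s := by exact_mod_cast Nat.lt_two_pow_self
    calc (s : ℝ) ^ 2 ≤ (2 ^ s) ^ 2 := by gcongr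
      _ = 2 ^ (s * 2) := by rw [← pow_mul]
      _ ≤ 2 ^ (12 * s) := pow_le_pow_right₀ one_le_two (by omega)
  by_cases hcase : (A0 / 128) ^ 4 / 8 ≤ tcC M S κ lm σ p
  · calc (A0 / 128) ^ 4 / 128 * ((s : ℝ) ^ 2 / 2 ^ (12 * s)) ≤ (A0 / 128) ^ 4 / 128 * 1 := by gcongr
      _ ≤ (A0 / 128) ^ 4 / 8 := by linarith
      _ ≤ _ := hcase
  · push Not at hcase
    have hmass : (A0 / 128) ^ 4 ≤
        (∑ A ∈ range (2 ^ (3 * σ)), dns F X (pre M (2 * κ + lm - 3 * σ) p.1) (3 * σ)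
          ((2 : ℝ) ^ (-(ent F X - t))) A) *
        (∑ B ∈ range (2 ^ (3 * σ)), dns F Y (pre M (κ + 2 * lm - 3 * σ) p.2.1) (3 * σ)
          ((2 : ℝ) ^ (-(ent F Y - t))) B) *
        ((∑ C ∈ range (2 ^ (3 * σ)), dns F G (pre M (κ - 3 * σ) p.2.2.1) (3 * σ)
          ((2 : ℝ) ^ (-(ent F G - t))) C) *
        (∑ E ∈ range (2 ^ (3 * σ)), dns F D (pre M (lm - 3 * σ) p.2.2.2) (3 * σ)
          ((2 : ℝ) ^ (-(ent F D - t))) E)) := by
      have hA : 0 ≤ A0 / 128 := by positivity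
      calc (A0 / 128) ^ 4 = (A0 / 128) * (A0 / 128) * ((A0 / 128) * (A0 / 128)) := by ring
        _ ≤ _ := by
            apply mul_le_mul (mul_le_mul m1 m2 hA (hA.trans m1)) (mul_le_mul m3 m4 hA (hA.trans m3))
              (by positivity) (mul_nonneg (hA.trans m1) (hA.trans m2))
    have hpow2 : (1 : ℝ) / 2 ^ (2 * s) ≤ 1 / 2 ^ s :=
      one_div_le_one_div_of_le (by positivity) (pow_le_pow_right₀ one_le_two (by omega))
    have h3s : (3 : ℝ) / 2 ^ s = 3 * (1 / 2 ^ s) := by ring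
    rw [h3s] at hsmall
    set W : ℝ := (s : ℝ) ^ 2 / (64 * 2 ^ (12 * s)) with hW
    have hW0 : 0 ≤ W := by positivity
    have hbr : (A0 / 128) ^ 4 / 2 ≤
        (∑ A ∈ range (2 ^ (3 * σ)), dns F X (pre M (2 * κ + lm - 3 * σ) p.1) (3 * σ)
          ((2 : ℝ) ^ (-(ent F X - t))) A) *
        (∑ B ∈ range (2 ^ (3 * σ)), dns F Y (pre M (κ + 2 * lm - 3 * σ) p.2.1) (3 * σ)
          ((2 : ℝ) ^ (-(ent F Y - t))) B) *
        ((∑ C ∈ range (2 ^ (3 * σ)), dns F G (pre M (κ - 3 * σ) p.2.2.1) (3 * σ)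
          ((2 : ℝ) ^ (-(ent F G - t))) C) *
        (∑ E ∈ range (2 ^ (3 * σ)), dns F D (pre M (lm - 3 * σ) p.2.2.2) (3 * σ)
          ((2 : ℝ) ^ (-(ent F D - t))) E)) -
        (∑ A ∈ range (2 ^ (3 * σ)), ∑ B ∈ range (2 ^ (3 * σ)),
          dns F X (pre M (2 * κ + lm - 3 * σ) p.1) (3 * σ) ((2 : ℝ) ^ (-(ent F X - t))) A *
          dns F Y (pre M (κ + 2 * lm - 3 * σ) p.2.1) (3 * σ) ((2 : ℝ) ^ (-(ent F Y - t))) B *
          (if Bad1 κ lm s (pre M (2 * κ + lm - 3 * σ) p.1 * 2 ^ (3 * σ) + A)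
            (pre M (κ + 2 * lm - 3 * σ) p.2.1 * 2 ^ (3 * σ) + B) then 1 else 0)) - 1 / 2 ^ s := by
      linarith
    have hfin := (mul_le_mul_of_nonneg_left hbr hW0).trans hR
    refine le_trans (le_of_eq ?_) hfin
    rw [hW]
    field_simp
    ring

/-- One good fibre.  `t = A0 σ/16`, `τ = 2^(-(ent - t))` for each of the four parts, densities `dns`.  Masses: `dns_mass`,
`(t-1)/(3σ - ent + t) ≥ (t/2)/(4σ) = A0/128` (`t ≥ 2`; `t ≤ σ` since `A0 σ/2 ≤ 12σ - 6σ`).  Product of the sup norms `2^(-(sumC - 4t))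
≤ 2^(-(6σ + A0σ/4)) ≤ 2^(-6σ-700s)` if `A0 Kσ ≥ 2800`.  `R1core`, `dns_four`, `info4` with `nohitB` give
`s²/(64·2^(12s)) (c4 - BadProd - 2^(-s)) ≤ tcC`, `c4 = (A0/128)^4`, and `BadProd ≤ P_prod(Bad1) ≤ 2 (badC + mutual information)
≤ 2·2^(-2s) + 2 tcC` (`dns_two`, `info_event`, `mut_le_tc`).  If `tcC ≥ c4/8` done (`s² ≤ 2^(12s)`), otherwise the bracket is
`≥ c4/2` for large `s`, and `tcC ≥ (c4/128) s²/2^(12s)`.  So `c = c4/128`. -/
theorem fib_core1 (A0 : ℝ) (hA0 : 0 < A0) : ∃ (K1 : ℕ) (c : ℝ), 0 < c ∧ ∀ Kσ ≥ K1, ∃ s0 : ℕ,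
    ∀ s ≥ s0, ∀ (Λ M lo hi : ℕ) (S : Finset Pt), Sys M (12 * s) Λ lo hi S →
    ∀ κ lm : ℕ, ParC κ lm (Kσ * s) s → lo + s ≤ κ → lo + s ≤ lm → κ + lm ≤ hi → 2 * κ + lm ≤ M →
    κ + 2 * lm ≤ M → ∀ p ∈ S,
    GenC κ lm (Kσ * s) s (pre M (2 * κ + lm - 3 * (Kσ * s)) p.1)
      (pre M (κ + 2 * lm - 3 * (Kσ * s)) p.2.1) →
    A0 * (Kσ * s : ℕ) / 2 ≤ sumC M S κ lm (Kσ * s) p - 6 * (Kσ * s : ℕ) →
    badC M S κ lm (Kσ * s) s p ≤ 1 / 2 ^ (2 * s) →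
    c * ((s : ℝ) ^ 2 / 2 ^ (12 * s)) ≤ tcC M S κ lm (Kσ * s) p := by
  obtain ⟨K1, hK1⟩ := exists_nat_ge (2800 / A0)
  have hc4 : 0 < (A0 / 128) ^ 4 := by positivity
  refine ⟨K1, (A0 / 128) ^ 4 / 128, by positivity, fun Kσ hK => ?_⟩
  obtain ⟨s1, hs1⟩ := exists_nat_ge (12 / (A0 / 128) ^ 4)
  refine ⟨max 10 s1, fun s hs Λ M lo hi S hS κ lm hPar hκ hl hhi h1 h2 p hp hgen hsum hbad => ?_⟩
  have hs10 : 10 ≤ s := (le_max_left _ _).trans hs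
  have hss1 : s1 ≤ s := (le_max_right _ _).trans hs
  apply T1_core A0 hA0 s (Kσ * s) hs10 ?_ ?_ Λ M lo hi S hS κ lm hPar hκ hl hhi h1 h2 p hp hgen
    hsum hbad
  · have h3 : 2800 / A0 ≤ (Kσ : ℝ) := hK1.trans (by exact_mod_cast hK)
    rw [div_le_iff₀ hA0] at h3
    have h4 : 0 ≤ (s : ℝ) := Nat.cast_nonneg s
    push_cast
    nlinarith
  · have h3 : (12 / (A0 / 128) ^ 4 : ℝ) ≤ 2 ^ s := by
      calc (12 / (A0 / 128) ^ 4 : ℝ) ≤ s1 := hs1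
        _ ≤ s := by exact_mod_cast hss1
        _ ≤ 2 ^ s := by exact_mod_cast Nat.lt_two_pow_self.le
    rw [div_le_iff₀ hc4] at h3
    rw [div_le_iff₀ (by positivity)]
    linarith

end MP_5e4520_nt.Ex
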