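import Pool.Agent.Lib.MP_5e4520_ntE.V1
set_option autoImplicit false

/-!
# Returns of the shells: minimal return, rank 2, tests with a small return
-/

namespace MP_5e4520_nt.Ex

open Finset

/-- JOB V2.  If the returns (homogeneous solutions in the box) have rank `≤ 1`, they are all multiples of the smallest one.
`q0` = minimal return, `p0 = round (q0 a/Q1)`, `p0' = round (q0 b/Q2)`, `δ1 = q0 a/Q1 - p0`, `δ2 = q0 b/Q2 - p0'`
(`|δ1| = nd (q0 a/Q1)`).  For a return `q` put `p, p'` the rounds; `¬ rank2` gives `q0 p = q p0`, `q0 p' = q p0'`.  Write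
`q = n q0 + r`, `r < q0`.  If `r > 0` then `p - n p0 = (r/q0) p0`, so `|r a/Q1 - (p - n p0)| = (r/q0)|δ1| < ξ1` and the same for `b`:
`r` is a smaller return (`nd t ≤ |t - z|` for every integer `z`), contradiction.  So `q = n q0`, `p = n p0`, `p' = n p0'`,
`q a/Q1 = n p0 + n δ1` and `n |δ1| = |q a/Q1 - p| = nd (q a/Q1) < ξ1`. -/
theorem min_return (Q1 Q2 X : ℕ) (ξ1 ξ2 : ℝ) (a b : ℕ) (hr : ¬ rank2 Q1 Q2 X ξ1 ξ2 a b)
    (hne : ∃ q : ℕ, 1 ≤ q ∧ q ≤ X ∧ nd ((q : ℝ) * a / Q1) < ξ1 ∧ nd ((q : ℝ) * b / Q2) < ξ2) :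
    ∃ (q0 : ℕ) (δ1 δ2 : ℝ), 1 ≤ q0 ∧ q0 ≤ X ∧ |δ1| < ξ1 ∧ |δ2| < ξ2 ∧
      |δ1| = nd ((q0 : ℝ) * a / Q1) ∧ |δ2| = nd ((q0 : ℝ) * b / Q2) ∧
      ∀ q : ℕ, 1 ≤ q → q ≤ X → nd ((q : ℝ) * a / Q1) < ξ1 → nd ((q : ℝ) * b / Q2) < ξ2 →
        ∃ n : ℕ, 1 ≤ n ∧ q = n * q0 ∧
          nd ((q : ℝ) * a / Q1) = n * |δ1| ∧ nd ((q : ℝ) * b / Q2) = n * |δ2| ∧
          (∃ z : ℤ, (q : ℝ) * a / Q1 = z + n * δ1) ∧ (∃ z : ℤ, (q : ℝ) * b / Q2 = z + n * δ2) := by
  classical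
  set P : ℕ → Prop := fun q => 1 ≤ q ∧ q ≤ X ∧ nd ((q : ℝ) * a / Q1) < ξ1 ∧
    nd ((q : ℝ) * b / Q2) < ξ2 with hP
  have hne' : ∃ q, P q := hne
  set q0 := Nat.find hne' with hq0
  obtain ⟨h1, h2, h3, h4⟩ : P q0 := Nat.find_spec hne'
  have hmin : ∀ q, P q → q0 ≤ q := fun q hq => Nat.find_min' hne' hq
  have hq0R : (0 : ℝ) < q0 := by exact_mod_cast h1
  set p0 : ℤ := round ((q0 : ℝ) * a / Q1) with hp0
  set p0' : ℤ := round ((q0 : ℝ) * b / Q2) with hp0'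
  refine ⟨q0, (q0 : ℝ) * a / Q1 - p0, (q0 : ℝ) * b / Q2 - p0', h1, h2, h3, h4, rfl, rfl, ?_⟩
  intro q hq1 hq2 hq3 hq4
  set p : ℤ := round ((q : ℝ) * a / Q1) with hp
  set p' : ℤ := round ((q : ℝ) * b / Q2) with hp'
  have hpp : (q0 : ℤ) * p = q * p0 ∧ (q0 : ℤ) * p' = q * p0' := by
    by_contra hcon
    apply hr
    refine ⟨q0, q, ⟨h1, h2⟩, ⟨hq1, hq2⟩, h3, h4, hq3, hq4, ?_⟩
    by_cases hc : (q0 : ℤ) * p = q * p0
    · exact Or.inr (fun h => hcon ⟨hc, h⟩)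
    · exact Or.inl hc
  obtain ⟨e1, e2⟩ := hpp
  set n := q / q0 with hn
  set r := q % q0 with hrdef
  have hdm : q0 * n + r = q := Nat.div_add_mod q q0
  have hrlt : r < q0 := Nat.mod_lt _ h1
  have hdmR : (q0 : ℝ) * n + r = q := by exact_mod_cast hdm
  have e1R : (q0 : ℝ) * p = q * p0 := by exact_mod_cast e1
  have e2R : (q0 : ℝ) * p' = q * p0' := by exact_mod_cast e2
  have hr0 : r = 0 := by
    by_contra hrne
    have hrpos : 1 ≤ r := Nat.one_le_iff_ne_zero.2 hrne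
    have key : ∀ (t : ℝ) (z z0 : ℤ), (q0 : ℝ) * z = q * z0 →
        nd ((r : ℝ) * t) ≤ |(q0 : ℝ) * t - z0| := by
      intro t z z0 hz
      have h5 : (r : ℝ) * t - ((z - n * z0 : ℤ) : ℝ) = (r / q0) * ((q0 : ℝ) * t - z0) := by
        push_cast
        have h6 : (z : ℝ) = q * z0 / q0 := by
          rw [eq_div_iff hq0R.ne']
          linarith
        rw [h6, ← hdmR]
        field_simp
        ring
      refine (nd_le _ (z - n * z0)).trans ?_
      rw [h5, abs_mul]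
      have h7 : |(r : ℝ) / q0| ≤ 1 := by
        rw [abs_of_nonneg (by positivity), div_le_one hq0R]
        exact_mod_cast hrlt.le
      calc |(r : ℝ) / q0| * |(q0 : ℝ) * t - z0| ≤ 1 * |(q0 : ℝ) * t - z0| := by
            apply mul_le_mul_of_nonneg_right h7 (abs_nonneg _)
        _ = _ := one_mul _
    have hPr : P r := by
      refine ⟨hrpos, ?_, ?_, ?_⟩
      · omega
      · have h5 := key ((a : ℝ) / Q1) p p0 e1R
        rw [← mul_div_assoc, ← mul_div_assoc] at h5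
        exact lt_of_le_of_lt h5 h3
      · have h5 := key ((b : ℝ) / Q2) p' p0' e2R
        rw [← mul_div_assoc, ← mul_div_assoc] at h5
        exact lt_of_le_of_lt h5 h4
    have := hmin r hPr
    omega
  have hqn : q = n * q0 := by
    rw [← hdm, hr0, Nat.add_zero, Nat.mul_comm]
  have hn1 : 1 ≤ n := by
    rcases Nat.eq_zero_or_pos n with h | h
    · rw [h, Nat.zero_mul] at hqn
      omega
    · exact h
  have hqnR : (q : ℝ) = n * q0 := by exact_mod_cast hqn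
  have hpn : (p : ℝ) = n * p0 := by
    have h5 : (q0 : ℝ) * p = q0 * (n * p0) := by
      rw [e1R, hqnR]
      ring
    exact mul_left_cancel₀ hq0R.ne' h5
  have hpn' : (p' : ℝ) = n * p0' := by
    have h5 : (q0 : ℝ) * p' = q0 * (n * p0') := by
      rw [e2R, hqnR]
      ring
    exact mul_left_cancel₀ hq0R.ne' h5
  have f1 : (q : ℝ) * a / Q1 - p = n * ((q0 : ℝ) * a / Q1 - p0) := by
    rw [hpn, hqnR]
    ring
  have f2 : (q : ℝ) * b / Q2 - p' = n * ((q0 : ℝ) * b / Q2 - p0') := by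
    rw [hpn', hqnR]
    ring
  refine ⟨n, hn1, hqn, ?_, ?_, ⟨p, ?_⟩, ⟨p', ?_⟩⟩
  · change |(q : ℝ) * a / Q1 - p| = _
    rw [f1, abs_mul, abs_of_nonneg (Nat.cast_nonneg n : (0 : ℝ) ≤ (n : ℝ))]
  · change |(q : ℝ) * b / Q2 - p'| = _
    rw [f2, abs_mul, abs_of_nonneg (Nat.cast_nonneg n : (0 : ℝ) ≤ (n : ℝ))]
  · rw [← f1]
    ring
  · rw [← f2]
    ring

/-- one shell: if `q0` is its smallest element, the differences `q - q0` are homogeneous solutions `< 2^ρ` with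
`‖(q - q0) a/Q1‖ < 2^(-k-1)`, `‖(q - q0) b/Q2‖ < 2^(-l-1)` (`shl_pos`, `pos1_diff`, `pos2_diff`) -/
theorem shl_card_hom (κ lm s e x y g d a b : ℕ) (hs : 1 ≤ s) (hx : x < s) (hy : y < s)
    (hκ : 20 * s ≤ κ) (hl : 20 * s ≤ lm) :
    ((shl κ lm s e x y g d a b).card : ℝ) ≤
      1 + (hom (2 ^ (2 * κ + lm + e)) (2 ^ (κ + 2 * lm + e)) (2 ^ (κ - x + (lm - y) - 12 * s))
        (1 / 2 ^ (κ - x + 1)) (1 / 2 ^ (lm - y + 1)) a b : ℝ) := by
  classical
  rcases (shl κ lm s e x y g d a b).eq_empty_or_nonempty with hE | hne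
  · rw [hE, card_empty, Nat.cast_zero]
    positivity
  · set S := shl κ lm s e x y g d a b with hS
    set q0 := S.min' hne with hq0
    have hq0S : q0 ∈ S := S.min'_mem hne
    have hx' : x ≤ κ := by omega
    have hy' : y ≤ lm := by omega
    obtain ⟨a1, a2, a3, a4, a5, a6⟩ := shl_pos κ lm s e x y g d a b q0 hx' hy' hq0S
    have hcard : (S.erase q0).card ≤
        hom (2 ^ (2 * κ + lm + e)) (2 ^ (κ + 2 * lm + e)) (2 ^ (κ - x + (lm - y) - 12 * s))
        (1 / 2 ^ (κ - x + 1)) (1 / 2 ^ (lm - y + 1)) a b := by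
      unfold hom
      apply card_le_card_of_injOn (fun q => q - q0)
      · intro q hq
        rw [mem_coe, mem_erase] at hq
        have hlt : q0 < q := lt_of_le_of_ne (S.min'_le q hq.2) (Ne.symm hq.1)
        obtain ⟨c1, c2, c3, c4, c5, c6⟩ := shl_pos κ lm s e x y g d a b q hx' hy' hq.2
        rw [mem_coe, mem_filter, mem_Icc]
        have hhalf : ∀ n : ℕ, (1 : ℝ) / 2 ^ n = 1 / 2 ^ (n + 1) + 1 / 2 ^ (n + 1) := by
          intro n
          rw [pow_succ]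
          field_simp
          norm_num
        refine ⟨⟨(show 1 ≤ q - q0 by omega), ?_⟩, ?_, ?_⟩
        · rw [pow_succ] at c6
          simp only
          omega
        · obtain ⟨z, hz⟩ := pos1_diff κ lm e g a q q0 hlt.le
          refine (nd_le _ z).trans_lt ?_
          rw [← hz, abs_lt]
          have := hhalf (κ - x)
          constructor <;> linarith
        · obtain ⟨z, hz⟩ := pos2_diff κ lm e d b q q0 hlt.le
          refine (nd_le _ z).trans_lt ?_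
          rw [← hz, abs_lt]
          have := hhalf (lm - y)
          constructor <;> linarith
      · intro q hq q' hq' hqq
        rw [mem_coe, mem_erase] at hq hq'
        have hlt : q0 ≤ q := S.min'_le q hq.2
        have hlt' : q0 ≤ q' := S.min'_le q' hq'.2
        simp only at hqq
        omega
    rw [card_erase_of_mem hq0S] at hcard
    have h1 : S.card ≤ 1 + hom (2 ^ (2 * κ + lm + e)) (2 ^ (κ + 2 * lm + e))
        (2 ^ (κ - x + (lm - y) - 12 * s)) (1 / 2 ^ (κ - x + 1)) (1 / 2 ^ (lm - y + 1)) a b := by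
      omega
    exact_mod_cast h1

/-- `hom` is monotone in the box -/
theorem hom_mono (Q1 Q2 X X' : ℕ) (ξ1 ξ2 ξ1' ξ2' : ℝ) (a b : ℕ) (hX : X ≤ X') (h1 : ξ1 ≤ ξ1')
    (h2 : ξ2 ≤ ξ2') : hom Q1 Q2 X ξ1 ξ2 a b ≤ hom Q1 Q2 X' ξ1' ξ2' a b := by
  classical
  unfold hom
  apply card_le_card
  intro q hq
  rw [mem_filter, mem_Icc] at hq ⊢
  exact ⟨⟨hq.1.1, hq.1.2.trans hX⟩, lt_of_lt_of_le hq.2.1 h1, lt_of_lt_of_le hq.2.2 h2⟩

/-- A test with a small return, in rank `≤ 1`: the number `n*` of multiples `n q0` (`n ≥ 1`) of the minimal return in the small box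
(`2^(ρ-9)`, `2^(-k-10)`, `2^(-l-10)`) is `≥ 1`, and if `n q0` is in the box (`2^ρ`, `2^(-k-1)`, `2^(-l-1)`) then `⌊n/512⌋ q0` is in the small
box or `n < 512`, so `⌊n/512⌋ ≤ n*`; hence the box of `shl_card_hom` contains at most `512 (n*+1) - 1` returns and
`#shl ≤ 512 (n*+1) ≤ 1024 n*`.  All these returns are in the box of `rk` (`2^(κ+lm-12s+1)`, `2^(s+1)/2^κ`, `2^(s+1)/2^lm`), so they are
the multiples `n q0` with `n q0 ≤ ..`, `n |δ1| < ..`, `n |δ2| < ..` (`min_return`). -/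
theorem shl_card_small (κ lm s e x y g d a b : ℕ) (hs : 1 ≤ s) (hx : x < s) (hy : y < s)
    (hκ : 20 * s ≤ κ) (hl : 20 * s ≤ lm) (hr : ¬ rk κ lm s e a b)
    (hp : 0 < hom (2 ^ (2 * κ + lm + e)) (2 ^ (κ + 2 * lm + e)) (2 ^ (κ - x + (lm - y) - 12 * s - 9))
      (1 / 2 ^ (κ - x + 10)) (1 / 2 ^ (lm - y + 10)) a b) :
    ((shl κ lm s e x y g d a b).card : ℝ) ≤
      2 ^ 10 * (hom (2 ^ (2 * κ + lm + e)) (2 ^ (κ + 2 * lm + e))
        (2 ^ (κ - x + (lm - y) - 12 * s - 9)) (1 / 2 ^ (κ - x + 10)) (1 / 2 ^ (lm - y + 10)) a b : ℝ) := by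
  classical
  have hx' : x ≤ κ := by omega
  have hy' : y ≤ lm := by omega
  set Q1 : ℕ := 2 ^ (2 * κ + lm + e) with hQ1
  set Q2 : ℕ := 2 ^ (κ + 2 * lm + e) with hQ2
  set ρ := κ - x + (lm - y) - 12 * s with hρ
  have hρ9 : ρ - 9 + 9 = ρ := by omega
  have hpow : 2 ^ ρ = 512 * 2 ^ (ρ - 9) := by
    rw [← hρ9, pow_add]
    simp only [Nat.add_sub_cancel]
    ring
  -- the box of the shell inside the large box
  have hbox : ∀ (t κ' : ℕ), t < s → t ≤ κ' → (1 : ℝ) / 2 ^ (κ' - t + 1) ≤ 2 ^ (s + 1) / 2 ^ κ' := by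
    intro t κ' ht htκ
    rw [div_le_div_iff₀ (by positivity) (by positivity), one_mul, ← pow_add]
    apply pow_le_pow_right₀ (by norm_num)
    omega
  have hXX : 2 ^ ρ ≤ 2 ^ (κ + lm - 12 * s + 1) := Nat.pow_le_pow_right (by norm_num) (by omega)
  set Ssm := (Icc 1 (2 ^ (ρ - 9))).filter (fun q : ℕ =>
    nd ((q : ℝ) * a / Q1) < 1 / 2 ^ (κ - x + 10) ∧ nd ((q : ℝ) * b / Q2) < 1 / 2 ^ (lm - y + 10))
    with hSsm
  have hhom : hom Q1 Q2 (2 ^ (ρ - 9)) (1 / 2 ^ (κ - x + 10)) (1 / 2 ^ (lm - y + 10)) a b =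
      Ssm.card := rfl
  rw [hhom] at hp ⊢
  have h10 : ∀ n : ℕ, (1 : ℝ) / 2 ^ (n + 10) ≤ 1 / 2 ^ (n + 1) := by
    intro n
    apply one_div_le_one_div_of_le (by positivity)
    exact pow_le_pow_right₀ (by norm_num) (by omega)
  have h9 : 2 ^ (ρ - 9) ≤ 2 ^ ρ := Nat.pow_le_pow_right (by norm_num) (by omega)
  have hne : ∃ q : ℕ, 1 ≤ q ∧ q ≤ 2 ^ (κ + lm - 12 * s + 1) ∧
      nd ((q : ℝ) * a / Q1) < 2 ^ (s + 1) / 2 ^ κ ∧ nd ((q : ℝ) * b / Q2) < 2 ^ (s + 1) / 2 ^ lm := by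
    obtain ⟨q, hq⟩ := card_pos.1 hp
    rw [hSsm, mem_filter, mem_Icc] at hq
    refine ⟨q, hq.1.1, (hq.1.2.trans h9).trans hXX, ?_, ?_⟩
    · exact lt_of_lt_of_le hq.2.1 ((h10 _).trans (hbox x κ hx hx'))
    · exact lt_of_lt_of_le hq.2.2 ((h10 _).trans (hbox y lm hy hy'))
  obtain ⟨q0, δ1, δ2, g1, g2, g3, g4, g5, g6, g7⟩ := min_return Q1 Q2 _ _ _ a b hr hne
  have hcard := shl_card_hom κ lm s e x y g d a b hs hx hy hκ hl
  set B := (Icc 1 (2 ^ ρ)).filter (fun q : ℕ =>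
    nd ((q : ℝ) * a / Q1) < 1 / 2 ^ (κ - x + 1) ∧ nd ((q : ℝ) * b / Q2) < 1 / 2 ^ (lm - y + 1))
    with hB
  have hhomB : hom Q1 Q2 (2 ^ ρ) (1 / 2 ^ (κ - x + 1)) (1 / 2 ^ (lm - y + 1)) a b = B.card := rfl
  rw [hhomB] at hcard
  -- the multiples
  have hmul : ∀ q ∈ B, ∃ n : ℕ, 1 ≤ n ∧ q = n * q0 ∧ n < 512 * (Ssm.card + 1) := by
    intro q hq
    rw [hB, mem_filter, mem_Icc] at hq
    obtain ⟨⟨q1, q2⟩, q3, q4⟩ := hq
    obtain ⟨n, n1, n2, n3, n4, _, _⟩ := g7 q q1 (q2.trans hXX)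
      (lt_of_lt_of_le q3 (hbox x κ hx hx')) (lt_of_lt_of_le q4 (hbox y lm hy hy'))
    refine ⟨n, n1, n2, ?_⟩
    by_contra hcon
    push Not at hcon
    have hsub : ((Icc 1 (Ssm.card + 1)).image (fun j => j * q0)) ⊆ Ssm := by
      intro t ht
      rw [mem_image] at ht
      obtain ⟨j, hj, rfl⟩ := ht
      rw [mem_Icc] at hj
      have hj512 : 512 * j ≤ n := by omega
      have hj512R : 512 * (j : ℝ) ≤ n := by exact_mod_cast hj512
      rw [hSsm, mem_filter, mem_Icc]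
      refine ⟨⟨?_, ?_⟩, ?_, ?_⟩
      · exact Nat.mul_pos hj.1 g1
      · have h5 : 512 * (j * q0) ≤ 512 * 2 ^ (ρ - 9) := by
          rw [← hpow]
          calc 512 * (j * q0) = (512 * j) * q0 := by ring
            _ ≤ n * q0 := Nat.mul_le_mul_right _ hj512
            _ = q := n2.symm
            _ ≤ 2 ^ ρ := q2
        omega
      · have h5 : nd (((j * q0 : ℕ) : ℝ) * a / Q1) ≤ j * |δ1| := by
          rw [g5]
          have h6 : ((j * q0 : ℕ) : ℝ) * a / Q1 = j * ((q0 : ℝ) * a / Q1) := by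
            push_cast
            ring
          rw [h6]
          exact nd_nat_mul_le j _
        refine lt_of_le_of_lt h5 ?_
        have h7 : 512 * (j * |δ1|) < 1 / 2 ^ (κ - x + 1) := by
          calc 512 * (j * |δ1|) = (512 * j) * |δ1| := by ring
            _ ≤ n * |δ1| := mul_le_mul_of_nonneg_right hj512R (abs_nonneg _)
            _ = nd ((q : ℝ) * a / Q1) := n3.symm
            _ < _ := q3
        have h8 : (1 : ℝ) / 2 ^ (κ - x + 1) = 512 * (1 / 2 ^ (κ - x + 10)) := by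
          rw [show κ - x + 10 = (κ - x + 1) + 9 by ring, pow_add _ (κ - x + 1) 9,
            show (2 : ℝ) ^ 9 = 512 by norm_num]
          field_simp
        rw [h8] at h7
        linarith
      · have h5 : nd (((j * q0 : ℕ) : ℝ) * b / Q2) ≤ j * |δ2| := by
          rw [g6]
          have h6 : ((j * q0 : ℕ) : ℝ) * b / Q2 = j * ((q0 : ℝ) * b / Q2) := by
            push_cast
            ring
          rw [h6]
          exact nd_nat_mul_le j _
        refine lt_of_le_of_lt h5 ?_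
        have h7 : 512 * (j * |δ2|) < 1 / 2 ^ (lm - y + 1) := by
          calc 512 * (j * |δ2|) = (512 * j) * |δ2| := by ring
            _ ≤ n * |δ2| := mul_le_mul_of_nonneg_right hj512R (abs_nonneg _)
            _ = nd ((q : ℝ) * b / Q2) := n4.symm
            _ < _ := q4
        have h8 : (1 : ℝ) / 2 ^ (lm - y + 1) = 512 * (1 / 2 ^ (lm - y + 10)) := by
          rw [show lm - y + 10 = (lm - y + 1) + 9 by ring, pow_add _ (lm - y + 1) 9,
            show (2 : ℝ) ^ 9 = 512 by norm_num]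
          field_simp
        rw [h8] at h7
        linarith
    have h5 := card_le_card hsub
    rw [card_image_of_injective, Nat.card_Icc] at h5
    · omega
    · intro i j hij
      exact Nat.eq_of_mul_eq_mul_right g1 hij
  have hBcard : B.card ≤ (Icc 1 (512 * (Ssm.card + 1) - 1)).card := by
    apply card_le_card_of_injOn (fun q => q / q0)
    · intro q hq
      obtain ⟨n, n1, n2, n3⟩ := hmul q hq
      simp only [mem_coe, mem_Icc]
      rw [n2, Nat.mul_div_cancel _ g1]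
      omega
    · intro q hq q' hq' hqq
      obtain ⟨n, n1, n2, n3⟩ := hmul q hq
      obtain ⟨n', n1', n2', n3'⟩ := hmul q' hq'
      simp only at hqq
      rw [n2, n2', Nat.mul_div_cancel _ g1, Nat.mul_div_cancel _ g1] at hqq
      rw [n2, n2', hqq]
  rw [Nat.card_Icc] at hBcard
  have hfin : (B.card : ℝ) ≤ 512 * ((Ssm.card : ℝ) + 1) - 1 := by
    have : B.card + 1 ≤ 512 * (Ssm.card + 1) := by omega
    have : (B.card : ℝ) + 1 ≤ 512 * ((Ssm.card : ℝ) + 1) := by exact_mod_cast this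
    linarith
  have hSR : (1 : ℝ) ≤ Ssm.card := by exact_mod_cast hp
  norm_num
  linarith

end MP_5e4520_nt.Ex
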